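import Pool.Agent.K9h21.GP.Stm7

/-!
# Project GPA, leaf A-ASY: the relation for large and for small `|t|`
-/

set_option autoImplicit false

namespace Pool.Agent.K9h21.GP

open Polynomial Filter Topology

namespace ASY_

open Classical in
/-- the Fourier coefficients are approximated by the sums of `y^k x^(n-1-i) / G'(x)` -/
theorem approx (n : ℕ) (R R' : Finset ℂ) (hR : R.card = n) (hR' : R'.card = n)
    (Z : ℂ → ℂ → Prop) (d : ℂ → ℂ) (x₀ y₀ : ℂ) (hy₀ : y₀ ≠ 0) (e₁ : ℝ)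
    (h0 : ∀ x ∈ R, x ≠ 0 ∧ d x ≠ 0 ∧ ‖n * x ^ (n - 1) / d x - 1‖ ≤ e₁)
    (hq : ∀ x ∈ R, ‖x₀ / x‖ ≤ 2) (hq' : ∀ y ∈ R', ‖y / y₀‖ ≤ 2) (i k : ℕ) (hi : i < n)
    (hk : k < n) :
    ‖FC R R' Z (fun x => (x₀ / x) ^ i) (fun y => (y / y₀) ^ k) -
      n * x₀ ^ i / y₀ ^ k * ∑ x ∈ R, ∑ y ∈ R',
        (if Z x y then y ^ k * x ^ (n - 1 - i) / d x else 0)‖ ≤ n ^ 2 * 4 ^ n * e₁ := by
  have e : FC R R' Z (fun x => (x₀ / x) ^ i) (fun y => (y / y₀) ^ k) -
      n * x₀ ^ i / y₀ ^ k * ∑ x ∈ R, ∑ y ∈ R',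
        (if Z x y then y ^ k * x ^ (n - 1 - i) / d x else 0) =
      ∑ x ∈ R, ∑ y ∈ R', (if Z x y then
        -((x₀ / x) ^ i * (y / y₀) ^ k * (n * x ^ (n - 1) / d x - 1)) else 0) := by
    unfold FC
    rw [Finset.mul_sum, ← Finset.sum_sub_distrib]
    apply Finset.sum_congr rfl
    intro x hx
    rw [Finset.mul_sum, ← Finset.sum_sub_distrib]
    apply Finset.sum_congr rfl
    intro y _
    obtain ⟨hx0, hd, _⟩ := h0 x hx
    split_ifs with h
    · have hp : x ^ (n - 1) = x ^ (n - 1 - i) * x ^ i := by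
        rw [← pow_add]; congr 1; omega
      have hxi : x ^ i ≠ 0 := pow_ne_zero _ hx0
      have hyk : y₀ ^ k ≠ 0 := pow_ne_zero _ hy₀
      beta_reduce
      rw [hp, div_pow, div_pow]
      generalize x ^ i = A at hxi ⊢
      generalize y₀ ^ k = B at hyk ⊢
      field_simp
      ring
    · simp
  rw [e]
  have hb : ∀ x ∈ R, ∀ y ∈ R', ‖(if Z x y then
      -((x₀ / x) ^ i * (y / y₀) ^ k * (n * x ^ (n - 1) / d x - 1)) else 0)‖ ≤ 4 ^ n * e₁ := by
    intro x hx y hy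
    obtain ⟨_, _, h3⟩ := h0 x hx
    have he : 0 ≤ e₁ := (norm_nonneg _).trans h3
    split_ifs with h
    · rw [norm_neg, norm_mul, norm_mul, norm_pow, norm_pow]
      have p1 : ‖x₀ / x‖ ^ i ≤ 2 ^ n :=
        (pow_le_pow_left₀ (norm_nonneg _) (hq x hx) i).trans
          (pow_le_pow_right₀ (by norm_num) hi.le)
      have p2 : ‖y / y₀‖ ^ k ≤ 2 ^ n :=
        (pow_le_pow_left₀ (norm_nonneg _) (hq' y hy) k).trans
          (pow_le_pow_right₀ (by norm_num) hk.le)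
      have p3 : (4 : ℝ) ^ n = 2 ^ n * 2 ^ n := by rw [← mul_pow]; norm_num
      rw [p3]
      apply mul_le_mul (mul_le_mul p1 p2 (by positivity) (by positivity)) h3 (norm_nonneg _)
        (by positivity)
    · rw [norm_zero]
      positivity
  have h5 : ‖∑ x ∈ R, ∑ y ∈ R', (if Z x y then
      -((x₀ / x) ^ i * (y / y₀) ^ k * (n * x ^ (n - 1) / d x - 1)) else 0)‖ ≤
      ∑ x ∈ R, ∑ y ∈ R', (4 : ℝ) ^ n * e₁ :=
    norm_sum_le_of_le _ fun x hx => norm_sum_le_of_le _ fun y hy => hb x hx y hy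
  refine h5.trans (le_of_eq ?_)
  rw [Finset.sum_const, Finset.sum_const, hR, hR', nsmul_eq_mul, nsmul_eq_mul]
  ring

open Classical in
theorem FC_swap (R R' : Finset ℂ) (Z : ℂ → ℂ → Prop) (f g : ℂ → ℂ) :
    FC R' R (fun y x => Z x y) g f = FC R R' Z f g := by
  unfold FC
  rw [Finset.sum_comm]
  apply Finset.sum_congr rfl
  intro x _
  apply Finset.sum_congr rfl
  intro y _
  split_ifs
  · ring
  · rfl

open Classical in
/-- the Fourier coefficients with `k b ≠ i a` are small -/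
theorem small (n : ℕ) (a b : ℤ) (R R' : Finset ℂ) (hR : R.card = n)
    (hR' : R'.card = n) (Z : ℂ → ℂ → Prop) (d : ℂ → ℂ) (x₀ y₀ : ℂ) (hx₀ : x₀ ∈ R) (hy₀ : y₀ ∈ R')
    (e₁ ε₂ : ℝ) (he₂ : 0 ≤ ε₂)
    (h0 : ∀ x ∈ R, x ≠ 0 ∧ d x ≠ 0 ∧ ‖n * x ^ (n - 1) / d x - 1‖ ≤ e₁)
    (h0' : ∀ y ∈ R', y ≠ 0 ∧ d y ≠ 0 ∧ ‖n * y ^ (n - 1) / d y - 1‖ ≤ e₁)
    (hq : ∀ x ∈ R, ∀ x' ∈ R, ‖x / x'‖ ≤ 2) (hq' : ∀ y ∈ R', ∀ y' ∈ R', ‖y / y'‖ ≤ 2)
    (fou2 : ∀ i k, i < n → k < n →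
      ‖(starRingEnd ℂ) (FC R R' Z (fun x => (x₀ / x) ^ i) (fun y => (y / y₀) ^ k)) -
        FC R R' Z (fun x => (x / x₀) ^ i) (fun y => (y₀ / y) ^ k)‖ ≤ ε₂)
    (hP : ∀ i k : ℕ, i < n → k < n → (k : ℤ) * b < i * a →
      ∑ x ∈ R, ∑ y ∈ R', (if Z x y then y ^ k * x ^ (n - 1 - i) / d x else 0) = 0)
    (hP' : ∀ i k : ℕ, i < n → k < n → (i : ℤ) * a < k * b →
      ∑ y ∈ R', ∑ x ∈ R, (if Z x y then x ^ i * y ^ (n - 1 - k) / d y else 0) = 0)
    (i k : ℕ) (hi : i < n) (hk : k < n) (hne : (k : ℤ) * b ≠ i * a) :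
    ‖FC R R' Z (fun x => (x₀ / x) ^ i) (fun y => (y / y₀) ^ k)‖ ≤ n ^ 2 * 4 ^ n * e₁ + ε₂ := by
  rcases lt_or_gt_of_ne hne with h | h
  · have h1 := approx n R R' hR hR' Z d x₀ y₀ (h0' y₀ hy₀).1 e₁ h0 (fun x hx => hq x₀ hx₀ x hx)
      (fun y hy => hq' y hy y₀ hy₀) i k hi hk
    rw [hP i k hi hk h, mul_zero, sub_zero] at h1
    linarith
  · have h1 := approx n R' R hR' hR (fun y x => Z x y) d y₀ x₀ (h0 x₀ hx₀).1 e₁ h0'
      (fun y hy => hq' y₀ hy₀ y hy) (fun x hx => hq x hx x₀ hx₀) k i hk hi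
    rw [hP' i k hi hk h, mul_zero, sub_zero, FC_swap] at h1
    have h2 := fou2 i k hi hk
    have h3 : ‖FC R R' Z (fun x => (x₀ / x) ^ i) (fun y => (y / y₀) ^ k)‖ =
        ‖(starRingEnd ℂ) (FC R R' Z (fun x => (x₀ / x) ^ i) (fun y => (y / y₀) ^ k))‖ :=
      (RCLike.norm_conj _).symm
    rw [h3]
    have h4 := norm_sub_norm_le
      ((starRingEnd ℂ) (FC R R' Z (fun x => (x₀ / x) ^ i) (fun y => (y / y₀) ^ k)))
      (FC R R' Z (fun x => (x / x₀) ^ i) (fun y => (y₀ / y) ^ k))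
    linarith

/-- comparison of the double sums -/
theorem comb (n : ℕ) (hn : 0 < n) (F E : ℕ → ℕ → ℂ) (z : ℂ) (σ τ : ℝ)
    (h1 : ‖z - (∑ i ∈ Finset.range n, ∑ k ∈ Finset.range n, F i k) / (n : ℂ) ^ 2‖ ≤ σ)
    (h2 : ∀ i k, i < n → k < n → ‖F i k - E i k‖ ≤ τ) :
    ‖z - (∑ i ∈ Finset.range n, ∑ k ∈ Finset.range n, E i k) / (n : ℂ) ^ 2‖ ≤ σ + τ := by
  have hn0 : (n : ℂ) ≠ 0 := by exact_mod_cast hn.ne'
  have e : z - (∑ i ∈ Finset.range n, ∑ k ∈ Finset.range n, E i k) / (n : ℂ) ^ 2 =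
      (z - (∑ i ∈ Finset.range n, ∑ k ∈ Finset.range n, F i k) / (n : ℂ) ^ 2) +
      (∑ i ∈ Finset.range n, ∑ k ∈ Finset.range n, (F i k - E i k)) / (n : ℂ) ^ 2 := by
    simp only [Finset.sum_sub_distrib]
    ring
  have h3 : ‖∑ i ∈ Finset.range n, ∑ k ∈ Finset.range n, (F i k - E i k)‖ ≤
      ∑ i ∈ Finset.range n, ∑ k ∈ Finset.range n, τ :=
    norm_sum_le_of_le _ fun i hi => norm_sum_le_of_le _ fun k hk =>
      h2 i k (Finset.mem_range.1 hi) (Finset.mem_range.1 hk)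
  rw [Finset.sum_const, Finset.sum_const, Finset.card_range, nsmul_eq_mul, nsmul_eq_mul] at h3
  rw [e]
  refine (norm_add_le _ _).trans (add_le_add h1 ?_)
  rw [norm_div, norm_pow, Complex.norm_natCast, div_le_iff₀ (by positivity)]
  calc _ ≤ _ := h3
    _ = τ * (n : ℝ) ^ 2 := by ring

/-- the set of the roots of `G - v` -/
noncomputable def Rt (G : ℂ[X]) (v : ℂ) : Finset ℂ := (G - C v).roots.toFinset

theorem sub_monic (G : ℂ[X]) (hG : G.Monic) (hn : 0 < G.natDegree) (v : ℂ) : (G - C v).Monic := by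
  apply hG.sub_of_left
  calc degree (C v) ≤ 0 := degree_C_le
    _ < degree G := by
      rw [← natDegree_pos_iff_degree_pos]; exact hn

theorem mem_Rt (G : ℂ[X]) (hG : G.Monic) (hn : 0 < G.natDegree) (v x : ℂ) :
    x ∈ Rt G v ↔ G.eval x = v := by
  unfold Rt
  rw [Multiset.mem_toFinset, mem_roots (sub_monic G hG hn v).ne_zero, IsRoot.def, eval_sub, eval_C,
    sub_eq_zero]

theorem simple (G : ℂ[X]) (hG : G.Monic) (hn : 0 < G.natDegree) (v : ℂ)
    (h : ∀ x, G.eval x = v → (derivative G).eval x ≠ 0) : (G - C v).roots.Nodup := by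
  rw [Multiset.nodup_iff_count_le_one]
  intro x
  rw [count_roots]
  by_contra hc
  push Not at hc
  have h1 := (one_lt_rootMultiplicity_iff_isRoot (sub_monic G hG hn v).ne_zero).1 hc
  have h2 := h1.1
  have h3 := h1.2
  rw [IsRoot.def, eval_sub, eval_C, sub_eq_zero] at h2
  rw [derivative_sub, derivative_C, sub_zero] at h3
  exact h x h2 h3

theorem card_Rt (G : ℂ[X]) (hG : G.Monic) (hn : 0 < G.natDegree) (v : ℂ)
    (h : ∀ x, G.eval x = v → (derivative G).eval x ≠ 0) : (Rt G v).card = G.natDegree := by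
  unfold Rt
  rw [Multiset.toFinset_card_of_nodup (simple G hG hn v h),
    ← (IsAlgClosed.splits (G - C v)).natDegree_eq_card_roots, natDegree_sub_C]

theorem sum_Rt (G : ℂ[X]) (hG : G.Monic) (hn : 0 < G.natDegree) (v : ℂ)
    (h : ∀ x, G.eval x = v → (derivative G).eval x ≠ 0) (f : ℂ → ℂ) :
    ((G - C v).roots.map f).sum = ∑ x ∈ Rt G v, f x := by
  have e : (Rt G v).val = (G - C v).roots := by
    unfold Rt
    rw [Multiset.toFinset_val, Multiset.dedup_eq_self.2 (simple G hG hn v h)]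
  show _ = ((Rt G v).val.map f).sum
  rw [e]

open Classical in
theorem PS_eq (G : ℂ[X]) (hG : G.Monic) (hn : 0 < G.natDegree) (α α' : ℂ) (a b : ℤ)
    (Z : ℂ → ℂ → ℂ → Prop) (φ : ℂ → ℂ → ℂ → ℂ) (t : ℂ) (ht : Gd G α α' a b t) :
    PS G α α' a b Z φ t = ∑ x ∈ Rt G (wv α a t), ∑ y ∈ Rt G (wv α' b t),
      if Z t x y then φ t x y else 0 := by
  unfold PS
  rw [sum_Rt G hG hn _ ht.2.1]
  apply Finset.sum_congr rfl
  intro x _
  rw [sum_Rt G hG hn _ ht.2.2]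

/-- `w(t)` is large for large and for small `|t|` -/
theorem big (α : ℂ) (a : ℤ) (hα : α ≠ 0) (ha : a ≠ 0) (M : ℝ) :
    (∀ᶠ t in cocompact ℂ, t ≠ 0 → M ≤ ‖wv α a t‖) ∧
      ∀ᶠ t in 𝓝[≠] (0 : ℂ), t ≠ 0 → M ≤ ‖wv α a t‖ := by
  obtain ⟨T, hT1, hT⟩ := GEO_.wv_proper α a hα ha M
  constructor
  · have hfar : ∀ᶠ t : ℂ in cocompact ℂ, t ∈ (Metric.closedBall (0 : ℂ) T)ᶜ :=
      (isCompact_closedBall 0 T).compl_mem_cocompact
    filter_upwards [hfar] with t ht h0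
    rw [Set.mem_compl_iff, mem_closedBall_zero_iff, not_le] at ht
    by_contra hcon
    push Not at hcon
    have h1 := (hT t h0 hcon.le).1
    linarith
  · have hball : ∀ᶠ t : ℂ in 𝓝[≠] 0, ‖t‖ < T⁻¹ := by
      apply mem_nhdsWithin_of_mem_nhds
      have : Tendsto (fun t : ℂ => ‖t‖) (𝓝 0) (𝓝 0) := by
        simpa using (continuous_norm (E := ℂ)).tendsto 0
      exact this.eventually (gt_mem_nhds (inv_pos.2 (by linarith)))
    filter_upwards [hball] with t ht h0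
    by_contra hcon
    push Not at hcon
    have h1 := (hT t h0 hcon.le).2
    have h2 : 0 < ‖t‖ := norm_pos_iff.2 h0
    have h3 : T < ‖t‖⁻¹ := (lt_inv_comm₀ h2 (by linarith)).1 ht
    linarith

theorem quot (n : ℕ) (v x x' : ℂ) (hv : v ≠ 0) (hx' : x' ≠ 0) (e₁ : ℝ) (he : e₁ ≤ 1 / 4)
    (h1 : ‖x ^ n / v - 1‖ ≤ e₁) (h2 : ‖x' ^ n / v - 1‖ ≤ e₁) :
    ‖(x / x') ^ n - 1‖ ≤ 4 * e₁ := by
  have he0 : 0 ≤ e₁ := (norm_nonneg _).trans h1
  set u := x ^ n / v with hu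
  set u' := x' ^ n / v with hu'
  have hu0 : u' ≠ 0 := div_ne_zero (pow_ne_zero _ hx') hv
  have e : (x / x') ^ n - 1 = ((u - 1) - (u' - 1)) / u' := by
    rw [hu, hu', div_pow]
    have := pow_ne_zero n hx'
    field_simp
    ring
  have h3 : 1 / 2 ≤ ‖u'‖ := by
    have h4 : ‖(1 : ℂ)‖ ≤ ‖u'‖ + ‖u' - 1‖ := by
      calc ‖(1 : ℂ)‖ = ‖u' - (u' - 1)‖ := by rw [sub_sub_cancel]
        _ ≤ _ := norm_sub_le _ _
    rw [norm_one] at h4
    linarith
  rw [e, norm_div, div_le_iff₀ (by linarith)]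
  have h5 := norm_sub_le (u - 1) (u' - 1)
  nlinarith

theorem le_two (n : ℕ) (hn : 1 ≤ n) (q : ℂ) (h : ‖q ^ n - 1‖ ≤ 1) : ‖q‖ ≤ 2 := by
  by_contra hc
  push Not at hc
  have h1 : ‖q‖ ≤ ‖q‖ ^ n := le_self_pow₀ (by linarith) (by omega)
  have h2 : ‖q ^ n‖ ≤ ‖q ^ n - 1‖ + ‖(1 : ℂ)‖ := by
    calc ‖q ^ n‖ = ‖(q ^ n - 1) + 1‖ := by rw [sub_add_cancel]
      _ ≤ _ := norm_add_le _ _
  rw [norm_pow, norm_one] at h2
  linarith

end ASY_

open ASY_ Classical in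
theorem asy (h1 : S_EST) (h2 : S_FOU) (h3 : S_T1) (h4 : S_SYM) : S_ASY := by
  intro G n r α α' a b Z hc
  have hn2 := hc.hn
  have hn0 : 0 < G.natDegree := by rw [hc.deg]; omega
  have hnC : (n : ℂ) ≠ 0 := by exact_mod_cast (by omega : n ≠ 0)
  obtain ⟨hest, η, M₀, hη, hM₀, hsep⟩ := h1 G n hc.mo hc.deg hn2
  have hct := h4 G n r α α' a b Z hc
  have hT := h3 G n r α α' a b Z hc
  have hT' := h3 G n r α' α b a (fun t x y => Z t y x) hct
  have key : ∀ ε : ℝ, 0 < ε → ∃ M : ℝ, 0 < M ∧ ∀ t, Gd G α α' a b t → M ≤ ‖wv α a t‖ →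
      M ≤ ‖wv α' b t‖ → ∀ x₀ y₀, G.eval x₀ = wv α a t → G.eval y₀ = wv α' b t →
      x₀ ≠ 0 ∧ y₀ ≠ 0 ∧
      ‖(if Z t x₀ y₀ then (1 : ℂ) else 0) - (∑ i ∈ Finset.range n, ∑ k ∈ Finset.range n,
        FC (Rt G (wv α a t)) (Rt G (wv α' b t)) (Z t) (fun x => (x₀ / x) ^ i)
          (fun y => (y / y₀) ^ k)) / (n : ℂ) ^ 2‖ ≤ ε ∧
      FC (Rt G (wv α a t)) (Rt G (wv α' b t)) (Z t) (fun x => (x₀ / x) ^ 0)
          (fun y => (y / y₀) ^ 0) = n * r ∧
      (∀ i k : ℕ, i < n → k < n → (k : ℤ) * b ≠ i * a →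
        ‖FC (Rt G (wv α a t)) (Rt G (wv α' b t)) (Z t) (fun x => (x₀ / x) ^ i)
          (fun y => (y / y₀) ^ k)‖ ≤ 2 * ε) ∧
      (∀ i k : ℕ, 0 < i → 0 < k → i < n → k < n →
        ‖(starRingEnd ℂ) (FC (Rt G (wv α a t)) (Rt G (wv α' b t)) (Z t) (fun x => (x₀ / x) ^ i)
          (fun y => (y / y₀) ^ k)) -
        FC (Rt G (wv α a t)) (Rt G (wv α' b t)) (Z t) (fun x => (x₀ / x) ^ (n - i))
          (fun y => (y / y₀) ^ (n - k))‖ ≤ ε) ∧
      ∀ i k : ℕ, i < n → k < n →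
        ‖FC (Rt G (wv α a t)) (Rt G (wv α' b t)) (Z t) (fun x => (x₀ / x) ^ i)
          (fun y => (y / y₀) ^ k) - n * x₀ ^ i / y₀ ^ k *
          PS G α α' a b Z (fun _ x y => y ^ k * x ^ (n - 1 - i) / (derivative G).eval x) t‖ ≤ ε := by
    intro ε hε
    obtain ⟨δ, hδ, hfou⟩ := h2 n η ε hn2 hη hε
    have hB : (0 : ℝ) < n ^ 2 * 4 ^ n := by
      have : (0 : ℝ) < n := by exact_mod_cast (by omega : 0 < n)
      positivity
    obtain ⟨e₁, he0, he1, he2, he3⟩ : ∃ e₁ : ℝ, 0 < e₁ ∧ e₁ ≤ 1 / 4 ∧ 4 * e₁ ≤ δ ∧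
        n ^ 2 * 4 ^ n * e₁ ≤ ε := by
      refine ⟨min (1 / 4) (min (δ / 4) (ε / (n ^ 2 * 4 ^ n))), ?_, min_le_left _ _, ?_, ?_⟩
      · have : 0 < ε / (n ^ 2 * 4 ^ n) := by positivity
        have : 0 < δ / 4 := by positivity
        positivity
      · have := (min_le_right (1 / 4 : ℝ) (min (δ / 4) (ε / (n ^ 2 * 4 ^ n)))).trans
          (min_le_left _ _)
        linarith
      · have h5 := (min_le_right (1 / 4 : ℝ) (min (δ / 4) (ε / (n ^ 2 * 4 ^ n)))).trans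
          (min_le_right _ _)
        rw [le_div_iff₀ hB] at h5
        linarith
    obtain ⟨M₁, hM₁, hest₁⟩ := hest e₁ he0
    refine ⟨max M₀ M₁, lt_max_of_lt_left hM₀, ?_⟩
    intro t ht hw hw' x₀ y₀ hx₀ hy₀
    have hwM₀ := (le_max_left M₀ M₁).trans hw
    have hwM₁ := (le_max_right M₀ M₁).trans hw
    have hwM₀' := (le_max_left M₀ M₁).trans hw'
    have hwM₁' := (le_max_right M₀ M₁).trans hw'
    -- facts on one of the two sets
    have facts : ∀ v : ℂ, M₀ ≤ ‖v‖ → M₁ ≤ ‖v‖ →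
        (∀ x ∈ Rt G v, x ≠ 0 ∧ (derivative G).eval x ≠ 0 ∧
          ‖n * x ^ (n - 1) / (derivative G).eval x - 1‖ ≤ e₁) ∧
        (∀ x ∈ Rt G v, ∀ x' ∈ Rt G v, ‖(x / x') ^ n - 1‖ ≤ δ ∧ (x ≠ x' → η ≤ ‖x / x' - 1‖)) ∧
        ∀ x ∈ Rt G v, ∀ x' ∈ Rt G v, ‖x / x'‖ ≤ 2 := by
      intro v hv0 hv1
      have hvne : v ≠ 0 := norm_pos_iff.1 (lt_of_lt_of_le hM₀ hv0)
      have hm := fun x => mem_Rt G hc.mo hn0 v x
      have hq : ∀ x ∈ Rt G v, ∀ x' ∈ Rt G v, ‖(x / x') ^ n - 1‖ ≤ 4 * e₁ := by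
        intro x hx x' hx'
        obtain ⟨_, _, p3, _⟩ := hest₁ v x hv1 ((hm x).1 hx)
        obtain ⟨q1, _, q3, _⟩ := hest₁ v x' hv1 ((hm x').1 hx')
        exact quot n v x x' hvne q1 e₁ he1 p3 q3
      refine ⟨fun x hx => ?_, fun x hx x' hx' => ⟨(hq x hx x' hx').trans he2, fun hne => ?_⟩,
        fun x hx x' hx' => ?_⟩
      · obtain ⟨p1, p2, _, p4⟩ := hest₁ v x hv1 ((hm x).1 hx)
        exact ⟨p1, p2, p4⟩
      · exact hsep v x x' hv0 ((hm x).1 hx) ((hm x').1 hx') hne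
      · apply le_two n (by omega)
        have := hq x hx x' hx'
        linarith
    obtain ⟨f1, f2, f3⟩ := facts (wv α a t) hwM₀ hwM₁
    obtain ⟨g1, g2, g3⟩ := facts (wv α' b t) hwM₀' hwM₁'
    have hxR := (mem_Rt G hc.mo hn0 (wv α a t) x₀).2 hx₀
    have hyR := (mem_Rt G hc.mo hn0 (wv α' b t) y₀).2 hy₀
    have hcR : (Rt G (wv α a t)).card = n := by
      rw [card_Rt G hc.mo hn0 _ ht.2.1, hc.deg]
    have hcR' : (Rt G (wv α' b t)).card = n := by
      rw [card_Rt G hc.mo hn0 _ ht.2.2, hc.deg]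
    obtain ⟨F1, F2, F3⟩ := hfou (Rt G (wv α a t)) (Rt G (wv α' b t)) (Z t) hcR hcR'
      (fun x hx => (f1 x hx).1) (fun y hy => (g1 y hy).1) f2 g2 x₀ hxR y₀ hyR
    have ht' : Gd G α' α b a t := ⟨ht.1, ht.2.2, ht.2.1⟩
    refine ⟨(f1 x₀ hxR).1, (g1 y₀ hyR).1, F1, ?_, ?_, F3, ?_⟩
    · have h5 := hc.tot t ht
      rw [PS_eq G hc.mo hn0 α α' a b Z _ t ht] at h5
      rw [← h5]
      unfold FC
      simp
    · intro i k hi hk hne
      have h5 := small n a b (Rt G (wv α a t)) (Rt G (wv α' b t)) hcR hcR' (Z t)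
        (fun x => (derivative G).eval x) x₀ y₀ hxR hyR e₁ ε hε.le f1 g1 f3 g3 F2
        (fun i k hi hk hlt => by
          have h6 := (hT i k hi hk).1 hlt t ht
          rw [PS_eq G hc.mo hn0 α α' a b Z _ t ht] at h6
          exact h6)
        (fun i k hi hk hlt => by
          have h6 := (hT' k i hk hi).1 hlt t ht'
          rw [PS_eq G hc.mo hn0 α' α b a _ _ t ht'] at h6
          exact h6) i k hi hk hne
      linarith
    · intro i k hi hk
      rw [PS_eq G hc.mo hn0 α α' a b Z _ t ht]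
      have h5 := approx n (Rt G (wv α a t)) (Rt G (wv α' b t)) hcR hcR' (Z t)
        (fun x => (derivative G).eval x) x₀ y₀ (g1 y₀ hyR).1 e₁ f1
        (fun x hx => f3 x₀ hxR x hx) (fun y hy => g3 y hy y₀ hyR) i k hi hk
      exact h5.trans he3
  constructor
  · -- `a ≠ b`
    intro hab ε hε
    obtain ⟨M, hM, hk⟩ := key (ε / 4) (by positivity)
    filter_upwards [(big α a hc.hα hc.ha.ne' M).1, (big α' b hc.hα' hc.hb.ne' M).1]
      with t t1 t2 ht x₀ y₀ hx₀ hy₀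
    obtain ⟨_, _, k1, k2, k3, k4, _⟩ := hk t ht (t1 ht.1) (t2 ht.1) x₀ y₀ hx₀ hy₀
    have hE : (∑ i ∈ Finset.range n, ∑ k ∈ Finset.range n,
        (if i = 0 ∧ k = 0 then (n : ℂ) * r else 0)) / (n : ℂ) ^ 2 = r / n := by
      rw [Finset.sum_eq_single 0, Finset.sum_eq_single 0]
      · rw [if_pos ⟨rfl, rfl⟩]
        field_simp
      · intro k _ hk0
        rw [if_neg (by tauto)]
      · intro h
        exact absurd (Finset.mem_range.2 (by omega)) h
      · intro i _ hi0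
        apply Finset.sum_eq_zero
        intro k _
        rw [if_neg (by tauto)]
      · intro h
        exact absurd (Finset.mem_range.2 (by omega)) h
    rw [← hE]
    have h5 := comb n (by omega) _ (fun i k => if i = 0 ∧ k = 0 then (n : ℂ) * r else 0) _ (ε / 4)
      (3 * (ε / 4)) k1 (fun i k hi hk' => ?_)
    · refine h5.trans (le_of_eq (by ring))
    · by_cases h0 : i = 0 ∧ k = 0
      · rw [if_pos h0, h0.1, h0.2, k2, sub_self, norm_zero]
        positivity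
      · rw [if_neg h0, sub_zero]
        by_cases hne : (k : ℤ) * b = i * a
        · have hap := hc.ha
          have hbp := hc.hb
          have hik : 0 < i ∧ 0 < k := by
            constructor
            · rcases Nat.eq_zero_or_pos i with h | h
              · exfalso
                rw [h] at hne
                simp only [Nat.cast_zero, zero_mul] at hne
                rcases mul_eq_zero.1 hne with h6 | h6
                · exact h0 ⟨h, by exact_mod_cast h6⟩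
                · omega
              · exact h
            · rcases Nat.eq_zero_or_pos k with h | h
              · exfalso
                rw [h] at hne
                simp only [Nat.cast_zero, zero_mul] at hne
                rcases mul_eq_zero.1 hne.symm with h6 | h6
                · exact h0 ⟨by exact_mod_cast h6, h⟩
                · omega
              · exact h
          have h6 := k4 i k hik.1 hik.2 hi hk'
          have h7 := k3 (n - i) (n - k) (by omega) (by omega) (by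
            rw [Nat.cast_sub hk'.le, Nat.cast_sub hi.le]
            intro h8
            have h9 : (n : ℤ) * b = n * a := by linarith
            have h10 : (n : ℤ) ≠ 0 := by exact_mod_cast (by omega : n ≠ 0)
            exact hab (mul_left_cancel₀ h10 h9).symm)
          rw [← RCLike.norm_conj]
          have h8 := norm_sub_norm_le
            ((starRingEnd ℂ) (FC (Rt G (wv α a t)) (Rt G (wv α' b t)) (Z t) (fun x => (x₀ / x) ^ i)
              (fun y => (y / y₀) ^ k)))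
            (FC (Rt G (wv α a t)) (Rt G (wv α' b t)) (Z t) (fun x => (x₀ / x) ^ (n - i))
              (fun y => (y / y₀) ^ (n - k)))
          linarith
        · have h6 := k3 i k hi hk' hne
          linarith
  · -- `a = b`
    intro hab
    subst hab
    have hex : ∀ k : ℕ, ∃ γ : ℂ, k < n → ∀ t, Gd G α α' a a t →
        PS G α α' a a Z (fun _ x y => y ^ k * x ^ (n - 1 - k) / (derivative G).eval x) t = γ := by
      intro k
      by_cases hk : k < n
      · obtain ⟨γ, hγ⟩ := (hT k k hk hk).2 rfl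
        exact ⟨γ, fun _ => hγ⟩
      · exact ⟨0, fun h => absurd h hk⟩
    choose γ' hγ' using hex
    set γ : ℕ → ℂ := fun k => if k = 0 then (r : ℂ) else γ' k with hγ
    have hE : ∀ x₀ y₀ : ℂ, (∑ i ∈ Finset.range n, ∑ k ∈ Finset.range n,
        (if i = k then (n : ℂ) * (γ k * (x₀ / y₀) ^ k) else 0)) / (n : ℂ) ^ 2 =
        (∑ k ∈ Finset.range n, γ k * (x₀ / y₀) ^ k) / n := by
      intro x₀ y₀
      rw [Finset.sum_comm]
      have e : ∀ k ∈ Finset.range n, ∑ i ∈ Finset.range n,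
          (if i = k then (n : ℂ) * (γ k * (x₀ / y₀) ^ k) else 0) =
          (n : ℂ) * (γ k * (x₀ / y₀) ^ k) := by
        intro k hk
        rw [Finset.sum_ite_eq' (Finset.range n) k fun _ => (n : ℂ) * (γ k * (x₀ / y₀) ^ k),
          if_pos hk]
      rw [Finset.sum_congr rfl e, ← Finset.mul_sum]
      field_simp
    have main : ∀ ε : ℝ, 0 < ε → ∃ M : ℝ, 0 < M ∧ ∀ t, Gd G α α' a a t → M ≤ ‖wv α a t‖ →
        M ≤ ‖wv α' a t‖ → ∀ x₀ y₀, G.eval x₀ = wv α a t → G.eval y₀ = wv α' a t →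
        ‖(if Z t x₀ y₀ then (1 : ℂ) else 0) -
          (∑ k ∈ Finset.range n, γ k * (x₀ / y₀) ^ k) / n‖ ≤ ε := by
      intro ε hε
      obtain ⟨M, hM, hk⟩ := key (ε / 3) (by positivity)
      refine ⟨M, hM, fun t ht t1 t2 x₀ y₀ hx₀ hy₀ => ?_⟩
      obtain ⟨hx0, hy0, k1, k2, k3, _, k5⟩ := hk t ht t1 t2 x₀ y₀ hx₀ hy₀
      rw [← hE]
      have h5 := comb n (by omega) _
        (fun i k => if i = k then (n : ℂ) * (γ k * (x₀ / y₀) ^ k) else 0) _ (ε / 3)
        (2 * (ε / 3)) k1 (fun i k hi hk' => ?_)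
      · refine h5.trans (le_of_eq (by ring))
      · by_cases hik : i = k
        · rw [if_pos hik]
          subst hik
          by_cases h0 : i = 0
          · subst h0
            rw [k2]
            have : γ 0 = r := by rw [hγ]; simp
            rw [this, pow_zero, mul_one, sub_self, norm_zero]
            positivity
          · have h6 := k5 i i hi hi
            rw [hγ' i hi t ht] at h6
            have h7 : γ i = γ' i := by rw [hγ]; simp [h0]
            have h8 : (n : ℂ) * (γ i * (x₀ / y₀) ^ i) = n * x₀ ^ i / y₀ ^ i * γ' i := by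
              rw [h7, div_pow]
              ring
            rw [h8]
            refine h6.trans ?_
            linarith
        · rw [if_neg hik, sub_zero]
          apply k3 i k hi hk'
          intro h9
          have h10 := mul_right_cancel₀ hc.ha.ne' h9
          exact hik (by exact_mod_cast h10.symm)
    refine ⟨γ, by rw [hγ]; simp, fun ε hε => ?_⟩
    obtain ⟨M, hM, hk⟩ := main ε hε
    constructor
    · filter_upwards [(big α a hc.hα hc.ha.ne' M).1, (big α' a hc.hα' hc.hb.ne' M).1]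
        with t t1 t2 ht x₀ y₀ hx₀ hy₀
      exact hk t ht (t1 ht.1) (t2 ht.1) x₀ y₀ hx₀ hy₀
    · filter_upwards [(big α a hc.hα hc.ha.ne' M).2, (big α' a hc.hα' hc.hb.ne' M).2]
        with t t1 t2 ht x₀ y₀ hx₀ hy₀
      exact hk t ht (t1 ht.1) (t2 ht.1) x₀ y₀ hx₀ hy₀

end Pool.Agent.K9h21.GP
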