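import Pool.Agent.K9h21.GP.Stm

set_option autoImplicit false

/-!
# AVG: independence over the embeddings
-/

namespace Pool.Agent.K9h21.GP.AVG_

open Polynomial IntermediateField

/-- embeddings of a simple extension and roots -/
theorem sum_gen {F E : Type*} [Field F] [Field E] [CharZero F] [Algebra F E] [FiniteDimensional F E] [Algebra F ℂ]
    (x : E) (f : ℂ → ℝ) :
    ∑ τ : F⟮x⟯ →ₐ[F] ℂ, f (τ (AdjoinSimple.gen F x)) = (((minpoly F x).aroots ℂ).map f).sum := by
  classical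
  have hx : IsIntegral F x := Algebra.IsIntegral.isIntegral x
  have hgen := adjoin.powerBasis_gen hx
  set pb := adjoin.powerBasis hx with hpb
  have hmp : minpoly F pb.gen = minpoly F x := by
    rw [hgen, IntermediateField.minpoly_gen]
  have h1 : ∑ τ : F⟮x⟯ →ₐ[F] ℂ, f (τ (AdjoinSimple.gen F x)) =
      ∑ z : {y : ℂ // y ∈ (minpoly F pb.gen).aroots ℂ}, f z := by
    refine Fintype.sum_equiv pb.liftEquiv' _ _ fun σ => ?_
    rw [PowerBasis.liftEquiv'_apply_coe, hgen]
  have hnd : (((minpoly F pb.gen).aroots ℂ)).Nodup := by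
    apply nodup_roots
    exact (separable_map _).mpr (Algebra.IsSeparable.isSeparable F pb.gen)
  rw [h1, ← hmp, Finset.sum_mem_multiset ((minpoly F pb.gen).aroots ℂ) (fun z => f z) f (fun z => rfl),
    Finset.sum_eq_multiset_sum, Multiset.toFinset_val, Multiset.dedup_eq_self.mpr hnd]

/-- the sum over the embeddings above a given one -/
theorem sum_tower {F E : Type*} [Field F] [Field E] [CharZero F] [Algebra F E] [FiniteDimensional F E] [Algebra F ℂ]
    (L : IntermediateField F E) (φ : (L →ₐ[F] ℂ) → ℝ) (x : E) (f : ℂ → ℝ) (c : ℝ)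
    (h : ∀ τ : L →ₐ[F] ℂ, (let _ := τ.toRingHom.toAlgebra; ∑ σ : E →ₐ[L] ℂ, f (σ x)) = c) :
    ∑ σ : E →ₐ[F] ℂ, φ (σ.domRestrict L) * f (σ x) = c * ∑ τ : L →ₐ[F] ℂ, φ τ := by
  classical
  rw [Fintype.sum_equiv (algHomEquivSigma (A := F) (B := L) (C := E) (D := ℂ))
    (fun σ : E →ₐ[F] ℂ => φ (σ.domRestrict L) * f (σ x)) (fun σ => φ σ.1 * f (σ.2 x)) (fun σ => rfl),
    ← Finset.univ_sigma_univ, Finset.sum_sigma, Finset.mul_sum]
  refine Finset.sum_congr rfl fun τ _ => ?_
  let _ := τ.toRingHom.toAlgebra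
  change ∑ s : E →ₐ[L] ℂ, φ τ * f (s x) = _
  rw [← Finset.mul_sum, mul_comm]
  congr 1
  exact h τ

/-- the sum over all embeddings -/
theorem sum_one {F E : Type*} [Field F] [Field E] [CharZero F] [Algebra F E] [FiniteDimensional F E] [Algebra F ℂ]
    (y : E) (f : ℂ → ℝ) :
    ∑ σ : E →ₐ[F] ℂ, f (σ y) = Module.finrank F⟮y⟯ E * (((minpoly F y).aroots ℂ).map f).sum := by
  classical
  rw [← sum_gen, Fintype.sum_equiv (algHomEquivSigma (A := F) (B := F⟮y⟯) (C := E) (D := ℂ))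
    (fun σ : E →ₐ[F] ℂ => f (σ y)) (fun σ => f (σ.1 (AdjoinSimple.gen F y))) (fun σ => rfl),
    ← Finset.univ_sigma_univ, Finset.sum_sigma, Finset.mul_sum]
  refine Finset.sum_congr rfl fun τ _ => ?_
  let _ := τ.toRingHom.toAlgebra
  change ∑ s : E →ₐ[F⟮y⟯] ℂ, f (τ (AdjoinSimple.gen F y)) = _
  rw [Finset.sum_const, Finset.card_univ, nsmul_eq_mul, ← AlgHom.card F⟮y⟯ E ℂ]

theorem sum_two {F E : Type*} [Field F] [Field E] [CharZero F] [Algebra F E] [FiniteDimensional F E] [Algebra F ℂ]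
    (x y : E) (f : ℂ → ℝ) (h : (minpoly F⟮x⟯ y).natDegree = (minpoly F y).natDegree) :
    (((minpoly F x).natDegree : ℝ) * (minpoly F y).natDegree) * ∑ σ : E →ₐ[F] ℂ, f (σ x) * f (σ y) =
      Module.finrank F E * ((((minpoly F x).aroots ℂ).map f).sum * (((minpoly F y).aroots ℂ).map f).sum) := by
  classical
  have hxi : IsIntegral F x := Algebra.IsIntegral.isIntegral x
  have hyi : IsIntegral F y := Algebra.IsIntegral.isIntegral y
  have hyi' : IsIntegral F⟮x⟯ y := Algebra.IsIntegral.isIntegral y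
  have hmp : minpoly F⟮x⟯ y = (minpoly F y).map (algebraMap F F⟮x⟯) := by
    symm
    apply Polynomial.eq_of_monic_of_dvd_of_natDegree_le (minpoly.monic hyi') ((minpoly.monic hyi).map _)
    · exact minpoly.dvd_map_of_isScalarTower F F⟮x⟯ y
    · rw [(minpoly.monic hyi).natDegree_map, h]
  have hd1 : Module.finrank F F⟮x⟯ = (minpoly F x).natDegree := IntermediateField.adjoin.finrank hxi
  have hd2 : Module.finrank F⟮x⟯ (F⟮x⟯)⟮y⟯ = (minpoly F y).natDegree := by
    rw [IntermediateField.adjoin.finrank hyi', h]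
  have hfin : Module.finrank F E = (minpoly F x).natDegree * ((minpoly F y).natDegree * Module.finrank (F⟮x⟯)⟮y⟯ E) := by
    rw [← hd1, ← hd2, Module.finrank_mul_finrank, Module.finrank_mul_finrank]
  have h1 := sum_tower (F⟮x⟯) (fun τ => f (τ (AdjoinSimple.gen F x))) y f
    (Module.finrank (F⟮x⟯)⟮y⟯ E * (((minpoly F y).aroots ℂ).map f).sum) (fun τ => by
      let _ := τ.toRingHom.toAlgebra
      have h2 := sum_one (F := F⟮x⟯) (E := E) y f
      have h3 : (minpoly F⟮x⟯ y).aroots ℂ = (minpoly F y).aroots ℂ := by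
        rw [hmp]
        unfold Polynomial.aroots
        rw [Polynomial.map_map]
        congr 2
        ext a
        exact τ.commutes a
      rw [h3] at h2
      exact h2)
  have h4 : ∑ σ : E →ₐ[F] ℂ, f (σ x) * f (σ y) =
      ∑ σ : E →ₐ[F] ℂ, (fun τ : F⟮x⟯ →ₐ[F] ℂ => f (τ (AdjoinSimple.gen F x))) (σ.domRestrict F⟮x⟯) * f (σ y) := rfl
  rw [h4, h1, sum_gen, hfin]
  push_cast
  ring

end Pool.Agent.K9h21.GP.AVG_

namespace Pool.Agent.K9h21.GP

open Polynomial IntermediateField AVG_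

theorem avg.{u, v} : S_AVG.{u, v} := by
  classical
  intro k E _ _ _ _ _ s₂ ι _ _ b b' hmin hdeg f a hs i
  let _ := (s₂.comp (algebraMap k E)).toAlgebra
  let σ₂ : E →ₐ[k] ℂ := ⟨s₂, fun r => rfl⟩
  have hσ : ∀ σ : E →ₐ[k] ℂ, ∑ i, a i * (f (σ (b i)) - f (σ (b' i))) = 0 := by
    intro σ
    apply hs (σ : E →+* ℂ)
    ext r
    exact σ.commutes r
  -- products
  have hpair : ∀ i j, i ≠ j → ∀ x ∈ ({b i, b' i} : Set E), ∀ y ∈ ({b j, b' j} : Set E),
      (((minpoly k (b i)).natDegree : ℝ) * (minpoly k (b j)).natDegree) * ∑ σ : E →ₐ[k] ℂ, f (σ x) * f (σ y) =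
      Module.finrank k E * ((((minpoly k (b i)).aroots ℂ).map f).sum * (((minpoly k (b j)).aroots ℂ).map f).sum) := by
    intro i j hij x hx y hy
    have ex : minpoly k x = minpoly k (b i) := by
      rcases hx with rfl | hx
      · rfl
      · rw [Set.mem_singleton_iff] at hx
        rw [hx, hmin]
    have ey : minpoly k y = minpoly k (b j) := by
      rcases hy with rfl | hy
      · rfl
      · rw [Set.mem_singleton_iff] at hy
        rw [hy, hmin]
    rcases hdeg i j hij with h | h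
    · have := sum_two x y f (h x hx y hy)
      rw [ex, ey] at this
      exact this
    · have := sum_two y x f (h x hx y hy)
      rw [ex, ey] at this
      rw [mul_comm ((minpoly k (b j)).natDegree : ℝ), mul_comm ((((minpoly k (b j)).aroots ℂ).map f).sum)] at this
      rw [← this]
      congr 1
      exact Finset.sum_congr rfl fun σ _ => mul_comm _ _
  have hpos : ∀ i, (0 : ℝ) < (minpoly k (b i)).natDegree := by
    intro i
    have := minpoly.natDegree_pos (Algebra.IsIntegral.isIntegral (R := k) (b i))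
    exact_mod_cast this
  have horth : ∀ i j, i ≠ j → ∑ σ : E →ₐ[k] ℂ, (f (σ (b i)) - f (σ (b' i))) * (f (σ (b j)) - f (σ (b' j))) = 0 := by
    intro i j hij
    have h1 := hpair i j hij (b i) (by simp) (b j) (by simp)
    have h2 := hpair i j hij (b i) (by simp) (b' j) (by simp)
    have h3 := hpair i j hij (b' i) (by simp) (b j) (by simp)
    have h4 := hpair i j hij (b' i) (by simp) (b' j) (by simp)
    have h5 : ∑ σ : E →ₐ[k] ℂ, (f (σ (b i)) - f (σ (b' i))) * (f (σ (b j)) - f (σ (b' j))) =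
        ∑ σ : E →ₐ[k] ℂ, f (σ (b i)) * f (σ (b j)) - ∑ σ : E →ₐ[k] ℂ, f (σ (b i)) * f (σ (b' j))
        - ∑ σ : E →ₐ[k] ℂ, f (σ (b' i)) * f (σ (b j)) + ∑ σ : E →ₐ[k] ℂ, f (σ (b' i)) * f (σ (b' j)) := by
      rw [← Finset.sum_sub_distrib, ← Finset.sum_sub_distrib, ← Finset.sum_add_distrib]
      exact Finset.sum_congr rfl fun σ _ => by ring
    have hne : (((minpoly k (b i)).natDegree : ℝ) * (minpoly k (b j)).natDegree) ≠ 0 :=
      (mul_pos (hpos i) (hpos j)).ne'
    apply mul_left_cancel₀ hne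
    rw [h5, mul_add, mul_sub, mul_sub, h1, h2, h3, h4]
    ring
  have hsq : ∑ i, ∑ σ : E →ₐ[k] ℂ, (a i * (f (σ (b i)) - f (σ (b' i)))) ^ 2 = 0 := by
    have h1 : ∑ σ : E →ₐ[k] ℂ, (∑ i, a i * (f (σ (b i)) - f (σ (b' i)))) ^ 2 = 0 :=
      Finset.sum_eq_zero fun σ _ => by rw [hσ σ]; ring
    have h2 : ∑ σ : E →ₐ[k] ℂ, (∑ i, a i * (f (σ (b i)) - f (σ (b' i)))) ^ 2 =
        ∑ i, ∑ j, a i * a j * ∑ σ : E →ₐ[k] ℂ, (f (σ (b i)) - f (σ (b' i))) * (f (σ (b j)) - f (σ (b' j))) := by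
      have h3 : ∀ σ : E →ₐ[k] ℂ, (∑ i, a i * (f (σ (b i)) - f (σ (b' i)))) ^ 2 =
          ∑ i, ∑ j, a i * a j * ((f (σ (b i)) - f (σ (b' i))) * (f (σ (b j)) - f (σ (b' j)))) := by
        intro σ
        rw [sq, Finset.sum_mul_sum]
        exact Finset.sum_congr rfl fun i _ => Finset.sum_congr rfl fun j _ => by ring
      simp only [h3]
      rw [Finset.sum_comm]
      refine Finset.sum_congr rfl fun i _ => ?_
      rw [Finset.sum_comm]
      refine Finset.sum_congr rfl fun j _ => ?_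
      rw [Finset.mul_sum]
    rw [h2] at h1
    rw [← h1]
    refine Finset.sum_congr rfl fun i _ => ?_
    rw [Finset.sum_eq_single i (fun j _ hj => by rw [horth i j (Ne.symm hj), mul_zero])
      (fun h => absurd (Finset.mem_univ i) h), Finset.mul_sum]
    exact Finset.sum_congr rfl fun σ _ => by ring
  have h1 := (Finset.sum_eq_zero_iff_of_nonneg (fun i _ => Finset.sum_nonneg fun σ _ => sq_nonneg _)).1 hsq i
    (Finset.mem_univ i)
  have h2 := (Finset.sum_eq_zero_iff_of_nonneg (fun σ _ => sq_nonneg _)).1 h1 σ₂ (Finset.mem_univ σ₂)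
  have h3 := pow_eq_zero_iff (two_ne_zero) |>.1 h2
  exact h3

end Pool.Agent.K9h21.GP
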