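import Pool.Agent.K9h21.GP.Stm

set_option autoImplicit false

/-!
# Project GP, second part: complete independence. Statements which need only Mathlib.
-/

namespace Pool.Agent.K9h21.GP

open Polynomial IntermediateField Filter Topology

/-- AVGG: independence over the embeddings, general form.

Proof as for `S_AVG`: let `g_q(s) = ∑_{j, c j = q} A_j f(s y_j)`. For `q ≠ q'` one has `∑_s g_q(s) g_q'(s) = 0`, since for `c i = q`,
`c j = q'` the pairs `(s y_i, s y_j)` are equidistributed on the pairs of roots of the minimal polynomials, which depend only on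
`q` and `q'`; so `∑_s f(s y_i) f(s y_j)` depends only on `q`, `q'`, and `∑_{c i = q} A_i = 0`. So
`0 = ∑_s (∑_q g_q(s))² = ∑_q ∑_s g_q(s)²`. -/
def S_AVGG.{u, v} : Prop := ∀ (k : Type u) (E : Type v) [Field k] [Field E] [CharZero k] [Algebra k E]
  [FiniteDimensional k E] [DecidableEq E] (s₂ : E →+* ℂ) (m : ℕ) (y c : Fin m → E),
  (∀ i j, c i = c j → minpoly k (y i) = minpoly k (y j)) →
  (∀ i j, c i ≠ c j → (minpoly k⟮y i⟯ (y j)).natDegree = (minpoly k (y j)).natDegree ∨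
    (minpoly k⟮y j⟯ (y i)).natDegree = (minpoly k (y i)).natDegree) →
  ∀ (f : ℂ → ℝ) (A : Fin m → ℝ), (∀ i, ∑ j, (if c j = c i then A j else 0) = 0) →
  (∀ s : E →+* ℂ, s.comp (algebraMap k E) = s₂.comp (algebraMap k E) → ∑ i, A i * f (s (y i)) = 0) →
  ∀ i, ∑ j, (if c j = c i then A j * f (s₂ (y j)) else 0) = 0

/-- the critical values `α + 1/α` of `G` are multiplicatively independent: if `α ^ a β ^ b` is a root of unity for critical
values `α + 1/α`, `β + 1/β` then `a = b = 0`, or the two critical values are equal and `a = ± b`. (So no `α` is a root of unity.) -/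
def MI (G : ℂ[X]) : Prop := ∀ x y α β : ℂ, (derivative G).eval x = 0 → (derivative G).eval y = 0 → α ≠ 0 → β ≠ 0 →
  G.eval x = α + α⁻¹ → G.eval y = β + β⁻¹ → ∀ (a b : ℤ) (N : ℕ), 0 < N → (α ^ a * β ^ b) ^ N = 1 →
  (a = 0 ∧ b = 0) ∨ (G.eval x = G.eval y ∧ (a = b ∨ a = -b))

/-- MIB: no bad pairs.

Proof. Let `G(x) = wv ζ a t = α + 1/α`, `α = ζ t^a`, `G(y) = wv ζ' b t = β + 1/β`, `β = ζ' t^b`, `b ≠ 0`. Then
`α ^ b β ^ (-a) = ζ ^ b ζ' ^ (-a)` is a root of unity, so `α + 1/α = β + 1/β`, `β = α^{±1}`, and `b = ± a`. In two of the four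
cases `ζ' = ζ^{±1}`; in the others `α² = ζ² t^{2a}` is a root of unity, a contradiction (`MI` for `x`, `x`, `2`, `0`). -/
def S_MIB : Prop := ∀ (G : ℂ[X]) (D : Finset (ℤ × ℤ)), MI G → ∀ ζ ζ' : ℂ, (∃ n : ℕ, 0 < n ∧ ζ ^ n = 1) →
  (∃ n : ℕ, 0 < n ∧ ζ' ^ n = 1) → Bad G D ζ ζ' → ζ' + ζ'⁻¹ = ζ + ζ⁻¹

end Pool.Agent.K9h21.GP
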