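import Pool.Agent.K9h21.GP.Avg
import Pool.Agent.K9h21.GP.Stm2

set_option autoImplicit false

/-!
# AVGG: independence over the embeddings, several fibres
-/

namespace Pool.Agent.K9h21.GP

open Polynomial IntermediateField AVG_

theorem avgg.{u, v} : S_AVGG.{u, v} := by
  intro k E _ _ _ _ _ _ s₂ m y c hmin hdeg f A hA hs i
  let _ := (s₂.comp (algebraMap k E)).toAlgebra
  let σ₂ : E →ₐ[k] ℂ := ⟨s₂, fun r => rfl⟩
  have hσ : ∀ σ : E →ₐ[k] ℂ, ∑ j, A j * f (σ (y j)) = 0 := by
    intro σ
    apply hs (σ : E →+* ℂ)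
    ext r
    exact σ.commutes r
  have hpair : ∀ j l, c j ≠ c l →
      (((minpoly k (y j)).natDegree : ℝ) * (minpoly k (y l)).natDegree) * ∑ σ : E →ₐ[k] ℂ, f (σ (y j)) * f (σ (y l)) =
      Module.finrank k E * ((((minpoly k (y j)).aroots ℂ).map f).sum * (((minpoly k (y l)).aroots ℂ).map f).sum) := by
    intro j l hjl
    rcases hdeg j l hjl with h | h
    · exact sum_two (y j) (y l) f h
    · have := sum_two (y l) (y j) f h
      rw [mul_comm ((minpoly k (y l)).natDegree : ℝ), mul_comm ((((minpoly k (y l)).aroots ℂ).map f).sum)] at this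
      rw [← this]
      congr 1
      exact Finset.sum_congr rfl fun σ _ => mul_comm _ _
  have hpos : ∀ j, (0 : ℝ) < (minpoly k (y j)).natDegree := by
    intro j
    have := minpoly.natDegree_pos (Algebra.IsIntegral.isIntegral (R := k) (y j))
    exact_mod_cast this
  have hS : ∀ j l, c j = c i → c l ≠ c i → ∑ σ : E →ₐ[k] ℂ, f (σ (y j)) * f (σ (y l)) =
      ∑ σ : E →ₐ[k] ℂ, f (σ (y i)) * f (σ (y l)) := by
    intro j l hj hl
    have h1 := hpair j l (by rw [hj]; exact hl.symm)
    have h2 := hpair i l hl.symm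
    rw [hmin j i hj] at h1
    have hne : (((minpoly k (y i)).natDegree : ℝ) * (minpoly k (y l)).natDegree) ≠ 0 :=
      (mul_pos (hpos i) (hpos l)).ne'
    apply mul_left_cancel₀ hne
    rw [h1, h2]
  set g : (E →ₐ[k] ℂ) → ℝ := fun σ => ∑ j, if c j = c i then A j * f (σ (y j)) else 0 with hg
  set h : (E →ₐ[k] ℂ) → ℝ := fun σ => ∑ l, if c l = c i then 0 else A l * f (σ (y l)) with hh
  have hgh : ∀ σ, g σ + h σ = 0 := by
    intro σ
    rw [← hσ σ, hg, hh]
    simp only
    rw [← Finset.sum_add_distrib]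
    refine Finset.sum_congr rfl fun j _ => ?_
    by_cases hj : c j = c i
    · rw [if_pos hj, if_pos hj, add_zero]
    · rw [if_neg hj, if_neg hj, zero_add]
  have hgh0 : ∑ σ, g σ * h σ = 0 := by
    have h1 : ∀ σ, g σ * h σ = ∑ l, ∑ j, (if c j = c i then A j else 0) * (if c l = c i then 0 else A l) *
        (f (σ (y j)) * f (σ (y l))) := by
      intro σ
      rw [hg, hh]
      simp only
      rw [Finset.sum_mul_sum, Finset.sum_comm]
      refine Finset.sum_congr rfl fun l _ => Finset.sum_congr rfl fun j _ => ?_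
      by_cases hj : c j = c i
      · by_cases hl : c l = c i
        · rw [if_pos hj, if_pos hj, if_pos hl, if_pos hl]
          ring
        · rw [if_pos hj, if_pos hj, if_neg hl, if_neg hl]
          ring
      · rw [if_neg hj, if_neg hj]
        ring
    simp only [h1]
    rw [Finset.sum_comm]
    refine Finset.sum_eq_zero fun l _ => ?_
    rw [Finset.sum_comm]
    by_cases hl : c l = c i
    · refine Finset.sum_eq_zero fun j _ => Finset.sum_eq_zero fun σ _ => ?_
      rw [if_pos hl]
      ring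
    · have h2 : ∀ j, ∑ σ : E →ₐ[k] ℂ, (if c j = c i then A j else 0) * (if c l = c i then 0 else A l) *
          (f (σ (y j)) * f (σ (y l))) = (if c j = c i then A j else 0) *
          (A l * ∑ σ : E →ₐ[k] ℂ, f (σ (y i)) * f (σ (y l))) := by
        intro j
        rw [← Finset.mul_sum, if_neg hl]
        by_cases hj : c j = c i
        · rw [if_pos hj, hS j l hj hl]
          ring
        · rw [if_neg hj]
          ring
      rw [Finset.sum_congr rfl fun j _ => h2 j, ← Finset.sum_mul, hA i, zero_mul]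
  have hg2 : ∑ σ, g σ ^ 2 = 0 := by
    have h1 : ∀ σ, g σ ^ 2 = -(g σ * h σ) := by
      intro σ
      have h2 := hgh σ
      have h3 : h σ = -g σ := by linarith
      rw [h3]
      ring
    simp only [h1]
    rw [Finset.sum_neg_distrib, hgh0, neg_zero]
  have h2 := (Finset.sum_eq_zero_iff_of_nonneg (fun σ _ => sq_nonneg (g σ))).1 hg2 σ₂ (Finset.mem_univ σ₂)
  have h3 := pow_eq_zero_iff (two_ne_zero) |>.1 h2
  exact h3

end Pool.Agent.K9h21.GP
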