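import Pool.Agent.K9h21.GP.Stm

/-! Leaf BDC (helper72): bad pairs are few. -/

set_option autoImplicit false

namespace Pool.Agent.K9h21.GP

open Polynomial Finset

theorem bdc : S_BDC := by
  classical
  intro G D hG
  set CV : Finset ℂ := (derivative G).roots.toFinset.image (fun x => G.eval x) with hCV
  set U : Finset ℂ := CV.biUnion fun v => (X ^ 2 - C v * X + 1 : ℂ[X]).roots.toFinset with hU
  refine ⟨∑ p ∈ D, U.card * (p.2.natAbs * U.card), ?_⟩
  intro ζ' hζ' T hT
  have hder : derivative G ≠ 0 := by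
    intro h
    have := natDegree_eq_zero_of_derivative_eq_zero h
    omega
  -- values `u` with `u + u⁻¹` critical
  have hmem : ∀ u : ℂ, u ≠ 0 → (∃ x, (derivative G).eval x = 0 ∧ G.eval x = u + u⁻¹) → u ∈ U := by
    rintro u hu ⟨x, hx, hx2⟩
    rw [hU, mem_biUnion]
    refine ⟨G.eval x, ?_, ?_⟩
    · rw [hCV, mem_image]
      exact ⟨x, by rw [Multiset.mem_toFinset, mem_roots hder]; exact hx, rfl⟩
    · rw [Multiset.mem_toFinset, mem_roots']
      refine ⟨?_, ?_⟩
      · intro h0
        have h1 := congrArg (fun P => coeff P 2) h0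
        simp [coeff_one] at h1
      · show eval u _ = 0
        simp only [eval_add, eval_sub, eval_pow, eval_X, eval_mul, eval_C, eval_one]
        rw [hx2]
        field_simp
        ring
  have hsub : T ⊆ D.biUnion fun p => U.biUnion fun u' =>
      ((nthRootsFinset p.2.natAbs (if 0 ≤ p.2 then u' / ζ' else (u' / ζ')⁻¹)) : Finset ℂ).biUnion fun t =>
        U.image (fun u => u / t ^ p.1) := by
    intro ζ hζ
    obtain ⟨hζ0, p, hp, hp2, t, ht, h1, h2⟩ := hT ζ hζ
    rw [mem_biUnion]
    refine ⟨p, hp, ?_⟩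
    rw [mem_biUnion]
    have e1 : ζ' * t ^ p.2 ≠ 0 := mul_ne_zero hζ' (zpow_ne_zero _ ht)
    have e2 : ζ * t ^ p.1 ≠ 0 := mul_ne_zero hζ0 (zpow_ne_zero _ ht)
    refine ⟨ζ' * t ^ p.2, hmem _ e1 h2, ?_⟩
    rw [mem_biUnion]
    refine ⟨t, ?_, ?_⟩
    · rw [mem_nthRootsFinset (by omega)]
      rw [mul_div_cancel_left₀ _ hζ']
      split_ifs with hs
      · conv_rhs => rw [← Int.natAbs_of_nonneg hs]
        rw [zpow_natCast]
      · rw [← zpow_neg, ← zpow_natCast]
        congr 1
        omega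
    · rw [mem_image]
      refine ⟨ζ * t ^ p.1, hmem _ e2 h1, ?_⟩
      rw [mul_div_assoc, div_self (zpow_ne_zero _ ht), mul_one]
  refine (card_le_card hsub).trans (card_biUnion_le.trans (sum_le_sum fun p _ => ?_))
  refine card_biUnion_le.trans ?_
  rw [← smul_eq_mul, ← sum_const]
  refine sum_le_sum fun u' _ => ?_
  refine (card_biUnion_le.trans (sum_le_sum fun t _ => card_image_le)).trans ?_
  rw [sum_const, smul_eq_mul]
  refine Nat.mul_le_mul_right _ ?_
  rw [nthRootsFinset_def]
  exact (Multiset.toFinset_card_le _).trans (card_nthRoots _ _)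

end Pool.Agent.K9h21.GP
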