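import Pool.Agent.K9h21.GP.Stm5

/-!
# Leaf CNT of project GPM: counting the common branch points
-/

set_option autoImplicit false
set_option linter.all false

namespace Pool.Agent.K9h21.GP

open Polynomial Filter Topology

namespace CNT_

open GEO_

/-- the bounds for the function `H`, the quotient of two resultants -/
theorem core (hLOC : S_LOC) (G : ℂ[X]) (r r' : ℕ) (α α' : ℂ) (a b : ℤ) (D : ℕ)
    (c : Fin r → Fin D → ℂ → ℂ) (c' : Fin r' → Fin D → ℂ → ℂ) (h : FacM G r r' α α' a b D c c') :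
    ∃ (Z : Finset ℂ) (H : ℂ → ℂ), 0 ∈ Z ∧
      (∀ s ∈ Z, s ≠ 0 → ∃ x, (derivative G).eval x = 0 ∧ G.eval x = wv α a s) ∧
      (∀ t, t ∉ Z → ∀ x, (derivative G).eval x = 0 → G.eval x ≠ wv α a t) ∧
      DifferentiableOn ℂ H ((Z : Set ℂ))ᶜ ∧ (∀ t, t ∉ Z → H t ≠ 0) ∧
      (∀ s ∈ Z, s ≠ 0 → ∃ C : ℝ, ∀ᶠ t in 𝓝[≠] s, ‖H t‖ * ‖t - s‖ ≤ C) ∧
      (∀ s ∈ Z, s ≠ 0 → (∀ y, (derivative G).eval y = 0 → G.eval y ≠ wv α' b s) →
        ∃ C : ℝ, ∀ᶠ t in 𝓝[≠] s, ‖H t‖ ≤ C) ∧
      ∃ W A : ℝ, ∀ t, t ∉ Z → W ≤ ‖wv α' b t‖ → ‖H t‖ * ‖wv α' b t‖ ^ (r * r') ≤ A := by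
  classical
  have hG := h.mo
  have hGn := h.deg
  have hr := h.hr
  have hr' := h.hr'
  have hα := h.hα
  have hα' := h.hα'
  have ha : a ≠ 0 := h.ha.ne'
  have hb : b ≠ 0 := h.hb.ne'
  have hcrit := h.cr
  have hc := h.dc
  have hc' := h.dc'
  have hid := h.fac
  obtain ⟨n₁, hn₁⟩ : ∃ n₁, G.natDegree = n₁ := ⟨_, rfl⟩
  have hn₁0 : 0 < n₁ := by omega
  have hG0 : derivative G ≠ 0 := by
    intro h
    have := natDegree_eq_zero_of_derivative_eq_zero h
    omega
  -- the branch points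
  set Br : Set ℂ := {t | t ≠ 0 ∧ ∃ x, (derivative G).eval x = 0 ∧ G.eval x = wv α a t} with hBr
  have hBrf : Br.Finite := by
    have h1 : (⋃ x ∈ ((derivative G).roots.toFinset : Set ℂ),
        {t : ℂ | t ≠ 0 ∧ wv α a t = G.eval x}).Finite :=
      Set.Finite.biUnion ((derivative G).roots.toFinset.finite_toSet)
        fun x _ => wv_finite α a hα ha _
    refine h1.subset ?_
    rintro t ⟨ht, x, hx, hxe⟩
    rw [Set.mem_iUnion₂]
    refine ⟨x, ?_, ht, hxe.symm⟩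
    rw [Finset.mem_coe, Multiset.mem_toFinset, mem_roots hG0]
    exact hx
  set Z : Finset ℂ := insert 0 hBrf.toFinset with hZ
  have hZ0 : ∀ t, t ∉ Z → t ≠ 0 := fun t ht h => ht (h ▸ Finset.mem_insert_self _ _)
  have hZB : ∀ t, t ∉ Z → t ∉ Br := fun t ht h =>
    ht (Finset.mem_insert_of_mem (hBrf.mem_toFinset.2 h))
  -- the ring elements
  set cD : Fin r → Fin D → Dr := fun m i => ⟨c m i, hc m i⟩ with hcD
  set cD' : Fin r' → Fin D → Dr := fun m i => ⟨c' m i, hc' m i⟩ with hcD'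
  set w : Dr := ⟨wv α a, wv_diff α a hα⟩ with hw
  set R : Dr[X] := resultant (FF cD G) (FF cD' G) r r' with hR
  set N0 : Dr := resultant (G.map cst - C w) R n₁ R.natDegree with hN0
  set De : Dr := resultant (G.map cst - C w) ((derivative G).map cst) n₁ n₁ with hDe
  -- evaluation
  have hPmap : ∀ t, (G.map cst - C w).map (ev t) = G - C (wv α a t) := by
    intro t
    rw [Polynomial.map_sub, Polynomial.map_map, ev_comp_cst, Polynomial.map_id, map_C]
    rfl
  have hPm : ∀ t, (G - C (wv α a t)).Monic := by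
    intro t
    apply hG.sub_of_left
    calc degree (C (wv α a t)) ≤ 0 := degree_C_le
      _ < degree G := by
        rw [← natDegree_pos_iff_degree_pos, hn₁]; exact hn₁0
  have hPn : ∀ t, (G - C (wv α a t)).natDegree = n₁ := by
    intro t
    rw [natDegree_sub_C, hn₁]
  have hRev : ∀ t x, (R.map (ev t)).eval x = resultant
      (pol (fun m => ∑ i, c m i t * x ^ (i : ℕ)) ((derivative G).eval x))
      (pol (fun m => ∑ i, c' m i t * x ^ (i : ℕ)) ((derivative G).eval x)) r r' := by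
    intro t x
    have h1 := FF_map cD G t x
    have h2 := FF_map cD' G t x
    rw [← eval₂_eq_eval_map, ← coe_eval₂RingHom, hR, ← resultant_map_map, h1, h2]
  have hN0ev : ∀ t, ‖(N0 : ℂ → ℂ) t‖ = ((G - C (wv α a t)).roots.map fun x =>
      ‖(R.map (ev t)).eval x‖).prod := by
    intro t
    have h1 : (N0 : ℂ → ℂ) t = resultant (G - C (wv α a t)) (R.map (ev t)) n₁ R.natDegree := by
      rw [← ev_coe, hN0, ← resultant_map_map, hPmap]
    rw [h1]
    have h2 := norm_res (G - C (wv α a t)) (R.map (ev t)) R.natDegree natDegree_map_le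
    rw [hPn, (hPm t).leadingCoeff, norm_one, one_pow, one_mul] at h2
    exact h2
  have hDeev : ∀ t, ‖(De : ℂ → ℂ) t‖ = ((G - C (wv α a t)).roots.map fun x =>
      ‖(derivative G).eval x‖).prod := by
    intro t
    have h1 : (De : ℂ → ℂ) t = resultant (G - C (wv α a t)) (derivative G) n₁ n₁ := by
      rw [← ev_coe, hDe, ← resultant_map_map, hPmap, Polynomial.map_map, ev_comp_cst,
        Polynomial.map_id]
    rw [h1]
    have h2 := norm_res (G - C (wv α a t)) (derivative G) n₁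
      ((natDegree_derivative_le G).trans (by omega))
    rw [hPn, (hPm t).leadingCoeff, norm_one, one_pow, one_mul] at h2
    exact h2
  -- the resultants of the monic factors
  set ρ : ℂ → ℂ → ℝ := fun t x => pr
    (C ((derivative G).eval x)⁻¹ * pol (fun m => ∑ i, c m i t * x ^ (i : ℕ)) ((derivative G).eval x))
    (C ((derivative G).eval x)⁻¹ * pol (fun m => ∑ i, c' m i t * x ^ (i : ℕ)) ((derivative G).eval x))
    with hρ
  set n := r + r' with hn
  set e := r * (r - 1) + r' * (r' - 1) with he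
  obtain ⟨C₀, hC₀, hroot⟩ := root_bound G hG (by omega)
  have hn0 : 0 < n := by omega
  have hen : e + 1 ≤ (n - 1) * n := by
    obtain ⟨u, hu⟩ : ∃ u, r = u + 1 := ⟨r - 1, by omega⟩
    obtain ⟨u', hu'⟩ : ∃ u', r' = u' + 1 := ⟨r' - 1, by omega⟩
    rw [he, hn, hu, hu']
    simp only [Nat.add_sub_cancel]
    have : u + 1 + (u' + 1) - 1 = u + u' + 1 := by omega
    rw [this]
    nlinarith
  have hcard : (derivative G).roots.card = n - 1 := by
    rw [← (IsAlgClosed.splits (derivative G)).natDegree_eq_card_roots, natDegree_derivative, hGn]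
  have hgx : ∀ t, t ∉ Z → ∀ x ∈ (G - C (wv α a t)).roots, G.eval x = wv α a t ∧
      (derivative G).eval x ≠ 0 := by
    intro t ht x hx
    have h1 := (mem_roots (hPm t).ne_zero).1 hx
    have h2 : G.eval x = wv α a t := by
      have h3 : (G - C (wv α a t)).eval x = 0 := h1
      rw [eval_sub, eval_C, sub_eq_zero] at h3
      exact h3
    exact ⟨h2, fun h => hZB t ht ⟨hZ0 t ht, x, h, h2⟩⟩
  have hρpos : ∀ t, t ∉ Z → ∀ x ∈ (G - C (wv α a t)).roots, 0 < ρ t x := by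
    intro t ht x hx
    obtain ⟨hx1, hx2⟩ := hgx t ht x hx
    rw [hρ]
    simp only
    unfold pr
    apply prod_pos
    intro y hy
    obtain ⟨v, hv, rfl⟩ := Multiset.mem_map.1 hy
    rw [norm_pos_iff]
    intro h0
    have hmon := monic_pol (fun m => ∑ i, c m i t * x ^ (i : ℕ)) ((derivative G).eval x) hx2
    have hv1 := (mem_roots hmon.1.ne_zero).1 hv
    have hv2 : (C ((derivative G).eval x)⁻¹ *
        pol (fun m => ∑ i, c m i t * x ^ (i : ℕ)) ((derivative G).eval x)).eval v = 0 := hv1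
    rw [eval_mul, eval_C, pol_eval c G t x v] at hv2
    rw [eval_mul, eval_C, pol_eval c' G t x v] at h0
    exact nonvan G G α α' a b hα hα' hb hcrit r r' D c c' hc hc' hid t (hZ0 t ht) x hx1 hx2 v
      ((mul_eq_zero.1 hv2).resolve_left (inv_ne_zero hx2))
      ((mul_eq_zero.1 h0).resolve_left (inv_ne_zero hx2))
  have hρlow : ∀ t, t ∉ Z → ∀ x ∈ (G - C (wv α a t)).roots,
      Lam G C₀ n e (wv α' b t) ≤ ρ t x ^ (2 * n) := by
    intro t ht x hx
    obtain ⟨hx1, hx2⟩ := hgx t ht x hx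
    have hmon := monic_pol (fun m => ∑ i, c m i t * x ^ (i : ℕ)) ((derivative G).eval x) hx2
    have hmon' := monic_pol (fun m => ∑ i, c' m i t * x ^ (i : ℕ)) ((derivative G).eval x) hx2
    have hQS : (C ((derivative G).eval x)⁻¹ *
        pol (fun m => ∑ i, c m i t * x ^ (i : ℕ)) ((derivative G).eval x)) *
        (C ((derivative G).eval x)⁻¹ *
        pol (fun m => ∑ i, c' m i t * x ^ (i : ℕ)) ((derivative G).eval x)) =
        G - C (wv α' b t) := by
      apply Polynomial.funext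
      intro V
      rw [eval_mul, eval_mul, eval_mul, eval_C, pol_eval c G t x V, pol_eval c' G t x V,
        eval_sub, eval_C]
      have h1 := hid t (hZ0 t ht) x hx1 V
      calc ((derivative G).eval x)⁻¹ * Th (fun m i => c m i t) (derivative G) x V *
            (((derivative G).eval x)⁻¹ * Th (fun m i => c' m i t) (derivative G) x V)
          = (((derivative G).eval x)⁻¹) ^ 2 * (Th (fun m i => c m i t) (derivative G) x V *
            Th (fun m i => c' m i t) (derivative G) x V) := by ring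
        _ = _ := by
          rw [h1]
          field_simp
    have h2 := res_lower G hG C₀ hC₀ hroot _ _ hmon.1 hmon'.1 (wv α' b t) hQS
      (by rw [hmon.2]; exact hr) n hGn.symm e (by rw [hmon.2, hmon'.2])
    unfold Lam
    rw [div_le_iff₀ (den_pos hC₀ n e _)]
    exact h2
  -- the function
  set H : ℂ → ℂ := fun t => (De : ℂ → ℂ) t ^ n / (N0 : ℂ → ℂ) t with hH
  have hHn : ∀ t, t ∉ Z → ‖H t‖ = ((G - C (wv α a t)).roots.map fun x => (ρ t x)⁻¹).prod ∧
      (N0 : ℂ → ℂ) t ≠ 0 := by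
    intro t ht
    have h1 : ∀ x ∈ (G - C (wv α a t)).roots, ‖(R.map (ev t)).eval x‖ =
        ‖(derivative G).eval x‖ ^ n * ρ t x := by
      intro x hx
      obtain ⟨hx1, hx2⟩ := hgx t ht x hx
      rw [hRev, res_norm _ _ _ hx2]
    have h2 : ‖(N0 : ℂ → ℂ) t‖ = ((G - C (wv α a t)).roots.map fun x =>
        ‖(derivative G).eval x‖).prod ^ n * ((G - C (wv α a t)).roots.map fun x => ρ t x).prod := by
      rw [hN0ev, Multiset.map_congr rfl h1, Multiset.prod_map_mul, Multiset.prod_map_pow]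
    have h3 : 0 < ((G - C (wv α a t)).roots.map fun x => ‖(derivative G).eval x‖).prod := by
      apply prod_pos
      intro y hy
      obtain ⟨x, hx, rfl⟩ := Multiset.mem_map.1 hy
      exact norm_pos_iff.2 (hgx t ht x hx).2
    have h4 : 0 < ((G - C (wv α a t)).roots.map fun x => ρ t x).prod := by
      apply prod_pos
      intro y hy
      obtain ⟨x, hx, rfl⟩ := Multiset.mem_map.1 hy
      exact hρpos t ht x hx
    have h5 : ((G - C (wv α a t)).roots.map fun x => (ρ t x)⁻¹).prod =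
        (((G - C (wv α a t)).roots.map fun x => ρ t x).prod)⁻¹ := by
      rw [Multiset.prod_map_inv]
    constructor
    · rw [hH]
      simp only
      rw [norm_div, norm_pow, hDeev, h2, h5]
      field_simp
    · rw [← norm_pos_iff, h2]
      positivity
  have hHb : ∀ t, t ∉ Z → ∀ M : ℝ, 0 < M → M ≤ Lam G C₀ n e (wv α' b t) →
      ‖H t‖ ^ (2 * n) ≤ (M⁻¹) ^ n₁ := by
    intro t ht M hM hL
    rw [(hHn t ht).1, ← Multiset.prod_map_pow]
    have hcd : (G - C (wv α a t)).roots.card = n₁ := by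
      rw [← (IsAlgClosed.splits (G - C (wv α a t))).natDegree_eq_card_roots, hPn]
    refine (prod_le_pow _ (M⁻¹) ?_ ?_).trans (le_of_eq ?_)
    · intro y hy
      obtain ⟨x, hx, rfl⟩ := Multiset.mem_map.1 hy
      exact pow_nonneg (inv_nonneg.2 (hρpos t ht x hx).le) _
    · intro y hy
      obtain ⟨x, hx, rfl⟩ := Multiset.mem_map.1 hy
      rw [inv_pow]
      exact inv_anti₀ hM (hL.trans (hρlow t ht x hx))
    · rw [Multiset.card_map, hcd]
  have h2n : 2 * n ≠ 0 := by omega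
  -- differentiability
  have hHd : DifferentiableOn ℂ H ((Z : Set ℂ))ᶜ := by
    have hsub : ((Z : Set ℂ))ᶜ ⊆ ({0} : Set ℂ)ᶜ := by
      intro t ht h
      exact hZ0 t (fun h' => ht (Finset.mem_coe.2 h')) h
    rw [hH]
    refine DifferentiableOn.fun_div ?_ ?_ ?_
    · exact (De.2.mono hsub).fun_pow n
    · exact N0.2.mono hsub
    · intro t ht
      exact (hHn t (fun h' => ht (Finset.mem_coe.2 h'))).2
  -- eventually not in `Z`
  have hnotZ : ∀ s : ℂ, ∀ᶠ t in 𝓝[≠] s, t ∉ Z := by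
    intro s
    have h1 : IsClosed ((Z.erase s : Finset ℂ) : Set ℂ) := (Z.erase s).finite_toSet.isClosed
    have h2 : ∀ᶠ t in 𝓝 s, t ∉ ((Z.erase s : Finset ℂ) : Set ℂ) :=
      h1.isOpen_compl.mem_nhds (by simp)
    filter_upwards [mem_nhdsWithin_of_mem_nhds h2, self_mem_nhdsWithin] with t ht hts hZt
    apply ht
    rw [Finset.mem_coe, Finset.mem_erase]
    exact ⟨hts, hZt⟩
  have hbound1 : ∀ x : ℝ, 0 ≤ x → ∀ K : ℝ, x ^ (2 * n) ≤ K → x ≤ max 1 K := by
    intro x hx K hK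
    rcases le_or_gt x 1 with h1 | h1
    · exact h1.trans (le_max_left _ _)
    · refine le_trans ?_ (le_max_right _ _)
      refine le_trans ?_ hK
      calc x = x ^ 1 := (pow_one x).symm
        _ ≤ x ^ (2 * n) := pow_le_pow_right₀ h1.le (by omega)
  have hnc : ∀ s ∈ Z, s ≠ 0 → (∀ y, (derivative G).eval y = 0 → G.eval y ≠ wv α' b s) →
        ∃ C : ℝ, ∀ᶠ t in 𝓝[≠] s, ‖H t‖ ≤ C := by
    intro s hs hs0 hncr
    have hpos : 0 < Lam G C₀ n e (wv α' b s) := Lam_pos G hG0 hC₀ n e _ hncr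
    have hcont : Tendsto (fun t => Lam G C₀ n e (wv α' b t)) (𝓝 s)
        (𝓝 (Lam G C₀ n e (wv α' b s))) :=
      ((Lam_cont G hC₀ n e).tendsto _).comp
        (wv_deriv α' b s hα' hs0).continuousAt.tendsto
    have hev : ∀ᶠ t in 𝓝[≠] s, Lam G C₀ n e (wv α' b s) / 2 < Lam G C₀ n e (wv α' b t) :=
      mem_nhdsWithin_of_mem_nhds (hcont.eventually (lt_mem_nhds (half_lt_self hpos)))
    refine ⟨max 1 (((Lam G C₀ n e (wv α' b s)) / 2)⁻¹ ^ n₁), ?_⟩
    filter_upwards [hnotZ s, hev] with t ht hL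
    apply hbound1 _ (norm_nonneg _)
    exact hHb t ht _ (by linarith) (le_of_lt hL)
  refine ⟨Z, H, Finset.mem_insert_self _ _, ?_, ?_, hHd, ?_, ?_, hnc, ?_⟩
  · intro s hs hs0
    rcases Finset.mem_insert.1 hs with h1 | h1
    · exact absurd h1 hs0
    · exact (hBrf.mem_toFinset.1 h1).2
  · intro t ht x hx hxe
    exact hZB t ht ⟨hZ0 t ht, x, hx, hxe⟩
  · intro t ht h0
    have h2 := (hHn t ht).1
    rw [h0, norm_zero] at h2
    have h3 : 0 < ((G - C (wv α a t)).roots.map fun x => (ρ t x)⁻¹).prod := by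
      apply prod_pos
      intro y hy
      obtain ⟨x, hx, rfl⟩ := Multiset.mem_map.1 hy
      exact inv_pos.2 (hρpos t ht x hx)
    linarith
  · intro s hs hs0
    have hsB : s ∈ Br := by
      rcases Finset.mem_insert.1 hs with h1 | h1
      · exact absurd h1 hs0
      · exact hBrf.mem_toFinset.1 h1
    obtain ⟨-, x₀, hx₀, hx₀e⟩ := hsB
    by_cases hcr : ∀ y, (derivative G).eval y = 0 → G.eval y ≠ wv α' b s
    · obtain ⟨C1, hC1⟩ := hnc s hs hs0 hcr
      refine ⟨max C1 0 * 1, ?_⟩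
      have hnear : ∀ᶠ t : ℂ in 𝓝[≠] s, ‖t - s‖ < 1 := by
        apply mem_nhdsWithin_of_mem_nhds
        have h5 : Tendsto (fun t : ℂ => ‖t - s‖) (𝓝 s) (𝓝 0) := by
          have h6 : Continuous fun t : ℂ => ‖t - s‖ := by fun_prop
          simpa using h6.tendsto s
        exact h5.eventually (gt_mem_nhds one_pos)
      filter_upwards [hC1, hnear] with t ht ht2
      exact mul_le_mul (ht.trans (le_max_left _ _)) ht2.le (norm_nonneg _) (le_max_right _ _)
    · push Not at hcr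
      obtain ⟨y₀, hy₀, hy₀e⟩ := hcr
      obtain ⟨κ, hκ, hev⟩ := hLOC G r r' α α' a b D c c' h s x₀ y₀ hs0 hx₀ hx₀e hy₀ hy₀e
      refine ⟨κ⁻¹, ?_⟩
      filter_upwards [hev, hnotZ s, self_mem_nhdsWithin] with t ht htZ hts
      have h1 : ‖H t‖ = (((G - C (wv α a t)).roots.map fun x => rho G c c' t x).prod)⁻¹ := by
        rw [(hHn t htZ).1, Multiset.prod_map_inv]
        rfl
      have hts' : 0 < ‖t - s‖ := norm_pos_iff.2 (sub_ne_zero.2 hts)
      rw [h1]
      have h2 : 0 < κ * ‖t - s‖ := mul_pos hκ hts'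
      calc (((G - C (wv α a t)).roots.map fun x => rho G c c' t x).prod)⁻¹ * ‖t - s‖
          ≤ (κ * ‖t - s‖)⁻¹ * ‖t - s‖ :=
            mul_le_mul_of_nonneg_right (inv_anti₀ h2 ht) hts'.le
        _ = κ⁻¹ := by field_simp
  · -- growth
    have hnn : n₁ = n := by omega
    set K₁ : ℝ := ((derivative G).roots.map fun y => ‖G.eval y‖).sum with hK
    have hK1 : ∀ y ∈ (derivative G).roots, ‖G.eval y‖ ≤ K₁ := by
      intro y hy
      apply Multiset.single_le_sum
      · intro x hx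
        obtain ⟨z, _, rfl⟩ := Multiset.mem_map.1 hx
        exact norm_nonneg _
      · exact Multiset.mem_map_of_mem (fun y => ‖G.eval y‖) hy
    have hK0 : 0 ≤ K₁ := by
      apply Multiset.sum_nonneg
      intro x hx
      obtain ⟨z, _, rfl⟩ := Multiset.mem_map.1 hx
      exact norm_nonneg _
    set A : ℝ := 2 ^ (e * n) * (2 * C₀) ^ e * 2 ^ ((n - 1) * n) with hA
    have hA0 : 0 < A := by
      have : 0 < 2 * C₀ := by linarith
      positivity
    have hexp : (n - 1) * n = e + 2 * (r * r') := by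
      obtain ⟨u, hu⟩ : ∃ u, r = u + 1 := ⟨r - 1, by omega⟩
      obtain ⟨u', hu'⟩ : ∃ u', r' = u' + 1 := ⟨r' - 1, by omega⟩
      rw [he, hn, hu, hu']
      simp only [Nat.add_sub_cancel]
      have : u + 1 + (u' + 1) - 1 = u + u' + 1 := by omega
      rw [this]
      ring
    refine ⟨2 * K₁ + 1, A + 1, fun t ht hW => ?_⟩
    set w' := wv α' b t with hw'
    have hw1 : 1 ≤ ‖w'‖ := by linarith
    have hw2 : K₁ ≤ ‖w'‖ / 2 := by linarith
    have hw0 : 0 < ‖w'‖ := by linarith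
    have h1 : (‖w'‖ / 2) ^ (n - 1) ≤ Pi0 G w' := by
      unfold Pi0
      have h2 := pow_le_prod ((derivative G).roots.map fun y => ‖G.eval y - w'‖) (‖w'‖ / 2)
        (by positivity) (by
          intro a ha
          obtain ⟨y, hy, rfl⟩ := Multiset.mem_map.1 ha
          have h3 := hK1 y hy
          have h4 : ‖w'‖ ≤ ‖G.eval y‖ + ‖G.eval y - w'‖ := by
            calc ‖w'‖ = ‖G.eval y - (G.eval y - w')‖ := by rw [sub_sub_cancel]
              _ ≤ _ := norm_sub_le _ _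
          linarith)
      rw [Multiset.card_map, hcard] at h2
      exact h2
    have hlow : ‖w'‖ ^ (2 * (r * r')) / A ≤ Lam G C₀ n e w' := by
      unfold Lam
      rw [le_div_iff₀ (den_pos hC₀ n e w')]
      have h5 : C₀ * (1 + ‖w'‖) ≤ 2 * C₀ * ‖w'‖ := by nlinarith
      have h6 : 0 ≤ C₀ * (1 + ‖w'‖) := by positivity
      calc ‖w'‖ ^ (2 * (r * r')) / A * (2 ^ (e * n) * (C₀ * (1 + ‖w'‖)) ^ e)
          ≤ ‖w'‖ ^ (2 * (r * r')) / A * (2 ^ (e * n) * (2 * C₀ * ‖w'‖) ^ e) := by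
            apply mul_le_mul_of_nonneg_left _ (by positivity)
            apply mul_le_mul_of_nonneg_left _ (by positivity)
            exact pow_le_pow_left₀ h6 h5 e
        _ = ‖w'‖ ^ ((n - 1) * n) / 2 ^ ((n - 1) * n) := by
            have e1 : ‖w'‖ ^ ((n - 1) * n) = ‖w'‖ ^ e * ‖w'‖ ^ (2 * (r * r')) := by
              rw [hexp, pow_add]
            have hC2 : 0 < 2 * C₀ := by linarith
            have p1 : (0 : ℝ) < 2 ^ (e * n) := by positivity
            have p2 : (0 : ℝ) < (2 * C₀) ^ e := by positivity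
            have p3 : (0 : ℝ) < 2 ^ ((n - 1) * n) := by positivity
            rw [e1, hA, mul_pow (2 * C₀), div_mul_eq_mul_div, div_eq_div_iff
              (mul_pos (mul_pos p1 p2) p3).ne' p3.ne']
            ring
        _ = ((‖w'‖ / 2) ^ (n - 1)) ^ n := by rw [← pow_mul, div_pow]
        _ ≤ Pi0 G w' ^ n := pow_le_pow_left₀ (by positivity) h1 n
    have hpos : 0 < ‖w'‖ ^ (2 * (r * r')) / A := by positivity
    have h7 := hHb t ht _ hpos hlow
    rw [hnn, pow_mul] at h7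
    have h8 : ‖H t‖ ^ 2 ≤ (‖w'‖ ^ (2 * (r * r')) / A)⁻¹ :=
      le_of_pow_le_pow_left₀ (by omega) (by positivity) h7
    have h9 : (‖H t‖ * ‖w'‖ ^ (r * r')) ^ 2 ≤ A := by
      rw [mul_pow, ← pow_mul, mul_comm (r * r') 2]
      calc ‖H t‖ ^ 2 * ‖w'‖ ^ (2 * (r * r')) ≤ (‖w'‖ ^ (2 * (r * r')) / A)⁻¹ *
            ‖w'‖ ^ (2 * (r * r')) := mul_le_mul_of_nonneg_right h8 (by positivity)
        _ = A := by
            rw [inv_div]
            field_simp
    nlinarith [norm_nonneg (H t), pow_pos hw0 (r * r')]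

/-- the distance to `0` or `∞` -/
noncomputable def tau (t : ℂ) : ℝ := max ‖t‖ ‖t‖⁻¹

theorem tau_ge (t : ℂ) (ht : t ≠ 0) : 1 ≤ tau t := by
  unfold tau
  rcases le_total 1 ‖t‖ with h | h
  · exact h.trans (le_max_left _ _)
  · exact (one_le_inv₀ (norm_pos_iff.2 ht)).2 h |>.trans (le_max_right _ _)

theorem growth (α : ℂ) (a : ℤ) (hα : α ≠ 0) (ha : 0 < a) :
    ∃ C c T : ℝ, 0 < C ∧ 0 < c ∧ ∀ t : ℂ, t ≠ 0 → ‖wv α a t‖ ≤ C * tau t ^ a.toNat ∧
      (T ≤ tau t → c * tau t ^ a.toNat ≤ ‖wv α a t‖) := by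
  obtain ⟨m, hm⟩ : ∃ m : ℕ, a.toNat = m := ⟨_, rfl⟩
  have ham : a = (m : ℤ) := by omega
  have hm0 : m ≠ 0 := by omega
  rw [hm]
  have hαn : 0 < ‖α‖ := norm_pos_iff.2 hα
  have key : ∀ β Y : ℝ, ∀ z z' : ℂ, 0 < β → 1 ≤ Y → ‖z‖ = β * Y → ‖z'‖ = (β * Y)⁻¹ →
      ‖z + z'‖ ≤ (β + β⁻¹) * Y ∧ (2 / β ^ 2 ≤ Y → β / 2 * Y ≤ ‖z + z'‖) := by
    intro β Y z z' hβ hY hz hz'
    have h1 : (β * Y)⁻¹ ≤ β⁻¹ := inv_anti₀ hβ (by nlinarith)
    have h2 : 0 < β⁻¹ := inv_pos.2 hβ
    constructor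
    · calc ‖z + z'‖ ≤ ‖z‖ + ‖z'‖ := norm_add_le _ _
        _ ≤ β * Y + β⁻¹ * Y := by
            rw [hz, hz']
            nlinarith
        _ = _ := by ring
    · intro h3
      have h4 : β⁻¹ ≤ β / 2 * Y := by
        calc β⁻¹ = β / 2 * (2 / β ^ 2) := by field_simp
          _ ≤ β / 2 * Y := mul_le_mul_of_nonneg_left h3 (by positivity)
      have h5 : ‖z‖ ≤ ‖z + z'‖ + ‖z'‖ := by
        calc ‖z‖ = ‖(z + z') - z'‖ := by rw [add_sub_cancel_right]
          _ ≤ _ := norm_sub_le _ _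
      rw [hz, hz'] at h5
      linarith
  refine ⟨‖α‖ + ‖α‖⁻¹, min (‖α‖ / 2) (‖α‖⁻¹ / 2), max (2 / ‖α‖ ^ 2) (2 / (‖α‖⁻¹) ^ 2),
    by positivity, by positivity, fun t ht => ?_⟩
  have htn : 0 < ‖t‖ := norm_pos_iff.2 ht
  have hτ1 := tau_ge t ht
  have hw : wv α a t = α * t ^ m + (α * t ^ m)⁻¹ := by
    unfold wv
    rw [ham, zpow_natCast]
  have hYτ : tau t ≤ tau t ^ m := le_self_pow₀ hτ1 hm0
  have hY1 : 1 ≤ tau t ^ m := one_le_pow₀ hτ1
  rcases le_total 1 ‖t‖ with h | h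
  · have hτ : tau t = ‖t‖ := max_eq_left ((inv_le_one_of_one_le₀ h).trans h)
    obtain ⟨h1, h2⟩ := key ‖α‖ (tau t ^ m) (α * t ^ m) ((α * t ^ m)⁻¹) hαn hY1
      (by rw [norm_mul, norm_pow, hτ]) (by rw [norm_inv, norm_mul, norm_pow, hτ])
    rw [hw]
    refine ⟨h1, fun hT => ?_⟩
    refine le_trans ?_ (h2 (((le_max_left _ _).trans hT).trans hYτ))
    exact mul_le_mul_of_nonneg_right (min_le_left _ _) (by linarith)
  · have hτ : tau t = ‖t‖⁻¹ := max_eq_right (h.trans ((one_le_inv₀ htn).2 h))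
    obtain ⟨h1, h2⟩ := key ‖α‖⁻¹ (tau t ^ m) ((α * t ^ m)⁻¹) (α * t ^ m) (inv_pos.2 hαn) hY1
      (by rw [norm_inv, norm_mul, norm_pow, hτ, mul_inv, inv_pow])
      (by rw [norm_mul, norm_pow, hτ, mul_inv, inv_inv, inv_pow, inv_inv])
    rw [hw, add_comm (α * t ^ m)]
    refine ⟨?_, fun hT => ?_⟩
    · rw [inv_inv, add_comm ‖α‖⁻¹] at h1
      exact h1
    refine le_trans ?_ (h2 (((le_max_right _ _).trans hT).trans hYτ))
    exact mul_le_mul_of_nonneg_right (min_le_right _ _) (by linarith)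

theorem notZ (Z : Finset ℂ) (s : ℂ) : ∀ᶠ t in 𝓝[≠] s, t ∉ Z := by
  classical
  have h1 : IsClosed ((Z.erase s : Finset ℂ) : Set ℂ) := (Z.erase s).finite_toSet.isClosed
  have h2 : ∀ᶠ t in 𝓝 s, t ∉ ((Z.erase s : Finset ℂ) : Set ℂ) :=
    h1.isOpen_compl.mem_nhds (by simp)
  filter_upwards [mem_nhdsWithin_of_mem_nhds h2, self_mem_nhdsWithin] with t ht hts hZt
  apply ht
  rw [Finset.mem_coe, Finset.mem_erase]
  exact ⟨hts, hZt⟩

/-- the Liouville argument -/
theorem liou (Z : Finset ℂ) (hZ0 : (0 : ℂ) ∈ Z) (H M : ℂ → ℂ)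
    (hH : DifferentiableOn ℂ H ((Z : Set ℂ))ᶜ) (hM : DifferentiableOn ℂ M {0}ᶜ)
    (hb : ∀ s ∈ Z, s ≠ 0 → ∃ C : ℝ, ∀ᶠ t in 𝓝[≠] s, ‖M t * H t‖ ≤ C)
    (p q : ℕ) (T C1 C2 : ℝ) (hC1 : 0 ≤ C1) (hpq : p < q)
    (hM1 : ∀ t, t ∉ Z → T ≤ tau t → ‖M t‖ ≤ C1 * tau t ^ p)
    (hH1 : ∀ t, t ∉ Z → T ≤ tau t → ‖H t‖ * tau t ^ q ≤ C2) :
    ∀ t, t ∉ Z → M t * H t = 0 := by
  have hne : ∀ t, t ∉ Z → t ≠ 0 := fun t ht h => ht (h ▸ hZ0)
  have hmain : ∀ t, t ∉ Z → T ≤ tau t → ‖M t * H t‖ * tau t ≤ C1 * C2 := by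
    intro t ht hT
    have hτ := tau_ge t (hne t ht)
    have hτ0 : 0 < tau t := by linarith
    obtain ⟨d, hd⟩ : ∃ d, q = p + 1 + d := ⟨q - (p + 1), by omega⟩
    have h1 := hM1 t ht hT
    have h2 := hH1 t ht hT
    have h3 : ‖M t‖ * ‖H t‖ * tau t ^ q ≤ C1 * tau t ^ p * C2 := by
      calc ‖M t‖ * ‖H t‖ * tau t ^ q = ‖M t‖ * (‖H t‖ * tau t ^ q) := by ring
        _ ≤ (C1 * tau t ^ p) * C2 := mul_le_mul h1 h2 (by positivity) (by positivity)
    have h4 : tau t ^ p * tau t ≤ tau t ^ q := by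
      rw [← pow_succ]
      exact pow_le_pow_right₀ hτ (by omega)
    have h5 : (‖M t * H t‖ * tau t) * tau t ^ p ≤ (C1 * C2) * tau t ^ p := by
      calc (‖M t * H t‖ * tau t) * tau t ^ p = ‖M t‖ * ‖H t‖ * (tau t ^ p * tau t) := by
            rw [norm_mul]; ring
        _ ≤ ‖M t‖ * ‖H t‖ * tau t ^ q := mul_le_mul_of_nonneg_left h4 (by positivity)
        _ ≤ C1 * tau t ^ p * C2 := h3
        _ = _ := by ring
    exact le_of_mul_le_mul_right h5 (by positivity)
  apply removal Z (fun t => M t * H t)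
  · apply DifferentiableOn.mul _ hH
    apply hM.mono
    intro t ht h
    exact ht (by rw [Set.mem_singleton_iff.1 h]; exact Finset.mem_coe.2 hZ0)
  · intro s hs
    by_cases hs0 : s = 0
    · subst hs0
      refine ⟨C1 * C2, ?_⟩
      have hball : ∀ᶠ t : ℂ in 𝓝[≠] 0, ‖t‖ < (max T 1)⁻¹ := by
        apply mem_nhdsWithin_of_mem_nhds
        have : Tendsto (fun t : ℂ => ‖t‖) (𝓝 0) (𝓝 0) := by
          simpa using (continuous_norm (E := ℂ)).tendsto 0
        exact this.eventually (gt_mem_nhds (inv_pos.2 (by positivity)))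
      filter_upwards [notZ Z 0, hball] with t ht htT
      have h2 : 0 < ‖t‖ := norm_pos_iff.2 (hne t ht)
      have h3 : max T 1 < ‖t‖⁻¹ := (lt_inv_comm₀ h2 (by positivity)).1 htT
      have h4 : T ≤ tau t := (le_max_left _ _).trans (h3.le.trans (le_max_right _ _))
      have h5 := hmain t ht h4
      have h6 := tau_ge t (hne t ht)
      calc ‖M t * H t‖ ≤ ‖M t * H t‖ * tau t := le_mul_of_one_le_right (norm_nonneg _) h6
        _ ≤ _ := h5
    · exact hb s hs hs0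
  · rw [tendsto_zero_iff_norm_tendsto_zero]
    rw [Metric.tendsto_nhds]
    intro ε hε
    have hfar : ∀ᶠ t : ℂ in cocompact ℂ,
        t ∈ (Metric.closedBall (0 : ℂ) (max T (C1 * C2 / ε)))ᶜ :=
      (isCompact_closedBall 0 _).compl_mem_cocompact
    have hZc : ∀ᶠ t : ℂ in cocompact ℂ, t ∈ ((Z : Set ℂ))ᶜ :=
      Z.finite_toSet.isCompact.compl_mem_cocompact
    filter_upwards [hfar, hZc] with t htT htZ
    have ht : t ∉ Z := fun h => htZ (Finset.mem_coe.2 h)
    have htT' : max T (C1 * C2 / ε) < ‖t‖ := by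
      rw [Set.mem_compl_iff, mem_closedBall_zero_iff, not_le] at htT
      exact htT
    have h1 : ‖t‖ ≤ tau t := le_max_left _ _
    have h2 := hmain t ht (((le_max_left _ _).trans htT'.le).trans h1)
    have h3 : C1 * C2 / ε < tau t := ((le_max_right _ _).trans_lt htT').trans_le h1
    rw [div_lt_iff₀ hε] at h3
    have h4 := tau_ge t (hne t ht)
    rw [dist_zero_right, norm_norm]
    by_contra hcon
    push Not at hcon
    have h5 : ε * tau t ≤ ‖M t * H t‖ * tau t := mul_le_mul_of_nonneg_right hcon (by linarith)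
    linarith [mul_comm ε (tau t)]

/-- the product over the critical points -/
noncomputable def MP (G : ℂ[X]) : ℂ[X] := ((derivative G).roots.map fun y => C (G.eval y) - X).prod

theorem MP_eval (G : ℂ[X]) (w : ℂ) :
    (MP G).eval w = ((derivative G).roots.map fun y => G.eval y - w).prod := by
  unfold MP
  rw [eval_multiset_prod, Multiset.map_map]
  congr 1
  apply Multiset.map_congr rfl
  intro y _
  simp

theorem MP_zero (G : ℂ[X]) (hG0 : derivative G ≠ 0) (w : ℂ) :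
    (MP G).eval w = 0 ↔ ∃ y, (derivative G).eval y = 0 ∧ G.eval y = w := by
  rw [MP_eval, Multiset.prod_eq_zero_iff]
  constructor
  · intro h
    obtain ⟨y, hy, hye⟩ := Multiset.mem_map.1 h
    exact ⟨y, (mem_roots hG0).1 hy, sub_eq_zero.1 hye⟩
  · rintro ⟨y, hy, hye⟩
    exact Multiset.mem_map.2 ⟨y, (mem_roots hG0).2 hy, sub_eq_zero.2 hye⟩

theorem MP_bound (G : ℂ[X]) : ∃ K : ℝ, 0 ≤ K ∧ ∀ w : ℂ,
    ‖(MP G).eval w‖ ≤ (K + ‖w‖) ^ (derivative G).roots.card := by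
  set K₁ : ℝ := ((derivative G).roots.map fun y => ‖G.eval y‖).sum with hK
  have hK1 : ∀ y ∈ (derivative G).roots, ‖G.eval y‖ ≤ K₁ := by
    intro y hy
    apply Multiset.single_le_sum
    · intro x hx
      obtain ⟨z, _, rfl⟩ := Multiset.mem_map.1 hx
      exact norm_nonneg _
    · exact Multiset.mem_map_of_mem (fun y => ‖G.eval y‖) hy
  have hK0 : 0 ≤ K₁ := by
    apply Multiset.sum_nonneg
    intro x hx
    obtain ⟨z, _, rfl⟩ := Multiset.mem_map.1 hx
    exact norm_nonneg _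
  refine ⟨K₁, hK0, fun w => ?_⟩
  rw [MP_eval, norm_prod, Multiset.map_map]
  refine (prod_le_pow _ (K₁ + ‖w‖) ?_ ?_).trans (le_of_eq ?_)
  · intro x hx
    obtain ⟨z, _, rfl⟩ := Multiset.mem_map.1 hx
    exact norm_nonneg _
  · intro x hx
    obtain ⟨z, hz, rfl⟩ := Multiset.mem_map.1 hx
    exact (norm_sub_le _ _).trans (by linarith [hK1 z hz])
  · rw [Multiset.card_map]

theorem MP_growth (G : ℂ[X]) (α : ℂ) (a : ℤ) (hα : α ≠ 0) (ha : 0 < a) :
    ∃ C : ℝ, 0 ≤ C ∧ ∀ t : ℂ, t ≠ 0 → ‖(MP G).eval (wv α a t)‖ ≤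
      C * tau t ^ (a.toNat * (derivative G).roots.card) := by
  obtain ⟨K, hK0, hK⟩ := MP_bound G
  obtain ⟨C, c, T, hC, hc, h⟩ := growth α a hα ha
  refine ⟨(K + C) ^ (derivative G).roots.card, by positivity, fun t ht => ?_⟩
  have h1 := (h t ht).1
  have h2 : 1 ≤ tau t ^ a.toNat := one_le_pow₀ (tau_ge t ht)
  calc ‖(MP G).eval (wv α a t)‖ ≤ (K + ‖wv α a t‖) ^ (derivative G).roots.card := hK _
    _ ≤ ((K + C) * tau t ^ a.toNat) ^ (derivative G).roots.card := by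
        apply pow_le_pow_left₀ (by positivity)
        nlinarith
    _ = _ := by rw [mul_pow, ← pow_mul]

theorem MP_near (G : ℂ[X]) (α : ℂ) (a : ℤ) (hα : α ≠ 0) (s : ℂ) (hs : s ≠ 0)
    (h0 : (MP G).eval (wv α a s) = 0) :
    ∃ C : ℝ, 0 ≤ C ∧ ∀ᶠ t in 𝓝[≠] s, ‖(MP G).eval (wv α a t)‖ ≤ C * ‖t - s‖ := by
  have hd : DifferentiableAt ℂ (fun t => (MP G).eval (wv α a t)) s :=
    (MP G).differentiable.differentiableAt.comp s (wv_deriv α a s hα hs).differentiableAt
  obtain ⟨C, hC, h⟩ := hd.isBigO_sub.exists_nonneg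
  refine ⟨C, hC, mem_nhdsWithin_of_mem_nhds ?_⟩
  filter_upwards [h.bound] with t ht
  rw [h0, sub_zero] at ht
  exact ht

theorem MP_diff (G : ℂ[X]) (α : ℂ) (a : ℤ) (hα : α ≠ 0) :
    DifferentiableOn ℂ (fun t => (MP G).eval (wv α a t)) {0}ᶜ := fun s hs =>
  ((MP G).differentiable.differentiableAt.comp s
    (wv_deriv α a s hα hs).differentiableAt).differentiableWithinAt

end CNT_

open CNT_ GEO_ in
theorem cnt (hLOC : S_LOC) : S_CNT := by
  intro G r r' α α' a b D c c' h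
  obtain ⟨Z, H, hZ0, hZc, hZn, hHd, hH0, hHl, hHn, W, A, hHW⟩ :=
    core hLOC G r r' α α' a b D c c' h
  have hG := h.mo
  have hGn := h.deg
  have hr := h.hr
  have hr' := h.hr'
  have hα := h.hα
  have hα' := h.hα'
  have ha := h.ha
  have hb := h.hb
  have hG0 : derivative G ≠ 0 := by
    intro h
    have := natDegree_eq_zero_of_derivative_eq_zero h
    omega
  have hcard : (derivative G).roots.card = r + r' - 1 := by
    rw [← (IsAlgClosed.splits (derivative G)).natDegree_eq_card_roots, natDegree_derivative, hGn]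
  have hne : ∀ t, t ∉ Z → t ≠ 0 := fun t ht h => ht (h ▸ hZ0)
  obtain ⟨m, hm⟩ : ∃ m : ℕ, a.toNat = m := ⟨_, rfl⟩
  obtain ⟨m', hm'⟩ : ∃ m' : ℕ, b.toNat = m' := ⟨_, rfl⟩
  have hm'0 : m' ≠ 0 := by omega
  obtain ⟨N, hN⟩ : ∃ N : ℕ, (derivative G).roots.card = N := ⟨_, rfl⟩
  -- the growth of `H`
  obtain ⟨T, C2, hHT⟩ : ∃ T C2 : ℝ, ∀ t, t ∉ Z → T ≤ tau t →
      ‖H t‖ * tau t ^ (m' * (r * r')) ≤ C2 := by
    obtain ⟨C, c, T, hC, hc, hg⟩ := growth α' b hα' hb
    rw [hm'] at hg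
    refine ⟨max T (W / c), A / c ^ (r * r'), fun t ht hT => ?_⟩
    have h1 := (hg t (hne t ht)).2 ((le_max_left _ _).trans hT)
    have hτ := tau_ge t (hne t ht)
    have hτ0 : 0 < tau t := by linarith
    have h2 : W ≤ ‖wv α' b t‖ := by
      refine le_trans ?_ h1
      have h3 : W / c ≤ tau t ^ m' :=
        ((le_max_right _ _).trans hT).trans (le_self_pow₀ hτ hm'0)
      rw [div_le_iff₀ hc] at h3
      linarith [mul_comm c (tau t ^ m')]
    have h3 := hHW t ht h2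
    rw [le_div_iff₀ (by positivity)]
    calc ‖H t‖ * tau t ^ (m' * (r * r')) * c ^ (r * r')
        = ‖H t‖ * (c * tau t ^ m') ^ (r * r') := by rw [mul_pow, ← pow_mul]; ring
      _ ≤ ‖H t‖ * ‖wv α' b t‖ ^ (r * r') := by
          apply mul_le_mul_of_nonneg_left _ (norm_nonneg _)
          exact pow_le_pow_left₀ (by positivity) h1 _
      _ ≤ A := h3
  -- a common zero
  have hnear : ∀ s ∈ Z, s ≠ 0 → ∀ (β : ℂ) (d : ℤ), β ≠ 0 → (MP G).eval (wv β d s) = 0 →
      ∃ C : ℝ, ∀ᶠ t in 𝓝[≠] s, ‖(MP G).eval (wv β d t) * H t‖ ≤ C := by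
    intro s hs hs0 β d hβ h0
    obtain ⟨C, hC, hC1⟩ := MP_near G β d hβ s hs0 h0
    obtain ⟨C', hC'⟩ := hHl s hs hs0
    refine ⟨C * C', ?_⟩
    filter_upwards [hC1, hC'] with t ht1 ht2
    rw [norm_mul]
    calc ‖(MP G).eval (wv β d t)‖ * ‖H t‖ ≤ C * ‖t - s‖ * ‖H t‖ :=
          mul_le_mul_of_nonneg_right ht1 (norm_nonneg _)
      _ = C * (‖H t‖ * ‖t - s‖) := by ring
      _ ≤ C * C' := mul_le_mul_of_nonneg_left ht2 hC
  -- the first bound
  have hb1 : m' * (r * r') ≤ m * N := by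
    by_contra hcon
    push Not at hcon
    obtain ⟨C1, hC1, hg⟩ := MP_growth G α a hα ha
    rw [hm, hN] at hg
    have h1 := liou Z hZ0 H (fun t => (MP G).eval (wv α a t)) hHd (MP_diff G α a hα)
      (fun s hs hs0 => hnear s hs hs0 α a hα ((MP_zero G hG0 _).2 (hZc s hs hs0)))
      (m * N) (m' * (r * r')) T C1 C2 hC1 hcon (fun t ht _ => hg t (hne t ht)) hHT
    obtain ⟨t, ht⟩ := Infinite.exists_notMem_finset Z
    rcases mul_eq_zero.1 (h1 t ht) with h2 | h2
    · obtain ⟨y, hy, hye⟩ := (MP_zero G hG0 _).1 h2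
      exact hZn t ht y hy hye
    · exact hH0 t ht h2
  -- the second bound
  have hb2 : m' * (r * r') ≤ m' * N := by
    by_contra hcon
    push Not at hcon
    obtain ⟨C1, hC1, hg⟩ := MP_growth G α' b hα' hb
    rw [hm', hN] at hg
    have h1 := liou Z hZ0 H (fun t => (MP G).eval (wv α' b t)) hHd (MP_diff G α' b hα')
      (fun s hs hs0 => by
        by_cases hcr : (MP G).eval (wv α' b s) = 0
        · exact hnear s hs hs0 α' b hα' hcr
        · obtain ⟨C, hC⟩ := hHn s hs hs0 (fun y hy hye => hcr ((MP_zero G hG0 _).2 ⟨y, hy, hye⟩))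
          have hd : DifferentiableAt ℂ (fun t => (MP G).eval (wv α' b t)) s :=
            (MP G).differentiable.differentiableAt.comp s
              (wv_deriv α' b s hα' hs0).differentiableAt
          have hd2 : Tendsto (fun t => ‖(MP G).eval (wv α' b t)‖) (𝓝 s)
              (𝓝 ‖(MP G).eval (wv α' b s)‖) := hd.continuousAt.norm
          have hev : ∀ᶠ t in 𝓝[≠] s, ‖(MP G).eval (wv α' b t)‖ <
              ‖(MP G).eval (wv α' b s)‖ + 1 :=
            mem_nhdsWithin_of_mem_nhds (hd2.eventually (gt_mem_nhds (by linarith)))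
          refine ⟨(‖(MP G).eval (wv α' b s)‖ + 1) * C, ?_⟩
          filter_upwards [hC, hev] with t ht1 ht2
          rw [norm_mul]
          exact mul_le_mul ht2.le ht1 (norm_nonneg _) (by positivity))
      (m' * N) (m' * (r * r')) T C1 C2 hC1 hcon (fun t ht _ => hg t (hne t ht)) hHT
    have hfin : (⋃ y ∈ ((derivative G).roots.toFinset : Set ℂ),
        {t : ℂ | t ≠ 0 ∧ wv α' b t = G.eval y}).Finite :=
      Set.Finite.biUnion ((derivative G).roots.toFinset.finite_toSet)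
        fun y _ => wv_finite α' b hα' hb.ne' _
    obtain ⟨t, ht⟩ := (Z.finite_toSet.union hfin).infinite_compl.nonempty
    have htZ : t ∉ Z := fun h => ht (Or.inl (Finset.mem_coe.2 h))
    rcases mul_eq_zero.1 (h1 t htZ) with h2 | h2
    · obtain ⟨y, hy, hye⟩ := (MP_zero G hG0 _).1 h2
      apply ht
      right
      rw [Set.mem_iUnion₂]
      refine ⟨y, ?_, hne t htZ, hye.symm⟩
      rw [Finset.mem_coe, Multiset.mem_toFinset, mem_roots hG0]
      exact hy
    · exact hH0 t htZ h2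
  have hN2 : N = r + r' - 1 := by rw [← hN, hcard]
  have hrr : r * r' ≤ N := le_of_mul_le_mul_left hb2 (Nat.pos_of_ne_zero hm'0)
  obtain ⟨u, hu⟩ : ∃ u, r = u + 1 := ⟨r - 1, by omega⟩
  obtain ⟨u', hu'⟩ : ∃ u', r' = u' + 1 := ⟨r' - 1, by omega⟩
  have hN3 : N = u + u' + 1 := by omega
  have huu : u * u' = 0 := by
    rw [hu, hu', hN3] at hrr
    nlinarith
  have hor : r = 1 ∨ r' = 1 := by
    rcases Nat.mul_eq_zero.1 huu with h1 | h1
    · left; omega
    · right; omega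
  refine ⟨hor, ?_⟩
  have hNe : r * r' = N := by
    rw [hu, hu', hN3]
    nlinarith
  rw [hNe] at hb1
  have hNpos : 0 < N := by omega
  have hmm : m' ≤ m := le_of_mul_le_mul_right hb1 hNpos
  omega

end Pool.Agent.K9h21.GP
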