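import Pool.Agent.K9h21.GP.Stm5

/-!
# Leaf M-SUM: sums over the roots are analytic
-/

set_option autoImplicit false

namespace Pool.Agent.K9h21.GP

open Polynomial Filter Topology

namespace MSUM

/-- local inverse of `G` -/
theorem branch (G : ℂ[X]) (w0 x : ℂ) (hx : G.eval x = w0) (hd : (derivative G).eval x ≠ 0) :
    ∃ ψ : ℂ → ℂ, ψ w0 = x ∧ DifferentiableAt ℂ ψ w0 ∧ ∀ᶠ y in 𝓝 w0, G.eval (ψ y) = y := by
  subst hx
  have hst : HasStrictDerivAt (fun x => G.eval x) ((derivative G).eval x) x :=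
    G.hasStrictDerivAt x
  refine ⟨hst.localInverse (fun x => G.eval x) ((derivative G).eval x) x hd, ?_, ?_, ?_⟩
  · exact (hst.hasStrictFDerivAt_equiv hd).localInverse_apply_image
  · exact (hst.to_localInverse hd).hasDerivAt.differentiableAt
  · exact (hst.hasStrictFDerivAt_equiv hd).eventually_right_inverse

theorem monic_sub {G : ℂ[X]} (hG : G.Monic) (h0 : 0 < G.natDegree) (w : ℂ) :
    (G - C w).Monic ∧ (G - C w).natDegree = G.natDegree := by
  have hdeg : (C w).degree < G.degree :=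
    lt_of_le_of_lt degree_C_le (natDegree_pos_iff_degree_pos.1 h0)
  exact ⟨hG.sub_of_left hdeg, natDegree_sub_C⟩

theorem card_roots {G : ℂ[X]} (hG : G.Monic) (h0 : 0 < G.natDegree) (w : ℂ) :
    (G - C w).roots.card = G.natDegree := by
  obtain ⟨h1, h2⟩ := monic_sub hG h0 w
  rw [← h2]
  exact (splits_iff_card_roots.1 (IsAlgClosed.splits _))

theorem mem_roots_iff {G : ℂ[X]} (hG : G.Monic) (h0 : 0 < G.natDegree) (w x : ℂ) :
    x ∈ (G - C w).roots ↔ G.eval x = w := by
  rw [mem_roots (monic_sub hG h0 w).1.ne_zero, IsRoot.def, eval_sub, eval_C, sub_eq_zero]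

end MSUM

open MSUM in
theorem sum_ : S_SUM := by
  classical
  intro G w t₁ F hG h0 hw hs hF
  set S : Finset ℂ := (G - C (w t₁)).roots.toFinset with hS
  have hmem : ∀ x, x ∈ S ↔ G.eval x = w t₁ := by
    intro x
    rw [hS, Multiset.mem_toFinset, mem_roots_iff hG h0]
  have hnd : (G - C (w t₁)).roots.Nodup := by
    rw [Multiset.nodup_iff_count_le_one]
    intro x
    rw [count_roots]
    by_contra hc
    rw [not_le, one_lt_rootMultiplicity_iff_isRoot (monic_sub hG h0 _).1.ne_zero] at hc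
    obtain ⟨hr, hd⟩ := hc
    rw [IsRoot.def, eval_sub, eval_C, sub_eq_zero] at hr
    rw [derivative_sub, derivative_C, sub_zero, IsRoot.def] at hd
    exact hs x hr hd
  have hcard : S.card = G.natDegree := by
    rw [hS, Multiset.toFinset_card_of_nodup hnd, card_roots hG h0]
  have hex : ∀ x : ℂ, ∃ ψ : ℂ → ℂ, x ∈ S → ψ (w t₁) = x ∧ DifferentiableAt ℂ ψ (w t₁) ∧
      ∀ᶠ y in 𝓝 (w t₁), G.eval (ψ y) = y := by
    intro x
    by_cases hx : x ∈ S
    · obtain ⟨ψ, h⟩ := branch G (w t₁) x ((hmem x).1 hx) (hs x ((hmem x).1 hx))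
      exact ⟨ψ, fun _ => h⟩
    · exact ⟨fun _ => 0, fun h => absurd h hx⟩
  choose ψ hψ using hex
  have hb0 : ∀ x ∈ S, ψ x (w t₁) = x := fun x hx => (hψ x hx).1
  have hbd : ∀ x ∈ S, DifferentiableAt ℂ (fun t => ψ x (w t)) t₁ := fun x hx =>
    (hψ x hx).2.1.comp t₁ hw
  have hbr : ∀ x ∈ S, ∀ᶠ t in 𝓝 t₁, G.eval (ψ x (w t)) = w t := fun x hx =>
    hw.continuousAt.eventually (hψ x hx).2.2
  have hall : ∀ᶠ t in 𝓝 t₁, ∀ x ∈ S, G.eval (ψ x (w t)) = w t :=
    (Finset.eventually_all S).2 hbr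
  have hne : ∀ᶠ t in 𝓝 t₁, ∀ x ∈ S, ∀ y ∈ S, x ≠ y → ψ x (w t) ≠ ψ y (w t) := by
    refine (Finset.eventually_all S).2 fun x hx => (Finset.eventually_all S).2 fun y hy => ?_
    by_cases hxy : x = y
    · exact Eventually.of_forall fun t h => absurd hxy h
    · have h1 : ContinuousAt (fun t => ψ x (w t) - ψ y (w t)) t₁ :=
        (hbd x hx).continuousAt.sub (hbd y hy).continuousAt
      have h2 : ψ x (w t₁) - ψ y (w t₁) ≠ 0 := by
        rw [hb0 x hx, hb0 y hy]
        exact sub_ne_zero.2 hxy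
      filter_upwards [h1.eventually_ne h2] with t ht _
      exact sub_ne_zero.1 ht
  have hsum : ∀ᶠ t in 𝓝 t₁, ((G - C (w t)).roots.map fun x => F t x).sum =
      ∑ x ∈ S, F t (ψ x (w t)) := by
    filter_upwards [hall, hne] with t h1 h2
    have h3 : S.val.map (fun x => ψ x (w t)) = (G - C (w t)).roots := by
      apply Multiset.eq_of_le_of_card_le
      · rw [Multiset.le_iff_subset]
        · intro z hz
          obtain ⟨x, hx, rfl⟩ := Multiset.mem_map.1 hz
          exact (mem_roots_iff hG h0 _ _).2 (h1 x hx)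
        · refine Multiset.Nodup.map_on ?_ S.nodup
          intro x hx y hy hxy
          by_contra hc
          exact h2 x hx y hy hc hxy
      · rw [card_roots hG h0, Multiset.card_map, ← Finset.card_def, hcard]
    rw [← h3, Multiset.map_map]
    rfl
  refine DifferentiableAt.congr_of_eventuallyEq ?_ hsum
  refine DifferentiableAt.fun_sum fun x hx => ?_
  have h4 : DifferentiableAt ℂ (fun p : ℂ × ℂ => F p.1 p.2) (t₁, ψ x (w t₁)) := by
    rw [hb0 x hx]
    exact hF x ((hmem x).1 hx)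
  exact DifferentiableAt.comp (f := fun t => (t, ψ x (w t))) t₁ h4 (differentiableAt_id.prodMk (hbd x hx))

end Pool.Agent.K9h21.GP
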