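import Pool.Agent.K9h21.GP.Stm7
import Pool.Agent.K9h21.GP.Sum

/-!
# Leaf A-COR: a factorisation gives an analytic correspondence
-/

set_option autoImplicit false

namespace Pool.Agent.K9h21.GP

namespace COR_

open Polynomial Filter Topology MSUM GEO_

/-- the roots of `G - w(t)` near `t₁` -/
theorem local_roots (G : ℂ[X]) (w : ℂ → ℂ) (t₁ : ℂ) (hG : G.Monic) (h0 : 0 < G.natDegree)
    (hw : DifferentiableAt ℂ w t₁) (hs : ∀ x, G.eval x = w t₁ → (derivative G).eval x ≠ 0) :
    ∃ (S : Finset ℂ) (β : ℂ → ℂ → ℂ), (∀ x ∈ S, G.eval x = w t₁) ∧ (∀ x ∈ S, β x t₁ = x) ∧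
      (∀ x ∈ S, DifferentiableAt ℂ (β x) t₁) ∧
      ∀ᶠ t in 𝓝 t₁, (G - C (w t)).roots = S.val.map fun x => β x t := by
  classical
  set S : Finset ℂ := (G - C (w t₁)).roots.toFinset with hS
  have hmem : ∀ x, x ∈ S ↔ G.eval x = w t₁ := by
    intro x
    rw [hS, Multiset.mem_toFinset, mem_roots_iff hG h0]
  have hnd : (G - C (w t₁)).roots.Nodup := by
    rw [Multiset.nodup_iff_count_le_one]
    intro x
    rw [count_roots]
    by_contra hc
    rw [not_le, one_lt_rootMultiplicity_iff_isRoot (monic_sub hG h0 _).1.ne_zero] at hc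
    obtain ⟨hr, hd⟩ := hc
    rw [IsRoot.def, eval_sub, eval_C, sub_eq_zero] at hr
    rw [derivative_sub, derivative_C, sub_zero, IsRoot.def] at hd
    exact hs x hr hd
  have hcard : S.card = G.natDegree := by
    rw [hS, Multiset.toFinset_card_of_nodup hnd, card_roots hG h0]
  have hex : ∀ x : ℂ, ∃ ψ : ℂ → ℂ, x ∈ S → ψ (w t₁) = x ∧ DifferentiableAt ℂ ψ (w t₁) ∧
      ∀ᶠ y in 𝓝 (w t₁), G.eval (ψ y) = y := by
    intro x
    by_cases hx : x ∈ S
    · obtain ⟨ψ, h⟩ := branch G (w t₁) x ((hmem x).1 hx) (hs x ((hmem x).1 hx))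
      exact ⟨ψ, fun _ => h⟩
    · exact ⟨fun _ => 0, fun h => absurd h hx⟩
  choose ψ hψ using hex
  have hb0 : ∀ x ∈ S, ψ x (w t₁) = x := fun x hx => (hψ x hx).1
  have hbd : ∀ x ∈ S, DifferentiableAt ℂ (fun t => ψ x (w t)) t₁ := fun x hx =>
    (hψ x hx).2.1.comp t₁ hw
  have hbr : ∀ x ∈ S, ∀ᶠ t in 𝓝 t₁, G.eval (ψ x (w t)) = w t := fun x hx =>
    hw.continuousAt.eventually (hψ x hx).2.2
  have hall : ∀ᶠ t in 𝓝 t₁, ∀ x ∈ S, G.eval (ψ x (w t)) = w t :=
    (Finset.eventually_all S).2 hbr
  have hne : ∀ᶠ t in 𝓝 t₁, ∀ x ∈ S, ∀ y ∈ S, x ≠ y → ψ x (w t) ≠ ψ y (w t) := by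
    refine (Finset.eventually_all S).2 fun x hx => (Finset.eventually_all S).2 fun y hy => ?_
    by_cases hxy : x = y
    · exact Eventually.of_forall fun t h => absurd hxy h
    · have h1 : ContinuousAt (fun t => ψ x (w t) - ψ y (w t)) t₁ :=
        (hbd x hx).continuousAt.sub (hbd y hy).continuousAt
      have h2 : ψ x (w t₁) - ψ y (w t₁) ≠ 0 := by
        rw [hb0 x hx, hb0 y hy]
        exact sub_ne_zero.2 hxy
      filter_upwards [h1.eventually_ne h2] with t ht _
      exact sub_ne_zero.1 ht
  refine ⟨S, fun x t => ψ x (w t), fun x hx => (hmem x).1 hx, hb0, hbd, ?_⟩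
  filter_upwards [hall, hne] with t h1 h2
  symm
  apply Multiset.eq_of_le_of_card_le
  · rw [Multiset.le_iff_subset]
    · intro z hz
      obtain ⟨x, hx, rfl⟩ := Multiset.mem_map.1 hz
      exact (mem_roots_iff hG h0 _ _).2 (h1 x hx)
    · refine Multiset.Nodup.map_on ?_ S.nodup
      intro x hx y hy hxy
      by_contra hc
      exact h2 x hx y hy hc hxy
  · rw [card_roots hG h0, Multiset.card_map, ← Finset.card_def, hcard]

/-- the derivative of `Th` in `V` -/
noncomputable def ThV {r D : ℕ} (c : Fin r → Fin D → ℂ) (d : ℂ[X]) (x V : ℂ) : ℂ :=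
  (∑ m : Fin r, (∑ i, c m i * x ^ (i : ℕ)) * (((m : ℕ) : ℂ) * V ^ ((m : ℕ) - 1))) +
    d.eval x * ((r : ℂ) * V ^ (r - 1))

theorem Th_deriv {r D : ℕ} (c : Fin r → Fin D → ℂ) (d : ℂ[X]) (x V : ℂ) :
    HasDerivAt (fun V => Th c d x V) (ThV c d x V) V := by
  unfold Th ThV
  apply HasDerivAt.fun_add
  · apply HasDerivAt.fun_sum
    intro m _
    exact (hasDerivAt_pow (m : ℕ) V).const_mul _
  · exact (hasDerivAt_pow r V).const_mul _

/-- the indicator function of `Th c = 0` -/
theorem ind {G : ℂ[X]} {r r' : ℕ} {α α' : ℂ} {a b : ℤ} {D : ℕ} {c : Fin r → Fin D → ℂ → ℂ}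
    {c' : Fin r' → Fin D → ℂ → ℂ} (h : FacA G r r' α α' a b D c c') {t : ℂ} (ht : t ≠ 0) {x y : ℂ}
    (hx : G.eval x = wv α a t) (hy : G.eval y = wv α' b t) (hdx : (derivative G).eval x ≠ 0)
    (hdy : (derivative G).eval y ≠ 0) :
    (Th (fun m i => c m i t) (derivative G) x y = 0 ∧
      ThV (fun m i => c m i t) (derivative G) x y * Th (fun m i => c' m i t) (derivative G) x y /
        ((derivative G).eval x ^ 2 * (derivative G).eval y) = 1) ∨
    (Th (fun m i => c m i t) (derivative G) x y ≠ 0 ∧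
      ThV (fun m i => c m i t) (derivative G) x y * Th (fun m i => c' m i t) (derivative G) x y /
        ((derivative G).eval x ^ 2 * (derivative G).eval y) = 0) := by
  have hne : (derivative G).eval x ^ 2 * (derivative G).eval y ≠ 0 :=
    mul_ne_zero (pow_ne_zero _ hdx) hdy
  have h0 := h.fac t ht x hx y
  rw [hy, sub_self, mul_zero] at h0
  have h1 := (Th_deriv (fun m i => c m i t) (derivative G) x y).mul
    (Th_deriv (fun m i => c' m i t) (derivative G) x y)
  have h2 : HasDerivAt (fun V => (derivative G).eval x ^ 2 * (G.eval V - wv α' b t))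
      ((derivative G).eval x ^ 2 * (derivative G).eval y) y :=
    ((G.hasDerivAt y).sub_const _).const_mul _
  have h3 : ((fun V => Th (fun m i => c m i t) (derivative G) x V) *
      fun V => Th (fun m i => c' m i t) (derivative G) x V) =
      fun V => (derivative G).eval x ^ 2 * (G.eval V - wv α' b t) := by
    funext V
    exact h.fac t ht x hx V
  rw [h3] at h1
  have h4 := h1.unique h2
  by_cases hc : Th (fun m i => c m i t) (derivative G) x y = 0
  · left
    refine ⟨hc, ?_⟩
    rw [div_eq_one_iff_eq hne, ← h4, hc, zero_mul, add_zero]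
  · right
    refine ⟨hc, ?_⟩
    rcases mul_eq_zero.1 h0 with h5 | h5
    · exact absurd h5 hc
    · rw [h5, mul_zero, zero_div]

theorem pol_ev {r D : ℕ} (c : Fin r → Fin D → ℂ) (d : ℂ[X]) (x V : ℂ) :
    (pol (fun m => ∑ i, c m i * x ^ (i : ℕ)) (d.eval x)).eval V = Th c d x V := by
  unfold pol Th
  rw [eval_add, eval_finsetSum, eval_mul, eval_C, eval_pow, eval_X]
  congr 1
  apply Finset.sum_congr rfl
  intro m _
  rw [eval_mul, eval_C, eval_pow, eval_X]

end COR_

open Polynomial Filter Topology MSUM GEO_ COR_ in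
/-- leaf A-COR -/
theorem cor : S_COR := by
  classical
  intro G r r' α α' a b D c c' h
  have hn0 : 0 < G.natDegree := by rw [h.deg]; have := h.hr; omega
  refine ⟨h.mo, h.deg, by have := h.hr; have := h.hr'; omega, h.hα, h.hα', h.ha, h.hb, h.cr, ?_, ?_⟩
  · intro φ t₁ hgd hφ
    obtain ⟨ht0, hgx, hgy⟩ := hgd
    have hw : DifferentiableAt ℂ (wv α a) t₁ := (wv_deriv α a t₁ h.hα ht0).differentiableAt
    have hw' : DifferentiableAt ℂ (wv α' b) t₁ := (wv_deriv α' b t₁ h.hα' ht0).differentiableAt
    obtain ⟨S, β, hS1, hS2, hS3, hS4⟩ := local_roots G (wv α a) t₁ h.mo hn0 hw hgx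
    obtain ⟨S', β', hT1, hT2, hT3, hT4⟩ := local_roots G (wv α' b) t₁ h.mo hn0 hw' hgy
    have hG' : Continuous fun x => (derivative G).eval x := (derivative G).continuous
    have e1 : ∀ᶠ t in 𝓝 t₁, ∀ x ∈ S, (derivative G).eval (β x t) ≠ 0 := by
      refine (Finset.eventually_all S).2 fun x hx => ?_
      have h1 : ContinuousAt (fun t => (derivative G).eval (β x t)) t₁ :=
        hG'.continuousAt.comp (hS3 x hx).continuousAt
      exact h1.eventually_ne (by rw [hS2 x hx]; exact hgx x (hS1 x hx))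
    have e2 : ∀ᶠ t in 𝓝 t₁, ∀ y ∈ S', (derivative G).eval (β' y t) ≠ 0 := by
      refine (Finset.eventually_all S').2 fun x hx => ?_
      have h1 : ContinuousAt (fun t => (derivative G).eval (β' x t)) t₁ :=
        hG'.continuousAt.comp (hT3 x hx).continuousAt
      exact h1.eventually_ne (by rw [hT2 x hx]; exact hgy x (hT1 x hx))
    have e3 : ∀ᶠ t in 𝓝 t₁, t ≠ 0 := isOpen_ne.mem_nhds ht0
    set I : ℂ × ℂ × ℂ → ℂ := fun p =>
      ThV (fun m i => c m i p.1) (derivative G) p.2.1 p.2.2 *
        Th (fun m i => c' m i p.1) (derivative G) p.2.1 p.2.2 /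
        ((derivative G).eval p.2.1 ^ 2 * (derivative G).eval p.2.2) with hI
    have hPS : ∀ᶠ t in 𝓝 t₁, PS G α α' a b
        (fun t x y => Th (fun m i => c m i t) (derivative G) x y = 0) φ t =
        ∑ x ∈ S, ∑ y ∈ S', I (t, β x t, β' y t) * φ t (β x t) (β' y t) := by
      filter_upwards [hS4, hT4, e1, e2, e3] with t h1 h2 h3 h4 h5
      unfold PS
      rw [h1, h2, Multiset.map_map]
      change ∑ x ∈ S, _ = _
      apply Finset.sum_congr rfl
      intro x hx
      rw [Function.comp_apply, Multiset.map_map]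
      change ∑ y ∈ S', _ = _
      apply Finset.sum_congr rfl
      intro y hy
      rw [Function.comp_apply]
      have hx' : G.eval (β x t) = wv α a t := (mem_roots_iff h.mo hn0 _ _).1 (by
        rw [h1]; exact Multiset.mem_map_of_mem _ hx)
      have hy' : G.eval (β' y t) = wv α' b t := (mem_roots_iff h.mo hn0 _ _).1 (by
        rw [h2]; exact Multiset.mem_map_of_mem _ hy)
      rcases ind h h5 hx' hy' (h3 x hx) (h4 y hy) with ⟨k1, k2⟩ | ⟨k1, k2⟩
      · rw [if_pos k1]
        simp only [hI]
        rw [k2, one_mul]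
      · rw [if_neg k1]
        simp only [hI]
        rw [k2, zero_mul]
    refine DifferentiableAt.congr_of_eventuallyEq ?_ hPS
    refine DifferentiableAt.fun_sum fun x hx => DifferentiableAt.fun_sum fun y hy => ?_
    have hβ : DifferentiableAt ℂ (fun t => (t, β x t, β' y t)) t₁ :=
      differentiableAt_id.prodMk ((hS3 x hx).prodMk (hT3 y hy))
    have hc : ∀ {q : ℕ} (e : Fin q → Fin D → ℂ → ℂ), (∀ m i, DifferentiableOn ℂ (e m i) {0}ᶜ) →
        ∀ m i, DifferentiableAt ℂ (fun t => e m i t) t₁ := fun e he m i =>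
      ((he m i) t₁ ht0).differentiableAt (isOpen_compl_singleton.mem_nhds ht0)
    have hIφ : DifferentiableAt ℂ (fun t => φ t (β x t) (β' y t)) t₁ := by
      have h1 : DifferentiableAt ℂ (fun p : ℂ × ℂ × ℂ => φ p.1 p.2.1 p.2.2)
          (t₁, β x t₁, β' y t₁) := by
        rw [hS2 x hx, hT2 y hy]
        exact hφ x y (hS1 x hx) (hT1 y hy)
      exact DifferentiableAt.comp (f := fun t => (t, β x t, β' y t)) t₁ h1 hβ
    refine DifferentiableAt.fun_mul ?_ hIφ
    simp only [hI]
    have hd : ∀ {f : ℂ → ℂ}, DifferentiableAt ℂ f t₁ →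
        DifferentiableAt ℂ (fun t => (derivative G).eval (f t)) t₁ := fun hf =>
      ((derivative G).differentiable _).comp t₁ hf
    have hTh : ∀ {q : ℕ} (e : Fin q → Fin D → ℂ → ℂ), (∀ m i, DifferentiableOn ℂ (e m i) {0}ᶜ) →
        DifferentiableAt ℂ (fun t => Th (fun m i => e m i t) (derivative G) (β x t) (β' y t)) t₁ := by
      intro q e he
      unfold Th
      refine DifferentiableAt.fun_add (DifferentiableAt.fun_sum fun m _ => ?_) ?_
      · refine DifferentiableAt.fun_mul (DifferentiableAt.fun_sum fun i _ => ?_)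
          ((hT3 y hy).fun_pow _)
        exact (hc e he m i).fun_mul ((hS3 x hx).fun_pow _)
      · exact (hd (hS3 x hx)).fun_mul ((hT3 y hy).fun_pow _)
    have hThV : DifferentiableAt ℂ
        (fun t => ThV (fun m i => c m i t) (derivative G) (β x t) (β' y t)) t₁ := by
      unfold ThV
      refine DifferentiableAt.fun_add (DifferentiableAt.fun_sum fun m _ => ?_) ?_
      · refine DifferentiableAt.fun_mul (DifferentiableAt.fun_sum fun i _ => ?_)
          (((hT3 y hy).fun_pow _).const_mul _)
        exact (hc c h.dc m i).fun_mul ((hS3 x hx).fun_pow _)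
      · exact (hd (hS3 x hx)).fun_mul (((hT3 y hy).fun_pow _).const_mul _)
    refine DifferentiableAt.fun_div (hThV.fun_mul (hTh c' h.dc'))
      (((hd (hS3 x hx)).fun_pow 2).fun_mul (hd (hT3 y hy))) ?_
    rw [hS2 x hx, hT2 y hy]
    exact mul_ne_zero (pow_ne_zero _ (hgx x (hS1 x hx))) (hgy y (hT1 y hy))
  · intro t hgd
    obtain ⟨ht0, hgx, hgy⟩ := hgd
    unfold PS
    have hin : ∀ x ∈ (G - C (wv α a t)).roots, ((G - C (wv α' b t)).roots.map fun y =>
        if Th (fun m i => c m i t) (derivative G) x y = 0 then (1 : ℂ) else 0).sum = r := by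
      intro x hx
      have hx1 : G.eval x = wv α a t := (mem_roots_iff h.mo hn0 _ _).1 hx
      have hg : (derivative G).eval x ≠ 0 := hgx x hx1
      set Q : ℂ[X] := C ((derivative G).eval x)⁻¹ *
        pol (fun m => ∑ i, c m i t * x ^ (i : ℕ)) ((derivative G).eval x) with hQ
      set S : ℂ[X] := C ((derivative G).eval x)⁻¹ *
        pol (fun m => ∑ i, c' m i t * x ^ (i : ℕ)) ((derivative G).eval x) with hS
      have hQm := monic_pol (fun m => ∑ i, c m i t * x ^ (i : ℕ)) ((derivative G).eval x) hg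
      have hSm := monic_pol (fun m => ∑ i, c' m i t * x ^ (i : ℕ)) ((derivative G).eval x) hg
      rw [← hQ] at hQm
      rw [← hS] at hSm
      have hQS : Q * S = G - C (wv α' b t) := by
        apply Polynomial.funext
        intro V
        rw [hQ, hS, eval_mul, eval_mul, eval_mul, eval_C, pol_ev (fun m i => c m i t),
          pol_ev (fun m i => c' m i t), eval_sub, eval_C]
        have h1 := h.fac t ht0 x hx1 V
        calc ((derivative G).eval x)⁻¹ * Th (fun m i => c m i t) (derivative G) x V *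
              (((derivative G).eval x)⁻¹ * Th (fun m i => c' m i t) (derivative G) x V)
            = (((derivative G).eval x)⁻¹) ^ 2 * (Th (fun m i => c m i t) (derivative G) x V *
              Th (fun m i => c' m i t) (derivative G) x V) := by ring
          _ = _ := by
            rw [h1]
            field_simp
      have hnd : (Q.roots + S.roots).Nodup := by
        rw [← roots_mul (mul_ne_zero hQm.1.ne_zero hSm.1.ne_zero), hQS]
        rw [Multiset.nodup_iff_count_le_one]
        intro y
        rw [count_roots]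
        by_contra hc
        rw [not_le, one_lt_rootMultiplicity_iff_isRoot (monic_sub h.mo hn0 _).1.ne_zero] at hc
        obtain ⟨hr, hd⟩ := hc
        rw [IsRoot.def, eval_sub, eval_C, sub_eq_zero] at hr
        rw [derivative_sub, derivative_C, sub_zero, IsRoot.def] at hd
        exact hgy y hr hd
      have hQe : ∀ y, Th (fun m i => c m i t) (derivative G) x y = 0 ↔ Q.eval y = 0 := by
        intro y
        rw [hQ, eval_mul, eval_C, pol_ev (fun m i => c m i t), mul_eq_zero]
        constructor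
        · exact fun h => Or.inr h
        · rintro (h | h)
          · exact absurd h (inv_ne_zero hg)
          · exact h
      rw [← hQS, roots_mul (mul_ne_zero hQm.1.ne_zero hSm.1.ne_zero), Multiset.map_add,
        Multiset.sum_add]
      have k1 : (Q.roots.map fun y =>
          if Th (fun m i => c m i t) (derivative G) x y = 0 then (1 : ℂ) else 0) =
          Q.roots.map fun _ => (1 : ℂ) := by
        apply Multiset.map_congr rfl
        intro y hy
        rw [if_pos ((hQe y).2 (isRoot_of_mem_roots hy))]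
      have k2 : (S.roots.map fun y =>
          if Th (fun m i => c m i t) (derivative G) x y = 0 then (1 : ℂ) else 0) =
          S.roots.map fun _ => (0 : ℂ) := by
        apply Multiset.map_congr rfl
        intro y hy
        rw [if_neg]
        intro hc
        have hyQ : y ∈ Q.roots := (mem_roots hQm.1.ne_zero).2 ((hQe y).1 hc)
        exact (Multiset.disjoint_left.1 (Multiset.nodup_add.1 hnd).2.2) hyQ hy
      rw [k1, k2, Multiset.map_const', Multiset.map_const', Multiset.sum_replicate,
        Multiset.sum_replicate, smul_zero, add_zero,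
        ← (IsAlgClosed.splits Q).natDegree_eq_card_roots, hQm.2, nsmul_eq_mul, mul_one]
    have k3 : ((G - C (wv α a t)).roots.map fun x => ((G - C (wv α' b t)).roots.map fun y =>
        if Th (fun m i => c m i t) (derivative G) x y = 0 then (1 : ℂ) else 0).sum) =
        (G - C (wv α a t)).roots.map fun _ => (r : ℂ) := Multiset.map_congr rfl hin
    rw [k3, Multiset.map_const', Multiset.sum_replicate, card_roots h.mo hn0, h.deg, nsmul_eq_mul]

end Pool.Agent.K9h21.GP
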