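import Pool.Agent.K9h21.GP.Stm7

/-!
# Leaf A-COR, the number of the pairs
-/

set_option autoImplicit false

namespace Pool.Agent.K9h21.GP

open Polynomial Filter Topology

namespace COR_

theorem sub_monic (G : ℂ[X]) (hG : G.Monic) (hn : 0 < G.natDegree) (w : ℂ) : (G - C w).Monic := by
  apply hG.sub_of_left
  rw [degree_eq_natDegree hG.ne_zero]
  exact lt_of_le_of_lt degree_C_le (by exact_mod_cast hn)

theorem roots_card (G : ℂ[X]) (w : ℂ) : (G - C w).roots.card = G.natDegree := by
  rw [← (IsAlgClosed.splits (G - C w)).natDegree_eq_card_roots, natDegree_sub_C]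

theorem mem_iff (G : ℂ[X]) (hG : G.Monic) (hn : 0 < G.natDegree) (w x : ℂ) :
    x ∈ (G - C w).roots ↔ G.eval x = w := by
  rw [mem_roots (sub_monic G hG hn w).ne_zero, IsRoot.def, eval_sub, eval_C, sub_eq_zero]

theorem roots_nodup (G : ℂ[X]) (hG : G.Monic) (hn : 0 < G.natDegree) (w : ℂ)
    (h : ∀ x, G.eval x = w → (derivative G).eval x ≠ 0) : (G - C w).roots.Nodup := by
  rw [Multiset.nodup_iff_count_le_one]
  intro x
  by_contra hlt
  rw [not_le, count_roots, one_lt_rootMultiplicity_iff_isRoot (sub_monic G hG hn w).ne_zero] at hlt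
  obtain ⟨h1, h2⟩ := hlt
  rw [IsRoot.def, eval_sub, eval_C, sub_eq_zero] at h1
  rw [IsRoot.def, derivative_sub, derivative_C, sub_zero] at h2
  exact h x h1 h2

open Classical in
/-- the number of the roots which belong to the first factor -/
theorem card_factor (Q S P : ℂ[X]) (hQ : Q ≠ 0) (hS : S ≠ 0) (hQS : Q * S = P) (hnd : P.roots.Nodup) :
    (P.roots.map fun y => if Q.eval y = 0 then (1 : ℂ) else 0).sum = Q.natDegree := by
  have hP : P.roots = Q.roots + S.roots := by
    rw [← hQS, roots_mul (mul_ne_zero hQ hS)]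
  rw [hP, Multiset.nodup_add] at hnd
  obtain ⟨-, -, hd⟩ := hnd
  rw [hP, Multiset.map_add, Multiset.sum_add]
  have h1 : (Q.roots.map fun y => if Q.eval y = 0 then (1 : ℂ) else 0) = Q.roots.map fun _ => (1 : ℂ) := by
    apply Multiset.map_congr rfl
    intro y hy
    rw [if_pos]
    exact (mem_roots hQ).1 hy
  have h2 : (S.roots.map fun y => if Q.eval y = 0 then (1 : ℂ) else 0) = S.roots.map fun _ => (0 : ℂ) := by
    apply Multiset.map_congr rfl
    intro y hy
    rw [if_neg]
    intro h
    exact Multiset.disjoint_left.1 hd ((mem_roots hQ).2 h) hy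
  rw [h1, h2]
  simp only [Multiset.map_const', Multiset.sum_replicate, nsmul_eq_mul, mul_one, mul_zero, add_zero]
  rw [← (IsAlgClosed.splits Q).natDegree_eq_card_roots]

open GEO_ in
/-- the factorisation as an identity of polynomials -/
theorem factor {G : ℂ[X]} {r r' : ℕ} {α α' : ℂ} {a b : ℤ} {D : ℕ} {c : Fin r → Fin D → ℂ → ℂ}
    {c' : Fin r' → Fin D → ℂ → ℂ} (h : FacA G r r' α α' a b D c c') {t x : ℂ} (ht : t ≠ 0)
    (hx : G.eval x = wv α a t) (hx' : (derivative G).eval x ≠ 0) :
    (C ((derivative G).eval x)⁻¹ * pol (fun m => ∑ i, c m i t * x ^ (i : ℕ)) ((derivative G).eval x)) *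
      (C ((derivative G).eval x)⁻¹ * pol (fun m => ∑ i, c' m i t * x ^ (i : ℕ)) ((derivative G).eval x)) =
      G - C (wv α' b t) := by
  apply Polynomial.funext
  intro V
  rw [eval_mul, eval_mul, eval_mul, eval_C, pol_eval c G t x V, pol_eval c' G t x V,
    eval_sub, eval_C]
  have h1 := h.fac t ht x hx V
  calc ((derivative G).eval x)⁻¹ * Th (fun m i => c m i t) (derivative G) x V *
        (((derivative G).eval x)⁻¹ * Th (fun m i => c' m i t) (derivative G) x V)
      = (((derivative G).eval x)⁻¹) ^ 2 * (Th (fun m i => c m i t) (derivative G) x V *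
        Th (fun m i => c' m i t) (derivative G) x V) := by ring
    _ = _ := by
      rw [h1]
      field_simp

open Classical GEO_ in
/-- for every `x` there are `r` related `y` -/
theorem inner_tot {G : ℂ[X]} {r r' : ℕ} {α α' : ℂ} {a b : ℤ} {D : ℕ} {c : Fin r → Fin D → ℂ → ℂ}
    {c' : Fin r' → Fin D → ℂ → ℂ} (h : FacA G r r' α α' a b D c c') {t x : ℂ} (hg : Gd G α α' a b t)
    (hx : G.eval x = wv α a t) :
    ((G - C (wv α' b t)).roots.map fun y =>
      if Th (fun m i => c m i t) (derivative G) x y = 0 then (1 : ℂ) else 0).sum = r := by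
  have hx' := hg.2.1 x hx
  have hn : 0 < G.natDegree := by rw [h.deg]; have := h.hr; omega
  obtain ⟨hQm, hQd⟩ := monic_pol (fun m => ∑ i, c m i t * x ^ (i : ℕ)) ((derivative G).eval x) hx'
  obtain ⟨hSm, -⟩ := monic_pol (fun m => ∑ i, c' m i t * x ^ (i : ℕ)) ((derivative G).eval x) hx'
  have h1 := card_factor _ _ _ hQm.ne_zero hSm.ne_zero (factor h hg.1 hx hx')
    (roots_nodup G h.mo hn _ hg.2.2)
  rw [hQd] at h1
  rw [← h1]
  congr 1
  apply Multiset.map_congr rfl
  intro y _
  have h2 : (C ((derivative G).eval x)⁻¹ *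
      pol (fun m => ∑ i, c m i t * x ^ (i : ℕ)) ((derivative G).eval x)).eval y = 0 ↔
      Th (fun m i => c m i t) (derivative G) x y = 0 := by
    rw [eval_mul, eval_C, pol_eval c G t x y, mul_eq_zero, or_iff_right (inv_ne_zero hx')]
  simp only [h2]

/-- the number of the pairs -/
theorem tot {G : ℂ[X]} {r r' : ℕ} {α α' : ℂ} {a b : ℤ} {D : ℕ} {c : Fin r → Fin D → ℂ → ℂ}
    {c' : Fin r' → Fin D → ℂ → ℂ} (h : FacA G r r' α α' a b D c c') {t : ℂ} (hg : Gd G α α' a b t) :
    PS G α α' a b (fun t x y => Th (fun m i => c m i t) (derivative G) x y = 0) (fun _ _ _ => 1) t =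
      ((r + r' : ℕ) : ℂ) * r := by
  have hn : 0 < G.natDegree := by rw [h.deg]; have := h.hr; omega
  unfold PS
  have h1 : ((G - C (wv α a t)).roots.map fun x => ((G - C (wv α' b t)).roots.map fun y =>
      if Th (fun m i => c m i t) (derivative G) x y = 0 then (1 : ℂ) else 0).sum) =
      (G - C (wv α a t)).roots.map fun _ => (r : ℂ) := by
    apply Multiset.map_congr rfl
    intro x hx
    exact inner_tot h hg ((mem_iff G h.mo hn _ _).1 hx)
  rw [h1, Multiset.map_const', Multiset.sum_replicate, roots_card, h.deg, nsmul_eq_mul]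

end COR_

end Pool.Agent.K9h21.GP
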