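import Pool.Agent.N76.EC.Comb

set_option autoImplicit false

/-!
# Project GP, second part: complete independence. Statements on the regulator functions.
-/

namespace Pool.Agent.K9h21.GP

open Polynomial
open Pool.Agent.N76.EC (Sys J)

/-- TCB: a combination of the other points of the fibre is not constant on a loop (the transposed form of `Sys.comb_pos`).

Proof: that of `Sys.comb_pos` in `Pool/Agent/N76/EC/Comb.lean` with `V(θ) = ∑_{k ≠ l} d_k P(X_l)(L_k θ)` and
`Ψ(θ) = ∑_{k ≠ l} d_k T(X_l)(L_k θ) L_k'(θ)` for `θ` in the strip (`Sys.avoid`); replace `d` by `-d` if the sum is negative. For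
the growth on the vertical line: all `|L_k θ|` tend to infinity like `|2 cos θ| ^ (1/n)`, as `G` is monic of degree `n`: `log |G(x)| - n log |x|`
is bounded for large `|x|`; so `V(θ) = -(2π/n) (∑ d_k) log |2 cos θ| + O(1)` by `P_near`. -/
def S_TCB : Prop := ∀ {G : ℂ[X]} {n : ℕ} {η φ₀ ε : ℝ} {L : Fin n → ℂ → ℂ} {X : Fin n → ℝ → ℂ}
  (_ : Sys G n η φ₀ ε L X) (l : Fin n) (d : Fin n → ℝ), (∑ k ∈ Finset.univ.erase l, d k) ≠ 0 →
  ∃ α : ℝ, |α - φ₀| < ε ∧ ∑ k ∈ Finset.univ.erase l, d k * J X η L l k α ≠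
    ∑ k ∈ Finset.univ.erase l, d k * J X η L l k φ₀

/-- WN2: finitely many windows for all combinations of the points of a fibre.

Proof. Fix `A ≠ 0` with sum `0` and `x₀` with `A x₀ ≠ 0`. For `π x₀ = l` the function `h_π(β) = ∑_x A x J l (π x) β` is equal to
`∑_{k ≠ l} (A (π⁻¹ k) - A x₀) J l k β` plus a constant (`Sys.sum_fibre`), and `∑_{k ≠ l} (A (π⁻¹ k) - A x₀) = -n A x₀ ≠ 0`. By TCB,
applied to the restrictions of the system to smaller windows (`Pool.Agent.K9h21.RP.Win.restrict`), it is not constant on any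
window; so by continuity (`Sys.contAt_J`) there is a smaller window in which it is not zero; one after the other for all
the `π`. Then the same window serves for all `A'` in a neighbourhood of `A` (`h` is jointly continuous; take a smaller
window). The `A` with sum `0` and norm `1` are a compact set. -/
def S_WN2 : Prop := ∀ {G : ℂ[X]} {n : ℕ} {η φ₀ ε : ℝ} {L : Fin n → ℂ → ℂ} {X : Fin n → ℝ → ℂ}
  (_ : Sys G n η φ₀ ε L X) (l : Fin n), ∃ (q : ℕ) (α δ : Fin q → ℝ), (∀ j, 0 < δ j) ∧
    (∀ j β, |β - α j| < δ j → |β - φ₀| < ε) ∧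
    ∀ A : Fin n → ℝ, ∑ x, A x = 0 → A ≠ 0 → ∃ (j : Fin q) (x₀ : Fin n), ∀ π : Equiv.Perm (Fin n), π x₀ = l →
      ∀ β, |β - α j| < δ j → ∑ x, A x * J X η L l (π x) β ≠ 0

end Pool.Agent.K9h21.GP
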