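import Pool.Agent.N76.RG.Fin6
import Pool.Agent.K9h21.GP.Stm3

set_option autoImplicit false

/-!
# Project GP: fibres, extensions of embeddings
-/

namespace Pool.Agent.K9h21.GP

open Polynomial IntermediateField Module MeasureTheory Set
open Pool.Agent.TH826.UH (pr NZ pr_prod)
open Pool.Agent.N76.EC
open Pool.Agent.N76.RG (nsq_ext)
open scoped Real

/-- the regulator of `{z, z + 1/z - 2 cos α}` does not depend on `α` -/
theorem P_Wp_const {η : ℝ} (h0 : η ≠ 0) {α β : ℝ} (hα : α ∈ Ioo (0 : ℝ) π) (hβ : β ∈ Ioo (0 : ℝ) π) :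
    P (Wp η) (Zp η) (2 * Complex.cos α) = P (Wp η) (Zp η) (2 * Complex.cos β) := by
  have hd : ∀ x ∈ Ioo (0 : ℝ) π, HasDerivAt (fun α : ℝ => P (Wp η) (Zp η) (2 * Complex.cos α)) 0 x := by
    intro x hx
    have hs : Real.sin x ≠ 0 := (Real.sin_pos_of_mem_Ioo hx).ne'
    have h1 : HasDerivAt (fun α : ℝ => 2 * Complex.cos (α : ℂ)) (2 * -Complex.sin x) x :=
      ((Complex.hasDerivAt_cos (x : ℂ)).comp_ofReal).const_mul 2
    have h2 := P_path (loop_Wp η) h1 fun t => cos_im_zero h0 hs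
    refine h2.congr_deriv ?_
    have e : (2 * -Complex.sin x : ℂ) = ((-2 * Real.sin x : ℝ) : ℂ) := by push_cast; ring
    rw [e, Complex.im_mul_ofReal, T_Wp h0 hs, zero_mul]
  have h1 := (convex_Ioo (0 : ℝ) π).norm_image_sub_le_of_norm_hasDerivWithin_le (C := 0) (f' := fun _ => (0 : ℝ))
    (fun x hx => (hd x hx).hasDerivWithinAt) (fun x _ => by simp) hβ hα
  rw [zero_mul] at h1
  exact sub_eq_zero.1 (norm_le_zero_iff.1 h1)

theorem P_Wp_special {η : ℝ} (h0 : η ≠ 0) {y : ℂ} {N : ℕ} (hN : 0 < N) (hy : (Chebyshev.C ℂ N).eval y = 2)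
    (hy4 : y ^ 2 ≠ 4) {β : ℝ} (hβ : β ∈ Ioo (0 : ℝ) π) :
    P (Wp η) (Zp η) y = P (Wp η) (Zp η) (2 * Complex.cos β) := by
  obtain ⟨α, hα, rfl⟩ := special_cos hN hy hy4
  have hsc := Real.sin_sq_add_cos_sq α
  have hs0 : 0 < Real.sin α ^ 2 := by positivity
  have h1 : Real.cos α < 1 := by
    by_contra h
    push Not at h
    nlinarith [Real.cos_le_one α]
  have h2 : -1 < Real.cos α := by
    by_contra h
    push Not at h
    nlinarith [Real.neg_one_le_cos α]
  have h3 : Complex.cos α = Complex.cos (Real.arccos (Real.cos α)) := by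
    rw [← Complex.ofReal_cos, ← Complex.ofReal_cos, Real.cos_arccos h2.le h1.le]
  rw [h3]
  refine P_Wp_const h0 ⟨Real.arccos_pos.2 h1, lt_of_le_of_ne (Real.arccos_le_pi _) fun h => ?_⟩ hβ
  rw [Real.arccos_eq_pi] at h
  linarith

/-- the sum over a fibre -/
theorem fib_sum {G : ℂ[X]} {n : ℕ} {η φ₀ ε : ℝ} {B : Fin n → ℂ → ℂ} {X' : Fin n → ℝ → ℂ} (S : Sys G n η φ₀ ε B X')
    (l : Fin n) {w : ℂ} (y : Fin n → ℂ) (hinj : Function.Injective y) (hy : ∀ q, G.eval (y q) = w)
    (hav : ∀ q t, X' l t ≠ y q) : ∑ q, P (X' l) (Zp η) (y q) = P (Wp η) (Zp η) w := by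
  classical
  have hd : (C w : ℂ[X]).degree < G.degree := by
    rw [degree_eq_natDegree S.monic.ne_zero, S.deg]
    exact lt_of_le_of_lt degree_C_le (by exact_mod_cast S.pos)
  have h1 := Pool.Agent.TH826.UH.eq_prod (P := G - C w) (S.monic.sub_of_left hd) (by rw [natDegree_sub_C, S.deg]) hinj
    fun q => by rw [eval_sub, eval_C, hy, sub_self]
  unfold P
  rw [← pr_prod Finset.univ (nz_Zp η) fun q => nz_sub (S.loop l) (hav q)]
  congr 1
  funext t
  have h2 := congrArg (eval (X' l t)) h1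
  rw [eval_sub, eval_C, S.Xev, eval_prod] at h2
  rw [h2]
  refine Finset.prod_congr rfl fun q _ => ?_
  rw [eval_sub, eval_X, eval_C]

/-- embeddings which move `y` to a given root -/
theorem ext_emb {k E : Type*} [Field k] [Field E] [Algebra k E] [FiniteDimensional k E] (t : E →+* ℂ) (y : E) (z : ℂ)
    (hz : ((minpoly k y).map (t.comp (algebraMap k E))).eval z = 0) :
    ∃ s : E →+* ℂ, s.comp (algebraMap k E) = t.comp (algebraMap k E) ∧ s y = z := by
  let _ : Algebra k ℂ := (t.comp (algebraMap k E)).toAlgebra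
  obtain ⟨φ, hφ⟩ := IntermediateField.exists_algHom_of_splits_of_aeval (F := k) (E := E) (K := ℂ)
    (fun x => ⟨Algebra.IsIntegral.isIntegral x, IsAlgClosed.splits _⟩) (x := y) (y := z) (by
      rw [aeval_def, ← eval_map]
      exact hz)
  exact ⟨φ.toRingHom, by ext x; exact φ.commutes x, hφ⟩

/-- a finite extension with a root of unity in which a polynomial splits -/
theorem ext2.{v} (L : Type v) [Field L] [NumberField L] (s : L →+* ℂ) (N : ℕ) (hN : N ≠ 0) (Q : L[X]) :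
    ∃ (E : Type v) (_ : Field E) (_ : NumberField E) (i : L →+* E) (T : E →+* ℂ) (ζ : E),
      (∀ x, T (i x) = s x) ∧ T ζ = Complex.exp (2 * π * Complex.I / N) ∧ (Q.map i).Splits := by
  have hnf : NumberField Q.SplittingField := NumberField.of_module_finite L _
  obtain ⟨⟨s', hs'⟩⟩ := Em_nonempty Q.SplittingField s
  obtain ⟨E, iF, iN, i, T, ζ, hT, hζ⟩ := nsq_ext Q.SplittingField s' N hN
  refine ⟨E, iF, iN, i.comp (algebraMap L _), T, ζ, fun x => ?_, hζ, ?_⟩
  · rw [RingHom.comp_apply, hT]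
    exact RingHom.congr_fun hs' x
  · rw [← Polynomial.map_map]
    exact (SplittingField.splits Q).map i

theorem pm_inv {y z : ℂ} (hy : y ≠ 0) (hz : z ≠ 0) (h : y + y⁻¹ = z + z⁻¹) : y = z ∨ y = z⁻¹ := by
  have h1 : (y - z) * (y * z - 1) = 0 := by
    field_simp at h
    linear_combination h
  rcases mul_eq_zero.1 h1 with h1 | h1
  · exact Or.inl (sub_eq_zero.1 h1)
  · exact Or.inr (eq_inv_of_mul_eq_one_left (sub_eq_zero.1 h1))

end Pool.Agent.K9h21.GP
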