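import Pool.Agent.K9h21.GP.Deg
import Pool.Agent.K9h21.GP.Fib
import Pool.Agent.K9h21.GP.Stm2

set_option autoImplicit false

/-!
# Project GP: complete independence, the main argument
-/

namespace Pool.Agent.K9h21.GP

open Polynomial IntermediateField Module MeasureTheory Set
open Pool.Agent.N76.EC
open Pool.Agent.N76.RG (S_TRC S_LOXQ S_SPG S_DET exact_angle special_angle angle_special nsq_ext exists_loop')
open scoped Real

/-- special values are not `± 2` -/
theorem sq_ne {L : Type*} [Field L] {x : L} {k : ℕ} (hk : 3 ≤ k)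
    (h : ∀ q : ℕ, 0 < q → q < k → (Chebyshev.C L q).eval x ≠ 2) : x ^ 2 ≠ 4 := by
  intro h4
  have h3 : (x - 2) * (x + 2) = 0 := by linear_combination h4
  rcases mul_eq_zero.1 h3 with h5 | h5
  · refine h 1 one_pos (by omega) ?_
    rw [sub_eq_zero.1 h5]
    exact Chebyshev.C_eval_two L 1
  · refine h 2 two_pos (by omega) ?_
    rw [eq_neg_of_add_eq_zero_left h5]
    norm_num

/-- **The coefficients of a relation are constant on the fibres.** -/
theorem core2.{u, v} (hGEO : S_GEO) (hTRP : S_TRP.{v}) (hAVG : S_AVGG.{v, v}) (hWN2 : S_WN2) (h1 : S_TRC.{u, v})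
    (h2 : S_LOXQ.{v}) (hSPG : S_SPG.{u, v}) (K : Type u) [Field K] [NumberField K] (F : K[X]) (n : ℕ) (hn : 2 ≤ n)
    (hF1 : F.Monic) (hdeg : F.natDegree = n) (hint : ∀ i, IsIntegral ℤ (F.coeff i)) (hsq : Squarefree (F ^ 2 - 4))
    (σ : K →+* ℂ) {η φ₀ ε : ℝ} {B : Fin n → ℂ → ℂ} {X' : Fin n → ℝ → ℂ} (S : Sys (F.map σ) n η φ₀ ε B X') (l : Fin n) :
    ∃ (k₀ : ℕ) (D : Finset (ℤ × ℤ)), 3 ≤ k₀ ∧ ∀ (L : Type v) [Field L] [NumberField L] [Algebra K L] (p : ℕ)
      (w : Fin p → L) (k : Fin p → ℕ) (s₁ : Em L σ) (ξ : Fin p → ℂ), Function.Injective w →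
      (∀ a, k₀ ≤ k a ∧ (Chebyshev.C L (k a)).eval (w a) = 2 ∧
        ∀ q : ℕ, 0 < q → q < k a → (Chebyshev.C L q).eval (w a) ≠ 2) →
      (∀ a, ξ a ≠ 0 ∧ s₁.1 (w a) = ξ a + (ξ a)⁻¹) →
      (∀ a a', a ≠ a' → ¬ Bad (F.map σ) D (ξ a) (ξ a') ∨ ¬ Bad (F.map σ) D (ξ a') (ξ a)) →
      ∀ (m : ℕ) (b : Fin m → L) (c : Fin m → Fin p), Function.Injective b →
      (∀ i, (F.map (algebraMap K L)).eval (b i) = w (c i)) → ∀ (A : Fin m → ℝ), ∑ i, A i = 0 →
      (∀ s : Em L σ, ∑ i, A i * P (X' l) (Zp η) (s.1 (b i)) = 0) →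
        (∀ i, (Finset.univ.filter fun j => c j = c i).card < n → A i = 0) ∧ ∀ i j, c i = c j → A i = A j := by
  classical
  have hn0 : 0 < n := by omega
  have hcr : ∀ x, (derivative (F.map σ)).eval x = 0 → ((F.map σ).eval x) ^ 2 ≠ 4 := by
    intro x hx h4
    have h5 : ((F.map σ).eval x - 2) * ((F.map σ).eval x + 2) = 0 := by linear_combination h4
    rcases mul_eq_zero.1 h5 with h5 | h5
    · exact Pool.Agent.N76.EC.not_crit' hsq σ (c := 2) (by norm_num) ⟨x, hx, sub_eq_zero.1 h5⟩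
    · exact Pool.Agent.N76.EC.not_crit' hsq σ (c := -2) (by norm_num) ⟨x, hx, eq_neg_of_add_eq_zero_left h5⟩
  obtain ⟨nW, α, δ, hδ, hwin, hW⟩ := hWN2 S l
  obtain ⟨k₁, D, hdegm⟩ := deg_ hGEO hTRP h1 h2 K F n hn hF1 hdeg hint σ hcr
  choose k₂ hS using fun j => hSPG K (α j) (δ j) (hδ j)
  refine ⟨max 3 (max k₁ (Finset.univ.sup k₂)), D, le_max_left _ _, fun L _ _ _ p w k s₁ ξ hwinj hv hξ hcf m b c hbinj
    hbc A hA0 hA => ?_⟩
  have hk1 : ∀ a, k₁ ≤ k a := fun a => ((le_max_left _ _).trans (le_max_right _ _)).trans (hv a).1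
  have hk2 : ∀ j a, k₂ j ≤ k a := fun j a =>
    ((Finset.le_sup (Finset.mem_univ j)).trans ((le_max_right _ _).trans (le_max_right _ _))).trans (hv a).1
  have hk3 : ∀ a, 3 ≤ k a := fun a => (le_max_left _ _).trans (hv a).1
  have hk0 : ∀ a, 0 < k a := fun a => by
    have := hk3 a
    omega
  set N : ℕ := ∏ a, k a with hN
  have hN0 : 0 < N := Finset.prod_pos fun a _ => hk0 a
  have hkN : ∀ a, k a ∣ N := fun a => Finset.dvd_prod_of_mem k (Finset.mem_univ a)
  set Fl : L[X] := F.map (algebraMap K L) with hFl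
  have hmon : ∀ a, (Fl - C (w a)).Monic := by
    intro a
    have hdC : (C (w a) : L[X]).degree < Fl.degree := by
      rw [hFl, degree_eq_natDegree (hF1.map _).ne_zero, hF1.natDegree_map, hdeg]
      exact lt_of_le_of_lt degree_C_le (by exact_mod_cast hn0)
    exact (hF1.map _).sub_of_left hdC
  obtain ⟨E, iF, iN, ι, T, ζ, hT, hζ, hspl⟩ := ext2 L s₁.1 N hN0.ne' (∏ a, (Fl - C (w a)))
  let _ : Algebra K E := (ι.comp (algebraMap K L)).toAlgebra
  have hKE : algebraMap K E = ι.comp (algebraMap K L) := rfl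
  have hζp : IsPrimitiveRoot ζ N := by
    refine IsPrimitiveRoot.of_map_of_injective (f := T) ?_ T.injective
    rw [hζ]
    exact Complex.isPrimitiveRoot_exp N hN0.ne'
  have hFE : F.map (algebraMap K E) = Fl.map ι := by
    rw [hKE, hFl, Polynomial.map_map]
  have hev : ∀ y : L, (F.map (algebraMap K E)).eval (ι y) = ι (Fl.eval y) := by
    intro y
    rw [hFE, eval_map ι, eval₂_hom]
  have hTK : T.comp (algebraMap K E) = σ := by
    rw [← s₁.2]
    ext y
    exact hT _
  -- the roots of unity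
  have hex : ∀ a, ∃ e : E, e ∈ K⟮ζ⟯ ∧ IsPrimitiveRoot e (k a) ∧ T e = ξ a := by
    intro a
    obtain ⟨u, hu1, hu2⟩ := exact_angle s₁.1 (hk0 a) (hv a).2.1 (hv a).2.2
    obtain ⟨q, hq⟩ := hkN a
    have hq0 : 0 < q := by
      rcases Nat.eq_zero_or_pos q with h | h
      · rw [h, mul_zero] at hq
        omega
      · exact h
    have hTe : T (ζ ^ (u * q)) = Complex.exp ((2 * π * u / (k a : ℂ)) * Complex.I) := by
      rw [map_pow, hζ, ← Complex.exp_nat_mul]
      congr 1
      rw [hq]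
      have h1 : (k a : ℂ) ≠ 0 := Nat.cast_ne_zero.2 (hk0 a).ne'
      have h2 : (q : ℂ) ≠ 0 := Nat.cast_ne_zero.2 hq0.ne'
      push_cast
      field_simp
    have hprim : IsPrimitiveRoot (ζ ^ (u * q)) (k a) := by
      rw [mul_comm, pow_mul]
      exact (hζp.pow hN0 (by rw [hq, mul_comm])).pow_of_coprime _ hu1
    have hmem : ζ ^ (u * q) ∈ K⟮ζ⟯ := pow_mem (mem_adjoin_simple_self K ζ) _
    have hsum : ξ a + (ξ a)⁻¹ = T (ζ ^ (u * q)) + (T (ζ ^ (u * q)))⁻¹ := by
      rw [← (hξ a).2, hu2, hTe, ← Complex.exp_neg, Complex.cos, mul_div_cancel₀ _ two_ne_zero, neg_mul]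
    rcases pm_inv (hξ a).1 ((map_ne_zero T).2 (hprim.ne_zero (hk0 a).ne')) hsum with h | h
    · exact ⟨_, hmem, hprim, h.symm⟩
    · exact ⟨_, inv_mem hmem, hprim.inv, by rw [map_inv₀, h]⟩
  choose e hemem hprim hTe using hex
  have hval : ∀ a, ι (w a) = e a + (e a)⁻¹ := by
    intro a
    apply T.injective
    rw [hT, (hξ a).2, map_add, map_inv₀, hTe]
  set x : Fin p → K⟮ζ⟯ := fun a => ⟨e a + (e a)⁻¹, add_mem (hemem a) (inv_mem (hemem a))⟩ with hx
  have hxe : ∀ a, algebraMap K⟮ζ⟯ E (x a) = e a + (e a)⁻¹ := fun a => rfl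
  have hdg := fun (a : Fin p) (y : E) (hy : (F.map (algebraMap K E)).eval y = e a + (e a)⁻¹) =>
    hdegm N hN0 K⟮ζ⟯ E ζ hζp (fun y => y.2) (k a) (e a) y (x a) (hk1 a) (hprim a) (hxe a) hy
  -- the fibres
  have hfib : ∀ a, ∃ Y : Fin n → E, Function.Injective Y ∧ (∀ q, (F.map (algebraMap K E)).eval (Y q) = ι (w a)) ∧
      ∀ y, (F.map (algebraMap K E)).eval y = ι (w a) → ∃ q, Y q = y := by
    intro a
    have hm1 : ((Fl - C (w a)).map ι).Monic := (hmon a).map ι
    have hmap : (Fl - C (w a)).map ι = F.map (algebraMap K E) - C (ι (w a)) := by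
      rw [Polynomial.map_sub, Polynomial.map_C, hFE]
    have hspla : ((Fl - C (w a)).map ι).Splits := by
      refine hspl.of_dvd (((monic_prod_of_monic _ _ fun a _ => hmon a).map ι).ne_zero) ?_
      exact Polynomial.map_dvd ι (Finset.dvd_prod_of_mem _ (Finset.mem_univ a))
    have hnd : ((Fl - C (w a)).map ι).natDegree = n := by
      rw [(hmon a).natDegree_map, natDegree_sub_C, hFl, hF1.natDegree_map, hdeg]
    have hcard : Multiset.card ((Fl - C (w a)).map ι).roots = n := by rw [← hspla.natDegree_eq_card_roots, hnd]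
    obtain ⟨y₀, hy₀⟩ : ∃ y, y ∈ ((Fl - C (w a)).map ι).roots := by
      apply Multiset.exists_mem_of_ne_zero
      intro h0
      rw [h0, Multiset.card_zero] at hcard
      omega
    have hmem : ∀ y, y ∈ ((Fl - C (w a)).map ι).roots ↔ (F.map (algebraMap K E)).eval y = ι (w a) := by
      intro y
      rw [mem_roots hm1.ne_zero, IsRoot.def, hmap, eval_sub, eval_C, sub_eq_zero]
    have hmp := (hdg a y₀ (by rw [(hmem y₀).1 hy₀, hval])).1
    have hsep : ((Fl - C (w a)).map ι).Separable := by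
      have h3 : (minpoly K⟮ζ⟯ y₀).Separable := (minpoly.irreducible (Algebra.IsIntegral.isIntegral y₀)).separable
      rw [hmp] at h3
      have h4 := h3.map (f := algebraMap K⟮ζ⟯ E)
      rw [Polynomial.map_sub, Polynomial.map_C, Polynomial.map_map, ← IsScalarTower.algebraMap_eq K K⟮ζ⟯ E, hxe,
        ← hval, ← hmap] at h4
      exact h4
    have hcard2 : ((Fl - C (w a)).map ι).roots.toFinset.card = n := by
      rw [Multiset.toFinset_card_of_nodup (nodup_roots hsep), hcard]
    have eq := ((Fl - C (w a)).map ι).roots.toFinset.equivFinOfCardEq hcard2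
    refine ⟨fun q => (eq.symm q).1, fun q q' h => eq.symm.injective (Subtype.ext h), fun q => ?_, fun y hy => ?_⟩
    · exact (hmem _).1 (Multiset.mem_toFinset.1 (eq.symm q).2)
    · refine ⟨eq ⟨y, Multiset.mem_toFinset.2 ((hmem y).2 hy)⟩, ?_⟩
      simp only [Equiv.symm_apply_apply]
  choose Y hYinj hYev hYsurj using hfib
  have hYe : ∀ a q, (F.map (algebraMap K E)).eval (Y a q) = e a + (e a)⁻¹ := fun a q => by rw [hYev, hval]
  have hmp : ∀ a q, minpoly K⟮ζ⟯ (Y a q) = F.map (algebraMap K K⟮ζ⟯) - C (x a) := fun a q => (hdg a _ (hYe a q)).1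
  have hnd : ∀ a q, (minpoly K⟮ζ⟯ (Y a q)).natDegree = n := fun a q => by
    rw [hmp, natDegree_sub_C, hF1.natDegree_map, hdeg]
  -- the positions of the points
  choose q₀ hq₀ using fun i => hYsurj (c i) (ι (b i)) (by rw [hev, hbc])
  have hcq : ∀ i j, c i = c j → q₀ i = q₀ j → i = j := by
    intro i j h3 h4
    apply hbinj
    apply ι.injective
    rw [← hq₀, ← hq₀, h3, h4]
  set f : ℂ → ℝ := fun y => P (X' l) (Zp η) y with hf
  set c₀ : ℝ := P (Wp η) (Zp η) (2 * Complex.cos φ₀) with hc₀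
  have hφ₀ : φ₀ ∈ Ioo (0 : ℝ) π := by
    have h3 := S.h0
    have h4 := S.h1
    have h5 := S.hε
    constructor <;> linarith
  have hEm : ∀ s : E →+* ℂ, s.comp (algebraMap K E) = σ → (s.comp ι).comp (algebraMap K L) = σ := fun s hs => by
    rw [RingHom.comp_assoc]
    exact hs
  -- the sum over a fibre
  have hfs : ∀ s : E →+* ℂ, s.comp (algebraMap K E) = σ → ∀ a, ∑ q, f (s (Y a q)) = c₀ := by
    intro s hs a
    have hG : ∀ y : E, (F.map σ).eval (s y) = s ((F.map (algebraMap K E)).eval y) := by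
      intro y
      have h3 : F.map σ = (F.map (algebraMap K E)).map s := by rw [Polynomial.map_map, hs]
      rw [h3, eval_map, eval₂_hom]
    have hC : (Chebyshev.C ℂ (k a)).eval (s (ι (w a))) = 2 := by
      have h3 := congrArg (s.comp ι) (hv a).2.1
      rw [map_ofNat] at h3
      rw [← h3, ← Chebyshev.map_C (s.comp ι), eval_map, ← eval₂_hom]
      rfl
    have h4 : (s (ι (w a))) ^ 2 ≠ 4 := by
      rw [← map_pow, ← map_pow]
      intro h
      refine sq_ne (hk3 a) (hv a).2.2 ((s.comp ι).injective ?_)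
      rw [map_ofNat]
      exact h
    have h5 : ∀ q, Y a q ∈ Sp F E (k a) := by
      intro q
      refine ⟨?_, ?_⟩
      · rw [hYev]
        apply s.injective
        rw [map_ofNat, ← hC, ← Chebyshev.map_C s, eval_map, eval₂_hom]
      · rw [hYev]
        intro h
        apply h4
        rw [← map_pow, h, map_ofNat]
    rw [hf]
    simp only
    rw [fib_sum S l (w := s (ι (w a))) (fun q => s (Y a q)) (fun q q' h => hYinj a (s.injective h))
      (fun q => by rw [hG, hYev]) (fun q t => S.avoid_Sp ⟨s, hs⟩ (hk0 a) (h5 q) l t)]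
    exact P_Wp_special S.hη.ne' (hk0 a) hC h4 hφ₀
  -- the coefficients
  set At : Fin p → Fin n → ℝ := fun a q => ∑ i, if c i = a ∧ q₀ i = q then A i else 0 with hAt
  have hsum : ∀ g : Fin p → Fin n → ℝ, ∑ a, ∑ q, At a q * g a q = ∑ i, A i * g (c i) (q₀ i) := by
    intro g
    have h3 : ∀ a q, At a q * g a q = ∑ i, if c i = a ∧ q₀ i = q then A i * g a q else 0 := by
      intro a q
      rw [hAt]
      simp only
      rw [Finset.sum_mul]
      exact Finset.sum_congr rfl fun i _ => by rw [ite_mul, zero_mul]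
    simp only [h3]
    have h4 : ∀ a : Fin p, ∑ q : Fin n, ∑ i, (if c i = a ∧ q₀ i = q then A i * g a q else 0) =
      ∑ i, ∑ q : Fin n, (if c i = a ∧ q₀ i = q then A i * g a q else 0) := fun a => Finset.sum_comm
    simp only [h4]
    rw [Finset.sum_comm]
    refine Finset.sum_congr rfl fun i _ => ?_
    rw [Finset.sum_eq_single (c i), Finset.sum_eq_single (q₀ i), if_pos ⟨rfl, rfl⟩]
    · intro q _ hq
      exact if_neg fun h => hq h.2.symm
    · intro h
      exact absurd (Finset.mem_univ _) h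
    · intro a _ ha
      refine Finset.sum_eq_zero fun q _ => ?_
      exact if_neg fun h => ha h.1.symm
    · intro h
      exact absurd (Finset.mem_univ _) h
  set av : Fin p → ℝ := fun a => (∑ q, At a q) / n with hav
  have hnR : (n : ℝ) ≠ 0 := Nat.cast_ne_zero.2 hn0.ne'
  have hav0 : ∑ a, av a = 0 := by
    rw [hav]
    simp only
    rw [← Finset.sum_div]
    have h3 := hsum fun _ _ => 1
    simp only [mul_one] at h3
    rw [h3, hA0, zero_div]
  set Ap : Fin p → Fin n → ℝ := fun a q => At a q - av a with hAp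
  have hAp0 : ∀ a, ∑ q, Ap a q = 0 := by
    intro a
    rw [hAp]
    simp only
    rw [Finset.sum_sub_distrib, Finset.sum_const, Finset.card_univ, Fintype.card_fin, nsmul_eq_mul, hav]
    simp only
    rw [mul_div_cancel₀ _ hnR, sub_self]
  have hrel : ∀ s : E →+* ℂ, s.comp (algebraMap K E) = σ → ∑ a, ∑ q, Ap a q * f (s (Y a q)) = 0 := by
    intro s hs
    have h3 : ∑ a, ∑ q, Ap a q * f (s (Y a q)) =
        ∑ a, ∑ q, At a q * f (s (Y a q)) - ∑ a, av a * ∑ q, f (s (Y a q)) := by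
      rw [← Finset.sum_sub_distrib]
      refine Finset.sum_congr rfl fun a _ => ?_
      rw [Finset.mul_sum, ← Finset.sum_sub_distrib]
      exact Finset.sum_congr rfl fun q _ => by
        rw [hAp]
        simp only
        ring
    rw [h3, hsum fun a q => f (s (Y a q))]
    have h4 : ∀ a, av a * ∑ q, f (s (Y a q)) = av a * c₀ := fun a => by rw [hfs s hs a]
    rw [Finset.sum_congr rfl fun a _ => h4 a, ← Finset.sum_mul, hav0, zero_mul, sub_zero]
    have h5 := hA ⟨s.comp ι, hEm s hs⟩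
    rw [← h5]
    refine Finset.sum_congr rfl fun i _ => ?_
    rw [hq₀]
    rfl
  have hfd : FiniteDimensional K⟮ζ⟯ E := inferInstance
  have hpair : ∀ a a' : Fin p, ∀ q q' : Fin n, ¬ Bad (F.map σ) D (ξ a) (ξ a') →
      (minpoly K⟮ζ⟯⟮Y a q⟯ (Y a' q')).natDegree = (minpoly K⟮ζ⟯ (Y a' q')).natDegree := by
    intro a a' q q' hb
    rw [hnd]
    exact (hdg a' _ (hYe a' q')).2 T hTK (k a) (e a) (Y a q) (x a) (hk1 _) (hprim _) (hxe _) (hYe a q)
      (by rw [hTe, hTe]; exact hb)
  -- the relation in every fibre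
  have hstar : ∀ s : E →+* ℂ, s.comp (algebraMap K E) = σ → ∀ a, ∑ q, Ap a q * f (s (Y a q)) = 0 := by
    intro s₂ hs₂ a
    have hEσ : ∀ s : E →+* ℂ, s.comp (algebraMap K⟮ζ⟯ E) = s₂.comp (algebraMap K⟮ζ⟯ E) →
        s.comp (algebraMap K E) = σ := by
      intro s hs
      rw [← hs₂, IsScalarTower.algebraMap_eq K K⟮ζ⟯ E, ← RingHom.comp_assoc, ← RingHom.comp_assoc, hs]
    have hwne : ∀ a a', ι (w a) = ι (w a') → a = a' := fun a a' h => hwinj (ι.injective h)
    have hsm : ∀ (g : Fin p → Fin n → ℝ) (a : Fin p), ∑ j : Fin (p * n),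
        (if ι (w (finProdFinEquiv.symm j).1) = ι (w a) then
          g (finProdFinEquiv.symm j).1 (finProdFinEquiv.symm j).2 else 0) = ∑ q, g a q := by
      intro g a
      rw [Equiv.sum_comp finProdFinEquiv.symm fun j : Fin p × Fin n => if ι (w j.1) = ι (w a) then g j.1 j.2 else 0,
        Fintype.sum_prod_type, Finset.sum_eq_single a]
      · exact Finset.sum_congr rfl fun q _ => if_pos rfl
      · intro a' _ ha'
        exact Finset.sum_eq_zero fun q _ => if_neg fun h => ha' (hwne _ _ h)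
      · intro h
        exact absurd (Finset.mem_univ _) h
    have h3 := hAVG K⟮ζ⟯ E s₂ (p * n) (fun j => Y (finProdFinEquiv.symm j).1 (finProdFinEquiv.symm j).2)
      (fun j => ι (w (finProdFinEquiv.symm j).1)) (fun i j hij => by
        rw [hmp, hmp, hwne _ _ hij]) (fun i j hij => by
        have h4 : (finProdFinEquiv.symm i).1 ≠ (finProdFinEquiv.symm j).1 := fun h => hij (by rw [h])
        rcases hcf _ _ h4 with h5 | h5
        · exact Or.inl (hpair _ _ _ _ h5)
        · exact Or.inr (hpair _ _ _ _ h5)) f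
      (fun j => Ap (finProdFinEquiv.symm j).1 (finProdFinEquiv.symm j).2) (fun i => by
        rw [hsm Ap]
        exact hAp0 _) (fun s hs => by
        have h4 := hrel s (hEσ s hs)
        rw [← h4, Equiv.sum_comp finProdFinEquiv.symm fun j : Fin p × Fin n => Ap j.1 j.2 * f (s (Y j.1 j.2)),
          Fintype.sum_prod_type]) (finProdFinEquiv (a, ⟨0, hn0⟩))
    simp only [Equiv.symm_apply_apply] at h3
    rw [hsm (fun a q => Ap a q * f (s₂ (Y a q))) a] at h3
    exact h3
  -- the coefficients are zero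
  have hzero : ∀ a, Ap a = 0 := by
    intro a
    by_contra hne
    obtain ⟨j, x₀, hj⟩ := hW (Ap a) (hAp0 a) hne
    obtain ⟨t, β, ht, hβ, htx⟩ := hS j (k a) (hk2 j a) E T (e a) (hprim a)
    rw [hTK] at ht
    have hβφ := hwin j β hβ
    have htmap : (minpoly K⟮ζ⟯ (Y a x₀)).map (t.comp (algebraMap K⟮ζ⟯ E)) = F.map σ - C (2 * (Complex.cos β)) := by
      rw [hmp, Polynomial.map_sub, Polynomial.map_C, Polynomial.map_map, RingHom.comp_assoc,
        ← IsScalarTower.algebraMap_eq K K⟮ζ⟯ E, ht, RingHom.comp_apply, hxe, htx]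
    obtain ⟨s, hs, hsY⟩ := ext_emb t (Y a x₀) (B l β) (by
      rw [htmap, eval_sub, eval_C, S.Lev l _ (real_mem hβφ), sub_self])
    have hsσ : s.comp (algebraMap K E) = σ := by
      rw [← ht, IsScalarTower.algebraMap_eq K K⟮ζ⟯ E, ← RingHom.comp_assoc, ← RingHom.comp_assoc, hs]
    have hse : s (e a + (e a)⁻¹) = 2 * Complex.cos β := by
      rw [← htx, ← hxe]
      exact RingHom.congr_fun hs (x a)
    have hroot : ∀ y : ℂ, (F.map σ).eval y = 2 * Complex.cos β → ∃ q : Fin n, y = B q β := by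
      intro y hy
      have h1 := S.prodL (real_mem hβφ) y
      rw [hy, sub_self] at h1
      obtain ⟨q, -, hq⟩ := Finset.prod_eq_zero_iff.1 h1.symm
      exact ⟨q, sub_eq_zero.1 hq⟩
    have hG : ∀ y : E, (F.map σ).eval (s y) = s ((F.map (algebraMap K E)).eval y) := by
      intro y
      have h3 : F.map σ = (F.map (algebraMap K E)).map s := by rw [Polynomial.map_map, hsσ]
      rw [h3, eval_map, eval₂_hom]
    choose π₀ hπ₀ using fun q => hroot (s (Y a q)) (by rw [hG, hYe, hse])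
    have hπinj : Function.Injective π₀ := by
      intro q q' h
      apply hYinj a
      apply s.injective
      rw [hπ₀, hπ₀, h]
    set π' : Equiv.Perm (Fin n) := Equiv.ofBijective π₀ (Finite.injective_iff_bijective.1 hπinj) with hπ'
    have hπl : π' x₀ = l := by
      apply S.Linj _ (real_mem hβφ)
      show B (π₀ x₀) β = B l β
      rw [← hπ₀, hsY]
    refine hj π' hπl β hβ ?_
    rw [← hstar s hsσ a]
    refine Finset.sum_congr rfl fun q _ => ?_
    rw [hf, hπ₀ q]
    rfl
  have hAt2 : ∀ a q, At a q = av a := by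
    intro a q
    have h3 := congrFun (hzero a) q
    rw [hAp] at h3
    simp only [Pi.zero_apply] at h3
    exact sub_eq_zero.1 h3
  have hAi : ∀ i, At (c i) (q₀ i) = A i := by
    intro i
    rw [hAt]
    simp only
    rw [Finset.sum_eq_single i, if_pos ⟨rfl, rfl⟩]
    · intro j _ hj
      exact if_neg fun h => hj (hcq j i h.1 h.2)
    · intro h
      exact absurd (Finset.mem_univ _) h
  refine ⟨fun i hi => ?_, fun i j hij => ?_⟩
  · have h3 : ∃ q : Fin n, ∀ j, c j = c i → q₀ j ≠ q := by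
      by_contra hcon
      push Not at hcon
      choose g hg1 hg2 using hcon
      have h4 : Function.Injective g := by
        intro q q' h
        rw [← hg2 q, ← hg2 q', h]
      have h5 : (Finset.univ : Finset (Fin n)).card ≤ (Finset.univ.filter fun j => c j = c i).card := by
        refine Finset.card_le_card_of_injOn g (fun q _ => ?_) (h4.injOn)
        rw [Finset.mem_coe, Finset.mem_filter]
        exact ⟨Finset.mem_univ _, hg1 q⟩
      rw [Finset.card_univ, Fintype.card_fin] at h5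
      omega
    obtain ⟨q, hq⟩ := h3
    have h4 : At (c i) q = 0 := by
      rw [hAt]
      simp only
      refine Finset.sum_eq_zero fun j _ => ?_
      exact if_neg fun h => hq j h.1 h.2
    rw [← hAi i, hAt2, ← hAt2 (c i) q, h4]
  · rw [← hAi i, ← hAi j, hAt2, hAt2, hij]

end Pool.Agent.K9h21.GP
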