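import Pool.Agent.K9h21.GP.PairM

set_option autoImplicit false

/-!
# Project GPM: the degrees of the special points over each other, with an arbitrary conclusion
-/

namespace Pool.Agent.K9h21.GP

open Polynomial IntermediateField Module
open Pool.Agent.N76.RG (RU S_TRC S_LOXQ)
open Pool.Agent.N76.RG.Tor (Rt)
open Pool.Agent.K9h21.RP (Npw.loxk Npw.avoid)

/-- the core: a small degree gives the conclusion of `S_GQ` -/
theorem deg_coreM.{u, v} (hTRP : S_TRP.{v}) (h1 : S_TRC.{u, v}) (h2 : S_LOXQ.{v}) (K : Type u) [Field K]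
    [NumberField K] (F : K[X]) (n : ℕ) (hn : 2 ≤ n) (hF1 : F.Monic) (hdeg : F.natDegree = n) (hint : ∀ i, IsIntegral ℤ (F.coeff i))
    (σ : K →+* ℂ) (Q : ℂ → ℂ → Prop)
    (G₁ : ℂ[X]) (hQ : S_GQ G₁ (F.map σ) Q) (n₁ : ℕ) (hG₁ : G₁.Monic) (hn₁ : G₁.natDegree = n₁) (hn0 : 0 < n₁) (B : ℝ) :
    ∃ (N₀ : ℕ), ∀ (N : ℕ), 0 < N → ∀ (k E : Type v) [Field k] [NumberField k] [Field E]
      [NumberField E] [Algebra K k] [Algebra K E] [Algebra k E] [IsScalarTower K k E] (ζ : E), IsPrimitiveRoot ζ N →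
      (∀ y : k, algebraMap k E y ∈ K⟮ζ⟯) → ∀ (S : E →+* ℂ), S.comp (algebraMap K E) = σ →
      ∀ (f : k[X]) (b c e' : E) (x' : k) (η : ℂ) (m' : ℕ), f.Monic → f.natDegree = n₁ → (∀ i, IsIntegral ℤ (f.coeff i)) →
      minpoly k b = f → (∀ (τ : k →+* ℂ) (i : ℕ), ‖τ (f.coeff i)‖ ≤ B) →
      f.map (S.comp (algebraMap k E)) = G₁ - C (η + η⁻¹) → Rt η →
      (∀ x, G₁.eval x = η + η⁻¹ → (derivative G₁).eval x ≠ 0) → N₀ ≤ m' → 0 < m' → IsPrimitiveRoot e' m' →
      algebraMap k E x' = e' + e'⁻¹ → (F.map (algebraMap K E)).eval c = e' + e'⁻¹ →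
      (minpoly k⟮b⟯ c).natDegree = n ∨ Q η (S e') := by
  classical
  obtain ⟨A, hA0, hA⟩ : ∃ A : ℝ, 0 ≤ A ∧ ∀ (t : K →+* ℂ) (i : ℕ), ‖t (F.coeff i)‖ ≤ A := by
    obtain ⟨A, hA⟩ := (Set.finite_range fun q : (K →+* ℂ) × Fin (n + 1) => ‖q.1 (F.coeff q.2)‖).bddAbove
    refine ⟨max A 0, le_max_right _ _, fun t i => ?_⟩
    by_cases hi : i < n + 1
    · exact (hA ⟨(t, ⟨i, hi⟩), rfl⟩).trans (le_max_left _ _)
    · rw [coeff_eq_zero_of_natDegree_lt (by omega), map_zero, norm_zero]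
      exact le_max_right _ _
  set B' : ℝ := max (max B 0 + 1) (A + 3) with hB'
  have hB1 : max B 0 + 1 ≤ B' := le_max_left _ _
  have hB2 : A + 3 ≤ B' := le_max_right _ _
  obtain ⟨Ct, hCt⟩ := hTRP n₁ n B'
  obtain ⟨M, θ, hL⟩ := Npw.loxk h1 h2 K σ Ct
  have hP : ∀ r : Fin n, ∃ (Z : Set ℂ), Z.Finite ∧ (0 < (r : ℕ) →
      ∀ ζ ζ' : ℂ, Rt ζ → Rt ζ' → ζ' ∉ Z →
      (∀ x, G₁.eval x = ζ + ζ⁻¹ → (derivative G₁).eval x ≠ 0) →
      ∀ (z : Fin r → Fin n₁ → Fin M → ℂ) (z' : Fin (n - r) → Fin n₁ → Fin M → ℂ), (∀ m i s, RU (z m i s)) →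
      (∀ m i s, RU (z' m i s)) →
      (∀ x V : ℂ, G₁.eval x = ζ + ζ⁻¹ →
        Th (fun m i => ∑ s, θ s * z m i s) (derivative G₁) x V *
        Th (fun m i => ∑ s, θ s * z' m i s) (derivative G₁) x V =
          (derivative G₁).eval x ^ 2 * ((F.map σ).eval V - (ζ' + ζ'⁻¹))) →
      Q ζ ζ') := by
    intro r
    by_cases hr : 0 < (r : ℕ)
    · obtain ⟨Z, hZ, H⟩ := pairM Q G₁ (F.map σ) hQ n₁ r (n - r) n₁ M hG₁ hn₁ hn0
        (by rw [hF1.natDegree_map, hdeg]; omega) hr (by omega) θ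
      exact ⟨Z, hZ, fun _ => H⟩
    · exact ⟨∅, Set.finite_empty, fun h => absurd h hr⟩
  choose Z hZ H using hP
  obtain ⟨N₁, hN₁⟩ := Npw.avoid (⋃ r, Z r) (Set.finite_iUnion hZ)
  refine ⟨N₁, fun N hN k E _ _ _ _ _ _ _ _ ζ hζ hkζ S hS f b c e' x' η m' hf1 hfn
    hfint hbf hfB hfS hη hnc hm' hm'0 he' hx' hc => ?_⟩
  -- the polynomial of `c`
  set g : k[X] := F.map (algebraMap K k) - C x' with hg
  have hgdC : (C x' : k[X]).degree < (F.map (algebraMap K k)).degree := by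
    rw [degree_eq_natDegree (hF1.map _).ne_zero, hF1.natDegree_map, hdeg]
    exact lt_of_le_of_lt degree_C_le (by exact_mod_cast (by omega : 0 < n))
  have hg1 : g.Monic := (hF1.map _).sub_of_left hgdC
  have hgn : g.natDegree = n := by rw [hg, natDegree_sub_C, hF1.natDegree_map, hdeg]
  have he'i : IsIntegral ℤ (e' + e'⁻¹) := (he'.isIntegral hm'0).add (he'.inv.isIntegral hm'0)
  have hx'i : IsIntegral ℤ x' := by
    rw [← hx'] at he'i
    exact (isIntegral_algebraMap_iff (algebraMap k E).injective).1 he'i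
  have hgint : ∀ i, IsIntegral ℤ (g.coeff i) := by
    intro i
    rw [hg, coeff_sub, coeff_map, coeff_C]
    refine IsIntegral.sub ((hint i).map (algebraMap K k).toIntAlgHom) ?_
    split_ifs
    · exact hx'i
    · exact isIntegral_zero
  have hgc : aeval c g = 0 := by
    rw [hg, map_sub, aeval_map_algebraMap, aeval_C, hx', ← hc, eval_map_algebraMap, sub_self]
  have hτx : ∀ τ : k →+* ℂ, ‖τ x'‖ ≤ 2 := by
    intro τ
    obtain ⟨⟨τ', hτ'⟩⟩ := Pool.Agent.N76.EC.Em_nonempty E τ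
    have h3 : ‖τ' e'‖ = 1 :=
      Complex.norm_eq_one_of_pow_eq_one (by rw [← map_pow, he'.pow_eq_one, map_one]) hm'0.ne'
    have h4 : τ x' = τ' e' + (τ' e')⁻¹ := by
      rw [← hτ', RingHom.comp_apply, hx', map_add, map_inv₀]
    rw [h4]
    calc ‖τ' e' + (τ' e')⁻¹‖ ≤ ‖τ' e'‖ + ‖(τ' e')⁻¹‖ := norm_add_le _ _
      _ = 2 := by rw [norm_inv, h3]; norm_num
  have hgR : ∀ (τ : k →+* ℂ) (x : ℂ), (g.map τ).eval x = 0 → ‖x‖ ≤ B' := by
    intro τ x hx
    refine (root_le (hg1.map τ) (A := A + 2) (by linarith) (fun i => ?_) hx).trans (by linarith)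
    rw [coeff_map, hg, coeff_sub, coeff_map, coeff_C, map_sub]
    refine (norm_sub_le _ _).trans (add_le_add (hA (τ.comp (algebraMap K k)) i) ?_)
    split_ifs
    · exact hτx τ
    · rw [map_zero, norm_zero]
      norm_num
  have hfR : ∀ (τ : k →+* ℂ) (x : ℂ), (f.map τ).eval x = 0 → ‖x‖ ≤ B' := by
    intro τ x hx
    refine (root_le (hf1.map τ) (A := max B 0) (le_max_right _ _) (fun i => ?_) hx).trans hB1
    rw [coeff_map]
    exact (hfB τ i).trans (le_max_left _ _)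
  have hfB' : ∀ (τ : k →+* ℂ) (i : ℕ), ‖τ (f.coeff i)‖ ≤ B' := by
    intro τ i
    have h3 := hfB τ i
    have h4 := le_max_left B 0
    linarith
  -- the degree
  have hci : IsIntegral k c := ⟨g, hg1, by rwa [← aeval_def]⟩
  have hci' : IsIntegral k⟮b⟯ c := hci.tower_top
  obtain ⟨r, hr⟩ : ∃ r, (minpoly k⟮b⟯ c).natDegree = r := ⟨_, rfl⟩
  have hr0 : 0 < r := by
    rw [← hr]
    exact minpoly.natDegree_pos hci'
  have hrn : r ≤ n := by
    rw [← hr, ← hgn, ← hg1.natDegree_map (algebraMap k k⟮b⟯)]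
    refine natDegree_le_of_dvd (minpoly.dvd _ _ ?_) (hg1.map _).ne_zero
    rw [aeval_map_algebraMap, hgc]
  rcases eq_or_lt_of_le hrn with h3 | hrn
  · left
    rw [hr, h3]
  right
  obtain ⟨c₁, c₂, hi1, hi2, hb1, hb2, hid⟩ := hCt k E f g b c hf1 hfn hfint hg1 hgn hgint hbf hgc hfB' hfR hgR r (n - r)
    hr (by omega)
  choose z hz1 hz2 using fun (m : Fin r) (i : Fin n₁) => hL N hN E ζ hζ S hS (algebraMap k E (c₁ m i)) (hkζ _)
    ((hi1 m i).map (algebraMap k E).toIntAlgHom) (fun τ => hb1 (τ.comp (algebraMap k E)) m i)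
  choose z' hz1' hz2' using fun (m : Fin (n - r)) (i : Fin n₁) => hL N hN E ζ hζ S hS (algebraMap k E (c₂ m i)) (hkζ _)
    ((hi2 m i).map (algebraMap k E).toIntAlgHom) (fun τ => hb2 (τ.comp (algebraMap k E)) m i)
  have hgS : g.map (S.comp (algebraMap k E)) = F.map σ - C (S e' + (S e')⁻¹) := by
    rw [hg, Polynomial.map_sub, Polynomial.map_map, Polynomial.map_C, RingHom.comp_assoc,
      ← IsScalarTower.algebraMap_eq K k E, hS, RingHom.comp_apply, hx', map_add, map_inv₀]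
  have hdS : derivative (f.map (S.comp (algebraMap k E))) = derivative G₁ := by
    rw [hfS, derivative_sub, derivative_C, sub_zero]
  exact H ⟨r, hrn⟩ hr0 η (S e') hη ⟨m', hm'0, by rw [← map_pow, he'.pow_eq_one, map_one]⟩
    (fun h => hN₁ m' (S e') (he'.map_of_injective S.injective) hm' (Set.mem_iUnion.2 ⟨_, h⟩)) hnc z z' hz1 hz1'
    (fun x V hx => by
      have h4 := hid (S.comp (algebraMap k E)) x (by rw [hfS, eval_sub, eval_C, hx, sub_self]) V
      rw [hdS, hgS, eval_sub, eval_C] at h4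
      rw [← h4]
      congr 2
      · funext m i
        exact (hz2 m i).symm
      · funext m i
        exact (hz2' m i).symm)

/-- **DEG: the degrees of the special points of large level** -/
theorem degM_.{u, v} (hGEO : S_GEO) (hTRP : S_TRP.{v}) (h1 : S_TRC.{u, v}) (h2 : S_LOXQ.{v}) (K : Type u) [Field K]
    [NumberField K] (F : K[X]) (n : ℕ) (hn : 2 ≤ n) (hF1 : F.Monic) (hdeg : F.natDegree = n)
    (hint : ∀ i, IsIntegral ℤ (F.coeff i)) (σ : K →+* ℂ)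
    (hcr : ∀ x, (derivative (F.map σ)).eval x = 0 → ((F.map σ).eval x) ^ 2 ≠ 4)
    (Q : ℂ → ℂ → Prop) (hQ : S_GQ (F.map σ) (F.map σ) Q) :
    ∃ (k₀ : ℕ), ∀ (N : ℕ), 0 < N → ∀ (k E : Type v) [Field k] [NumberField k] [Field E]
      [NumberField E] [Algebra K k] [Algebra K E] [Algebra k E] [IsScalarTower K k E] (ζ : E), IsPrimitiveRoot ζ N →
      (∀ y : k, algebraMap k E y ∈ K⟮ζ⟯) → ∀ (m' : ℕ) (e' c : E) (x' : k), k₀ ≤ m' → IsPrimitiveRoot e' m' →
      algebraMap k E x' = e' + e'⁻¹ → (F.map (algebraMap K E)).eval c = e' + e'⁻¹ →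
      minpoly k c = F.map (algebraMap K k) - C x' ∧
      ∀ (S : E →+* ℂ), S.comp (algebraMap K E) = σ → ∀ (m : ℕ) (e b : E) (x : k), k₀ ≤ m → IsPrimitiveRoot e m →
        algebraMap k E x = e + e⁻¹ → (F.map (algebraMap K E)).eval b = e + e⁻¹ →
        ¬ Q (S e) (S e') → (minpoly k⟮b⟯ c).natDegree = n := by
  classical
  obtain ⟨A, hA0, hA⟩ : ∃ A : ℝ, 0 ≤ A ∧ ∀ (t : K →+* ℂ) (i : ℕ), ‖t (F.coeff i)‖ ≤ A := by
    obtain ⟨A, hA⟩ := (Set.finite_range fun q : (K →+* ℂ) × Fin (n + 1) => ‖q.1 (F.coeff q.2)‖).bddAbove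
    refine ⟨max A 0, le_max_right _ _, fun t i => ?_⟩
    by_cases hi : i < n + 1
    · exact (hA ⟨(t, ⟨i, hi⟩), rfl⟩).trans (le_max_left _ _)
    · rw [coeff_eq_zero_of_natDegree_lt (by omega), map_zero, norm_zero]
      exact le_max_right _ _
  obtain ⟨N₁, D₁, H₁⟩ := deg_ hGEO hTRP h1 h2 K F n hn hF1 hdeg hint σ hcr
  obtain ⟨N₂, H₂⟩ := deg_coreM hTRP h1 h2 K F n hn hF1 hdeg hint σ Q (F.map σ) hQ n (hF1.map σ)
    (by rw [hF1.natDegree_map, hdeg]) (by omega) (A + 2)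
  obtain ⟨N₃, hN₃⟩ := Npw.avoid _ (crit_finite (F.map σ) (by rw [hF1.natDegree_map, hdeg]; omega))
  have hle : N₁ ≤ max (max N₁ N₂) (max N₃ 1) := (le_max_left _ _).trans (le_max_left _ _)
  have hle2 : N₂ ≤ max (max N₁ N₂) (max N₃ 1) := (le_max_right _ _).trans (le_max_left _ _)
  have hle3 : N₃ ≤ max (max N₁ N₂) (max N₃ 1) := (le_max_left _ _).trans (le_max_right _ _)
  have hle4 : 1 ≤ max (max N₁ N₂) (max N₃ 1) := (le_max_right _ _).trans (le_max_right _ _)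
  refine ⟨max (max N₁ N₂) (max N₃ 1), fun N hN k E _ _ _ _ _ _ _ _ ζ hζ hkζ => ?_⟩
  -- the minimal polynomials
  have hmin : ∀ (m' : ℕ) (e' c : E) (x' : k), max (max N₁ N₂) (max N₃ 1) ≤ m' → IsPrimitiveRoot e' m' →
      algebraMap k E x' = e' + e'⁻¹ → (F.map (algebraMap K E)).eval c = e' + e'⁻¹ →
      minpoly k c = F.map (algebraMap K k) - C x' := fun m' e' c x' hm' he' hx' hc =>
    (H₁ N hN k E ζ hζ hkζ m' e' c x' (hle.trans hm') he' hx' hc).1
  refine fun m' e' c x' hm' he' hx' hc => ⟨hmin m' e' c x' hm' he' hx' hc, fun S hS m e b x hm he hx hb hbad => ?_⟩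
  have hm0 : 0 < m := by omega
  have hm0' : 0 < m' := by omega
  have hxi : IsIntegral ℤ x := by
    have h3 : IsIntegral ℤ (e + e⁻¹) := (he.isIntegral hm0).add (he.inv.isIntegral hm0)
    rw [← hx] at h3
    exact (isIntegral_algebraMap_iff (algebraMap k E).injective).1 h3
  have hfdC : (C x : k[X]).degree < (F.map (algebraMap K k)).degree := by
    rw [degree_eq_natDegree (hF1.map _).ne_zero, hF1.natDegree_map, hdeg]
    exact lt_of_le_of_lt degree_C_le (by exact_mod_cast (by omega : 0 < n))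
  have hτx : ∀ τ : k →+* ℂ, ‖τ x‖ ≤ 2 := by
    intro τ
    obtain ⟨⟨τ', hτ'⟩⟩ := Pool.Agent.N76.EC.Em_nonempty E τ
    have h3 : ‖τ' e‖ = 1 :=
      Complex.norm_eq_one_of_pow_eq_one (by rw [← map_pow, he.pow_eq_one, map_one]) hm0.ne'
    have h4 : τ x = τ' e + (τ' e)⁻¹ := by
      rw [← hτ', RingHom.comp_apply, hx, map_add, map_inv₀]
    rw [h4]
    calc ‖τ' e + (τ' e)⁻¹‖ ≤ ‖τ' e‖ + ‖(τ' e)⁻¹‖ := norm_add_le _ _
      _ = 2 := by rw [norm_inv, h3]; norm_num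
  rcases H₂ N hN k E ζ hζ hkζ S hS (F.map (algebraMap K k) - C x) b c e' x' (S e) m' ((hF1.map _).sub_of_left hfdC)
    (by rw [natDegree_sub_C, hF1.natDegree_map, hdeg]) (fun i => by
      rw [coeff_sub, coeff_map, coeff_C]
      refine IsIntegral.sub ((hint i).map (algebraMap K k).toIntAlgHom) ?_
      split_ifs
      · exact hxi
      · exact isIntegral_zero) (hmin m e b x hm he hx hb) (fun τ i => by
      rw [coeff_sub, coeff_map, coeff_C, map_sub]
      refine (norm_sub_le _ _).trans (add_le_add (hA (τ.comp (algebraMap K k)) i) ?_)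
      split_ifs
      · exact hτx τ
      · rw [map_zero, norm_zero]
        norm_num) (by
      rw [Polynomial.map_sub, Polynomial.map_map, Polynomial.map_C, RingHom.comp_assoc,
        ← IsScalarTower.algebraMap_eq K k E, hS, RingHom.comp_apply, hx, map_add, map_inv₀])
    ⟨m, hm0, by rw [← map_pow, he.pow_eq_one, map_one]⟩ (fun y hy h0 => by
      refine hN₃ m (S e) (he.map_of_injective S.injective) (hle3.trans hm) ⟨?_, y, h0, hy⟩
      rw [Ne, map_eq_zero]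
      exact he.ne_zero hm0.ne') (hle2.trans hm') hm0' he' hx' hc with h3 | h3
  · exact h3
  · exact absurd h3 hbad

end Pool.Agent.K9h21.GP
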