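import Pool.Agent.K9h21.GP.Pair
import Pool.Agent.K9h21.RP.Npw
import Pool.Agent.N76.EC.LG2

set_option autoImplicit false

/-!
# Project GP: the degrees of the special points over each other
-/

namespace Pool.Agent.K9h21.GP

open Polynomial IntermediateField Module
open Pool.Agent.N76.RG (RU S_TRC S_LOXQ)
open Pool.Agent.N76.RG.Tor (Rt)
open Pool.Agent.K9h21.RP (Npw.loxk Npw.avoid)

/-- bound of the roots of a monic polynomial -/
theorem root_le {q : ℂ[X]} (hq : q.Monic) {A : ℝ} (hA : 0 ≤ A) (h : ∀ i, ‖q.coeff i‖ ≤ A) {x : ℂ} (hx : q.eval x = 0) :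
    ‖x‖ ≤ A + 1 := by
  have h1 := IsRoot.norm_lt_cauchyBound hq.ne_zero hx
  have h2 : (cauchyBound q : ℝ) ≤ A + 1 := by
    have h3 : cauchyBound q ≤ A.toNNReal + 1 := by
      unfold cauchyBound
      rw [hq.leadingCoeff, nnnorm_one, div_one]
      refine add_le_add_left (Finset.sup_le fun i _ => ?_) _
      rw [← NNReal.coe_le_coe, Real.coe_toNNReal A hA]
      exact h i
    have h4 : (cauchyBound q : ℝ) ≤ ((A.toNNReal + 1 : NNReal) : ℝ) := NNReal.coe_le_coe.2 h3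
    rwa [NNReal.coe_add, Real.coe_toNNReal A hA, NNReal.coe_one] at h4
  exact (NNReal.coe_lt_coe.2 h1).le.trans h2

/-- the core: a small degree gives a common branch point -/
theorem deg_core.{u, v} (hGEO : S_GEO) (hTRP : S_TRP.{v}) (h1 : S_TRC.{u, v}) (h2 : S_LOXQ.{v}) (K : Type u) [Field K]
    [NumberField K] (F : K[X]) (n : ℕ) (hn : 2 ≤ n) (hF1 : F.Monic) (hdeg : F.natDegree = n) (hint : ∀ i, IsIntegral ℤ (F.coeff i))
    (σ : K →+* ℂ) (hcr : ∀ x, (derivative (F.map σ)).eval x = 0 → ((F.map σ).eval x) ^ 2 ≠ 4)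
    (G₁ : ℂ[X]) (n₁ : ℕ) (hG₁ : G₁.Monic) (hn₁ : G₁.natDegree = n₁) (hn0 : 0 < n₁) (B : ℝ) :
    ∃ (N₀ : ℕ) (Di : Set (ℤ × ℤ)), Di.Finite ∧ ∀ (N : ℕ), 0 < N → ∀ (k E : Type v) [Field k] [NumberField k] [Field E]
      [NumberField E] [Algebra K k] [Algebra K E] [Algebra k E] [IsScalarTower K k E] (ζ : E), IsPrimitiveRoot ζ N →
      (∀ y : k, algebraMap k E y ∈ K⟮ζ⟯) → ∀ (S : E →+* ℂ), S.comp (algebraMap K E) = σ →
      ∀ (f : k[X]) (b c e' : E) (x' : k) (η : ℂ) (m' : ℕ), f.Monic → f.natDegree = n₁ → (∀ i, IsIntegral ℤ (f.coeff i)) →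
      minpoly k b = f → (∀ (τ : k →+* ℂ) (i : ℕ), ‖τ (f.coeff i)‖ ≤ B) →
      f.map (S.comp (algebraMap k E)) = G₁ - C (η + η⁻¹) → Rt η →
      (∀ x, G₁.eval x = η + η⁻¹ → (derivative G₁).eval x ≠ 0) → N₀ ≤ m' → 0 < m' → IsPrimitiveRoot e' m' →
      algebraMap k E x' = e' + e'⁻¹ → (F.map (algebraMap K E)).eval c = e' + e'⁻¹ →
      (minpoly k⟮b⟯ c).natDegree = n ∨ ∃ p ∈ Di, p.2 ≠ 0 ∧ ∃ t : ℂ, t ≠ 0 ∧
        (∃ x, (derivative G₁).eval x = 0 ∧ G₁.eval x = wv η p.1 t) ∧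
        ∃ y, (derivative (F.map σ)).eval y = 0 ∧ (F.map σ).eval y = wv (S e') p.2 t := by
  classical
  obtain ⟨A, hA0, hA⟩ : ∃ A : ℝ, 0 ≤ A ∧ ∀ (t : K →+* ℂ) (i : ℕ), ‖t (F.coeff i)‖ ≤ A := by
    obtain ⟨A, hA⟩ := (Set.finite_range fun q : (K →+* ℂ) × Fin (n + 1) => ‖q.1 (F.coeff q.2)‖).bddAbove
    refine ⟨max A 0, le_max_right _ _, fun t i => ?_⟩
    by_cases hi : i < n + 1
    · exact (hA ⟨(t, ⟨i, hi⟩), rfl⟩).trans (le_max_left _ _)
    · rw [coeff_eq_zero_of_natDegree_lt (by omega), map_zero, norm_zero]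
      exact le_max_right _ _
  set B' : ℝ := max (max B 0 + 1) (A + 3) with hB'
  have hB1 : max B 0 + 1 ≤ B' := le_max_left _ _
  have hB2 : A + 3 ≤ B' := le_max_right _ _
  obtain ⟨Ct, hCt⟩ := hTRP n₁ n B'
  obtain ⟨M, θ, hL⟩ := Npw.loxk h1 h2 K σ Ct
  have hP : ∀ r : Fin n, ∃ (Z : Set ℂ) (Di : Set (ℤ × ℤ)), Z.Finite ∧ Di.Finite ∧ (0 < (r : ℕ) →
      ∀ ζ ζ' : ℂ, Rt ζ → Rt ζ' → ζ' ∉ Z →
      (∀ x, G₁.eval x = ζ + ζ⁻¹ → (derivative G₁).eval x ≠ 0) →
      ∀ (z : Fin r → Fin n₁ → Fin M → ℂ) (z' : Fin (n - r) → Fin n₁ → Fin M → ℂ), (∀ m i s, RU (z m i s)) →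
      (∀ m i s, RU (z' m i s)) →
      (∀ x V : ℂ, G₁.eval x = ζ + ζ⁻¹ →
        Th (fun m i => ∑ s, θ s * z m i s) (derivative G₁) x V *
        Th (fun m i => ∑ s, θ s * z' m i s) (derivative G₁) x V =
          (derivative G₁).eval x ^ 2 * ((F.map σ).eval V - (ζ' + ζ'⁻¹))) →
      ∃ p ∈ Di, p.2 ≠ 0 ∧ ∃ t : ℂ, t ≠ 0 ∧ (∃ x, (derivative G₁).eval x = 0 ∧ G₁.eval x = wv ζ p.1 t) ∧
        ∃ y, (derivative (F.map σ)).eval y = 0 ∧ (F.map σ).eval y = wv ζ' p.2 t) := by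
    intro r
    by_cases hr : 0 < (r : ℕ)
    · obtain ⟨Z, Di, hZ, hDi, H⟩ := pair hGEO G₁ (F.map σ) n₁ r (n - r) n₁ M hG₁ hn₁ hn0 (hF1.map σ)
        (by rw [hF1.natDegree_map, hdeg]; omega) hr (by omega) hcr θ
      exact ⟨Z, Di, hZ, hDi, fun _ => H⟩
    · exact ⟨∅, ∅, Set.finite_empty, Set.finite_empty, fun h => absurd h hr⟩
  choose Z Di hZ hDi H using hP
  obtain ⟨N₁, hN₁⟩ := Npw.avoid (⋃ r, Z r) (Set.finite_iUnion hZ)
  refine ⟨N₁, ⋃ r, Di r, Set.finite_iUnion hDi, fun N hN k E _ _ _ _ _ _ _ _ ζ hζ hkζ S hS f b c e' x' η m' hf1 hfn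
    hfint hbf hfB hfS hη hnc hm' hm'0 he' hx' hc => ?_⟩
  -- the polynomial of `c`
  set g : k[X] := F.map (algebraMap K k) - C x' with hg
  have hgdC : (C x' : k[X]).degree < (F.map (algebraMap K k)).degree := by
    rw [degree_eq_natDegree (hF1.map _).ne_zero, hF1.natDegree_map, hdeg]
    exact lt_of_le_of_lt degree_C_le (by exact_mod_cast (by omega : 0 < n))
  have hg1 : g.Monic := (hF1.map _).sub_of_left hgdC
  have hgn : g.natDegree = n := by rw [hg, natDegree_sub_C, hF1.natDegree_map, hdeg]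
  have he'i : IsIntegral ℤ (e' + e'⁻¹) := (he'.isIntegral hm'0).add (he'.inv.isIntegral hm'0)
  have hx'i : IsIntegral ℤ x' := by
    rw [← hx'] at he'i
    exact (isIntegral_algebraMap_iff (algebraMap k E).injective).1 he'i
  have hgint : ∀ i, IsIntegral ℤ (g.coeff i) := by
    intro i
    rw [hg, coeff_sub, coeff_map, coeff_C]
    refine IsIntegral.sub ((hint i).map (algebraMap K k).toIntAlgHom) ?_
    split_ifs
    · exact hx'i
    · exact isIntegral_zero
  have hgc : aeval c g = 0 := by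
    rw [hg, map_sub, aeval_map_algebraMap, aeval_C, hx', ← hc, eval_map_algebraMap, sub_self]
  have hτx : ∀ τ : k →+* ℂ, ‖τ x'‖ ≤ 2 := by
    intro τ
    obtain ⟨⟨τ', hτ'⟩⟩ := Pool.Agent.N76.EC.Em_nonempty E τ
    have h3 : ‖τ' e'‖ = 1 :=
      Complex.norm_eq_one_of_pow_eq_one (by rw [← map_pow, he'.pow_eq_one, map_one]) hm'0.ne'
    have h4 : τ x' = τ' e' + (τ' e')⁻¹ := by
      rw [← hτ', RingHom.comp_apply, hx', map_add, map_inv₀]
    rw [h4]
    calc ‖τ' e' + (τ' e')⁻¹‖ ≤ ‖τ' e'‖ + ‖(τ' e')⁻¹‖ := norm_add_le _ _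
      _ = 2 := by rw [norm_inv, h3]; norm_num
  have hgR : ∀ (τ : k →+* ℂ) (x : ℂ), (g.map τ).eval x = 0 → ‖x‖ ≤ B' := by
    intro τ x hx
    refine (root_le (hg1.map τ) (A := A + 2) (by linarith) (fun i => ?_) hx).trans (by linarith)
    rw [coeff_map, hg, coeff_sub, coeff_map, coeff_C, map_sub]
    refine (norm_sub_le _ _).trans (add_le_add (hA (τ.comp (algebraMap K k)) i) ?_)
    split_ifs
    · exact hτx τ
    · rw [map_zero, norm_zero]
      norm_num
  have hfR : ∀ (τ : k →+* ℂ) (x : ℂ), (f.map τ).eval x = 0 → ‖x‖ ≤ B' := by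
    intro τ x hx
    refine (root_le (hf1.map τ) (A := max B 0) (le_max_right _ _) (fun i => ?_) hx).trans hB1
    rw [coeff_map]
    exact (hfB τ i).trans (le_max_left _ _)
  have hfB' : ∀ (τ : k →+* ℂ) (i : ℕ), ‖τ (f.coeff i)‖ ≤ B' := by
    intro τ i
    have h3 := hfB τ i
    have h4 := le_max_left B 0
    linarith
  -- the degree
  have hci : IsIntegral k c := ⟨g, hg1, by rwa [← aeval_def]⟩
  have hci' : IsIntegral k⟮b⟯ c := hci.tower_top
  obtain ⟨r, hr⟩ : ∃ r, (minpoly k⟮b⟯ c).natDegree = r := ⟨_, rfl⟩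
  have hr0 : 0 < r := by
    rw [← hr]
    exact minpoly.natDegree_pos hci'
  have hrn : r ≤ n := by
    rw [← hr, ← hgn, ← hg1.natDegree_map (algebraMap k k⟮b⟯)]
    refine natDegree_le_of_dvd (minpoly.dvd _ _ ?_) (hg1.map _).ne_zero
    rw [aeval_map_algebraMap, hgc]
  rcases eq_or_lt_of_le hrn with h3 | hrn
  · left
    rw [hr, h3]
  right
  obtain ⟨c₁, c₂, hi1, hi2, hb1, hb2, hid⟩ := hCt k E f g b c hf1 hfn hfint hg1 hgn hgint hbf hgc hfB' hfR hgR r (n - r)
    hr (by omega)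
  choose z hz1 hz2 using fun (m : Fin r) (i : Fin n₁) => hL N hN E ζ hζ S hS (algebraMap k E (c₁ m i)) (hkζ _)
    ((hi1 m i).map (algebraMap k E).toIntAlgHom) (fun τ => hb1 (τ.comp (algebraMap k E)) m i)
  choose z' hz1' hz2' using fun (m : Fin (n - r)) (i : Fin n₁) => hL N hN E ζ hζ S hS (algebraMap k E (c₂ m i)) (hkζ _)
    ((hi2 m i).map (algebraMap k E).toIntAlgHom) (fun τ => hb2 (τ.comp (algebraMap k E)) m i)
  have hgS : g.map (S.comp (algebraMap k E)) = F.map σ - C (S e' + (S e')⁻¹) := by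
    rw [hg, Polynomial.map_sub, Polynomial.map_map, Polynomial.map_C, RingHom.comp_assoc,
      ← IsScalarTower.algebraMap_eq K k E, hS, RingHom.comp_apply, hx', map_add, map_inv₀]
  have hdS : derivative (f.map (S.comp (algebraMap k E))) = derivative G₁ := by
    rw [hfS, derivative_sub, derivative_C, sub_zero]
  obtain ⟨p, hp, h3⟩ := H ⟨r, hrn⟩ hr0 η (S e') hη ⟨m', hm'0, by rw [← map_pow, he'.pow_eq_one, map_one]⟩
    (fun h => hN₁ m' (S e') (he'.map_of_injective S.injective) hm' (Set.mem_iUnion.2 ⟨_, h⟩)) hnc z z' hz1 hz1'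
    (fun x V hx => by
      have h4 := hid (S.comp (algebraMap k E)) x (by rw [hfS, eval_sub, eval_C, hx, sub_self]) V
      rw [hdS, hgS, eval_sub, eval_C] at h4
      rw [← h4]
      congr 2
      · funext m i
        exact (hz2 m i).symm
      · funext m i
        exact (hz2' m i).symm)
  exact ⟨p, Set.mem_iUnion.2 ⟨_, hp⟩, h3⟩

/-- numbers with critical values are finitely many -/
theorem crit_finite (G : ℂ[X]) (hG : 0 < G.natDegree) :
    {ζ : ℂ | ζ ≠ 0 ∧ ∃ y, (derivative G).eval y = 0 ∧ G.eval y = ζ + ζ⁻¹}.Finite := by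
  classical
  have hd : derivative G ≠ 0 := by
    intro h
    have := natDegree_eq_zero_of_derivative_eq_zero h
    omega
  have hq : ∀ v : ℂ, (X ^ 2 - C v * X + 1 : ℂ[X]) ≠ 0 := by
    intro v h
    have h1 := congrArg (fun p : ℂ[X] => p.eval 0) h
    simp at h1
  refine Set.Finite.subset ((derivative G).roots.toFinset.finite_toSet.biUnion fun y _ =>
    (X ^ 2 - C (G.eval y) * X + 1 : ℂ[X]).roots.toFinset.finite_toSet) ?_
  rintro ζ ⟨hζ, y, hy, hv⟩
  refine Set.mem_biUnion (x := y) ?_ ?_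
  · rw [Finset.mem_coe, Multiset.mem_toFinset, mem_roots hd]
    exact hy
  · rw [Finset.mem_coe, Multiset.mem_toFinset, mem_roots (hq _), IsRoot.def]
    simp only [eval_add, eval_sub, eval_mul, eval_pow, eval_X, eval_C, eval_one]
    rw [hv]
    field_simp
    ring

/-- **DEG: the degrees of the special points of large level** -/
theorem deg_.{u, v} (hGEO : S_GEO) (hTRP : S_TRP.{v}) (h1 : S_TRC.{u, v}) (h2 : S_LOXQ.{v}) (K : Type u) [Field K]
    [NumberField K] (F : K[X]) (n : ℕ) (hn : 2 ≤ n) (hF1 : F.Monic) (hdeg : F.natDegree = n)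
    (hint : ∀ i, IsIntegral ℤ (F.coeff i)) (σ : K →+* ℂ)
    (hcr : ∀ x, (derivative (F.map σ)).eval x = 0 → ((F.map σ).eval x) ^ 2 ≠ 4) :
    ∃ (k₀ : ℕ) (D : Finset (ℤ × ℤ)), ∀ (N : ℕ), 0 < N → ∀ (k E : Type v) [Field k] [NumberField k] [Field E]
      [NumberField E] [Algebra K k] [Algebra K E] [Algebra k E] [IsScalarTower K k E] (ζ : E), IsPrimitiveRoot ζ N →
      (∀ y : k, algebraMap k E y ∈ K⟮ζ⟯) → ∀ (m' : ℕ) (e' c : E) (x' : k), k₀ ≤ m' → IsPrimitiveRoot e' m' →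
      algebraMap k E x' = e' + e'⁻¹ → (F.map (algebraMap K E)).eval c = e' + e'⁻¹ →
      minpoly k c = F.map (algebraMap K k) - C x' ∧
      ∀ (S : E →+* ℂ), S.comp (algebraMap K E) = σ → ∀ (m : ℕ) (e b : E) (x : k), k₀ ≤ m → IsPrimitiveRoot e m →
        algebraMap k E x = e + e⁻¹ → (F.map (algebraMap K E)).eval b = e + e⁻¹ →
        ¬ Bad (F.map σ) D (S e) (S e') → (minpoly k⟮b⟯ c).natDegree = n := by
  classical
  obtain ⟨A, hA0, hA⟩ : ∃ A : ℝ, 0 ≤ A ∧ ∀ (t : K →+* ℂ) (i : ℕ), ‖t (F.coeff i)‖ ≤ A := by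
    obtain ⟨A, hA⟩ := (Set.finite_range fun q : (K →+* ℂ) × Fin (n + 1) => ‖q.1 (F.coeff q.2)‖).bddAbove
    refine ⟨max A 0, le_max_right _ _, fun t i => ?_⟩
    by_cases hi : i < n + 1
    · exact (hA ⟨(t, ⟨i, hi⟩), rfl⟩).trans (le_max_left _ _)
    · rw [coeff_eq_zero_of_natDegree_lt (by omega), map_zero, norm_zero]
      exact le_max_right _ _
  obtain ⟨N₁, Di₁, hDi₁, H₁⟩ := deg_core hGEO hTRP h1 h2 K F n hn hF1 hdeg hint σ hcr X 1 monic_X natDegree_X one_pos 2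
  obtain ⟨N₂, Di₂, hDi₂, H₂⟩ := deg_core hGEO hTRP h1 h2 K F n hn hF1 hdeg hint σ hcr (F.map σ) n (hF1.map σ)
    (by rw [hF1.natDegree_map, hdeg]) (by omega) (A + 2)
  obtain ⟨N₃, hN₃⟩ := Npw.avoid _ (crit_finite (F.map σ) (by rw [hF1.natDegree_map, hdeg]; omega))
  have hle : N₁ ≤ max (max N₁ N₂) (max N₃ 1) := (le_max_left _ _).trans (le_max_left _ _)
  have hle2 : N₂ ≤ max (max N₁ N₂) (max N₃ 1) := (le_max_right _ _).trans (le_max_left _ _)
  have hle3 : N₃ ≤ max (max N₁ N₂) (max N₃ 1) := (le_max_left _ _).trans (le_max_right _ _)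
  have hle4 : 1 ≤ max (max N₁ N₂) (max N₃ 1) := (le_max_right _ _).trans (le_max_right _ _)
  refine ⟨max (max N₁ N₂) (max N₃ 1), hDi₂.toFinset, fun N hN k E _ _ _ _ _ _ _ _ ζ hζ hkζ => ?_⟩
  -- the minimal polynomials
  have hmin : ∀ (m' : ℕ) (e' c : E) (x' : k), max (max N₁ N₂) (max N₃ 1) ≤ m' → IsPrimitiveRoot e' m' →
      algebraMap k E x' = e' + e'⁻¹ → (F.map (algebraMap K E)).eval c = e' + e'⁻¹ →
      minpoly k c = F.map (algebraMap K k) - C x' := by
    intro m' e' c x' hm' he' hx' hc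
    obtain ⟨⟨S, hS⟩⟩ := Pool.Agent.N76.EC.Em_nonempty E σ
    have hgdC : (C x' : k[X]).degree < (F.map (algebraMap K k)).degree := by
      rw [degree_eq_natDegree (hF1.map _).ne_zero, hF1.natDegree_map, hdeg]
      exact lt_of_le_of_lt degree_C_le (by exact_mod_cast (by omega : 0 < n))
    have hg1 : (F.map (algebraMap K k) - C x').Monic := (hF1.map _).sub_of_left hgdC
    have hgn : (F.map (algebraMap K k) - C x').natDegree = n := by rw [natDegree_sub_C, hF1.natDegree_map, hdeg]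
    have hgc : aeval c (F.map (algebraMap K k) - C x') = 0 := by
      rw [map_sub, aeval_map_algebraMap, aeval_C, hx', ← hc, eval_map_algebraMap, sub_self]
    have hci : IsIntegral k c := ⟨_, hg1, by rwa [← aeval_def]⟩
    have h3 := H₁ N hN k E ζ hζ hkζ S hS (X - C 2) (algebraMap k E 2) c e' x' 1 m' (monic_X_sub_C _) (natDegree_X_sub_C _)
      (fun i => by
        have h2i : IsIntegral ℤ (2 : k) := by
          have := isIntegral_algebraMap (R := ℤ) (A := k) (x := (2 : ℤ))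
          simpa using this
        rw [coeff_sub, coeff_X, coeff_C]
        refine IsIntegral.sub ?_ ?_
        · split_ifs
          · exact isIntegral_one
          · exact isIntegral_zero
        · split_ifs
          · exact h2i
          · exact isIntegral_zero) (minpoly.eq_X_sub_C E 2) (fun τ i => by
        rw [coeff_sub, coeff_X, coeff_C]
        by_cases hi0 : i = 0
        · rw [if_neg (by omega), if_pos hi0, zero_sub, map_neg, norm_neg, map_ofNat]
          norm_num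
        · rw [if_neg hi0, sub_zero]
          split_ifs
          · rw [map_one, norm_one]
            norm_num
          · rw [map_zero, norm_zero]
            norm_num) (by
        rw [Polynomial.map_sub, Polynomial.map_X, Polynomial.map_C, map_ofNat]
        norm_num) ⟨1, one_pos, one_pow 1⟩ (fun x _ => by
        rw [derivative_X, eval_one]
        exact one_ne_zero) (hle.trans hm') (by omega) he' hx' hc
    have h4 : (minpoly k⟮algebraMap k E 2⟯ c).natDegree = n := by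
      rcases h3 with h3 | ⟨p, -, -, t, -, ⟨x, hx, -⟩, -⟩
      · exact h3
      · rw [derivative_X, eval_one] at hx
        exact absurd hx one_ne_zero
    have h5 : n ≤ (minpoly k c).natDegree := by
      have h6 := natDegree_le_of_dvd (minpoly.dvd_map_of_isScalarTower k k⟮algebraMap k E 2⟯ c)
        ((minpoly.monic hci).map _).ne_zero
      rwa [h4, (minpoly.monic hci).natDegree_map] at h6
    exact (eq_of_monic_of_dvd_of_natDegree_le (minpoly.monic hci) hg1 (minpoly.dvd _ _ hgc) (by rw [hgn]; exact h5)).symm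
  refine fun m' e' c x' hm' he' hx' hc => ⟨hmin m' e' c x' hm' he' hx' hc, fun S hS m e b x hm he hx hb hbad => ?_⟩
  have hm0 : 0 < m := by omega
  have hm0' : 0 < m' := by omega
  have hxi : IsIntegral ℤ x := by
    have h3 : IsIntegral ℤ (e + e⁻¹) := (he.isIntegral hm0).add (he.inv.isIntegral hm0)
    rw [← hx] at h3
    exact (isIntegral_algebraMap_iff (algebraMap k E).injective).1 h3
  have hfdC : (C x : k[X]).degree < (F.map (algebraMap K k)).degree := by
    rw [degree_eq_natDegree (hF1.map _).ne_zero, hF1.natDegree_map, hdeg]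
    exact lt_of_le_of_lt degree_C_le (by exact_mod_cast (by omega : 0 < n))
  have hτx : ∀ τ : k →+* ℂ, ‖τ x‖ ≤ 2 := by
    intro τ
    obtain ⟨⟨τ', hτ'⟩⟩ := Pool.Agent.N76.EC.Em_nonempty E τ
    have h3 : ‖τ' e‖ = 1 :=
      Complex.norm_eq_one_of_pow_eq_one (by rw [← map_pow, he.pow_eq_one, map_one]) hm0.ne'
    have h4 : τ x = τ' e + (τ' e)⁻¹ := by
      rw [← hτ', RingHom.comp_apply, hx, map_add, map_inv₀]
    rw [h4]
    calc ‖τ' e + (τ' e)⁻¹‖ ≤ ‖τ' e‖ + ‖(τ' e)⁻¹‖ := norm_add_le _ _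
      _ = 2 := by rw [norm_inv, h3]; norm_num
  rcases H₂ N hN k E ζ hζ hkζ S hS (F.map (algebraMap K k) - C x) b c e' x' (S e) m' ((hF1.map _).sub_of_left hfdC)
    (by rw [natDegree_sub_C, hF1.natDegree_map, hdeg]) (fun i => by
      rw [coeff_sub, coeff_map, coeff_C]
      refine IsIntegral.sub ((hint i).map (algebraMap K k).toIntAlgHom) ?_
      split_ifs
      · exact hxi
      · exact isIntegral_zero) (hmin m e b x hm he hx hb) (fun τ i => by
      rw [coeff_sub, coeff_map, coeff_C, map_sub]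
      refine (norm_sub_le _ _).trans (add_le_add (hA (τ.comp (algebraMap K k)) i) ?_)
      split_ifs
      · exact hτx τ
      · rw [map_zero, norm_zero]
        norm_num) (by
      rw [Polynomial.map_sub, Polynomial.map_map, Polynomial.map_C, RingHom.comp_assoc,
        ← IsScalarTower.algebraMap_eq K k E, hS, RingHom.comp_apply, hx, map_add, map_inv₀])
    ⟨m, hm0, by rw [← map_pow, he.pow_eq_one, map_one]⟩ (fun y hy h0 => by
      refine hN₃ m (S e) (he.map_of_injective S.injective) (hle3.trans hm) ⟨?_, y, h0, hy⟩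
      rw [Ne, map_eq_zero]
      exact he.ne_zero hm0.ne') (hle2.trans hm') hm0' he' hx' hc with h3 | ⟨p, hp, h3⟩
  · exact h3
  · exact absurd ⟨p, hDi₂.mem_toFinset.2 hp, h3⟩ hbad

end Pool.Agent.K9h21.GP
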