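import Pool.Agent.K9h21.GP.Stm6

/-!
# Leaf M-END: the values
-/

set_option autoImplicit false

namespace Pool.Agent.K9h21.GP

open Polynomial Filter Topology

namespace END_

/-- comparison of the coefficients of Laurent polynomials -/
theorem cmp (α α' β κ : ℂ) (A B : ℕ) (hα : α ≠ 0) (hα' : α' ≠ 0) (hβ : β ≠ 0) (hA : 0 < A) (hB : 0 < B)
    (Z : Set ℂ) (hZ : Z.Finite) (h0 : (0 : ℂ) ∈ Z)
    (h : ∀ t : ℂ, t ∉ Z → wv α' (B : ℤ) t = β * wv α (A : ℤ) t + κ) :
    α' = β * α ∧ α'⁻¹ = β * α⁻¹ ∧ κ = 0 := by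
  -- the polynomial identity
  have hpoly : (C α' * X ^ (A + 2 * B) + C α'⁻¹ * X ^ A : ℂ[X]) =
      C (β * α) * X ^ (2 * A + B) + C (β * α⁻¹) * X ^ B + C κ * X ^ (A + B) := by
    apply Polynomial.eq_of_infinite_eval_eq
    refine Set.Infinite.mono ?_ hZ.infinite_compl
    intro t ht
    have ht0 : t ≠ 0 := fun e => ht (e ▸ h0)
    have h1 := h t ht
    unfold wv at h1
    rw [zpow_natCast, zpow_natCast] at h1
    have hA' : t ^ A ≠ 0 := pow_ne_zero _ ht0
    have hB' : t ^ B ≠ 0 := pow_ne_zero _ ht0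
    simp only [Set.mem_ofPred_eq, eval_add, eval_mul, eval_C, eval_pow, eval_X]
    have e1 : α' * t ^ (A + 2 * B) + α'⁻¹ * t ^ A = (α' * t ^ B + (α' * t ^ B)⁻¹) * (t ^ A * t ^ B) := by
      rw [mul_inv]
      field_simp
      ring
    have e2 : β * α * t ^ (2 * A + B) + β * α⁻¹ * t ^ B + κ * t ^ (A + B) =
        (β * (α * t ^ A + (α * t ^ A)⁻¹) + κ) * (t ^ A * t ^ B) := by
      rw [mul_inv]
      field_simp
      ring
    rw [e1, e2, h1]
  have hco : ∀ k : ℕ, (if k = A + 2 * B then α' else 0) + (if k = A then α'⁻¹ else 0) =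
      (if k = 2 * A + B then β * α else 0) + (if k = B then β * α⁻¹ else 0) +
        (if k = A + B then κ else 0) := by
    intro k
    have h1 := congrArg (fun p : ℂ[X] => p.coeff k) hpoly
    simp only [coeff_add, coeff_C_mul_X_pow] at h1
    exact h1
  have hAB : A = B := by
    rcases lt_trichotomy A B with hlt | he | hgt
    · exfalso
      have h1 := hco (A + 2 * B)
      rw [if_pos rfl, if_neg (by omega), if_neg (by omega), if_neg (by omega), if_neg (by omega)] at h1
      apply hα'
      linear_combination h1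
    · exact he
    · exfalso
      have h1 := hco (2 * A + B)
      rw [if_neg (by omega), if_neg (by omega), if_pos rfl, if_neg (by omega), if_neg (by omega)] at h1
      apply mul_ne_zero hβ hα
      linear_combination -h1
  subst hAB
  refine ⟨?_, ?_, ?_⟩
  · have h1 := hco (A + 2 * A)
    rw [if_pos rfl, if_neg (by omega), if_pos (by omega), if_neg (by omega), if_neg (by omega)] at h1
    linear_combination h1
  · have h1 := hco A
    rw [if_neg (by omega), if_pos rfl, if_neg (by omega), if_pos rfl, if_neg (by omega)] at h1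
    linear_combination h1
  · have h1 := hco (A + A)
    rw [if_neg (by omega), if_neg (by omega), if_neg (by omega), if_neg (by omega), if_pos rfl] at h1
    linear_combination -h1

end END_

open END_

theorem end2 : S_END2 := by
  intro G n α α' a b γ δ hG hn hn2 hα hα' ha hb hγ hyp
  obtain ⟨A, rfl⟩ : ∃ A : ℕ, a = A := ⟨a.toNat, (Int.toNat_of_nonneg ha.le).symm⟩
  obtain ⟨B, rfl⟩ : ∃ B : ℕ, b = B := ⟨b.toNat, (Int.toNat_of_nonneg hb.le).symm⟩
  have hA : 0 < A := by exact_mod_cast ha
  have hB : 0 < B := by exact_mod_cast hb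
  have hG0 : derivative G ≠ 0 := by
    intro h
    have := derivative_eq_zero.1 h
    omega
  set L : ℂ[X] := C γ * X + C δ with hL
  have hLd : L.natDegree = 1 := natDegree_linear hγ
  have hLc : L.leadingCoeff = γ := leadingCoeff_linear hγ
  have hc1 : (G.comp L).natDegree = n := by rw [natDegree_comp, hLd, hn, mul_one]
  have hc2 : (G.comp L).coeff n = γ ^ n := by
    have h1 := leadingCoeff_comp (p := G) (q := L) (by rw [hLd]; exact one_ne_zero)
    rw [leadingCoeff, hc1, hG.leadingCoeff, hLc, hn, one_mul] at h1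
    exact h1
  -- the exceptional set
  set Z : Set ℂ := {t | t = 0 ∨ (t ≠ 0 ∧ ∃ x, (derivative G).eval x = 0 ∧ G.eval x = wv α (A : ℤ) t)} with hZ
  have hZf : Z.Finite := by
    have h1 : (⋃ x ∈ ((derivative G).roots.toFinset : Set ℂ),
        {t : ℂ | t ≠ 0 ∧ wv α (A : ℤ) t = G.eval x}).Finite :=
      Set.Finite.biUnion ((derivative G).roots.toFinset.finite_toSet)
        fun x _ => GEO_.wv_finite α A hα (by exact_mod_cast hA.ne') _
    refine ((Set.finite_singleton (0 : ℂ)).union h1).subset ?_
    rintro t (ht | ⟨ht, x, hx, hxe⟩)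
    · exact Or.inl ht
    · right
      rw [Set.mem_iUnion₂]
      refine ⟨x, ?_, ht, hxe.symm⟩
      rw [Finset.mem_coe, Multiset.mem_toFinset, mem_roots hG0]
      exact hx
  have h0Z : (0 : ℂ) ∈ Z := Or.inl rfl
  -- the identity
  have hid : ∀ t, t ∉ Z → G.comp L - C (wv α' (B : ℤ) t) = C (γ ^ n) * (G - C (wv α (A : ℤ) t)) := by
    intro t ht
    have ht0 : t ≠ 0 := fun e => ht (Or.inl e)
    have hns : ∀ x, G.eval x = wv α (A : ℤ) t → (derivative G).eval x ≠ 0 := fun x hx hx' =>
      ht (Or.inr ⟨ht0, x, hx', hx⟩)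
    set w := wv α (A : ℤ) t with hw
    have hdegC : degree (C w) < degree G := by
      rw [degree_eq_natDegree hG.ne_zero, hn]
      exact lt_of_le_of_lt degree_C_le (by exact_mod_cast (by omega : 0 < n))
    have hGm : (G - C w).Monic := hG.sub_of_left hdegC
    have hGn : (G - C w).natDegree = n := by rw [natDegree_sub_C, hn]
    have hnd : (G - C w).roots.Nodup := by
      rw [Multiset.nodup_iff_count_le_one]
      intro x
      by_contra hlt
      rw [not_le, count_roots, one_lt_rootMultiplicity_iff_isRoot hGm.ne_zero] at hlt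
      obtain ⟨h1, h2⟩ := hlt
      rw [IsRoot.def, eval_sub, eval_C, sub_eq_zero] at h1
      rw [IsRoot.def, derivative_sub, derivative_C, sub_zero] at h2
      exact hns x h1 h2
    have hcard : (G - C w).roots.toFinset.card = n := by
      rw [Multiset.toFinset_card_of_nodup hnd, ← hGn]
      exact (splits_iff_card_roots (f := G - C w)).1 (IsAlgClosed.splits _)
    rw [← sub_eq_zero]
    apply Polynomial.eq_zero_of_natDegree_lt_card_of_eval_eq_zero' _ (G - C w).roots.toFinset
    · intro x hx
      rw [Multiset.mem_toFinset, mem_roots hGm.ne_zero, IsRoot.def, eval_sub, eval_C, sub_eq_zero] at hx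
      have h1 := hyp t ht0 hns x hx
      simp only [eval_sub, eval_mul, eval_C, eval_comp, hL, eval_add, eval_X]
      rw [h1, hx]
      ring
    · rw [hcard]
      have hle : (G.comp L - C (wv α' (B : ℤ) t) - C (γ ^ n) * (G - C w)).natDegree ≤ n := by
        refine (natDegree_sub_le _ _).trans (max_le ?_ ?_)
        · rw [natDegree_sub_C, hc1]
        · exact (natDegree_C_mul_le _ _).trans hGn.le
      refine lt_of_le_of_ne hle ?_
      intro he
      have h1 : (G.comp L - C (wv α' (B : ℤ) t) - C (γ ^ n) * (G - C w)).coeff n = 0 := by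
        rw [coeff_sub, coeff_sub, hc2, coeff_C_mul, coeff_C_of_ne_zero (by omega)]
        have h2 : (G - C w).coeff n = 1 := by
          have h3 := hGm.coeff_natDegree
          rwa [hGn] at h3
        rw [h2]
        ring
      have h2 : (G.comp L - C (wv α' (B : ℤ) t) - C (γ ^ n) * (G - C w)) = 0 := by
        rw [← leadingCoeff_eq_zero, leadingCoeff, he]
        exact h1
      rw [h2, natDegree_zero] at he
      omega
  -- the constant
  obtain ⟨t₀, ht₀⟩ : ∃ t, t ∉ Z := hZf.infinite_compl.nonempty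
  set κ : ℂ := wv α' (B : ℤ) t₀ - γ ^ n * wv α (A : ℤ) t₀ with hκ
  have hK : G.comp L = C (γ ^ n) * G + C κ := by
    have h1 := hid t₀ ht₀
    rw [hκ, C_sub, C_mul]
    linear_combination h1
  have hrel : ∀ t : ℂ, t ∉ Z → wv α' (B : ℤ) t = γ ^ n * wv α (A : ℤ) t + κ := by
    intro t ht
    have h1 := hid t ht
    have h2 := congrArg (fun p : ℂ[X] => p.eval 0) h1
    rw [hK] at h2
    simp only [eval_sub, eval_add, eval_mul, eval_C] at h2
    linear_combination -h2
  obtain ⟨hv1, hv2, hv3⟩ := cmp α α' (γ ^ n) κ A B hα hα' (pow_ne_zero _ hγ) hA hB Z hZf h0Z hrel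
  have hsq : γ ^ n = 1 ∨ γ ^ n = -1 := by
    have h1 : (γ ^ n) ^ 2 = 1 := by
      have h2 : α' * α'⁻¹ = 1 := mul_inv_cancel₀ hα'
      have h3 : α * α⁻¹ = 1 := mul_inv_cancel₀ hα
      rw [hv2] at h2
      linear_combination h2 - γ ^ n * α⁻¹ * hv1 - (γ ^ n) ^ 2 * h3
    exact sq_eq_one_iff.1 h1
  rcases hsq with h1 | h1
  · left
    rw [hv2, h1, one_mul]
    rw [h1, one_mul] at hv1
    rw [hv1]
  · right
    rw [h1] at hv1 hv2
    refine ⟨by rw [hv2]; linear_combination hv1, ?_⟩
    rw [hK, h1, hv3]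
    simp

theorem end_ : S_END := by
  intro G n α α' a b γ δ hG hn hn2 hα hα' ha hb hγ hyp
  rcases end2 G n α α' a b γ δ hG hn hn2 hα hα' ha hb hγ hyp with h | ⟨h, hK'⟩
  · exact Or.inl h
  · right
    refine ⟨h, ?_⟩
    have hdeg : (derivative G).degree ≠ 0 := by
      intro h
      have h1 : (derivative G).natDegree = 0 := natDegree_eq_of_degree_eq_some h
      rw [natDegree_derivative] at h1
      omega
    obtain ⟨x, hx⟩ := IsAlgClosed.exists_root (derivative G) hdeg
    have hx' : (derivative G).eval x = 0 := hx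
    refine ⟨x, γ * x + δ, hx', ?_, ?_⟩
    · have h2 := congrArg (fun p : ℂ[X] => (derivative p).eval x) hK'
      simp only [derivative_comp, derivative_neg, eval_mul, eval_comp, eval_neg, hx', neg_zero,
        derivative_add, derivative_C, derivative_X, eval_add, eval_C, eval_X, mul_one, add_zero, derivative_mul,
        zero_mul, zero_add, mul_eq_zero, hγ, false_or] at h2
      exact h2
    · have h2 := congrArg (fun p : ℂ[X] => p.eval x) hK'
      simp only [eval_comp, eval_neg, eval_add, eval_mul, eval_C, eval_X] at h2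
      exact h2

end Pool.Agent.K9h21.GP
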