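import Pool.Agent.K9h21.GP.Stm7

set_option autoImplicit false

/-!
# Leaf A-EST (helper90): the roots of `G - v` for large `|v|`
-/

namespace Pool.Agent.K9h21.GP

open Polynomial Filter Topology

namespace EST_

theorem expand (P : ℂ[X]) (m : ℕ) (hP : P.natDegree ≤ m) (x : ℂ) (hx : x ≠ 0) :
    P.eval x = x ^ m * ∑ k ∈ Finset.range (m + 1), P.coeff k * (x⁻¹) ^ (m - k) := by
  rw [Polynomial.eval_eq_sum_range' (Nat.lt_succ_of_le hP), Finset.mul_sum]
  refine Finset.sum_congr rfl fun k hk => ?_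
  rw [Finset.mem_range] at hk
  have h1 : x ^ m = x ^ k * x ^ (m - k) := by rw [← pow_add]; congr 1; omega
  rw [h1, inv_pow]
  have h2 : x ^ (m - k) ≠ 0 := pow_ne_zero _ hx
  field_simp

theorem lim (P : ℂ[X]) (m : ℕ) (hP : P.natDegree ≤ m) :
    Tendsto (fun x => P.eval x / x ^ m) (cocompact ℂ) (𝓝 (P.coeff m)) := by
  have h1 : Continuous fun s : ℂ => ∑ k ∈ Finset.range (m + 1), P.coeff k * s ^ (m - k) := by
    fun_prop
  have h2 : Tendsto (fun s : ℂ => ∑ k ∈ Finset.range (m + 1), P.coeff k * s ^ (m - k)) (𝓝 0)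
      (𝓝 (P.coeff m)) := by
    have h3 := h1.tendsto 0
    have h4 : ∑ k ∈ Finset.range (m + 1), P.coeff k * (0 : ℂ) ^ (m - k) = P.coeff m := by
      rw [Finset.sum_range_succ, Nat.sub_self, pow_zero, mul_one, Finset.sum_eq_zero, zero_add]
      intro k hk
      rw [Finset.mem_range] at hk
      rw [zero_pow (by omega), mul_zero]
    rwa [h4] at h3
  have h5 : Tendsto (fun x : ℂ => x⁻¹) (cocompact ℂ) (𝓝 0) := by
    rw [← Metric.cobounded_eq_cocompact]
    exact tendsto_inv₀_cobounded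
  refine (h2.comp h5).congr' ?_
  have h6 : ∀ᶠ x in cocompact ℂ, x ∈ ({0} : Set ℂ)ᶜ := isCompact_singleton.compl_mem_cocompact
  filter_upwards [h6] with x hx
  have hx0 : x ≠ 0 := hx
  have h7 : x ^ m ≠ 0 := pow_ne_zero _ hx0
  rw [expand P m hP x hx0, mul_div_cancel_left₀ _ h7]
  rfl

theorem large (G : ℂ[X]) (p : ℂ → Prop) (h : ∀ᶠ x in cocompact ℂ, p x) :
    ∃ M : ℝ, 0 < M ∧ ∀ x : ℂ, M ≤ ‖G.eval x‖ → p x := by
  obtain ⟨K, hK, hKp⟩ := mem_cocompact.1 h
  obtain ⟨C, hC⟩ := hK.exists_bound_of_continuousOn (f := fun x => G.eval x) G.continuous.continuousOn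
  refine ⟨|C| + 1, by positivity, fun x hx => ?_⟩
  apply hKp
  intro hxK
  have h1 := hC x hxK
  have h2 := le_abs_self C
  linarith

end EST_

open EST_ in
theorem est : S_EST := by
  intro G n hG hn hn2
  have hc : G.coeff n = 1 := by rw [← hn]; exact hG.coeff_natDegree
  have h0 : ∀ᶠ x in cocompact ℂ, x ∈ ({0} : Set ℂ)ᶜ := isCompact_singleton.compl_mem_cocompact
  constructor
  · intro ε hε
    have h1 := lim G n hn.le
    rw [hc] at h1
    have hd : (derivative G).natDegree ≤ n - 1 := by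
      have := natDegree_derivative_le G
      rwa [hn] at this
    have h2 := lim (derivative G) (n - 1) hd
    have hcd : (derivative G).coeff (n - 1) = n := by
      rw [coeff_derivative, Nat.sub_add_cancel (by omega), hc, one_mul]
      rw [Nat.cast_sub (by omega)]
      push_cast
      ring
    rw [hcd] at h2
    have hn0 : (n : ℂ) ≠ 0 := by
      have : n ≠ 0 := by omega
      exact_mod_cast this
    have h3 : Tendsto (fun x => x ^ n / G.eval x) (cocompact ℂ) (𝓝 1) := by
      have := h1.inv₀ one_ne_zero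
      rw [inv_one] at this
      refine this.congr fun x => ?_
      rw [inv_div]
    have h4 : Tendsto (fun x => n * x ^ (n - 1) / (derivative G).eval x) (cocompact ℂ) (𝓝 1) := by
      have := (h2.inv₀ hn0).const_mul (n : ℂ)
      rw [mul_inv_cancel₀ hn0] at this
      refine this.congr fun x => ?_
      rw [inv_div, mul_div_assoc]
    have h5 : ∀ᶠ x in cocompact ℂ, (derivative G).eval x / x ^ (n - 1) ≠ 0 :=
      h2.eventually_ne hn0
    have h6 : ∀ᶠ x in cocompact ℂ, ‖x ^ n / G.eval x - 1‖ ≤ ε := by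
      have := (Metric.tendsto_nhds.1 h3) ε hε
      filter_upwards [this] with x hx
      rw [← dist_eq_norm]
      exact hx.le
    have h7 : ∀ᶠ x in cocompact ℂ, ‖n * x ^ (n - 1) / (derivative G).eval x - 1‖ ≤ ε := by
      have := (Metric.tendsto_nhds.1 h4) ε hε
      filter_upwards [this] with x hx
      rw [← dist_eq_norm]
      exact hx.le
    obtain ⟨M, hM0, hM⟩ := large G (fun x => x ≠ 0 ∧ (derivative G).eval x ≠ 0 ∧
      ‖x ^ n / G.eval x - 1‖ ≤ ε ∧ ‖n * x ^ (n - 1) / (derivative G).eval x - 1‖ ≤ ε) (by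
        filter_upwards [h0, h5, h6, h7] with x g1 g2 g3 g4
        refine ⟨g1, ?_, g3, g4⟩
        intro hz
        apply g2
        rw [hz, zero_div])
    refine ⟨M, hM0, fun v x hv hx => ?_⟩
    have h8 := hM x (by rw [hx]; exact hv)
    rw [hx] at h8
    exact h8
  · set φ : ℂ × ℂ → ℂ := fun z => ∑ k ∈ Finset.range (n + 1),
      G.coeff k * z.2 ^ (n - k) * ∑ i ∈ Finset.range k, z.1 ^ i with hφ
    have hφc : Continuous φ := by
      rw [hφ]
      fun_prop
    have hφ1 : φ (1, 0) = n := by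
      rw [hφ]
      simp only
      rw [Finset.sum_range_succ, Nat.sub_self, pow_zero, hc, Finset.sum_eq_zero, zero_add]
      · simp
      · intro k hk
        rw [Finset.mem_range] at hk
        rw [zero_pow (by omega), mul_zero, zero_mul]
    have hn0 : (n : ℂ) ≠ 0 := by
      have : n ≠ 0 := by omega
      exact_mod_cast this
    have h1 : ∀ᶠ z in 𝓝 ((1, 0) : ℂ × ℂ), φ z ≠ 0 := by
      apply hφc.continuousAt.eventually_ne
      rw [hφ1]
      exact hn0
    rw [nhds_prod_eq, eventually_prod_iff] at h1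
    obtain ⟨pa, ha, pb, hb, hab⟩ := h1
    obtain ⟨η, hη, hηa⟩ := Metric.eventually_nhds_iff.1 ha
    have h5 : Tendsto (fun x : ℂ => x⁻¹) (cocompact ℂ) (𝓝 0) := by
      rw [← Metric.cobounded_eq_cocompact]
      exact tendsto_inv₀_cobounded
    obtain ⟨M, hM0, hM⟩ := large G (fun x => x ≠ 0 ∧ pb x⁻¹) (by
      filter_upwards [h0, h5.eventually hb] with x g1 g2
      exact ⟨g1, g2⟩)
    refine ⟨η, M, hη, hM0, fun v x x' hv hx hx' hne => ?_⟩
    by_contra hlt
    push Not at hlt
    obtain ⟨hx0, hpb⟩ := hM x' (by rw [hx']; exact hv)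
    have hpa : pa (x / x') := hηa (by rw [dist_eq_norm]; exact hlt)
    have h2 := hab hpa hpb
    apply h2
    have h3 : x' ^ n * (φ (x / x', x'⁻¹) * (x / x' - 1)) = 0 := by
      rw [hφ]
      simp only
      rw [Finset.sum_mul, Finset.mul_sum]
      have h4 : ∀ k ∈ Finset.range (n + 1), x' ^ n * (G.coeff k * x'⁻¹ ^ (n - k) *
          (∑ i ∈ Finset.range k, (x / x') ^ i) * (x / x' - 1)) = G.coeff k * x ^ k - G.coeff k * x' ^ k := by
        intro k hk
        rw [Finset.mem_range] at hk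
        rw [mul_assoc (G.coeff k * x'⁻¹ ^ (n - k)), geom_sum_mul, inv_pow, div_pow]
        have e1 : x' ^ n = x' ^ k * x' ^ (n - k) := by rw [← pow_add]; congr 1; omega
        rw [e1]
        have e2 : x' ^ (n - k) ≠ 0 := pow_ne_zero _ hx0
        have e3 : x' ^ k ≠ 0 := pow_ne_zero _ hx0
        field_simp
      rw [Finset.sum_congr rfl h4, Finset.sum_sub_distrib,
        ← Polynomial.eval_eq_sum_range' (by omega : G.natDegree < n + 1) x,
        ← Polynomial.eval_eq_sum_range' (by omega : G.natDegree < n + 1) x', hx, hx', sub_self]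
    have h6 := (mul_eq_zero.1 h3).resolve_left (pow_ne_zero _ hx0)
    refine (mul_eq_zero.1 h6).resolve_right ?_
    intro h7
    rw [sub_eq_zero, div_eq_one_iff_eq hx0] at h7
    exact hne h7

end Pool.Agent.K9h21.GP
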