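import Pool.Agent.K9h21.GP.Core2

set_option autoImplicit false

/-!
# Project GP: classes and loops
-/

namespace Pool.Agent.K9h21.GP

open Polynomial IntermediateField Module MeasureTheory Set
open Pool.Agent.TH826.MK (KQ Torus symb)
open Pool.Agent.TH826.HD (PRing POpen pent toP pcst pDel)
open Pool.Agent.N76.EC
open Pool.Agent.N76.RG (S_TRC S_LOXQ S_SPG S_DET exact_angle special_angle angle_special nsq_ext exists_loop')
open scoped Real

/-- from the vectors to the classes and the loops -/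
theorem finish.{u, v, w₁} (hDET : S_DET.{v}) {K : Type u} [Field K] [NumberField K] {F : K[X]} {n : ℕ} {σ : K →+* ℂ}
    {η φ₀ ε : ℝ} {B : Fin n → ℂ → ℂ} {X' : Fin n → ℝ → ℂ} (S : Sys (F.map σ) n η φ₀ ε B X') (l : Fin n)
    {L : Type v} [Field L] [NumberField L] [Algebra K L] {N : ℕ} (hN0 : 0 < N) {m : ℕ} (b : Fin (m + 1) → L)
    (hSp : ∀ i, b i ∈ Sp F L N)
    (hind : LinearIndependent ℝ fun (i : Fin m) (s : Em L σ) =>
      P (X' l) (Zp η) (s.1 (b i.succ)) - P (X' l) (Zp η) (s.1 (b 0))) :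
    (∀ (M : Type w₁) [Field M] [Algebra (PRing (F.map (algebraMap K L))) M]
        [IsFractionRing (PRing (F.map (algebraMap K L))) M]
        (f : POpen (F.map (algebraMap K L)) b →+* M)
        (_ : ∀ a : PRing (F.map (algebraMap K L)), f (toP (F.map (algebraMap K L)) b a) = algebraMap _ M a),
        LinearIndependent ℚ fun i : Fin m =>
          KQ.map 2 f (symb (pent (F.map (algebraMap K L)) b i.succ 0))) ∧
      ∃ (s : Fin m → (L →+* ℂ)) (Γ : Fin m → Torus (POpen (F.map (algebraMap K L)) b) 1),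
        Function.Injective s ∧ (∀ i, (s i).comp (algebraMap K L) = σ) ∧
        (∀ i t (y : L), (Γ i).e t (pcst (F.map (algebraMap K L)) b y) = s i y) ∧
        (Matrix.of fun i j : Fin m => (Γ i).reg (symb (pent (F.map (algebraMap K L)) b j.succ 0))).det ≠ 0 := by
  classical
  have hKL : FiniteDimensional K L := FiniteDimensional.right ℚ K L
  have hindQ : LinearIndependent ℚ fun i : Fin m =>
      vv σ X' η (b i.succ) - vv σ X' η (b 0) := by
    have h1 : LinearIndependent ℚ fun (i : Fin m) (s : Em L σ) =>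
        P (X' l) (Zp η) (s.1 (b i.succ)) - P (X' l) (Zp η) (s.1 (b 0)) := by
      refine hind.restrict_scalars ?_
      intro a b hab
      simpa using hab
    exact LinearIndependent.of_comp (LinearMap.funLeft ℚ ℝ fun s : Em L σ => ((s, l) : Em L σ × Fin n)) h1
  refine ⟨fun M _ _ _ f hf => S.classes_independent hN0 hSp hindQ M f hf, ?_⟩
  have hfin : Finite (Em L σ) := inferInstance
  obtain ⟨e, he, hdet⟩ := hDET (Em L σ) m _ hind
  choose Γ hΓ1 hΓ2 using fun i : Fin m => exists_loop' S (e i) hN0 _ hSp l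
  refine ⟨fun i => (e i).1, Γ, fun i j hij => he (Subtype.ext hij), fun i => (e i).2, hΓ1, ?_⟩
  have h1 : (Matrix.of fun i j : Fin m => (Γ i).reg
      (symb (pent (F.map (algebraMap K L)) b j.succ 0))) =
      Matrix.of fun i j : Fin m => P (X' l) (Zp η) ((e i).1 (b j.succ)) -
        P (X' l) (Zp η) ((e i).1 (b 0)) := by
    ext i j
    rw [Matrix.of_apply, Matrix.of_apply, hΓ2]
  rw [h1]
  exact hdet

/-- points of given levels are special points of the product of the levels -/
theorem sp_prod {K : Type*} [Field K] [NumberField K] {F : K[X]} {L : Type*} [Field L] [NumberField L] [Algebra K L]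
    (s₁ : L →+* ℂ) {m : ℕ} (b : Fin m → L) (k : Fin m → ℕ) (hk3 : ∀ i, 3 ≤ k i)
    (hb : ∀ i, (Chebyshev.C L (k i)).eval ((F.map (algebraMap K L)).eval (b i)) = 2 ∧
      ∀ q : ℕ, 0 < q → q < k i → (Chebyshev.C L q).eval ((F.map (algebraMap K L)).eval (b i)) ≠ 2) :
    ∃ N : ℕ, 0 < N ∧ ∀ i, b i ∈ Sp F L N := by
  have hk0 : ∀ i, 0 < k i := fun i => by
    have := hk3 i
    omega
  refine ⟨∏ i, k i, Finset.prod_pos fun i _ => hk0 i, fun i => ?_⟩
  have hN0 : 0 < ∏ i, k i := Finset.prod_pos fun i _ => hk0 i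
  obtain ⟨u, hu⟩ := special_angle s₁ (hk0 i) (hb i).1
  obtain ⟨q, hq⟩ : k i ∣ ∏ i, k i := Finset.dvd_prod_of_mem k (Finset.mem_univ i)
  have hq0 : 0 < q := by
    rcases Nat.eq_zero_or_pos q with h | h
    · rw [h, mul_zero] at hq
      omega
    · exact h
  refine ⟨angle_special s₁ hN0 (u := u * q) ?_, sq_ne (hk3 i) (hb i).2⟩
  rw [hu, hq]
  congr 2
  have h1 : (k i : ℂ) ≠ 0 := Nat.cast_ne_zero.2 (hk0 i).ne'
  have h2 : (q : ℂ) ≠ 0 := Nat.cast_ne_zero.2 hq0.ne'
  push_cast
  field_simp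

/-- independence of the differences, from the constancy on the fibres -/
theorem hind_ {K : Type*} [Field K] {L : Type*} [Field L] [Algebra K L] {σ : K →+* ℂ} (n m p : ℕ) (c : Fin (m + 1) → Fin p)
    (V : Fin (m + 1) → Em L σ → ℝ) (hc : ∀ i, c i ≠ c 0 → (Finset.univ.filter fun j => c j = c i).card < n)
    (h : ∀ (A : Fin (m + 1) → ℝ), ∑ i, A i = 0 → (∀ s : Em L σ, ∑ i, A i * V i s = 0) →
      (∀ i, (Finset.univ.filter fun j => c j = c i).card < n → A i = 0) ∧ ∀ i j, c i = c j → A i = A j) :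
    LinearIndependent ℝ fun (i : Fin m) (s : Em L σ) => V i.succ s - V 0 s := by
  classical
  rw [Fintype.linearIndependent_iff]
  intro a ha
  set A : Fin (m + 1) → ℝ := Fin.cons (-∑ i, a i) a with hA
  have hAsum : ∑ i, A i = 0 := by
    rw [Fin.sum_univ_succ, hA]
    simp only [Fin.cons_zero, Fin.cons_succ]
    ring
  obtain ⟨h1, h2⟩ := h A hAsum (fun s => by
    have h2 := congrFun ha s
    rw [Finset.sum_apply] at h2
    simp only [Pi.smul_apply, smul_eq_mul, Pi.zero_apply, mul_sub, Finset.sum_sub_distrib] at h2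
    rw [← Finset.sum_mul] at h2
    rw [Fin.sum_univ_succ, hA]
    simp only [Fin.cons_zero, Fin.cons_succ]
    linarith)
  have h3 : ∀ i, A i = if c i = c 0 then A 0 else 0 := by
    intro i
    by_cases h : c i = c 0
    · rw [if_pos h]
      exact h2 i 0 h
    · rw [if_neg h]
      exact h1 i (hc i h)
  have h4 : A 0 = 0 := by
    rw [Finset.sum_congr rfl fun i _ => h3 i, ← Finset.sum_filter, Finset.sum_const, nsmul_eq_mul] at hAsum
    refine (mul_eq_zero.1 hAsum).resolve_left ?_
    refine Nat.cast_ne_zero.2 (Finset.card_pos.2 ⟨0, ?_⟩).ne'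
    rw [Finset.mem_filter]
    exact ⟨Finset.mem_univ _, rfl⟩
  intro i
  have h5 := h3 i.succ
  rw [h4, ite_self, hA, Fin.cons_succ] at h5
  exact h5

end Pool.Agent.K9h21.GP
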