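import Pool.Agent.K9h21.GP.Stm8

set_option autoImplicit false

/-! Leaf B-FIN: finitely many common zeros. -/

namespace Pool.Agent.K9h21.GP

open Polynomial

theorem finb_cop {K : Type} [Field K] {f h : K[X]} (hf : Irreducible f) (hd : ¬ f ∣ h) :
    ∃ a b : K[X], a * f + b * h = 1 := (Irreducible.coprime_iff_not_dvd hf).2 hd

theorem finb : S_FIN := by
  intro Φ H hmo hirr hH hdeg
  have hinj : Function.Injective (algebraMap ℂ[X] (FractionRing ℂ[X])) := IsFractionRing.injective _ _
  have h1 : Irreducible (Φ.map (algebraMap ℂ[X] (FractionRing ℂ[X]))) :=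
    (Polynomial.Monic.irreducible_iff_irreducible_map_fraction_map hmo).1 hirr
  have h2 : ¬ Φ.map (algebraMap ℂ[X] (FractionRing ℂ[X])) ∣ H.map (algebraMap ℂ[X] (FractionRing ℂ[X])) := by
    intro hd
    have h0 := Polynomial.eq_zero_of_dvd_of_natDegree_lt hd (by
      rw [natDegree_map_eq_of_injective hinj, natDegree_map_eq_of_injective hinj]; exact hdeg)
    exact hH ((Polynomial.map_eq_zero_iff hinj).1 h0)
  obtain ⟨a, b, hab⟩ := finb_cop h1 h2
  obtain ⟨⟨u, hu⟩, hA⟩ := IsLocalization.integerNormalization_map_to_map (nonZeroDivisors ℂ[X]) a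
  obtain ⟨⟨v, hv⟩, hB⟩ := IsLocalization.integerNormalization_map_to_map (nonZeroDivisors ℂ[X]) b
  generalize IsLocalization.integerNormalization (nonZeroDivisors ℂ[X]) a = A at hA
  generalize IsLocalization.integerNormalization (nonZeroDivisors ℂ[X]) b = B at hB
  have hu0 : u ≠ 0 := nonZeroDivisors.ne_zero hu
  have hv0 : v ≠ 0 := nonZeroDivisors.ne_zero hv
  have hA' : A.map (algebraMap ℂ[X] (FractionRing ℂ[X])) = C (algebraMap ℂ[X] (FractionRing ℂ[X]) u) * a := by
    rw [hA]
    ext i
    simp [Algebra.smul_def]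
  have hB' : B.map (algebraMap ℂ[X] (FractionRing ℂ[X])) = C (algebraMap ℂ[X] (FractionRing ℂ[X]) v) * b := by
    rw [hB]
    ext i
    simp [Algebra.smul_def]
  have key : C v * A * Φ + C u * B * H = C (u * v) := by
    apply Polynomial.map_injective _ hinj
    simp only [Polynomial.map_add, Polynomial.map_mul, Polynomial.map_C, hA', hB', map_mul]
    linear_combination (C (algebraMap ℂ[X] (FractionRing ℂ[X]) u) * C (algebraMap ℂ[X] (FractionRing ℂ[X]) v)) * hab
  have huv : u * v ≠ 0 := mul_ne_zero hu0 hv0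
  refine Set.Finite.subset (u * v).roots.toFinset.finite_toSet ?_
  rintro x ⟨y, hy1, hy2⟩
  rw [Finset.mem_coe, Multiset.mem_toFinset, mem_roots huv, IsRoot.def]
  have h3 := congrArg (fun P : ℂ[X][X] => (P.map (evalRingHom x)).eval y) key
  simp only [Polynomial.map_add, Polynomial.map_mul, Polynomial.map_C, eval_add, eval_mul, eval_C, hy1, hy2, mul_zero,
    add_zero, coe_evalRingHom] at h3
  rw [eval_mul]
  exact h3.symm

end Pool.Agent.K9h21.GP
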