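import Pool.Agent.K9h21.GP.Stm7

/-!
# Leaf A-FOU (helper62): finite Fourier analysis for approximate roots of unity
-/

set_option autoImplicit false

namespace Pool.Agent.K9h21.GP

namespace FOU_

open Finset Filter Topology

lemma norm_le {n : ℕ} (hn : n ≠ 0) {δ : ℝ} (hδ : 0 ≤ δ) {q : ℂ} (h : ‖q ^ n - 1‖ ≤ δ) :
    ‖q‖ ≤ 1 + δ := by
  have h1 : ‖q‖ ^ n ≤ 1 + δ := by
    rw [← norm_pow]
    calc ‖q ^ n‖ = ‖1 + (q ^ n - 1)‖ := by congr 1; ring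
      _ ≤ ‖(1 : ℂ)‖ + ‖q ^ n - 1‖ := norm_add_le _ _
      _ ≤ 1 + δ := by rw [norm_one]; linarith
  have h2 : (1 + δ) ≤ (1 + δ) ^ n := le_self_pow₀ (by linarith) hn
  exact (pow_le_pow_iff_left₀ (norm_nonneg _) (by linarith) hn).1 (h1.trans h2)

lemma real_aux {s a : ℝ} (hs : 0 < s) (h1 : s ≤ a) (h2 : s⁻¹ ≤ a) :
    |s ^ 2 - 1| * s⁻¹ ≤ a ^ 2 - 1 := by
  rcases le_or_gt 1 s with h | h
  · have h3 : 0 ≤ s ^ 2 - 1 := by nlinarith
    have h4 : s⁻¹ ≤ 1 := inv_le_one_of_one_le₀ h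
    rw [abs_of_nonneg h3]
    nlinarith [mul_le_mul_of_nonneg_left h4 h3]
  · have h3 : s ^ 2 - 1 ≤ 0 := by nlinarith
    have h4 : 1 ≤ s⁻¹ := (one_le_inv₀ hs).2 h.le
    have h5 : s * s⁻¹ = 1 := mul_inv_cancel₀ hs.ne'
    rw [abs_of_nonpos h3]
    have e : -(s ^ 2 - 1) * s⁻¹ = s⁻¹ - s := by
      have : s ^ 2 * s⁻¹ = s := by rw [sq, mul_assoc, h5, mul_one]
      linear_combination -this
    rw [e]
    have h6 : s⁻¹ - s ≤ s⁻¹ ^ 2 - 1 := by nlinarith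
    nlinarith

lemma conj_inv {u : ℂ} {a : ℝ} (hu : u ≠ 0) (h1 : ‖u‖ ≤ a) (h2 : ‖u⁻¹‖ ≤ a) :
    ‖(starRingEnd ℂ) u - u⁻¹‖ ≤ a ^ 2 - 1 := by
  have e : (starRingEnd ℂ) u - u⁻¹ = ((‖u‖ ^ 2 - 1 : ℝ) : ℂ) * u⁻¹ := by
    have h3 : (starRingEnd ℂ) u * u = ((‖u‖ ^ 2 : ℝ) : ℂ) := by
      rw [Complex.conj_mul']
      push_cast
      rfl
    have h4 : (starRingEnd ℂ) u = ((‖u‖ ^ 2 : ℝ) : ℂ) * u⁻¹ := by
      rw [← h3, mul_assoc, mul_inv_cancel₀ hu, mul_one]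
    rw [h4]
    push_cast
    ring
  rw [e, norm_mul, Complex.norm_real, Real.norm_eq_abs, norm_inv]
  rw [norm_inv] at h2
  exact real_aux (norm_pos_iff.2 hu) h1 h2

open Classical in
lemma FC_diff (R R' : Finset ℂ) (Z : ℂ → ℂ → Prop) (f g f' g' : ℂ → ℂ) (c : ℝ)
    (hc : 0 ≤ c) (h : ∀ x ∈ R, ∀ y ∈ R', ‖(starRingEnd ℂ) (f x * g y) - f' x * g' y‖ ≤ c) :
    ‖(starRingEnd ℂ) (FC R R' Z f g) - FC R R' Z f' g'‖ ≤ R.card * R'.card * c := by
  unfold FC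
  rw [map_sum, ← Finset.sum_sub_distrib]
  refine (norm_sum_le _ _).trans ?_
  rw [mul_assoc, ← nsmul_eq_mul, ← nsmul_eq_mul]
  refine Finset.sum_le_card_nsmul _ _ _ fun x hx => ?_
  rw [map_sum, ← Finset.sum_sub_distrib]
  refine (norm_sum_le _ _).trans ?_
  refine Finset.sum_le_card_nsmul _ _ _ fun y hy => ?_
  by_cases hZ : Z x y
  · rw [if_pos hZ, if_pos hZ]
    exact h x hx y hy
  · rw [if_neg hZ, if_neg hZ]
    simpa using hc

open Classical in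
lemma FC_sum (R R' : Finset ℂ) (Z : ℂ → ℂ → Prop) (n : ℕ) (f g : ℕ → ℂ → ℂ) :
    ∑ i ∈ range n, ∑ k ∈ range n, FC R R' Z (f i) (g k) =
      ∑ x ∈ R, ∑ y ∈ R', if Z x y then (∑ i ∈ range n, f i x) * ∑ k ∈ range n, g k y else 0 := by
  unfold FC
  have h1 : ∀ i ∈ range n, ∑ k ∈ range n, ∑ x ∈ R, ∑ y ∈ R', (if Z x y then f i x * g k y else 0) =
      ∑ x ∈ R, ∑ y ∈ R', ∑ k ∈ range n, (if Z x y then f i x * g k y else 0) := fun i _ => by
    rw [Finset.sum_comm]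
    refine Finset.sum_congr rfl fun x _ => ?_
    rw [Finset.sum_comm]
  rw [Finset.sum_congr rfl h1, Finset.sum_comm]
  refine Finset.sum_congr rfl fun x _ => ?_
  rw [Finset.sum_comm]
  refine Finset.sum_congr rfl fun y _ => ?_
  by_cases hZ : Z x y
  · simp only [if_pos hZ]
    rw [Finset.sum_mul_sum]
  · simp [if_neg hZ]

/-- the geometric sums -/
lemma geoS {n : ℕ} {δ η : ℝ} (hη : 0 < η) {q : ℂ} (h : ‖q ^ n - 1‖ ≤ δ) (h' : η ≤ ‖q - 1‖) :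
    ‖∑ i ∈ range n, q ^ i‖ ≤ δ / η := by
  have h1 := geom_sum_mul q n
  have h2 : ‖∑ i ∈ range n, q ^ i‖ * ‖q - 1‖ ≤ δ := by rw [← norm_mul, h1]; exact h
  rw [le_div_iff₀ hη]
  exact (mul_le_mul_of_nonneg_left h' (norm_nonneg _)).trans h2

open Classical in
lemma part1 {n : ℕ} (hn : 2 ≤ n) {η δ : ℝ} (hη : 0 < η) (hδ : 0 < δ) (hδη : δ ≤ η)
    (R R' : Finset ℂ) (Z : ℂ → ℂ → Prop) (hR : R.card = n) (hR' : R'.card = n)
    (f g : ℕ → ℂ → ℂ) {x₀ y₀ : ℂ} (hx₀ : x₀ ∈ R) (hy₀ : y₀ ∈ R')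
    (h1 : ∑ i ∈ range n, f i x₀ = n) (h1' : ∀ x ∈ R, x ≠ x₀ → ‖∑ i ∈ range n, f i x‖ ≤ δ / η)
    (h2 : ∑ i ∈ range n, g i y₀ = n) (h2' : ∀ y ∈ R', y ≠ y₀ → ‖∑ i ∈ range n, g i y‖ ≤ δ / η) :
    ‖(if Z x₀ y₀ then (1 : ℂ) else 0) - (∑ i ∈ range n, ∑ k ∈ range n,
      FC R R' Z (f i) (g k)) / (n : ℂ) ^ 2‖ ≤ (2 * n + 1) * (δ / η) := by
  have hr : 0 ≤ δ / η := (div_pos hδ hη).le
  have hr1 : δ / η ≤ 1 := (div_le_one hη).2 hδη
  have hn0 : (n : ℂ) ≠ 0 := by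
    have : n ≠ 0 := by omega
    exact_mod_cast this
  have hn1 : (0 : ℝ) ≤ n := Nat.cast_nonneg n
  rw [FC_sum]
  set S : ℂ → ℂ := fun x => ∑ i ∈ range n, f i x with hS
  set T : ℂ → ℂ := fun y => ∑ i ∈ range n, g i y with hT
  have e1 : (∑ x ∈ R, ∑ y ∈ R', if Z x y then (if x = x₀ then (n : ℂ) else 0) *
      (if y = y₀ then (n : ℂ) else 0) else 0) = if Z x₀ y₀ then (n : ℂ) ^ 2 else 0 := by
    rw [Finset.sum_eq_single x₀, Finset.sum_eq_single y₀]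
    · simp [sq]
    · intro y _ hy
      simp [hy]
    · intro h
      exact absurd hy₀ h
    · intro x _ hx
      simp [hx]
    · intro h
      exact absurd hx₀ h
  have b1 : ∀ x ∈ R, ‖S x - (if x = x₀ then (n : ℂ) else 0)‖ ≤ δ / η := fun x hx => by
    by_cases h : x = x₀
    · rw [if_pos h, h, hS]
      simp only
      rw [h1, sub_self, norm_zero]
      exact hr
    · rw [if_neg h, sub_zero]
      exact h1' x hx h
  have b2 : ∀ y ∈ R', ‖T y - (if y = y₀ then (n : ℂ) else 0)‖ ≤ δ / η := fun y hy => by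
    by_cases h : y = y₀
    · rw [if_pos h, h, hT]
      simp only
      rw [h2, sub_self, norm_zero]
      exact hr
    · rw [if_neg h, sub_zero]
      exact h2' y hy h
  have b3 : ∀ P : Prop, [Decidable P] → ‖(if P then (n : ℂ) else 0)‖ ≤ n := fun P _ => by
    by_cases h : P
    · rw [if_pos h, Complex.norm_natCast]
    · rw [if_neg h, norm_zero]
      exact hn1
  have e2 : (if Z x₀ y₀ then (1 : ℂ) else 0) -
      (∑ x ∈ R, ∑ y ∈ R', if Z x y then S x * T y else 0) / (n : ℂ) ^ 2 =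
      -(∑ x ∈ R, ∑ y ∈ R', ((if Z x y then S x * T y else 0) -
        (if Z x y then (if x = x₀ then (n : ℂ) else 0) * (if y = y₀ then (n : ℂ) else 0) else 0))) /
          (n : ℂ) ^ 2 := by
    simp only [Finset.sum_sub_distrib]
    rw [e1]
    field_simp
    split_ifs <;> ring
  rw [e2, norm_div, norm_neg, norm_pow, Complex.norm_natCast]
  have hn2 : (0 : ℝ) < (n : ℝ) ^ 2 := by
    have : (0 : ℝ) < n := by
      have : 0 < n := by omega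
      exact_mod_cast this
    positivity
  rw [div_le_iff₀ hn2]
  refine (norm_sum_le _ _).trans ?_
  have b4 : ∀ x ∈ R, ‖∑ y ∈ R', ((if Z x y then S x * T y else 0) -
        (if Z x y then (if x = x₀ then (n : ℂ) else 0) * (if y = y₀ then (n : ℂ) else 0) else 0))‖ ≤
        n * ((2 * n + 1) * (δ / η)) := fun x hx => by
    refine (norm_sum_le _ _).trans ?_
    have b5 : ∀ y ∈ R', ‖((if Z x y then S x * T y else 0) -
        (if Z x y then (if x = x₀ then (n : ℂ) else 0) * (if y = y₀ then (n : ℂ) else 0) else 0))‖ ≤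
        (2 * n + 1) * (δ / η) := fun y hy => by
      by_cases hZ : Z x y
      · rw [if_pos hZ, if_pos hZ]
        set e := (if x = x₀ then (n : ℂ) else 0) with he
        set e' := (if y = y₀ then (n : ℂ) else 0) with he'
        have e3 : S x * T y - e * e' = (S x - e) * T y + e * (T y - e') := by ring
        have e4 : T y = (T y - e') + e' := by ring
        have b6 : ‖T y‖ ≤ 1 + n := by
          rw [e4]
          exact (norm_add_le _ _).trans (add_le_add ((b2 y hy).trans hr1) (b3 _))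
        rw [e3]
        refine (norm_add_le _ _).trans ?_
        rw [norm_mul, norm_mul]
        have b7 := mul_le_mul (b1 x hx) b6 (norm_nonneg _) hr
        have b8 := mul_le_mul (b3 (x = x₀)) (b2 y hy) (norm_nonneg _) hn1
        calc _ ≤ δ / η * (1 + n) + n * (δ / η) := add_le_add b7 b8
          _ = _ := by ring
      · rw [if_neg hZ, if_neg hZ, sub_zero, norm_zero]
        positivity
    have b6 := Finset.sum_le_card_nsmul R' _ _ b5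
    rw [hR', nsmul_eq_mul] at b6
    exact b6
  have b5 := Finset.sum_le_card_nsmul R _ _ b4
  rw [hR, nsmul_eq_mul] at b5
  refine b5.trans (le_of_eq ?_)
  ring

end FOU_

open FOU_ in
open Classical in
theorem fou : S_FOU := by
  intro n η ε hn hη hε
  have hn0 : n ≠ 0 := by omega
  -- the choice of `δ`
  have hF : Filter.Tendsto (fun δ : ℝ => (n : ℝ) * n * (((1 + δ) ^ (2 * n)) ^ 2 - 1 +
      3 * (1 + δ) ^ (2 * n) * δ)) (nhdsWithin 0 (Set.Ioi 0)) (nhds 0) := by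
    have hc : Continuous (fun δ : ℝ => (n : ℝ) * n * (((1 + δ) ^ (2 * n)) ^ 2 - 1 +
      3 * (1 + δ) ^ (2 * n) * δ)) := by fun_prop
    have := (hc.tendsto 0).mono_left (nhdsWithin_le_nhds (s := Set.Ioi 0))
    simpa using this
  have h1 := hF.eventually (gt_mem_nhds hε)
  have hG : Filter.Tendsto (fun δ : ℝ => (2 * (n : ℝ) + 1) * (δ / η)) (nhdsWithin 0 (Set.Ioi 0))
      (nhds 0) := by
    have hc : Continuous (fun δ : ℝ => (2 * (n : ℝ) + 1) * (δ / η)) := by fun_prop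
    have := (hc.tendsto 0).mono_left (nhdsWithin_le_nhds (s := Set.Ioi 0))
    simpa using this
  have h2 := hG.eventually (gt_mem_nhds hε)
  have h3 : ∀ᶠ δ : ℝ in nhdsWithin 0 (Set.Ioi 0), δ < η :=
    mem_nhdsWithin_of_mem_nhds (gt_mem_nhds hη)
  have h4 : ∀ᶠ δ : ℝ in nhdsWithin 0 (Set.Ioi 0), δ < 1 :=
    mem_nhdsWithin_of_mem_nhds (gt_mem_nhds one_pos)
  have h5 : ∀ᶠ δ : ℝ in nhdsWithin 0 (Set.Ioi 0), 0 < δ := self_mem_nhdsWithin
  obtain ⟨δ, hF', hG', hδη, hδ1, hδ⟩ := (h1.and (h2.and (h3.and (h4.and h5)))).exists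
  refine ⟨δ, hδ, ?_⟩
  intro R R' Z hR hR' hR0 hR0' hq hq' x₀ hx₀ y₀ hy₀
  have hx0 := hR0 x₀ hx₀
  have hy0 := hR0' y₀ hy₀
  -- the bounds
  have hone : (1 : ℝ) ≤ 1 + δ := by linarith
  have pw : ∀ i k, i < n → k < n → (1 + δ) ^ i * (1 + δ) ^ k ≤ (1 + δ) ^ (2 * n) := by
    intro i k hi hk
    rw [← pow_add]
    exact pow_le_pow_right₀ hone (by omega)
  have bq : ∀ x ∈ R, ‖x₀ / x‖ ≤ 1 + δ ∧ ‖x / x₀‖ ≤ 1 + δ := fun x hx =>
    ⟨norm_le hn0 hδ.le (hq x₀ hx₀ x hx).1, norm_le hn0 hδ.le (hq x hx x₀ hx₀).1⟩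
  have bp : ∀ y ∈ R', ‖y / y₀‖ ≤ 1 + δ ∧ ‖y₀ / y‖ ≤ 1 + δ := fun y hy =>
    ⟨norm_le hn0 hδ.le (hq' y hy y₀ hy₀).1, norm_le hn0 hδ.le (hq' y₀ hy₀ y hy).1⟩
  have key : ∀ i k, i < n → k < n → ∀ x ∈ R, ∀ y ∈ R',
      ‖(starRingEnd ℂ) ((x₀ / x) ^ i * (y / y₀) ^ k) - (x / x₀) ^ i * (y₀ / y) ^ k‖ ≤
        ((1 + δ) ^ (2 * n)) ^ 2 - 1 ∧ ‖(x / x₀) ^ i * (y₀ / y) ^ k‖ ≤ (1 + δ) ^ (2 * n) := by
    intro i k hi hk x hx y hy
    have e : (x / x₀) ^ i * (y₀ / y) ^ k = ((x₀ / x) ^ i * (y / y₀) ^ k)⁻¹ := by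
      rw [mul_inv, ← inv_pow, ← inv_pow, inv_div, inv_div]
    have hu : (x₀ / x) ^ i * (y / y₀) ^ k ≠ 0 :=
      mul_ne_zero (pow_ne_zero _ (div_ne_zero hx0 (hR0 x hx)))
        (pow_ne_zero _ (div_ne_zero (hR0' y hy) hy0))
    have hu1 : ‖(x₀ / x) ^ i * (y / y₀) ^ k‖ ≤ (1 + δ) ^ (2 * n) := by
      rw [norm_mul, norm_pow, norm_pow]
      exact (mul_le_mul (pow_le_pow_left₀ (norm_nonneg _) (bq x hx).1 _)
        (pow_le_pow_left₀ (norm_nonneg _) (bp y hy).1 _) (by positivity) (by positivity)).trans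
          (pw i k hi hk)
    have hu2 : ‖(x / x₀) ^ i * (y₀ / y) ^ k‖ ≤ (1 + δ) ^ (2 * n) := by
      rw [norm_mul, norm_pow, norm_pow]
      exact (mul_le_mul (pow_le_pow_left₀ (norm_nonneg _) (bq x hx).2 _)
        (pow_le_pow_left₀ (norm_nonneg _) (bp y hy).2 _) (by positivity) (by positivity)).trans
          (pw i k hi hk)
    refine ⟨?_, hu2⟩
    rw [e] at hu2 ⊢
    exact conj_inv hu hu1 hu2
  have hA1 : 0 ≤ ((1 + δ) ^ (2 * n)) ^ 2 - 1 := by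
    have : 1 ≤ ((1 + δ) ^ (2 * n)) ^ 2 := one_le_pow₀ (one_le_pow₀ hone)
    linarith
  have hA2 : 0 ≤ 3 * (1 + δ) ^ (2 * n) * δ := by positivity
  have hnn : (0 : ℝ) ≤ (n : ℝ) * n := by positivity
  refine ⟨?_, ?_, ?_⟩
  · refine (part1 hn hη hδ hδη.le R R' Z hR hR' (fun i x => (x₀ / x) ^ i)
      (fun k y => (y / y₀) ^ k) hx₀ hy₀ ?_ ?_ ?_ ?_).trans hG'.le
    · simp [div_self hx0]
    · intro x hx hne
      exact geoS hη (hq x₀ hx₀ x hx).1 ((hq x₀ hx₀ x hx).2 (Ne.symm hne))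
    · simp [div_self hy0]
    · intro y hy hne
      exact geoS hη (hq' y hy y₀ hy₀).1 ((hq' y hy y₀ hy₀).2 hne)
  · intro i k hi hk
    refine (FC_diff R R' Z _ _ _ _ _ hA1 fun x hx y hy => (key i k hi hk x hx y hy).1).trans ?_
    rw [hR, hR']
    refine le_trans ?_ hF'.le
    exact mul_le_mul_of_nonneg_left (by linarith) hnn
  · intro i k hi0 hk0 hi hk
    refine (FC_diff R R' Z _ _ _ _ (((1 + δ) ^ (2 * n)) ^ 2 - 1 + 3 * (1 + δ) ^ (2 * n) * δ)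
      (by linarith) fun x hx y hy => ?_).trans ?_
    · obtain ⟨k1, k2⟩ := key i k hi hk x hx y hy
      have hxx := hR0 x hx
      have hyy := hR0' y hy
      set q := x₀ / x with hqd
      set p := y / y₀ with hpd
      have hq0 : q ≠ 0 := div_ne_zero hx0 hxx
      have hp0 : p ≠ 0 := div_ne_zero hyy hy0
      have e1 : x / x₀ = q⁻¹ := by rw [hqd, inv_div]
      have e2 : y₀ / y = p⁻¹ := by rw [hpd, inv_div]
      rw [e1, e2] at k1 k2
      have e3 : q ^ (n - i) * p ^ (n - k) = (q⁻¹ ^ i * p⁻¹ ^ k) * (q ^ n * p ^ n) := by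
        rw [pow_sub₀ q hq0 hi.le, pow_sub₀ p hp0 hk.le, inv_pow, inv_pow]
        ring
      have c1 : ‖q ^ n - 1‖ ≤ δ := (hq x₀ hx₀ x hx).1
      have c2 : ‖p ^ n - 1‖ ≤ δ := (hq' y hy y₀ hy₀).1
      have c3 : ‖q ^ n * p ^ n - 1‖ ≤ 3 * δ := by
        have e4 : q ^ n * p ^ n - 1 = (q ^ n - 1) * (p ^ n - 1) + (q ^ n - 1) + (p ^ n - 1) := by
          ring
        rw [e4]
        refine (norm_add_le _ _).trans ?_
        refine (add_le_add_left (norm_add_le _ _) _).trans ?_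
        rw [norm_mul]
        have := mul_le_mul c1 c2 (norm_nonneg _) hδ.le
        nlinarith
      have e5 : (starRingEnd ℂ) (q ^ i * p ^ k) - q ^ (n - i) * p ^ (n - k) =
          ((starRingEnd ℂ) (q ^ i * p ^ k) - q⁻¹ ^ i * p⁻¹ ^ k) -
            (q⁻¹ ^ i * p⁻¹ ^ k) * (q ^ n * p ^ n - 1) := by
        rw [e3]; ring
      rw [e5]
      refine (norm_sub_le _ _).trans (add_le_add k1 ?_)
      rw [norm_mul]
      calc ‖q⁻¹ ^ i * p⁻¹ ^ k‖ * ‖q ^ n * p ^ n - 1‖ ≤ (1 + δ) ^ (2 * n) * (3 * δ) :=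
            mul_le_mul k2 c3 (norm_nonneg _) (by positivity)
        _ = _ := by ring
    · rw [hR, hR']
      exact hF'.le

end Pool.Agent.K9h21.GP
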