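import Pool.Agent.K9h21.GP.Stm2

set_option autoImplicit false

/-!
# Project GP, second part: critical values which are independent up to sign. Statement which needs only Mathlib.
-/

namespace Pool.Agent.K9h21.GP

open Polynomial

/-- the critical values `α + 1/α` of `G` are multiplicatively independent, up to sign: if `α ^ a β ^ b` is a root of unity for
critical values `α + 1/α`, `β + 1/β` then `a = b = 0`, or the two critical values are equal up to sign and `a = ± b`. (So no `α`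
is a root of unity.) -/
def MI2 (G : ℂ[X]) : Prop := ∀ x y α β : ℂ, (derivative G).eval x = 0 → (derivative G).eval y = 0 → α ≠ 0 → β ≠ 0 →
  G.eval x = α + α⁻¹ → G.eval y = β + β⁻¹ → ∀ (a b : ℤ) (N : ℕ), 0 < N → (α ^ a * β ^ b) ^ N = 1 →
  (a = 0 ∧ b = 0) ∨ ((G.eval y = G.eval x ∨ G.eval y = -G.eval x) ∧ (a = b ∨ a = -b))

/-- MIB2: bad pairs. (As `S_MIB`; now `β = ± α^{±1}`, `b = ± a`.) -/
def S_MIB2 : Prop := ∀ (G : ℂ[X]) (D : Finset (ℤ × ℤ)), MI2 G → ∀ ζ ζ' : ℂ, (∃ n : ℕ, 0 < n ∧ ζ ^ n = 1) →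
  (∃ n : ℕ, 0 < n ∧ ζ' ^ n = 1) → Bad G D ζ ζ' → ζ' + ζ'⁻¹ = ζ + ζ⁻¹ ∨ (ζ' + ζ'⁻¹ = -(ζ + ζ⁻¹) ∧
    ∃ x y : ℂ, (derivative G).eval x = 0 ∧ (derivative G).eval y = 0 ∧ G.eval y = -G.eval x)

end Pool.Agent.K9h21.GP
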