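import Pool.Agent.K9h21.GP.Fin
import Pool.Agent.K9h21.GP.Stm4

set_option autoImplicit false

/-!
# Project GP: polynomials with independent critical values
-/

namespace Pool.Agent.K9h21.GP

open Polynomial IntermediateField Module MeasureTheory Set
open Pool.Agent.TH826.MK (KQ Torus symb)
open Pool.Agent.TH826.HD (PRing POpen pent toP pcst pDel)
open Pool.Agent.N76.EC
open Pool.Agent.N76.RG (S_TRC S_LOXQ S_SPG S_DET exact_angle special_angle angle_special nsq_ext exists_loop')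
open scoped Real

/-- the root of unity of a special value -/
theorem exists_xi {L : Type*} [Field L] (s₁ : L →+* ℂ) {k : ℕ} (hk : 0 < k) {x : L}
    (h1 : (Chebyshev.C L k).eval x = 2) (h2 : ∀ m : ℕ, 0 < m → m < k → (Chebyshev.C L m).eval x ≠ 2) :
    ∃ ξ : ℂ, IsPrimitiveRoot ξ k ∧ s₁ x = ξ + ξ⁻¹ := by
  obtain ⟨u, hu1, hu2⟩ := exact_angle s₁ hk h1 h2
  have e : Complex.exp (2 * π * Complex.I * (u / k)) = Complex.exp ((2 * π * u / (k : ℂ)) * Complex.I) := by
    congr 1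
    ring
  refine ⟨Complex.exp (2 * π * Complex.I * (u / k)), Complex.isPrimitiveRoot_exp_of_coprime u k hk.ne' hu1, ?_⟩
  rw [hu2, e, ← Complex.exp_neg, Complex.cos, mul_div_cancel₀ _ two_ne_zero, neg_mul]

/-- **Special points of all large levels, independent critical values.** -/
theorem strong2.{u, v, w₁} (hGEO : S_GEO) (hTRP : S_TRP.{v}) (hAVG : S_AVGG.{v, v}) (hWN2 : S_WN2) (hMIB : S_MIB2)
    (h1 : S_TRC.{u, v}) (h2 : S_LOXQ.{v}) (hSPG : S_SPG.{u, v}) (hDET : S_DET.{v}) (K : Type u) [Field K] [NumberField K]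
    (F : K[X]) (n : ℕ) (hn : 2 ≤ n) (hF1 : F.Monic) (hdeg : F.natDegree = n) (hint : ∀ i, IsIntegral ℤ (F.coeff i))
    (hsq : Squarefree (F ^ 2 - 4)) (σ : K →+* ℂ) (hMI : MI2 (F.map σ)) :
    ∃ k₀ : ℕ, 3 ≤ k₀ ∧ ∀ (L : Type v) [Field L] [NumberField L] [Algebra K L] (m : ℕ) (b : Fin (m + 1) → L)
      (k : Fin (m + 1) → ℕ), Function.Injective b →
      (∀ i, k₀ ≤ k i ∧ (Chebyshev.C L (k i)).eval ((F.map (algebraMap K L)).eval (b i)) = 2 ∧
        ∀ q : ℕ, 0 < q → q < k i → (Chebyshev.C L q).eval ((F.map (algebraMap K L)).eval (b i)) ≠ 2) →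
      ((∃ x y : ℂ, (derivative (F.map σ)).eval x = 0 ∧ (derivative (F.map σ)).eval y = 0 ∧
        (F.map σ).eval y = -(F.map σ).eval x) →
          ∀ i j, (F.map (algebraMap K L)).eval (b i) ≠ -(F.map (algebraMap K L)).eval (b j)) →
      (∀ i, (F.map (algebraMap K L)).eval (b i) ≠ (F.map (algebraMap K L)).eval (b 0) →
        Nat.card {j // (F.map (algebraMap K L)).eval (b j) = (F.map (algebraMap K L)).eval (b i)} < n) →
      (∃ N : ℕ, 0 < N ∧ ∀ i, b i ∈ Sp F L N) ∧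
      (∀ (M : Type w₁) [Field M] [Algebra (PRing (F.map (algebraMap K L))) M]
        [IsFractionRing (PRing (F.map (algebraMap K L))) M]
        (f : POpen (F.map (algebraMap K L)) b →+* M)
        (_ : ∀ a : PRing (F.map (algebraMap K L)), f (toP (F.map (algebraMap K L)) b a) = algebraMap _ M a),
        LinearIndependent ℚ fun i : Fin m =>
          KQ.map 2 f (symb (pent (F.map (algebraMap K L)) b i.succ 0))) ∧
      ∃ (s : Fin m → (L →+* ℂ)) (Γ : Fin m → Torus (POpen (F.map (algebraMap K L)) b) 1),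
        Function.Injective s ∧ (∀ i, (s i).comp (algebraMap K L) = σ) ∧
        (∀ i t (y : L), (Γ i).e t (pcst (F.map (algebraMap K L)) b y) = s i y) ∧
        (Matrix.of fun i j : Fin m => (Γ i).reg (symb (pent (F.map (algebraMap K L)) b j.succ 0))).det ≠ 0 := by
  classical
  have hn0 : 0 < n := by omega
  obtain ⟨η, φ₀, ε, B, X', S⟩ := exists_sys (hF1.map σ) hn0 (by rw [hF1.natDegree_map, hdeg])
    (Pool.Agent.N76.EC.not_crit' hsq σ (by norm_num)) (Pool.Agent.N76.EC.not_crit' hsq σ (by norm_num))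
  set l : Fin n := ⟨0, hn0⟩ with hl
  obtain ⟨k₀, D, hk₀, hmain⟩ := core2 hGEO hTRP hAVG hWN2 h1 h2 hSPG K F n hn hF1 hdeg hint hsq σ S l
  refine ⟨k₀, hk₀, fun L _ _ _ m b k hbinj hb hb0 hbT => ?_⟩
  set Fl : L[X] := F.map (algebraMap K L) with hFl
  obtain ⟨⟨s₁, hs₁⟩⟩ := Em_nonempty L σ
  have hk3 : ∀ i, 3 ≤ k i := fun i => hk₀.trans (hb i).1
  have hk0 : ∀ i, 0 < k i := fun i => by
    have := hk3 i
    omega
  obtain ⟨N, hN0, hSp⟩ := sp_prod (F := F) s₁ b k hk3 fun i => (hb i).2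
  -- the values
  obtain ⟨p, hp⟩ : ∃ p, (Finset.univ.image fun i => Fl.eval (b i)).card = p := ⟨_, rfl⟩
  have eq := (Finset.univ.image fun i => Fl.eval (b i)).equivFinOfCardEq hp
  set w : Fin p → L := fun a => (eq.symm a).1 with hw
  set c : Fin (m + 1) → Fin p := fun i => eq ⟨Fl.eval (b i), Finset.mem_image_of_mem _ (Finset.mem_univ i)⟩ with hc
  have hwc : ∀ i, w (c i) = Fl.eval (b i) := fun i => by
    rw [hw, hc]
    simp only [Equiv.symm_apply_apply]
  have hwinj : Function.Injective w := fun a a' h => eq.symm.injective (Subtype.ext h)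
  have hcc : ∀ i j, c i = c j ↔ Fl.eval (b i) = Fl.eval (b j) := by
    intro i j
    rw [← hwc, ← hwc]
    exact hwinj.eq_iff.symm
  have hidx : ∀ a, ∃ i, Fl.eval (b i) = w a := by
    intro a
    obtain ⟨i, -, hi⟩ := Finset.mem_image.1 (eq.symm a).2
    exact ⟨i, hi⟩
  choose idx hidx using hidx
  choose ξ hξ1 hξ2 using fun a => exists_xi s₁ (hk0 (idx a)) (hb (idx a)).2.1 (hb (idx a)).2.2
  have hbad : ∀ a a', a ≠ a' → ¬ Bad (F.map σ) D (ξ a) (ξ a') := by
    intro a a' hne hB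
    have hv : ∀ a, s₁ (w a) = ξ a + (ξ a)⁻¹ := fun a => by rw [← hidx, hξ2]
    rcases hMIB (F.map σ) D hMI (ξ a) (ξ a') ⟨_, hk0 _, (hξ1 a).pow_eq_one⟩ ⟨_, hk0 _, (hξ1 a').pow_eq_one⟩ hB with
      h | ⟨h, hxy⟩
    · rw [← hv, ← hv] at h
      exact hne (hwinj (s₁.injective h)).symm
    · rw [← hv, ← hv, ← map_neg] at h
      refine hb0 hxy (idx a') (idx a) ?_
      rw [hidx, hidx]
      exact s₁.injective h
  have hres := hmain L p w (fun a => k (idx a)) ⟨s₁, hs₁⟩ ξ hwinj (fun a => by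
      rw [← hidx a]
      exact hb (idx a)) (fun a => ⟨(hξ1 a).ne_zero (hk0 _).ne', by
      rw [← hξ2, hidx]⟩) (fun a a' hne => Or.inl (hbad a a' hne)) (m + 1) b c hbinj (fun i => (hwc i).symm)
  have hind := hind_ (σ := σ) n m p c (fun i s => P (X' l) (Zp η) (s.1 (b i))) (fun i hi => by
    have h3 := hbT i fun h => hi ((hcc i 0).2 h)
    rw [Nat.card_eq_fintype_card, Fintype.card_subtype] at h3
    refine lt_of_le_of_lt (Finset.card_le_card fun j hj => ?_) h3
    rw [Finset.mem_filter] at hj ⊢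
    exact ⟨Finset.mem_univ _, (hcc j i).1 hj.2⟩) hres
  exact ⟨⟨N, hN0, hSp⟩, finish hDET S l hN0 b hSp hind⟩

end Pool.Agent.K9h21.GP
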