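import Pool.Agent.K9h21.GP.Geo

set_option autoImplicit false

/-!
# Project GPA: ALL polynomials. Statements.

`w(t) = wv α a t`, `w'(t) = wv α' b t`, `a, b > 0`. `Z t x y` is a relation between the roots `x` of `G - w(t)` and the roots `y` of
`G - w'(t)` which depends analytically on `t`; every `x` is related to `r` of the `n` numbers `y`, `0 < r < n`. Then `a = b` and
`α' = ± α`. Idea: the sums of `y^k x^(n-1-i) / G'(x)` over the related pairs are analytic functions of `t ≠ 0` which grow at most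
like `|t|^(± (k b - i a) / n)`, so they are `0` for `k b < i a`, and constant for `k b = i a`. So almost all the Fourier
coefficients of the relation, for large `|t|`, considered as a function on `ℤ/n × ℤ/n`, vanish.
-/

namespace Pool.Agent.K9h21.GP

open Polynomial Filter Topology

open Classical in
/-- the sum of `φ(t, x, y)` over the pairs of roots `x` of `G - w(t)`, `y` of `G - w'(t)` in the relation `Z t` -/
noncomputable def PS (G : ℂ[X]) (α α' : ℂ) (a b : ℤ) (Z : ℂ → ℂ → ℂ → Prop) (φ : ℂ → ℂ → ℂ → ℂ) (t : ℂ) : ℂ :=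
  ((G - C (wv α a t)).roots.map fun x =>
    ((G - C (wv α' b t)).roots.map fun y => if Z t x y then φ t x y else 0).sum).sum

/-- `t` is good: `t ≠ 0`, and neither `w(t)` nor `w'(t)` is a critical value -/
def Gd (G : ℂ[X]) (α α' : ℂ) (a b : ℤ) (t : ℂ) : Prop :=
  t ≠ 0 ∧ (∀ x, G.eval x = wv α a t → (derivative G).eval x ≠ 0) ∧
    ∀ y, G.eval y = wv α' b t → (derivative G).eval y ≠ 0

/-- an analytic correspondence with `n r` pairs over every good `t` -/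
structure Cor (G : ℂ[X]) (n r : ℕ) (α α' : ℂ) (a b : ℤ) (Z : ℂ → ℂ → ℂ → Prop) : Prop where
  mo : G.Monic
  deg : G.natDegree = n
  hn : 2 ≤ n
  hα : α ≠ 0
  hα' : α' ≠ 0
  ha : 0 < a
  hb : 0 < b
  cr : ∀ x, (derivative G).eval x = 0 → (G.eval x) ^ 2 ≠ 4
  an : ∀ (φ : ℂ → ℂ → ℂ → ℂ) (t₁ : ℂ), Gd G α α' a b t₁ →
    (∀ x y, G.eval x = wv α a t₁ → G.eval y = wv α' b t₁ →
      DifferentiableAt ℂ (fun p : ℂ × ℂ × ℂ => φ p.1 p.2.1 p.2.2) (t₁, x, y)) →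
    DifferentiableAt ℂ (PS G α α' a b Z φ) t₁
  tot : ∀ t, Gd G α α' a b t → PS G α α' a b Z (fun _ _ _ => 1) t = n * r

/-- the hypotheses on the factorisation (those of `S_GEO` for `G₁ = G`, `a, b > 0`) -/
structure FacA (G : ℂ[X]) (r r' : ℕ) (α α' : ℂ) (a b : ℤ) (D : ℕ) (c : Fin r → Fin D → ℂ → ℂ)
    (c' : Fin r' → Fin D → ℂ → ℂ) : Prop where
  mo : G.Monic
  deg : G.natDegree = r + r'
  hr : 0 < r
  hr' : 0 < r'
  hα : α ≠ 0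
  hα' : α' ≠ 0
  ha : 0 < a
  hb : 0 < b
  cr : ∀ x, (derivative G).eval x = 0 → (G.eval x) ^ 2 ≠ 4
  dc : ∀ m i, DifferentiableOn ℂ (c m i) {0}ᶜ
  dc' : ∀ m i, DifferentiableOn ℂ (c' m i) {0}ᶜ
  fac : ∀ t : ℂ, t ≠ 0 → ∀ x : ℂ, G.eval x = wv α a t → ∀ V : ℂ,
    Th (fun m i => c m i t) (derivative G) x V * Th (fun m i => c' m i t) (derivative G) x V =
      (derivative G).eval x ^ 2 * (G.eval V - wv α' b t)

/-- COR: a factorisation gives a correspondence: `y` is a root of the first factor.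

Proof. For good `t`, `G(x) = w(t)`, `G(y) = w'(t)`: the indicator function of `Th c (t,x,y) = 0` is
`(∂Th c/∂V)(t,x,y) Th c'(t,x,y) / (G'(x)² G'(y))` (differentiate `fac` in `V`; not both factors vanish at `y`, as `G'(y) ≠ 0`), an
analytic function of `(t,x,y)`. Near a good `t₁` the roots of `G - w(t)` are the values of `n` local branches `ψ_j(w(t))`, those of
`G - w'(t)` are the values of `n` branches `ψ'_l(w'(t))` (as in the proof of `S_SUM`, `Sum.lean`), so `PS` is a finite sum of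
functions differentiable at `t₁`. `tot`: for each `x` the polynomial `Th c(t,x,·)` has degree `r` (leading coefficient `G'(x)`) and
divides `G'(x)² (G - w'(t))`, which has simple roots. -/
def S_COR : Prop := ∀ (G : ℂ[X]) (r r' : ℕ) (α α' : ℂ) (a b : ℤ) (D : ℕ) (c : Fin r → Fin D → ℂ → ℂ)
    (c' : Fin r' → Fin D → ℂ → ℂ), FacA G r r' α α' a b D c c' →
  Cor G (r + r') r α α' a b fun t x y => Th (fun m i => c m i t) (derivative G) x y = 0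

/-- SYM: the transposed correspondence (exchange the two sums). -/
def S_SYM : Prop := ∀ (G : ℂ[X]) (n r : ℕ) (α α' : ℂ) (a b : ℤ) (Z : ℂ → ℂ → ℂ → Prop),
  Cor G n r α α' a b Z → Cor G n r α' α b a fun t x y => Z t y x

/-- T1: the sums of `y^k x^(n-1-i) / G'(x)`.

Proof (as for `S_TJ`, see `Tj.lean`). Let `T(t)` be the sum. It is differentiable at the good `t` (`Cor.an`); the other `t` are
finitely many (`wv_finite` in `Geo3.lean`). Near a `s ≠ 0` which is not good: `|y|`, `|x|` are bounded and `|t - s| / |G'(x)| → 0`: near a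
critical point `x₀` with `G(x) - G(x₀) = (x - x₀)^e H(x)`, `H(x₀) ≠ 0`, `e ≥ 2`, one has `|G'(x)| ≥ c |x - x₀|^(e-1)` and
`|t - s| ≤ C |w(t) - w(s)| ≤ C' |x - x₀|^e` (the derivative of `w` at `s` is `≠ 0` if `w(s)` is critical, as `w(s)² ≠ 4`); near the other roots of
`G - w(s)` one has `|G'(x)| ≥ c`. So `(t - s) T(t) → 0` and the singularity is removable. For `|w(t)| → ∞`, i.e. `t → ∞` and `t → 0`:
`|x| ≤ C |w|^(1/n)`, `|y| ≤ C |w'|^(1/n)`, `|G'(x)| ≥ c |x|^(n-1)`, `|x| ≥ c |w|^(1/n)`: `|T(t)| ≤ C |w'(t)|^(k/n) |w(t)|^(-i/n) ≤ C' |t|^(± (k b - i a) / n)`.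
So `T` is bounded if `k b ≤ i a`, and tends to `0` if `k b < i a`: Liouville. -/
def S_T1 : Prop := ∀ (G : ℂ[X]) (n r : ℕ) (α α' : ℂ) (a b : ℤ) (Z : ℂ → ℂ → ℂ → Prop), Cor G n r α α' a b Z →
  ∀ i k : ℕ, i < n → k < n →
  ((k : ℤ) * b < i * a → ∀ t, Gd G α α' a b t →
    PS G α α' a b Z (fun _ x y => y ^ k * x ^ (n - 1 - i) / (derivative G).eval x) t = 0) ∧
  ((k : ℤ) * b = i * a → ∃ γ : ℂ, ∀ t, Gd G α α' a b t →
    PS G α α' a b Z (fun _ x y => y ^ k * x ^ (n - 1 - i) / (derivative G).eval x) t = γ)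

/-- EST: the roots of `G - v` for large `|v|`. -/
def S_EST : Prop := ∀ (G : ℂ[X]) (n : ℕ), G.Monic → G.natDegree = n → 2 ≤ n →
  (∀ ε : ℝ, 0 < ε → ∃ M : ℝ, 0 < M ∧ ∀ v x : ℂ, M ≤ ‖v‖ → G.eval x = v → x ≠ 0 ∧ (derivative G).eval x ≠ 0 ∧
    ‖x ^ n / v - 1‖ ≤ ε ∧ ‖n * x ^ (n - 1) / (derivative G).eval x - 1‖ ≤ ε) ∧
  ∃ η M : ℝ, 0 < η ∧ 0 < M ∧ ∀ v x x' : ℂ, M ≤ ‖v‖ → G.eval x = v → G.eval x' = v → x ≠ x' → η ≤ ‖x / x' - 1‖

open Classical in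
/-- the Fourier coefficients of a relation -/
noncomputable def FC (R R' : Finset ℂ) (Z : ℂ → ℂ → Prop) (f g : ℂ → ℂ) : ℂ :=
  ∑ x ∈ R, ∑ y ∈ R', if Z x y then f x * g y else 0

open Classical in
/-- FOU: finite Fourier analysis for approximate roots of unity (pure algebra and inequalities).

Proof. For `q = x₀/x`: `|q^n - 1| ≤ δ`, so `|q| ≈ 1`, `conj q ≈ q⁻¹`, `q^(n-i) ≈ q^(-i)`, and for `x ≠ x₀`
`|∑_{i<n} q^i| = |q^n - 1| / |q - 1| ≤ δ/η`; the same for `y/y₀`. All sums have at most `n²` terms. (1):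
`∑_{i,k<n} FC … = ∑_{(x,y) ∈ Z} (∑_i (x₀/x)^i) (∑_k (y/y₀)^k)`. -/
def S_FOU : Prop := ∀ (n : ℕ) (η ε : ℝ), 2 ≤ n → 0 < η → 0 < ε → ∃ δ : ℝ, 0 < δ ∧ ∀ (R R' : Finset ℂ)
  (Z : ℂ → ℂ → Prop), R.card = n → R'.card = n → (∀ x ∈ R, x ≠ 0) → (∀ y ∈ R', y ≠ 0) →
  (∀ x ∈ R, ∀ x' ∈ R, ‖(x / x') ^ n - 1‖ ≤ δ ∧ (x ≠ x' → η ≤ ‖x / x' - 1‖)) →
  (∀ y ∈ R', ∀ y' ∈ R', ‖(y / y') ^ n - 1‖ ≤ δ ∧ (y ≠ y' → η ≤ ‖y / y' - 1‖)) →
  ∀ x₀ ∈ R, ∀ y₀ ∈ R',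
    ‖(if Z x₀ y₀ then (1 : ℂ) else 0) - (∑ i ∈ Finset.range n, ∑ k ∈ Finset.range n,
      FC R R' Z (fun x => (x₀ / x) ^ i) (fun y => (y / y₀) ^ k)) / (n : ℂ) ^ 2‖ ≤ ε ∧
    (∀ i k, i < n → k < n → ‖(starRingEnd ℂ) (FC R R' Z (fun x => (x₀ / x) ^ i) (fun y => (y / y₀) ^ k)) -
      FC R R' Z (fun x => (x / x₀) ^ i) (fun y => (y₀ / y) ^ k)‖ ≤ ε) ∧
    ∀ i k, 0 < i → 0 < k → i < n → k < n →
      ‖(starRingEnd ℂ) (FC R R' Z (fun x => (x₀ / x) ^ i) (fun y => (y / y₀) ^ k)) -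
      FC R R' Z (fun x => (x₀ / x) ^ (n - i)) (fun y => (y / y₀) ^ (n - k))‖ ≤ ε

open Classical in
/-- ASY: the relation for large `|t|` and for small `|t|` (with `S_EST`, `S_FOU`, `S_T1`, `S_SYM` as hypotheses).

Proof. Let `t` be good, `|w(t)|`, `|w'(t)|` large (`wv_proper` in `Geo3.lean`), `R`, `R'` the sets of the `n` different roots of
`G - w(t)`, `G - w'(t)`; `PS` is the sum over `R`, `R'`. `F i k = FC R R' (Z t) (fun x => (x₀/x)^i) (fun y => (y/y₀)^k)`.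
(1) `F i k ≈ n x₀^i y₀^(-k) PS(y^k x^(n-1-i)/G'(x))`, by `n x^(n-1)/G'(x) ≈ 1`; so by `S_T1`: `F i k ≈ 0` if `k b < i a`, and if `a = b`
`F k k ≈ n (x₀/y₀)^k γ_k`. (2) For `i a < k b`: by `S_T1` for the transposed correspondence (`S_SYM`) `PS(x^i y^(n-1-k)/G'(y)) = 0`, so
`FC (x/x₀)^i (y₀/y)^k ≈ 0`, and `F i k ≈ 0` by `S_FOU` (2). (3) If `k b = i a`, `(i,k) ≠ (0,0)`, `a ≠ b`: then `i, k > 0` and
`(n-k) b ≠ (n-i) a`, so `F (n-i) (n-k) ≈ 0`, and `F i k ≈ 0` by `S_FOU` (3). (4) `F 0 0 = n r` (`Cor.tot`). Insert this in `S_FOU` (1). -/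
def S_ASY : Prop := ∀ (G : ℂ[X]) (n r : ℕ) (α α' : ℂ) (a b : ℤ) (Z : ℂ → ℂ → ℂ → Prop), Cor G n r α α' a b Z →
  (a ≠ b → ∀ ε : ℝ, 0 < ε → ∀ᶠ t in cocompact ℂ, Gd G α α' a b t → ∀ x₀ y₀, G.eval x₀ = wv α a t →
    G.eval y₀ = wv α' b t → ‖(if Z t x₀ y₀ then (1 : ℂ) else 0) - r / n‖ ≤ ε) ∧
  (a = b → ∃ γ : ℕ → ℂ, γ 0 = r ∧ ∀ ε : ℝ, 0 < ε →
    (∀ᶠ t in cocompact ℂ, Gd G α α' a b t → ∀ x₀ y₀, G.eval x₀ = wv α a t → G.eval y₀ = wv α' b t →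
      ‖(if Z t x₀ y₀ then (1 : ℂ) else 0) - (∑ k ∈ Finset.range n, γ k * (x₀ / y₀) ^ k) / n‖ ≤ ε) ∧
    (∀ᶠ t in 𝓝[≠] (0 : ℂ), Gd G α α' a b t → ∀ x₀ y₀, G.eval x₀ = wv α a t → G.eval y₀ = wv α' b t →
      ‖(if Z t x₀ y₀ then (1 : ℂ) else 0) - (∑ k ∈ Finset.range n, γ k * (x₀ / y₀) ^ k) / n‖ ≤ ε))

/-- NEWT: Newton's identities.

Proof. Let `U = {ζ | ζ^n = κ, p(ζ) = 1}`, `p(ζ) = (∑_k γ_k ζ^(-k)) / n`, and `U'` the same for `κ⁻¹`. By the orthogonality relations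
`∑_{ζ ∈ U} ζ^k = ∑_{ζ^n = κ} p(ζ) ζ^k = γ_k` for `0 ≤ k < n`; the same for `U'`. So `U` and `U'` have `r < n` elements and the same power
sums of the exponents `≤ r`, so `U = U'` (Newton), and for `ζ ∈ U` one has `κ = ζ^n = κ⁻¹`. -/
def S_NEWT : Prop := ∀ (n r : ℕ) (γ : ℕ → ℂ) (κ : ℂ), 0 < r → r < n → κ ≠ 0 → γ 0 = r →
  (∀ ζ : ℂ, ζ ^ n = κ → (∑ k ∈ Finset.range n, γ k * (ζ⁻¹) ^ k) / n = 0 ∨
    (∑ k ∈ Finset.range n, γ k * (ζ⁻¹) ^ k) / n = 1) →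
  (∀ ζ : ℂ, ζ ^ n = κ⁻¹ → (∑ k ∈ Finset.range n, γ k * (ζ⁻¹) ^ k) / n = 0 ∨
    (∑ k ∈ Finset.range n, γ k * (ζ⁻¹) ^ k) / n = 1) → κ ^ 2 = 1

/-- LIM: the conclusion (with `S_ASY`, `S_NEWT`, `S_EST` as hypotheses).

Proof. If `a ≠ b`: `r/n` is neither `0` nor `1`, contradiction for small `ε` (there are arbitrarily large good `t`). If `a = b`, let
`κ = α'/α` and `ζ^n = κ`. For `t → ∞`: `w'(t)/w(t) → κ`; let `G(x₀) = w(t)`; then `∏_y |ζ x₀ - y| = |G(ζ x₀) - w'(t)| = o(|w(t)|)`, `y` over the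
`n` roots of `G - w'(t)`, so there is a root `y₀` with `|ζ x₀ - y₀| = o(|x₀|)`, i.e. `x₀/y₀ → ζ⁻¹`; so `(∑ γ_k ζ^(-k))/n` is a limit of
numbers `0` or `1`. For `t → 0`: the same with `w'(t)/w(t) → κ⁻¹`. By `S_NEWT`, `κ² = 1`. -/
def S_LIM : Prop := ∀ (G : ℂ[X]) (n r : ℕ) (α α' : ℂ) (a b : ℤ) (Z : ℂ → ℂ → ℂ → Prop), Cor G n r α α' a b Z →
  0 < r → r < n → a = b ∧ α' ^ 2 = α ^ 2

end Pool.Agent.K9h21.GP
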