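import Pool.Agent.K9h21.GP.GenM
import Pool.Agent.K9h21.GP.Stm7

set_option autoImplicit false

/-!
# Project GPA: all polynomials, assembly
-/

namespace Pool.Agent.K9h21.GP

open Polynomial IntermediateField Module MeasureTheory Set
open Pool.Agent.TH826.MK (KQ Torus symb)
open Pool.Agent.TH826.HD (PRing POpen pent toP pcst pDel)
open Pool.Agent.N76.EC
open Pool.Agent.N76.RG (S_TRC S_LOXQ S_SPG S_DET exact_angle special_angle angle_special nsq_ext exists_loop')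
open scoped Real

/-- the special values are equal, or opposite (this only if there are opposite critical values) -/
def RelA (G : ℂ[X]) (ζ ζ' : ℂ) : Prop := ζ' + ζ'⁻¹ = ζ + ζ⁻¹ ∨ (ζ' + ζ'⁻¹ = -(ζ + ζ⁻¹) ∧
    ∃ x y : ℂ, (derivative G).eval x = 0 ∧ (derivative G).eval y = 0 ∧ G.eval y = -G.eval x)

/-- the statement on the factorisations for all polynomials -/
theorem gqA (hGEO : S_GEO) (hCOR : S_COR) (hLIM : S_LIM) (G : ℂ[X]) (hG : G.Monic)
    (hcr : ∀ x, (derivative G).eval x = 0 → (G.eval x) ^ 2 ≠ 4) : S_GQ G G (RelA G) := by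
  intro r r' α α' a b hdeg hr hr' hα hα' hb hnc D c c' hc hc' hid
  have hex := hGEO G G (r + r') r r' α α' a b hG hdeg (by omega) hG hdeg hr hr' hα hα' hb hcr D c c' hc hc' hid
  have ha : a ≠ 0 := by
    rintro rfl
    obtain ⟨t, -, ⟨x, hx, hxt⟩, -⟩ := hex
    refine hnc x ?_ hx
    rw [hxt]
    unfold wv
    rw [zpow_zero, mul_one]
  -- `Ex` : common branch points
  have key : ∀ (α α' : ℂ) (a b : ℤ), α ≠ 0 → α' ≠ 0 → 0 < a → 0 < b →
      (∃ t : ℂ, t ≠ 0 ∧ (∃ x, (derivative G).eval x = 0 ∧ G.eval x = wv α a t) ∧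
        ∃ y, (derivative G).eval y = 0 ∧ G.eval y = wv α' b t) →
      (∀ t : ℂ, t ≠ 0 → ∀ x : ℂ, G.eval x = wv α a t → ∀ V : ℂ,
        Th (fun m i => c m i t) (derivative G) x V * Th (fun m i => c' m i t) (derivative G) x V =
        (derivative G).eval x ^ 2 * (G.eval V - wv α' b t)) → RelA G α α' := by
    intro α α' a b hα hα' ha hb hex hid
    have hC := hCOR G r r' α α' a b D c c' ⟨hG, hdeg, hr, hr', hα, hα', ha, hb, hcr, hc, hc', hid⟩
    obtain ⟨hab, h2⟩ := hLIM G (r + r') r α α' a b _ hC hr (by omega)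
    subst hab
    have h3 : (α' - α) * (α' + α) = 0 := by linear_combination h2
    rcases mul_eq_zero.1 h3 with h4 | h4
    · left
      rw [sub_eq_zero.1 h4]
    · right
      have h5 : α' = -α := eq_neg_of_add_eq_zero_left h4
      refine ⟨by rw [h5, inv_neg]; ring, ?_⟩
      obtain ⟨t, -, ⟨x, hx, hxt⟩, ⟨y, hy, hyt⟩⟩ := hex
      refine ⟨x, y, hx, hy, ?_⟩
      rw [hxt, hyt, h5]
      unfold wv
      rw [neg_mul, inv_neg]
      ring
  have hinv1 : ∀ ζ ζ' : ℂ, RelA G ζ⁻¹ ζ' → RelA G ζ ζ' := by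
    intro ζ ζ' h
    unfold RelA at h ⊢
    rw [inv_inv, add_comm ζ⁻¹ ζ] at h
    exact h
  have hinv2 : ∀ ζ ζ' : ℂ, RelA G ζ ζ'⁻¹ → RelA G ζ ζ' := by
    intro ζ ζ' h
    unfold RelA at h ⊢
    rw [inv_inv, add_comm ζ'⁻¹ ζ'] at h
    exact h
  rcases lt_or_gt_of_ne ha with ha | ha <;> rcases lt_or_gt_of_ne hb with hb | hb
  · refine hinv1 _ _ (hinv2 _ _ (key α⁻¹ α'⁻¹ (-a) (-b) (inv_ne_zero hα) (inv_ne_zero hα') (by omega) (by omega) ?_ ?_))
    · simp only [wv_neg]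
      exact hex
    · intro t ht x hx V
      rw [wv_neg] at hx ⊢
      exact hid t ht x hx V
  · refine hinv1 _ _ (key α⁻¹ α' (-a) b (inv_ne_zero hα) hα' (by omega) hb ?_ ?_)
    · simp only [wv_neg]
      exact hex
    · intro t ht x hx V
      rw [wv_neg] at hx
      exact hid t ht x hx V
  · refine hinv2 _ _ (key α α'⁻¹ a (-b) hα (inv_ne_zero hα') ha (by omega) ?_ ?_)
    · simp only [wv_neg]
      exact hex
    · intro t ht x hx V
      rw [wv_neg]
      exact hid t ht x hx V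
  · exact key α α' a b hα hα' ha hb hex hid

/-- **Special points of all large levels: a sufficient condition.** -/
theorem strongP.{u, v, w₁} (hGEO : S_GEO) (hTRP : S_TRP.{v}) (hAVG : S_AVGG.{v, v}) (hWN2 : S_WN2)
    (h1 : S_TRC.{u, v}) (h2 : S_LOXQ.{v}) (hSPG : S_SPG.{u, v}) (hDET : S_DET.{v}) (K : Type u) [Field K] [NumberField K]
    (F : K[X]) (n : ℕ) (hn : 2 ≤ n) (hF1 : F.Monic) (hdeg : F.natDegree = n) (hint : ∀ i, IsIntegral ℤ (F.coeff i))
    (hsq : Squarefree (F ^ 2 - 4)) (σ : K →+* ℂ) (Pr : Prop)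
    (hQ : S_GQ (F.map σ) (F.map σ) fun ζ ζ' => ζ' + ζ'⁻¹ = ζ + ζ⁻¹ ∨ (ζ' + ζ'⁻¹ = -(ζ + ζ⁻¹) ∧ Pr)) :
    ∃ k₀ : ℕ, 3 ≤ k₀ ∧ ∀ (L : Type v) [Field L] [NumberField L] [Algebra K L] (m : ℕ) (b : Fin (m + 1) → L)
      (k : Fin (m + 1) → ℕ), Function.Injective b →
      (∀ i, k₀ ≤ k i ∧ (Chebyshev.C L (k i)).eval ((F.map (algebraMap K L)).eval (b i)) = 2 ∧
        ∀ q : ℕ, 0 < q → q < k i → (Chebyshev.C L q).eval ((F.map (algebraMap K L)).eval (b i)) ≠ 2) →
      (Pr →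
          ∀ i j, (F.map (algebraMap K L)).eval (b i) ≠ -(F.map (algebraMap K L)).eval (b j)) →
      (∀ i, (F.map (algebraMap K L)).eval (b i) ≠ (F.map (algebraMap K L)).eval (b 0) →
        Nat.card {j // (F.map (algebraMap K L)).eval (b j) = (F.map (algebraMap K L)).eval (b i)} < n) →
      (∃ N : ℕ, 0 < N ∧ ∀ i, b i ∈ Sp F L N) ∧
      (∀ (M : Type w₁) [Field M] [Algebra (PRing (F.map (algebraMap K L))) M]
        [IsFractionRing (PRing (F.map (algebraMap K L))) M]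
        (f : POpen (F.map (algebraMap K L)) b →+* M)
        (_ : ∀ a : PRing (F.map (algebraMap K L)), f (toP (F.map (algebraMap K L)) b a) = algebraMap _ M a),
        LinearIndependent ℚ fun i : Fin m =>
          KQ.map 2 f (symb (pent (F.map (algebraMap K L)) b i.succ 0))) ∧
      ∃ (s : Fin m → (L →+* ℂ)) (Γ : Fin m → Torus (POpen (F.map (algebraMap K L)) b) 1),
        Function.Injective s ∧ (∀ i, (s i).comp (algebraMap K L) = σ) ∧
        (∀ i t (y : L), (Γ i).e t (pcst (F.map (algebraMap K L)) b y) = s i y) ∧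
        (Matrix.of fun i j : Fin m => (Γ i).reg (symb (pent (F.map (algebraMap K L)) b j.succ 0))).det ≠ 0 := by
  classical
  have hn0 : 0 < n := by omega
  obtain ⟨η, φ₀, ε, B, X', S⟩ := exists_sys (hF1.map σ) hn0 (by rw [hF1.natDegree_map, hdeg])
    (Pool.Agent.N76.EC.not_crit' hsq σ (by norm_num)) (Pool.Agent.N76.EC.not_crit' hsq σ (by norm_num))
  set l : Fin n := ⟨0, hn0⟩ with hl
  obtain ⟨k₀, hk₀, hmain⟩ := core3 hGEO hTRP hAVG hWN2 h1 h2 hSPG K F n hn hF1 hdeg hint hsq σ _ hQ S l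
  refine ⟨k₀, hk₀, fun L _ _ _ m b k hbinj hb hb0 hbT => ?_⟩
  set Fl : L[X] := F.map (algebraMap K L) with hFl
  obtain ⟨⟨s₁, hs₁⟩⟩ := Em_nonempty L σ
  have hk3 : ∀ i, 3 ≤ k i := fun i => hk₀.trans (hb i).1
  have hk0 : ∀ i, 0 < k i := fun i => by
    have := hk3 i
    omega
  obtain ⟨N, hN0, hSp⟩ := sp_prod (F := F) s₁ b k hk3 fun i => (hb i).2
  -- the values
  obtain ⟨p, hp⟩ : ∃ p, (Finset.univ.image fun i => Fl.eval (b i)).card = p := ⟨_, rfl⟩
  have eq := (Finset.univ.image fun i => Fl.eval (b i)).equivFinOfCardEq hp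
  set w : Fin p → L := fun a => (eq.symm a).1 with hw
  set c : Fin (m + 1) → Fin p := fun i => eq ⟨Fl.eval (b i), Finset.mem_image_of_mem _ (Finset.mem_univ i)⟩ with hc
  have hwc : ∀ i, w (c i) = Fl.eval (b i) := fun i => by
    rw [hw, hc]
    simp only [Equiv.symm_apply_apply]
  have hwinj : Function.Injective w := fun a a' h => eq.symm.injective (Subtype.ext h)
  have hcc : ∀ i j, c i = c j ↔ Fl.eval (b i) = Fl.eval (b j) := by
    intro i j
    rw [← hwc, ← hwc]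
    exact hwinj.eq_iff.symm
  have hidx : ∀ a, ∃ i, Fl.eval (b i) = w a := by
    intro a
    obtain ⟨i, -, hi⟩ := Finset.mem_image.1 (eq.symm a).2
    exact ⟨i, hi⟩
  choose idx hidx using hidx
  choose ξ hξ1 hξ2 using fun a => exists_xi s₁ (hk0 (idx a)) (hb (idx a)).2.1 (hb (idx a)).2.2
  have hbad : ∀ a a', a ≠ a' → ¬ (ξ a' + (ξ a')⁻¹ = ξ a + (ξ a)⁻¹ ∨ (ξ a' + (ξ a')⁻¹ = -(ξ a + (ξ a)⁻¹) ∧ Pr)) := by
    intro a a' hne hB
    have hv : ∀ a, s₁ (w a) = ξ a + (ξ a)⁻¹ := fun a => by rw [← hidx, hξ2]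
    rcases hB with
      h | ⟨h, hxy⟩
    · rw [← hv, ← hv] at h
      exact hne (hwinj (s₁.injective h)).symm
    · rw [← hv, ← hv, ← map_neg] at h
      refine hb0 hxy (idx a') (idx a) ?_
      rw [hidx, hidx]
      exact s₁.injective h
  have hres := hmain L p w (fun a => k (idx a)) ⟨s₁, hs₁⟩ ξ hwinj (fun a => by
      rw [← hidx a]
      exact hb (idx a)) (fun a => ⟨(hξ1 a).ne_zero (hk0 _).ne', by
      rw [← hξ2, hidx]⟩) (fun a a' hne => Or.inl (hbad a a' hne)) (m + 1) b c hbinj (fun i => (hwc i).symm)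
  have hind := hind_ (σ := σ) n m p c (fun i s => P (X' l) (Zp η) (s.1 (b i))) (fun i hi => by
    have h3 := hbT i fun h => hi ((hcc i 0).2 h)
    rw [Nat.card_eq_fintype_card, Fintype.card_subtype] at h3
    refine lt_of_le_of_lt (Finset.card_le_card fun j hj => ?_) h3
    rw [Finset.mem_filter] at hj ⊢
    exact ⟨Finset.mem_univ _, (hcc j i).1 hj.2⟩) hres
  exact ⟨⟨N, hN0, hSp⟩, finish hDET S l hN0 b hSp hind⟩

end Pool.Agent.K9h21.GP
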