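import Pool.Agent.K9h21.GP.Stm7

set_option autoImplicit false

/-!
# Project GPA: opposite special values. Statements.

The correspondences with `a = b`, `α' = -α` (so `w'(t) = -w(t)`): the relation `Z t x y` depends only on `w(t) = G(x)`, and it is an
algebraic relation between `x` and `y`, given by a factor of `G(X) + G(Y)`.
-/

namespace Pool.Agent.K9h21.GP

open Polynomial Filter Topology

/-- `G(X) + G(Y)` as a polynomial in `Y` over `ℂ[X]` -/
noncomputable def SumP (G : ℂ[X]) : ℂ[X][X] := G.map (C : ℂ →+* ℂ[X]) + C G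

/-- T2: all the sums are constant.

Proof. Let `T(t)` be the sum, `w = wv α a`; `wv (-α) a t = -w(t)`. By the case `a = b` of `S_ASY` with `ε = 1/4`: for good `t` which
are large or small enough, `Z t x y` (for roots `x`, `y`) depends only on `x / y`: it holds if and only if
`‖1 - (∑ γ_k (x/y)^k)/n‖ ≤ 1/4`. Fix a good `t₀`, so large that all `t` with `w(t) = w(t₀)` are large or small enough (`t^a = t₀^a` or
`(α t^a) (α t₀^a) = 1`), and `w(t₀)² ≠ 4`. These `t` are good, and `T(t) = T(t₀)`. Let `S(t) = (T(t) - T(t₀)) / (w(t) - w(t₀))`. Apply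
`TJ_.removal_const` (`TjA.lean`) to `S` and the finite set of `0`, the `t` which are not good, and the `t` with `w(t) = w(t₀)`: at a `s`
of the second kind `(t - s) T(t) → 0` (`T1_.T_local` in `T1.lean`) and `w(s) ≠ w(t₀)`; at a `s` of the third kind `T` is differentiable
(`T1_.T_diff`), `T(s) = T(t₀)`, and the derivative of `w` at `s` is not zero (`TJ_.wv_lower`). For `t → 0` and `t → ∞`: `S(t) → 0`, as
`‖y^k x^(n-1-i) / G'(x)‖ ≤ K ‖y‖^k ≤ K' U^(a (n-1)/n)`, `U = ‖t‖ + ‖t‖⁻¹`, and `‖w(t)‖ ≥ c U^a` for large `U` (as in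
`T1_.psi_bound`, `T1_.wv_up`, `T1_.wv_low`). So `S` is constant, the constant is `0`, and `T(t) = T(t₀)` for all good `t`. -/
def S_T2 : Prop := ∀ (G : ℂ[X]) (n r : ℕ) (α : ℂ) (a : ℤ) (Z : ℂ → ℂ → ℂ → Prop), Cor G n r α (-α) a a Z →
  ∀ i k : ℕ, i < n → k < n → ∃ γ : ℂ, ∀ t, Gd G α (-α) a a t →
    PS G α (-α) a a Z (fun _ x y => y ^ k * x ^ (n - 1 - i) / (derivative G).eval x) t = γ

/-- FIN: finitely many common zeros (pure algebra).

Proof. `Φ` is irreducible over `ℂ(X)` (`Polynomial.Monic.irreducible_iff_irreducible_map_fraction_map`), and `H ≠ 0` has a smaller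
degree, so they are coprime over `ℂ(X)`: `A Φ + B H = ρ` with `A, B ∈ ℂ[X][Y]`, `0 ≠ ρ ∈ ℂ[X]` (clear the denominators; or take the
resultant of `Φ` and `H` in `Y`), and `ρ(x) = 0` for every common zero `(x, y)`. -/
def S_FIN : Prop := ∀ Φ H : ℂ[X][X], Φ.Monic → Irreducible Φ → H ≠ 0 → H.natDegree < Φ.natDegree →
  {x : ℂ | ∃ y : ℂ, (Φ.map (evalRingHom x)).eval y = 0 ∧ (H.map (evalRingHom x)).eval y = 0}.Finite

/-- RED: `G(X) + G(Y)` is reducible (with `S_FIN` as a hypothesis; uses the conclusion of `S_T2` for `G`, `Z`).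

Proof. Let `G = ∑_j g_j X^j`, and let `t` be good, `R`, `R'` the sets of the `n` different roots of `G - w(t)` and `G + w(t)`. For a root
`x₀` of `G - w(t)` one has `(G(X) - w(t)) / (X - x) = ∑_{i < j ≤ n} g_j X^i x^(j-1-i)` at `X = x₀`: this is `0` for a root `x ≠ x₀` and `G'(x₀)`
for `x = x₀`. So `∑_{y ∼ x₀} y^k = ∑_{i < j ≤ n} g_j x₀^i PS(y^k x^(j-1-i) / G'(x)) = P_k(x₀)`, `P_k = ∑_{i < j ≤ n} g_j γ_{n-j+i, k} X^i`, a fixed
polynomial, for all `k < n` (`y ∼ x₀` means `Z t x₀ y`). Let `Φ = SumP G`, `H = ∑_{i < j ≤ n} g_j P_{j-1-i} Y^i ∈ ℂ[X][Y]`. At `X = x₀`: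
`H(x₀, Y) = ∑_{y ∼ x₀} (G(Y) + w(t)) / (Y - y)`. So `H(x₀, y') = 0` for `y' ∈ R'` not related to `x₀`, and `H(x₀, y) = G'(y) ≠ 0` for `y ∼ x₀`; and
`Φ(x₀, y') = 0` for `y' ∈ R'`. By `Cor.tot` there are related pairs (`0 < r`) and pairs which are not related (`r < n`) over every good
`t`. So `H ≠ 0`, the degree of `H` in `Y` is `< n`, and `Φ`, `H` have infinitely many common zeros `(x₀, y')` with different `x₀`. If `Φ`
were irreducible, it would be irreducible over `ℂ(X)` (`Polynomial.Monic.irreducible_iff_irreducible_map_fraction_map`), so coprime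
to `H` over `ℂ(X)`: this contradicts `S_FIN`. -/
def S_RED : Prop := ∀ (G : ℂ[X]) (n r : ℕ) (α : ℂ) (a : ℤ) (Z : ℂ → ℂ → ℂ → Prop), Cor G n r α (-α) a a Z →
  0 < r → r < n → (∀ i k : ℕ, i < n → k < n → ∃ γ : ℂ, ∀ t, Gd G α (-α) a a t →
    PS G α (-α) a a Z (fun _ x y => y ^ k * x ^ (n - 1 - i) / (derivative G).eval x) t = γ) →
  ¬ Irreducible (SumP G)

end Pool.Agent.K9h21.GP
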