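import Pool.Agent.K9h21.GP.GenA
import Pool.Agent.K9h21.GP.Stm8

set_option autoImplicit false

/-!
# Project GPA: all polynomials, assembly, with the reducibility of `G(X) + G(Y)` as the exceptional condition
-/

namespace Pool.Agent.K9h21.GP

open Polynomial IntermediateField Module MeasureTheory Set
open Pool.Agent.TH826.MK (KQ Torus symb)
open Pool.Agent.TH826.HD (PRing POpen pent toP pcst pDel)
open Pool.Agent.N76.EC
open Pool.Agent.N76.RG (S_TRC S_LOXQ S_SPG S_DET exact_angle special_angle angle_special nsq_ext exists_loop')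
open scoped Real

/-- the special values are equal, or opposite (this only if `G(X) + G(Y)` is reducible) -/
def RelB (G : ℂ[X]) (ζ ζ' : ℂ) : Prop := ζ' + ζ'⁻¹ = ζ + ζ⁻¹ ∨ (ζ' + ζ'⁻¹ = -(ζ + ζ⁻¹) ∧ ¬ Irreducible (SumP G))

/-- the statement on the factorisations for all polynomials -/
theorem gqB (hGEO : S_GEO) (hCOR : S_COR) (hLIM : S_LIM) (hT2 : S_T2) (hRED : S_RED) (G : ℂ[X]) (hG : G.Monic)
    (hcr : ∀ x, (derivative G).eval x = 0 → (G.eval x) ^ 2 ≠ 4) : S_GQ G G (RelB G) := by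
  intro r r' α α' a b hdeg hr hr' hα hα' hb hnc D c c' hc hc' hid
  have hex := hGEO G G (r + r') r r' α α' a b hG hdeg (by omega) hG hdeg hr hr' hα hα' hb hcr D c c' hc hc' hid
  have ha : a ≠ 0 := by
    rintro rfl
    obtain ⟨t, -, ⟨x, hx, hxt⟩, -⟩ := hex
    refine hnc x ?_ hx
    rw [hxt]
    unfold wv
    rw [zpow_zero, mul_one]
  -- `Ex` : common branch points
  have key : ∀ (α α' : ℂ) (a b : ℤ), α ≠ 0 → α' ≠ 0 → 0 < a → 0 < b →
      (∃ t : ℂ, t ≠ 0 ∧ (∃ x, (derivative G).eval x = 0 ∧ G.eval x = wv α a t) ∧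
        ∃ y, (derivative G).eval y = 0 ∧ G.eval y = wv α' b t) →
      (∀ t : ℂ, t ≠ 0 → ∀ x : ℂ, G.eval x = wv α a t → ∀ V : ℂ,
        Th (fun m i => c m i t) (derivative G) x V * Th (fun m i => c' m i t) (derivative G) x V =
        (derivative G).eval x ^ 2 * (G.eval V - wv α' b t)) → RelB G α α' := by
    intro α α' a b hα hα' ha hb hex hid
    have hC := hCOR G r r' α α' a b D c c' ⟨hG, hdeg, hr, hr', hα, hα', ha, hb, hcr, hc, hc', hid⟩
    obtain ⟨hab, h2⟩ := hLIM G (r + r') r α α' a b _ hC hr (by omega)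
    subst hab
    have h3 : (α' - α) * (α' + α) = 0 := by linear_combination h2
    rcases mul_eq_zero.1 h3 with h4 | h4
    · left
      rw [sub_eq_zero.1 h4]
    · right
      have h5 : α' = -α := eq_neg_of_add_eq_zero_left h4
      subst h5
      exact ⟨by rw [inv_neg]; ring, hRED G (r + r') r α a _ hC hr (by omega) (hT2 G (r + r') r α a _ hC)⟩
  have hinv1 : ∀ ζ ζ' : ℂ, RelB G ζ⁻¹ ζ' → RelB G ζ ζ' := by
    intro ζ ζ' h
    unfold RelB at h ⊢
    rw [inv_inv, add_comm ζ⁻¹ ζ] at h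
    exact h
  have hinv2 : ∀ ζ ζ' : ℂ, RelB G ζ ζ'⁻¹ → RelB G ζ ζ' := by
    intro ζ ζ' h
    unfold RelB at h ⊢
    rw [inv_inv, add_comm ζ'⁻¹ ζ'] at h
    exact h
  rcases lt_or_gt_of_ne ha with ha | ha <;> rcases lt_or_gt_of_ne hb with hb | hb
  · refine hinv1 _ _ (hinv2 _ _ (key α⁻¹ α'⁻¹ (-a) (-b) (inv_ne_zero hα) (inv_ne_zero hα') (by omega) (by omega) ?_ ?_))
    · simp only [wv_neg]
      exact hex
    · intro t ht x hx V
      rw [wv_neg] at hx ⊢
      exact hid t ht x hx V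
  · refine hinv1 _ _ (key α⁻¹ α' (-a) b (inv_ne_zero hα) hα' (by omega) hb ?_ ?_)
    · simp only [wv_neg]
      exact hex
    · intro t ht x hx V
      rw [wv_neg] at hx
      exact hid t ht x hx V
  · refine hinv2 _ _ (key α α'⁻¹ a (-b) hα (inv_ne_zero hα') ha (by omega) ?_ ?_)
    · simp only [wv_neg]
      exact hex
    · intro t ht x hx V
      rw [wv_neg]
      exact hid t ht x hx V
  · exact key α α' a b hα hα' ha hb hex hid

end Pool.Agent.K9h21.GP
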