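import Pool.Agent.K9h21.GP.Stm5

set_option autoImplicit false

/-!
# Project GPM: Morse polynomials. Stronger form of `S_END` and `S_GEOM`.
-/

namespace Pool.Agent.K9h21.GP

open Polynomial Filter Topology

/-- END2: the values; in the second case `G` has a symmetry. (Proof: that of `S_END`, with `G(γ X + δ) = γ^n G`, `γ^n = -1`.) -/
def S_END2 : Prop := ∀ (G : ℂ[X]) (n : ℕ) (α α' : ℂ) (a b : ℤ) (γ δ : ℂ), G.Monic → G.natDegree = n → 2 ≤ n →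
  α ≠ 0 → α' ≠ 0 → 0 < a → 0 < b → γ ≠ 0 →
  (∀ t : ℂ, t ≠ 0 → (∀ x, G.eval x = wv α a t → (derivative G).eval x ≠ 0) →
    ∀ x, G.eval x = wv α a t → G.eval (γ * x + δ) = wv α' b t) →
  α' + α'⁻¹ = α + α⁻¹ ∨ (α' + α'⁻¹ = -(α + α⁻¹) ∧ G.comp (C γ * X + C δ) = -G)

/-- the special values are equal, or opposite (this only if `G` has a symmetry) -/
def Rel (G : ℂ[X]) (ζ ζ' : ℂ) : Prop := ζ' + ζ'⁻¹ = ζ + ζ⁻¹ ∨ (ζ' + ζ'⁻¹ = -(ζ + ζ⁻¹) ∧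
    ∃ γ δ : ℂ, G.comp (C γ * X + C δ) = -G)

/-- GEOM: the result -/
def S_GEOM2 : Prop := ∀ (G : ℂ[X]) (r r' : ℕ) (α α' : ℂ) (a b : ℤ) (D : ℕ) (c : Fin r → Fin D → ℂ → ℂ)
    (c' : Fin r' → Fin D → ℂ → ℂ), FacM G r r' α α' a b D c c' → Rel G α α'

end Pool.Agent.K9h21.GP
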