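import Pool.Agent.K9h21.GP.Geo3

/-!
# Leaf GEO: assembly
-/

set_option autoImplicit false

namespace Pool.Agent.K9h21.GP

open Polynomial Filter Topology

namespace GEO_

/-- the ring of the functions analytic in `t ≠ 0` -/
def Dr : Subring (ℂ → ℂ) where
  carrier := {f | DifferentiableOn ℂ f {0}ᶜ}
  mul_mem' := fun h1 h2 => DifferentiableOn.mul h1 h2
  one_mem' := differentiableOn_const 1
  add_mem' := fun h1 h2 => DifferentiableOn.add h1 h2
  zero_mem' := differentiableOn_const 0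
  neg_mem' := fun h1 => DifferentiableOn.neg h1

/-- evaluation at `t` -/
def ev (t : ℂ) : Dr →+* ℂ := (Pi.evalRingHom (fun _ : ℂ => ℂ) t).comp Dr.subtype

/-- the constants -/
def cst : ℂ →+* Dr where
  toFun z := ⟨fun _ => z, differentiableOn_const z⟩
  map_one' := rfl
  map_mul' _ _ := rfl
  map_zero' := rfl
  map_add' _ _ := rfl

theorem ev_comp_cst (t : ℂ) : (ev t).comp cst = RingHom.id ℂ := rfl

theorem ev_mk (t : ℂ) (f : ℂ → ℂ) (hf : f ∈ Dr) : ev t ⟨f, hf⟩ = f t := rfl

theorem ev_coe (t : ℂ) (f : Dr) : ev t f = (f : ℂ → ℂ) t := rfl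

/-- the factor as a polynomial in `V` over `Dr[x]` -/
noncomputable def FF {r D : ℕ} (c : Fin r → Fin D → Dr) (G₁ : ℂ[X]) : Dr[X][X] :=
  (∑ m, C (∑ i, C (c m i) * X ^ (i : ℕ)) * X ^ (m : ℕ)) + C ((derivative G₁).map cst) * X ^ r

theorem FF_map {r D : ℕ} (c : Fin r → Fin D → Dr) (G₁ : ℂ[X]) (t x : ℂ) :
    (FF c G₁).map (eval₂RingHom (ev t) x) =
      pol (fun m => ∑ i, (c m i : ℂ → ℂ) t * x ^ (i : ℕ)) ((derivative G₁).eval x) := by
  unfold FF pol
  simp only [Polynomial.map_add, Polynomial.map_mul, Polynomial.map_pow, map_X, map_C,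
    Polynomial.map_sum, coe_eval₂RingHom, eval₂_finset_sum, eval₂_mul, eval₂_C, eval₂_pow, eval₂_X,
    ev_coe, eval₂_map, ev_comp_cst]
  rfl

theorem pol_eval {r D : ℕ} (c : Fin r → Fin D → ℂ → ℂ) (G₁ : ℂ[X]) (t x V : ℂ) :
    (pol (fun m => ∑ i, c m i t * x ^ (i : ℕ)) ((derivative G₁).eval x)).eval V =
      Th (fun m i => c m i t) (derivative G₁) x V := by
  unfold pol Th
  simp [eval_finsetSum]

end GEO_

open GEO_ in
theorem geo : S_GEO := by
  classical
  intro G₁ G n₁ r r' α α' a b hG₁ hn₁ hn₁0 hG hGn hr hr' hα hα' hb hcrit D c c' hc hc' hid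
  by_contra hno
  have hno' : ∀ t : ℂ, t ≠ 0 → (∃ x, (derivative G₁).eval x = 0 ∧ G₁.eval x = wv α a t) →
      ∀ y, (derivative G).eval y = 0 → G.eval y ≠ wv α' b t := fun t ht hx y hy he =>
    hno ⟨t, ht, hx, y, hy, he⟩
  have hG0 : derivative G ≠ 0 := by
    intro h
    have := natDegree_eq_zero_of_derivative_eq_zero h
    omega
  have hG₁0 : derivative G₁ ≠ 0 := by
    intro h
    have := natDegree_eq_zero_of_derivative_eq_zero h
    omega
  -- the branch points
  set Br : Set ℂ := {t | t ≠ 0 ∧ ∃ x, (derivative G₁).eval x = 0 ∧ G₁.eval x = wv α a t} with hBr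
  have hBrf : Br.Finite := by
    by_cases ha : a = 0
    · have : Br = ∅ := by
        apply Set.eq_empty_of_forall_notMem
        rintro t ⟨ht, x, hx, hxe⟩
        have hdeg : (derivative G).degree ≠ 0 := by
          intro h
          have h1 : (derivative G).natDegree = 0 := natDegree_eq_of_degree_eq_some h
          rw [natDegree_derivative] at h1
          omega
        obtain ⟨y, hy⟩ := IsAlgClosed.exists_root (derivative G) hdeg
        obtain ⟨t', ht', hte⟩ := wv_surj α' b hα' hb (G.eval y)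
        refine hno' t' ht' ⟨x, hx, ?_⟩ y hy hte.symm
        rw [hxe, ha]
        unfold wv
        simp
      rw [this]
      exact Set.finite_empty
    · have h1 : (⋃ x ∈ ((derivative G₁).roots.toFinset : Set ℂ),
          {t : ℂ | t ≠ 0 ∧ wv α a t = G₁.eval x}).Finite :=
        Set.Finite.biUnion ((derivative G₁).roots.toFinset.finite_toSet)
          fun x _ => wv_finite α a hα ha _
      refine h1.subset ?_
      rintro t ⟨ht, x, hx, hxe⟩
      rw [Set.mem_iUnion₂]
      refine ⟨x, ?_, ht, hxe.symm⟩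
      rw [Finset.mem_coe, Multiset.mem_toFinset, mem_roots hG₁0]
      exact hx
  set Z : Finset ℂ := insert 0 hBrf.toFinset with hZ
  have hZ0 : ∀ t, t ∉ Z → t ≠ 0 := fun t ht h => ht (h ▸ Finset.mem_insert_self _ _)
  have hZB : ∀ t, t ∉ Z → t ∉ Br := fun t ht h =>
    ht (Finset.mem_insert_of_mem (hBrf.mem_toFinset.2 h))
  -- the ring elements
  set cD : Fin r → Fin D → Dr := fun m i => ⟨c m i, hc m i⟩ with hcD
  set cD' : Fin r' → Fin D → Dr := fun m i => ⟨c' m i, hc' m i⟩ with hcD'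
  set w : Dr := ⟨wv α a, wv_diff α a hα⟩ with hw
  set R : Dr[X] := resultant (FF cD G₁) (FF cD' G₁) r r' with hR
  set N0 : Dr := resultant (G₁.map cst - C w) R n₁ R.natDegree with hN0
  set De : Dr := resultant (G₁.map cst - C w) ((derivative G₁).map cst) n₁ n₁ with hDe
  -- evaluation
  have hPmap : ∀ t, (G₁.map cst - C w).map (ev t) = G₁ - C (wv α a t) := by
    intro t
    rw [Polynomial.map_sub, Polynomial.map_map, ev_comp_cst, Polynomial.map_id, map_C]
    rfl
  have hPm : ∀ t, (G₁ - C (wv α a t)).Monic := by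
    intro t
    apply hG₁.sub_of_left
    calc degree (C (wv α a t)) ≤ 0 := degree_C_le
      _ < degree G₁ := by
        rw [← natDegree_pos_iff_degree_pos, hn₁]; exact hn₁0
  have hPn : ∀ t, (G₁ - C (wv α a t)).natDegree = n₁ := by
    intro t
    rw [natDegree_sub_C, hn₁]
  have hRev : ∀ t x, (R.map (ev t)).eval x = resultant
      (pol (fun m => ∑ i, c m i t * x ^ (i : ℕ)) ((derivative G₁).eval x))
      (pol (fun m => ∑ i, c' m i t * x ^ (i : ℕ)) ((derivative G₁).eval x)) r r' := by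
    intro t x
    have h1 := FF_map cD G₁ t x
    have h2 := FF_map cD' G₁ t x
    rw [← eval₂_eq_eval_map, ← coe_eval₂RingHom, hR, ← resultant_map_map, h1, h2]
  have hN0ev : ∀ t, ‖(N0 : ℂ → ℂ) t‖ = ((G₁ - C (wv α a t)).roots.map fun x =>
      ‖(R.map (ev t)).eval x‖).prod := by
    intro t
    have h1 : (N0 : ℂ → ℂ) t = resultant (G₁ - C (wv α a t)) (R.map (ev t)) n₁ R.natDegree := by
      rw [← ev_coe, hN0, ← resultant_map_map, hPmap]
    rw [h1]
    have h2 := norm_res (G₁ - C (wv α a t)) (R.map (ev t)) R.natDegree natDegree_map_le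
    rw [hPn, (hPm t).leadingCoeff, norm_one, one_pow, one_mul] at h2
    exact h2
  have hDeev : ∀ t, ‖(De : ℂ → ℂ) t‖ = ((G₁ - C (wv α a t)).roots.map fun x =>
      ‖(derivative G₁).eval x‖).prod := by
    intro t
    have h1 : (De : ℂ → ℂ) t = resultant (G₁ - C (wv α a t)) (derivative G₁) n₁ n₁ := by
      rw [← ev_coe, hDe, ← resultant_map_map, hPmap, Polynomial.map_map, ev_comp_cst,
        Polynomial.map_id]
    rw [h1]
    have h2 := norm_res (G₁ - C (wv α a t)) (derivative G₁) n₁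
      ((natDegree_derivative_le G₁).trans (by omega))
    rw [hPn, (hPm t).leadingCoeff, norm_one, one_pow, one_mul] at h2
    exact h2
  -- the resultants of the monic factors
  set ρ : ℂ → ℂ → ℝ := fun t x => pr
    (C ((derivative G₁).eval x)⁻¹ * pol (fun m => ∑ i, c m i t * x ^ (i : ℕ)) ((derivative G₁).eval x))
    (C ((derivative G₁).eval x)⁻¹ * pol (fun m => ∑ i, c' m i t * x ^ (i : ℕ)) ((derivative G₁).eval x))
    with hρ
  set n := r + r' with hn
  set e := r * (r - 1) + r' * (r' - 1) with he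
  obtain ⟨C₀, hC₀, hroot⟩ := root_bound G hG (by omega)
  have hn0 : 0 < n := by omega
  have hen : e + 1 ≤ (n - 1) * n := by
    obtain ⟨u, hu⟩ : ∃ u, r = u + 1 := ⟨r - 1, by omega⟩
    obtain ⟨u', hu'⟩ : ∃ u', r' = u' + 1 := ⟨r' - 1, by omega⟩
    rw [he, hn, hu, hu']
    simp only [Nat.add_sub_cancel]
    have : u + 1 + (u' + 1) - 1 = u + u' + 1 := by omega
    rw [this]
    nlinarith
  have hcard : (derivative G).roots.card = n - 1 := by
    rw [← (IsAlgClosed.splits (derivative G)).natDegree_eq_card_roots, natDegree_derivative, hGn]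
  have hgx : ∀ t, t ∉ Z → ∀ x ∈ (G₁ - C (wv α a t)).roots, G₁.eval x = wv α a t ∧
      (derivative G₁).eval x ≠ 0 := by
    intro t ht x hx
    have h1 := (mem_roots (hPm t).ne_zero).1 hx
    have h2 : G₁.eval x = wv α a t := by
      have h3 : (G₁ - C (wv α a t)).eval x = 0 := h1
      rw [eval_sub, eval_C, sub_eq_zero] at h3
      exact h3
    exact ⟨h2, fun h => hZB t ht ⟨hZ0 t ht, x, h, h2⟩⟩
  have hρpos : ∀ t, t ∉ Z → ∀ x ∈ (G₁ - C (wv α a t)).roots, 0 < ρ t x := by
    intro t ht x hx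
    obtain ⟨hx1, hx2⟩ := hgx t ht x hx
    rw [hρ]
    simp only
    unfold pr
    apply prod_pos
    intro y hy
    obtain ⟨v, hv, rfl⟩ := Multiset.mem_map.1 hy
    rw [norm_pos_iff]
    intro h0
    have hmon := monic_pol (fun m => ∑ i, c m i t * x ^ (i : ℕ)) ((derivative G₁).eval x) hx2
    have hv1 := (mem_roots hmon.1.ne_zero).1 hv
    have hv2 : (C ((derivative G₁).eval x)⁻¹ *
        pol (fun m => ∑ i, c m i t * x ^ (i : ℕ)) ((derivative G₁).eval x)).eval v = 0 := hv1
    rw [eval_mul, eval_C, pol_eval c G₁ t x v] at hv2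
    rw [eval_mul, eval_C, pol_eval c' G₁ t x v] at h0
    exact nonvan G₁ G α α' a b hα hα' hb hcrit r r' D c c' hc hc' hid t (hZ0 t ht) x hx1 hx2 v
      ((mul_eq_zero.1 hv2).resolve_left (inv_ne_zero hx2))
      ((mul_eq_zero.1 h0).resolve_left (inv_ne_zero hx2))
  have hρlow : ∀ t, t ∉ Z → ∀ x ∈ (G₁ - C (wv α a t)).roots,
      Lam G C₀ n e (wv α' b t) ≤ ρ t x ^ (2 * n) := by
    intro t ht x hx
    obtain ⟨hx1, hx2⟩ := hgx t ht x hx
    have hmon := monic_pol (fun m => ∑ i, c m i t * x ^ (i : ℕ)) ((derivative G₁).eval x) hx2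
    have hmon' := monic_pol (fun m => ∑ i, c' m i t * x ^ (i : ℕ)) ((derivative G₁).eval x) hx2
    have hQS : (C ((derivative G₁).eval x)⁻¹ *
        pol (fun m => ∑ i, c m i t * x ^ (i : ℕ)) ((derivative G₁).eval x)) *
        (C ((derivative G₁).eval x)⁻¹ *
        pol (fun m => ∑ i, c' m i t * x ^ (i : ℕ)) ((derivative G₁).eval x)) =
        G - C (wv α' b t) := by
      apply Polynomial.funext
      intro V
      rw [eval_mul, eval_mul, eval_mul, eval_C, pol_eval c G₁ t x V, pol_eval c' G₁ t x V,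
        eval_sub, eval_C]
      have h1 := hid t (hZ0 t ht) x hx1 V
      calc ((derivative G₁).eval x)⁻¹ * Th (fun m i => c m i t) (derivative G₁) x V *
            (((derivative G₁).eval x)⁻¹ * Th (fun m i => c' m i t) (derivative G₁) x V)
          = (((derivative G₁).eval x)⁻¹) ^ 2 * (Th (fun m i => c m i t) (derivative G₁) x V *
            Th (fun m i => c' m i t) (derivative G₁) x V) := by ring
        _ = _ := by
          rw [h1]
          field_simp
    have h2 := res_lower G hG C₀ hC₀ hroot _ _ hmon.1 hmon'.1 (wv α' b t) hQS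
      (by rw [hmon.2]; exact hr) n hGn.symm e (by rw [hmon.2, hmon'.2])
    unfold Lam
    rw [div_le_iff₀ (den_pos hC₀ n e _)]
    exact h2
  -- the function
  set H : ℂ → ℂ := fun t => (De : ℂ → ℂ) t ^ n / (N0 : ℂ → ℂ) t with hH
  have hHn : ∀ t, t ∉ Z → ‖H t‖ = ((G₁ - C (wv α a t)).roots.map fun x => (ρ t x)⁻¹).prod ∧
      (N0 : ℂ → ℂ) t ≠ 0 := by
    intro t ht
    have h1 : ∀ x ∈ (G₁ - C (wv α a t)).roots, ‖(R.map (ev t)).eval x‖ =
        ‖(derivative G₁).eval x‖ ^ n * ρ t x := by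
      intro x hx
      obtain ⟨hx1, hx2⟩ := hgx t ht x hx
      rw [hRev, res_norm _ _ _ hx2]
    have h2 : ‖(N0 : ℂ → ℂ) t‖ = ((G₁ - C (wv α a t)).roots.map fun x =>
        ‖(derivative G₁).eval x‖).prod ^ n * ((G₁ - C (wv α a t)).roots.map fun x => ρ t x).prod := by
      rw [hN0ev, Multiset.map_congr rfl h1, Multiset.prod_map_mul, Multiset.prod_map_pow]
    have h3 : 0 < ((G₁ - C (wv α a t)).roots.map fun x => ‖(derivative G₁).eval x‖).prod := by
      apply prod_pos
      intro y hy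
      obtain ⟨x, hx, rfl⟩ := Multiset.mem_map.1 hy
      exact norm_pos_iff.2 (hgx t ht x hx).2
    have h4 : 0 < ((G₁ - C (wv α a t)).roots.map fun x => ρ t x).prod := by
      apply prod_pos
      intro y hy
      obtain ⟨x, hx, rfl⟩ := Multiset.mem_map.1 hy
      exact hρpos t ht x hx
    have h5 : ((G₁ - C (wv α a t)).roots.map fun x => (ρ t x)⁻¹).prod =
        (((G₁ - C (wv α a t)).roots.map fun x => ρ t x).prod)⁻¹ := by
      rw [Multiset.prod_map_inv]
    constructor
    · rw [hH]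
      simp only
      rw [norm_div, norm_pow, hDeev, h2, h5]
      field_simp
    · rw [← norm_pos_iff, h2]
      positivity
  have hHb : ∀ t, t ∉ Z → ∀ M : ℝ, 0 < M → M ≤ Lam G C₀ n e (wv α' b t) →
      ‖H t‖ ^ (2 * n) ≤ (M⁻¹) ^ n₁ := by
    intro t ht M hM hL
    rw [(hHn t ht).1, ← Multiset.prod_map_pow]
    have hcd : (G₁ - C (wv α a t)).roots.card = n₁ := by
      rw [← (IsAlgClosed.splits (G₁ - C (wv α a t))).natDegree_eq_card_roots, hPn]
    refine (prod_le_pow _ (M⁻¹) ?_ ?_).trans (le_of_eq ?_)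
    · intro y hy
      obtain ⟨x, hx, rfl⟩ := Multiset.mem_map.1 hy
      exact pow_nonneg (inv_nonneg.2 (hρpos t ht x hx).le) _
    · intro y hy
      obtain ⟨x, hx, rfl⟩ := Multiset.mem_map.1 hy
      rw [inv_pow]
      exact inv_anti₀ hM (hL.trans (hρlow t ht x hx))
    · rw [Multiset.card_map, hcd]
  have h2n : 2 * n ≠ 0 := by omega
  -- differentiability
  have hHd : DifferentiableOn ℂ H ((Z : Set ℂ))ᶜ := by
    have hsub : ((Z : Set ℂ))ᶜ ⊆ ({0} : Set ℂ)ᶜ := by
      intro t ht h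
      exact hZ0 t (fun h' => ht (Finset.mem_coe.2 h')) h
    rw [hH]
    refine DifferentiableOn.fun_div ?_ ?_ ?_
    · exact (De.2.mono hsub).fun_pow n
    · exact N0.2.mono hsub
    · intro t ht
      exact (hHn t (fun h' => ht (Finset.mem_coe.2 h'))).2
  -- eventually not in `Z`
  have hnotZ : ∀ s : ℂ, ∀ᶠ t in 𝓝[≠] s, t ∉ Z := by
    intro s
    have h1 : IsClosed ((Z.erase s : Finset ℂ) : Set ℂ) := (Z.erase s).finite_toSet.isClosed
    have h2 : ∀ᶠ t in 𝓝 s, t ∉ ((Z.erase s : Finset ℂ) : Set ℂ) :=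
      h1.isOpen_compl.mem_nhds (by simp)
    filter_upwards [mem_nhdsWithin_of_mem_nhds h2, self_mem_nhdsWithin] with t ht hts hZt
    apply ht
    rw [Finset.mem_coe, Finset.mem_erase]
    exact ⟨hts, hZt⟩
  have hbound1 : ∀ x : ℝ, 0 ≤ x → ∀ K : ℝ, x ^ (2 * n) ≤ K → x ≤ max 1 K := by
    intro x hx K hK
    rcases le_or_gt x 1 with h1 | h1
    · exact h1.trans (le_max_left _ _)
    · refine le_trans ?_ (le_max_right _ _)
      refine le_trans ?_ hK
      calc x = x ^ 1 := (pow_one x).symm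
        _ ≤ x ^ (2 * n) := pow_le_pow_right₀ h1.le (by omega)
  have hzero : ∀ t, t ∉ Z → H t = 0 := by
    apply removal Z H hHd
    · intro s hs
      by_cases hs0 : s = 0
      · subst hs0
        obtain ⟨W, hW0, hW⟩ := Lam_large G hC₀ n e hcard hen 1 zero_le_one
        obtain ⟨T, hT1, hT⟩ := wv_proper α' b hα' hb W
        refine ⟨max 1 ((1 : ℝ)⁻¹ ^ n₁), ?_⟩
        have hball : ∀ᶠ t : ℂ in 𝓝[≠] 0, ‖t‖ < T⁻¹ := by
          apply mem_nhdsWithin_of_mem_nhds
          have : Tendsto (fun t : ℂ => ‖t‖) (𝓝 0) (𝓝 0) := by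
            simpa using (continuous_norm (E := ℂ)).tendsto 0
          exact this.eventually (gt_mem_nhds (inv_pos.2 (by linarith)))
        filter_upwards [hnotZ 0, hball] with t ht htT
        apply hbound1 _ (norm_nonneg _)
        apply hHb t ht 1 one_pos
        apply hW
        by_contra hcon
        push Not at hcon
        have h1 := (hT t (hZ0 t ht) hcon.le).2
        have h2 : 0 < ‖t‖ := norm_pos_iff.2 (hZ0 t ht)
        have h3 : T < ‖t‖⁻¹ := (lt_inv_comm₀ h2 (by linarith)).1 htT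
        linarith
      · have hsBr : s ∈ Br := by
          rcases Finset.mem_insert.1 hs with h | h
          · exact absurd h hs0
          · exact hBrf.mem_toFinset.1 h
        have hpos : 0 < Lam G C₀ n e (wv α' b s) :=
          Lam_pos G hG0 hC₀ n e _ (hno' s hsBr.1 hsBr.2)
        have hcont : Tendsto (fun t => Lam G C₀ n e (wv α' b t)) (𝓝 s)
            (𝓝 (Lam G C₀ n e (wv α' b s))) :=
          ((Lam_cont G hC₀ n e).tendsto _).comp
            (wv_deriv α' b s hα' hsBr.1).continuousAt.tendsto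
        have hev : ∀ᶠ t in 𝓝[≠] s, Lam G C₀ n e (wv α' b s) / 2 < Lam G C₀ n e (wv α' b t) :=
          mem_nhdsWithin_of_mem_nhds (hcont.eventually (lt_mem_nhds (half_lt_self hpos)))
        refine ⟨max 1 (((Lam G C₀ n e (wv α' b s)) / 2)⁻¹ ^ n₁), ?_⟩
        filter_upwards [hnotZ s, hev] with t ht hL
        apply hbound1 _ (norm_nonneg _)
        exact hHb t ht _ (by linarith) (le_of_lt hL)
    · rw [tendsto_zero_iff_norm_tendsto_zero]
      rw [Metric.tendsto_nhds]
      intro ε hε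
      set M : ℝ := max 1 (((ε / 2) ^ (2 * n))⁻¹) with hM
      have hM1 : 1 ≤ M := le_max_left _ _
      obtain ⟨W, hW0, hW⟩ := Lam_large G hC₀ n e hcard hen M (by linarith)
      obtain ⟨T, hT1, hT⟩ := wv_proper α' b hα' hb W
      have hfar : ∀ᶠ t : ℂ in cocompact ℂ, t ∈ (Metric.closedBall (0 : ℂ) T)ᶜ :=
        (isCompact_closedBall 0 T).compl_mem_cocompact
      have hZc : ∀ᶠ t : ℂ in cocompact ℂ, t ∈ ((Z : Set ℂ))ᶜ :=
        Z.finite_toSet.isCompact.compl_mem_cocompact
      filter_upwards [hfar, hZc] with t htT htZ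
      have ht : t ∉ Z := fun h => htZ (Finset.mem_coe.2 h)
      have htT' : T < ‖t‖ := by
        rw [Set.mem_compl_iff, mem_closedBall_zero_iff, not_le] at htT
        exact htT
      have hL : M ≤ Lam G C₀ n e (wv α' b t) := by
        apply hW
        by_contra hcon
        push Not at hcon
        have h1 := (hT t (hZ0 t ht) hcon.le).1
        linarith
      have h1 := hHb t ht M (by linarith) hL
      have h2 : (M⁻¹) ^ n₁ ≤ M⁻¹ := by
        have h3 : M⁻¹ ≤ 1 := inv_le_one_of_one_le₀ hM1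
        have h4 : 0 ≤ M⁻¹ := by positivity
        calc (M⁻¹) ^ n₁ ≤ (M⁻¹) ^ 1 := pow_le_pow_of_le_one h4 h3 hn₁0
          _ = M⁻¹ := pow_one _
      have h5 : M⁻¹ ≤ (ε / 2) ^ (2 * n) := by
        have h6 : ((ε / 2) ^ (2 * n))⁻¹ ≤ M := le_max_right _ _
        have h7 : 0 < (ε / 2) ^ (2 * n) := by positivity
        calc M⁻¹ ≤ (((ε / 2) ^ (2 * n))⁻¹)⁻¹ := inv_anti₀ (by positivity) h6
          _ = _ := inv_inv _
      have h8 : ‖H t‖ ≤ ε / 2 :=
        le_of_pow_le_pow_left₀ h2n (by positivity) (h1.trans (h2.trans h5))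
      rw [dist_zero_right, norm_norm]
      linarith
  -- contradiction
  obtain ⟨t, ht⟩ := Infinite.exists_notMem_finset Z
  have h1 := hzero t ht
  have h2 := (hHn t ht).1
  rw [h1, norm_zero] at h2
  have h3 : 0 < ((G₁ - C (wv α a t)).roots.map fun x => (ρ t x)⁻¹).prod := by
    apply prod_pos
    intro y hy
    obtain ⟨x, hx, rfl⟩ := Multiset.mem_map.1 hy
    exact inv_pos.2 (hρpos t ht x hx)
  linarith

end Pool.Agent.K9h21.GP
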