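import Pool.Agent.K9h21.GP.Stm

/-!
# Leaf GEO, part 1: lower bounds for the resultant of two complementary factors of `G - w`
-/

set_option autoImplicit false

namespace Pool.Agent.K9h21.GP.GEO_

open Polynomial Filter Topology

/-- `∏ |R(v)|` over the roots `v` of `P` -/
noncomputable def pr (P R : ℂ[X]) : ℝ := (P.roots.map fun v => ‖R.eval v‖).prod

theorem pr_nonneg (P R : ℂ[X]) : 0 ≤ pr P R := by
  unfold pr
  apply Multiset.prod_nonneg
  intro a ha
  obtain ⟨v, _, rfl⟩ := Multiset.mem_map.1 ha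
  exact norm_nonneg _

theorem norm_prod (s : Multiset ℂ) : ‖s.prod‖ = (s.map norm).prod := by
  induction s using Multiset.induction_on with
  | empty => simp
  | cons a s ih => rw [Multiset.prod_cons, norm_mul, ih, Multiset.map_cons, Multiset.prod_cons]

theorem norm_res (P R : ℂ[X]) (k : ℕ) (hk : R.natDegree ≤ k) :
    ‖resultant P R P.natDegree k‖ = ‖P.leadingCoeff‖ ^ k * pr P R := by
  rw [resultant_eq_prod_eval P R k hk (IsAlgClosed.splits P), norm_mul, norm_pow, norm_prod,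
    Multiset.map_map]
  rfl

theorem swap (P R : ℂ[X]) :
    ‖P.leadingCoeff‖ ^ R.natDegree * pr P R = ‖R.leadingCoeff‖ ^ P.natDegree * pr R P := by
  rw [← norm_res P R _ le_rfl, ← norm_res R P _ le_rfl, resultant_comm, norm_mul, norm_pow, norm_neg,
    norm_one, one_pow, one_mul]

theorem disc_mul (Q S : ℂ[X]) (hQ : Q.Monic) (hS : S.Monic) :
    pr (Q * S) (derivative (Q * S)) =
      pr Q (derivative Q) * pr S (derivative S) * (pr Q S) ^ 2 := by
  have h0 : Q * S ≠ 0 := mul_ne_zero hQ.ne_zero hS.ne_zero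
  have hsw : pr S Q = pr Q S := by
    have := swap Q S
    rw [hQ.leadingCoeff, hS.leadingCoeff] at this
    simpa using this.symm
  have h1 : (Q.roots.map fun v => ‖(derivative (Q * S)).eval v‖) =
      Q.roots.map fun v => ‖(derivative Q).eval v‖ * ‖S.eval v‖ := by
    apply Multiset.map_congr rfl
    intro v hv
    have hv0 : Q.eval v = 0 := (mem_roots hQ.ne_zero).1 hv
    rw [derivative_mul, eval_add, eval_mul, eval_mul, hv0, zero_mul, add_zero, norm_mul]
  have h2 : (S.roots.map fun v => ‖(derivative (Q * S)).eval v‖) =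
      S.roots.map fun v => ‖(derivative S).eval v‖ * ‖Q.eval v‖ := by
    apply Multiset.map_congr rfl
    intro v hv
    have hv0 : S.eval v = 0 := (mem_roots hS.ne_zero).1 hv
    rw [derivative_mul, eval_add, eval_mul, eval_mul, hv0, mul_zero, zero_add, norm_mul, mul_comm]
  have h3 : pr (Q * S) (derivative (Q * S)) =
      (pr Q (derivative Q) * pr Q S) * (pr S (derivative S) * pr S Q) := by
    unfold pr
    rw [roots_mul h0, Multiset.map_add, Multiset.prod_add, h1, h2, Multiset.prod_map_mul,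
      Multiset.prod_map_mul]
  rw [h3, hsw]
  ring

theorem crit (P : ℂ[X]) (hP : P.Monic) (hn : 0 < P.natDegree) :
    pr P (derivative P) = (P.natDegree : ℝ) ^ P.natDegree * pr (derivative P) P := by
  have h := swap P (derivative P)
  have h1 : (derivative P).leadingCoeff = (P.natDegree : ℂ) := by
    rw [leadingCoeff, natDegree_derivative, coeff_derivative,
      Nat.sub_add_cancel hn, hP.coeff_natDegree, one_mul]
    have : ((P.natDegree - 1 : ℕ) : ℂ) + 1 = (P.natDegree : ℂ) := by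
      exact_mod_cast congrArg (Nat.cast (R := ℂ)) (Nat.sub_add_cancel hn)
    exact this
  rw [hP.leadingCoeff, norm_one, one_pow, one_mul, h1, Complex.norm_natCast] at h
  exact h

theorem prod_le_pow (s : Multiset ℝ) (c : ℝ) (h0 : ∀ a ∈ s, 0 ≤ a) (h : ∀ a ∈ s, a ≤ c) :
    s.prod ≤ c ^ s.card := by
  induction s using Multiset.induction_on with
  | empty => simp
  | cons a s ih =>
    rw [Multiset.prod_cons, Multiset.card_cons, pow_succ, mul_comm]
    have ha0 := h0 a (Multiset.mem_cons_self a s)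
    have ha := h a (Multiset.mem_cons_self a s)
    exact mul_le_mul (ih (fun b hb => h0 b (Multiset.mem_cons_of_mem hb))
      fun b hb => h b (Multiset.mem_cons_of_mem hb)) ha ha0 (pow_nonneg (ha0.trans ha) _)

theorem dbound (Q : ℂ[X]) (hQ : Q.Monic) (B : ℝ) (hB : 0 ≤ B) (h : ∀ v ∈ Q.roots, ‖v‖ ≤ B) :
    pr Q (derivative Q) ≤ (2 * B) ^ (Q.natDegree * (Q.natDegree - 1)) := by
  classical
  have hc : Q.roots.card = Q.natDegree := (IsAlgClosed.splits Q).natDegree_eq_card_roots.symm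
  have h1 : ∀ v ∈ Q.roots, ‖(derivative Q).eval v‖ ≤ (2 * B) ^ (Q.natDegree - 1) := by
    intro v hv
    rw [(IsAlgClosed.splits Q).eval_root_derivative hQ hv, norm_prod]
    refine (prod_le_pow _ (2 * B) ?_ ?_).trans (le_of_eq ?_)
    · intro a ha
      obtain ⟨u, _, rfl⟩ := Multiset.mem_map.1 ha
      exact norm_nonneg _
    · intro a ha
      obtain ⟨u, hu, rfl⟩ := Multiset.mem_map.1 ha
      obtain ⟨u', hu', rfl⟩ := Multiset.mem_map.1 hu
      calc ‖v - u'‖ ≤ ‖v‖ + ‖u'‖ := norm_sub_le _ _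
        _ ≤ B + B := add_le_add (h v hv) (h u' (Multiset.mem_of_mem_erase hu'))
        _ = 2 * B := by ring
    · rw [Multiset.card_map, Multiset.card_map, Multiset.card_erase_of_mem hv, hc]
      rfl
  unfold pr
  refine (prod_le_pow _ ((2 * B) ^ (Q.natDegree - 1)) ?_ ?_).trans (le_of_eq ?_)
  · intro a ha
    obtain ⟨u, _, rfl⟩ := Multiset.mem_map.1 ha
    exact norm_nonneg _
  · intro a ha
    obtain ⟨u, hu, rfl⟩ := Multiset.mem_map.1 ha
    exact h1 u hu
  · rw [Multiset.card_map, hc, ← pow_mul, mul_comm (Q.natDegree - 1)]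

/-- the roots of `G - w` are at most of the size of `|w| ^ (1/n)` -/
theorem root_bound (G : ℂ[X]) (hG : G.Monic) (hn : 0 < G.natDegree) :
    ∃ C₀ : ℝ, 1 ≤ C₀ ∧ ∀ v : ℂ, ‖v‖ ^ G.natDegree ≤ C₀ * (1 + ‖G.eval v‖) := by
  set n := G.natDegree with hndef
  set A : ℝ := ∑ i ∈ Finset.range n, ‖G.coeff i‖ with hA
  have hA0 : 0 ≤ A := Finset.sum_nonneg fun i _ => norm_nonneg _
  set K : ℝ := max 1 (2 * A) with hK
  have hK1 : 1 ≤ K := le_max_left _ _
  refine ⟨K ^ n + 2, by linarith [pow_nonneg (zero_le_one.trans hK1) n], ?_⟩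
  intro v
  have hw0 : 0 ≤ ‖G.eval v‖ := norm_nonneg _
  have hKn : 0 ≤ K ^ n := pow_nonneg (zero_le_one.trans hK1) n
  rcases le_or_gt ‖v‖ K with hv | hv
  · have h1 : ‖v‖ ^ n ≤ K ^ n := pow_le_pow_left₀ (norm_nonneg _) hv n
    nlinarith
  · have hv1 : 1 < ‖v‖ := lt_of_le_of_lt hK1 hv
    have hv2 : 2 * A < ‖v‖ := lt_of_le_of_lt (le_max_right _ _) hv
    have h1 : G.eval v = v ^ n + ∑ i ∈ Finset.range n, G.coeff i * v ^ i := by
      conv_lhs => rw [hG.as_sum]
      rw [eval_add, eval_pow, eval_X, eval_finsetSum]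
      simp [hndef]
    have h2 : ‖∑ i ∈ Finset.range n, G.coeff i * v ^ i‖ ≤ A * ‖v‖ ^ (n - 1) := by
      refine (norm_sum_le _ _).trans ?_
      rw [hA, Finset.sum_mul]
      apply Finset.sum_le_sum
      intro i hi
      rw [norm_mul, norm_pow]
      apply mul_le_mul_of_nonneg_left _ (norm_nonneg _)
      apply pow_le_pow_right₀ hv1.le
      have := Finset.mem_range.1 hi
      omega
    have h3 : ‖v‖ ^ n = ‖v‖ ^ (n - 1) * ‖v‖ := by
      rw [← pow_succ, Nat.sub_add_cancel hn]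
    have h4 : A * ‖v‖ ^ (n - 1) ≤ ‖v‖ ^ n / 2 := by
      rw [h3]
      have : 0 ≤ ‖v‖ ^ (n - 1) := pow_nonneg (norm_nonneg _) _
      nlinarith
    have h5 : ‖v‖ ^ n ≤ ‖G.eval v‖ + A * ‖v‖ ^ (n - 1) := by
      have h6 : v ^ n = G.eval v - ∑ i ∈ Finset.range n, G.coeff i * v ^ i := by
        rw [h1]; ring
      calc ‖v‖ ^ n = ‖v ^ n‖ := (norm_pow _ _).symm
        _ = ‖G.eval v - ∑ i ∈ Finset.range n, G.coeff i * v ^ i‖ := by rw [← h6]
        _ ≤ ‖G.eval v‖ + ‖∑ i ∈ Finset.range n, G.coeff i * v ^ i‖ := norm_sub_le _ _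
        _ ≤ _ := by linarith
    nlinarith

/-- lower bound for the resultant -/
theorem res_lower (G : ℂ[X]) (hG : G.Monic) (C₀ : ℝ) (hC1 : 1 ≤ C₀)
    (hC : ∀ v : ℂ, ‖v‖ ^ G.natDegree ≤ C₀ * (1 + ‖G.eval v‖))
    (Q S : ℂ[X]) (hQ : Q.Monic) (hS : S.Monic) (w : ℂ) (hQS : Q * S = G - C w)
    (hr : 0 < Q.natDegree) (n : ℕ) (hn : n = G.natDegree) (e : ℕ)
    (he : e = Q.natDegree * (Q.natDegree - 1) + S.natDegree * (S.natDegree - 1)) :
    (((derivative G).roots.map fun y => ‖G.eval y - w‖).prod) ^ n ≤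
      (pr Q S) ^ (2 * n) * (2 ^ (e * n) * (C₀ * (1 + ‖w‖)) ^ e) := by
  have hd : derivative (Q * S) = derivative G := by
    rw [hQS, derivative_sub, derivative_C, sub_zero]
  have hPm : (Q * S).Monic := hQ.mul hS
  have hPn : (Q * S).natDegree = Q.natDegree + S.natDegree := hQ.natDegree_mul hS
  have hGn : G.natDegree = Q.natDegree + S.natDegree := by
    rw [← hPn, hQS, natDegree_sub_C]
  have hn0 : 0 < n := by omega
  have h1 := disc_mul Q S hQ hS
  rw [crit _ hPm (by omega), hd, hPn] at h1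
  have h2 : pr (derivative G) (Q * S) = ((derivative G).roots.map fun y => ‖G.eval y - w‖).prod := by
    unfold pr
    rw [hQS]
    congr 1
    apply Multiset.map_congr rfl
    intro y _
    rw [eval_sub, eval_C]
  rw [h2] at h1
  set Pi0 := ((derivative G).roots.map fun y => ‖G.eval y - w‖).prod with hPi
  have hPi0 : 0 ≤ Pi0 := by
    rw [← h2]; exact pr_nonneg _ _
  -- the roots
  set Y := C₀ * (1 + ‖w‖) with hY
  have hY1 : 1 ≤ Y := by
    have := norm_nonneg w
    nlinarith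
  have hY0 : 0 ≤ Y := zero_le_one.trans hY1
  obtain ⟨B, hB0, hBn⟩ : ∃ B : ℝ, 0 ≤ B ∧ B ^ n = Y :=
    ⟨Y ^ ((n : ℝ)⁻¹), Real.rpow_nonneg hY0 _, Real.rpow_inv_natCast_pow hY0 hn0.ne'⟩
  have hroot : ∀ v, (Q * S).eval v = 0 → ‖v‖ ≤ B := by
    intro v hv
    have hv2 : G.eval v = w := by
      rw [hQS, eval_sub, eval_C, sub_eq_zero] at hv
      exact hv
    have h3 := hC v
    rw [hv2, ← hn] at h3
    have h4 : ‖v‖ ^ n ≤ B ^ n := by rw [hBn]; exact h3
    exact le_of_pow_le_pow_left₀ hn0.ne' hB0 h4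
  have hQb := dbound Q hQ B hB0 (fun v hv => hroot v (by
    rw [eval_mul, (mem_roots hQ.ne_zero).1 hv, zero_mul]))
  have hSb := dbound S hS B hB0 (fun v hv => hroot v (by
    rw [eval_mul, (mem_roots hS.ne_zero).1 hv, mul_zero]))
  have h5 : Pi0 ≤ (2 * B) ^ e * (pr Q S) ^ 2 := by
    have h6 : (1 : ℝ) ≤ ((Q.natDegree + S.natDegree : ℕ) : ℝ) ^ (Q.natDegree + S.natDegree) := by
      apply one_le_pow₀
      have : 1 ≤ Q.natDegree + S.natDegree := by omega
      exact_mod_cast this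
    calc Pi0 ≤ ((Q.natDegree + S.natDegree : ℕ) : ℝ) ^ (Q.natDegree + S.natDegree) * Pi0 :=
          le_mul_of_one_le_left hPi0 h6
      _ = pr Q (derivative Q) * pr S (derivative S) * (pr Q S) ^ 2 := h1
      _ ≤ (2 * B) ^ (Q.natDegree * (Q.natDegree - 1)) * (2 * B) ^ (S.natDegree * (S.natDegree - 1)) *
          (pr Q S) ^ 2 := by
          apply mul_le_mul_of_nonneg_right _ (sq_nonneg _)
          exact mul_le_mul hQb hSb (pr_nonneg _ _) (by positivity)
      _ = (2 * B) ^ e * (pr Q S) ^ 2 := by rw [← pow_add, he]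
  calc Pi0 ^ n ≤ ((2 * B) ^ e * (pr Q S) ^ 2) ^ n := pow_le_pow_left₀ hPi0 h5 n
    _ = (pr Q S) ^ (2 * n) * (2 ^ (e * n) * (B ^ n) ^ e) := by
        rw [mul_pow, ← pow_mul, ← pow_mul, ← pow_mul, mul_pow]
        ring
    _ = _ := by rw [hBn]

end Pool.Agent.K9h21.GP.GEO_
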