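import Pool.Agent.K9h21.GP.Stm

/-!
# Leaf GEO, part 2: removable singularities, the common roots, the function `w(t)`
-/

set_option autoImplicit false

namespace Pool.Agent.K9h21.GP.GEO_

open Polynomial Filter Topology

theorem removal (Z : Finset ℂ) : ∀ (H : ℂ → ℂ), DifferentiableOn ℂ H ((Z : Set ℂ))ᶜ →
    (∀ s ∈ Z, ∃ C : ℝ, ∀ᶠ t in 𝓝[≠] s, ‖H t‖ ≤ C) → Tendsto H (cocompact ℂ) (𝓝 0) →
    ∀ t, t ∉ Z → H t = 0 := by
  classical
  induction Z using Finset.induction_on with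
  | empty =>
    intro H hd _ hi t _
    rw [Finset.coe_empty, Set.compl_empty] at hd
    exact (differentiableOn_univ.1 hd).apply_eq_of_tendsto_cocompact t hi
  | insert s Z hs ih =>
    intro H hd hb hi t ht
    have hZ : IsOpen ((Z : Set ℂ))ᶜ := Z.finite_toSet.isClosed.isOpen_compl
    have hs' : s ∈ ((Z : Set ℂ))ᶜ := fun h => hs (Finset.mem_coe.1 h)
    obtain ⟨C, hC⟩ := hb s (Finset.mem_insert_self _ _)
    have h1 : DifferentiableOn ℂ (Function.update H s (limUnder (𝓝[≠] s) H)) ((Z : Set ℂ))ᶜ := by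
      apply Complex.differentiableOn_update_limUnder_of_isLittleO (hZ.mem_nhds hs')
      · apply hd.mono
        intro z hz
        rw [Set.mem_compl_iff, Finset.coe_insert, Set.mem_insert_iff, not_or]
        exact ⟨fun h => hz.2 (Set.mem_singleton_iff.2 h), hz.1⟩
      · apply Filter.IsBoundedUnder.isLittleO_sub_self_inv
        refine ⟨C + ‖H s‖, ?_⟩
        rw [eventually_map]
        filter_upwards [hC] with z hz
        exact (norm_sub_le _ _).trans (by linarith)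
    have hev : ∀ z, z ≠ s → Function.update H s (limUnder (𝓝[≠] s) H) z = H z := fun z hz =>
      Function.update_of_ne hz _ _
    have hts : t ≠ s := fun h => ht (h ▸ Finset.mem_insert_self _ _)
    rw [← hev t hts]
    apply ih _ h1
    · intro u hu
      obtain ⟨C', hC'⟩ := hb u (Finset.mem_insert_of_mem hu)
      have hus : u ≠ s := fun h => hs (h ▸ hu)
      refine ⟨C', ?_⟩
      have h2 : ∀ᶠ z in 𝓝[≠] u, z ≠ s :=
        mem_nhdsWithin_of_mem_nhds (isOpen_ne.mem_nhds hus)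
      filter_upwards [hC', h2] with z hz hz2
      rw [hev z hz2]
      exact hz
    · refine hi.congr' ?_
      have h2 : ∀ᶠ z in cocompact ℂ, z ∈ ({s} : Set ℂ)ᶜ := isCompact_singleton.compl_mem_cocompact
      filter_upwards [h2] with z hz
      exact (hev z hz).symm
    · exact fun h => ht (Finset.mem_insert_of_mem h)

/-- the derivative of `wv` -/
theorem wv_deriv (α : ℂ) (a : ℤ) (t : ℂ) (hα : α ≠ 0) (ht : t ≠ 0) :
    HasDerivAt (wv α a) (α * (a * t ^ (a - 1)) * (1 - ((α * t ^ a) ^ 2)⁻¹)) t := by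
  have h1 : HasDerivAt (fun t : ℂ => α * t ^ a) (α * (a * t ^ (a - 1))) t :=
    (hasDerivAt_zpow a t (Or.inl ht)).const_mul α
  have h0 : α * t ^ a ≠ 0 := mul_ne_zero hα (zpow_ne_zero _ ht)
  have h2 := h1.add (h1.inv h0)
  refine HasDerivAt.congr_deriv h2 ?_
  field_simp
  ring

theorem wv_diff (α : ℂ) (a : ℤ) (hα : α ≠ 0) : DifferentiableOn ℂ (wv α a) {0}ᶜ := fun t ht =>
  (wv_deriv α a t hα ht).differentiableAt.differentiableWithinAt

theorem Th_deriv_V {r D : ℕ} (c : Fin r → Fin D → ℂ) (d : ℂ[X]) (x v : ℂ) :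
    ∃ A : ℂ, HasDerivAt (fun V => Th c d x V) A v := by
  have h : Differentiable ℂ (fun V => Th c d x V) := by
    unfold Th
    fun_prop
  exact ⟨_, (h v).hasDerivAt⟩

theorem nonvan (G₁ G : ℂ[X]) (α α' : ℂ) (a b : ℤ) (hα : α ≠ 0) (hα' : α' ≠ 0) (hb : b ≠ 0)
    (hG : ∀ x, (derivative G).eval x = 0 → (G.eval x) ^ 2 ≠ 4) (r r' D : ℕ)
    (c : Fin r → Fin D → ℂ → ℂ) (c' : Fin r' → Fin D → ℂ → ℂ)
    (hc : ∀ m i, DifferentiableOn ℂ (c m i) {0}ᶜ) (hc' : ∀ m i, DifferentiableOn ℂ (c' m i) {0}ᶜ)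
    (hid : ∀ t : ℂ, t ≠ 0 → ∀ x : ℂ, G₁.eval x = wv α a t → ∀ V : ℂ,
      Th (fun m i => c m i t) (derivative G₁) x V * Th (fun m i => c' m i t) (derivative G₁) x V =
      (derivative G₁).eval x ^ 2 * (G.eval V - wv α' b t))
    (t₀ : ℂ) (ht₀ : t₀ ≠ 0) (x₀ : ℂ) (hx₀ : G₁.eval x₀ = wv α a t₀)
    (hx : (derivative G₁).eval x₀ ≠ 0) (v : ℂ)
    (h1 : Th (fun m i => c m i t₀) (derivative G₁) x₀ v = 0)
    (h2 : Th (fun m i => c' m i t₀) (derivative G₁) x₀ v = 0) : False := by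
  have hg2 : (derivative G₁).eval x₀ ^ 2 ≠ 0 := pow_ne_zero _ hx
  -- the value
  have hval : G.eval v = wv α' b t₀ := by
    have h := hid t₀ ht₀ x₀ hx₀ v
    rw [h1, zero_mul] at h
    have h3 := (mul_eq_zero.1 h.symm).resolve_left hg2
    exact sub_eq_zero.1 h3
  -- the derivative in `V`
  have hder : (derivative G).eval v = 0 := by
    obtain ⟨A, hA⟩ := Th_deriv_V (fun m i => c m i t₀) (derivative G₁) x₀ v
    obtain ⟨B, hB⟩ := Th_deriv_V (fun m i => c' m i t₀) (derivative G₁) x₀ v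
    have h3 := hA.mul hB
    have h4 : HasDerivAt (fun V => (derivative G₁).eval x₀ ^ 2 * (G.eval V - wv α' b t₀))
        ((derivative G₁).eval x₀ ^ 2 * (derivative G).eval v) v :=
      ((G.hasDerivAt v).sub_const _).const_mul _
    have h5 : (fun V => (derivative G₁).eval x₀ ^ 2 * (G.eval V - wv α' b t₀)) =
        (fun V => Th (fun m i => c m i t₀) (derivative G₁) x₀ V) *
          fun V => Th (fun m i => c' m i t₀) (derivative G₁) x₀ V := by
      funext V
      exact (hid t₀ ht₀ x₀ hx₀ V).symm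
    rw [h5] at h4
    have h6 := h4.unique h3
    rw [h1, h2, mul_zero, zero_mul, add_zero] at h6
    exact (mul_eq_zero.1 h6).resolve_left hg2
  -- the branch
  have hst : HasStrictDerivAt (fun x => G₁.eval x) ((derivative G₁).eval x₀) x₀ :=
    G₁.hasStrictDerivAt x₀
  set ψ := hst.localInverse (fun x => G₁.eval x) ((derivative G₁).eval x₀) x₀ hx with hψ
  have hψd : HasStrictDerivAt ψ ((derivative G₁).eval x₀)⁻¹ (G₁.eval x₀) :=
    hst.to_localInverse hx
  have hψ0 : ψ (G₁.eval x₀) = x₀ := by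
    have := (hst.hasStrictFDerivAt_equiv hx).localInverse_apply_image
    exact this
  have hψr : ∀ᶠ y in 𝓝 (G₁.eval x₀), G₁.eval (ψ y) = y :=
    (hst.hasStrictFDerivAt_equiv hx).eventually_right_inverse
  set xb : ℂ → ℂ := fun t => ψ (wv α a t) with hxb
  have hwd := wv_deriv α a t₀ hα ht₀
  have hxd : DifferentiableAt ℂ xb t₀ := by
    have h3 : DifferentiableAt ℂ ψ (wv α a t₀) := by
      rw [← hx₀]
      exact hψd.hasDerivAt.differentiableAt
    exact h3.comp t₀ hwd.differentiableAt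
  have hxb0 : xb t₀ = x₀ := by
    rw [hxb]
    simp only
    rw [← hx₀, hψ0]
  have hxr : ∀ᶠ t in 𝓝 t₀, G₁.eval (xb t) = wv α a t := by
    have h3 : Tendsto (wv α a) (𝓝 t₀) (𝓝 (G₁.eval x₀)) := by
      rw [hx₀]
      exact hwd.continuousAt
    exact h3.eventually hψr
  have ht0 : ∀ᶠ t in 𝓝 t₀, t ≠ 0 := isOpen_ne.mem_nhds ht₀
  have hTd : ∀ (s : ℕ) (cc : Fin s → Fin D → ℂ → ℂ), (∀ m i, DifferentiableOn ℂ (cc m i) {0}ᶜ) →
      DifferentiableAt ℂ (fun t => Th (fun m i => cc m i t) (derivative G₁) (xb t) v) t₀ := by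
    intro s cc hcc
    have h3 : ∀ m i, DifferentiableAt ℂ (cc m i) t₀ := fun m i =>
      (hcc m i).differentiableAt (isOpen_compl_singleton.mem_nhds ht₀)
    have h4 : DifferentiableAt ℂ (fun t => (derivative G₁).eval (xb t)) t₀ :=
      ((derivative G₁).differentiable (xb t₀)).comp t₀ hxd
    unfold Th
    refine DifferentiableAt.add ?_ (h4.mul_const _)
    refine DifferentiableAt.fun_sum fun m _ => ?_
    refine DifferentiableAt.mul_const ?_ _
    refine DifferentiableAt.fun_sum fun i _ => ?_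
    exact (h3 m i).mul (hxd.pow _)
  obtain ⟨A, hA⟩ : ∃ A, HasDerivAt (fun t => Th (fun m i => c m i t) (derivative G₁) (xb t) v) A t₀ :=
    ⟨_, (hTd r c hc).hasDerivAt⟩
  obtain ⟨B, hB⟩ : ∃ B, HasDerivAt (fun t => Th (fun m i => c' m i t) (derivative G₁) (xb t) v) B t₀ :=
    ⟨_, (hTd r' c' hc').hasDerivAt⟩
  have h3 := hA.mul hB
  obtain ⟨E, hE⟩ : ∃ E, HasDerivAt (fun t => (derivative G₁).eval (xb t) ^ 2) E t₀ := by
    have h4 : DifferentiableAt ℂ (fun t => (derivative G₁).eval (xb t)) t₀ :=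
      ((derivative G₁).differentiable (xb t₀)).comp t₀ hxd
    exact ⟨_, (h4.pow 2).hasDerivAt⟩
  have hwd' := wv_deriv α' b t₀ hα' ht₀
  have h4 := hE.mul (hwd'.const_sub (G.eval v))
  have h5 : (fun t => Th (fun m i => c m i t) (derivative G₁) (xb t) v) *
      (fun t => Th (fun m i => c' m i t) (derivative G₁) (xb t) v) =ᶠ[𝓝 t₀]
      ((fun t => (derivative G₁).eval (xb t) ^ 2) * fun t => G.eval v - wv α' b t) := by
    filter_upwards [hxr, ht0] with t h6 h7
    exact hid t h7 (xb t) h6 v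
  have h6 := (h4.congr_of_eventuallyEq h5).unique h3
  simp only [hxb0, h1, h2, hval, sub_self, mul_zero, zero_mul, add_zero, zero_add] at h6
  have h7 := (mul_eq_zero.1 h6).resolve_left hg2
  rw [neg_eq_zero] at h7
  have h8 : α' * (b * t₀ ^ (b - 1)) ≠ 0 :=
    mul_ne_zero hα' (mul_ne_zero (by exact_mod_cast hb) (zpow_ne_zero _ ht₀))
  have h9 := (mul_eq_zero.1 h7).resolve_left h8
  have hu0 : α' * t₀ ^ b ≠ 0 := mul_ne_zero hα' (zpow_ne_zero _ ht₀)
  have h10 : (α' * t₀ ^ b) ^ 2 = 1 := by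
    have h11 : ((α' * t₀ ^ b) ^ 2)⁻¹ = 1 := (sub_eq_zero.1 h9).symm
    rw [inv_eq_one] at h11
    exact h11
  apply hG v hder
  rw [hval]
  unfold wv
  set u := α' * t₀ ^ b with hu
  have h12 : u⁻¹ = u := by
    rw [inv_eq_iff_eq_inv]
    field_simp
    exact h10
  rw [h12]
  calc (u + u) ^ 2 = 4 * u ^ 2 := by ring
    _ = 4 := by rw [h10]; ring

end Pool.Agent.K9h21.GP.GEO_
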