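import Pool.Agent.K9h21.GP.Geo1
import Pool.Agent.K9h21.GP.Geo2

/-!
# Leaf GEO, part 3: the function `w(t)`, growth of the lower bound
-/

set_option autoImplicit false

namespace Pool.Agent.K9h21.GP.GEO_

open Polynomial Filter Topology

theorem pow_natAbs (t : ℂ) (b : ℤ) : t ^ b.natAbs = t ^ b ∨ t ^ b.natAbs = (t ^ b)⁻¹ := by
  rcases Int.natAbs_eq b with h | h
  · left
    conv_rhs => rw [h]
    rw [zpow_natCast]
  · right
    conv_rhs => rw [h]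
    rw [zpow_neg, inv_inv, zpow_natCast]

theorem le_of_pow_le' {x Y : ℝ} {m : ℕ} (hx : 0 ≤ x) (hm : m ≠ 0) (hY : 1 ≤ Y) (h : x ^ m ≤ Y) :
    x ≤ Y := by
  rcases le_or_gt x 1 with h1 | h1
  · exact h1.trans hY
  · refine le_trans ?_ h
    calc x = x ^ 1 := (pow_one x).symm
      _ ≤ x ^ m := pow_le_pow_right₀ h1.le (Nat.one_le_iff_ne_zero.2 hm)

theorem wv_proper (α : ℂ) (b : ℤ) (hα : α ≠ 0) (hb : b ≠ 0) (M : ℝ) :
    ∃ T : ℝ, 1 ≤ T ∧ ∀ t : ℂ, t ≠ 0 → ‖wv α b t‖ ≤ M → ‖t‖ ≤ T ∧ ‖t‖⁻¹ ≤ T := by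
  have hα0 : 0 < ‖α‖ := norm_pos_iff.2 hα
  set Y : ℝ := (|M| + 1) * (‖α‖⁻¹ + ‖α‖) + 1 with hY
  have hM0 : 0 ≤ |M| := abs_nonneg M
  have hY1 : 1 ≤ Y := by
    have : 0 ≤ (|M| + 1) * (‖α‖⁻¹ + ‖α‖) := by positivity
    linarith
  refine ⟨Y, hY1, ?_⟩
  intro t ht hw
  set u : ℂ := α * t ^ b with hu
  have hu0 : u ≠ 0 := mul_ne_zero hα (zpow_ne_zero _ ht)
  have hwu : wv α b t = u + u⁻¹ := rfl
  rw [hwu] at hw
  have hw' : ‖u + u⁻¹‖ ≤ |M| := hw.trans (le_abs_self M)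
  have key : ∀ z : ℂ, z ≠ 0 → ‖z + z⁻¹‖ ≤ |M| → ‖z‖ ≤ |M| + 1 := by
    intro z hz h
    rcases le_or_gt ‖z‖ 1 with h1 | h1
    · linarith
    · have h2 : ‖z⁻¹‖ ≤ 1 := by
        rw [norm_inv]
        exact inv_le_one_of_one_le₀ h1.le
      calc ‖z‖ = ‖(z + z⁻¹) - z⁻¹‖ := by rw [add_sub_cancel_right]
        _ ≤ ‖z + z⁻¹‖ + ‖z⁻¹‖ := norm_sub_le _ _
        _ ≤ |M| + 1 := add_le_add h h2
  have h1 : ‖u‖ ≤ |M| + 1 := key u hu0 hw'
  have h2 : ‖u⁻¹‖ ≤ |M| + 1 := key u⁻¹ (inv_ne_zero hu0) (by rw [inv_inv, add_comm]; exact hw')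
  have h3 : ‖t ^ b‖ ≤ Y := by
    have e : t ^ b = α⁻¹ * u := by rw [hu, inv_mul_cancel_left₀ hα]
    rw [e, norm_mul, norm_inv]
    have : ‖α‖⁻¹ * ‖u‖ ≤ ‖α‖⁻¹ * (|M| + 1) := mul_le_mul_of_nonneg_left h1 (by positivity)
    have h4 : 0 ≤ (|M| + 1) * ‖α‖ := by positivity
    nlinarith
  have h4 : ‖(t ^ b)⁻¹‖ ≤ Y := by
    have e : (t ^ b)⁻¹ = α * u⁻¹ := by rw [hu, mul_inv, mul_inv_cancel_left₀ hα]
    rw [e, norm_mul]
    have : ‖α‖ * ‖u⁻¹‖ ≤ ‖α‖ * (|M| + 1) := mul_le_mul_of_nonneg_left h2 hα0.le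
    have h4 : 0 ≤ (|M| + 1) * ‖α‖⁻¹ := by positivity
    nlinarith
  have hm : b.natAbs ≠ 0 := Int.natAbs_ne_zero.2 hb
  have h5 : ‖t ^ b.natAbs‖ ≤ Y ∧ ‖(t ^ b.natAbs)⁻¹‖ ≤ Y := by
    rcases pow_natAbs t b with h | h
    · rw [h]; exact ⟨h3, h4⟩
    · rw [h, inv_inv]; exact ⟨h4, h3⟩
  rw [norm_inv, norm_pow, ← inv_pow] at h5
  exact ⟨le_of_pow_le' (norm_nonneg _) hm hY1 h5.1,
    le_of_pow_le' (inv_nonneg.2 (norm_nonneg _)) hm hY1 h5.2⟩

theorem wv_surj (α : ℂ) (b : ℤ) (hα : α ≠ 0) (hb : b ≠ 0) (κ : ℂ) :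
    ∃ t : ℂ, t ≠ 0 ∧ wv α b t = κ := by
  obtain ⟨s, hs⟩ := IsAlgClosed.exists_pow_nat_eq (κ ^ 2 - 4) (n := 2) (by norm_num)
  set u : ℂ := (κ + s) / 2 with hu
  have hu2 : u ^ 2 + 1 = κ * u := by
    rw [hu]
    have : s ^ 2 = κ ^ 2 - 4 := hs
    linear_combination (1 / 4 : ℂ) * this
  have hu0 : u ≠ 0 := by
    intro h
    rw [h] at hu2
    norm_num at hu2
  have hm : b.natAbs ≠ 0 := Int.natAbs_ne_zero.2 hb
  have h1 : ∃ t : ℂ, t ≠ 0 ∧ t ^ b = α⁻¹ * u := by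
    have h0 : α⁻¹ * u ≠ 0 := mul_ne_zero (inv_ne_zero hα) hu0
    have hne : ∀ (z t : ℂ), z ≠ 0 → t ^ b.natAbs = z → t ≠ 0 := by
      intro z t hz h ht
      rw [ht, zero_pow hm] at h
      exact hz h.symm
    rcases Int.natAbs_eq b with h | h
    · obtain ⟨t, ht⟩ := IsAlgClosed.exists_pow_nat_eq (α⁻¹ * u) (Nat.pos_of_ne_zero hm)
      refine ⟨t, hne _ t h0 ht, ?_⟩
      rw [h, zpow_natCast, ht]
    · obtain ⟨t, ht⟩ := IsAlgClosed.exists_pow_nat_eq (α⁻¹ * u)⁻¹ (Nat.pos_of_ne_zero hm)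
      refine ⟨t, hne _ t (inv_ne_zero h0) ht, ?_⟩
      rw [h, zpow_neg, zpow_natCast, ht, inv_inv]
  obtain ⟨t, ht, hte⟩ := h1
  refine ⟨t, ht, ?_⟩
  unfold wv
  rw [hte, mul_inv_cancel_left₀ hα]
  field_simp
  rw [hu2, mul_comm]

theorem quad_finite (A B E : ℂ) (hA : A ≠ 0) (m : ℕ) (hm : m ≠ 0) :
    {t : ℂ | A * (t ^ m) ^ 2 + B * t ^ m + E = 0}.Finite := by
  set p : ℂ[X] := C A * X ^ (m * 2) + C B * X ^ m + C E with hp
  have hp0 : p ≠ 0 := by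
    intro h
    have h1 : p.coeff (m * 2) = A := by
      rw [hp, coeff_add, coeff_add, coeff_C_mul_X_pow, coeff_C_mul_X_pow, coeff_C, if_pos rfl,
        if_neg (by omega), if_neg (by omega), add_zero, add_zero]
    rw [h, coeff_zero] at h1
    exact hA h1.symm
  refine (p.roots.toFinset.finite_toSet).subset ?_
  intro t ht
  rw [Finset.mem_coe, Multiset.mem_toFinset, mem_roots hp0]
  change p.eval t = 0
  rw [hp]
  simp only [eval_add, eval_mul, eval_C, eval_pow, eval_X]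
  rw [pow_mul]
  exact ht

theorem wv_finite (α : ℂ) (a : ℤ) (hα : α ≠ 0) (ha : a ≠ 0) (κ : ℂ) :
    {t : ℂ | t ≠ 0 ∧ wv α a t = κ}.Finite := by
  have hm : a.natAbs ≠ 0 := Int.natAbs_ne_zero.2 ha
  have h1 := quad_finite (α ^ 2) (-(κ * α)) 1 (pow_ne_zero _ hα) a.natAbs hm
  have h2 := quad_finite 1 (-(κ * α)) (α ^ 2) one_ne_zero a.natAbs hm
  refine (h1.union h2).subset ?_
  rintro t ⟨ht, hw⟩
  have hz : t ^ a ≠ 0 := zpow_ne_zero _ ht
  have h3 : (α * t ^ a) ^ 2 + 1 = κ * (α * t ^ a) := by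
    unfold wv at hw
    have hu : α * t ^ a ≠ 0 := mul_ne_zero hα hz
    rw [← hw]
    field_simp
  rcases pow_natAbs t a with h | h
  · left
    rw [Set.mem_setOf_eq, h]
    linear_combination h3
  · right
    rw [Set.mem_setOf_eq, h]
    field_simp
    linear_combination h3

/-! ## growth of the lower bound -/

/-- `∏ |G(y) - w|` over the critical points `y` -/
noncomputable def Pi0 (G : ℂ[X]) (w : ℂ) : ℝ :=
  ((derivative G).roots.map fun y => ‖G.eval y - w‖).prod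

theorem Pi0_cont (G : ℂ[X]) : Continuous (Pi0 G) := by
  unfold Pi0
  generalize (derivative G).roots = s
  induction s using Multiset.induction_on with
  | empty => simpa using continuous_const
  | cons a s ih =>
    simp only [Multiset.map_cons, Multiset.prod_cons]
    exact (continuous_norm.comp (continuous_const.sub continuous_id)).mul ih

theorem pow_le_prod (s : Multiset ℝ) (c : ℝ) (hc : 0 ≤ c) (h : ∀ a ∈ s, c ≤ a) :
    c ^ s.card ≤ s.prod := by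
  induction s using Multiset.induction_on with
  | empty => simp
  | cons a s ih =>
    rw [Multiset.prod_cons, Multiset.card_cons, pow_succ, mul_comm]
    have ha := h a (Multiset.mem_cons_self a s)
    exact mul_le_mul ha (ih fun b hb => h b (Multiset.mem_cons_of_mem hb)) (pow_nonneg hc _)
      (hc.trans ha)

theorem prod_pos (s : Multiset ℝ) (h : ∀ a ∈ s, 0 < a) : 0 < s.prod := by
  induction s using Multiset.induction_on with
  | empty => simp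
  | cons a s ih =>
    rw [Multiset.prod_cons]
    exact mul_pos (h a (Multiset.mem_cons_self a s)) (ih fun b hb => h b (Multiset.mem_cons_of_mem hb))

theorem Pi0_pos (G : ℂ[X]) (hG0 : derivative G ≠ 0) (w : ℂ)
    (h : ∀ y, (derivative G).eval y = 0 → G.eval y ≠ w) : 0 < Pi0 G w := by
  unfold Pi0
  apply prod_pos
  intro a ha
  obtain ⟨y, hy, rfl⟩ := Multiset.mem_map.1 ha
  exact norm_pos_iff.2 (sub_ne_zero.2 (h y ((mem_roots hG0).1 hy)))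

/-- the lower bound -/
noncomputable def Lam (G : ℂ[X]) (C₀ : ℝ) (n e : ℕ) (w : ℂ) : ℝ :=
  Pi0 G w ^ n / (2 ^ (e * n) * (C₀ * (1 + ‖w‖)) ^ e)

theorem den_pos {C₀ : ℝ} (hC : 1 ≤ C₀) (n e : ℕ) (w : ℂ) :
    0 < (2 : ℝ) ^ (e * n) * (C₀ * (1 + ‖w‖)) ^ e := by
  have h1 : 0 < C₀ * (1 + ‖w‖) := mul_pos (by linarith) (by linarith [norm_nonneg w])
  positivity

theorem Lam_cont (G : ℂ[X]) {C₀ : ℝ} (hC : 1 ≤ C₀) (n e : ℕ) : Continuous (Lam G C₀ n e) := by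
  unfold Lam
  apply ((Pi0_cont G).pow n).div
  · exact continuous_const.mul ((continuous_const.mul (continuous_const.add continuous_norm)).pow e)
  · exact fun w => (den_pos hC n e w).ne'

theorem Lam_pos (G : ℂ[X]) (hG0 : derivative G ≠ 0) {C₀ : ℝ} (hC : 1 ≤ C₀) (n e : ℕ) (w : ℂ)
    (h : ∀ y, (derivative G).eval y = 0 → G.eval y ≠ w) : 0 < Lam G C₀ n e w :=
  div_pos (pow_pos (Pi0_pos G hG0 w h) n) (den_pos hC n e w)

theorem Lam_large (G : ℂ[X]) {C₀ : ℝ} (hC : 1 ≤ C₀) (n e : ℕ)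
    (hcard : (derivative G).roots.card = n - 1) (he : e + 1 ≤ (n - 1) * n) (M : ℝ) (hM : 0 ≤ M) :
    ∃ W : ℝ, 0 ≤ W ∧ ∀ w : ℂ, W ≤ ‖w‖ → M ≤ Lam G C₀ n e w := by
  classical
  set K₁ : ℝ := ((derivative G).roots.map fun y => ‖G.eval y‖).sum with hK
  have hK1 : ∀ y ∈ (derivative G).roots, ‖G.eval y‖ ≤ K₁ := by
    intro y hy
    apply Multiset.single_le_sum
    · intro x hx
      obtain ⟨z, _, rfl⟩ := Multiset.mem_map.1 hx
      exact norm_nonneg _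
    · exact Multiset.mem_map_of_mem (fun y => ‖G.eval y‖) hy
  have hK0 : 0 ≤ K₁ := by
    apply Multiset.sum_nonneg
    intro x hx
    obtain ⟨z, _, rfl⟩ := Multiset.mem_map.1 hx
    exact norm_nonneg _
  set A : ℝ := 2 ^ (e * n) * (2 * C₀) ^ e * 2 ^ ((n - 1) * n) with hA
  have hA0 : 0 < A := by
    have : 0 < 2 * C₀ := by linarith
    positivity
  refine ⟨2 * K₁ + 1 + M * A, by positivity, ?_⟩
  intro w hw
  have hMA : 0 ≤ M * A := by positivity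
  have hw1 : 1 ≤ ‖w‖ := by linarith
  have hw2 : K₁ ≤ ‖w‖ / 2 := by linarith
  have hw3 : M * A ≤ ‖w‖ := by linarith
  have hw0 : 0 < ‖w‖ := by linarith
  have h1 : (‖w‖ / 2) ^ (n - 1) ≤ Pi0 G w := by
    unfold Pi0
    have h2 := pow_le_prod ((derivative G).roots.map fun y => ‖G.eval y - w‖) (‖w‖ / 2)
      (by positivity) (by
        intro a ha
        obtain ⟨y, hy, rfl⟩ := Multiset.mem_map.1 ha
        have h3 := hK1 y hy
        have h4 : ‖w‖ ≤ ‖G.eval y‖ + ‖G.eval y - w‖ := by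
          calc ‖w‖ = ‖G.eval y - (G.eval y - w)‖ := by rw [sub_sub_cancel]
            _ ≤ _ := norm_sub_le _ _
        linarith)
    rw [Multiset.card_map, hcard] at h2
    exact h2
  unfold Lam
  rw [le_div_iff₀ (den_pos hC n e w)]
  have h5 : C₀ * (1 + ‖w‖) ≤ 2 * C₀ * ‖w‖ := by nlinarith
  have h6 : 0 ≤ C₀ * (1 + ‖w‖) := by positivity
  have hsp : ‖w‖ * ‖w‖ ^ e ≤ ‖w‖ ^ ((n - 1) * n) := by
    rw [← pow_succ']
    exact pow_le_pow_right₀ hw1 he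
  calc M * (2 ^ (e * n) * (C₀ * (1 + ‖w‖)) ^ e)
      ≤ M * (2 ^ (e * n) * (2 * C₀ * ‖w‖) ^ e) := by
        apply mul_le_mul_of_nonneg_left _ hM
        apply mul_le_mul_of_nonneg_left _ (by positivity)
        exact pow_le_pow_left₀ h6 h5 e
    _ = (M * A) * ‖w‖ ^ e / 2 ^ ((n - 1) * n) := by
        rw [hA, mul_pow (2 * C₀)]
        field_simp
    _ ≤ ‖w‖ * ‖w‖ ^ e / 2 ^ ((n - 1) * n) := by gcongr
    _ ≤ ‖w‖ ^ ((n - 1) * n) / 2 ^ ((n - 1) * n) := by gcongr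
    _ = ((‖w‖ / 2) ^ (n - 1)) ^ n := by rw [← pow_mul, div_pow]
    _ ≤ Pi0 G w ^ n := pow_le_pow_left₀ (by positivity) h1 n

/-! ## the polynomials in `V` -/

/-- `∑ κ_m V^m + g V^r` -/
noncomputable def pol {r : ℕ} (κ : Fin r → ℂ) (g : ℂ) : ℂ[X] :=
  (∑ m, C (κ m) * X ^ (m : ℕ)) + C g * X ^ r

theorem pol_facts {r : ℕ} (κ : Fin r → ℂ) (g : ℂ) (hg : g ≠ 0) :
    (pol κ g).natDegree = r ∧ (pol κ g).leadingCoeff = g := by
  have h1 : degree (∑ m : Fin r, C (κ m) * X ^ (m : ℕ)) < r := degree_sum_fin_lt κ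
  have h2 : degree (C g * X ^ r : ℂ[X]) = r := degree_C_mul_X_pow r hg
  have h3 : degree (∑ m : Fin r, C (κ m) * X ^ (m : ℕ)) < degree (C g * X ^ r : ℂ[X]) := by
    rw [h2]; exact h1
  constructor
  · apply natDegree_eq_of_degree_eq_some
    unfold pol
    rw [degree_add_eq_right_of_degree_lt h3, h2]
  · unfold pol
    rw [leadingCoeff_add_of_degree_lt h3, leadingCoeff_C_mul_X_pow]

/-- the norm of the resultant of the two factors -/
theorem res_norm {r r' : ℕ} (κ : Fin r → ℂ) (κ' : Fin r' → ℂ) (g : ℂ) (hg : g ≠ 0) :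
    ‖resultant (pol κ g) (pol κ' g) r r'‖ =
      ‖g‖ ^ (r + r') * pr (C g⁻¹ * pol κ g) (C g⁻¹ * pol κ' g) := by
  obtain ⟨h1, h2⟩ := pol_facts κ g hg
  obtain ⟨h3, h4⟩ := pol_facts κ' g hg
  have h5 := norm_res (pol κ g) (pol κ' g) r' h3.le
  rw [h1, h2] at h5
  rw [h5]
  have hg' : ‖g‖ ≠ 0 := norm_ne_zero_iff.2 hg
  have hcard : (pol κ g).roots.card = r := by
    rw [← (IsAlgClosed.splits (pol κ g)).natDegree_eq_card_roots, h1]
  have h6 : pr (C g⁻¹ * pol κ g) (C g⁻¹ * pol κ' g) = (‖g‖⁻¹) ^ r * pr (pol κ g) (pol κ' g) := by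
    unfold pr
    rw [roots_C_mul _ (inv_ne_zero hg)]
    have h7 : ((pol κ g).roots.map fun v => ‖(C g⁻¹ * pol κ' g).eval v‖) =
        (pol κ g).roots.map fun v => ‖g‖⁻¹ * ‖(pol κ' g).eval v‖ := by
      apply Multiset.map_congr rfl
      intro v _
      rw [eval_mul, eval_C, norm_mul, norm_inv]
    rw [h7, Multiset.prod_map_mul, Multiset.map_const', Multiset.prod_replicate, hcard]
  rw [h6, pow_add, inv_pow]
  field_simp

theorem monic_pol {r : ℕ} (κ : Fin r → ℂ) (g : ℂ) (hg : g ≠ 0) :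
    (C g⁻¹ * pol κ g).Monic ∧ (C g⁻¹ * pol κ g).natDegree = r := by
  obtain ⟨h1, h2⟩ := pol_facts κ g hg
  constructor
  · rw [Monic, leadingCoeff_mul, leadingCoeff_C, h2, inv_mul_cancel₀ hg]
  · rw [natDegree_C_mul (inv_ne_zero hg), h1]

end Pool.Agent.K9h21.GP.GEO_
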