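import Pool.Agent.K9h21.GP.Stm7

/-!
# Leaf LIM (helper45 for helper21)
-/

set_option autoImplicit false

namespace Pool.Agent.K9h21.GP.LIM_

open Polynomial Filter Topology
open Pool.Agent.K9h21.GP.GEO_

/-- `G(z) = z^n R(1/z)` -/
theorem eval_rev (G : ℂ[X]) (z : ℂ) (hz : z ≠ 0) :
    G.eval z = z ^ G.natDegree * G.reverse.eval z⁻¹ := by
  have : Invertible z := invertibleOfNonzero hz
  have h := Polynomial.eval₂_reverse_mul_pow (RingHom.id ℂ) z G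
  rw [invOf_eq_inv, eval₂_id, eval₂_id] at h
  rw [← h, mul_comm]

theorem rev_zero (G : ℂ[X]) (hm : G.Monic) : G.reverse.eval 0 = 1 := by
  rw [← coeff_zero_eq_eval_zero, coeff_zero_reverse]
  exact hm

theorem root_near (h3 : S_EST) (G : ℂ[X]) (n : ℕ) (hm : G.Monic) (hd : G.natDegree = n) (hn : 2 ≤ n)
    (ζ κ : ℂ) (hκ : κ ≠ 0) (hζ : ζ ^ n = κ) (ε : ℝ) (hε : 0 < ε) :
    ∃ M δ : ℝ, 0 < M ∧ 0 < δ ∧ ∀ w w' x : ℂ, M ≤ ‖w‖ → G.eval x = w → ‖w' / w - κ‖ ≤ δ →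
      ∃ y, G.eval y = w' ∧ ‖y / x - ζ‖ ≤ ε := by
  have hK : 0 < ‖κ‖ := norm_pos_iff.2 hκ
  have hζ0 : ζ ≠ 0 := by
    rintro rfl
    exact hκ (by rw [← hζ]; exact zero_pow (by omega))
  have hEn : 0 < ε ^ n := pow_pos hε n
  obtain ⟨e1, he1⟩ : ∃ e1 : ℝ, e1 = ε ^ n / (4 * ‖κ‖) := ⟨_, rfl⟩
  obtain ⟨e2, he2⟩ : ∃ e2 : ℝ, e2 = min (ε ^ n / (8 * ‖κ‖)) (1 / 2) := ⟨_, rfl⟩
  have e1pos : 0 < e1 := by rw [he1]; positivity
  have e2pos : 0 < e2 := by rw [he2]; positivity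
  have e1K : ‖κ‖ * e1 = ε ^ n / 4 := by rw [he1]; field_simp
  have e2K : ‖κ‖ * e2 ≤ ε ^ n / 8 := by
    have : e2 ≤ ε ^ n / (8 * ‖κ‖) := by rw [he2]; exact min_le_left _ _
    calc ‖κ‖ * e2 ≤ ‖κ‖ * (ε ^ n / (8 * ‖κ‖)) := mul_le_mul_of_nonneg_left this hK.le
      _ = ε ^ n / 8 := by field_simp
  have e2h : e2 ≤ 1 / 2 := by rw [he2]; exact min_le_right _ _
  -- continuity of the reversed polynomial
  have hc : ContinuousAt (fun u : ℂ => G.reverse.eval u) 0 := G.reverse.continuous.continuousAt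
  obtain ⟨ρ, hρ, hρ'⟩ := Metric.continuousAt_iff.1 hc e1 e1pos
  obtain ⟨M2, hM2, hM2'⟩ := (h3 G n hm hd hn).1 e2 e2pos
  refine ⟨max M2 (2 / (‖κ‖ * ρ ^ n) + 1), ε ^ n / 8, lt_max_of_lt_left hM2, by positivity, ?_⟩
  intro w w' x hw hx hw'
  have hwM : M2 ≤ ‖w‖ := (le_max_left _ _).trans hw
  have hwρ : 2 / (‖κ‖ * ρ ^ n) + 1 ≤ ‖w‖ := (le_max_right _ _).trans hw
  have hwpos : 0 < ‖w‖ := hM2.trans_le hwM
  have hw0 : w ≠ 0 := norm_pos_iff.1 hwpos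
  obtain ⟨hx0, -, hxn, -⟩ := hM2' w x hwM hx
  have hxpos : 0 < ‖x‖ := norm_pos_iff.2 hx0
  obtain ⟨X, hX⟩ : ∃ X : ℝ, X = ‖x‖ ^ n := ⟨_, rfl⟩
  have hXpos : 0 < X := by rw [hX]; positivity
  have hxw : ‖x ^ n - w‖ ≤ e2 * ‖w‖ := by
    have : x ^ n - w = (x ^ n / w - 1) * w := by field_simp
    rw [this, norm_mul]
    exact mul_le_mul_of_nonneg_right hxn hwpos.le
  have hwX : ‖w‖ ≤ 2 * X := by
    have h1 : ‖w‖ ≤ ‖x ^ n‖ + ‖x ^ n - w‖ := by
      calc ‖w‖ = ‖x ^ n - (x ^ n - w)‖ := by rw [sub_sub_cancel]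
        _ ≤ _ := norm_sub_le _ _
    rw [norm_pow, ← hX] at h1
    nlinarith
  have hww : ‖κ * w - w'‖ ≤ ε ^ n / 8 * ‖w‖ := by
    have : κ * w - w' = -((w' / w - κ) * w) := by field_simp; ring
    rw [this, norm_neg, norm_mul]
    exact mul_le_mul_of_nonneg_right hw' hwpos.le
  have hzx : ζ * x ≠ 0 := mul_ne_zero hζ0 hx0
  have hu : ‖G.reverse.eval (ζ * x)⁻¹ - 1‖ ≤ e1 := by
    have h1 : dist (ζ * x)⁻¹ (0 : ℂ) < ρ := by
      rw [dist_zero_right, norm_inv]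
      have h2 : ρ⁻¹ < ‖ζ * x‖ := by
        refine lt_of_pow_lt_pow_left₀ n (norm_nonneg _) ?_
        rw [← norm_pow, mul_pow, hζ, norm_mul, norm_pow, ← hX, inv_pow]
        have h4 : 2 / (‖κ‖ * ρ ^ n) < 2 * X := by linarith
        rw [div_lt_iff₀ (by positivity)] at h4
        rw [inv_lt_iff_one_lt_mul₀ (by positivity)]
        linarith
      exact inv_lt_of_inv_lt₀ hρ h2
    have h2 := hρ' h1
    rw [rev_zero G hm, dist_eq_norm] at h2
    exact h2.le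
  -- the estimate of the product
  have hest : ‖G.eval (ζ * x) - w'‖ < (ε * ‖x‖) ^ n := by
    have h1 : G.eval (ζ * x) - w' = κ * x ^ n * (G.reverse.eval (ζ * x)⁻¹ - 1) + κ * (x ^ n - w) +
        (κ * w - w') := by
      rw [eval_rev G _ hzx, hd, mul_pow, hζ]; ring
    have h2 : ‖κ * x ^ n * (G.reverse.eval (ζ * x)⁻¹ - 1)‖ ≤ ‖κ‖ * X * e1 := by
      rw [norm_mul, norm_mul, norm_pow, ← hX]
      exact mul_le_mul_of_nonneg_left hu (by positivity)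
    have h4 : ‖κ * (x ^ n - w)‖ ≤ ‖κ‖ * (e2 * ‖w‖) := by
      rw [norm_mul]
      exact mul_le_mul_of_nonneg_left hxw hK.le
    have h5 : ‖G.eval (ζ * x) - w'‖ ≤ ‖κ‖ * X * e1 + ‖κ‖ * (e2 * ‖w‖) + ε ^ n / 8 * ‖w‖ := by
      rw [h1]
      exact (norm_add₃_le).trans (add_le_add (add_le_add h2 h4) hww)
    have h6 : ‖κ‖ * X * e1 = ε ^ n / 4 * X := by rw [← e1K]; ring
    have h7 : ‖κ‖ * (e2 * ‖w‖) ≤ ε ^ n / 8 * (2 * X) := by
      rw [← mul_assoc]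
      exact mul_le_mul e2K hwX hwpos.le (by positivity)
    have h8 : ε ^ n / 8 * ‖w‖ ≤ ε ^ n / 8 * (2 * X) := mul_le_mul_of_nonneg_left hwX (by positivity)
    rw [mul_pow, ← hX]
    have h9 : 0 < ε ^ n * X := mul_pos hEn hXpos
    nlinarith
  -- the product over the roots
  by_contra hcon
  push Not at hcon
  have hPm : (G - C w').Monic := by
    apply hm.sub_of_left
    have h1 : (C w').degree ≤ 0 := degree_C_le
    refine h1.trans_lt ?_
    rw [degree_eq_natDegree hm.ne_zero, hd]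
    exact_mod_cast (by omega : 0 < n)
  have hPd : (G - C w').natDegree = n := by rw [natDegree_sub_C, hd]
  have hsp := IsAlgClosed.splits (G - C w')
  have hcard : (G - C w').roots.card = n := by rw [← hsp.natDegree_eq_card_roots, hPd]
  have hprod := hsp.eval_eq_prod_roots_of_monic hPm (ζ * x)
  rw [eval_sub, eval_C] at hprod
  have h1 := pow_le_prod ((G - C w').roots.map fun y => ‖ζ * x - y‖) (ε * ‖x‖) (by positivity) (by
    intro a ha
    obtain ⟨y, hy, rfl⟩ := Multiset.mem_map.1 ha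
    have hy' : G.eval y = w' := by
      have := (mem_roots hPm.ne_zero).1 hy
      rw [IsRoot.def, eval_sub, eval_C, sub_eq_zero] at this
      exact this
    have h2 := hcon y hy'
    have h4 : ζ * x - y = -((y / x - ζ) * x) := by field_simp; ring
    rw [h4, norm_neg, norm_mul]
    exact mul_le_mul_of_nonneg_right h2.le hxpos.le)
  rw [Multiset.card_map, hcard] at h1
  have h2 : ((G - C w').roots.map fun y => ‖ζ * x - y‖).prod = ‖G.eval (ζ * x) - w'‖ := by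
    rw [hprod, norm_prod, Multiset.map_map]
    rfl
  rw [h2] at h1
  exact absurd hest (not_lt.2 h1)

theorem ex_root (G : ℂ[X]) (n : ℕ) (hd : G.natDegree = n) (hn : 2 ≤ n) (v : ℂ) :
    ∃ x, G.eval x = v := by
  have h1 : (G - C v).natDegree = n := by rw [natDegree_sub_C, hd]
  have h0 : G - C v ≠ 0 := by
    intro h
    rw [h, natDegree_zero] at h1
    omega
  have hPd : (G - C v).degree ≠ 0 := by
    rw [degree_eq_natDegree h0, h1]
    exact_mod_cast (by omega : n ≠ 0)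
  obtain ⟨x, hx⟩ := IsAlgClosed.exists_root _ hPd
  refine ⟨x, ?_⟩
  rw [IsRoot.def, eval_sub, eval_C, sub_eq_zero] at hx
  exact hx

/-- one of the two ends -/
theorem one_end (h3 : S_EST) {G : ℂ[X]} {n r : ℕ} {α α' : ℂ} {a : ℤ} {Z : ℂ → ℂ → ℂ → Prop}
    (hC : Cor G n r α α' a a Z) (γ : ℕ → ℂ) (F : Filter ℂ) [F.NeBot]
    (hG : ∀ᶠ t in F, Gd G α α' a a t) (hw : ∀ M : ℝ, ∀ᶠ t in F, M ≤ ‖wv α a t‖) (κ : ℂ) (hκ : κ ≠ 0)
    (hk : Tendsto (fun t => wv α' a t / wv α a t) F (𝓝 κ))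
    (hA : ∀ ε : ℝ, 0 < ε → ∀ᶠ t in F, Gd G α α' a a t → ∀ x₀ y₀, G.eval x₀ = wv α a t →
      G.eval y₀ = wv α' a t → ‖(open Classical in if Z t x₀ y₀ then (1 : ℂ) else 0) -
        (∑ k ∈ Finset.range n, γ k * (x₀ / y₀) ^ k) / n‖ ≤ ε)
    (ζ : ℂ) (hζ : ζ ^ n = κ) :
    (∑ k ∈ Finset.range n, γ k * (ζ⁻¹) ^ k) / n = 0 ∨
      (∑ k ∈ Finset.range n, γ k * (ζ⁻¹) ^ k) / n = 1 := by
  classical
  have hn := hC.hn
  have hζ0 : ζ ≠ 0 := by
    rintro rfl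
    exact hκ (by rw [← hζ]; exact zero_pow (by omega))
  by_contra hcon
  rw [not_or] at hcon
  obtain ⟨P, hP⟩ : ∃ P : ℂ, P = (∑ k ∈ Finset.range n, γ k * (ζ⁻¹) ^ k) / n := ⟨_, rfl⟩
  rw [← hP] at hcon
  obtain ⟨d, hd⟩ : ∃ d : ℝ, d = min ‖P‖ ‖P - 1‖ := ⟨_, rfl⟩
  have hd0 : 0 < d := by
    rw [hd]
    exact lt_min (norm_pos_iff.2 hcon.1) (norm_pos_iff.2 (sub_ne_zero.2 hcon.2))
  have hcont : ContinuousAt (fun s : ℂ => (∑ k ∈ Finset.range n, γ k * (s⁻¹) ^ k) / n) ζ := by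
    have h1 : ContinuousAt (fun s : ℂ => s⁻¹) ζ := continuousAt_inv₀ hζ0
    have h2 : Continuous (fun s : ℂ => (∑ k ∈ Finset.range n, γ k * s ^ k) / n) := by fun_prop
    exact ContinuousAt.comp (g := fun s : ℂ => (∑ k ∈ Finset.range n, γ k * s ^ k) / n)
      (f := fun s : ℂ => s⁻¹) h2.continuousAt h1
  obtain ⟨η, hη, hη'⟩ := Metric.continuousAt_iff.1 hcont (d / 3) (by positivity)
  obtain ⟨M, δ, hM, hδ, hroot⟩ := root_near h3 G n hC.mo hC.deg hn ζ κ hκ hζ (η / 2) (by positivity)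
  have e1 := hw M
  have e2 : ∀ᶠ t in F, ‖wv α' a t / wv α a t - κ‖ ≤ δ := by
    have := Metric.tendsto_nhds.1 hk δ hδ
    filter_upwards [this] with t ht
    rw [dist_eq_norm] at ht
    exact ht.le
  have e3 := hA (d / 3) (by positivity)
  obtain ⟨t, ht, ht1, ht2, ht3⟩ := (hG.and (e1.and (e2.and e3))).exists
  obtain ⟨x, hx⟩ : ∃ x, G.eval x = wv α a t := ex_root G n hC.deg hn _
  obtain ⟨y, hy, hyx⟩ := hroot (wv α a t) (wv α' a t) x ht1 hx ht2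
  have h5 := ht3 ht x y hx hy
  have h6 : dist (y / x) ζ < η := by
    rw [dist_eq_norm]
    linarith
  have h7 := hη' h6
  rw [← hP, dist_eq_norm, inv_div] at h7
  have h8 : ‖(if Z t x y then (1 : ℂ) else 0) - P‖ < d := by
    calc ‖(if Z t x y then (1 : ℂ) else 0) - P‖ =
        ‖((if Z t x y then (1 : ℂ) else 0) - (∑ k ∈ Finset.range n, γ k * (x / y) ^ k) / n) +
          ((∑ k ∈ Finset.range n, γ k * (x / y) ^ k) / n - P)‖ := by rw [sub_add_sub_cancel]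
      _ ≤ _ := norm_add_le _ _
      _ < d := by linarith
  split_ifs at h8 with hZ
  · have : d ≤ ‖P - 1‖ := by rw [hd]; exact min_le_right _ _
    rw [norm_sub_rev] at h8
    linarith
  · have : d ≤ ‖P‖ := by rw [hd]; exact min_le_left _ _
    rw [zero_sub, norm_neg] at h8
    linarith

theorem bad_finite (G : ℂ[X]) (n : ℕ) (hd : G.natDegree = n) (hn : 2 ≤ n) (α α' : ℂ)
    (a b : ℤ) (hα : α ≠ 0) (hα' : α' ≠ 0) (ha : 0 < a) (hb : 0 < b) :
    {t : ℂ | t ≠ 0 ∧ ¬ Gd G α α' a b t}.Finite := by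
  have hG' : derivative G ≠ 0 := by
    intro h
    have := natDegree_eq_zero_of_derivative_eq_zero h
    omega
  have hfin : {x : ℂ | (derivative G).eval x = 0}.Finite := by
    have h1 := (derivative G).roots.toFinset.finite_toSet
    refine h1.subset ?_
    intro x hx
    simp only [Finset.mem_coe, Multiset.mem_toFinset]
    exact (mem_roots hG').2 hx
  have h1 : (⋃ x ∈ {x : ℂ | (derivative G).eval x = 0}, {t : ℂ | t ≠ 0 ∧ wv α a t = G.eval x}).Finite :=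
    hfin.biUnion fun x _ => wv_finite α a hα (by omega) _
  have h2 : (⋃ x ∈ {x : ℂ | (derivative G).eval x = 0}, {t : ℂ | t ≠ 0 ∧ wv α' b t = G.eval x}).Finite :=
    hfin.biUnion fun x _ => wv_finite α' b hα' (by omega) _
  refine (h1.union h2).subset ?_
  rintro t ⟨ht, hg⟩
  unfold Gd at hg
  by_contra hcon
  rw [Set.mem_union, not_or] at hcon
  obtain ⟨c1, c2⟩ := hcon
  simp only [Set.mem_iUnion, Set.mem_setOf_eq, not_exists, not_and] at c1 c2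
  refine hg ⟨ht, fun x hx h0 => ?_, fun x hx h0 => ?_⟩
  · exact c1 x h0 ht hx.symm
  · exact c2 x h0 ht hx.symm

theorem ev_cocompact {S : Set ℂ} (hS : S.Finite) : ∀ᶠ t in cocompact ℂ, t ∉ S := by
  have := hS.isCompact.compl_mem_cocompact
  exact this

theorem ev_big (T : ℝ) : ∀ᶠ t in cocompact ℂ, T < ‖t‖ :=
  (tendsto_norm_cocompact_atTop (E := ℂ)).eventually (eventually_gt_atTop T)

theorem ev_good {G : ℂ[X]} {n r : ℕ} {α α' : ℂ} {a b : ℤ} {Z : ℂ → ℂ → ℂ → Prop}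
    (hC : Cor G n r α α' a b Z) : ∀ᶠ t in cocompact ℂ, Gd G α α' a b t := by
  filter_upwards [ev_cocompact (bad_finite G n hC.deg hC.hn α α' a b hC.hα hC.hα' hC.ha hC.hb),
    ev_big 0] with t h1 h2
  by_contra h
  exact h1 ⟨norm_pos_iff.1 h2, h⟩

theorem ev_good0 {G : ℂ[X]} {n r : ℕ} {α α' : ℂ} {a b : ℤ} {Z : ℂ → ℂ → ℂ → Prop}
    (hC : Cor G n r α α' a b Z) : ∀ᶠ t in 𝓝[≠] (0 : ℂ), Gd G α α' a b t := by
  have hB := bad_finite G n hC.deg hC.hn α α' a b hC.hα hC.hα' hC.ha hC.hb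
  have h1 : {t : ℂ | t ≠ 0 ∧ ¬ Gd G α α' a b t}ᶜ ∈ 𝓝 (0 : ℂ) :=
    hB.isClosed.isOpen_compl.mem_nhds (by simp)
  filter_upwards [mem_nhdsWithin_of_mem_nhds h1, self_mem_nhdsWithin] with t h1 h2
  by_contra h
  exact h1 ⟨h2, h⟩

theorem wv_large (α : ℂ) (a : ℤ) (hα : α ≠ 0) (ha : 0 < a) (M : ℝ) :
    ∀ᶠ t in cocompact ℂ, M ≤ ‖wv α a t‖ := by
  obtain ⟨T, hT, h⟩ := wv_proper α a hα (by omega) M
  filter_upwards [ev_big T] with t ht
  by_contra hcon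
  have := (h t (norm_pos_iff.1 (by linarith)) (le_of_not_ge hcon)).1
  linarith

theorem wv_large0 (α : ℂ) (a : ℤ) (hα : α ≠ 0) (ha : 0 < a) (M : ℝ) :
    ∀ᶠ t in 𝓝[≠] (0 : ℂ), M ≤ ‖wv α a t‖ := by
  obtain ⟨T, hT, h⟩ := wv_proper α a hα (by omega) M
  have h1 : ∀ᶠ t in 𝓝 (0 : ℂ), ‖t‖ < T⁻¹ := by
    have := Metric.ball_mem_nhds (0 : ℂ) (inv_pos.2 (by linarith : 0 < T))
    filter_upwards [this] with t ht
    simpa using ht
  filter_upwards [mem_nhdsWithin_of_mem_nhds h1, self_mem_nhdsWithin] with t h1 h2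
  by_contra hcon
  have h3 := (h t h2 (le_of_not_ge hcon)).2
  have h4 : 0 < ‖t‖ := norm_pos_iff.2 h2
  have h5 : T < ‖t‖⁻¹ := by
    rw [lt_inv_comm₀ (by linarith) h4]
    exact h1
  linarith

theorem ratio_inf (α α' : ℂ) (a : ℤ) (hα : α ≠ 0) (hα' : α' ≠ 0) (ha : 0 < a) :
    Tendsto (fun t => wv α' a t / wv α a t) (cocompact ℂ) (𝓝 (α' / α)) := by
  have h1 : Tendsto (fun t : ℂ => (t ^ a)⁻¹) (cocompact ℂ) (𝓝 0) := by
    obtain ⟨m, rfl⟩ := Int.eq_ofNat_of_zero_le ha.le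
    have hm : m ≠ 0 := by rintro rfl; simp at ha
    have h2 : Tendsto (fun t : ℂ => ‖t‖ ^ m) (cocompact ℂ) atTop :=
      (tendsto_pow_atTop hm).comp tendsto_norm_cocompact_atTop
    rw [tendsto_zero_iff_norm_tendsto_zero]
    have h3 := h2.inv_tendsto_atTop
    refine h3.congr fun t => ?_
    simp
  have h2 : Tendsto (fun t : ℂ => (α' + α'⁻¹ * ((t ^ a)⁻¹) ^ 2) / (α + α⁻¹ * ((t ^ a)⁻¹) ^ 2))
      (cocompact ℂ) (𝓝 ((α' + α'⁻¹ * 0 ^ 2) / (α + α⁻¹ * 0 ^ 2))) := by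
    refine Tendsto.div ?_ ?_ (by simpa using hα)
    · exact tendsto_const_nhds.add ((h1.pow 2).const_mul _)
    · exact tendsto_const_nhds.add ((h1.pow 2).const_mul _)
  have h3 : (α' + α'⁻¹ * 0 ^ 2) / (α + α⁻¹ * 0 ^ 2) = α' / α := by simp
  rw [h3] at h2
  refine h2.congr' ?_
  filter_upwards [ev_big 0] with t ht
  have ht0 : t ≠ 0 := norm_pos_iff.1 ht
  have hz : t ^ a ≠ 0 := zpow_ne_zero _ ht0
  unfold wv
  generalize t ^ a = s at hz
  have e1 : α' + α'⁻¹ * (s⁻¹) ^ 2 = (α' * s + (α' * s)⁻¹) * s⁻¹ := by field_simp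
  have e2 : α + α⁻¹ * (s⁻¹) ^ 2 = (α * s + (α * s)⁻¹) * s⁻¹ := by field_simp
  rw [e1, e2, mul_div_mul_right _ _ (inv_ne_zero hz)]

theorem ratio_zero (α α' : ℂ) (a : ℤ) (hα : α ≠ 0) (hα' : α' ≠ 0) (ha : 0 < a) :
    Tendsto (fun t => wv α' a t / wv α a t) (𝓝[≠] (0 : ℂ)) (𝓝 (α' / α)⁻¹) := by
  have h1 : Tendsto (fun t : ℂ => t ^ a) (𝓝[≠] (0 : ℂ)) (𝓝 0) := by
    obtain ⟨m, rfl⟩ := Int.eq_ofNat_of_zero_le ha.le
    have hm : m ≠ 0 := by rintro rfl; simp at ha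
    have h2 : Tendsto (fun t : ℂ => t ^ m) (𝓝 (0 : ℂ)) (𝓝 (0 ^ m)) := (continuous_pow m).tendsto 0
    rw [zero_pow hm] at h2
    refine (h2.mono_left nhdsWithin_le_nhds).congr fun t => ?_
    simp
  have h2 : Tendsto (fun t : ℂ => (α' * (t ^ a) ^ 2 + α'⁻¹) / (α * (t ^ a) ^ 2 + α⁻¹))
      (𝓝[≠] (0 : ℂ)) (𝓝 ((α' * 0 ^ 2 + α'⁻¹) / (α * 0 ^ 2 + α⁻¹))) := by
    refine Tendsto.div ?_ ?_ (by simpa using hα)
    · exact ((h1.pow 2).const_mul _).add tendsto_const_nhds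
    · exact ((h1.pow 2).const_mul _).add tendsto_const_nhds
  have h3 : (α' * 0 ^ 2 + α'⁻¹) / (α * 0 ^ 2 + α⁻¹) = (α' / α)⁻¹ := by
    field_simp
    ring
  rw [h3] at h2
  refine h2.congr' ?_
  filter_upwards [self_mem_nhdsWithin] with t ht0
  have hz : t ^ a ≠ 0 := zpow_ne_zero _ ht0
  unfold wv
  generalize t ^ a = s at hz
  have e1 : α' * s ^ 2 + α'⁻¹ = (α' * s + (α' * s)⁻¹) * s := by field_simp
  have e2 : α * s ^ 2 + α⁻¹ = (α * s + (α * s)⁻¹) * s := by field_simp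
  rw [e1, e2, mul_div_mul_right _ _ hz]

end LIM_

open Polynomial Filter Topology LIM_ in
/-- LIM -/
theorem lim_ (h1 : S_ASY) (h2 : S_NEWT) (h3 : S_EST) : S_LIM := by
  classical
  intro G n r α α' a b Z hC hr hrn
  obtain ⟨A1, A2⟩ := h1 G n r α α' a b Z hC
  have hn : 0 < n := by have := hC.hn; omega
  have hn' : (0 : ℝ) < n := by exact_mod_cast hn
  by_cases hab : a = b
  · refine ⟨hab, ?_⟩
    subst hab
    obtain ⟨γ, hγ, hA⟩ := A2 rfl
    have hκ : α' / α ≠ 0 := div_ne_zero hC.hα' hC.hα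
    have key := h2 n r γ (α' / α) hr hrn hκ hγ
      (fun ζ hζ => one_end h3 hC γ (cocompact ℂ) (ev_good hC) (wv_large α a hC.hα hC.ha) _ hκ
        (ratio_inf α α' a hC.hα hC.hα' hC.ha) (fun ε hε => by
          filter_upwards [(hA ε hε).1] with t ht
          convert ht using 6) ζ hζ)
      (fun ζ hζ => one_end h3 hC γ (𝓝[≠] (0 : ℂ)) (ev_good0 hC) (wv_large0 α a hC.hα hC.ha) _
        (inv_ne_zero hκ) (ratio_zero α α' a hC.hα hC.hα' hC.ha) (fun ε hε => by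
          filter_upwards [(hA ε hε).2] with t ht
          convert ht using 6) ζ hζ)
    rw [div_pow, div_eq_one_iff_eq (pow_ne_zero _ hC.hα)] at key
    exact key
  · exfalso
    have hA := A1 hab (1 / (2 * n)) (by positivity)
    obtain ⟨t, ht1, ht2⟩ := (hA.and (ev_good hC)).exists
    have hex : ∀ v : ℂ, ∃ x, G.eval x = v := ex_root G n hC.deg hC.hn
    have hnC : (n : ℂ) ≠ 0 := by exact_mod_cast hn.ne'
    obtain ⟨x, hx⟩ := hex (wv α a t)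
    obtain ⟨y, hy⟩ := hex (wv α' b t)
    have h5 := ht1 ht2 x y hx hy
    have hr' : (1 : ℝ) ≤ r := by exact_mod_cast hr
    have hrn' : (r : ℝ) + 1 ≤ n := by exact_mod_cast hrn
    split_ifs at h5
    · have e : (1 : ℂ) - r / n = (((n : ℝ) - r) / n : ℝ) := by
        push_cast
        field_simp
      rw [e, Complex.norm_real, Real.norm_eq_abs] at h5
      have h6 := (le_abs_self _).trans h5
      rw [div_le_div_iff₀ hn' (by positivity)] at h6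
      nlinarith
    · have e : (0 : ℂ) - r / n = ((-(r : ℝ) / n : ℝ) : ℂ) := by
        push_cast
        ring
      rw [e, Complex.norm_real, Real.norm_eq_abs] at h5
      have h6 := (neg_le_abs _).trans h5
      rw [neg_div, neg_neg, div_le_div_iff₀ hn' (by positivity)] at h6
      nlinarith

end Pool.Agent.K9h21.GP
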