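import Pool.Agent.K9h21.GP.Stm7

set_option autoImplicit false

/-! Leaf A-NEWT: Newton's identities. -/

namespace Pool.Agent.K9h21.GP

namespace Nw

open Polynomial Finset

/-- Newton's identities for the elements of a finite set -/
theorem newton (U : Finset ℂ) (k : ℕ) : (k : ℂ) * U.val.esymm k = (-1) ^ (k + 1) *
    ∑ a ∈ antidiagonal k with a.1 < k, (-1) ^ a.1 * U.val.esymm a.1 * ∑ ζ ∈ U, ζ ^ a.2 := by
  have h1 := congrArg (MvPolynomial.aeval (fun x : U => (x : ℂ))) (MvPolynomial.mul_esymm_eq_sum U ℂ k)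
  rw [map_mul, map_mul, map_pow, map_neg, map_one, map_sum, map_natCast] at h1
  simp only [map_mul, map_pow, map_neg, map_one, MvPolynomial.aeval_esymm_eq_multiset_esymm] at h1
  have hps : ∀ m, MvPolynomial.aeval (fun x : U => (x : ℂ)) (MvPolynomial.psum U ℂ m) = ∑ ζ ∈ U, ζ ^ m := by
    intro m
    rw [MvPolynomial.psum, map_sum, ← Finset.sum_coe_sort U (fun ζ => ζ ^ m)]
    refine Finset.sum_congr rfl fun i _ => ?_
    rw [map_pow, MvPolynomial.aeval_X]
  have hU : (Finset.univ : Finset U).val.map (fun x : U => (x : ℂ)) = U.val := by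
    rw [Finset.univ_eq_attach, Finset.attach_val]
    exact Multiset.attach_map_val _
  simp only [hps, hU] at h1
  exact h1

theorem esymm_eq (U V : Finset ℂ) (r : ℕ) (h : ∀ j, j ≤ r → ∑ ζ ∈ U, ζ ^ j = ∑ ζ ∈ V, ζ ^ j) :
    ∀ k, k ≤ r → U.val.esymm k = V.val.esymm k := by
  intro k
  induction k using Nat.strong_induction_on with
  | _ k ih =>
    intro hk
    rcases Nat.eq_zero_or_pos k with rfl | hpos
    · simp [Multiset.esymm]
    · have h1 := newton U k
      have h2 := newton V k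
      have h3 : (k : ℂ) ≠ 0 := by exact_mod_cast hpos.ne'
      apply mul_left_cancel₀ h3
      rw [h1, h2]
      congr 1
      refine Finset.sum_congr rfl fun a ha => ?_
      rw [Finset.mem_filter, Finset.HasAntidiagonal.mem_antidiagonal] at ha
      rw [ih a.1 ha.2 (by omega), h a.2 (by omega)]

theorem eq_of_psum (U V : Finset ℂ) (r : ℕ) (hU : U.card = r) (hV : V.card = r)
    (h : ∀ j, j ≤ r → ∑ ζ ∈ U, ζ ^ j = ∑ ζ ∈ V, ζ ^ j) : U = V := by
  have h1 := esymm_eq U V r h
  have h2 : (U.val.map fun t => (X : ℂ[X]) - C t).prod = (V.val.map fun t => (X : ℂ[X]) - C t).prod := by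
    rw [Multiset.prod_X_sub_X_eq_sum_esymm, Multiset.prod_X_sub_X_eq_sum_esymm]
    have hU' : Multiset.card U.val = r := hU
    have hV' : Multiset.card V.val = r := hV
    rw [hU', hV']
    refine Finset.sum_congr rfl fun j hj => ?_
    rw [h1 j (by have := Finset.mem_range.1 hj; omega)]
  have h3 := congrArg Polynomial.roots h2
  rw [Polynomial.roots_multiset_prod_X_sub_C, Polynomial.roots_multiset_prod_X_sub_C] at h3
  exact Finset.val_inj.1 h3

theorem aux (n : ℕ) (γ : ℕ → ℂ) (κ : ℂ) (hn : 0 < n) (hκ : κ ≠ 0)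
    (h : ∀ ζ : ℂ, ζ ^ n = κ → (∑ k ∈ Finset.range n, γ k * (ζ⁻¹) ^ k) / n = 0 ∨
      (∑ k ∈ Finset.range n, γ k * (ζ⁻¹) ^ k) / n = 1) :
    ∃ U : Finset ℂ, (∀ ζ ∈ U, ζ ^ n = κ) ∧ ∀ j < n, ∑ ζ ∈ U, ζ ^ j = γ j := by
  classical
  obtain ⟨α, hα⟩ := IsAlgClosed.exists_pow_nat_eq κ hn
  have hω := Complex.isPrimitiveRoot_exp n hn.ne'
  set ω : ℂ := Complex.exp (2 * Real.pi * Complex.I / n) with hωd
  have hα0 : α ≠ 0 := by
    rintro rfl
    rw [zero_pow hn.ne'] at hα
    exact hκ hα.symm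
  have hω0 : ω ≠ 0 := Complex.exp_ne_zero _
  have hnC : (n : ℂ) ≠ 0 := by exact_mod_cast hn.ne'
  set p : ℂ → ℂ := fun ζ => (∑ k ∈ Finset.range n, γ k * (ζ⁻¹) ^ k) / n with hp
  have hroot : ∀ i, (α * ω ^ i) ^ n = κ := by
    intro i
    rw [mul_pow, hα, ← pow_mul, mul_comm i n, pow_mul, hω.pow_eq_one, one_pow, mul_one]
  have hinj : Set.InjOn (fun i => α * ω ^ i) (Finset.range n : Set ℕ) := by
    intro i hi j hj hij
    simp only at hij
    have h1 := mul_left_cancel₀ hα0 hij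
    exact hω.pow_inj (by simpa using hi) (by simpa using hj) h1
  set R : Finset ℂ := (Finset.range n).image (fun i => α * ω ^ i) with hR
  refine ⟨R.filter (fun ζ => p ζ = 1), ?_, ?_⟩
  · intro ζ hζ
    rw [Finset.mem_filter, hR, Finset.mem_image] at hζ
    obtain ⟨⟨i, _, rfl⟩, _⟩ := hζ
    exact hroot i
  · intro j hj
    have h1 : ∑ ζ ∈ R.filter (fun ζ => p ζ = 1), ζ ^ j = ∑ ζ ∈ R, p ζ * ζ ^ j := by
      rw [Finset.sum_filter]
      refine Finset.sum_congr rfl fun ζ hζ => ?_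
      rw [hR, Finset.mem_image] at hζ
      obtain ⟨i, _, rfl⟩ := hζ
      rcases h _ (hroot i) with h0 | h0
      · have : p (α * ω ^ i) = 0 := h0
        rw [this]; simp
      · have : p (α * ω ^ i) = 1 := h0
        rw [this]; simp
    rw [h1, hR, Finset.sum_image hinj]
    have h2 : ∀ i ∈ Finset.range n, p (α * ω ^ i) * (α * ω ^ i) ^ j =
        ∑ k ∈ Finset.range n, γ k / n * ((α⁻¹) ^ k * α ^ j) * (ω ^ j * (ω⁻¹) ^ k) ^ i := by
      intro i _
      rw [hp]
      simp only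
      rw [Finset.sum_div, Finset.sum_mul]
      refine Finset.sum_congr rfl fun k _ => ?_
      have e1 : (α * ω ^ i)⁻¹ ^ k = (α⁻¹) ^ k * ((ω⁻¹) ^ k) ^ i := by
        rw [mul_inv, mul_pow, ← inv_pow, ← pow_mul, ← pow_mul, mul_comm i k]
      have e2 : (α * ω ^ i) ^ j = α ^ j * (ω ^ j) ^ i := by
        rw [mul_pow, ← pow_mul, ← pow_mul, mul_comm i j]
      rw [e1, e2, mul_pow]
      ring
    rw [Finset.sum_congr rfl h2, Finset.sum_comm]
    have h3 : ∀ k ∈ Finset.range n, ∑ i ∈ Finset.range n,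
        γ k / n * ((α⁻¹) ^ k * α ^ j) * (ω ^ j * (ω⁻¹) ^ k) ^ i = if k = j then γ j else 0 := by
      intro k hk
      rw [← Finset.mul_sum]
      by_cases hkj : k = j
      · subst hkj
        rw [if_pos rfl]
        have e1 : ω ^ k * (ω⁻¹) ^ k = 1 := by
          rw [← mul_pow, mul_inv_cancel₀ hω0, one_pow]
        have e2 : (α⁻¹) ^ k * α ^ k = 1 := by
          rw [← mul_pow, inv_mul_cancel₀ hα0, one_pow]
        rw [e1, e2]
        simp only [one_pow, Finset.sum_const, Finset.card_range, nsmul_eq_mul, mul_one]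
        field_simp
      · rw [if_neg hkj]
        set q : ℂ := ω ^ j * (ω⁻¹) ^ k with hq
        have hq1 : q ≠ 1 := by
          intro hq1
          apply hkj
          have e3 : ω ^ j = ω ^ k := by
            have e4 : ω ^ j * (ω⁻¹) ^ k * ω ^ k = 1 * ω ^ k := by rw [← hq, hq1]
            rw [mul_assoc, ← mul_pow, inv_mul_cancel₀ hω0, one_pow, mul_one, one_mul] at e4
            exact e4
          exact (hω.pow_inj hj (Finset.mem_range.1 hk) e3).symm
        have hqn : q ^ n = 1 := by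
          rw [hq, mul_pow, ← pow_mul, ← pow_mul, mul_comm j n, mul_comm k n, pow_mul, pow_mul, inv_pow,
            hω.pow_eq_one, inv_one, one_pow, one_pow, one_mul]
        rw [geom_sum_eq hq1, hqn, sub_self, zero_div, mul_zero]
    rw [Finset.sum_congr rfl h3, Finset.sum_ite_eq' (Finset.range n) j, if_pos (Finset.mem_range.2 hj)]

end Nw

theorem newt : S_NEWT := by
  intro n r γ κ hr hrn hκ hγ h1 h2
  have hn : 0 < n := by omega
  obtain ⟨U, hU, hU'⟩ := Nw.aux n γ κ hn hκ h1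
  obtain ⟨V, hV, hV'⟩ := Nw.aux n γ κ⁻¹ hn (inv_ne_zero hκ) h2
  have cU : U.card = r := by
    have h := hU' 0 hn
    rw [hγ] at h
    simp only [pow_zero, Finset.sum_const, nsmul_eq_mul, mul_one] at h
    exact_mod_cast h
  have cV : V.card = r := by
    have h := hV' 0 hn
    rw [hγ] at h
    simp only [pow_zero, Finset.sum_const, nsmul_eq_mul, mul_one] at h
    exact_mod_cast h
  have hUV : U = V := Nw.eq_of_psum U V r cU cV fun j hj => by
    rw [hU' j (by omega), hV' j (by omega)]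
  have hne : U.Nonempty := by
    rw [← Finset.card_pos, cU]; exact hr
  obtain ⟨ζ, hζ⟩ := hne
  have e1 := hU ζ hζ
  rw [hUV] at hζ
  have e2 := hV ζ hζ
  rw [e1] at e2
  rw [pow_two]
  nth_rewrite 2 [e2]
  exact mul_inv_cancel₀ hκ

end Pool.Agent.K9h21.GP
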