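import Pool.Agent.K9h21.GP.Stm7

/-!
# Leaf A-SYM: the transposed correspondence
-/

set_option autoImplicit false

namespace Pool.Agent.K9h21.GP

open Polynomial Filter Topology

namespace SYM_

theorem ps_swap (G : ℂ[X]) (α α' : ℂ) (a b : ℤ) (Z : ℂ → ℂ → ℂ → Prop) (φ : ℂ → ℂ → ℂ → ℂ) (t : ℂ) :
    PS G α' α b a (fun t x y => Z t y x) φ t = PS G α α' a b Z (fun t x y => φ t y x) t := by
  unfold PS
  exact Multiset.sum_map_sum_map _ _

theorem gd_swap {G : ℂ[X]} {α α' : ℂ} {a b : ℤ} {t : ℂ} (h : Gd G α' α b a t) : Gd G α α' a b t :=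
  ⟨h.1, h.2.2, h.2.1⟩

end SYM_

open SYM_

theorem sym : S_SYM := by
  intro G n r α α' a b Z h
  refine ⟨h.mo, h.deg, h.hn, h.hα', h.hα, h.hb, h.ha, h.cr, ?_, ?_⟩
  · intro φ t₁ hg hφ
    have e : PS G α' α b a (fun t x y => Z t y x) φ = PS G α α' a b Z (fun t x y => φ t y x) :=
      funext fun t => ps_swap G α α' a b Z φ t
    rw [e]
    refine h.an _ t₁ (gd_swap hg) fun x y hx hy => ?_
    have h1 := hφ y x hy hx
    have h2 : DifferentiableAt ℂ (fun p : ℂ × ℂ × ℂ => (p.1, p.2.2, p.2.1)) (t₁, x, y) := by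
      fun_prop
    exact DifferentiableAt.comp (t₁, x, y) (g := fun p : ℂ × ℂ × ℂ => φ p.1 p.2.1 p.2.2)
      (f := fun p : ℂ × ℂ × ℂ => (p.1, p.2.2, p.2.1)) h1 h2
  · intro t hg
    rw [ps_swap]
    exact h.tot t (gd_swap hg)

end Pool.Agent.K9h21.GP
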