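import Pool.Agent.K9h21.GP.TjA

/-!
# Leaves TJ, LIN of the project GPM (helper32): estimates
-/

set_option autoImplicit false

namespace Pool.Agent.K9h21.GP.TJ_

open Polynomial Filter Topology

theorem norm_sum_le' (s : Multiset ℂ) (f : ℂ → ℂ) (B : ℝ) (h : ∀ x ∈ s, ‖f x‖ ≤ B) :
    ‖(s.map f).sum‖ ≤ s.card * B := by
  induction s using Multiset.induction_on with
  | empty => simp
  | cons a s ih =>
    rw [Multiset.map_cons, Multiset.sum_cons, Multiset.card_cons]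
    have h1 := ih fun x hx => h x (Multiset.mem_cons_of_mem hx)
    have h2 := h a (Multiset.mem_cons_self a s)
    calc ‖f a + (s.map f).sum‖ ≤ ‖f a‖ + ‖(s.map f).sum‖ := norm_add_le _ _
      _ ≤ B + s.card * B := add_le_add h2 h1
      _ = _ := by push_cast; ring

theorem far_roots (G : ℂ[X]) (α : ℂ) (a : ℤ) (hα : α ≠ 0) (ha : a ≠ 0) (R : ℝ) :
    ∃ T : ℝ, 1 ≤ T ∧ ∀ t : ℂ, t ≠ 0 → (T < ‖t‖ ∨ T < ‖t‖⁻¹) → ∀ x, G.eval x = wv α a t → R < ‖x‖ := by
  obtain ⟨M, hM⟩ := (isCompact_closedBall (0 : ℂ) R).exists_bound_of_continuousOn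
    G.continuous.continuousOn
  obtain ⟨T, hT1, hT⟩ := GEO_.wv_proper α a hα ha M
  refine ⟨T, hT1, fun t ht hor x hx => ?_⟩
  by_contra hcon
  push Not at hcon
  have h1 := hM x (mem_closedBall_zero_iff.2 hcon)
  rw [hx] at h1
  obtain ⟨h2, h3⟩ := hT t ht h1
  rcases hor with h | h <;> linarith

section

variable {G : ℂ[X]} {n : ℕ} {α α' : ℂ} {a b : ℤ} {D : ℕ} {c : Fin D → ℂ → ℂ}

/-- the root -/
noncomputable def yy (G : ℂ[X]) {D : ℕ} (c : Fin D → ℂ → ℂ) (t x : ℂ) : ℂ :=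
  -(∑ i, c i t * x ^ (i : ℕ)) / (derivative G).eval x

/-- the sums -/
noncomputable def TT' (G : ℂ[X]) (α : ℂ) (a : ℤ) {D : ℕ} (c : Fin D → ℂ → ℂ) (j : ℕ) (t : ℂ) : ℂ :=
  ((G - C (wv α a t)).roots.map fun x => -(∑ i, c i t * x ^ (i : ℕ)) / (derivative G).eval x * x ^ j /
      (derivative G).eval x).sum

theorem mon (h : RootM G n α α' a b D c) (w : ℂ) : (G - C w).Monic := by
  apply h.mo.sub_of_left
  calc degree (C w) ≤ 0 := degree_C_le
    _ < degree G := by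
      rw [← natDegree_pos_iff_degree_pos, h.deg]
      have := h.hn
      omega

theorem mem_rt (h : RootM G n α α' a b D c) {w x : ℂ} (hx : x ∈ (G - C w).roots) : G.eval x = w := by
  have h1 := (mem_roots (mon h w).ne_zero).1 hx
  rw [IsRoot.def, eval_sub, eval_C, sub_eq_zero] at h1
  exact h1

theorem card_rt (h : RootM G n α α' a b D c) (w : ℂ) : (G - C w).roots.card = n := by
  rw [← (IsAlgClosed.splits (G - C w)).natDegree_eq_card_roots, natDegree_sub_C, h.deg]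

theorem y_large (h : RootM G n α α' a b D c) : ∃ K : ℝ, 1 ≤ K ∧ ∀ t x : ℂ, t ≠ 0 →
    G.eval x = wv α a t → (derivative G).eval x ≠ 0 → 1 ≤ ‖x‖ → ‖yy G c t x‖ ≤ K * ‖x‖ := by
  have hn := h.hn
  obtain ⟨C₀, hC1, hC⟩ := GEO_.root_bound G h.mo (by rw [h.deg]; omega)
  rw [h.deg] at hC
  obtain ⟨K₁, hK1, hK⟩ := wv_compare α α' a b h.hα h.hα' h.hb h.hab
  obtain ⟨K₂, hK2, hK'⟩ := poly_upper G n h.deg.le
  refine ⟨C₀ * (1 + K₁ * (1 + K₂)), ?_, fun t x ht hx hx' hx1 => ?_⟩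
  · have e1 : 0 ≤ K₁ * (1 + K₂) := by positivity
    nlinarith
  · have h1 : G.eval (yy G c t x) = wv α' b t := h.root t ht x hx hx'
    have h2 := hC (yy G c t x)
    rw [h1] at h2
    have h3 := hK t ht
    rw [← hx] at h3
    have h4 := hK' x hx1
    have h5 : 1 ≤ ‖x‖ ^ n := one_le_pow₀ hx1
    have h6 : ‖yy G c t x‖ ^ n ≤ C₀ * (1 + K₁ * (1 + K₂)) * ‖x‖ ^ n := by
      calc ‖yy G c t x‖ ^ n ≤ C₀ * (1 + ‖wv α' b t‖) := h2
        _ ≤ C₀ * (1 + K₁ * (1 + K₂ * ‖x‖ ^ n)) := by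
            apply mul_le_mul_of_nonneg_left _ (by linarith)
            have : K₁ * (1 + ‖G.eval x‖) ≤ K₁ * (1 + K₂ * ‖x‖ ^ n) := by
              apply mul_le_mul_of_nonneg_left _ (by linarith)
              linarith
            linarith
        _ ≤ C₀ * ((1 + K₁ * (1 + K₂)) * ‖x‖ ^ n) := by
            apply mul_le_mul_of_nonneg_left _ (by linarith)
            have e1 : 0 ≤ K₁ * (‖x‖ ^ n - 1) := by
              apply mul_nonneg <;> linarith
            nlinarith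
        _ = _ := by ring
    set K := C₀ * (1 + K₁ * (1 + K₂)) with hKdef
    have hKpos : 1 ≤ K := by
      have e1 : 0 ≤ K₁ * (1 + K₂) := by positivity
      rw [hKdef]
      nlinarith
    have h7 : ‖yy G c t x‖ ^ n ≤ (K * ‖x‖) ^ n := by
      rw [mul_pow]
      have h8 : K ≤ K ^ n := by
        calc K = K ^ 1 := (pow_one _).symm
          _ ≤ _ := pow_le_pow_right₀ hKpos (by omega)
      calc ‖yy G c t x‖ ^ n ≤ K * ‖x‖ ^ n := h6
        _ ≤ _ := mul_le_mul_of_nonneg_right h8 (by positivity)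
    exact le_of_pow_le_pow_left₀ (by omega) (by positivity) h7

/-- bounds near a point -/
theorem y_local (h : RootM G n α α' a b D c) (s : ℂ) (hs : s ≠ 0) : ∃ Y : ℝ, 1 ≤ Y ∧
    ∀ᶠ t in 𝓝 s, t ≠ 0 ∧ ∀ x, G.eval x = wv α a t → ‖x‖ ≤ Y ∧
      ((derivative G).eval x ≠ 0 → ‖yy G c t x‖ ≤ Y) := by
  have hn := h.hn
  have hn0 : n ≠ 0 := by omega
  obtain ⟨C₀, hC1, hC⟩ := GEO_.root_bound G h.mo (by rw [h.deg]; omega)
  rw [h.deg] at hC
  set M : ℝ := ‖wv α a s‖ + ‖wv α' b s‖ + 1 with hM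
  have hM0 : 1 ≤ M := by
    have := norm_nonneg (wv α a s)
    have := norm_nonneg (wv α' b s)
    linarith
  have ha0 : a ≠ 0 := by
    have := h.hb
    have := h.hab
    omega
  have h1 : ∀ᶠ t in 𝓝 s, ‖wv α a t‖ < M := by
    have := (GEO_.wv_deriv α a s h.hα hs).continuousAt.norm
    refine this.eventually (gt_mem_nhds ?_)
    have := norm_nonneg (wv α' b s)
    linarith
  have h2 : ∀ᶠ t in 𝓝 s, ‖wv α' b t‖ < M := by
    have := (GEO_.wv_deriv α' b s h.hα' hs).continuousAt.norm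
    refine this.eventually (gt_mem_nhds ?_)
    have := norm_nonneg (wv α a s)
    linarith
  have hY : 1 ≤ C₀ * (1 + M) := by nlinarith
  refine ⟨C₀ * (1 + M), hY, ?_⟩
  filter_upwards [h1, h2, isOpen_ne.mem_nhds hs] with t h3 h4 ht
  refine ⟨ht, fun x hx => ⟨?_, fun hx' => ?_⟩⟩
  · apply GEO_.le_of_pow_le' (norm_nonneg _) hn0 hY
    have h5 := hC x
    rw [hx] at h5
    refine h5.trans (mul_le_mul_of_nonneg_left ?_ (by linarith))
    linarith
  · apply GEO_.le_of_pow_le' (norm_nonneg _) hn0 hY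
    have h5 := hC (yy G c t x)
    have h6 : G.eval (yy G c t x) = wv α' b t := h.root t ht x hx hx'
    rw [h6] at h5
    refine h5.trans (mul_le_mul_of_nonneg_left ?_ (by linarith))
    linarith

/-- the derivative at the roots near a branch point -/
theorem der_local (h : RootM G n α α' a b D c) (s : ℂ) (hs : s ≠ 0)
    (hB : ∃ x, (derivative G).eval x = 0 ∧ G.eval x = wv α a s) : ∃ κ : ℝ, 0 < κ ∧
    ∀ᶠ t in 𝓝[≠] s, ∀ x, G.eval x = wv α a t → κ * ‖t - s‖ ≤ ‖(derivative G).eval x‖ ^ 2 := by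
  have hn := h.hn
  have ha0 : a ≠ 0 := by
    have := h.hb
    have := h.hab
    omega
  obtain ⟨x₀, hx0, hx0'⟩ := hB
  have h4 : (wv α a s) ^ 2 ≠ 4 := by
    rw [← hx0']
    exact h.cr x₀ hx0
  obtain ⟨c₁, hc1, h1⟩ := wv_lower α a h.hα ha0 s hs h4
  obtain ⟨c₂, δ, hc2, hδ, h2⟩ := deriv_lower G h.mo (by rw [h.deg]; omega) h.morse.1 (wv α a s)
  have h3 : ∀ᶠ t in 𝓝[≠] s, ‖wv α a t - wv α a s‖ < δ := by
    have h5 := (GEO_.wv_deriv α a s h.hα hs).continuousAt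
    have h6 := (Metric.continuousAt_iff'.1 h5) δ hδ
    apply mem_nhdsWithin_of_mem_nhds
    filter_upwards [h6] with t ht
    rwa [dist_eq_norm] at ht
  refine ⟨c₂ * c₁, mul_pos hc2 hc1, ?_⟩
  filter_upwards [h1, h3] with t h5 h6 x hx
  have h7 := h2 x (by rw [hx]; exact h6)
  rw [hx] at h7
  calc c₂ * c₁ * ‖t - s‖ = c₂ * (c₁ * ‖t - s‖) := by ring
    _ ≤ c₂ * ‖wv α a t - wv α a s‖ := mul_le_mul_of_nonneg_left h5 hc2.le
    _ ≤ _ := h7

/-- the branch points -/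
def Br (G : ℂ[X]) (α : ℂ) (a : ℤ) : Set ℂ := {t | t ≠ 0 ∧ ∃ x, (derivative G).eval x = 0 ∧ G.eval x = wv α a t}

theorem Br_finite (h : RootM G n α α' a b D c) : (Br G α a).Finite := by
  classical
  have hn := h.hn
  have ha0 : a ≠ 0 := by
    have := h.hb
    have := h.hab
    omega
  have hG0 : derivative G ≠ 0 := by
    intro h'
    have := natDegree_eq_zero_of_derivative_eq_zero h'
    rw [h.deg] at this
    omega
  have h1 : (⋃ x ∈ ((derivative G).roots.toFinset : Set ℂ),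
      {t : ℂ | t ≠ 0 ∧ wv α a t = G.eval x}).Finite :=
    Set.Finite.biUnion ((derivative G).roots.toFinset.finite_toSet)
      fun x _ => GEO_.wv_finite α a h.hα ha0 _
  refine h1.subset ?_
  rintro t ⟨ht, x, hx, hxe⟩
  rw [Set.mem_iUnion₂]
  refine ⟨x, ?_, ht, hxe.symm⟩
  rw [Finset.mem_coe, Multiset.mem_toFinset, mem_roots hG0]
  exact hx

theorem notBr {t x : ℂ} (ht : t ≠ 0) (hB : t ∉ Br G α a) (hx : G.eval x = wv α a t) :
    (derivative G).eval x ≠ 0 := fun h => hB ⟨ht, x, h, hx⟩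

/-- eventually not in a finite set -/
theorem ev_notin (Z : Finset ℂ) (s : ℂ) : ∀ᶠ t in 𝓝[≠] s, t ∉ Z := by
  classical
  have h1 : IsClosed ((Z.erase s : Finset ℂ) : Set ℂ) := (Z.erase s).finite_toSet.isClosed
  have h2 : ∀ᶠ t in 𝓝 s, t ∉ ((Z.erase s : Finset ℂ) : Set ℂ) :=
    h1.isOpen_compl.mem_nhds (by simp)
  filter_upwards [mem_nhdsWithin_of_mem_nhds h2, self_mem_nhdsWithin] with t ht hts hZt
  apply ht
  rw [Finset.mem_coe, Finset.mem_erase]
  exact ⟨hts, hZt⟩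

/-- the terms are differentiable -/
theorem term_diff (h : RootM G n α α' a b D c) {t x : ℂ} (ht : t ≠ 0)
    (hx : (derivative G).eval x ≠ 0) :
    DifferentiableAt ℂ (fun p : ℂ × ℂ => yy G c p.1 p.2) (t, x) := by
  have h1 : ∀ i, DifferentiableAt ℂ (fun p : ℂ × ℂ => c i p.1) (t, x) := fun i =>
    DifferentiableAt.comp (t, x) (f := fun p : ℂ × ℂ => p.1)
      ((h.dc i).differentiableAt (isOpen_compl_singleton.mem_nhds ht)) differentiableAt_fst
  have h2 : DifferentiableAt ℂ (fun p : ℂ × ℂ => (derivative G).eval p.2) (t, x) :=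
    DifferentiableAt.comp (t, x) (f := fun p : ℂ × ℂ => p.2)
      ((derivative G).differentiable x) differentiableAt_snd
  have h3 : DifferentiableAt ℂ (fun p : ℂ × ℂ => -(∑ i, c i p.1 * p.2 ^ (i : ℕ))) (t, x) := by
    refine DifferentiableAt.fun_neg ?_
    refine DifferentiableAt.fun_sum fun i _ => ?_
    exact (h1 i).fun_mul (differentiableAt_snd.fun_pow _)
  have h4 : DifferentiableAt ℂ (fun p : ℂ × ℂ => ((derivative G).eval p.2)⁻¹) (t, x) :=
    h2.fun_inv hx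
  unfold yy
  simp only [div_eq_mul_inv]
  exact h3.fun_mul h4

end

end Pool.Agent.K9h21.GP.TJ_
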