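import Pool.Agent.K9h21.GP.Stm7
import Pool.Agent.K9h21.GP.TjB

/-!
# Leaf T1 of the project GPA (helper32)
-/

set_option autoImplicit false

namespace Pool.Agent.K9h21.GP.T1_

open Polynomial Filter Topology TJ_

theorem Br_fin (G : ℂ[X]) (hG0 : derivative G ≠ 0) (α : ℂ) (a : ℤ) (hα : α ≠ 0) (ha0 : a ≠ 0) :
    (Br G α a).Finite := by
  classical
  have h1 : (⋃ x ∈ ((derivative G).roots.toFinset : Set ℂ),
      {t : ℂ | t ≠ 0 ∧ wv α a t = G.eval x}).Finite :=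
    Set.Finite.biUnion ((derivative G).roots.toFinset.finite_toSet)
      fun x _ => GEO_.wv_finite α a hα ha0 _
  refine h1.subset ?_
  rintro t ⟨ht, x, hx, hxe⟩
  rw [Set.mem_iUnion₂]
  refine ⟨x, ?_, ht, hxe.symm⟩
  rw [Finset.mem_coe, Multiset.mem_toFinset, mem_roots hG0]
  exact hx

theorem local_eps (G : ℂ[X]) (hG0 : derivative G ≠ 0) (v₀ x₁ : ℂ) (hx : G.eval x₁ = v₀) (ε : ℝ)
    (hε : 0 < ε) : ∀ᶠ x in 𝓝 x₁, ‖G.eval x - v₀‖ ≤ ε * ‖(derivative G).eval x‖ := by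
  have hne : G - C v₀ ≠ 0 := by
    intro h
    apply hG0
    have := congrArg derivative h
    simpa using this
  obtain ⟨H, hH, hH2⟩ := exists_eq_pow_rootMultiplicity_mul_and_not_dvd (G - C v₀) hne x₁
  have he0 : 0 < rootMultiplicity x₁ (G - C v₀) := (rootMultiplicity_pos hne).2 (by
    rw [IsRoot.def, eval_sub, eval_C, hx, sub_self])
  obtain ⟨m, hm⟩ : ∃ m, rootMultiplicity x₁ (G - C v₀) = m + 1 :=
    ⟨rootMultiplicity x₁ (G - C v₀) - 1, by omega⟩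
  rw [hm] at hH
  have hH1 : H.eval x₁ ≠ 0 := fun h => hH2 (dvd_iff_isRoot.2 h)
  have hval : ∀ x, G.eval x - v₀ = (x - x₁) ^ m * ((x - x₁) * H.eval x) := by
    intro x
    have h1 := congrArg (eval x) hH
    simp only [eval_sub, eval_C, eval_mul, eval_pow, eval_X] at h1
    rw [h1]
    ring
  have hder : ∀ x, (derivative G).eval x =
      (x - x₁) ^ m * ((m + 1 : ℂ) * H.eval x + (x - x₁) * (derivative H).eval x) := by
    intro x
    have h0 : derivative (G - C v₀) = derivative G := by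
      rw [derivative_sub, derivative_C, sub_zero]
    have h1 := congrArg (fun P => eval x (derivative P)) hH
    simp only [h0] at h1
    rw [h1, derivative_mul, derivative_pow]
    simp only [derivative_sub, derivative_X, derivative_C, sub_zero, mul_one, eval_add, eval_mul,
      eval_pow, eval_sub, eval_X, eval_C, Nat.add_sub_cancel]
    push_cast
    ring
  have hcont : Continuous fun x : ℂ => ε * ‖(m + 1 : ℂ) * H.eval x +
      (x - x₁) * (derivative H).eval x‖ - ‖(x - x₁) * H.eval x‖ := by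
    have e1 : Continuous fun x : ℂ => H.eval x := H.continuous
    have e2 : Continuous fun x : ℂ => (derivative H).eval x := (derivative H).continuous
    fun_prop
  have h0 := hcont.tendsto x₁
  have hm1 : (m + 1 : ℂ) ≠ 0 := by exact_mod_cast Nat.succ_ne_zero m
  have hpos : 0 < ε * ‖(m + 1 : ℂ) * H.eval x₁‖ := by
    have := norm_pos_iff.2 (mul_ne_zero hm1 hH1)
    positivity
  simp only [sub_self, zero_mul, add_zero, norm_zero, sub_zero] at h0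
  filter_upwards [h0.eventually (lt_mem_nhds hpos)] with x h2
  have h3 : ‖(x - x₁) * H.eval x‖ ≤ ε * ‖(m + 1 : ℂ) * H.eval x +
      (x - x₁) * (derivative H).eval x‖ := by linarith
  have e1 : ‖G.eval x - v₀‖ = ‖(x - x₁) ^ m‖ * ‖(x - x₁) * H.eval x‖ := by rw [hval, norm_mul]
  have e2 : ‖(derivative G).eval x‖ = ‖(x - x₁) ^ m‖ * ‖(m + 1 : ℂ) * H.eval x +
      (x - x₁) * (derivative H).eval x‖ := by rw [hder, norm_mul]
  rw [e1, e2]
  calc ‖(x - x₁) ^ m‖ * ‖(x - x₁) * H.eval x‖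
      ≤ ‖(x - x₁) ^ m‖ * (ε * ‖(m + 1 : ℂ) * H.eval x +
      (x - x₁) * (derivative H).eval x‖) := mul_le_mul_of_nonneg_left h3 (norm_nonneg _)
    _ = _ := by ring

theorem der_ne (G : ℂ[X]) (n : ℕ) (hdeg : G.natDegree = n) (hn : 2 ≤ n) : derivative G ≠ 0 := by
  intro h'
  have := natDegree_eq_zero_of_derivative_eq_zero h'
  omega

theorem near_eps (G : ℂ[X]) (hG : G.Monic) (n : ℕ) (hdeg : G.natDegree = n) (hn : 2 ≤ n)
    (hcr : ∀ x, (derivative G).eval x = 0 → (G.eval x) ^ 2 ≠ 4) (α : ℂ) (a : ℤ) (hα : α ≠ 0)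
    (ha0 : a ≠ 0) (s : ℂ) (hs : s ≠ 0) (ε : ℝ) (hε : 0 < ε) :
    ∀ᶠ t in 𝓝[≠] s, ∀ x, G.eval x = wv α a t → ‖t - s‖ ≤ ε * ‖(derivative G).eval x‖ := by
  classical
  have hG0 := der_ne G n hdeg hn
  have hw := (GEO_.wv_deriv α a s hα hs).continuousAt
  by_cases hB : ∃ x, (derivative G).eval x = 0 ∧ G.eval x = wv α a s
  · obtain ⟨x₀, hx0, hx0'⟩ := hB
    have h4 : (wv α a s) ^ 2 ≠ 4 := by
      rw [← hx0']
      exact hcr x₀ hx0
    obtain ⟨c₁, hc1, h1⟩ := wv_lower α a hα ha0 s hs h4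
    obtain ⟨δ, hδ, h2⟩ := near_root G hG (by omega) (wv α a s)
      (fun x => ‖G.eval x - wv α a s‖ ≤ ε * c₁ * ‖(derivative G).eval x‖)
      (fun x₁ hx₁ => local_eps G hG0 _ x₁ hx₁ (ε * c₁) (by positivity))
    have h3 : ∀ᶠ t in 𝓝[≠] s, ‖wv α a t - wv α a s‖ < δ := by
      have h6 := (Metric.continuousAt_iff'.1 hw) δ hδ
      apply mem_nhdsWithin_of_mem_nhds
      filter_upwards [h6] with t ht
      rwa [dist_eq_norm] at ht
    filter_upwards [h1, h3] with t h5 h6 x hx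
    have h7 := h2 x (by rw [hx]; exact h6)
    rw [hx] at h7
    have h8 : c₁ * ‖t - s‖ ≤ c₁ * (ε * ‖(derivative G).eval x‖) := by
      calc c₁ * ‖t - s‖ ≤ _ := h5
        _ ≤ _ := h7
        _ = _ := by ring
    exact le_of_mul_le_mul_left h8 hc1
  · have hm : G - C (wv α a s) ≠ 0 := by
      intro h
      apply hG0
      have := congrArg derivative h
      simpa using this
    have hmem : ∀ x₁, G.eval x₁ = wv α a s → x₁ ∈ (G - C (wv α a s)).roots.toFinset := by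
      intro x₁ hx₁
      rw [Multiset.mem_toFinset, mem_roots hm, IsRoot.def, eval_sub, eval_C, hx₁, sub_self]
    have hmem' : ∀ x₁, x₁ ∈ (G - C (wv α a s)).roots.toFinset → G.eval x₁ = wv α a s := by
      intro x₁ hx₁
      rw [Multiset.mem_toFinset, mem_roots hm, IsRoot.def, eval_sub, eval_C, sub_eq_zero] at hx₁
      exact hx₁
    obtain ⟨η, hη, hη2⟩ : ∃ η : ℝ, 0 < η ∧ ∀ x₁, G.eval x₁ = wv α a s →
        η ≤ ‖(derivative G).eval x₁‖ := by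
      by_cases hne : (G - C (wv α a s)).roots.toFinset.Nonempty
      · obtain ⟨x₂, hx₂', hx₂⟩ := Finset.exists_min_image (G - C (wv α a s)).roots.toFinset
          (fun x => ‖(derivative G).eval x‖) hne
        refine ⟨‖(derivative G).eval x₂‖, norm_pos_iff.2 fun h0 => hB ⟨x₂, h0, hmem' x₂ hx₂'⟩,
          fun x₁ hx₁ => hx₂ x₁ (hmem x₁ hx₁)⟩
      · refine ⟨1, one_pos, fun x₁ hx₁ => ?_⟩
        exact absurd ⟨x₁, hmem x₁ hx₁⟩ hne
    obtain ⟨δ, hδ, h2⟩ := near_root G hG (by omega) (wv α a s)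
      (fun x => η / 2 ≤ ‖(derivative G).eval x‖)
      (fun x₁ hx₁ => by
        have h3 := (derivative G).continuous.norm.tendsto x₁
        have h4 : η / 2 < ‖(derivative G).eval x₁‖ := by
          have := hη2 x₁ hx₁
          linarith
        filter_upwards [h3.eventually (lt_mem_nhds h4)] with x hx
        exact hx.le)
    have h3 : ∀ᶠ t in 𝓝[≠] s, ‖wv α a t - wv α a s‖ < δ := by
      have h6 := (Metric.continuousAt_iff'.1 hw) δ hδ
      apply mem_nhdsWithin_of_mem_nhds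
      filter_upwards [h6] with t ht
      rwa [dist_eq_norm] at ht
    have h5 : ∀ᶠ t in 𝓝[≠] s, ‖t - s‖ < ε * (η / 2) := by
      apply mem_nhdsWithin_of_mem_nhds
      have : Metric.ball s (ε * (η / 2)) ∈ 𝓝 s := Metric.ball_mem_nhds s (by positivity)
      filter_upwards [this] with t ht
      rwa [Metric.mem_ball, dist_eq_norm] at ht
    filter_upwards [h3, h5] with t h6 h7 x hx
    have h8 := h2 x (by rw [hx]; exact h6)
    calc ‖t - s‖ ≤ ε * (η / 2) := h7.le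
      _ ≤ _ := mul_le_mul_of_nonneg_left h8 hε.le

theorem local_bd (G : ℂ[X]) (hG : G.Monic) (n : ℕ) (hdeg : G.natDegree = n) (hn : 2 ≤ n) (α : ℂ)
    (a : ℤ) (hα : α ≠ 0) (s : ℂ) (hs : s ≠ 0) :
    ∃ Y : ℝ, 1 ≤ Y ∧ ∀ᶠ t in 𝓝 s, ∀ x, G.eval x = wv α a t → ‖x‖ ≤ Y := by
  obtain ⟨C₀, hC1, hC⟩ := GEO_.root_bound G hG (by omega)
  rw [hdeg] at hC
  have hw := (GEO_.wv_deriv α a s hα hs).continuousAt.norm
  have h1 : ∀ᶠ t in 𝓝 s, ‖wv α a t‖ < ‖wv α a s‖ + 1 :=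
    hw.eventually (gt_mem_nhds (by linarith))
  have h0 := norm_nonneg (wv α a s)
  have hY : 1 ≤ C₀ * (1 + (‖wv α a s‖ + 1)) := by nlinarith
  refine ⟨C₀ * (1 + (‖wv α a s‖ + 1)), hY, ?_⟩
  filter_upwards [h1] with t h3 x hx
  apply GEO_.le_of_pow_le' (norm_nonneg _) (by omega : n ≠ 0) hY
  have h5 := hC x
  rw [hx] at h5
  refine h5.trans (mul_le_mul_of_nonneg_left ?_ (by linarith))
  linarith

section

variable {G : ℂ[X]} {n r : ℕ} {α α' : ℂ} {a b : ℤ} {Z : ℂ → ℂ → ℂ → Prop}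

theorem mon' (h : Cor G n r α α' a b Z) (w : ℂ) : (G - C w).Monic := by
  apply h.mo.sub_of_left
  calc degree (C w) ≤ 0 := degree_C_le
    _ < degree G := by
      rw [← natDegree_pos_iff_degree_pos, h.deg]
      have := h.hn
      omega

theorem mem_rt' (h : Cor G n r α α' a b Z) {w x : ℂ} (hx : x ∈ (G - C w).roots) :
    G.eval x = w := by
  have h1 := (mem_roots (mon' h w).ne_zero).1 hx
  rw [IsRoot.def, eval_sub, eval_C, sub_eq_zero] at h1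
  exact h1

theorem card_rt' (h : Cor G n r α α' a b Z) (w : ℂ) : (G - C w).roots.card = n := by
  rw [← (IsAlgClosed.splits (G - C w)).natDegree_eq_card_roots, natDegree_sub_C, h.deg]

theorem PS_le (h : Cor G n r α α' a b Z) (φ : ℂ → ℂ → ℂ → ℂ) (t : ℂ) (B : ℝ) (hB0 : 0 ≤ B)
    (hB : ∀ x y, G.eval x = wv α a t → G.eval y = wv α' b t → ‖φ t x y‖ ≤ B) :
    ‖PS G α α' a b Z φ t‖ ≤ n * (n * B) := by
  classical
  unfold PS
  have h1 := norm_sum_le' (G - C (wv α a t)).roots (fun x =>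
    ((G - C (wv α' b t)).roots.map fun y => if Z t x y then φ t x y else 0).sum) (n * B) (by
      intro x hx
      have h2 := norm_sum_le' (G - C (wv α' b t)).roots
        (fun y => if Z t x y then φ t x y else 0) B (by
          intro y hy
          split_ifs
          · exact hB x y (mem_rt' h hx) (mem_rt' h hy)
          · rwa [norm_zero])
      rw [card_rt' h] at h2
      convert h2 using 6)
  rw [card_rt' h] at h1
  convert h1 using 8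

/-- the terms -/
noncomputable def ph (G : ℂ[X]) (n i k : ℕ) : ℂ → ℂ → ℂ → ℂ :=
  fun _ x y => y ^ k * x ^ (n - 1 - i) / (derivative G).eval x

theorem T_local (h : Cor G n r α α' a b Z) (i k : ℕ) (s : ℂ) (hs : s ≠ 0) :
    Tendsto (fun t => (t - s) * PS G α α' a b Z (ph G n i k) t) (𝓝[≠] s) (𝓝 0) := by
  obtain ⟨Y, hY1, hY⟩ := local_bd G h.mo n h.deg h.hn α a h.hα s hs
  obtain ⟨Y', hY1', hY'⟩ := local_bd G h.mo n h.deg h.hn α' b h.hα' s hs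
  rw [Metric.tendsto_nhds]
  intro η hη
  set L : ℝ := n * (n * (Y' ^ k * Y ^ (n - 1 - i))) + 1 with hL
  have hL0 : 0 < L := by positivity
  set ε : ℝ := η / (2 * L) with hε
  have hε0 : 0 < ε := by positivity
  have ha0 : a ≠ 0 := h.ha.ne'
  have h1 := near_eps G h.mo n h.deg h.hn h.cr α a h.hα ha0 s hs ε hε0
  filter_upwards [h1, mem_nhdsWithin_of_mem_nhds hY, mem_nhdsWithin_of_mem_nhds hY',
    self_mem_nhdsWithin] with t h2 h3 h4 hts
  have hd : 0 < ‖t - s‖ := norm_pos_iff.2 (sub_ne_zero.2 hts)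
  have h5 := PS_le h (ph G n i k) t (Y' ^ k * Y ^ (n - 1 - i) * (ε / ‖t - s‖)) (by positivity) (by
    intro x y hx hy
    have e1 := h2 x hx
    have e2 := h3 x hx
    have e3 := h4 y hy
    have e4 : 0 < ‖(derivative G).eval x‖ := by
      by_contra hcon
      have : ‖(derivative G).eval x‖ = 0 := le_antisymm (not_lt.1 hcon) (norm_nonneg _)
      rw [this, mul_zero] at e1
      linarith
    have e5 : ‖(derivative G).eval x‖⁻¹ ≤ ε / ‖t - s‖ := by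
      rw [inv_le_comm₀ e4 (by positivity), inv_div, div_le_iff₀ hε0]
      linarith
    unfold ph
    rw [norm_div, norm_mul, norm_pow, norm_pow, div_eq_mul_inv]
    have e6 : ‖y‖ ^ k ≤ Y' ^ k := pow_le_pow_left₀ (norm_nonneg _) e3 k
    have e7 : ‖x‖ ^ (n - 1 - i) ≤ Y ^ (n - 1 - i) := pow_le_pow_left₀ (norm_nonneg _) e2 _
    have hY0 : 0 ≤ Y := by linarith
    have hY0' : 0 ≤ Y' := by linarith
    exact mul_le_mul (mul_le_mul e6 e7 (by positivity) (by positivity)) e5 (by positivity)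
      (by positivity))
  rw [dist_zero_right, norm_mul]
  calc ‖t - s‖ * ‖PS G α α' a b Z (ph G n i k) t‖
      ≤ ‖t - s‖ * (n * (n * (Y' ^ k * Y ^ (n - 1 - i) * (ε / ‖t - s‖)))) :=
        mul_le_mul_of_nonneg_left h5 hd.le
    _ = (n * (n * (Y' ^ k * Y ^ (n - 1 - i)))) * ε := by field_simp
    _ ≤ L * ε := by
        apply mul_le_mul_of_nonneg_right _ hε0.le
        rw [hL]
        linarith
    _ = η / 2 := by
        rw [hε]
        field_simp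
    _ < η := by linarith

theorem wv_up (α' : ℂ) (hα' : α' ≠ 0) (B : ℕ) : ∃ K : ℝ, 0 < K ∧ ∀ t : ℂ, t ≠ 0 →
    ‖wv α' (B : ℤ) t‖ ≤ K * (‖t‖ + ‖t‖⁻¹) ^ B := by
  have hA' : 0 < ‖α'‖ := norm_pos_iff.2 hα'
  refine ⟨‖α'‖ + ‖α'‖⁻¹, by positivity, fun t ht => ?_⟩
  have ht0 : 0 < ‖t‖ := norm_pos_iff.2 ht
  have hti : 0 < ‖t‖⁻¹ := inv_pos.2 ht0
  unfold wv
  rw [zpow_natCast]
  calc ‖α' * t ^ B + (α' * t ^ B)⁻¹‖ ≤ ‖α' * t ^ B‖ + ‖(α' * t ^ B)⁻¹‖ := norm_add_le _ _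
    _ = ‖α'‖ * ‖t‖ ^ B + ‖α'‖⁻¹ * ‖t‖⁻¹ ^ B := by
        rw [norm_inv, norm_mul, norm_pow, mul_inv, inv_pow]
    _ ≤ ‖α'‖ * (‖t‖ + ‖t‖⁻¹) ^ B + ‖α'‖⁻¹ * (‖t‖ + ‖t‖⁻¹) ^ B := by
        have e1 : ‖t‖ ≤ ‖t‖ + ‖t‖⁻¹ := by linarith
        have e2 : ‖t‖⁻¹ ≤ ‖t‖ + ‖t‖⁻¹ := by linarith
        have e3 := pow_le_pow_left₀ ht0.le e1 B
        have e4 := pow_le_pow_left₀ hti.le e2 B
        have e5 : 0 ≤ ‖α'‖⁻¹ := by positivity
        exact add_le_add (mul_le_mul_of_nonneg_left e3 hA'.le) (mul_le_mul_of_nonneg_left e4 e5)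
    _ = _ := by ring

theorem wv_low (α : ℂ) (hα : α ≠ 0) (A : ℕ) : ∃ K : ℝ, 0 < K ∧ ∀ t : ℂ, t ≠ 0 →
    (‖t‖ + ‖t‖⁻¹) ^ A ≤ K * (1 + ‖wv α (A : ℤ) t‖) := by
  have hA : 0 < ‖α‖ := norm_pos_iff.2 hα
  set P : ℝ := ‖α‖ + ‖α‖⁻¹ with hP
  have hP0 : 0 < P := by positivity
  refine ⟨2 ^ (A - 1) * (P * 2), by positivity, fun t ht => ?_⟩
  have ht0 : 0 < ‖t‖ := norm_pos_iff.2 ht
  have hti : 0 < ‖t‖⁻¹ := inv_pos.2 ht0
  have h1 := add_pow_le ht0.le hti.le A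
  have h4 := sum_inv_le (α * t ^ (A : ℤ)) (mul_ne_zero hα (zpow_ne_zero _ ht))
  have h5 : ‖α * t ^ (A : ℤ)‖ = ‖α‖ * ‖t‖ ^ A := by rw [norm_mul, zpow_natCast, norm_pow]
  rw [h5] at h4
  have h6 : ‖α * t ^ (A : ℤ) + (α * t ^ (A : ℤ))⁻¹‖ = ‖wv α A t‖ := rfl
  rw [h6] at h4
  have h7 : ‖t‖ ^ A ≤ P * (‖α‖ * ‖t‖ ^ A) := by
    have e1 : 1 ≤ P * ‖α‖ := by
      rw [hP, add_mul, inv_mul_cancel₀ hA.ne']
      nlinarith
    have e2 : 0 ≤ ‖t‖ ^ A := by positivity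
    calc ‖t‖ ^ A = 1 * ‖t‖ ^ A := (one_mul _).symm
      _ ≤ (P * ‖α‖) * ‖t‖ ^ A := mul_le_mul_of_nonneg_right e1 e2
      _ = _ := by ring
  have h8 : ‖t‖⁻¹ ^ A ≤ P * (‖α‖ * ‖t‖ ^ A)⁻¹ := by
    have e1 : 1 ≤ P * ‖α‖⁻¹ := by
      rw [hP, add_mul, mul_inv_cancel₀ hA.ne']
      nlinarith [inv_pos.2 hA]
    have e2 : 0 ≤ ‖t‖⁻¹ ^ A := by positivity
    calc ‖t‖⁻¹ ^ A = 1 * ‖t‖⁻¹ ^ A := (one_mul _).symm
      _ ≤ (P * ‖α‖⁻¹) * ‖t‖⁻¹ ^ A := mul_le_mul_of_nonneg_right e1 e2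
      _ = _ := by rw [mul_inv, inv_pow]; ring
  have hw := norm_nonneg (wv α A t)
  have h9 : ‖t‖ ^ A + ‖t‖⁻¹ ^ A ≤ P * 2 * (1 + ‖wv α A t‖) := by
    have h10 := mul_le_mul_of_nonneg_left h4 hP0.le
    have h11 : 0 ≤ P * ‖wv α A t‖ := by positivity
    nlinarith
  calc (‖t‖ + ‖t‖⁻¹) ^ A ≤ 2 ^ (A - 1) * (‖t‖ ^ A + ‖t‖⁻¹ ^ A) := h1
    _ ≤ 2 ^ (A - 1) * (P * 2 * (1 + ‖wv α A t‖)) :=
        mul_le_mul_of_nonneg_left h9 (by positivity)
    _ = _ := by ring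

theorem one_le_U {t : ℂ} (ht : t ≠ 0) : 1 ≤ ‖t‖ + ‖t‖⁻¹ := by
  have ht0 : 0 < ‖t‖ := norm_pos_iff.2 ht
  have hti : 0 < ‖t‖⁻¹ := inv_pos.2 ht0
  rcases le_or_gt 1 ‖t‖ with h | h
  · linarith
  · have : 1 ≤ ‖t‖⁻¹ := (one_le_inv₀ ht0).2 h.le
    linarith

theorem psi_bound (h : Cor G n r α α' a b Z) (i k : ℕ) (hi : i < n) :
    ∃ K Q T : ℝ, 0 < K ∧ 1 ≤ Q ∧ 1 ≤ T ∧ ∀ t : ℂ, t ≠ 0 → (T < ‖t‖ ∨ T < ‖t‖⁻¹) →
      ∀ x y, G.eval x = wv α a t → G.eval y = wv α' b t → ∃ ψ : ℝ, 0 ≤ ψ ∧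
        ‖ph G n i k t x y‖ ≤ K * ψ ∧ ((k : ℤ) * b ≤ i * a → ψ ^ n ≤ Q) ∧
        ((k : ℤ) * b < i * a → ψ ^ n * ‖t‖ ≤ Q) := by
  have hn := h.hn
  obtain ⟨A, hA⟩ : ∃ A : ℕ, a = A := ⟨a.toNat, by have := h.ha; omega⟩
  obtain ⟨B, hB⟩ : ∃ B : ℕ, b = B := ⟨b.toNat, by have := h.hb; omega⟩
  obtain ⟨K₂, hK2, h2⟩ := wv_up α' h.hα' B
  obtain ⟨K₁, hK1, h1⟩ := wv_low α h.hα A
  obtain ⟨C₀, hC1, hC⟩ := GEO_.root_bound G h.mo (by rw [h.deg]; omega)
  rw [h.deg] at hC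
  obtain ⟨K₃, hK3, h3⟩ := poly_upper G n h.deg.le
  obtain ⟨K₆, R₆, hK6, hR6, h6⟩ := deriv_large G h.mo n h.deg h.hn
  obtain ⟨T, hT1, hT⟩ := far_roots G α a h.hα h.ha.ne' R₆
  set K₄ : ℝ := K₁ * (1 + K₃) with hK4
  set K₅ : ℝ := C₀ * (1 + K₂) with hK5
  have hK40 : 0 < K₄ := by positivity
  have hK50 : 0 < K₅ := by
    have : 0 < C₀ := by linarith
    positivity
  refine ⟨K₆, 1 + K₅ ^ k * K₄ ^ i, T, hK6, by
    have : 0 < K₅ ^ k * K₄ ^ i := by positivity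
    linarith, hT1, fun t ht hor x y hx hy => ?_⟩
  have hxR := hT t ht hor x hx
  have hx1 : 1 ≤ ‖x‖ := by linarith
  have hx0 : 0 < ‖x‖ := by linarith
  have hU1 := one_le_U ht
  have ht0 : 0 < ‖t‖ := norm_pos_iff.2 ht
  set U : ℝ := ‖t‖ + ‖t‖⁻¹ with hU
  have hU0 : 0 < U := by linarith
  -- lower bound for x
  have e1 : U ^ A ≤ K₄ * ‖x‖ ^ n := by
    have f1 := h1 t ht
    rw [← hA, ← hx] at f1
    have f2 := h3 x hx1
    have f3 : 1 ≤ ‖x‖ ^ n := one_le_pow₀ hx1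
    calc U ^ A ≤ K₁ * (1 + ‖G.eval x‖) := f1
      _ ≤ K₁ * (‖x‖ ^ n + K₃ * ‖x‖ ^ n) :=
          mul_le_mul_of_nonneg_left (add_le_add f3 f2) hK1.le
      _ = _ := by rw [hK4]; ring
  -- upper bound for y
  have e2 : ‖y‖ ^ n ≤ K₅ * U ^ B := by
    have f1 := h2 t ht
    rw [← hB, ← hy] at f1
    have f2 := hC y
    have f3 : 1 ≤ U ^ B := one_le_pow₀ hU1
    calc ‖y‖ ^ n ≤ C₀ * (1 + ‖G.eval y‖) := f2
      _ ≤ C₀ * (U ^ B + K₂ * U ^ B) :=
          mul_le_mul_of_nonneg_left (add_le_add f3 f1) (by linarith)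
      _ = _ := by rw [hK5]; ring
  have hψ : (‖y‖ ^ k / ‖x‖ ^ i) ^ n * U ^ (A * i) ≤ K₅ ^ k * K₄ ^ i * U ^ (B * k) := by
    have f1 : (‖y‖ ^ k / ‖x‖ ^ i) ^ n = (‖y‖ ^ n) ^ k / (‖x‖ ^ n) ^ i := by
      rw [div_pow, ← pow_mul, ← pow_mul, ← pow_mul, ← pow_mul, mul_comm k n, mul_comm i n]
    have f2 : (‖y‖ ^ n) ^ k ≤ (K₅ * U ^ B) ^ k := pow_le_pow_left₀ (by positivity) e2 k
    have f3 : (U ^ A) ^ i ≤ (K₄ * ‖x‖ ^ n) ^ i := pow_le_pow_left₀ (by positivity) e1 i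
    rw [f1, pow_mul, div_mul_eq_mul_div, div_le_iff₀ (by positivity)]
    calc (‖y‖ ^ n) ^ k * (U ^ A) ^ i ≤ (K₅ * U ^ B) ^ k * (K₄ * ‖x‖ ^ n) ^ i :=
          mul_le_mul f2 f3 (by positivity) (by positivity)
      _ = _ := by rw [mul_pow, mul_pow, pow_mul]; ring_nf
  refine ⟨‖y‖ ^ k / ‖x‖ ^ i, by positivity, ?_, fun hle => ?_, fun hlt => ?_⟩
  · have f1 := h6 x hxR.le
    have f2 : 0 < ‖(derivative G).eval x‖ := by
      by_contra hcon
      have f3 : ‖(derivative G).eval x‖ = 0 := le_antisymm (not_lt.1 hcon) (norm_nonneg _)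
      rw [f3, mul_zero] at f1
      have : 0 < ‖x‖ ^ (n - 1) := by positivity
      linarith
    unfold ph
    rw [norm_div, norm_mul, norm_pow, norm_pow, div_le_iff₀ f2]
    have f4 : ‖x‖ ^ (n - 1) = ‖x‖ ^ (n - 1 - i) * ‖x‖ ^ i := by
      rw [← pow_add]
      congr 1
      omega
    have f5 : ‖x‖ ^ (n - 1 - i) ≤ K₆ * ‖(derivative G).eval x‖ / ‖x‖ ^ i := by
      rw [le_div_iff₀ (by positivity), ← f4]
      exact f1
    calc ‖y‖ ^ k * ‖x‖ ^ (n - 1 - i) ≤ ‖y‖ ^ k * (K₆ * ‖(derivative G).eval x‖ / ‖x‖ ^ i) :=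
          mul_le_mul_of_nonneg_left f5 (by positivity)
      _ = _ := by ring
  · have f1 : B * k ≤ A * i := by
      rw [hA, hB] at hle
      have : ((B * k : ℕ) : ℤ) ≤ ((A * i : ℕ) : ℤ) := by
        push_cast
        linarith
      exact_mod_cast this
    have f2 : U ^ (B * k) ≤ U ^ (A * i) := pow_le_pow_right₀ hU1 f1
    have f3 : 0 < U ^ (A * i) := by positivity
    have f4 : (‖y‖ ^ k / ‖x‖ ^ i) ^ n * U ^ (A * i) ≤ K₅ ^ k * K₄ ^ i * U ^ (A * i) :=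
      hψ.trans (mul_le_mul_of_nonneg_left f2 (by positivity))
    have f5 := le_of_mul_le_mul_right f4 f3
    linarith
  · have f1 : B * k + 1 ≤ A * i := by
      rw [hA, hB] at hlt
      have : ((B * k : ℕ) : ℤ) < ((A * i : ℕ) : ℤ) := by
        push_cast
        linarith
      exact_mod_cast this
    have f2 : U ^ (B * k + 1) ≤ U ^ (A * i) := pow_le_pow_right₀ hU1 f1
    have f3 : 0 < U ^ (B * k) := by positivity
    have f4 : (‖y‖ ^ k / ‖x‖ ^ i) ^ n * U * U ^ (B * k) ≤ K₅ ^ k * K₄ ^ i * U ^ (B * k) := by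
      calc (‖y‖ ^ k / ‖x‖ ^ i) ^ n * U * U ^ (B * k)
          = (‖y‖ ^ k / ‖x‖ ^ i) ^ n * U ^ (B * k + 1) := by rw [pow_succ]; ring
        _ ≤ (‖y‖ ^ k / ‖x‖ ^ i) ^ n * U ^ (A * i) :=
            mul_le_mul_of_nonneg_left f2 (by positivity)
        _ ≤ _ := hψ
    have f5 := le_of_mul_le_mul_right f4 f3
    have f6 : ‖t‖ ≤ U := by
      have : 0 < ‖t‖⁻¹ := inv_pos.2 ht0
      rw [hU]
      linarith
    have f7 : (‖y‖ ^ k / ‖x‖ ^ i) ^ n * ‖t‖ ≤ (‖y‖ ^ k / ‖x‖ ^ i) ^ n * U :=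
      mul_le_mul_of_nonneg_left f6 (by positivity)
    linarith

theorem T_diff (h : Cor G n r α α' a b Z) (i k : ℕ) {t : ℂ} (ht : Gd G α α' a b t) :
    DifferentiableAt ℂ (PS G α α' a b Z (ph G n i k)) t := by
  refine h.an (ph G n i k) t ht fun x y hx hy => ?_
  have hx' := ht.2.1 x hx
  have g1 : DifferentiableAt ℂ (fun p : ℂ × ℂ × ℂ => p.2.1) (t, x, y) :=
    DifferentiableAt.comp (t, x, y) (g := fun q : ℂ × ℂ => q.1) (f := fun p : ℂ × ℂ × ℂ => p.2)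
      differentiableAt_fst differentiableAt_snd
  have g2 : DifferentiableAt ℂ (fun p : ℂ × ℂ × ℂ => p.2.2) (t, x, y) :=
    DifferentiableAt.comp (t, x, y) (g := fun q : ℂ × ℂ => q.2) (f := fun p : ℂ × ℂ × ℂ => p.2)
      differentiableAt_snd differentiableAt_snd
  have g3 : DifferentiableAt ℂ (fun p : ℂ × ℂ × ℂ => (derivative G).eval p.2.1) (t, x, y) :=
    DifferentiableAt.comp (t, x, y) (g := fun q : ℂ => (derivative G).eval q)
      (f := fun p : ℂ × ℂ × ℂ => p.2.1) ((derivative G).differentiable x) g1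
  have g4 : DifferentiableAt ℂ (fun p : ℂ × ℂ × ℂ => ((derivative G).eval p.2.1)⁻¹) (t, x, y) :=
    g3.fun_inv hx'
  unfold ph
  simp only [div_eq_mul_inv]
  exact ((g2.fun_pow _).fun_mul (g1.fun_pow _)).fun_mul g4

theorem main (h : Cor G n r α α' a b Z) (i k : ℕ) (hi : i < n) (hle : (k : ℤ) * b ≤ i * a) :
    ∃ γ : ℂ, (∀ t, Gd G α α' a b t → PS G α α' a b Z (ph G n i k) t = γ) ∧
      ((k : ℤ) * b < i * a → γ = 0) := by
  classical
  have hn := h.hn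
  have hn0 : n ≠ 0 := by omega
  have hG0 := der_ne G n h.deg h.hn
  have hF1 := Br_fin G hG0 α a h.hα h.ha.ne'
  have hF2 := Br_fin G hG0 α' b h.hα' h.hb.ne'
  obtain ⟨K, Q, T, hK, hQ, hT1, hT⟩ := psi_bound (Z := Z) h i k hi
  set Z₀ : Finset ℂ := insert 0 (hF1.toFinset ∪ hF2.toFinset) with hZ
  have hgood : ∀ t, t ∉ Z₀ → Gd G α α' a b t := by
    intro t ht
    rw [hZ, Finset.mem_insert, Finset.mem_union, Set.Finite.mem_toFinset, Set.Finite.mem_toFinset,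
      not_or, not_or] at ht
    exact ⟨ht.1, fun x hx h0 => ht.2.1 ⟨ht.1, x, h0, hx⟩, fun y hy h0 => ht.2.2 ⟨ht.1, y, h0, hy⟩⟩
  have hgood' : ∀ t, Gd G α α' a b t → t ∉ Z₀ := by
    intro t ht
    rw [hZ, Finset.mem_insert, Finset.mem_union, Set.Finite.mem_toFinset, Set.Finite.mem_toFinset,
      not_or, not_or]
    exact ⟨ht.1, fun ⟨_, x, h0, hx⟩ => ht.2.1 x hx h0, fun ⟨_, y, h0, hy⟩ => ht.2.2 y hy h0⟩
  have hZc : ∀ᶠ t : ℂ in cocompact ℂ, t ∉ Z₀ := by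
    have : ∀ᶠ t : ℂ in cocompact ℂ, t ∈ ((Z₀ : Set ℂ))ᶜ :=
      Z₀.finite_toSet.isCompact.compl_mem_cocompact
    filter_upwards [this] with t ht h'
    exact ht (Finset.mem_coe.2 h')
  have hbig : ∀ T : ℝ, ∀ᶠ t : ℂ in cocompact ℂ, T < ‖t‖ := by
    intro T
    have hfar : ∀ᶠ t : ℂ in cocompact ℂ, t ∈ (Metric.closedBall (0 : ℂ) T)ᶜ :=
      (isCompact_closedBall 0 T).compl_mem_cocompact
    filter_upwards [hfar] with t ht
    rwa [Set.mem_compl_iff, mem_closedBall_zero_iff, not_le] at ht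
  have hbd : ∀ t, t ≠ 0 → (T < ‖t‖ ∨ T < ‖t‖⁻¹) →
      ‖PS G α α' a b Z (ph G n i k) t‖ ≤ n * (n * (K * Q)) := by
    intro t ht hor
    refine PS_le h _ t _ (by positivity) fun x y hx hy => ?_
    obtain ⟨ψ, hψ0, h1, h2, _⟩ := hT t ht hor x y hx hy
    have h3 : ψ ≤ Q := GEO_.le_of_pow_le' hψ0 hn0 hQ (h2 hle)
    exact h1.trans (mul_le_mul_of_nonneg_left h3 hK.le)
  obtain ⟨γ, hγ⟩ := removal_const Z₀ (PS G α α' a b Z (ph G n i k)) (by
      intro t ht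
      have ht' : t ∉ Z₀ := fun h' => ht (Finset.mem_coe.2 h')
      exact (T_diff h i k (hgood t ht')).differentiableWithinAt) (by
      intro s hs
      by_cases h0 : s = 0
      · subst h0
        rw [tendsto_zero_iff_norm_tendsto_zero]
        have hup : Tendsto (fun t : ℂ => ‖t‖ * (n * (n * (K * Q)))) (𝓝[≠] 0) (𝓝 0) := by
          have h3 : Tendsto (fun t : ℂ => ‖t‖ * (n * (n * (K * Q)))) (𝓝 0)
              (𝓝 (‖(0 : ℂ)‖ * (n * (n * (K * Q))))) := by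
            apply Continuous.tendsto
            fun_prop
          rw [norm_zero, zero_mul] at h3
          exact h3.mono_left nhdsWithin_le_nhds
        refine squeeze_zero' (Eventually.of_forall fun t => norm_nonneg _) ?_ hup
        have hball : ∀ᶠ t : ℂ in 𝓝[≠] 0, ‖t‖ < T⁻¹ := by
          apply mem_nhdsWithin_of_mem_nhds
          have : Tendsto (fun t : ℂ => ‖t‖) (𝓝 0) (𝓝 0) := by
            simpa using (continuous_norm (E := ℂ)).tendsto 0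
          exact this.eventually (gt_mem_nhds (inv_pos.2 (by linarith)))
        filter_upwards [self_mem_nhdsWithin, hball] with t ht htT
        have ht' : t ≠ 0 := ht
        have h2 : 0 < ‖t‖ := norm_pos_iff.2 ht'
        have h3 : T < ‖t‖⁻¹ := (lt_inv_comm₀ h2 (by linarith)).1 htT
        rw [sub_zero, norm_mul]
        exact mul_le_mul_of_nonneg_left (hbd t ht' (Or.inr h3)) (norm_nonneg _)
      · exact T_local h i k s h0) (n * (n * (K * Q))) (by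
      filter_upwards [hZc, hbig T] with t ht htT
      exact hbd t (hgood t ht).1 (Or.inl htT))
  refine ⟨γ, fun t ht => hγ t (hgood' t ht), fun hlt => ?_⟩
  by_contra hne
  have hpos : 0 < ‖γ‖ := norm_pos_iff.2 hne
  have hnR : (0 : ℝ) < n := by exact_mod_cast (by omega : 0 < n)
  set ε : ℝ := ‖γ‖ / (2 * (n * (n * K))) with hε
  have hε0 : 0 < ε := by positivity
  obtain ⟨t, ⟨ht, htT⟩, htQ⟩ := ((hZc.and (hbig T)).and (hbig (Q / ε ^ n))).exists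
  have h1 := PS_le h (ph G n i k) t (K * ε) (by positivity) (by
    intro x y hx hy
    obtain ⟨ψ, hψ0, h1, _, h3⟩ := hT t (hgood t ht).1 (Or.inl htT) x y hx hy
    have h4 := h3 hlt
    have h5 : ψ ^ n ≤ ε ^ n := by
      have ht0 : 0 < ‖t‖ := by linarith
      rw [div_lt_iff₀ (by positivity)] at htQ
      have h6 : ψ ^ n * ‖t‖ ≤ ε ^ n * ‖t‖ := by linarith
      exact le_of_mul_le_mul_right h6 ht0
    have h6 : ψ ≤ ε := le_of_pow_le_pow_left₀ hn0 hε0.le h5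
    exact h1.trans (mul_le_mul_of_nonneg_left h6 hK.le))
  rw [hγ t ht] at h1
  have h2 : (n : ℝ) * (n * (K * ε)) = ‖γ‖ / 2 := by
    rw [hε]
    field_simp
  linarith

end

end Pool.Agent.K9h21.GP.T1_

namespace Pool.Agent.K9h21.GP

open Polynomial Filter Topology T1_

theorem t1 : S_T1 := by
  intro G n r α α' a b Z h i k hi hk
  refine ⟨fun hlt t ht => ?_, fun heq => ?_⟩
  · obtain ⟨γ, h1, h2⟩ := main h i k hi hlt.le
    rw [← h2 hlt]
    exact h1 t ht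
  · obtain ⟨γ, h1, _⟩ := main h i k hi heq.le
    exact ⟨γ, h1⟩

end Pool.Agent.K9h21.GP
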