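import Pool.Agent.K9h21.GP.Cor
import Pool.Agent.K9h21.GP.Sym
import Pool.Agent.K9h21.GP.T1
import Pool.Agent.K9h21.GP.Est
import Pool.Agent.K9h21.GP.Fou
import Pool.Agent.K9h21.GP.Asy
import Pool.Agent.K9h21.GP.Newt
import Pool.Agent.K9h21.GP.Lim

set_option autoImplicit false

/-!
# Project GPA: the proofs of `S_COR` and `S_LIM`
-/

namespace Pool.Agent.K9h21.GP

theorem corAll : S_COR := cor

theorem limAll : S_LIM := lim_ (asy est fou t1 sym) newt est

end Pool.Agent.K9h21.GP
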