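import Pool.Agent.K9h21.GP.Stm6

set_option autoImplicit false

/-!
# Project GPM: the factorisations for Morse polynomials, assembly
-/

namespace Pool.Agent.K9h21.GP

open Polynomial Filter Topology

/-- a factor of degree one gives a root -/
theorem root_of_fac {G : ℂ[X]} {r' D : ℕ} {x w : ℂ} (c : Fin 1 → Fin D → ℂ) (c' : Fin r' → Fin D → ℂ)
    (hx : (derivative G).eval x ≠ 0)
    (h : ∀ V : ℂ, Th c (derivative G) x V * Th c' (derivative G) x V =
      (derivative G).eval x ^ 2 * (G.eval V - w)) :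
    G.eval (-(∑ i, c 0 i * x ^ (i : ℕ)) / (derivative G).eval x) = w := by
  have h1 := h (-(∑ i, c 0 i * x ^ (i : ℕ)) / (derivative G).eval x)
  have h2 : Th c (derivative G) x (-(∑ i, c 0 i * x ^ (i : ℕ)) / (derivative G).eval x) = 0 := by
    unfold Th
    rw [Fin.sum_univ_one, Fin.val_zero, pow_zero, pow_one, mul_one, mul_div_cancel₀ _ hx]
    ring
  rw [h2, zero_mul] at h1
  exact sub_eq_zero.1 ((mul_eq_zero.1 h1.symm).resolve_left (pow_ne_zero _ hx))

theorem geom (h1 : S_CNT) (h2 : S_LIN) (h3 : S_END2) : S_GEOM2 := by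
  intro G r r' α α' a b D c c' hF
  obtain ⟨hr1, hba⟩ := h1 G r r' α α' a b D c c' hF
  have hr := hF.hr
  have hr' := hF.hr'
  have hR : ∃ c₀ : Fin D → ℂ → ℂ, RootM G (r + r') α α' a b D c₀ := by
    rcases hr1 with rfl | rfl
    · refine ⟨c 0, hF.mo, hF.deg, by omega, hF.hα, hF.hα', hF.hb, hba, hF.cr, hF.morse, hF.dc 0, fun t ht x hx hx' => ?_⟩
      exact root_of_fac (fun m i => c m i t) (fun m i => c' m i t) hx' (hF.fac t ht x hx)
    · refine ⟨c' 0, hF.mo, hF.deg, by omega, hF.hα, hF.hα', hF.hb, hba, hF.cr, hF.morse, hF.dc' 0, fun t ht x hx hx' => ?_⟩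
      refine root_of_fac (fun m i => c' m i t) (fun m i => c m i t) hx' fun V => ?_
      rw [mul_comm]
      exact hF.fac t ht x hx V
  obtain ⟨c₀, hR⟩ := hR
  obtain ⟨γ, δ, hγ, hl⟩ := h2 G (r + r') α α' a b D c₀ hR
  rcases h3 G (r + r') α α' a b γ δ hF.mo hF.deg (by omega) hF.hα hF.hα' hF.ha hF.hb hγ hl with h | ⟨h, h'⟩
  · exact Or.inl h
  · exact Or.inr ⟨h, γ, δ, h'⟩

end Pool.Agent.K9h21.GP
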