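import Pool.Agent.K9h21.GP.Stm5

/-!
# Leaf M-LIN: `y` is a linear function of `x`
-/

set_option autoImplicit false

namespace Pool.Agent.K9h21.GP

namespace LIN_

open Polynomial Filter Topology

theorem msum (R : Multiset ℂ) (s : Finset ℕ) (f : ℕ → ℂ → ℂ) :
    (R.map fun x => ∑ j ∈ s, f j x).sum = ∑ j ∈ s, (R.map (f j)).sum := by
  induction R using Multiset.induction_on with
  | empty => simp
  | cons a R ih => simp [Finset.sum_add_distrib, ih]

theorem nodup (P : ℂ[X]) (h0 : P ≠ 0) (hs : ∀ x, P.eval x = 0 → (derivative P).eval x ≠ 0) :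
    P.roots.Nodup := by
  classical
  rw [Multiset.nodup_iff_count_le_one]
  intro x
  rw [count_roots]
  by_contra h
  have h1 := (one_lt_rootMultiplicity_iff_isRoot h0).1 (not_le.1 h)
  exact hs x h1.1 h1.2

theorem lag (P : ℂ[X]) (hP : P.Monic) (hn : 2 ≤ P.natDegree)
    (hs : ∀ x, P.eval x = 0 → (derivative P).eval x ≠ 0)
    (y : ℂ → ℂ) (γ : ℕ → ℂ) (h0 : ∀ j, j + 2 < P.natDegree → γ j = 0)
    (hT : ∀ j, j + 2 ≤ P.natDegree →
      (P.roots.map fun x => y x * x ^ j / (derivative P).eval x).sum = γ j)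
    (x1 x2 : ℂ) (h1 : x1 ∈ P.roots) (h2 : x2 ∈ P.roots) (h12 : x1 ≠ x2) :
    y x1 - y x2 = γ (P.natDegree - 2) * (x1 - x2) := by
  classical
  set R := P.roots with hR
  have hcard : R.card = P.natDegree := (IsAlgClosed.splits P).natDegree_eq_card_roots.symm
  have h21 : x2 ∈ R.erase x1 := (Multiset.mem_erase_of_ne h12.symm).2 h2
  have h12' : x1 ∈ R.erase x2 := (Multiset.mem_erase_of_ne h12).2 h1
  set q : ℂ[X] := (((R.erase x1).erase x2).map fun a => X - C a).prod with hq
  have hqm : q.Monic := monic_multisetProd_X_sub_C _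
  have hqd : q.natDegree = P.natDegree - 2 := by
    rw [hq, natDegree_multiset_prod_X_sub_C_eq_card, Multiset.card_erase_of_mem h21,
      Multiset.card_erase_of_mem h1, hcard]
    rfl
  have hqe : ∀ x, q.eval x = (((R.erase x1).erase x2).map fun a => x - a).prod := by
    intro x
    rw [hq, eval_multiset_prod, Multiset.map_map]
    congr 1
    apply Multiset.map_congr rfl
    intro a _
    simp
  have e1 : (derivative P).eval x1 = (x1 - x2) * q.eval x1 := by
    rw [(IsAlgClosed.splits P).eval_root_derivative hP h1, hqe, ← hR, ← Multiset.cons_erase h21,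
      Multiset.map_cons, Multiset.prod_cons, Multiset.cons_erase h21]
  have e2 : (derivative P).eval x2 = (x2 - x1) * q.eval x2 := by
    rw [(IsAlgClosed.splits P).eval_root_derivative hP h2, hqe, ← hR, ← Multiset.cons_erase h12',
      Multiset.map_cons, Multiset.prod_cons, Multiset.erase_comm]
  have d1 : (derivative P).eval x1 ≠ 0 := hs x1 (isRoot_of_mem_roots h1)
  have d2 : (derivative P).eval x2 ≠ 0 := hs x2 (isRoot_of_mem_roots h2)
  have q1 : q.eval x1 ≠ 0 := fun h => d1 (by rw [e1, h, mul_zero])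
  have q2 : q.eval x2 ≠ 0 := fun h => d2 (by rw [e2, h, mul_zero])
  have s1 : x1 - x2 ≠ 0 := sub_ne_zero.2 h12
  have s2 : x2 - x1 ≠ 0 := sub_ne_zero.2 h12.symm
  -- the sum in two ways
  have A : (R.map fun x => y x * q.eval x / (derivative P).eval x).sum =
      y x1 / (x1 - x2) + y x2 / (x2 - x1) := by
    have hz : (((R.erase x1).erase x2).map fun x => y x * q.eval x / (derivative P).eval x).sum
        = 0 := by
      apply Multiset.sum_eq_zero
      intro z hz
      obtain ⟨x, hx, rfl⟩ := Multiset.mem_map.1 hz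
      have : q.eval x = 0 := by
        rw [hqe]
        apply Multiset.prod_eq_zero
        exact Multiset.mem_map.2 ⟨x, hx, sub_self x⟩
      rw [this, mul_zero, zero_div]
    conv_lhs => rw [← Multiset.cons_erase h1, ← Multiset.cons_erase h21]
    rw [Multiset.map_cons, Multiset.map_cons, Multiset.sum_cons, Multiset.sum_cons, hz, add_zero,
      e1, e2]
    field_simp
  have B : (R.map fun x => y x * q.eval x / (derivative P).eval x).sum = γ (P.natDegree - 2) := by
    have hb : (R.map fun x => y x * q.eval x / (derivative P).eval x) =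
        R.map fun x => ∑ j ∈ Finset.range (P.natDegree - 2 + 1),
          q.coeff j * (y x * x ^ j / (derivative P).eval x) := by
      apply Multiset.map_congr rfl
      intro x _
      rw [eval_eq_sum_range, hqd, Finset.mul_sum, Finset.sum_div]
      apply Finset.sum_congr rfl
      intro j _
      ring
    rw [hb, msum]
    have hc : ∀ j ∈ Finset.range (P.natDegree - 2 + 1),
        (R.map fun x => q.coeff j * (y x * x ^ j / (derivative P).eval x)).sum =
          q.coeff j * γ j := by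
      intro j hj
      rw [Multiset.sum_map_mul_left, hT j (by have := Finset.mem_range.1 hj; omega)]
    rw [Finset.sum_congr rfl hc, Finset.sum_range_succ, Finset.sum_eq_zero, zero_add]
    · have : q.coeff (P.natDegree - 2) = 1 := by
        rw [← hqd]; exact hqm.coeff_natDegree
      rw [this, one_mul]
    · intro j hj
      rw [h0 j (by have := Finset.mem_range.1 hj; omega), mul_zero]
  rw [← B, A]
  have s3 : x2 - x1 = -(x1 - x2) := by ring
  rw [s3]
  field_simp
  ring

/-- `n` different numbers which are roots of a monic polynomial of degree `n` -/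
theorem img (P Q : ℂ[X]) (hP : P.Monic) (hQ : Q.Monic) (hd : Q.natDegree = P.natDegree)
    (hs : ∀ x, P.eval x = 0 → (derivative P).eval x ≠ 0) (y : ℂ → ℂ)
    (hy : ∀ x ∈ P.roots, Q.eval (y x) = 0)
    (hi : ∀ x1 ∈ P.roots, ∀ x2 ∈ P.roots, y x1 = y x2 → x1 = x2) :
    Q.roots = P.roots.map y := by
  have hn : (P.roots.map y).Nodup := (nodup P hP.ne_zero hs).map_on hi
  symm
  apply Multiset.eq_of_le_of_card_le
  · rw [Multiset.le_iff_subset hn]
    intro z hz
    obtain ⟨x, hx, rfl⟩ := Multiset.mem_map.1 hz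
    exact (mem_roots hQ.ne_zero).2 (hy x hx)
  · rw [Multiset.card_map, ← (IsAlgClosed.splits P).natDegree_eq_card_roots, ← hd]
    exact card_roots' _

/-- the sum of the roots of `G - κ` -/
theorem rsum (G : ℂ[X]) (hG : G.Monic) (hn : 2 ≤ G.natDegree) (κ : ℂ) :
    (G - C κ).Monic ∧ (G - C κ).natDegree = G.natDegree ∧
      (G - C κ).roots.sum = -G.coeff (G.natDegree - 1) := by
  have h1 : (G - C κ).natDegree = G.natDegree := natDegree_sub_C
  have h2 : (G - C κ).Monic := by
    apply hG.sub_of_left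
    rw [degree_eq_natDegree hG.ne_zero]
    exact lt_of_le_of_lt degree_C_le (by exact_mod_cast (by omega : 0 < G.natDegree))
  refine ⟨h2, h1, ?_⟩
  have h3 := (IsAlgClosed.splits (G - C κ)).nextCoeff_eq_neg_sum_roots_of_monic h2
  rw [nextCoeff_of_natDegree_pos (by omega), h1, coeff_sub, coeff_C,
    if_neg (by omega), sub_zero] at h3
  rw [h3, neg_neg]

/-- removal of finitely many bounded singularities in `{0}ᶜ` -/
theorem rmv (Z : Finset ℂ) : ∀ (H : ℂ → ℂ), (0 : ℂ) ∉ Z →
    DifferentiableOn ℂ H (({0}ᶜ : Set ℂ) \ (Z : Set ℂ)) →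
    (∀ s ∈ Z, ∃ C : ℝ, ∀ᶠ t in 𝓝[≠] s, ‖H t‖ ≤ C) →
    ∃ H' : ℂ → ℂ, DifferentiableOn ℂ H' {0}ᶜ ∧ ∀ t, t ∉ Z → H' t = H t := by
  classical
  induction Z using Finset.induction_on with
  | empty =>
    intro H _ hd _
    rw [Finset.coe_empty, Set.sdiff_empty] at hd
    exact ⟨H, hd, fun _ _ => rfl⟩
  | insert s Z hs ih =>
    intro H h0 hd hb
    have h0Z : (0 : ℂ) ∉ Z := fun h => h0 (Finset.mem_insert_of_mem h)
    have hs0 : s ≠ 0 := fun h => h0 (h ▸ Finset.mem_insert_self _ _)
    have hZ : IsOpen (({0}ᶜ : Set ℂ) \ (Z : Set ℂ)) :=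
      isOpen_compl_singleton.sdiff Z.finite_toSet.isClosed
    have hs' : s ∈ (({0}ᶜ : Set ℂ) \ (Z : Set ℂ)) := ⟨hs0, fun h => hs (Finset.mem_coe.1 h)⟩
    obtain ⟨C, hC⟩ := hb s (Finset.mem_insert_self _ _)
    have h1 : DifferentiableOn ℂ (Function.update H s (limUnder (𝓝[≠] s) H))
        (({0}ᶜ : Set ℂ) \ (Z : Set ℂ)) := by
      apply Complex.differentiableOn_update_limUnder_of_isLittleO (hZ.mem_nhds hs')
      · apply hd.mono
        intro z hz
        refine ⟨hz.1.1, ?_⟩
        rw [Finset.coe_insert, Set.mem_insert_iff, not_or]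
        exact ⟨fun h => hz.2 (Set.mem_singleton_iff.2 h), hz.1.2⟩
      · apply Filter.IsBoundedUnder.isLittleO_sub_self_inv
        refine ⟨C + ‖H s‖, ?_⟩
        rw [eventually_map]
        filter_upwards [hC] with z hz
        exact (norm_sub_le _ _).trans (by linarith)
    have hev : ∀ z, z ≠ s → Function.update H s (limUnder (𝓝[≠] s) H) z = H z := fun z hz =>
      Function.update_of_ne hz _ _
    obtain ⟨H', h2, h3⟩ := ih _ h0Z h1 (by
      intro u hu
      obtain ⟨C', hC'⟩ := hb u (Finset.mem_insert_of_mem hu)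
      have hus : u ≠ s := fun h => hs (h ▸ hu)
      refine ⟨C', ?_⟩
      have h2 : ∀ᶠ z in 𝓝[≠] u, z ≠ s :=
        mem_nhdsWithin_of_mem_nhds (isOpen_ne.mem_nhds hus)
      filter_upwards [hC', h2] with z hz hz2
      rw [hev z hz2]
      exact hz)
    refine ⟨H', h2, fun t ht => ?_⟩
    rw [Finset.mem_insert, not_or] at ht
    rw [h3 t ht.2, hev t ht.1]

/-- no analytic solution `δ` of `G(δ(t)) = w'(t)` -/
theorem nosol (G : ℂ[X]) (α' : ℂ) (b : ℤ) (hα' : α' ≠ 0) (hb : b ≠ 0)
    (hn : 2 ≤ G.natDegree)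
    (cr : ∀ x, (derivative G).eval x = 0 → (G.eval x) ^ 2 ≠ 4) (d : ℂ → ℂ)
    (hd : DifferentiableOn ℂ d {0}ᶜ) (he : ∀ t, t ≠ 0 → G.eval (d t) = wv α' b t) : False := by
  obtain ⟨y₀, hy₀⟩ : ∃ y, (derivative G).eval y = 0 := by
    have hdeg : (derivative G).degree ≠ 0 := by
      have h1 : (derivative G).natDegree = G.natDegree - 1 := natDegree_derivative G
      intro h
      have h2 : (derivative G).natDegree = 0 := natDegree_eq_zero_iff_degree_le_zero.2 h.le
      omega
    obtain ⟨y, hy⟩ := IsAlgClosed.exists_root (derivative G) hdeg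
    exact ⟨y, hy⟩
  have hne : ∀ t, t ≠ 0 → d t ≠ y₀ := by
    intro t ht h
    have h1 : HasDerivAt d (deriv d t) t :=
      ((hd t ht).differentiableAt (isOpen_compl_singleton.mem_nhds ht)).hasDerivAt
    have h2 : HasDerivAt (fun t => G.eval (d t)) ((derivative G).eval (d t) * deriv d t) t :=
      (G.hasDerivAt (d t)).comp t h1
    have h3 := GEO_.wv_deriv α' b t hα' ht
    have h4 : (fun t => G.eval (d t)) =ᶠ[𝓝 t] wv α' b := by
      filter_upwards [isOpen_compl_singleton.mem_nhds ht] with z hz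
      exact he z hz
    have h5 := (h2.congr_of_eventuallyEq h4.symm).unique h3
    rw [h, hy₀, zero_mul] at h5
    have hz : α' * t ^ b ≠ 0 := mul_ne_zero hα' (zpow_ne_zero _ ht)
    have h6 : α' * (b * t ^ (b - 1)) ≠ 0 :=
      mul_ne_zero hα' (mul_ne_zero (by exact_mod_cast hb) (zpow_ne_zero _ ht))
    have h7 : 1 - ((α' * t ^ b) ^ 2)⁻¹ = 0 := by
      rcases mul_eq_zero.1 h5.symm with h | h
      · exact absurd h h6
      · exact h
    have h8 : (α' * t ^ b) ^ 2 = 1 := by
      have : ((α' * t ^ b) ^ 2)⁻¹ = 1 := by linear_combination -h7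
      rwa [inv_eq_one] at this
    apply cr y₀ hy₀
    rw [← h, he t ht]
    unfold wv
    have h9 : (α' * t ^ b + (α' * t ^ b)⁻¹) ^ 2 =
        (α' * t ^ b) ^ 2 + 2 + ((α' * t ^ b) ^ 2)⁻¹ := by
      field_simp
      ring
    rw [h9, h8]
    norm_num
  have hgr : ∀ K : ℝ, ∃ T : ℝ, 1 ≤ T ∧ ∀ t : ℂ, t ≠ 0 → (T < ‖t‖ ∨ T < ‖t‖⁻¹) →
      K < ‖d t - y₀‖ := by
    intro K
    obtain ⟨M, hM⟩ := (isCompact_closedBall y₀ K).exists_bound_of_continuousOn
      (f := fun v => G.eval v) G.continuous.continuousOn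
    obtain ⟨T, hT1, hT⟩ := GEO_.wv_proper α' b hα' hb M
    refine ⟨T, hT1, fun t ht h => ?_⟩
    by_contra hK
    have h1 : ‖wv α' b t‖ ≤ M := by
      rw [← he t ht]
      exact hM _ (by rw [Metric.mem_closedBall, dist_eq_norm]; exact not_lt.1 hK)
    obtain ⟨h2, h3⟩ := hT t ht h1
    rcases h with h | h
    · exact absurd h2 (not_le.2 h)
    · exact absurd h3 (not_le.2 h)
  have hrem := GEO_.removal {0} (fun t => (d t - y₀)⁻¹) (by
    intro t ht
    have ht' : t ≠ 0 := by simpa using ht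
    have h1 : DifferentiableAt ℂ d t :=
      (hd t ht').differentiableAt (isOpen_compl_singleton.mem_nhds ht')
    exact ((h1.sub_const y₀).inv (sub_ne_zero.2 (hne t ht'))).differentiableWithinAt) (by
    intro s hs
    rw [Finset.mem_singleton] at hs
    subst hs
    obtain ⟨T, hT1, hT⟩ := hgr 1
    refine ⟨1, ?_⟩
    have h1 : ∀ᶠ t : ℂ in 𝓝[≠] (0 : ℂ), ‖t‖ < T⁻¹ := by
      apply mem_nhdsWithin_of_mem_nhds
      have : Metric.ball (0 : ℂ) T⁻¹ ∈ 𝓝 (0 : ℂ) :=
        Metric.ball_mem_nhds _ (inv_pos.2 (by linarith))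
      filter_upwards [this] with t ht
      simpa using ht
    filter_upwards [h1, self_mem_nhdsWithin] with t ht1 ht2
    have ht0 : t ≠ 0 := ht2
    have h2 : T < ‖t‖⁻¹ := by
      rw [lt_inv_comm₀ (by linarith) (norm_pos_iff.2 ht0)]
      exact ht1
    have h3 := hT t ht0 (Or.inr h2)
    rw [norm_inv]
    exact inv_le_one_of_one_le₀ h3.le) (by
    rw [Metric.tendsto_nhds]
    intro ε hε
    obtain ⟨T, hT1, hT⟩ := hgr ε⁻¹
    have h1 : ∀ᶠ t : ℂ in cocompact ℂ, T < ‖t‖ :=
      tendsto_norm_cocompact_atTop.eventually_gt_atTop T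
    filter_upwards [h1] with t ht
    have ht0 : t ≠ 0 := norm_pos_iff.1 (by linarith)
    have h3 := hT t ht0 (Or.inl ht)
    rw [dist_zero_right, norm_inv]
    exact inv_lt_of_inv_lt₀ hε h3)
  have h1 := hrem 1 (by simp)
  exact (inv_ne_zero (sub_ne_zero.2 (hne 1 one_ne_zero))) h1

end LIN_

open Polynomial Filter Topology LIN_ in
/-- leaf M-LIN -/
theorem lin (h1 : S_SUM) (h2 : S_TJ) : S_LIN := by
  classical
  intro G n α α' a b D c hR
  obtain ⟨γ, hγ0, hγ⟩ := h2 G n α α' a b D c hR
  have hn := hR.hn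
  have hGn : G.natDegree = n := hR.deg
  have hG2 : 2 ≤ G.natDegree := by rw [hGn]; exact hn
  have ha : a ≠ 0 := (lt_of_lt_of_le hR.hb hR.hab).ne'
  have hb : b ≠ 0 := hR.hb.ne'
  set y : ℂ → ℂ → ℂ := fun t x => -(∑ i, c i t * x ^ (i : ℕ)) / (derivative G).eval x with hy
  have hder : ∀ κ : ℂ, derivative (G - C κ) = derivative G := fun κ => by
    rw [derivative_sub, derivative_C, sub_zero]
  have hP := fun κ => rsum G hR.mo hG2 κ
  have hmem : ∀ κ x, x ∈ (G - C κ).roots ↔ G.eval x = κ := fun κ x => by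
    rw [mem_roots (hP κ).1.ne_zero, IsRoot.def, eval_sub, eval_C, sub_eq_zero]
  have hsim : ∀ t, (∀ x, G.eval x = wv α a t → (derivative G).eval x ≠ 0) →
      ∀ x, (G - C (wv α a t)).eval x = 0 → (derivative (G - C (wv α a t))).eval x ≠ 0 := by
    intro t ht x hx
    rw [hder]
    apply ht
    rwa [eval_sub, eval_C, sub_eq_zero] at hx
  have hlin : ∀ t, t ≠ 0 → (∀ x, G.eval x = wv α a t → (derivative G).eval x ≠ 0) →
      ∀ x1, G.eval x1 = wv α a t → ∀ x2, G.eval x2 = wv α a t →
        y t x1 - y t x2 = γ (n - 2) * (x1 - x2) := by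
    intro t ht0 ht x1 hx1 x2 hx2
    rcases eq_or_ne x1 x2 with h12 | h12
    · rw [h12, sub_self, sub_self, mul_zero]
    · have h3 := lag (G - C (wv α a t)) (hP _).1 (by rw [(hP _).2.1]; exact hG2)
        (hsim t ht) (y t) γ (fun j hj => hγ0 j (by rw [(hP _).2.1, hGn] at hj; exact hj))
        (fun j hj => by
          rw [hder]
          exact hγ j (by rw [(hP _).2.1, hGn] at hj; exact hj) t ht0 ht) x1 x2
        ((hmem _ _).2 hx1) ((hmem _ _).2 hx2) h12
      rw [(hP _).2.1, hGn] at h3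
      exact h3
  have hcard : ∀ κ, (G - C κ).roots.card = n := fun κ => by
    rw [← (IsAlgClosed.splits (G - C κ)).natDegree_eq_card_roots, (hP κ).2.1, hGn]
  have hn0 : (n : ℂ) ≠ 0 := by
    have : n ≠ 0 := by omega
    exact_mod_cast this
  have hroot : ∀ t, t ≠ 0 → (∀ x, G.eval x = wv α a t → (derivative G).eval x ≠ 0) →
      ∀ x, G.eval x = wv α a t → G.eval (y t x) = wv α' b t := fun t ht0 ht x hx =>
    hR.root t ht0 x hx (ht x hx)
  have hsumy : ∀ t, t ≠ 0 → (∀ x, G.eval x = wv α a t → (derivative G).eval x ≠ 0) →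
      ∀ x, G.eval x = wv α a t → ((G - C (wv α a t)).roots.map (y t)).sum =
        γ (n - 2) * (-G.coeff (n - 1)) + n * (y t x - γ (n - 2) * x) := by
    intro t ht0 ht x hx
    have h3 : (G - C (wv α a t)).roots.map (y t) = (G - C (wv α a t)).roots.map
        (fun x' => γ (n - 2) * x' + (y t x - γ (n - 2) * x)) := by
      apply Multiset.map_congr rfl
      intro x' hx'
      have := hlin t ht0 ht x' ((hmem _ _).1 hx') x hx
      linear_combination this
    rw [h3, Multiset.sum_map_add, Multiset.sum_map_mul_left, Multiset.map_id', (hP _).2.2, hGn,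
      Multiset.map_const', Multiset.sum_replicate, hcard, nsmul_eq_mul]
  by_cases hγn : γ (n - 2) = 0
  · exfalso
    -- the finite set of the branch points
    have hfin : {t : ℂ | t ≠ 0 ∧ ∃ x, G.eval x = wv α a t ∧ (derivative G).eval x = 0}.Finite := by
      have h3 : (⋃ x ∈ (derivative G).roots.toFinset,
          {t : ℂ | t ≠ 0 ∧ wv α a t = G.eval x}).Finite :=
        Set.Finite.biUnion (Finset.finite_toSet _)
          fun x _ => GEO_.wv_finite α a hR.hα ha (G.eval x)
      refine h3.subset ?_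
      rintro t ⟨ht0, x, hx1, hx2⟩
      have hd0 : derivative G ≠ 0 := by
        intro h
        have h4 : (derivative G).natDegree = G.natDegree - 1 := natDegree_derivative G
        rw [h, natDegree_zero] at h4
        omega
      rw [Set.mem_iUnion₂]
      exact ⟨x, Multiset.mem_toFinset.2 ((mem_roots hd0).2 hx2), ht0, hx1.symm⟩
    set Z : Finset ℂ := hfin.toFinset with hZ
    have hZmem : ∀ t, t ∈ Z ↔ t ≠ 0 ∧ ∃ x, G.eval x = wv α a t ∧ (derivative G).eval x = 0 :=
      fun t => by rw [hZ, Set.Finite.mem_toFinset, Set.mem_ofPred_eq]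
    have h0Z : (0 : ℂ) ∉ Z := fun h => ((hZmem 0).1 h).1 rfl
    have hgood : ∀ t, t ≠ 0 → t ∉ Z →
        ∀ x, G.eval x = wv α a t → (derivative G).eval x ≠ 0 := by
      intro t ht0 htZ x hx hx'
      exact htZ ((hZmem t).2 ⟨ht0, x, hx, hx'⟩)
    set dl : ℂ → ℂ := fun t => ((G - C (wv α a t)).roots.map fun x => y t x).sum / n with hdl
    have hex : ∀ t, ∃ x, G.eval x = wv α a t := by
      intro t
      have h3 : 0 < (G - C (wv α a t)).roots.card := by rw [hcard]; omega
      obtain ⟨x, hx⟩ := Multiset.card_pos_iff_exists_mem.1 h3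
      exact ⟨x, (hmem _ _).1 hx⟩
    have hdG : ∀ t, t ≠ 0 → t ∉ Z → G.eval (dl t) = wv α' b t := by
      intro t ht0 htZ
      obtain ⟨x, hx⟩ := hex t
      have h3 := hsumy t ht0 (hgood t ht0 htZ) x hx
      have h4 : dl t = y t x := by
        simp only [hdl]
        rw [h3, hγn]
        field_simp
        ring
      rw [h4]
      exact hroot t ht0 (hgood t ht0 htZ) x hx
    have hdd : DifferentiableOn ℂ dl (({0}ᶜ : Set ℂ) \ (Z : Set ℂ)) := by
      rintro t ⟨ht0, htZ⟩
      have ht0' : t ≠ 0 := ht0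
      have htZ' : t ∉ Z := fun h => htZ (Finset.mem_coe.2 h)
      have h3 := h1 G (wv α a) t y hR.mo (by omega)
        ((GEO_.wv_deriv α a t hR.hα ht0').differentiableAt) (hgood t ht0' htZ') (by
          intro x hx
          have h5 : ∀ i, DifferentiableAt ℂ (fun p : ℂ × ℂ => c i p.1) (t, x) := fun i =>
            DifferentiableAt.comp (t, x) (f := fun p : ℂ × ℂ => p.1)
              (((hR.dc i) t ht0).differentiableAt (isOpen_compl_singleton.mem_nhds ht0'))
              differentiableAt_fst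
          have h6 : DifferentiableAt ℂ (fun p : ℂ × ℂ => (derivative G).eval p.2) (t, x) :=
            DifferentiableAt.comp (t, x) (f := fun p : ℂ × ℂ => p.2)
              ((derivative G).differentiableAt) differentiableAt_snd
          have h7 : DifferentiableAt ℂ
              (fun p : ℂ × ℂ => -(∑ i, c i p.1 * p.2 ^ (i : ℕ))) (t, x) := by
            apply DifferentiableAt.fun_neg
            apply DifferentiableAt.fun_sum
            intro i _
            exact (h5 i).mul (differentiableAt_snd.pow _)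
          have h8 : DifferentiableAt ℂ (fun p : ℂ × ℂ => -(∑ i, c i p.1 * p.2 ^ (i : ℕ)) *
              ((derivative G).eval p.2)⁻¹) (t, x) :=
            h7.mul (h6.fun_inv (hgood t ht0' htZ' x hx))
          refine h8.congr_of_eventuallyEq (Eventually.of_forall fun p => ?_)
          simp only [hy]
          rw [div_eq_mul_inv])
      exact (h3.div_const _).differentiableWithinAt
    -- near any point the other points are good
    have hnear : ∀ s : ℂ, s ≠ 0 → ∀ᶠ t in 𝓝[≠] s, t ≠ 0 ∧ t ∉ Z := by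
      intro s hs
      have h3 : ∀ᶠ t in 𝓝[≠] s, t ≠ 0 := mem_nhdsWithin_of_mem_nhds (isOpen_ne.mem_nhds hs)
      have h4 : ∀ᶠ t in 𝓝[≠] s, t ∉ Z.erase s := by
        apply mem_nhdsWithin_of_mem_nhds
        exact (Z.erase s).finite_toSet.isClosed.isOpen_compl.mem_nhds
          (fun h => (Finset.notMem_erase s Z) (Finset.mem_coe.1 h))
      filter_upwards [h3, h4, self_mem_nhdsWithin] with t ht1 ht2 ht3
      exact ⟨ht1, fun h => ht2 (Finset.mem_erase.2 ⟨ht3, h⟩)⟩
    have hwc : ∀ s : ℂ, s ≠ 0 → ContinuousAt (wv α' b) s := fun s hs =>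
      (GEO_.wv_deriv α' b s hR.hα' hs).continuousAt
    obtain ⟨C₀, hC1, hC₀⟩ := GEO_.root_bound G hR.mo (by omega)
    have hbd : ∀ s ∈ Z, ∃ K : ℝ, ∀ᶠ t in 𝓝[≠] s, ‖dl t‖ ≤ K := by
      intro s hs
      have hs0 : s ≠ 0 := ((hZmem s).1 hs).1
      have h3 : ∀ᶠ t in 𝓝[≠] s, ‖wv α' b t‖ < ‖wv α' b s‖ + 1 :=
        ((hwc s hs0).norm.mono_left nhdsWithin_le_nhds).eventually_lt_const (lt_add_one _)
      refine ⟨C₀ * (1 + (‖wv α' b s‖ + 1)), ?_⟩
      filter_upwards [h3, hnear s hs0] with t ht1 ht2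
      have h4 := hC₀ (dl t)
      rw [hdG t ht2.1 ht2.2] at h4
      refine GEO_.le_of_pow_le' (m := G.natDegree) (norm_nonneg _) (by omega) ?_ (h4.trans ?_)
      · nlinarith [norm_nonneg (wv α' b s)]
      · apply mul_le_mul_of_nonneg_left _ (by linarith)
        linarith
    obtain ⟨d, hd1, hd2⟩ := rmv Z dl h0Z hdd hbd
    apply nosol G α' b hR.hα' hb hG2 hR.cr d hd1
    intro t ht
    have h3 : Tendsto (fun t => G.eval (d t)) (𝓝[≠] t) (𝓝 (G.eval (d t))) :=
      ((G.continuous.continuousAt).comp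
        ((hd1 t ht).differentiableAt (isOpen_compl_singleton.mem_nhds ht)).continuousAt).tendsto.mono_left
        nhdsWithin_le_nhds
    have h4 : Tendsto (fun t => G.eval (d t)) (𝓝[≠] t) (𝓝 (wv α' b t)) := by
      refine Tendsto.congr' ?_ ((hwc t ht).tendsto.mono_left nhdsWithin_le_nhds)
      filter_upwards [hnear t ht] with z hz
      rw [hd2 z hz.2]
      exact (hdG z hz.1 hz.2).symm
    exact tendsto_nhds_unique h3 h4
  · refine ⟨γ (n - 2), (γ (n - 2) - 1) * G.coeff (n - 1) / n, hγn, ?_⟩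
    intro t ht0 ht x hx
    have h3 : (G - C (wv α' b t)).roots = (G - C (wv α a t)).roots.map (y t) := by
      apply img _ _ (hP _).1 (hP _).1 (by rw [(hP _).2.1, (hP _).2.1]) (hsim t ht)
      · intro x' hx'
        rw [eval_sub, eval_C, hroot t ht0 ht x' ((hmem _ _).1 hx'), sub_self]
      · intro x1 hx1 x2 hx2 h12
        have h4 := hlin t ht0 ht x1 ((hmem _ _).1 hx1) x2 ((hmem _ _).1 hx2)
        rw [h12, sub_self] at h4
        rcases mul_eq_zero.1 h4.symm with h | h
        · exact absurd h hγn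
        · exact sub_eq_zero.1 h
    have h4 := congrArg Multiset.sum h3
    rw [(hP _).2.2, hsumy t ht0 ht x hx, hGn] at h4
    have h5 : γ (n - 2) * x + (γ (n - 2) - 1) * G.coeff (n - 1) / n = y t x := by
      field_simp
      linear_combination h4
    rw [h5]
    exact hroot t ht0 ht x hx

end Pool.Agent.K9h21.GP
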