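import Pool.Agent.K9h21.GP.Stm5

/-!
# Project GPM, leaf M-LOC: the local estimate at a common branch point
-/

set_option autoImplicit false

namespace Pool.Agent.K9h21.GP

open Polynomial Filter Topology

namespace LOC_

open GEO_

/-- two-sided bound for a function with a derivative `≠ 0` -/
theorem slope_bd (f : ℂ → ℂ) (d s : ℂ) (h : HasDerivAt f d s) (hd : d ≠ 0) :
    ∃ c C : ℝ, 0 < c ∧ 0 < C ∧ ∀ᶠ t in 𝓝[≠] s,
      c * ‖t - s‖ ≤ ‖f t - f s‖ ∧ ‖f t - f s‖ ≤ C * ‖t - s‖ := by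
  have h1 := (hasDerivAt_iff_tendsto_slope.1 h).norm
  have hd0 : 0 < ‖d‖ := norm_pos_iff.2 hd
  refine ⟨‖d‖ / 2, 2 * ‖d‖, by positivity, by positivity, ?_⟩
  filter_upwards [h1.eventually (lt_mem_nhds (half_lt_self hd0)),
    h1.eventually (gt_mem_nhds (show ‖d‖ < 2 * ‖d‖ by linarith)), self_mem_nhdsWithin] with t h2 h3 hts
  have hts' : t - s ≠ 0 := sub_ne_zero.2 hts
  have h4 : f t - f s = (t - s) * slope f s t := by
    rw [slope_def_field]
    field_simp
  rw [h4, norm_mul]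
  have h5 : 0 < ‖t - s‖ := norm_pos_iff.2 hts'
  constructor <;> nlinarith

/-- near a simple critical point `|G'|²` is at most a constant times `|G - G(x₀)|` -/
theorem crit_bd (G : ℂ[X]) (x₀ : ℂ) (h1 : (derivative G).eval x₀ = 0)
    (h2 : (derivative (derivative G)).eval x₀ ≠ 0) :
    ∃ K : ℝ, 0 < K ∧ ∀ᶠ x in 𝓝 x₀, ‖(derivative G).eval x‖ ^ 2 ≤ K * ‖G.eval x - G.eval x₀‖ := by
  set P : ℂ[X] := G - C (G.eval x₀) with hP
  have hdP : derivative P = derivative G := by rw [hP, derivative_sub, derivative_C, sub_zero]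
  have hP0 : P ≠ 0 := by
    intro h
    apply h2
    rw [← hdP, h]
    simp
  have h3 : (X - C x₀) ^ 2 ∣ P := by
    rw [← le_rootMultiplicity_iff hP0]
    refine (one_lt_rootMultiplicity_iff_isRoot hP0).2 ⟨?_, ?_⟩
    · simp [hP]
    · rw [hdP]; exact h1
  obtain ⟨h, hh⟩ := h3
  have hk : derivative G = (X - C x₀) * (C 2 * h + (X - C x₀) * derivative h) := by
    rw [← hdP, hh, derivative_mul, derivative_pow, derivative_sub, derivative_X, derivative_C]
    simp only [Nat.cast_ofNat, map_ofNat, Nat.add_one_sub_one, pow_one, sub_zero, mul_one]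
    ring
  set k : ℂ[X] := C 2 * h + (X - C x₀) * derivative h with hkdef
  have hh0 : h.eval x₀ ≠ 0 := by
    intro h0
    apply h2
    rw [hk, derivative_mul]
    simp [hkdef, h0]
  have hφ : ContinuousAt (fun x => ‖k.eval x‖ ^ 2 / ‖h.eval x‖) x₀ :=
    (k.continuous.continuousAt.norm.pow 2).div h.continuous.continuousAt.norm
      (norm_ne_zero_iff.2 hh0)
  refine ⟨‖k.eval x₀‖ ^ 2 / ‖h.eval x₀‖ + 1, by positivity, ?_⟩
  filter_upwards [hφ.eventually (gt_mem_nhds (lt_add_one _)),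
    h.continuous.continuousAt.eventually_ne hh0] with x hx hx0
  have e1 : G.eval x - G.eval x₀ = (x - x₀) ^ 2 * h.eval x := by
    have := congrArg (eval x) hh
    rw [hP] at this
    simpa using this
  have e2 : (derivative G).eval x = (x - x₀) * k.eval x := by
    rw [hk]
    simp
  rw [e1, e2, norm_mul, norm_mul, norm_pow, mul_pow]
  have h5 : ‖k.eval x‖ ^ 2 ≤ (‖k.eval x₀‖ ^ 2 / ‖h.eval x₀‖ + 1) * ‖h.eval x‖ := by
    have h6 : 0 < ‖h.eval x‖ := norm_pos_iff.2 hx0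
    rw [div_lt_iff₀ h6] at hx
    exact hx.le
  calc ‖x - x₀‖ ^ 2 * ‖k.eval x‖ ^ 2
      ≤ ‖x - x₀‖ ^ 2 * ((‖k.eval x₀‖ ^ 2 / ‖h.eval x₀‖ + 1) * ‖h.eval x‖) :=
        mul_le_mul_of_nonneg_left h5 (by positivity)
    _ = _ := by ring

theorem mprod_cont (G : ℂ[X]) (s : Multiset ℂ) :
    Continuous fun w : ℂ => (s.map fun y => ‖G.eval y - w‖).prod := by
  induction s using Multiset.induction_on with
  | empty => simpa using continuous_const
  | cons a s ih =>
    simp only [Multiset.map_cons, Multiset.prod_cons]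
    exact (continuous_norm.comp (continuous_const.sub continuous_id)).mul ih

/-- only one factor of `Pi0` is small -/
theorem Pi0_low (G : ℂ[X]) (hM : Morse G) (hG0 : derivative G ≠ 0) (y₀ : ℂ)
    (hy : (derivative G).eval y₀ = 0) :
    ∃ c : ℝ, 0 < c ∧ ∀ᶠ w in 𝓝 (G.eval y₀), c * ‖w - G.eval y₀‖ ≤ Pi0 G w := by
  classical
  have hmem : y₀ ∈ (derivative G).roots := (mem_roots hG0).2 hy
  have hE : (derivative G).roots = y₀ ::ₘ (derivative G).roots.erase y₀ :=
    (Multiset.cons_erase hmem).symm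
  have hnot : y₀ ∉ (derivative G).roots.erase y₀ := by
    intro h
    have h1 : 1 ≤ ((derivative G).roots.erase y₀).count y₀ := Multiset.one_le_count_iff_mem.2 h
    rw [Multiset.count_erase_self, count_roots] at h1
    have h2 : 1 < rootMultiplicity y₀ (derivative G) := by omega
    exact hM.1 y₀ hy ((one_lt_rootMultiplicity_iff_isRoot hG0).1 h2).2
  have hFc := mprod_cont G ((derivative G).roots.erase y₀)
  have hsub : ∀ y ∈ (derivative G).roots.erase y₀, (derivative G).eval y = 0 := fun y hy =>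
    (mem_roots hG0).1 (Multiset.mem_of_mem_erase hy)
  have hPi : ∀ w, Pi0 G w = ‖G.eval y₀ - w‖ *
      (((derivative G).roots.erase y₀).map fun y => ‖G.eval y - w‖).prod := by
    intro w
    unfold Pi0
    conv_lhs => rw [hE]
    rw [Multiset.map_cons, Multiset.prod_cons]
  have hFpos : 0 < (((derivative G).roots.erase y₀).map fun y => ‖G.eval y - G.eval y₀‖).prod := by
    apply prod_pos
    intro a ha
    obtain ⟨y, hy', rfl⟩ := Multiset.mem_map.1 ha
    rw [norm_pos_iff, sub_ne_zero]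
    intro he
    exact hnot (hM.2 y y₀ (hsub y hy') hy he ▸ hy')
  refine ⟨(((derivative G).roots.erase y₀).map fun y => ‖G.eval y - G.eval y₀‖).prod / 2,
    by positivity, ?_⟩
  filter_upwards [hFc.continuousAt.eventually (lt_mem_nhds (half_lt_self hFpos))] with w hw
  rw [hPi, norm_sub_rev (G.eval y₀) w, mul_comm ‖w - G.eval y₀‖]
  exact mul_le_mul_of_nonneg_right hw.le (norm_nonneg _)

/-- the derivative of `wv` at a point where `wv² ≠ 4` -/
theorem wvd_ne (α : ℂ) (a : ℤ) (hα : α ≠ 0) (ha : a ≠ 0) (s : ℂ) (hs : s ≠ 0)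
    (h4 : (wv α a s) ^ 2 ≠ 4) : α * (a * s ^ (a - 1)) * (1 - ((α * s ^ a) ^ 2)⁻¹) ≠ 0 := by
  apply mul_ne_zero
  · exact mul_ne_zero hα (mul_ne_zero (by exact_mod_cast ha) (zpow_ne_zero _ hs))
  · intro h
    have hu0 : α * s ^ a ≠ 0 := mul_ne_zero hα (zpow_ne_zero _ hs)
    have h10 : (α * s ^ a) ^ 2 = 1 := by
      have h11 : ((α * s ^ a) ^ 2)⁻¹ = 1 := (sub_eq_zero.1 h).symm
      rw [inv_eq_one] at h11
      exact h11
    apply h4
    unfold wv
    set u := α * s ^ a with hu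
    have h12 : u⁻¹ = u := by
      rw [inv_eq_iff_eq_inv]
      field_simp
      exact h10
    rw [h12]
    calc (u + u) ^ 2 = 4 * u ^ 2 := by ring
      _ = 4 := by rw [h10]; ring

section

variable {G : ℂ[X]} {r r' : ℕ} {α α' : ℂ} {a b : ℤ} {D : ℕ} {c : Fin r → Fin D → ℂ → ℂ}
  {c' : Fin r' → Fin D → ℂ → ℂ}

theorem rho_nonneg (t x : ℂ) : 0 ≤ rho G c c' t x := pr_nonneg _ _

theorem rho_pos (h : FacM G r r' α α' a b D c c') (t x : ℂ) (ht : t ≠ 0)
    (hx : G.eval x = wv α a t) (hx2 : (derivative G).eval x ≠ 0) : 0 < rho G c c' t x := by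
  unfold rho pr
  apply prod_pos
  intro y hy
  obtain ⟨v, hv, rfl⟩ := Multiset.mem_map.1 hy
  rw [norm_pos_iff]
  intro h0
  have hmon := monic_pol (fun m => ∑ i, c m i t * x ^ (i : ℕ)) ((derivative G).eval x) hx2
  have hv1 := (mem_roots hmon.1.ne_zero).1 hv
  have hv2 : (C ((derivative G).eval x)⁻¹ *
      pol (fun m => ∑ i, c m i t * x ^ (i : ℕ)) ((derivative G).eval x)).eval v = 0 := hv1
  rw [eval_mul, eval_C, pol_eval c G t x v] at hv2
  rw [eval_mul, eval_C, pol_eval c' G t x v] at h0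
  exact nonvan G G α α' a b h.hα h.hα' h.hb.ne' h.cr r r' D c c' h.dc h.dc' h.fac t ht x hx hx2 v
    ((mul_eq_zero.1 hv2).resolve_left (inv_ne_zero hx2))
    ((mul_eq_zero.1 h0).resolve_left (inv_ne_zero hx2))

theorem rho_low (h : FacM G r r' α α' a b D c c') (C₀ : ℝ) (hC₀ : 1 ≤ C₀)
    (hroot : ∀ v : ℂ, ‖v‖ ^ G.natDegree ≤ C₀ * (1 + ‖G.eval v‖)) (t x : ℂ) (ht : t ≠ 0)
    (hx : G.eval x = wv α a t) (hx2 : (derivative G).eval x ≠ 0) (n e : ℕ) (hn : n = r + r')
    (he : e = r * (r - 1) + r' * (r' - 1)) :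
    Pi0 G (wv α' b t) ^ n ≤ rho G c c' t x ^ (2 * n) *
      (2 ^ (e * n) * (C₀ * (1 + ‖wv α' b t‖)) ^ e) := by
  have hmon := monic_pol (fun m => ∑ i, c m i t * x ^ (i : ℕ)) ((derivative G).eval x) hx2
  have hmon' := monic_pol (fun m => ∑ i, c' m i t * x ^ (i : ℕ)) ((derivative G).eval x) hx2
  have hQS : (C ((derivative G).eval x)⁻¹ *
      pol (fun m => ∑ i, c m i t * x ^ (i : ℕ)) ((derivative G).eval x)) *
      (C ((derivative G).eval x)⁻¹ *
      pol (fun m => ∑ i, c' m i t * x ^ (i : ℕ)) ((derivative G).eval x)) =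
      G - C (wv α' b t) := by
    apply Polynomial.funext
    intro V
    rw [eval_mul, eval_mul, eval_mul, eval_C, pol_eval c G t x V, pol_eval c' G t x V,
      eval_sub, eval_C]
    have h1 := h.fac t ht x hx V
    calc ((derivative G).eval x)⁻¹ * Th (fun m i => c m i t) (derivative G) x V *
          (((derivative G).eval x)⁻¹ * Th (fun m i => c' m i t) (derivative G) x V)
        = (((derivative G).eval x)⁻¹) ^ 2 * (Th (fun m i => c m i t) (derivative G) x V *
          Th (fun m i => c' m i t) (derivative G) x V) := by ring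
      _ = _ := by
        rw [h1]
        field_simp
  exact res_lower G h.mo C₀ hC₀ hroot _ _ hmon.1 hmon'.1 (wv α' b t) hQS
    (by rw [hmon.2]; exact h.hr) n (by rw [hn, h.deg]) e (by rw [hmon.2, hmon'.2, he])

/-- the estimate near an unramified point -/
theorem near_unram (h : FacM G r r' α α' a b D c c') (s x : ℂ) (hs : s ≠ 0)
    (hx : G.eval x = wv α a s) (hx2 : (derivative G).eval x ≠ 0) :
    ∃ κ : ℝ, 0 < κ ∧ ∀ᶠ p : ℂ × ℂ in 𝓝 (s, x),
      κ * ‖(derivative G).eval p.2‖ ≤ rho G c c' p.1 p.2 := by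
  classical
  set cD : Fin r → Fin D → Dr := fun m i => ⟨c m i, h.dc m i⟩ with hcD
  set cD' : Fin r' → Fin D → Dr := fun m i => ⟨c' m i, h.dc' m i⟩ with hcD'
  set R : Dr[X] := resultant (FF cD G) (FF cD' G) r r' with hR
  have hRev : ∀ t x, (R.map (ev t)).eval x = resultant
      (pol (fun m => ∑ i, c m i t * x ^ (i : ℕ)) ((derivative G).eval x))
      (pol (fun m => ∑ i, c' m i t * x ^ (i : ℕ)) ((derivative G).eval x)) r r' := by
    intro t x
    have h1 := FF_map cD G t x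
    have h2 := FF_map cD' G t x
    rw [← eval₂_eq_eval_map, ← coe_eval₂RingHom, hR, ← resultant_map_map, h1, h2]
  have hcont : ContinuousAt (fun p : ℂ × ℂ => (R.map (ev p.1)).eval p.2) (s, x) := by
    have e : (fun p : ℂ × ℂ => (R.map (ev p.1)).eval p.2) =
        fun p => ∑ i ∈ Finset.range (R.natDegree + 1), (R.coeff i : ℂ → ℂ) p.1 * p.2 ^ i := by
      funext p
      rw [eval_map, eval₂_eq_sum_range]
      rfl
    rw [e]
    refine tendsto_finsetSum _ fun i _ => ?_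
    have h1 : ContinuousAt (R.coeff i : ℂ → ℂ) s :=
      ((R.coeff i).2.differentiableAt (isOpen_compl_singleton.mem_nhds hs)).continuousAt
    exact (ContinuousAt.comp_of_eq h1 continuousAt_fst rfl).mul (continuousAt_snd.pow i)
  have hg : ContinuousAt (fun p : ℂ × ℂ => (derivative G).eval p.2) (s, x) :=
    ContinuousAt.comp_of_eq (derivative G).continuous.continuousAt continuousAt_snd rfl
  have hΦ : ContinuousAt (fun p : ℂ × ℂ => ‖(R.map (ev p.1)).eval p.2‖ /
      ‖(derivative G).eval p.2‖ ^ (r + r' + 1)) (s, x) :=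
    hcont.norm.div (hg.norm.pow _) (pow_ne_zero _ (norm_ne_zero_iff.2 hx2))
  have hval : ∀ t x, (derivative G).eval x ≠ 0 → ‖(R.map (ev t)).eval x‖ =
      ‖(derivative G).eval x‖ ^ (r + r') * rho G c c' t x := by
    intro t x hx
    rw [hRev, res_norm _ _ _ hx]
    rfl
  set Φ₀ : ℝ := ‖(R.map (ev s)).eval x‖ / ‖(derivative G).eval x‖ ^ (r + r' + 1) with hΦ₀
  have hΦpos : 0 < Φ₀ := by
    have h1 := rho_pos h s x hs hx hx2
    rw [hΦ₀, hval s x hx2]
    have := norm_pos_iff.2 hx2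
    positivity
  refine ⟨Φ₀ / 2, by positivity, ?_⟩
  filter_upwards [hΦ.eventually (lt_mem_nhds (half_lt_self hΦpos)), hg.eventually_ne hx2]
    with p hp hp2
  have h4 := norm_pos_iff.2 hp2
  rw [hval _ _ hp2, lt_div_iff₀ (by positivity), pow_succ] at hp
  have h5 : 0 < ‖(derivative G).eval p.2‖ ^ (r + r') := by positivity
  have h6 : ‖(derivative G).eval p.2‖ ^ (r + r') * (Φ₀ / 2 * ‖(derivative G).eval p.2‖) <
      ‖(derivative G).eval p.2‖ ^ (r + r') * rho G c c' p.1 p.2 := by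
    calc _ = Φ₀ / 2 * (‖(derivative G).eval p.2‖ ^ (r + r') * ‖(derivative G).eval p.2‖) := by ring
      _ < _ := hp
  exact (lt_of_mul_lt_mul_left h6 h5.le).le

/-- the estimate near the critical point -/
theorem near_crit (h : FacM G r r' α α' a b D c c') (s x₀ y₀ : ℂ) (hs : s ≠ 0)
    (hx1 : (derivative G).eval x₀ = 0) (hx : G.eval x₀ = wv α a s)
    (hy1 : (derivative G).eval y₀ = 0) (hy : G.eval y₀ = wv α' b s) :
    ∃ κ : ℝ, 0 < κ ∧ ∀ᶠ p : ℂ × ℂ in 𝓝[≠] s ×ˢ 𝓝 x₀, G.eval p.2 = wv α a p.1 →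
      κ * ‖(derivative G).eval p.2‖ ≤ rho G c c' p.1 p.2 := by
  have hn0 : 0 < G.natDegree := by
    rw [h.deg]
    have := h.hr
    omega
  have hG0 : derivative G ≠ 0 := by
    intro h0
    have := natDegree_eq_zero_of_derivative_eq_zero h0
    omega
  obtain ⟨K₁, hK₁, hcb⟩ := crit_bd G x₀ hx1 (h.morse.1 x₀ hx1)
  obtain ⟨e₁, E₁, he₁, hE₁, hw⟩ := slope_bd (wv α a) _ s (wv_deriv α a s h.hα hs)
    (wvd_ne α a h.hα h.ha.ne' s hs (by rw [← hx]; exact h.cr x₀ hx1))
  obtain ⟨e₂, E₂, he₂, hE₂, hw'⟩ := slope_bd (wv α' b) _ s (wv_deriv α' b s h.hα' hs)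
    (wvd_ne α' b h.hα' h.hb.ne' s hs (by rw [← hy]; exact h.cr y₀ hy1))
  obtain ⟨q, hq, hPi⟩ := Pi0_low G h.morse hG0 y₀ hy1
  obtain ⟨C₀, hC₀, hroot⟩ := root_bound G h.mo hn0
  obtain ⟨n, hn⟩ : ∃ n, n = r + r' := ⟨_, rfl⟩
  obtain ⟨e, he⟩ : ∃ e, e = r * (r - 1) + r' * (r' - 1) := ⟨_, rfl⟩
  have hn1 : n ≠ 0 := by
    have := h.hr
    omega
  set K₂ : ℝ := 2 ^ (e * n) * (C₀ * (2 + ‖wv α' b s‖)) ^ e with hK₂
  have hK₂1 : 1 ≤ K₂ := by
    have h1 : (1 : ℝ) ≤ 2 ^ (e * n) := one_le_pow₀ (by norm_num)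
    have h2 : (1 : ℝ) ≤ (C₀ * (2 + ‖wv α' b s‖)) ^ e := by
      apply one_le_pow₀
      have := norm_nonneg (wv α' b s)
      nlinarith
    calc (1 : ℝ) = 1 * 1 := (mul_one 1).symm
      _ ≤ _ := mul_le_mul h1 h2 zero_le_one (by positivity)
  have hcw' : ContinuousAt (wv α' b) s := (wv_deriv α' b s h.hα' hs).continuousAt
  have hPi' : ∀ᶠ t in 𝓝 s, q * ‖wv α' b t - wv α' b s‖ ≤ Pi0 G (wv α' b t) := by
    rw [hy] at hPi
    exact hcw'.eventually hPi
  have hnorm : ∀ᶠ t in 𝓝 s, ‖wv α' b t‖ < 1 + ‖wv α' b s‖ :=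
    hcw'.norm.eventually (gt_mem_nhds (by linarith))
  set κ : ℝ := Real.sqrt (q * e₂ / (K₁ * E₁ * K₂)) with hκ
  have hκ0 : 0 < q * e₂ / (K₁ * E₁ * K₂) := by
    have : 0 < K₂ := by linarith
    positivity
  refine ⟨κ, Real.sqrt_pos.2 hκ0, ?_⟩
  have h1 : ∀ᶠ t in 𝓝[≠] s, t ≠ 0 ∧ ‖wv α a t - wv α a s‖ ≤ E₁ * ‖t - s‖ ∧
      q * (e₂ * ‖t - s‖) ≤ Pi0 G (wv α' b t) ∧ ‖wv α' b t‖ < 1 + ‖wv α' b s‖ := by
    have hne : ∀ᶠ t in 𝓝 s, t ≠ 0 := isOpen_ne.mem_nhds hs
    filter_upwards [hw, hw', mem_nhdsWithin_of_mem_nhds hPi', mem_nhdsWithin_of_mem_nhds hnorm,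
      mem_nhdsWithin_of_mem_nhds hne] with t t1 t2 t3 t4 t5
    exact ⟨t5, t1.2, (mul_le_mul_of_nonneg_left t2.1 hq.le).trans t3, t4⟩
  have h2 := h1.prod_mk hcb
  filter_upwards [h2] with p hp hpx
  obtain ⟨⟨p0, p1, p2, p3⟩, p4⟩ := hp
  by_cases hgx : (derivative G).eval p.2 = 0
  · rw [hgx, norm_zero, mul_zero]
    exact rho_nonneg _ _
  have hρ0 : 0 ≤ rho G c c' p.1 p.2 := rho_nonneg _ _
  -- the lower bound (a)
  have ha : q * (e₂ * ‖p.1 - s‖) ≤ rho G c c' p.1 p.2 ^ 2 * K₂ := by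
    have h3 := rho_low h C₀ hC₀ hroot p.1 p.2 p0 hpx hgx n e hn he
    have h4 : (q * (e₂ * ‖p.1 - s‖)) ^ n ≤ (rho G c c' p.1 p.2 ^ 2 * K₂) ^ n := by
      calc (q * (e₂ * ‖p.1 - s‖)) ^ n ≤ Pi0 G (wv α' b p.1) ^ n :=
            pow_le_pow_left₀ (by positivity) p2 n
        _ ≤ _ := h3
        _ ≤ rho G c c' p.1 p.2 ^ (2 * n) * K₂ := by
            apply mul_le_mul_of_nonneg_left _ (by positivity)
            rw [hK₂]
            apply mul_le_mul_of_nonneg_left _ (by positivity)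
            apply pow_le_pow_left₀
            · have := norm_nonneg (wv α' b p.1)
              nlinarith
            · apply mul_le_mul_of_nonneg_left _ (by linarith)
              linarith
        _ ≤ rho G c c' p.1 p.2 ^ (2 * n) * K₂ ^ n :=
            mul_le_mul_of_nonneg_left (le_self_pow₀ hK₂1 hn1) (by positivity)
        _ = _ := by rw [pow_mul, ← mul_pow]
    exact le_of_pow_le_pow_left₀ hn1 (by positivity) h4
  -- (c)
  have hc : ‖(derivative G).eval p.2‖ ^ 2 ≤ K₁ * (E₁ * ‖p.1 - s‖) := by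
    rw [hpx, hx] at p4
    exact p4.trans (mul_le_mul_of_nonneg_left p1 hK₁.le)
  apply le_of_pow_le_pow_left₀ two_ne_zero hρ0
  rw [mul_pow, hκ, Real.sq_sqrt hκ0.le, div_mul_eq_mul_div, div_le_iff₀ (by positivity)]
  calc q * e₂ * ‖(derivative G).eval p.2‖ ^ 2 ≤ q * e₂ * (K₁ * (E₁ * ‖p.1 - s‖)) :=
        mul_le_mul_of_nonneg_left hc (by positivity)
    _ = (K₁ * E₁) * (q * (e₂ * ‖p.1 - s‖)) := by ring
    _ ≤ (K₁ * E₁) * (rho G c c' p.1 p.2 ^ 2 * K₂) := mul_le_mul_of_nonneg_left ha (by positivity)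
    _ = _ := by ring

end

/-- the roots of `G - w` are near the roots of `G - w₀` -/
theorem roots_near (G : ℂ[X]) (hG : G.Monic) (hn : 0 < G.natDegree) (w₀ : ℂ) (V : ℂ → Set ℂ)
    (hV : ∀ z, G.eval z = w₀ → V z ∈ 𝓝 z) :
    ∀ᶠ w in 𝓝 w₀, ∀ x, G.eval x = w → ∃ z, G.eval z = w₀ ∧ x ∈ V z := by
  classical
  have hPm : (G - C w₀).Monic := by
    apply hG.sub_of_left
    calc degree (C w₀) ≤ 0 := degree_C_le
      _ < degree G := by
        rw [← natDegree_pos_iff_degree_pos]; exact hn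
  have hmem : ∀ z, z ∈ (G - C w₀).roots ↔ G.eval z = w₀ := by
    intro z
    rw [mem_roots hPm.ne_zero, IsRoot.def, eval_sub, eval_C, sub_eq_zero]
  obtain ⟨δ, hδ, hball⟩ : ∃ δ : ℝ, 0 < δ ∧ ∀ z ∈ (G - C w₀).roots.toFinset,
      Metric.ball z δ ⊆ V z := by
    have hgen : ∀ S : Finset ℂ, (∀ z ∈ S, V z ∈ 𝓝 z) → ∃ δ : ℝ, 0 < δ ∧ ∀ z ∈ S,
        Metric.ball z δ ⊆ V z := by
      intro S
      induction S using Finset.induction_on with
      | empty => exact fun _ => ⟨1, one_pos, by simp⟩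
      | insert u S hu ih =>
        intro hS
        obtain ⟨δ, hδ, h1⟩ := ih fun z hz => hS z (Finset.mem_insert_of_mem hz)
        obtain ⟨δ', hδ', h2⟩ := Metric.mem_nhds_iff.1 (hS u (Finset.mem_insert_self _ _))
        refine ⟨min δ δ', lt_min hδ hδ', ?_⟩
        intro z hz
        rcases Finset.mem_insert.1 hz with h | h
        · rw [h]
          exact (Metric.ball_subset_ball (min_le_right _ _)).trans h2
        · exact (Metric.ball_subset_ball (min_le_left _ _)).trans (h1 z h)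
    apply hgen
    intro z hz
    rw [Multiset.mem_toFinset, hmem] at hz
    exact hV z hz
  have hδn : 0 < δ ^ (G - C w₀).roots.card := by positivity
  filter_upwards [Metric.ball_mem_nhds w₀ hδn] with w hw x hx
  by_contra hcon
  push Not at hcon
  have h1 : ∀ z ∈ (G - C w₀).roots, δ ≤ ‖x - z‖ := by
    intro z hz
    by_contra hlt
    push Not at hlt
    apply hcon z ((hmem z).1 hz)
    apply hball z (Multiset.mem_toFinset.2 hz)
    rw [Metric.mem_ball, dist_eq_norm]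
    exact hlt
  have h2 : ‖(G - C w₀).eval x‖ = ((G - C w₀).roots.map fun z => ‖x - z‖).prod := by
    have h3 := (IsAlgClosed.splits (G - C w₀)).eval_eq_prod_roots_of_monic hPm x
    rw [h3, norm_prod, Multiset.map_map]
    rfl
  have h4 := pow_le_prod ((G - C w₀).roots.map fun z => ‖x - z‖) δ hδ.le (by
    intro a ha
    obtain ⟨z, hz, rfl⟩ := Multiset.mem_map.1 ha
    exact h1 z hz)
  rw [Multiset.card_map, ← h2, eval_sub, eval_C, hx] at h4
  rw [Metric.mem_ball, dist_eq_norm] at hw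
  linarith

end LOC_

open LOC_ GEO_ in
theorem loc : S_LOC := by
  classical
  intro G r r' α α' a b D c c' h s x₀ y₀ hs hx1 hx hy1 hy
  have hn0 : 0 < G.natDegree := by
    rw [h.deg]
    have := h.hr
    omega
  have hG0 : derivative G ≠ 0 := by
    intro h0
    have := natDegree_eq_zero_of_derivative_eq_zero h0
    omega
  have hcw : ContinuousAt (wv α a) s := (wv_deriv α a s h.hα hs).continuousAt
  -- for every root
  have hroot : ∀ z, G.eval z = wv α a s → ∃ κ : ℝ, 0 < κ ∧ ∀ᶠ p : ℂ × ℂ in 𝓝[≠] s ×ˢ 𝓝 z,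
      G.eval p.2 = wv α a p.1 → κ * ‖(derivative G).eval p.2‖ ≤ rho G c c' p.1 p.2 := by
    intro z hz
    by_cases hz2 : (derivative G).eval z = 0
    · have : z = x₀ := h.morse.2 z x₀ hz2 hx1 (by rw [hz, hx])
      rw [this]
      exact near_crit h s x₀ y₀ hs hx1 hx hy1 hy
    · obtain ⟨κ, hκ, h1⟩ := near_unram h s z hs hz hz2
      refine ⟨κ, hκ, ?_⟩
      rw [nhds_prod_eq] at h1
      have h2 := h1.filter_mono (Filter.prod_mono_left (𝓝 z) (nhdsWithin_le_nhds (s := {s}ᶜ) (a := s)))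
      filter_upwards [h2] with p hp _
      exact hp
  choose! κf hκf hev using hroot
  have hPm : ∀ w, (G - C w).Monic := by
    intro w
    apply h.mo.sub_of_left
    calc degree (C w) ≤ 0 := degree_C_le
      _ < degree G := by
        rw [← natDegree_pos_iff_degree_pos]; exact hn0
  have hmem : ∀ w z, z ∈ (G - C w).roots ↔ G.eval z = w := by
    intro w z
    rw [mem_roots (hPm w).ne_zero, IsRoot.def, eval_sub, eval_C, sub_eq_zero]
  set S := (G - C (wv α a s)).roots.toFinset with hS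
  have hSmem : ∀ z, z ∈ S ↔ G.eval z = wv α a s := fun z => by
    rw [hS, Multiset.mem_toFinset, hmem]
  obtain ⟨κ, hκ, hκS⟩ : ∃ κ : ℝ, 0 < κ ∧ ∀ z ∈ S, κ ≤ κf z := by
    have hgen : ∀ T : Finset ℂ, (∀ z ∈ T, 0 < κf z) → ∃ κ : ℝ, 0 < κ ∧ ∀ z ∈ T, κ ≤ κf z := by
      intro T
      induction T using Finset.induction_on with
      | empty => exact fun _ => ⟨1, one_pos, by simp⟩
      | insert u T hu ih =>
        intro hT
        obtain ⟨κ, hκ, h1⟩ := ih fun z hz => hT z (Finset.mem_insert_of_mem hz)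
        refine ⟨min κ (κf u), lt_min hκ (hT u (Finset.mem_insert_self _ _)), ?_⟩
        intro z hz
        rcases Finset.mem_insert.1 hz with h | h
        · rw [h]; exact min_le_right _ _
        · exact (min_le_left _ _).trans (h1 z h)
    exact hgen S fun z hz => hκf z ((hSmem z).1 hz)
  -- all roots
  have hall : ∀ᶠ t in 𝓝[≠] s, ∀ x, G.eval x = wv α a t →
      κ * ‖(derivative G).eval x‖ ≤ rho G c c' t x := by
    have h1 : ∀ z, G.eval z = wv α a s → ∃ pa : ℂ → Prop, (∀ᶠ t in 𝓝[≠] s, pa t) ∧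
        ∃ pb : ℂ → Prop, (∀ᶠ x in 𝓝 z, pb x) ∧ ∀ t, pa t → ∀ x, pb x → G.eval x = wv α a t →
          κf z * ‖(derivative G).eval x‖ ≤ rho G c c' t x := by
      intro z hz
      obtain ⟨pa, h1, pb, h2, h3⟩ := Filter.eventually_prod_iff.1 (hev z hz)
      exact ⟨pa, h1, pb, h2, fun t ht x hx => h3 ht hx⟩
    choose! pa hpa pb hpb hab using h1
    have h2 : ∀ᶠ t in 𝓝[≠] s, ∀ z ∈ S, pa z t :=
      (Finset.eventually_all S).2 fun z hz => hpa z ((hSmem z).1 hz)
    have h3 := roots_near G h.mo hn0 (wv α a s) (fun z => {x | pb z x}) hpb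
    have h4 : ∀ᶠ t in 𝓝[≠] s, ∀ x, G.eval x = wv α a t → ∃ z, G.eval z = wv α a s ∧ pb z x :=
      mem_nhdsWithin_of_mem_nhds (hcw.eventually h3)
    filter_upwards [h2, h4] with t h5 h6 x hx'
    obtain ⟨z, hz, hzx⟩ := h6 x hx'
    have h7 := hab z hz t (h5 z ((hSmem z).2 hz)) x hzx hx'
    exact (mul_le_mul_of_nonneg_right (hκS z ((hSmem z).2 hz)) (norm_nonneg _)).trans h7
  -- the product
  obtain ⟨e₁, E₁, he₁, hE₁, hw⟩ := slope_bd (wv α a) _ s (wv_deriv α a s h.hα hs)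
    (wvd_ne α a h.hα h.ha.ne' s hs (by rw [← hx]; exact h.cr x₀ hx1))
  obtain ⟨q, hq, hPi⟩ := Pi0_low G h.morse hG0 x₀ hx1
  have hPi' : ∀ᶠ t in 𝓝[≠] s, q * ‖wv α a t - wv α a s‖ ≤ Pi0 G (wv α a t) := by
    rw [hx] at hPi
    exact mem_nhdsWithin_of_mem_nhds (hcw.eventually hPi)
  refine ⟨κ ^ G.natDegree * (q * e₁), by positivity, ?_⟩
  filter_upwards [hall, hw, hPi'] with t t1 t2 t3
  have hcd : (G - C (wv α a t)).roots.card = G.natDegree := by
    rw [← (IsAlgClosed.splits (G - C (wv α a t))).natDegree_eq_card_roots, natDegree_sub_C]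
  have h5 : ((G - C (wv α a t)).roots.map fun x => κ * ‖(derivative G).eval x‖).prod ≤
      ((G - C (wv α a t)).roots.map fun x => rho G c c' t x).prod := by
    apply Multiset.prod_map_le_prod_map₀
    · intro x _
      positivity
    · intro x hx'
      exact t1 x ((hmem _ x).1 hx')
  refine le_trans ?_ h5
  rw [Multiset.prod_map_mul, Multiset.map_const', Multiset.prod_replicate, hcd]
  have h6 : ((G - C (wv α a t)).roots.map fun x => ‖(derivative G).eval x‖).prod =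
      pr (G - C (wv α a t)) (derivative (G - C (wv α a t))) := by
    unfold pr
    rw [derivative_sub, derivative_C, sub_zero]
  have h7 : pr (derivative (G - C (wv α a t))) (G - C (wv α a t)) = Pi0 G (wv α a t) := by
    unfold pr Pi0
    rw [derivative_sub, derivative_C, sub_zero]
    congr 1
    apply Multiset.map_congr rfl
    intro y _
    rw [eval_sub, eval_C]
  rw [h6, crit _ (hPm _) (by rw [natDegree_sub_C]; exact hn0), h7]
  have h8 : (1 : ℝ) ≤ ((G - C (wv α a t)).natDegree : ℝ) ^ (G - C (wv α a t)).natDegree := by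
    apply one_le_pow₀
    rw [natDegree_sub_C]
    exact_mod_cast hn0
  have h9 : q * (e₁ * ‖t - s‖) ≤ Pi0 G (wv α a t) :=
    (mul_le_mul_of_nonneg_left t2.1 hq.le).trans t3
  have h10 : 0 ≤ Pi0 G (wv α a t) := le_trans (by positivity) h9
  calc κ ^ G.natDegree * (q * e₁) * ‖t - s‖ = κ ^ G.natDegree * (q * (e₁ * ‖t - s‖)) := by ring
    _ ≤ κ ^ G.natDegree * (((G - C (wv α a t)).natDegree : ℝ) ^ (G - C (wv α a t)).natDegree *
        Pi0 G (wv α a t)) := by
        apply mul_le_mul_of_nonneg_left _ (by positivity)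
        exact h9.trans (le_mul_of_one_le_left h10 h8)

end Pool.Agent.K9h21.GP
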