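import Pool.Agent.K9h21.GP.TjB

/-!
# Leaf TJ of the project GPM (helper32)
-/

set_option autoImplicit false

namespace Pool.Agent.K9h21.GP.TJ_

open Polynomial Filter Topology

variable {G : ℂ[X]} {n : ℕ} {α α' : ℂ} {a b : ℤ} {D : ℕ} {c : Fin D → ℂ → ℂ}

theorem TT_diff (hsum : S_SUM) (h : RootM G n α α' a b D c) (j : ℕ) {t : ℂ} (ht : t ≠ 0)
    (hB : t ∉ Br G α a) : DifferentiableAt ℂ (TT' G α a c j) t := by
  have hn := h.hn
  refine hsum G (wv α a) t (fun t x => yy G c t x * x ^ j / (derivative G).eval x) h.mo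
    (by rw [h.deg]; omega) (GEO_.wv_deriv α a t h.hα ht).differentiableAt
    (fun x hx => notBr ht hB hx) (fun x hx => ?_)
  have hx' := notBr ht hB hx
  have h1 := term_diff h ht hx'
  have h2 : DifferentiableAt ℂ (fun p : ℂ × ℂ => (derivative G).eval p.2) (t, x) :=
    DifferentiableAt.comp (t, x) (f := fun p : ℂ × ℂ => p.2)
      ((derivative G).differentiable x) differentiableAt_snd
  have h4 : DifferentiableAt ℂ (fun p : ℂ × ℂ => ((derivative G).eval p.2)⁻¹) (t, x) :=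
    h2.fun_inv hx'
  simp only [div_eq_mul_inv]
  exact (h1.fun_mul (differentiableAt_snd.fun_pow _)).fun_mul h4

theorem TT_local (h : RootM G n α α' a b D c) (j : ℕ) (s : ℂ) (hs : s ∈ Br G α a) :
    Tendsto (fun t => (t - s) * TT' G α a c j t) (𝓝[≠] s) (𝓝 0) := by
  obtain ⟨Y, hY, h1⟩ := y_local h s hs.1
  obtain ⟨κ, hκ, h2⟩ := der_local h s hs.1 hs.2
  have hZ := ev_notin (Br_finite h).toFinset s
  rw [tendsto_zero_iff_norm_tendsto_zero]
  have hup : Tendsto (fun t => (n : ℝ) * (Y * Y ^ j * (√κ)⁻¹) * √‖t - s‖) (𝓝[≠] s) (𝓝 0) := by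
    have h3 : Tendsto (fun t : ℂ => (n : ℝ) * (Y * Y ^ j * (√κ)⁻¹) * √‖t - s‖) (𝓝 s)
        (𝓝 ((n : ℝ) * (Y * Y ^ j * (√κ)⁻¹) * √‖s - s‖)) := by
      apply Continuous.tendsto
      fun_prop
    rw [sub_self, norm_zero, Real.sqrt_zero, mul_zero] at h3
    exact h3.mono_left nhdsWithin_le_nhds
  refine squeeze_zero' (Eventually.of_forall fun t => norm_nonneg _) ?_ hup
  filter_upwards [mem_nhdsWithin_of_mem_nhds h1, h2, self_mem_nhdsWithin, hZ] with t h3 h4 hts hZt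
  obtain ⟨ht0, h3⟩ := h3
  have htB : t ∉ Br G α a := fun h' => hZt ((Br_finite h).mem_toFinset.2 h')
  have hd : 0 < ‖t - s‖ := norm_pos_iff.2 (sub_ne_zero.2 hts)
  have hsd : 0 < √‖t - s‖ := Real.sqrt_pos.2 hd
  have hsk : 0 < √κ := Real.sqrt_pos.2 hκ
  have h5 := norm_sum_le' (G - C (wv α a t)).roots
    (fun x => -(∑ i, c i t * x ^ (i : ℕ)) / (derivative G).eval x * x ^ j / (derivative G).eval x)
    (Y * Y ^ j * (√κ * √‖t - s‖)⁻¹) (by
      intro x hx
      have hx1 := mem_rt h hx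
      have hx2 := notBr ht0 htB hx1
      obtain ⟨h6, h7⟩ := h3 x hx1
      have h8 := h4 x hx1
      have h9 : √κ * √‖t - s‖ ≤ ‖(derivative G).eval x‖ := by
        rw [← Real.sqrt_mul hκ.le]
        exact Real.sqrt_le_iff.2 ⟨norm_nonneg _, h8⟩
      have h10 : ‖-(∑ i, c i t * x ^ (i : ℕ)) / (derivative G).eval x‖ ≤ Y := h7 hx2
      rw [norm_div, norm_mul, norm_pow, div_eq_mul_inv]
      have h11 : ‖x‖ ^ j ≤ Y ^ j := pow_le_pow_left₀ (norm_nonneg _) h6 j
      have h12 : ‖(derivative G).eval x‖⁻¹ ≤ (√κ * √‖t - s‖)⁻¹ := inv_anti₀ (by positivity) h9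
      have hY0 : 0 ≤ Y := by linarith
      exact mul_le_mul (mul_le_mul h10 h11 (by positivity) hY0) h12 (by positivity)
        (by positivity))
  rw [card_rt h] at h5
  rw [norm_mul]
  calc ‖t - s‖ * ‖TT' G α a c j t‖ ≤ ‖t - s‖ * (n * (Y * Y ^ j * (√κ * √‖t - s‖)⁻¹)) :=
        mul_le_mul_of_nonneg_left h5 hd.le
    _ = (n : ℝ) * (Y * Y ^ j * (√κ)⁻¹) * √‖t - s‖ := by
        have h6 : ‖t - s‖ = √‖t - s‖ * √‖t - s‖ := (Real.mul_self_sqrt hd.le).symm
        conv_lhs => rw [h6]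
        rw [mul_inv]
        have h7 : √(√‖t - s‖ * √‖t - s‖) = √‖t - s‖ := by rw [← h6]
        rw [h7]
        field_simp

/-- bounds far away and near zero -/
theorem TT_far (h : RootM G n α α' a b D c) : ∃ K : ℝ, 0 < K ∧ ∀ R : ℝ, 1 ≤ R → ∃ T : ℝ, 1 ≤ T ∧
    ∀ t : ℂ, t ≠ 0 → t ∉ Br G α a → (T < ‖t‖ ∨ T < ‖t‖⁻¹) → ∀ j,
      (j + 2 ≤ n → ‖TT' G α a c j t‖ ≤ K) ∧ (j + 2 < n → ‖TT' G α a c j t‖ ≤ K / R) := by
  have hn := h.hn
  have ha0 : a ≠ 0 := by
    have := h.hb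
    have := h.hab
    omega
  obtain ⟨K₁, hK1, h1⟩ := y_large h
  obtain ⟨K₂, R₂, hK2, hR2, h2⟩ := deriv_large G h.mo n h.deg h.hn
  refine ⟨n * (K₁ * K₂), by positivity, fun R hR => ?_⟩
  obtain ⟨T, hT1, hT⟩ := far_roots G α a h.hα ha0 (max R R₂)
  refine ⟨T, hT1, fun t ht hB hor j => ?_⟩
  -- one term
  have hterm : ∀ x ∈ (G - C (wv α a t)).roots, ∀ L : ℝ, ‖x‖ * ‖x‖ ^ j ≤ L * ‖x‖ ^ (n - 1) → 0 ≤ L →
      ‖-(∑ i, c i t * x ^ (i : ℕ)) / (derivative G).eval x * x ^ j / (derivative G).eval x‖ ≤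
        K₁ * K₂ * L := by
    intro x hx L hL hL0
    have hx1 := mem_rt h hx
    have hx2 := notBr ht hB hx1
    have hx3 := hT t ht hor x hx1
    have hxR : R < ‖x‖ := lt_of_le_of_lt (le_max_left _ _) hx3
    have hxR2 : R₂ < ‖x‖ := lt_of_le_of_lt (le_max_right _ _) hx3
    have h3 : ‖-(∑ i, c i t * x ^ (i : ℕ)) / (derivative G).eval x‖ ≤ K₁ * ‖x‖ :=
      h1 t x ht hx1 hx2 (by linarith)
    have h4 := h2 x hxR2.le
    have h5 : 0 < ‖(derivative G).eval x‖ := norm_pos_iff.2 hx2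
    rw [norm_div, norm_mul, norm_pow, div_le_iff₀ h5]
    calc ‖-(∑ i, c i t * x ^ (i : ℕ)) / (derivative G).eval x‖ * ‖x‖ ^ j
        ≤ K₁ * ‖x‖ * ‖x‖ ^ j := mul_le_mul_of_nonneg_right h3 (by positivity)
      _ = K₁ * (‖x‖ * ‖x‖ ^ j) := by ring
      _ ≤ K₁ * (L * ‖x‖ ^ (n - 1)) := mul_le_mul_of_nonneg_left hL (by linarith)
      _ ≤ K₁ * (L * (K₂ * ‖(derivative G).eval x‖)) := by
          apply mul_le_mul_of_nonneg_left _ (by linarith)
          exact mul_le_mul_of_nonneg_left h4 hL0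
      _ = _ := by ring
  constructor
  · intro hj
    have h5 := norm_sum_le' (G - C (wv α a t)).roots
      (fun x => -(∑ i, c i t * x ^ (i : ℕ)) / (derivative G).eval x * x ^ j / (derivative G).eval x)
      (K₁ * K₂) (by
        intro x hx
        have hx3 := hT t ht hor x (mem_rt h hx)
        have hxR : R < ‖x‖ := lt_of_le_of_lt (le_max_left _ _) hx3
        have h6 := hterm x hx 1 (by
          rw [one_mul, ← pow_succ']
          exact pow_le_pow_right₀ (by linarith) (by omega)) zero_le_one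
        rwa [mul_one] at h6)
    rw [card_rt h] at h5
    exact h5
  · intro hj
    have hR0 : 0 < R := by linarith
    have h5 := norm_sum_le' (G - C (wv α a t)).roots
      (fun x => -(∑ i, c i t * x ^ (i : ℕ)) / (derivative G).eval x * x ^ j / (derivative G).eval x)
      (K₁ * K₂ * R⁻¹) (by
        intro x hx
        have hx3 := hT t ht hor x (mem_rt h hx)
        have hxR : R < ‖x‖ := lt_of_le_of_lt (le_max_left _ _) hx3
        apply hterm x hx R⁻¹ _ (by positivity)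
        rw [← pow_succ', inv_mul_eq_div, le_div_iff₀ hR0]
        calc ‖x‖ ^ (j + 1) * R ≤ ‖x‖ ^ (j + 1) * ‖x‖ :=
              mul_le_mul_of_nonneg_left hxR.le (by positivity)
          _ = ‖x‖ ^ (j + 2) := by ring
          _ ≤ ‖x‖ ^ (n - 1) := pow_le_pow_right₀ (by linarith) (by omega))
    rw [card_rt h] at h5
    calc ‖TT' G α a c j t‖ ≤ n * (K₁ * K₂ * R⁻¹) := h5
      _ = _ := by rw [div_eq_mul_inv]; ring

end Pool.Agent.K9h21.GP.TJ_

namespace Pool.Agent.K9h21.GP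

open Polynomial Filter Topology TJ_

theorem tj (hsum : S_SUM) : S_TJ := by
  classical
  intro G n α α' a b D c h
  have hn := h.hn
  obtain ⟨K, hK, hfar⟩ := TT_far h
  set Z : Finset ℂ := insert 0 (Br_finite h).toFinset with hZ
  have hZ0 : ∀ t, t ∉ Z → t ≠ 0 := fun t ht h' => ht (h' ▸ Finset.mem_insert_self _ _)
  have hZB : ∀ t, t ∉ Z → t ∉ Br G α a := fun t ht h' =>
    ht (Finset.mem_insert_of_mem ((Br_finite h).mem_toFinset.2 h'))
  have hZc : ∀ᶠ t : ℂ in cocompact ℂ, t ∉ Z := by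
    have : ∀ᶠ t : ℂ in cocompact ℂ, t ∈ ((Z : Set ℂ))ᶜ :=
      Z.finite_toSet.isCompact.compl_mem_cocompact
    filter_upwards [this] with t ht h'
    exact ht (Finset.mem_coe.2 h')
  have hbig : ∀ T : ℝ, ∀ᶠ t : ℂ in cocompact ℂ, T < ‖t‖ := by
    intro T
    have hfar : ∀ᶠ t : ℂ in cocompact ℂ, t ∈ (Metric.closedBall (0 : ℂ) T)ᶜ :=
      (isCompact_closedBall 0 T).compl_mem_cocompact
    filter_upwards [hfar] with t ht
    rwa [Set.mem_compl_iff, mem_closedBall_zero_iff, not_le] at ht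
  have hcst : ∀ j, j + 2 ≤ n → ∃ γ : ℂ, ∀ t, t ∉ Z → TT' G α a c j t = γ := by
    intro j hj
    obtain ⟨T, hT1, hT⟩ := hfar 1 le_rfl
    refine removal_const Z (TT' G α a c j) ?_ ?_ K ?_
    · intro t ht
      have ht' : t ∉ Z := fun h' => ht (Finset.mem_coe.2 h')
      exact (TT_diff hsum h j (hZ0 t ht') (hZB t ht')).differentiableWithinAt
    · intro s hs
      rcases Finset.mem_insert.1 hs with h0 | h0
      · subst h0
        rw [tendsto_zero_iff_norm_tendsto_zero]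
        have hup : Tendsto (fun t : ℂ => ‖t‖ * K) (𝓝[≠] 0) (𝓝 0) := by
          have h3 : Tendsto (fun t : ℂ => ‖t‖ * K) (𝓝 0) (𝓝 (‖(0 : ℂ)‖ * K)) := by
            apply Continuous.tendsto
            fun_prop
          rw [norm_zero, zero_mul] at h3
          exact h3.mono_left nhdsWithin_le_nhds
        refine squeeze_zero' (Eventually.of_forall fun t => norm_nonneg _) ?_ hup
        have hball : ∀ᶠ t : ℂ in 𝓝[≠] 0, ‖t‖ < T⁻¹ := by
          apply mem_nhdsWithin_of_mem_nhds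
          have : Tendsto (fun t : ℂ => ‖t‖) (𝓝 0) (𝓝 0) := by
            simpa using (continuous_norm (E := ℂ)).tendsto 0
          exact this.eventually (gt_mem_nhds (inv_pos.2 (by linarith)))
        filter_upwards [ev_notin Z 0, hball] with t ht htT
        have h2 : 0 < ‖t‖ := norm_pos_iff.2 (hZ0 t ht)
        have h3 : T < ‖t‖⁻¹ := (lt_inv_comm₀ h2 (by linarith)).1 htT
        rw [sub_zero, norm_mul]
        exact mul_le_mul_of_nonneg_left ((hT t (hZ0 t ht) (hZB t ht) (Or.inr h3) j).1 hj)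
          (norm_nonneg _)
      · exact TT_local h j s ((Br_finite h).mem_toFinset.1 h0)
    · filter_upwards [hZc, hbig T] with t ht htT
      exact (hT t (hZ0 t ht) (hZB t ht) (Or.inl htT) j).1 hj
  have hcst' : ∀ j, ∃ γ : ℂ, (j + 2 ≤ n → ∀ t, t ∉ Z → TT' G α a c j t = γ) ∧
      (j + 2 < n → γ = 0) := by
    intro j
    by_cases hj : j + 2 ≤ n
    · obtain ⟨γ, hγ⟩ := hcst j hj
      refine ⟨γ, fun _ => hγ, fun hj' => ?_⟩
      by_contra hne
      have hpos : 0 < ‖γ‖ := norm_pos_iff.2 hne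
      obtain ⟨T, hT1, hT⟩ := hfar (max 1 (2 * K / ‖γ‖)) (le_max_left _ _)
      obtain ⟨t, ht, htT⟩ := (hZc.and (hbig T)).exists
      have h1 := (hT t (hZ0 t ht) (hZB t ht) (Or.inl htT) j).2 hj'
      rw [hγ t ht] at h1
      have h2 : 2 * K / ‖γ‖ ≤ max 1 (2 * K / ‖γ‖) := le_max_right _ _
      have h3 : 0 < 2 * K / ‖γ‖ := by positivity
      have h4 : K / max 1 (2 * K / ‖γ‖) ≤ K / (2 * K / ‖γ‖) :=
        div_le_div_of_nonneg_left hK.le h3 h2
      have h5 : K / (2 * K / ‖γ‖) = ‖γ‖ / 2 := by field_simp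
      linarith
    · exact ⟨0, fun h' => absurd h' hj, fun _ => rfl⟩
  choose γ hγ1 hγ2 using hcst'
  refine ⟨γ, fun j hj => hγ2 j hj, fun j hj t ht hcr => ?_⟩
  refine hγ1 j hj t fun htZ => ?_
  rcases Finset.mem_insert.1 htZ with h0 | h0
  · exact ht h0
  · obtain ⟨_, x, hx, hx'⟩ := (Br_finite h).mem_toFinset.1 h0
    exact hcr x hx' hx

end Pool.Agent.K9h21.GP
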