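import Pool.Agent.K9h21.GP.Geom
import Pool.Agent.K9h21.GP.Loc
import Pool.Agent.K9h21.GP.Cnt
import Pool.Agent.K9h21.GP.Sum
import Pool.Agent.K9h21.GP.Tj
import Pool.Agent.K9h21.GP.Lin
import Pool.Agent.K9h21.GP.End

set_option autoImplicit false

/-!
# Project GPM: the factorisations for Morse polynomials, all leaves
-/

namespace Pool.Agent.K9h21.GP

theorem geomAll : S_GEOM2 := geom (cnt loc) (lin sum_ (tj sum_)) end2

end Pool.Agent.K9h21.GP
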