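import Pool.Agent.K9h21.GP.Stm
import Pool.Agent.N76.EC.Rig

set_option autoImplicit false

/-!
# Project GP: a window, and a subset without conflicts
-/

namespace Pool.Agent.K9h21.GP

open Polynomial MeasureTheory Set Filter Topology
open Pool.Agent.N76.EC

/-- a window in which the regulators of two points of the fibre are different -/
theorem window {G : ℂ[X]} {n : ℕ} {η φ₀ ε : ℝ} {B : Fin n → ℂ → ℂ} {X : Fin n → ℝ → ℂ} (S : Sys G n η φ₀ ε B X)
    (hn : 2 ≤ n) : ∃ (α δ : ℝ) (l q q' : Fin n), 0 < δ ∧ (∀ β, |β - α| < δ → |β - φ₀| < ε) ∧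
      ∀ β, |β - α| < δ → J X η B l q β ≠ J X η B l q' β := by
  obtain ⟨α₀, hα₀, h⟩ := S.exists_bad hn
  obtain ⟨l, q, q', h1⟩ := h fun _ => ⟨0, by omega⟩
  rw [sub_self] at h1
  have h2 := ((S.contAt_J l q hα₀).sub (S.contAt_J l q' hα₀)).eventually_ne h1
  have h3 : ∀ᶠ x : ℝ in 𝓝 α₀, |x - φ₀| < ε := (isOpen_W φ₀ ε).mem_nhds hα₀
  obtain ⟨δ, hδ, hball⟩ := Metric.eventually_nhds_iff.1 (h2.and h3)
  exact ⟨α₀, δ, l, q, q', hδ, fun β hβ => (hball (by rwa [Real.dist_eq])).2,
    fun β hβ => sub_ne_zero.1 (hball (by rwa [Real.dist_eq])).1⟩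

/-- a large subset without conflicts -/
theorem maxfree {ι : Type*} [Fintype ι] [DecidableEq ι] (Cf : ι → ι → Prop) (Δ : ℕ) (hs : ∀ i j, Cf i j → Cf j i)
    (h : ∀ j, ∀ T : Finset ι, (∀ i ∈ T, Cf i j) → T.card ≤ Δ) :
    ∃ S : Finset ι, (∀ i ∈ S, ∀ j ∈ S, i ≠ j → ¬ Cf i j) ∧ Fintype.card ι ≤ (Δ + 1) * S.card := by
  classical
  obtain ⟨S, hS, hmax⟩ := Finset.exists_max_image
    (Finset.univ.filter fun S : Finset ι => ∀ i ∈ S, ∀ j ∈ S, i ≠ j → ¬ Cf i j) Finset.card ⟨∅, by simp⟩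
  rw [Finset.mem_filter] at hS
  refine ⟨S, hS.2, ?_⟩
  have h1 : (Finset.univ : Finset ι) ⊆ S ∪ S.biUnion fun j => Finset.univ.filter fun i => Cf i j := by
    intro i _
    by_cases hi : i ∈ S
    · exact Finset.mem_union_left _ hi
    refine Finset.mem_union_right _ ?_
    by_contra hcon
    rw [Finset.mem_biUnion] at hcon
    push Not at hcon
    have h2 : ∀ j ∈ S, ¬ Cf i j := fun j hj hc => hcon j hj (Finset.mem_filter.2 ⟨Finset.mem_univ _, hc⟩)
    have h3 := hmax (insert i S) (by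
      rw [Finset.mem_filter]
      refine ⟨Finset.mem_univ _, fun a ha b hb hab => ?_⟩
      rw [Finset.mem_insert] at ha hb
      rcases ha with rfl | ha <;> rcases hb with rfl | hb
      · exact absurd rfl hab
      · exact h2 b hb
      · exact fun hc => h2 a ha (hs _ _ hc)
      · exact hS.2 a ha b hb hab)
    rw [Finset.card_insert_of_notMem hi] at h3
    omega
  calc Fintype.card ι = (Finset.univ : Finset ι).card := Finset.card_univ.symm
    _ ≤ (S ∪ S.biUnion fun j => Finset.univ.filter fun i => Cf i j).card := Finset.card_le_card h1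
    _ ≤ S.card + (S.biUnion fun j => Finset.univ.filter fun i => Cf i j).card := Finset.card_union_le _ _
    _ ≤ S.card + S.card * Δ := by
        refine Nat.add_le_add_left (Finset.card_biUnion_le_card_mul _ _ _ fun j _ => h j _ fun i hi => ?_) _
        exact (Finset.mem_filter.1 hi).2
    _ = (Δ + 1) * S.card := by ring

end Pool.Agent.K9h21.GP
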