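import Pool.Agent.K9h21.GP.Gen
import Pool.Agent.K9h21.GP.Win

set_option autoImplicit false

/-!
# Project GP: linear growth of the real rank, all polynomials
-/

namespace Pool.Agent.K9h21.GP

open Polynomial IntermediateField Module MeasureTheory Set
open Pool.Agent.TH826.MK (KQ Torus symb)
open Pool.Agent.TH826.HD (PRing POpen pent toP pcst pDel)
open Pool.Agent.N76.EC
open Pool.Agent.N76.RG (S_TRC S_LOXQ S_SPG S_DET exact_angle special_angle angle_special nsq_ext exists_loop')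
open Pool.Agent.K9h21.RP (Npw.avoid)
open scoped Real

/-- independence for values without conflicts -/
theorem core3.{u, v, w₁} (hGEO : S_GEO) (hTRP : S_TRP.{v}) (hAVG : S_AVGG.{v, v}) (hWN2 : S_WN2)
    (h1 : S_TRC.{u, v}) (h2 : S_LOXQ.{v}) (hSPG : S_SPG.{u, v}) (hDET : S_DET.{v}) (K : Type u) [Field K] [NumberField K]
    (F : K[X]) (n : ℕ) (hn : 2 ≤ n) (hF1 : F.Monic) (hdeg : F.natDegree = n) (hint : ∀ i, IsIntegral ℤ (F.coeff i))
    (hsq : Squarefree (F ^ 2 - 4)) (σ : K →+* ℂ) :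
    ∃ (k₀ : ℕ) (D : Finset (ℤ × ℤ)), 3 ≤ k₀ ∧ ∀ (L : Type v) [Field L] [NumberField L] [Algebra K L] (p : ℕ)
      (w : Fin p → L) (k : Fin p → ℕ) (s₁ : Em L σ) (ξ : Fin p → ℂ), Function.Injective w →
      (∀ a, k₀ ≤ k a ∧ (Chebyshev.C L (k a)).eval (w a) = 2 ∧
        ∀ q : ℕ, 0 < q → q < k a → (Chebyshev.C L q).eval (w a) ≠ 2) →
      (∀ a, ξ a ≠ 0 ∧ s₁.1 (w a) = ξ a + (ξ a)⁻¹) →
      (∀ a a', a ≠ a' → ¬ Bad (F.map σ) D (ξ a) (ξ a') ∨ ¬ Bad (F.map σ) D (ξ a') (ξ a)) →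
      ∀ (m : ℕ) (b : Fin (m + 1) → L) (c : Fin (m + 1) → Fin p), Function.Injective b →
      (∀ i, (F.map (algebraMap K L)).eval (b i) = w (c i)) →
      (∀ i, c i ≠ c 0 → (Finset.univ.filter fun j => c j = c i).card < n) →
      (∃ N : ℕ, 0 < N ∧ ∀ i, b i ∈ Sp F L N) ∧
      (∀ (M : Type w₁) [Field M] [Algebra (PRing (F.map (algebraMap K L))) M]
        [IsFractionRing (PRing (F.map (algebraMap K L))) M]
        (f : POpen (F.map (algebraMap K L)) b →+* M)
        (_ : ∀ a : PRing (F.map (algebraMap K L)), f (toP (F.map (algebraMap K L)) b a) = algebraMap _ M a),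
        LinearIndependent ℚ fun i : Fin m =>
          KQ.map 2 f (symb (pent (F.map (algebraMap K L)) b i.succ 0))) ∧
      ∃ (s : Fin m → (L →+* ℂ)) (Γ : Fin m → Torus (POpen (F.map (algebraMap K L)) b) 1),
        Function.Injective s ∧ (∀ i, (s i).comp (algebraMap K L) = σ) ∧
        (∀ i t (y : L), (Γ i).e t (pcst (F.map (algebraMap K L)) b y) = s i y) ∧
        (Matrix.of fun i j : Fin m => (Γ i).reg (symb (pent (F.map (algebraMap K L)) b j.succ 0))).det ≠ 0 := by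
  classical
  have hn0 : 0 < n := by omega
  obtain ⟨η, φ₀, ε, B, X', S⟩ := exists_sys (hF1.map σ) hn0 (by rw [hF1.natDegree_map, hdeg])
    (Pool.Agent.N76.EC.not_crit' hsq σ (by norm_num)) (Pool.Agent.N76.EC.not_crit' hsq σ (by norm_num))
  set l : Fin n := ⟨0, hn0⟩ with hl
  obtain ⟨k₀, D, hk₀, hmain⟩ := core2 hGEO hTRP hAVG hWN2 h1 h2 hSPG K F n hn hF1 hdeg hint hsq σ S l
  refine ⟨k₀, D, hk₀, fun L _ _ _ p w k s₁ ξ hwinj hv hξ hcf m b c hbinj hbc hcard => ?_⟩
  obtain ⟨N, hN0, hSp⟩ := sp_prod (F := F) s₁.1 b (fun i => k (c i)) (fun i => hk₀.trans (hv (c i)).1) fun i => by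
    rw [hbc]
    exact (hv (c i)).2
  have hres := hmain L p w k s₁ ξ hwinj hv hξ hcf (m + 1) b c hbinj hbc
  have hind := hind_ (σ := σ) n m p c (fun i s => P (X' l) (Zp η) (s.1 (b i))) hcard hres
  exact ⟨⟨N, hN0, hSp⟩, finish hDET S l hN0 b hSp hind⟩

/-- the fibres over special values of large level have `n` different points -/
theorem sep_level.{u, v} (K : Type u) [Field K] [NumberField K] (F : K[X]) (n : ℕ) (hn : 2 ≤ n) (hF1 : F.Monic)
    (hdeg : F.natDegree = n) : ∃ k₀ : ℕ, ∀ (L : Type v) [Field L] [NumberField L] [Algebra K L] (w : L) (k : ℕ),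
      k₀ ≤ k → 0 < k → (Chebyshev.C L k).eval w = 2 → (∀ q : ℕ, 0 < q → q < k → (Chebyshev.C L q).eval w ≠ 2) →
      (F.map (algebraMap K L) - C w).Splits → ∃ Z : Fin n → L, Function.Injective Z ∧
        ∀ q, (F.map (algebraMap K L)).eval (Z q) = w := by
  classical
  obtain ⟨σ⟩ : Nonempty (K →+* ℂ) := inferInstance
  obtain ⟨k₀, hk₀⟩ := Npw.avoid _ (crit_finite (F.map σ) (by rw [hF1.natDegree_map, hdeg]; omega))
  refine ⟨k₀, fun L _ _ _ w k hk hk0 hw1 hw2 hspl => ?_⟩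
  obtain ⟨⟨s₁, hs₁⟩⟩ := Em_nonempty L σ
  obtain ⟨ξ, hξ1, hξ2⟩ := exists_xi s₁ hk0 hw1 hw2
  set Fl : L[X] := F.map (algebraMap K L) with hFl
  have hdC : (C w : L[X]).degree < Fl.degree := by
    rw [hFl, degree_eq_natDegree (hF1.map _).ne_zero, hF1.natDegree_map, hdeg]
    exact lt_of_le_of_lt degree_C_le (by exact_mod_cast (by omega : 0 < n))
  have hmon : (Fl - C w).Monic := (hF1.map _).sub_of_left hdC
  have hmap : (Fl - C w).map s₁ = F.map σ - C (ξ + ξ⁻¹) := by
    rw [Polynomial.map_sub, Polynomial.map_C, hξ2, hFl, Polynomial.map_map, hs₁]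
  have hsep : (Fl - C w).Separable := by
    rw [← separable_map s₁, hmap, separable_def, isCoprime_iff_aeval_ne_zero_of_isAlgClosed ℂ ℂ]
    intro x
    by_cases hx : (F.map σ - C (ξ + ξ⁻¹)).eval x = 0
    · right
      rw [coe_aeval_eq_eval, derivative_sub, derivative_C, sub_zero]
      intro h0
      refine hk₀ k ξ hξ1 hk ⟨hξ1.ne_zero hk0.ne', x, h0, ?_⟩
      rw [eval_sub, eval_C, sub_eq_zero] at hx
      exact hx
    · left
      rw [coe_aeval_eq_eval]
      exact hx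
  have hcard : Multiset.card (Fl - C w).roots = n := by
    rw [← hspl.natDegree_eq_card_roots, natDegree_sub_C, hFl, hF1.natDegree_map, hdeg]
  have hcard2 : (Fl - C w).roots.toFinset.card = n := by
    rw [Multiset.toFinset_card_of_nodup (nodup_roots hsep), hcard]
  have eq := (Fl - C w).roots.toFinset.equivFinOfCardEq hcard2
  refine ⟨fun q => (eq.symm q).1, fun q q' h => eq.symm.injective (Subtype.ext h), fun q => ?_⟩
  have h3 := Multiset.mem_toFinset.1 (eq.symm q).2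
  rw [mem_roots hmon.ne_zero, IsRoot.def, eval_sub, eval_C, sub_eq_zero] at h3
  exact h3

/-- the points: `n - 1` points over each value and one more over the first one -/
theorem exists_family {L : Type*} [Field L] (Fl : L[X]) (n r : ℕ) (hn : 2 ≤ n) (hr : 0 < r) (w : Fin r → L)
    (hw : Function.Injective w) (Z : Fin r → Fin n → L) (hZ : ∀ a, Function.Injective (Z a))
    (hZw : ∀ a q, Fl.eval (Z a q) = w a) : ∃ (m : ℕ) (b : Fin (m + 1) → L) (c : Fin (m + 1) → Fin r),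
      m = r * (n - 1) ∧ Function.Injective b ∧ (∀ i, Fl.eval (b i) = w (c i)) ∧
      ∀ i, c i ≠ c 0 → (Finset.univ.filter fun j => c j = c i).card < n := by
  classical
  set c : Fin (r * (n - 1) + 1) → Fin r := Fin.cons ⟨0, hr⟩ fun j => (finProdFinEquiv.symm j).1 with hc
  set ps : Fin (r * (n - 1) + 1) → Fin n := Fin.cons ⟨n - 1, by omega⟩ fun j =>
    Fin.castLE (Nat.sub_le n 1) (finProdFinEquiv.symm j).2 with hps
  have hinj : ∀ i j, c i = c j → ps i = ps j → i = j := by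
    intro i j
    refine Fin.cases ?_ (fun i => ?_) i <;> refine Fin.cases ?_ (fun j => ?_) j
    · intro _ _
      rfl
    · intro _ h
      exfalso
      rw [hps, Fin.cons_zero, Fin.cons_succ] at h
      have h3 := congrArg Fin.val h
      simp only [Fin.val_castLE] at h3
      have h4 := (finProdFinEquiv.symm j).2.2
      omega
    · intro _ h
      exfalso
      rw [hps, Fin.cons_zero, Fin.cons_succ] at h
      have h3 := congrArg Fin.val h
      simp only [Fin.val_castLE] at h3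
      have h4 := (finProdFinEquiv.symm i).2.2
      omega
    · intro h h'
      rw [hc, Fin.cons_succ, Fin.cons_succ] at h
      rw [hps, Fin.cons_succ, Fin.cons_succ] at h'
      congr 1
      apply finProdFinEquiv.symm.injective
      exact Prod.ext h (Fin.castLE_injective _ h')
  refine ⟨r * (n - 1), fun i => Z (c i) (ps i), c, rfl, fun i j h => ?_, fun i => hZw _ _, fun i hi => ?_⟩
  · have h4 : Z (c i) (ps i) = Z (c j) (ps j) := h
    have h3 : c i = c j := by
      apply hw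
      rw [← hZw (c i) (ps i), ← hZw (c j) (ps j), h4]
    refine hinj i j h3 ?_
    rw [h3] at h4
    exact hZ _ h4
  · have h5 : (Finset.univ.filter fun j => c j = c i).card ≤
        ((Finset.univ : Finset (Fin n)).erase ⟨n - 1, by omega⟩).card := by
      refine Finset.card_le_card_of_injOn ps (fun j hj => ?_) fun j hj j' hj' h => ?_
      · rw [Finset.mem_coe, Finset.mem_filter] at hj
        rw [Finset.mem_coe, Finset.mem_erase]
        refine ⟨?_, Finset.mem_univ _⟩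
        revert hj
        refine Fin.cases ?_ (fun j => ?_) j
        · intro hj
          exact absurd hj.2.symm hi
        · intro _ h
          rw [hps, Fin.cons_succ] at h
          have h3 := congrArg Fin.val h
          simp only [Fin.val_castLE] at h3
          have h4 := (finProdFinEquiv.symm j).2.2
          omega
      · rw [Finset.mem_coe, Finset.mem_filter] at hj hj'
        exact hinj j j' (hj.2.trans hj'.2.symm) h
    rw [Finset.card_erase_of_mem (Finset.mem_univ _), Finset.card_univ, Fintype.card_fin] at h5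
    omega

/-- **Linear growth of the real rank.** -/
theorem growth.{u, v, w₁} (hGEO : S_GEO) (hTRP : S_TRP.{v}) (hAVG : S_AVGG.{v, v}) (hWN2 : S_WN2) (hBDC : S_BDC)
    (h1 : S_TRC.{u, v}) (h2 : S_LOXQ.{v}) (hSPG : S_SPG.{u, v}) (hDET : S_DET.{v}) (K : Type u) [Field K] [NumberField K]
    (F : K[X]) (n : ℕ) (hn : 2 ≤ n) (hF1 : F.Monic) (hdeg : F.natDegree = n) (hint : ∀ i, IsIntegral ℤ (F.coeff i))
    (hsq : Squarefree (F ^ 2 - 4)) :
    ∃ C₀ : ℕ, 3 ≤ C₀ ∧ ∀ (L : Type v) [Field L] [NumberField L] [Algebra K L] (p : ℕ) (w : Fin p → L) (k : Fin p → ℕ),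
      0 < p → Function.Injective w →
      (∀ a, C₀ ≤ k a ∧ (Chebyshev.C L (k a)).eval (w a) = 2 ∧
        ∀ q : ℕ, 0 < q → q < k a → (Chebyshev.C L q).eval (w a) ≠ 2) →
      (∀ a, (F.map (algebraMap K L) - C (w a)).Splits) →
      ∃ (m : ℕ) (b : Fin (m + 1) → L), p * (n - 1) ≤ C₀ * m ∧ Function.Injective b ∧
      (∀ i, ∃ a, (F.map (algebraMap K L)).eval (b i) = w a) ∧
      (∃ N : ℕ, 0 < N ∧ ∀ i, b i ∈ Sp F L N) ∧
      (∀ (M : Type w₁) [Field M] [Algebra (PRing (F.map (algebraMap K L))) M]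
        [IsFractionRing (PRing (F.map (algebraMap K L))) M]
        (f : POpen (F.map (algebraMap K L)) b →+* M)
        (_ : ∀ a : PRing (F.map (algebraMap K L)), f (toP (F.map (algebraMap K L)) b a) = algebraMap _ M a),
        LinearIndependent ℚ fun i : Fin m =>
          KQ.map 2 f (symb (pent (F.map (algebraMap K L)) b i.succ 0))) ∧
      ∀ σ : K →+* ℂ, ∃ (s : Fin m → (L →+* ℂ)) (Γ : Fin m → Torus (POpen (F.map (algebraMap K L)) b) 1),
        Function.Injective s ∧ (∀ i, (s i).comp (algebraMap K L) = σ) ∧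
        (∀ i t (y : L), (Γ i).e t (pcst (F.map (algebraMap K L)) b y) = s i y) ∧
        (Matrix.of fun i j : Fin m => (Γ i).reg (symb (pent (F.map (algebraMap K L)) b j.succ 0))).det ≠ 0 := by
  classical
  choose k₀ D hk₀ hmain using core3.{u, v, w₁} hGEO hTRP hAVG hWN2 h1 h2 hSPG hDET K F n hn hF1 hdeg hint hsq
  choose Δ hΔ using fun σ : K →+* ℂ => hBDC (F.map σ) (D σ) (by rw [hF1.natDegree_map, hdeg]; exact hn)
  obtain ⟨k₁, hsepl⟩ := sep_level.{u, v} K F n hn hF1 hdeg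
  set Δs : ℕ := ∑ σ, Δ σ with hΔs
  refine ⟨max (max 3 k₁) (max (Finset.univ.sup k₀) (Δs + 1)), (le_max_left _ _).trans (le_max_left _ _),
    fun L _ _ _ p w k hp hwinj hv hspl => ?_⟩
  have hC3 : ∀ a, 3 ≤ k a := fun a => ((le_max_left _ _).trans (le_max_left _ _)).trans (hv a).1
  have hC1 : ∀ a, k₁ ≤ k a := fun a => ((le_max_right _ _).trans (le_max_left _ _)).trans (hv a).1
  have hC0 : ∀ σ a, k₀ σ ≤ k a := fun σ a =>
    ((Finset.le_sup (Finset.mem_univ σ)).trans ((le_max_left _ _).trans (le_max_right _ _))).trans (hv a).1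
  have hkpos : ∀ a, 0 < k a := fun a => by
    have := hC3 a
    omega
  have hs : ∀ σ : K →+* ℂ, Nonempty (Em L σ) := fun σ => Em_nonempty L σ
  have s₁ : ∀ σ : K →+* ℂ, Em L σ := fun σ => (hs σ).some
  have hxi : ∀ (σ : K →+* ℂ) (a : Fin p), ∃ ξ : ℂ, IsPrimitiveRoot ξ (k a) ∧ (s₁ σ).1 (w a) = ξ + ξ⁻¹ := fun σ a =>
    exists_xi (s₁ σ).1 (hkpos a) (hv a).2.1 (hv a).2.2
  choose ξ hξ1 hξ2 using hxi
  have hξinj : ∀ σ, Function.Injective (ξ σ) := by
    intro σ a a' h
    apply hwinj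
    apply (s₁ σ).1.injective
    rw [hξ2, hξ2, h]
  have hξ0 : ∀ σ a, ξ σ a ≠ 0 := fun σ a => (hξ1 σ a).ne_zero (hkpos a).ne'
  obtain ⟨A, hA1, hA2⟩ := maxfree (fun a a' : Fin p => ∃ σ, Bad (F.map σ) (D σ) (ξ σ a) (ξ σ a') ∧
    Bad (F.map σ) (D σ) (ξ σ a') (ξ σ a)) Δs (fun i j ⟨σ, h⟩ => ⟨σ, h.2, h.1⟩) (fun j U hU => by
    have h3 : U ⊆ Finset.univ.biUnion fun σ => U.filter fun i => Bad (F.map σ) (D σ) (ξ σ i) (ξ σ j) := by
      intro i hi
      obtain ⟨σ, h, -⟩ := hU i hi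
      exact Finset.mem_biUnion.2 ⟨σ, Finset.mem_univ _, Finset.mem_filter.2 ⟨hi, h⟩⟩
    refine (Finset.card_le_card h3).trans (Finset.card_biUnion_le.trans (Finset.sum_le_sum fun σ _ => ?_))
    have h4 := hΔ σ (ξ σ j) (hξ0 σ j) ((U.filter fun i => Bad (F.map σ) (D σ) (ξ σ i) (ξ σ j)).image (ξ σ)) (fun y hy => by
      obtain ⟨i, hi, rfl⟩ := Finset.mem_image.1 hy
      exact ⟨hξ0 σ i, (Finset.mem_filter.1 hi).2⟩)
    rwa [Finset.card_image_of_injective _ (hξinj σ)] at h4)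
  rw [Fintype.card_fin] at hA2
  obtain ⟨r, hr⟩ : ∃ r, A.card = r := ⟨_, rfl⟩
  rw [hr] at hA2
  have hr0 : 0 < r := by
    rcases Nat.eq_zero_or_pos r with h | h
    · rw [h, mul_zero] at hA2
      omega
    · exact h
  set j : Fin r → Fin p := fun i => (A.orderEmbOfFin hr i) with hj
  have hjA : ∀ i, j i ∈ A := fun i => A.orderEmbOfFin_mem hr i
  have hjinj : Function.Injective j := (A.orderEmbOfFin hr).injective
  choose Z hZ1 hZ2 using fun a : Fin r => hsepl L (w (j a)) (k (j a)) (hC1 _) (hkpos _) (hv (j a)).2.1 (hv (j a)).2.2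
    (hspl (j a))
  obtain ⟨m, b, c, hm, hbinj, hbc, hcard⟩ := exists_family (F.map (algebraMap K L)) n r hn hr0 (fun a => w (j a))
    (hwinj.comp hjinj) Z hZ1 hZ2
  have hall := fun σ : K →+* ℂ => hmain σ L r (fun a => w (j a)) (fun a => k (j a)) (s₁ σ) (fun a => ξ σ (j a))
    (hwinj.comp hjinj) (fun a => ⟨hC0 σ (j a), (hv (j a)).2⟩) (fun a => ⟨hξ0 σ (j a), hξ2 σ (j a)⟩) (fun a a' haa => by
      have h3 := hA1 (j a) (hjA a) (j a') (hjA a') fun h => haa (hjinj h)
      push Not at h3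
      by_cases h4 : Bad (F.map σ) (D σ) (ξ σ (j a)) (ξ σ (j a'))
      · exact Or.inr (h3 σ h4)
      · exact Or.inl h4) m b c hbinj hbc hcard
  obtain ⟨σ⟩ : Nonempty (K →+* ℂ) := inferInstance
  refine ⟨m, b, ?_, hbinj, fun i => ⟨j (c i), hbc i⟩, (hall σ).1, (hall σ).2.1, fun σ => (hall σ).2.2⟩
  rw [hm, ← mul_assoc]
  refine Nat.mul_le_mul_right _ (hA2.trans (Nat.mul_le_mul_right _ ?_))
  exact (le_max_right _ _).trans (le_max_right _ _)

end Pool.Agent.K9h21.GP
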