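import Pool.Agent.K9h21.GP.Geo3

/-!
# Growth of the lower bound and of `w(t)` (helper file for `S_CNT`)
-/

set_option autoImplicit false

namespace Pool.Agent.K9h21.GP.GW_

open Polynomial Filter Topology Pool.Agent.K9h21.GP.GEO_

/-- `∏ |G(y) - w|` is of the size of `|w|^(n-1)` -/
theorem Pi0_size (G : ℂ[X]) (m : ℕ) (hcard : (derivative G).roots.card = m) :
    ∃ W : ℝ, 1 ≤ W ∧ ∀ w : ℂ, W ≤ ‖w‖ → (‖w‖ / 2) ^ m ≤ Pi0 G w ∧ Pi0 G w ≤ (2 * ‖w‖) ^ m := by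
  classical
  set K₁ : ℝ := ((derivative G).roots.map fun y => ‖G.eval y‖).sum with hK
  have hK1 : ∀ y ∈ (derivative G).roots, ‖G.eval y‖ ≤ K₁ := by
    intro y hy
    apply Multiset.single_le_sum
    · intro x hx
      obtain ⟨z, _, rfl⟩ := Multiset.mem_map.1 hx
      exact norm_nonneg _
    · exact Multiset.mem_map_of_mem (fun y => ‖G.eval y‖) hy
  have hK0 : 0 ≤ K₁ := by
    apply Multiset.sum_nonneg
    intro x hx
    obtain ⟨z, _, rfl⟩ := Multiset.mem_map.1 hx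
    exact norm_nonneg _
  refine ⟨2 * K₁ + 1, by linarith, ?_⟩
  intro w hw
  have hw2 : K₁ ≤ ‖w‖ / 2 := by linarith
  have hw0 : 0 < ‖w‖ := by linarith
  constructor
  · unfold Pi0
    have h2 := pow_le_prod ((derivative G).roots.map fun y => ‖G.eval y - w‖) (‖w‖ / 2)
      (by positivity) (by
        intro a ha
        obtain ⟨y, hy, rfl⟩ := Multiset.mem_map.1 ha
        have h3 := hK1 y hy
        have h4 : ‖w‖ ≤ ‖G.eval y‖ + ‖G.eval y - w‖ := by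
          calc ‖w‖ = ‖G.eval y - (G.eval y - w)‖ := by rw [sub_sub_cancel]
            _ ≤ _ := norm_sub_le _ _
        linarith)
    rw [Multiset.card_map, hcard] at h2
    exact h2
  · unfold Pi0
    have h2 := prod_le_pow ((derivative G).roots.map fun y => ‖G.eval y - w‖) (2 * ‖w‖)
      (by
        intro a ha
        obtain ⟨y, hy, rfl⟩ := Multiset.mem_map.1 ha
        exact norm_nonneg _) (by
        intro a ha
        obtain ⟨y, hy, rfl⟩ := Multiset.mem_map.1 ha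
        have h3 := hK1 y hy
        have h4 : ‖G.eval y - w‖ ≤ ‖G.eval y‖ + ‖w‖ := norm_sub_le _ _
        linarith)
    rw [Multiset.card_map, hcard] at h2
    exact h2

/-- the lower bound grows like `|w|^k`, `k = (n-1) n - e` -/
theorem Lam_low (G : ℂ[X]) {C₀ : ℝ} (hC : 1 ≤ C₀) (n e k : ℕ)
    (hcard : (derivative G).roots.card = n - 1) (he : e + k = (n - 1) * n) :
    ∃ c W : ℝ, 0 < c ∧ 1 ≤ W ∧ ∀ w : ℂ, W ≤ ‖w‖ → c * ‖w‖ ^ k ≤ Lam G C₀ n e w := by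
  obtain ⟨W, hW1, hW⟩ := Pi0_size G (n - 1) hcard
  set A : ℝ := 2 ^ (e * n) * (2 * C₀) ^ e * 2 ^ ((n - 1) * n) with hA
  have hA0 : 0 < A := by
    have : 0 < 2 * C₀ := by linarith
    positivity
  refine ⟨A⁻¹, W, inv_pos.2 hA0, hW1, ?_⟩
  intro w hw
  have hw1 : 1 ≤ ‖w‖ := by linarith
  have hw0 : 0 < ‖w‖ := by linarith
  have h1 := (hW w hw).1
  unfold Lam
  rw [le_div_iff₀ (den_pos hC n e w)]
  have h5 : C₀ * (1 + ‖w‖) ≤ 2 * C₀ * ‖w‖ := by nlinarith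
  have h6 : 0 ≤ C₀ * (1 + ‖w‖) := by positivity
  calc A⁻¹ * ‖w‖ ^ k * (2 ^ (e * n) * (C₀ * (1 + ‖w‖)) ^ e)
      ≤ A⁻¹ * ‖w‖ ^ k * (2 ^ (e * n) * (2 * C₀ * ‖w‖) ^ e) := by
        apply mul_le_mul_of_nonneg_left _ (by positivity)
        apply mul_le_mul_of_nonneg_left _ (by positivity)
        exact pow_le_pow_left₀ h6 h5 e
    _ = ‖w‖ ^ (e + k) / 2 ^ ((n - 1) * n) := by
        have hC0 : C₀ ≠ 0 := by linarith
        rw [hA, mul_pow (2 * C₀), pow_add]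
        field_simp
    _ = ((‖w‖ / 2) ^ (n - 1)) ^ n := by rw [he, ← pow_mul, div_pow]
    _ ≤ Pi0 G w ^ n := pow_le_pow_left₀ (by positivity) h1 n

/-- the growth of `w(t)` at infinity -/
theorem wv_inf (α : ℂ) (hα : α ≠ 0) (a : ℕ) :
    ∃ c C T : ℝ, 0 < c ∧ 0 < C ∧ 1 ≤ T ∧ ∀ t : ℂ, T ≤ ‖t‖ → 0 < a →
      c * ‖t‖ ^ a ≤ ‖wv α a t‖ ∧ ‖wv α a t‖ ≤ C * ‖t‖ ^ a := by
  have hα0 : 0 < ‖α‖ := norm_pos_iff.2 hα
  refine ⟨‖α‖ / 2, ‖α‖ + ‖α‖⁻¹, 1 + 2 * (‖α‖⁻¹ * ‖α‖⁻¹), by positivity, by positivity, ?_, ?_⟩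
  · have : 0 ≤ 2 * (‖α‖⁻¹ * ‖α‖⁻¹) := by positivity
    linarith
  · intro t hT ha
    have hq : 0 ≤ 2 * (‖α‖⁻¹ * ‖α‖⁻¹) := by positivity
    have ht1 : 1 ≤ ‖t‖ := by linarith
    have hta : ‖t‖ ≤ ‖t‖ ^ a := by
      calc ‖t‖ = ‖t‖ ^ 1 := (pow_one _).symm
        _ ≤ ‖t‖ ^ a := pow_le_pow_right₀ ht1 ha
    set x : ℝ := ‖t‖ ^ a with hx
    have hx1 : 1 ≤ x := ht1.trans hta
    have hx0 : 0 < x := by linarith
    have hu : ‖α * t ^ (a : ℤ)‖ = ‖α‖ * x := by rw [norm_mul, zpow_natCast, norm_pow]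
    have hinv : ‖(α * t ^ (a : ℤ))⁻¹‖ = ‖α‖⁻¹ * x⁻¹ := by rw [norm_inv, hu, mul_inv]
    have hxi : x⁻¹ ≤ 1 := inv_le_one_of_one_le₀ hx1
    have hxi0 : 0 < x⁻¹ := inv_pos.2 hx0
    have hαi : 0 < ‖α‖⁻¹ := inv_pos.2 hα0
    unfold wv
    constructor
    · have h1 : ‖α * t ^ (a : ℤ)‖ ≤ ‖α * t ^ (a : ℤ) + (α * t ^ (a : ℤ))⁻¹‖ + ‖(α * t ^ (a : ℤ))⁻¹‖ := by
        calc ‖α * t ^ (a : ℤ)‖ = ‖(α * t ^ (a : ℤ) + (α * t ^ (a : ℤ))⁻¹) - (α * t ^ (a : ℤ))⁻¹‖ := by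
              rw [add_sub_cancel_right]
          _ ≤ _ := norm_sub_le _ _
      rw [hinv, hu] at h1
      have h2 : ‖α‖⁻¹ * x⁻¹ ≤ ‖α‖ / 2 * x := by
        have h3 : 2 * (‖α‖⁻¹ * ‖α‖⁻¹) ≤ x := by linarith
        have h4 : ‖α‖⁻¹ ≤ ‖α‖ / 2 * x := by
          calc ‖α‖⁻¹ = ‖α‖ / 2 * (2 * (‖α‖⁻¹ * ‖α‖⁻¹)) := by field_simp
            _ ≤ ‖α‖ / 2 * x := mul_le_mul_of_nonneg_left h3 (by positivity)
        calc ‖α‖⁻¹ * x⁻¹ ≤ ‖α‖⁻¹ * 1 := mul_le_mul_of_nonneg_left hxi hαi.le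
          _ ≤ _ := by linarith
      linarith
    · refine (norm_add_le _ _).trans ?_
      rw [hinv, hu]
      have h2 : ‖α‖⁻¹ * x⁻¹ ≤ ‖α‖⁻¹ * x := mul_le_mul_of_nonneg_left (hxi.trans hx1) hαi.le
      nlinarith

theorem wv_symm (α : ℂ) (a : ℤ) (t : ℂ) : wv α a t = wv α⁻¹ a t⁻¹ := by
  unfold wv
  rw [inv_zpow, mul_inv, mul_inv, inv_inv, inv_inv, add_comm]

/-- the growth of `w(t)` at `0` -/
theorem wv_zero (α : ℂ) (hα : α ≠ 0) (a : ℕ) :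
    ∃ c C T : ℝ, 0 < c ∧ 0 < C ∧ 1 ≤ T ∧ ∀ t : ℂ, T ≤ ‖t‖⁻¹ → 0 < a →
      c * (‖t‖⁻¹) ^ a ≤ ‖wv α a t‖ ∧ ‖wv α a t‖ ≤ C * (‖t‖⁻¹) ^ a := by
  obtain ⟨c, C, T, hc, hC, hT, h⟩ := wv_inf α⁻¹ (inv_ne_zero hα) a
  refine ⟨c, C, T, hc, hC, hT, ?_⟩
  intro t ht ha
  rw [wv_symm, ← norm_inv]
  exact h t⁻¹ (by rw [norm_inv]; exact ht) ha

/-- both ends: with `N(t) = max |t| |t|⁻¹` -/
theorem wv_both (α : ℂ) (hα : α ≠ 0) (a : ℕ) (ha : 0 < a) :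
    ∃ c C T : ℝ, 0 < c ∧ 0 < C ∧ 1 ≤ T ∧ ∀ t : ℂ, (T ≤ ‖t‖ →
      c * ‖t‖ ^ a ≤ ‖wv α a t‖ ∧ ‖wv α a t‖ ≤ C * ‖t‖ ^ a) ∧ (T ≤ ‖t‖⁻¹ →
      c * (‖t‖⁻¹) ^ a ≤ ‖wv α a t‖ ∧ ‖wv α a t‖ ≤ C * (‖t‖⁻¹) ^ a) := by
  obtain ⟨c, C, T, hc, hC, hT, h⟩ := wv_inf α hα a
  obtain ⟨c', C', T', hc', hC', hT', h'⟩ := wv_zero α hα a
  refine ⟨min c c', max C C', max T T', lt_min hc hc', lt_max_of_lt_left hC,
    le_max_of_le_left hT, ?_⟩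
  intro t
  constructor
  · intro ht
    obtain ⟨h1, h2⟩ := h t ((le_max_left _ _).trans ht) ha
    have hp : 0 ≤ ‖t‖ ^ a := pow_nonneg (norm_nonneg _) _
    exact ⟨(mul_le_mul_of_nonneg_right (min_le_left _ _) hp).trans h1,
      h2.trans (mul_le_mul_of_nonneg_right (le_max_left _ _) hp)⟩
  · intro ht
    obtain ⟨h1, h2⟩ := h' t ((le_max_right _ _).trans ht) ha
    have hp : 0 ≤ (‖t‖⁻¹) ^ a := pow_nonneg (inv_nonneg.2 (norm_nonneg _)) _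
    exact ⟨(mul_le_mul_of_nonneg_right (min_le_right _ _) hp).trans h1,
      h2.trans (mul_le_mul_of_nonneg_right (le_max_right _ _) hp)⟩

/-- growth of `Pi0 (w(t))` and of `Lam (w(t))` at both ends: `Y` is `‖t‖` or `‖t‖⁻¹` -/
theorem both (G : ℂ[X]) {C₀ : ℝ} (hC₀ : 1 ≤ C₀) (n e k : ℕ)
    (hcard : (derivative G).roots.card = n - 1) (he : e + k = (n - 1) * n)
    (α : ℂ) (hα : α ≠ 0) (a : ℤ) (ha : 0 < a) :
    ∃ c C T : ℝ, 0 < c ∧ 0 < C ∧ 1 ≤ T ∧ ∀ t : ℂ, ∀ Y : ℝ, Y = ‖t‖ ∨ Y = ‖t‖⁻¹ → T ≤ Y →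
      c * Y ^ (a.toNat * k) ≤ Lam G C₀ n e (wv α a t) ∧
      Pi0 G (wv α a t) ≤ C * Y ^ (a.toNat * (n - 1)) := by
  obtain ⟨W, hW1, hW⟩ := Pi0_size G (n - 1) hcard
  obtain ⟨c₁, W', hc₁, hW1', hW'⟩ := Lam_low G hC₀ n e k hcard he
  have haN : (a.toNat : ℤ) = a := Int.toNat_of_nonneg ha.le
  have haN0 : 0 < a.toNat := by omega
  obtain ⟨c, C, T, hc, hC, hT, h⟩ := wv_both α hα a.toNat haN0
  rw [haN] at h
  set V : ℝ := max W W' with hV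
  have hV1 : 1 ≤ V := hW1.trans (le_max_left _ _)
  refine ⟨c₁ * c ^ k, (2 * C) ^ (n - 1), T + V / c, by positivity, by positivity, ?_, ?_⟩
  · have : 0 ≤ V / c := by positivity
    linarith
  · intro t Y hY hTY
    have hVc : 0 ≤ V / c := by positivity
    have hY1 : 1 ≤ Y := by linarith
    have hY0 : 0 < Y := by linarith
    have hb : c * Y ^ a.toNat ≤ ‖wv α a t‖ ∧ ‖wv α a t‖ ≤ C * Y ^ a.toNat := by
      rcases hY with rfl | rfl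
      · exact (h t).1 (by linarith)
      · exact (h t).2 (by linarith)
    have hYa : Y ≤ Y ^ a.toNat := by
      calc Y = Y ^ 1 := (pow_one _).symm
        _ ≤ Y ^ a.toNat := pow_le_pow_right₀ hY1 haN0
    have hwV : V ≤ ‖wv α a t‖ := by
      have h1 : V / c ≤ Y := by linarith
      have h2 : V ≤ c * Y := by
        rw [div_le_iff₀ hc] at h1
        linarith
      calc V ≤ c * Y := h2
        _ ≤ c * Y ^ a.toNat := mul_le_mul_of_nonneg_left hYa hc.le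
        _ ≤ _ := hb.1
    constructor
    · have h1 := hW' _ ((le_max_right W W').trans hwV)
      refine le_trans ?_ h1
      have h2 : (c * Y ^ a.toNat) ^ k ≤ ‖wv α a t‖ ^ k := pow_le_pow_left₀ (by positivity) hb.1 k
      calc c₁ * c ^ k * Y ^ (a.toNat * k) = c₁ * (c * Y ^ a.toNat) ^ k := by
            rw [mul_pow, ← pow_mul]; ring
        _ ≤ c₁ * ‖wv α a t‖ ^ k := mul_le_mul_of_nonneg_left h2 hc₁.le
    · have h1 := (hW _ ((le_max_left W W').trans hwV)).2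
      refine h1.trans ?_
      have h2 : 2 * ‖wv α a t‖ ≤ 2 * C * Y ^ a.toNat := by linarith [hb.2]
      calc (2 * ‖wv α a t‖) ^ (n - 1) ≤ (2 * C * Y ^ a.toNat) ^ (n - 1) :=
            pow_le_pow_left₀ (by positivity) h2 _
        _ = (2 * C) ^ (n - 1) * Y ^ (a.toNat * (n - 1)) := by rw [mul_pow (2 * C), ← pow_mul]

/-- `e + 2 r r' = (n - 1) n` -/
theorem exps (r r' : ℕ) (hr : 0 < r) (hr' : 0 < r') :
    r * (r - 1) + r' * (r' - 1) + 2 * (r * r') = (r + r' - 1) * (r + r') := by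
  obtain ⟨u, hu⟩ : ∃ u, r = u + 1 := ⟨r - 1, by omega⟩
  obtain ⟨u', hu'⟩ : ∃ u', r' = u' + 1 := ⟨r' - 1, by omega⟩
  rw [hu, hu']
  simp only [Nat.add_sub_cancel]
  have : u + 1 + (u' + 1) - 1 = u + u' + 1 := by omega
  rw [this]
  ring

end Pool.Agent.K9h21.GP.GW_
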