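import Pool.Agent.K9h21.GP.Gro

set_option autoImplicit false

/-!
# Project GP: the special values of a given level
-/

namespace Pool.Agent.K9h21.GP

open Polynomial IntermediateField Module MeasureTheory Set
open Pool.Agent.N76.EC
open Pool.Agent.N76.RG (special_angle angle_special)
open scoped Real

theorem cheb_of_root {L : Type*} [Field L] (s₁ : L →+* ℂ) {N : ℕ} (hN : 0 < N) {η : ℂ} (hη : η ^ N = 1) {x : L}
    (hx : s₁ x = η + η⁻¹) : (Chebyshev.C L N).eval x = 2 := by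
  have : NeZero N := ⟨hN.ne'⟩
  obtain ⟨j, -, hj⟩ := (Complex.isPrimitiveRoot_exp N hN.ne').eq_pow_of_pow_eq_one hη
  refine angle_special s₁ hN (u := j) ?_
  have e : Complex.exp (2 * π * Complex.I / N) ^ j = Complex.exp ((2 * π * j / (N : ℂ)) * Complex.I) := by
    rw [← Complex.exp_nat_mul]
    congr 1
    ring
  rw [hx, ← hj, e, ← Complex.exp_neg, Complex.cos, mul_div_cancel₀ _ two_ne_zero, neg_mul]

theorem root_of_cheb {L : Type*} [Field L] (s₁ : L →+* ℂ) {q : ℕ} (hq : 0 < q) {η : ℂ} (hη : η ≠ 0) {x : L}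
    (hx : s₁ x = η + η⁻¹) (h : (Chebyshev.C L q).eval x = 2) : η ^ q = 1 := by
  obtain ⟨u, hu⟩ := special_angle s₁ hq h
  set z : ℂ := Complex.exp ((2 * π * u / (q : ℂ)) * Complex.I) with hz
  have hz0 : z ≠ 0 := Complex.exp_ne_zero _
  have hzq : z ^ q = 1 := by
    rw [hz, ← Complex.exp_nat_mul]
    have hq0 : (q : ℂ) ≠ 0 := Nat.cast_ne_zero.2 hq.ne'
    have e : (q : ℂ) * ((2 * π * u / (q : ℂ)) * Complex.I) = u * (2 * π * Complex.I) := by
      field_simp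
    rw [e, Complex.exp_nat_mul_two_pi_mul_I]
  have h1 : η + η⁻¹ = z + z⁻¹ := by
    rw [← hx, hu, hz, ← Complex.exp_neg, Complex.cos, mul_div_cancel₀ _ two_ne_zero, neg_mul]
  rcases pm_inv hη hz0 h1 with h2 | h2
  · rw [h2, hzq]
  · rw [h2, inv_pow, hzq, inv_one]

/-- many special values of a given level -/
theorem exists_values.{u, v} (hSEL : S_SEL) (K : Type u) [Field K] [NumberField K] (F : K[X]) (n : ℕ) (hn : 2 ≤ n)
    (hF1 : F.Monic) (hdeg : F.natDegree = n) (k₀ : ℕ) : ∃ C₁ : ℕ, ∀ N : ℕ, C₁ ≤ N → ∀ (L : Type v) [Field L]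
      [NumberField L] [Algebra K L], ((Chebyshev.C L N).comp (F.map (algebraMap K L)) - C 2).Splits →
      ∃ (p : ℕ) (w : Fin p → L) (k : Fin p → ℕ), N ≤ C₁ * p ∧ 0 < p ∧ Function.Injective w ∧
        (∀ a, k₀ ≤ k a ∧ (Chebyshev.C L (k a)).eval (w a) = 2 ∧
          ∀ q : ℕ, 0 < q → q < k a → (Chebyshev.C L q).eval (w a) ≠ 2) ∧
        (∀ a, (Chebyshev.C L N).eval (w a) = 2) ∧ ∀ a, (F.map (algebraMap K L) - C (w a)).Splits := by
  classical
  obtain ⟨C', hC'⟩ := hSEL k₀ 0 (fun _ _ => False) (fun ζ' _ T hT => by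
    rw [Nat.le_zero, Finset.card_eq_zero, Finset.eq_empty_iff_forall_notMem]
    exact fun ζ hζ => (hT ζ hζ).2)
  refine ⟨2 * C' + 1, fun N hN L _ _ _ hspl => ?_⟩
  obtain ⟨r, η, hr, hη1, hη2, -⟩ := hC' N (by omega)
  have hr0 : 0 < r := by
    rcases Nat.eq_zero_or_pos r with h | h
    · rw [h] at hr
      omega
    · exact h
  have hN0 : 0 < N := by omega
  obtain ⟨σ⟩ : Nonempty (K →+* ℂ) := inferInstance
  obtain ⟨⟨s₁, hs₁⟩⟩ := Em_nonempty L σ
  set Fl : L[X] := F.map (algebraMap K L) with hFl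
  have hFls : Fl.map s₁ = F.map σ := by rw [hFl, Polynomial.map_map, hs₁]
  have hdegL : Fl.natDegree = n := by rw [hFl, hF1.natDegree_map, hdeg]
  have hη0 : ∀ i, η i ≠ 0 := fun i h => by
    have h3 := (hη1 i).1
    rw [h, zero_pow hN0.ne'] at h3
    exact zero_ne_one h3
  have hex : ∀ i, ∃ x : L, s₁ x = η i + (η i)⁻¹ := by
    intro i
    obtain ⟨y, hy⟩ := IsAlgClosed.exists_root (F.map σ - C (η i + (η i)⁻¹)) (by
      intro h
      have h3 : (F.map σ - C (η i + (η i)⁻¹)).natDegree = 0 := natDegree_eq_of_degree_eq_some h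
      rw [natDegree_sub_C, hF1.natDegree_map, hdeg] at h3
      omega)
    rw [IsRoot.def, eval_sub, eval_C, sub_eq_zero] at hy
    obtain ⟨b, hb⟩ := exists_point (s := s₁) (F := Fl) (by rw [hdegL]; omega) hN0 hspl (x := y) (by
      rw [hFls, hy]
      exact cheb_of_root (RingHom.id ℂ) hN0 (hη1 i).1 rfl)
    refine ⟨Fl.eval b, ?_⟩
    rw [← hy, ← hFls, ← hb, eval_map s₁, eval₂_hom]
  choose w hw using hex
  have hNw : ∀ i, (Chebyshev.C L N).eval (w i) = 2 := fun i => cheb_of_root s₁ hN0 (hη1 i).1 (hw i)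
  have hord : ∀ i, 0 < orderOf (η i) := fun i =>
    orderOf_pos_iff.2 (isOfFinOrder_iff_pow_eq_one.2 ⟨N, hN0, (hη1 i).1⟩)
  refine ⟨r, w, fun i => orderOf (η i), ?_, hr0, fun i j h => ?_, fun i => ⟨(hη1 i).2, ?_, fun q hq hqk h => ?_⟩,
    hNw, fun i => ?_⟩
  · calc N ≤ C' * (r + 1) := hr
      _ ≤ (2 * C' + 1) * r := by nlinarith
  · apply hη2
    show η i + (η i)⁻¹ = η j + (η j)⁻¹
    rw [← hw, ← hw, h]
  · exact cheb_of_root s₁ (hord i) (pow_orderOf_eq_one _) (hw i)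
  · exact absurd (orderOf_le_of_pow_eq_one hq (root_of_cheb s₁ hq (hη0 i) (hw i) h)) (not_le.2 hqk)
  · have h3 : (X - C (w i)) ∣ (Chebyshev.C L N - C 2) := by
      rw [dvd_iff_isRoot, IsRoot.def, eval_sub, eval_C, hNw, sub_self]
    obtain ⟨Q, hQ⟩ := h3
    have h4 : (Chebyshev.C L N).comp Fl - C 2 = (Fl - C (w i)) * Q.comp Fl := by
      have h5 := congrArg (fun P : L[X] => P.comp Fl) hQ
      simp only [sub_comp, C_comp, mul_comp, X_comp] at h5
      exact h5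
    have h5 : (Chebyshev.C L N).comp Fl - C 2 ≠ 0 :=
      Pool.Agent.N686.PF.comp_ne_zero (κ := 2) (ζ := 1) s₁ (by rw [hdegL]; omega) (by simp) (by
        rw [map_ofNat]
        norm_num) hN0
    exact hspl.of_dvd h5 ⟨_, h4⟩

end Pool.Agent.K9h21.GP
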