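import Pool.Agent.K9h21.GP.Deg
import Pool.Agent.K9h21.GP.Win
import Pool.Agent.N76.RG.Fin6

set_option autoImplicit false

/-!
# Project GP: real independence of the regulators of special points on a large set of fibres
-/

namespace Pool.Agent.K9h21.GP

open Polynomial IntermediateField Module MeasureTheory Set
open Pool.Agent.N76.EC
open Pool.Agent.N76.RG (S_TRC S_LOXQ S_SPG S_DET exact_angle special_angle angle_special nsq_ext exists_loop')
open scoped Real

/-- **The main argument.** -/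
theorem main_.{u, v} (hGEO : S_GEO) (hTRP : S_TRP.{v}) (hAVG : S_AVG.{v, v}) (hBDC : S_BDC) (h1 : S_TRC.{u, v})
    (h2 : S_LOXQ.{v}) (hSPG : S_SPG.{u, v}) (K : Type u) [Field K] [NumberField K] (F : K[X]) (n : ℕ) (hn : 2 ≤ n)
    (hF1 : F.Monic) (hdeg : F.natDegree = n) (hint : ∀ i, IsIntegral ℤ (F.coeff i)) (hsq : Squarefree (F ^ 2 - 4))
    (σ : K →+* ℂ) {η φ₀ ε : ℝ} {B : Fin n → ℂ → ℂ} {X' : Fin n → ℝ → ℂ} (S : Sys (F.map σ) n η φ₀ ε B X') :
    ∃ (l : Fin n) (k₀ C' : ℕ), 3 ≤ k₀ ∧ ∀ (L : Type v) [Field L] [NumberField L] [Algebra K L] (m : ℕ) (v : Fin m → L)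
      (k : Fin m → ℕ), Function.Injective v → (∀ i, k₀ ≤ k i ∧ (Chebyshev.C L (k i)).eval (v i) = 2 ∧
        ∀ q : ℕ, 0 < q → q < k i → (Chebyshev.C L q).eval (v i) ≠ 2) →
      (∀ i, (F.map (algebraMap K L) - C (v i)).Splits) →
      ∃ (r : ℕ) (j : Fin r → Fin m) (b b' : Fin r → L), m ≤ C' * r ∧ Function.Injective j ∧
        (∀ i, (F.map (algebraMap K L)).eval (b i) = v (j i) ∧ (F.map (algebraMap K L)).eval (b' i) = v (j i)) ∧
        ∀ a : Fin r → ℝ, (∀ s : Em L σ, ∑ i, a i * (P (X' l) (Zp η) (s.1 (b i)) - P (X' l) (Zp η) (s.1 (b' i))) = 0) →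
          ∀ i, a i = 0 := by
  classical
  have hcr : ∀ x, (derivative (F.map σ)).eval x = 0 → ((F.map σ).eval x) ^ 2 ≠ 4 := by
    intro x hx h4
    have h5 : ((F.map σ).eval x - 2) * ((F.map σ).eval x + 2) = 0 := by linear_combination h4
    rcases mul_eq_zero.1 h5 with h5 | h5
    · exact Pool.Agent.N76.EC.not_crit' hsq σ (c := 2) (by norm_num) ⟨x, hx, sub_eq_zero.1 h5⟩
    · exact Pool.Agent.N76.EC.not_crit' hsq σ (c := -2) (by norm_num) ⟨x, hx, eq_neg_of_add_eq_zero_left h5⟩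
  obtain ⟨α, δ, l, q, q', hδ, hwin, hne⟩ := window S hn
  obtain ⟨k₁, D, hdegm⟩ := deg_ hGEO hTRP h1 h2 K F n hn hF1 hdeg hint σ hcr
  obtain ⟨Δ, hΔ⟩ := hBDC (F.map σ) D (by rw [hF1.natDegree_map, hdeg]; exact hn)
  obtain ⟨k₂, hS⟩ := hSPG K α δ hδ
  refine ⟨l, max 3 (max k₁ k₂), Δ + 1, le_max_left _ _, fun L _ _ _ m v k hvinj hv hspl => ?_⟩
  have hk1 : ∀ i, k₁ ≤ k i := fun i => ((le_max_left _ _).trans (le_max_right _ _)).trans (hv i).1
  have hk2 : ∀ i, k₂ ≤ k i := fun i => ((le_max_right _ _).trans (le_max_right _ _)).trans (hv i).1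
  have hk3 : ∀ i, 3 ≤ k i := fun i => (le_max_left _ _).trans (hv i).1
  have hk0 : ∀ i, 0 < k i := fun i => by
    have := hk3 i
    omega
  obtain ⟨⟨s₁, hs₁⟩⟩ := Em_nonempty L σ
  set N : ℕ := ∏ i, k i with hN
  have hN0 : 0 < N := Finset.prod_pos fun i _ => hk0 i
  have hkN : ∀ i, k i ∣ N := fun i => Finset.dvd_prod_of_mem k (Finset.mem_univ i)
  obtain ⟨E, iF, iN, ι, T, ζ, hT, hζ⟩ := nsq_ext L s₁ N hN0.ne'
  let _ : Algebra K E := (ι.comp (algebraMap K L)).toAlgebra
  have hKE : algebraMap K E = ι.comp (algebraMap K L) := rfl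
  have hζp : IsPrimitiveRoot ζ N := by
    refine IsPrimitiveRoot.of_map_of_injective (f := T) ?_ T.injective
    rw [hζ]
    exact Complex.isPrimitiveRoot_exp N hN0.ne'
  have hFE : F.map (algebraMap K E) = (F.map (algebraMap K L)).map ι := by
    rw [hKE, Polynomial.map_map]
  have hev : ∀ y : L, (F.map (algebraMap K E)).eval (ι y) = ι ((F.map (algebraMap K L)).eval y) := by
    intro y
    rw [hFE, eval_map ι, eval₂_hom]
  have hTK : T.comp (algebraMap K E) = σ := by
    rw [← hs₁]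
    ext y
    exact hT _
  -- the roots of unity
  choose u hu1 hu2 using fun i => exact_angle s₁ (hk0 i) (hv i).2.1 (hv i).2.2
  set e : Fin m → E := fun i => ζ ^ (u i * (N / k i)) with he
  have hTe : ∀ i, T (e i) = Complex.exp ((2 * π * u i / (k i : ℂ)) * Complex.I) := by
    intro i
    simp only [he]
    rw [map_pow, hζ, ← Complex.exp_nat_mul]
    congr 1
    obtain ⟨q, hq⟩ := hkN i
    have hq0 : 0 < q := by
      rcases Nat.eq_zero_or_pos q with h | h
      · rw [h, mul_zero] at hq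
        omega
      · exact h
    rw [hq, Nat.mul_div_cancel_left _ (hk0 i)]
    have h1 : (k i : ℂ) ≠ 0 := Nat.cast_ne_zero.2 (hk0 i).ne'
    have h2 : (q : ℂ) ≠ 0 := Nat.cast_ne_zero.2 hq0.ne'
    push_cast
    field_simp
  have hprim : ∀ i, IsPrimitiveRoot (e i) (k i) := by
    intro i
    obtain ⟨q, hq⟩ := hkN i
    have hq0 : 0 < q := by
      rcases Nat.eq_zero_or_pos q with h | h
      · rw [h, mul_zero] at hq
        omega
      · exact h
    have h1 : N / k i = q := by rw [hq, Nat.mul_div_cancel_left _ (hk0 i)]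
    simp only [he]
    rw [h1, mul_comm, pow_mul]
    exact (hζp.pow hN0 (by rw [hq, mul_comm])).pow_of_coprime _ (hu1 i)
  have hval : ∀ i, ι (v i) = e i + (e i)⁻¹ := by
    intro i
    apply T.injective
    rw [hT, hu2, map_add, map_inv₀, hTe, ← Complex.exp_neg, Complex.cos, mul_div_cancel₀ _ two_ne_zero, neg_mul]
  have hemem : ∀ i, e i ∈ K⟮ζ⟯ := fun i => pow_mem (mem_adjoin_simple_self K ζ) _
  have heinj : Function.Injective e := by
    intro i i' h
    apply hvinj
    apply ι.injective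
    rw [hval, hval, h]
  set x : Fin m → K⟮ζ⟯ := fun i => ⟨e i + (e i)⁻¹, add_mem (hemem i) (inv_mem (hemem i))⟩ with hx
  have hxe : ∀ i, algebraMap K⟮ζ⟯ E (x i) = e i + (e i)⁻¹ := fun i => rfl
  -- the fibres
  have hdg := fun (i : Fin m) (c : E) (hc : (F.map (algebraMap K E)).eval c = e i + (e i)⁻¹) =>
    hdegm N hN0 K⟮ζ⟯ E ζ hζp (fun y => y.2) (k i) (e i) c (x i) (hk1 i) (hprim i) (hxe i) hc
  -- the set without conflicts
  obtain ⟨A, hA1, hA2⟩ := maxfree (fun i i' : Fin m => Bad (F.map σ) D (T (e i)) (T (e i')) ∧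
    Bad (F.map σ) D (T (e i')) (T (e i))) Δ (fun i j h => ⟨h.2, h.1⟩) (fun j U hU => by
    have h3 := hΔ (T (e j)) ((map_ne_zero T).2 ((hprim j).ne_zero (hk0 j).ne')) (U.image fun i => T (e i)) (fun y hy => by
      obtain ⟨i, hi, rfl⟩ := Finset.mem_image.1 hy
      exact ⟨(map_ne_zero T).2 ((hprim i).ne_zero (hk0 i).ne'), (hU i hi).1⟩)
    have h4 : Function.Injective fun i => T (e i) := fun i i' h => heinj (T.injective h)
    rwa [Finset.card_image_of_injective _ h4] at h3)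
  rw [Fintype.card_fin] at hA2
  -- the embeddings
  choose t β ht hβ htx using fun i => hS (k i) (hk2 i) E T (e i) (hprim i)
  have htσ : ∀ i, (t i).comp (algebraMap K E) = σ := fun i => by rw [ht, hTK]
  have hpt : ∀ (i : Fin m) (q : Fin n), ∃ c : L, t i (ι c) = B q (β i) ∧ (F.map (algebraMap K L)).eval c = v i := by
    intro i q
    have h3 : (F.map σ).eval (B q (β i)) = 2 * Complex.cos (β i) := S.Lev q _ (real_mem (hwin _ (hβ i)))
    have h4 : ((t i).comp ι) (v i) = 2 * Complex.cos (β i) := by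
      rw [RingHom.comp_apply, hval, htx]
    have h5 : (F.map (algebraMap K L) - C (v i)).map ((t i).comp ι) = F.map σ - C (2 * Complex.cos (β i)) := by
      rw [Polynomial.map_sub, Polynomial.map_C, h4, Polynomial.map_map, RingHom.comp_assoc, ← hKE, htσ]
    have h6 : ((F.map (algebraMap K L) - C (v i)).map ((t i).comp ι)).IsRoot (B q (β i)) := by
      rw [h5, IsRoot.def, eval_sub, eval_C, h3, sub_self]
    have hdC : (C (v i) : L[X]).degree < (F.map (algebraMap K L)).degree := by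
      rw [degree_eq_natDegree (hF1.map _).ne_zero, hF1.natDegree_map, hdeg]
      exact lt_of_le_of_lt degree_C_le (by exact_mod_cast (by omega : 0 < n))
    have hmon : (F.map (algebraMap K L) - C (v i)).Monic := (hF1.map _).sub_of_left hdC
    obtain ⟨c, hc⟩ := (hspl i).mem_range_of_isRoot hmon.ne_zero h6
    refine ⟨c, hc, ?_⟩
    apply ((t i).comp ι).injective
    have h7 : ((F.map (algebraMap K L)).map ((t i).comp ι)).eval (((t i).comp ι) c) =
      ((t i).comp ι) ((F.map (algebraMap K L)).eval c) := by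
      rw [eval_map ((t i).comp ι), eval₂_hom]
    rw [← h7, h4, hc, Polynomial.map_map, RingHom.comp_assoc, ← hKE, htσ, h3]
  choose c hc1 hc2 using hpt
  obtain ⟨r, hr⟩ : ∃ r, A.card = r := ⟨_, rfl⟩
  set j : Fin r → Fin m := fun i => (A.orderEmbOfFin hr i) with hj
  have hjA : ∀ i, j i ∈ A := fun i => A.orderEmbOfFin_mem hr i
  have hjinj : Function.Injective j := (A.orderEmbOfFin hr).injective
  refine ⟨r, j, fun i => c (j i) q, fun i => c (j i) q', by rwa [hr] at hA2, hjinj, fun i => ⟨hc2 _ _, hc2 _ _⟩,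
    fun a ha i => ?_⟩
  have hfd : FiniteDimensional K⟮ζ⟯ E := inferInstance
  have hcE : ∀ i q, (F.map (algebraMap K E)).eval (ι (c i q)) = e i + (e i)⁻¹ := fun i q => by
    rw [hev, hc2, hval]
  have hmp : ∀ i q, minpoly K⟮ζ⟯ (ι (c i q)) = F.map (algebraMap K K⟮ζ⟯) - C (x i) := fun i q =>
    (hdg i _ (hcE i q)).1
  have hnd : ∀ i q, (minpoly K⟮ζ⟯ (ι (c i q))).natDegree = n := fun i q => by
    rw [hmp, natDegree_sub_C, hF1.natDegree_map, hdeg]
  have hEσ : ∀ s : E →+* ℂ, s.comp (algebraMap K⟮ζ⟯ E) = (t (j i)).comp (algebraMap K⟮ζ⟯ E) →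
      s.comp (algebraMap K E) = σ := by
    intro s hs
    rw [← htσ (j i), IsScalarTower.algebraMap_eq K K⟮ζ⟯ E, ← RingHom.comp_assoc, ← RingHom.comp_assoc, hs]
  have hpair : ∀ i i' : Fin r, i ≠ i' → ∀ q q' : Fin n, ¬ Bad (F.map σ) D (T (e (j i))) (T (e (j i'))) →
      (minpoly K⟮ζ⟯⟮ι (c (j i) q)⟯ (ι (c (j i') q'))).natDegree = (minpoly K⟮ζ⟯ (ι (c (j i') q'))).natDegree := by
    intro i i' _ q q' hb
    rw [hnd]
    exact (hdg (j i') _ (hcE _ _)).2 T hTK (k (j i)) (e (j i)) (ι (c (j i) q)) (x (j i)) (hk1 _) (hprim _) (hxe _)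
      (hcE _ _) hb
  have hav := hAVG K⟮ζ⟯ E (t (j i)) (Fin r) (fun i => ι (c (j i) q)) (fun i => ι (c (j i) q')) (fun i => by
    rw [hmp, hmp]) (fun i i' hii => by
    have h3 := hA1 (j i) (hjA i) (j i') (hjA i') fun h => hii (hjinj h)
    rw [not_and_or] at h3
    rcases h3 with h3 | h3
    · left
      intro y hy z hz
      rcases hy with rfl | rfl <;> rcases hz with rfl | rfl
      all_goals exact hpair i i' hii _ _ h3
    · right
      intro y hy z hz
      rcases hy with rfl | rfl <;> rcases hz with rfl | rfl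
      all_goals exact hpair i' i hii.symm _ _ h3) (fun y => P (X' l) (Zp η) y) a (fun s hs => by
    have h3 : (s.comp ι).comp (algebraMap K L) = σ := by
      rw [RingHom.comp_assoc]
      exact hEσ s hs
    exact ha ⟨s.comp ι, h3⟩) i
  refine (mul_eq_zero.1 hav).resolve_right (sub_ne_zero.2 ?_)
  show P (X' l) (Zp η) (t (j i) (ι (c (j i) q))) ≠ P (X' l) (Zp η) (t (j i) (ι (c (j i) q')))
  rw [hc1, hc1]
  exact hne _ (hβ _)

end Pool.Agent.K9h21.GP
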