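import Pool.Agent.K9h21.GP.Stm4
import Pool.Agent.K9h21.GP.Mib

/-!
# Leaf MIB2 of project GP: critical values which are multiplicatively independent up to sign
-/

set_option autoImplicit false
set_option linter.all false

namespace Pool.Agent.K9h21.GP

open Polynomial

theorem mib2 : S_MIB2 := by
  rintro G D hMI ζ ζ' ⟨n, hn, hζ⟩ ⟨n', hn', hζ'⟩ ⟨⟨a, b⟩, hp, hb, t, ht, ⟨x, hx, hGx⟩, y, hy, hGy⟩
  dsimp only at hb hGx hGy
  have hζ0 : ζ ≠ 0 := by
    rintro rfl
    rw [zero_pow hn.ne'] at hζ
    exact zero_ne_one hζ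
  have hζ'0 : ζ' ≠ 0 := by
    rintro rfl
    rw [zero_pow hn'.ne'] at hζ'
    exact zero_ne_one hζ'
  have hta : t ^ a ≠ 0 := zpow_ne_zero _ ht
  have htb : t ^ b ≠ 0 := zpow_ne_zero _ ht
  have hα : ζ * t ^ a ≠ 0 := mul_ne_zero hζ0 hta
  have hβ : ζ' * t ^ b ≠ 0 := mul_ne_zero hζ'0 htb
  have hN : 0 < n * n' := Nat.mul_pos hn hn'
  have hu : ∀ c d : ℤ, (ζ ^ c * ζ' ^ d) ^ (n * n') = 1 := by
    intro c d
    have h1 : (ζ ^ c) ^ (n * n') = 1 := by
      rw [pow_mul, ← zpow_natCast (ζ ^ c) n, ← zpow_mul, mul_comm c, zpow_mul, zpow_natCast, hζ,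
        one_zpow, one_pow]
    have h2 : (ζ' ^ d) ^ (n * n') = 1 := by
      rw [mul_comm n, pow_mul, ← zpow_natCast (ζ' ^ d) n', ← zpow_mul, mul_comm d, zpow_mul,
        zpow_natCast, hζ', one_zpow, one_pow]
    rw [mul_pow, h1, h2, one_mul]
  -- no `α` is a root of unity
  have hno : ∀ c d : ℤ, ((ζ * t ^ a) ^ 2) ^ 2 = (ζ ^ c * ζ' ^ d) ^ 2 → False := by
    intro c d h
    have h1 := hMI x x (ζ * t ^ a) (ζ * t ^ a) hx hx hα hα hGx hGx 4 0 (n * n') hN (by
      have h4 : (ζ * t ^ a) ^ (4 : ℤ) = ((ζ * t ^ a) ^ 2) ^ 2 := by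
        rw [← pow_mul]
        norm_cast
      rw [h4, h, zpow_zero, mul_one, ← pow_mul, mul_comm 2, pow_mul, hu c d, one_pow])
    rcases h1 with ⟨h2, -⟩ | ⟨-, h2 | h2⟩
    · exact absurd h2 (by norm_num)
    · exact absurd h2 (by norm_num)
    · exact absurd h2 (by norm_num)
  have h1 := hMI x y (ζ * t ^ a) (ζ' * t ^ b) hx hy hα hβ hGx hGy b (-a) (n * n') hN (by
    have e : (ζ * t ^ a) ^ b * (ζ' * t ^ b) ^ (-a) = ζ ^ b * ζ' ^ (-a) := by
      rw [mul_zpow, mul_zpow, ← zpow_mul, ← zpow_mul]
      have e2 : t ^ (a * b) * t ^ (b * -a) = 1 := by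
        rw [← zpow_add₀ ht, show a * b + b * -a = 0 by ring, zpow_zero]
      linear_combination (ζ ^ b * ζ' ^ (-a)) * e2
    rw [e]
    exact hu b (-a))
  rcases h1 with ⟨h2, -⟩ | ⟨h2 | h2, h3⟩
  · exact absurd h2 hb
  · -- equal critical values
    left
    rw [hGx, hGy] at h2
    unfold wv at h2
    rcases MIB_add_inv hα hβ h2.symm with h4 | h4
    · rcases h3 with h3 | h3
      · exfalso
        rw [h3, zpow_neg] at h4
        apply hno 1 1
        rw [zpow_one, zpow_one]
        field_simp at h4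
        have h5 : (ζ * t ^ a) ^ 2 = ζ * ζ' := by linear_combination (-ζ) * h4
        rw [h5]
      · rw [neg_neg] at h3
        rw [h3] at h4
        have h5 := mul_right_cancel₀ hta h4
        rw [h5]
    · rcases h3 with h3 | h3
      · rw [h3, zpow_neg] at h4
        have h5 : ζ' * ζ = 1 := by
          field_simp at h4
          exact h4
        have h6 : ζ' = ζ⁻¹ := eq_inv_of_mul_eq_one_left h5
        rw [h6, inv_inv, add_comm]
      · exfalso
        rw [neg_neg] at h3
        rw [h3] at h4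
        apply hno 1 (-1)
        rw [zpow_neg, zpow_one, zpow_one]
        have h5 : (ζ * t ^ a) ^ 2 = ζ * ζ'⁻¹ := by
          field_simp
          linear_combination h4
        rw [h5]
  · -- opposite critical values
    right
    have h2' := h2
    rw [hGx, hGy] at h2
    unfold wv at h2
    have hα' : -(ζ * t ^ a) ≠ 0 := neg_ne_zero.2 hα
    have h2'' : -(ζ * t ^ a) + (-(ζ * t ^ a))⁻¹ = ζ' * t ^ b + (ζ' * t ^ b)⁻¹ := by
      rw [h2, inv_neg]
      ring
    have key : ζ' = -ζ ∨ ζ' * ζ = -1 := by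
      rcases MIB_add_inv hα' hβ h2'' with h4 | h4
      · rcases h3 with h3 | h3
        · exfalso
          rw [h3, zpow_neg] at h4
          apply hno 1 1
          rw [zpow_one, zpow_one]
          field_simp at h4
          have h5 : (ζ * t ^ a) ^ 2 = -(ζ * ζ') := by linear_combination ζ * h4
          rw [h5]
          ring
        · left
          rw [neg_neg] at h3
          rw [h3, ← neg_mul] at h4
          exact mul_right_cancel₀ hta h4
      · rcases h3 with h3 | h3
        · right
          rw [h3, zpow_neg] at h4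
          field_simp at h4
          linear_combination -h4
        · exfalso
          rw [neg_neg] at h3
          rw [h3] at h4
          apply hno 1 (-1)
          rw [zpow_neg, zpow_one, zpow_one]
          have h5 : (ζ * t ^ a) ^ 2 = -(ζ * ζ'⁻¹) := by
            field_simp
            linear_combination -h4
          rw [h5]
          ring
    refine ⟨?_, x, y, hx, hy, h2'⟩
    rcases key with h5 | h5
    · rw [h5, inv_neg]
      ring
    · have h6 : ζ' = -ζ⁻¹ := by
        field_simp
        linear_combination h5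
      rw [h6, inv_neg, inv_inv]
      ring

end Pool.Agent.K9h21.GP
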