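import Pool.Agent.K9h21.GP.Stm
import Pool.Agent.N76.RG.Tor

set_option autoImplicit false

/-!
# Project GP: torsion points on the families of factorisations
-/

namespace Pool.Agent.K9h21.GP

open Polynomial
open Pool.Agent.N76.RG (RU)
open Pool.Agent.N76.RG.Tor (Rt)

namespace Pair

open Finset Pool.Agent.N695.CY

/-- torsion points: the coordinate `j₀` is in a finite set or the equations hold on the coset of a one-parameter group
through the point which moves the coordinate `j₀`; the directions are from a finite set -/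
theorem stru {J Φ : Type} [Fintype J] [DecidableEq J] [Fintype Φ] (G : Φ → MvPolynomial J ℂ) (j₀ : J) :
    ∃ (Z : Set ℂ) (D : Set (J → ℤ)), Z.Finite ∧ D.Finite ∧ ∀ z : J → ℂ, (∀ j, Rt (z j)) →
      (∀ F, MvPolynomial.eval z (G F) = 0) → z j₀ ∉ Z →
      ∃ k ∈ D, k j₀ ≠ 0 ∧ ∀ t : ℂ, t ≠ 0 → ∀ F, MvPolynomial.eval (fun j => z j * t ^ k j) (G F) = 0 := by
  obtain ⟨C, hC, h1, h2⟩ := structure_thm G
  refine ⟨(fun c : (J → ℂ) × (J → J → ℤ) => c.1 j₀) '' C, ⋃ a : J, (fun c : (J → ℂ) × (J → J → ℤ) => c.2 a) '' C,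
    hC.image _, Set.finite_iUnion fun a => hC.image _, fun z hz hG hZ => ?_⟩
  choose n hn hzn using hz
  have hsol : IsSol z := by
    refine ⟨2, 0, z, ∏ j, n j, by norm_num, by norm_num, prod_pos fun j _ => hn j, fun j => ?_, fun j => ?_⟩
    · rw [← prod_erase_mul univ n (mem_univ j), mul_comm, pow_mul, hzn, one_pow]
    · simp
  obtain ⟨c, hc, σ, hσ, hzc⟩ := h2 z hsol hG
  have hex : ∃ a, c.2 a j₀ ≠ 0 := by
    by_contra hcon
    push Not at hcon
    apply hZ
    refine ⟨c, hc, ?_⟩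
    rw [hzc j₀]
    simp [hcon]
  obtain ⟨a, ha⟩ := hex
  refine ⟨c.2 a, Set.mem_iUnion.2 ⟨a, c, hc, rfl⟩, ha, fun t ht F => ?_⟩
  have h3 := (h1 c hc).2 (fun b => if b = a then σ b * t else σ b) (fun b => by
    split_ifs
    · exact mul_ne_zero (hσ b) ht
    · exact hσ b) F
  have h4 : (fun j => z j * t ^ c.2 a j) =
      fun j => c.1 j * ∏ b, (if b = a then σ b * t else σ b) ^ c.2 b j := by
    funext j
    rw [hzc j, mul_assoc]
    congr 1
    have h5 : ∀ b, (if b = a then σ b * t else σ b) ^ c.2 b j =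
        σ b ^ c.2 b j * (if b = a then t ^ c.2 b j else 1) := by
      intro b
      split_ifs
      · rw [mul_zpow]
      · rw [mul_one]
    rw [prod_congr rfl fun b _ => h5 b, prod_mul_distrib, prod_ite_eq' univ a]
    simp
  rw [h4]
  exact h3

/-- the coordinates: `false`: `ζ`, `true`: `ζ'`, with their inverses, and the numbers `z` -/
abbrev Co (r r' D M : ℕ) : Type := (Bool × Bool) ⊕ ((Fin r ⊕ Fin r') × Fin D × Fin M)

variable {r r' D M : ℕ}

/-- the coefficient `∑ θ_s z_s` -/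
noncomputable def cf (θ : (Fin r ⊕ Fin r') × Fin D × Fin M → ℂ) (m : Fin r ⊕ Fin r') (i : Fin D) :
    MvPolynomial (Co r r' D M) ℂ :=
  ∑ s, MvPolynomial.C (θ (m, i, s)) * MvPolynomial.X (Sum.inr (m, i, s))

/-- the value `ζ + ζ⁻¹` -/
noncomputable def va (r r' D M : ℕ) (b : Bool) : MvPolynomial (Co r r' D M) ℂ :=
  MvPolynomial.X (Sum.inl (b, false)) + MvPolynomial.X (Sum.inl (b, true))

/-- the polynomial `G₁ - (ζ + ζ⁻¹)` -/
noncomputable def fh (G₁ : ℂ[X]) (r r' D M : ℕ) : (MvPolynomial (Co r r' D M) ℂ)[X] :=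
  G₁.map MvPolynomial.C - C (va r r' D M false)

/-- the first factor -/
noncomputable def Tp (G₁ : ℂ[X]) (θ : (Fin r ⊕ Fin r') × Fin D × Fin M → ℂ) (V : ℂ) :
    (MvPolynomial (Co r r' D M) ℂ)[X] :=
  ∑ m : Fin r, (∑ i : Fin D, C (cf θ (Sum.inl m) i) * X ^ (i : ℕ)) * C (MvPolynomial.C (V ^ (m : ℕ))) +
    (derivative G₁).map MvPolynomial.C * C (MvPolynomial.C (V ^ r))

/-- the second factor -/
noncomputable def Tq (G₁ : ℂ[X]) (θ : (Fin r ⊕ Fin r') × Fin D × Fin M → ℂ) (V : ℂ) :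
    (MvPolynomial (Co r r' D M) ℂ)[X] :=
  ∑ m : Fin r', (∑ i : Fin D, C (cf θ (Sum.inr m) i) * X ^ (i : ℕ)) * C (MvPolynomial.C (V ^ (m : ℕ))) +
    (derivative G₁).map MvPolynomial.C * C (MvPolynomial.C (V ^ r'))

/-- the difference of the two sides -/
noncomputable def Ps (G₁ G : ℂ[X]) (θ : (Fin r ⊕ Fin r') × Fin D × Fin M → ℂ) (V : ℂ) :
    (MvPolynomial (Co r r' D M) ℂ)[X] :=
  Tp G₁ θ V * Tq G₁ θ V - (derivative G₁).map MvPolynomial.C ^ 2 *
    (C (MvPolynomial.C (G.eval V)) - C (va r r' D M true))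

theorem map_C_eval (G₁ : ℂ[X]) (v : Co r r' D M → ℂ) :
    (G₁.map (MvPolynomial.C : ℂ →+* MvPolynomial (Co r r' D M) ℂ)).map (MvPolynomial.eval v) = G₁ := by
  rw [Polynomial.map_map]
  have : (MvPolynomial.eval v).comp MvPolynomial.C = RingHom.id ℂ := by
    ext x
    simp
  rw [this, Polynomial.map_id]

theorem va_eval (v : Co r r' D M → ℂ) (b : Bool) :
    MvPolynomial.eval v (va r r' D M b) = v (Sum.inl (b, false)) + v (Sum.inl (b, true)) := by
  simp [va]

theorem cf_eval (θ : (Fin r ⊕ Fin r') × Fin D × Fin M → ℂ) (v : Co r r' D M → ℂ) (m : Fin r ⊕ Fin r') (i : Fin D) :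
    MvPolynomial.eval v (cf θ m i) = ∑ s, θ (m, i, s) * v (Sum.inr (m, i, s)) := by
  simp [cf]

theorem fh_map (G₁ : ℂ[X]) (v : Co r r' D M → ℂ) :
    (fh G₁ r r' D M).map (MvPolynomial.eval v) = G₁ - C (v (Sum.inl (false, false)) + v (Sum.inl (false, true))) := by
  rw [fh, Polynomial.map_sub, map_C_eval, Polynomial.map_C, va_eval]

theorem Tp_map (G₁ : ℂ[X]) (θ : (Fin r ⊕ Fin r') × Fin D × Fin M → ℂ) (V : ℂ) (v : Co r r' D M → ℂ) (x : ℂ) :
    ((Tp G₁ θ V).map (MvPolynomial.eval v)).eval x =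
      Th (fun m i => ∑ s, θ (Sum.inl m, i, s) * v (Sum.inr (Sum.inl m, i, s))) (derivative G₁) x V := by
  unfold Tp Th
  rw [Polynomial.map_add, Polynomial.map_sum, Polynomial.map_mul, map_C_eval]
  simp only [Polynomial.map_mul, Polynomial.map_sum, Polynomial.map_C, Polynomial.map_pow, Polynomial.map_X, eval_add,
    eval_mul, eval_finsetSum, eval_C, eval_pow, eval_X, cf_eval, MvPolynomial.eval_C]

theorem Tq_map (G₁ : ℂ[X]) (θ : (Fin r ⊕ Fin r') × Fin D × Fin M → ℂ) (V : ℂ) (v : Co r r' D M → ℂ) (x : ℂ) :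
    ((Tq G₁ θ V).map (MvPolynomial.eval v)).eval x =
      Th (fun m i => ∑ s, θ (Sum.inr m, i, s) * v (Sum.inr (Sum.inr m, i, s))) (derivative G₁) x V := by
  unfold Tq Th
  rw [Polynomial.map_add, Polynomial.map_sum, Polynomial.map_mul, map_C_eval]
  simp only [Polynomial.map_mul, Polynomial.map_sum, Polynomial.map_C, Polynomial.map_pow, Polynomial.map_X, eval_add,
    eval_mul, eval_finsetSum, eval_C, eval_pow, eval_X, cf_eval, MvPolynomial.eval_C]

theorem Ps_map (G₁ G : ℂ[X]) (θ : (Fin r ⊕ Fin r') × Fin D × Fin M → ℂ) (V : ℂ) (v : Co r r' D M → ℂ) (x : ℂ) :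
    ((Ps G₁ G θ V).map (MvPolynomial.eval v)).eval x =
      Th (fun m i => ∑ s, θ (Sum.inl m, i, s) * v (Sum.inr (Sum.inl m, i, s))) (derivative G₁) x V *
      Th (fun m i => ∑ s, θ (Sum.inr m, i, s) * v (Sum.inr (Sum.inr m, i, s))) (derivative G₁) x V -
      (derivative G₁).eval x ^ 2 * (G.eval V - (v (Sum.inl (true, false)) + v (Sum.inl (true, true)))) := by
  unfold Ps
  rw [Polynomial.map_sub, Polynomial.map_mul, Polynomial.map_mul, Polynomial.map_pow, map_C_eval, eval_sub, eval_mul,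
    Tp_map, Tq_map, eval_mul, eval_pow, Polynomial.map_sub, Polynomial.map_C, Polynomial.map_C, MvPolynomial.eval_C,
    va_eval, eval_sub, eval_C, eval_C]

/-- vanishing at the simple roots -/
theorem dvd_of_roots {f p : ℂ[X]} (hf : f.Monic) (hs : ∀ x, f.eval x = 0 → (derivative f).eval x ≠ 0)
    (h : ∀ x, f.eval x = 0 → p.eval x = 0) : f ∣ p := by
  rcases eq_or_ne p 0 with rfl | hp
  · exact dvd_zero f
  have hspl : f.Splits := IsAlgClosed.splits f
  rw [hspl.dvd_iff_roots_le_roots hf.ne_zero hp]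
  rw [Multiset.le_iff_subset]
  · intro x hx
    rw [mem_roots hf.ne_zero] at hx
    rw [mem_roots hp]
    exact h x hx
  · refine nodup_roots ?_
    rw [separable_def, isCoprime_iff_aeval_ne_zero_of_isAlgClosed ℂ ℂ]
    intro x
    by_cases hx : f.eval x = 0
    · right
      simpa using hs x hx
    · left
      simpa using hx

/-- `Th` as a polynomial in `V` -/
noncomputable def ThP {r D : ℕ} (c : Fin r → Fin D → ℂ) (d : ℂ[X]) (x : ℂ) : ℂ[X] :=
  (∑ m : Fin r, C (∑ i, c m i * x ^ (i : ℕ)) * X ^ (m : ℕ)) + C (d.eval x) * X ^ r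

theorem ThP_eval {r D : ℕ} (c : Fin r → Fin D → ℂ) (d : ℂ[X]) (x V : ℂ) : (ThP c d x).eval V = Th c d x V := by
  unfold ThP Th
  simp only [eval_add, eval_mul, eval_finsetSum, eval_C, eval_pow, eval_X]

theorem ThP_deg {r D : ℕ} (c : Fin r → Fin D → ℂ) (d : ℂ[X]) (x : ℂ) : (ThP c d x).natDegree ≤ r := by
  unfold ThP
  refine natDegree_add_le_of_degree_le (natDegree_sum_le_of_forall_le _ _ fun m _ => ?_) (natDegree_C_mul_X_pow_le _ _)
  exact (natDegree_C_mul_X_pow_le _ _).trans m.2.le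

/-- the identity for enough values of `V` -/
theorem all_V {r r' D : ℕ} {G : ℂ[X]} (hG : G.natDegree = r + r') (c : Fin r → Fin D → ℂ) (c' : Fin r' → Fin D → ℂ)
    (d : ℂ[X]) (x w' : ℂ) (h : ∀ V : Fin (r + r' + 1), Th c d x (V : ℕ) * Th c' d x (V : ℕ) =
      d.eval x ^ 2 * (G.eval ((V : ℕ) : ℂ) - w')) (V : ℂ) :
    Th c d x V * Th c' d x V = d.eval x ^ 2 * (G.eval V - w') := by
  have h0 : ThP c d x * ThP c' d x - C (d.eval x ^ 2) * (G - C w') = 0 := by
    refine eq_zero_of_natDegree_lt_card_of_eval_eq_zero _ (ι := Fin (r + r' + 1)) (f := fun V => ((V : ℕ) : ℂ))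
      (fun a b hab => Fin.ext (Nat.cast_injective hab)) (fun V => ?_) ?_
    · rw [eval_sub, eval_mul, ThP_eval, ThP_eval, eval_mul, eval_C, eval_sub, eval_C, h V, sub_self]
    · rw [Fintype.card_fin, Nat.lt_succ_iff]
      refine (natDegree_sub_le _ _).trans (max_le ?_ ?_)
      · exact natDegree_mul_le.trans (add_le_add (ThP_deg c d x) (ThP_deg c' d x))
      · refine (natDegree_C_mul_le _ _).trans ?_
        rw [natDegree_sub_C, hG]
  have h1 := congrArg (fun p : ℂ[X] => p.eval V) h0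
  simp only [eval_sub, eval_mul, ThP_eval, eval_C, eval_zero] at h1
  exact sub_eq_zero.1 h1

theorem base (hGEO : S_GEO) (G₁ G : ℂ[X]) (n₁ r r' D M : ℕ) (hG₁ : G₁.Monic) (hn₁ : G₁.natDegree = n₁) (hn0 : 0 < n₁)
    (hG : G.Monic) (hn : G.natDegree = r + r') (hr : 0 < r) (hr' : 0 < r')
    (hcr : ∀ x, (derivative G).eval x = 0 → (G.eval x) ^ 2 ≠ 4)
    (θ : (Fin r ⊕ Fin r') × Fin D × Fin M → ℂ) :
    ∃ (Z : Set ℂ) (Di : Set (ℤ × ℤ)), Z.Finite ∧ Di.Finite ∧ ∀ ζ ζ' : ℂ, Rt ζ → Rt ζ' → ζ' ∉ Z →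
      (∀ x, G₁.eval x = ζ + ζ⁻¹ → (derivative G₁).eval x ≠ 0) →
      ∀ z : (Fin r ⊕ Fin r') × Fin D × Fin M → ℂ, (∀ j, Rt (z j)) →
      (∀ x V : ℂ, G₁.eval x = ζ + ζ⁻¹ →
        Th (fun m i => ∑ s, θ (Sum.inl m, i, s) * z (Sum.inl m, i, s)) (derivative G₁) x V *
        Th (fun m i => ∑ s, θ (Sum.inr m, i, s) * z (Sum.inr m, i, s)) (derivative G₁) x V =
          (derivative G₁).eval x ^ 2 * (G.eval V - (ζ' + ζ'⁻¹))) →
      ∃ p ∈ Di, p.2 ≠ 0 ∧ ∃ t : ℂ, t ≠ 0 ∧ (∃ x, (derivative G₁).eval x = 0 ∧ G₁.eval x = wv ζ p.1 t) ∧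
        ∃ y, (derivative G).eval y = 0 ∧ G.eval y = wv ζ' p.2 t := by
  classical
  have hfm : (fh G₁ r r' D M).Monic := by
    unfold fh
    refine (hG₁.map _).sub_of_left ?_
    rw [degree_eq_natDegree (hG₁.map _).ne_zero, hG₁.natDegree_map, hn₁]
    exact lt_of_le_of_lt degree_C_le (by exact_mod_cast hn0)
  have hfd : ∀ v : Co r r' D M → ℂ, ((fh G₁ r r' D M).map (MvPolynomial.eval v)).natDegree = n₁ := fun v => by
    rw [fh_map, natDegree_sub_C, hn₁]
  obtain ⟨Z, Di, hZ, hDi, H⟩ := stru (J := Co r r' D M) (Φ := (Fin (r + r' + 1) × Fin n₁) ⊕ Bool)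
    (Sum.elim (fun q => (Ps G₁ G θ ((q.1 : ℕ) : ℂ) %ₘ fh G₁ r r' D M).coeff q.2)
      fun b => MvPolynomial.X (Sum.inl (b, false)) * MvPolynomial.X (Sum.inl (b, true)) - 1)
    (Sum.inl (true, false))
  have key : ∀ (v : Co r r' D M → ℂ) (V : ℂ) (i : ℕ),
      MvPolynomial.eval v ((Ps G₁ G θ V %ₘ fh G₁ r r' D M).coeff i) =
        ((Ps G₁ G θ V).map (MvPolynomial.eval v) %ₘ (fh G₁ r r' D M).map (MvPolynomial.eval v)).coeff i := by
    intro v V i
    rw [← Polynomial.map_modByMonic _ hfm, coeff_map]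
  refine ⟨Z, (fun k : Co r r' D M → ℤ => (k (Sum.inl (false, false)), k (Sum.inl (true, false)))) '' Di, hZ,
    hDi.image _, fun ζ ζ' hζ hζ' hζZ hnc z hz hid => ?_⟩
  set v : Co r r' D M → ℂ := Sum.elim (fun b => if b.2 = true then (if b.1 = true then ζ' else ζ)⁻¹ else
    (if b.1 = true then ζ' else ζ)) z with hv
  obtain ⟨k, hk, hk0, hkt⟩ := H v (by
    have hinv : ∀ y : ℂ, Rt y → Rt y⁻¹ := by
      rintro y ⟨n, hn, hy⟩
      exact ⟨n, hn, by rw [inv_pow, hy, inv_one]⟩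
    rintro (⟨b, b'⟩ | j)
    · rcases b with _ | _ <;> rcases b' with _ | _
      · exact hζ
      · exact hinv _ hζ
      · exact hζ'
      · exact hinv _ hζ'
    · exact hz j) (by
    rintro (⟨V, i⟩ | b)
    · show MvPolynomial.eval v ((Ps G₁ G θ ((V : ℕ) : ℂ) %ₘ fh G₁ r r' D M).coeff i) = 0
      rw [key]
      have h1 : (fh G₁ r r' D M).map (MvPolynomial.eval v) ∣ (Ps G₁ G θ ((V : ℕ) : ℂ)).map (MvPolynomial.eval v) := by
        have e1 : (fh G₁ r r' D M).map (MvPolynomial.eval v) = G₁ - C (ζ + ζ⁻¹) := fh_map G₁ v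
        refine dvd_of_roots (hfm.map _) (fun x hx => ?_) fun x hx => ?_
        · rw [e1, eval_sub, eval_C, sub_eq_zero] at hx
          rw [e1, derivative_sub, derivative_C, sub_zero]
          exact hnc x hx
        · rw [e1, eval_sub, eval_C, sub_eq_zero] at hx
          rw [Ps_map]
          exact sub_eq_zero.2 (hid x _ hx)
      rw [(modByMonic_eq_zero_iff_dvd (hfm.map _)).2 h1, coeff_zero]
    · show MvPolynomial.eval v (MvPolynomial.X (Sum.inl (b, false)) * MvPolynomial.X (Sum.inl (b, true)) - 1) = 0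
      rw [map_sub, map_mul, MvPolynomial.eval_X, MvPolynomial.eval_X, map_one, sub_eq_zero]
      rcases b with _ | _
      · exact mul_inv_cancel₀ hζ.ne
      · exact mul_inv_cancel₀ hζ'.ne) hζZ
  have hinv : ∀ t : ℂ, t ≠ 0 → ∀ b : Bool, v (Sum.inl (b, true)) * t ^ k (Sum.inl (b, true)) =
      (v (Sum.inl (b, false)) * t ^ k (Sum.inl (b, false)))⁻¹ := by
    intro t ht b
    have h1 := hkt t ht (Sum.inr b)
    have h2 : MvPolynomial.eval (fun j => v j * t ^ k j)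
      (MvPolynomial.X (Sum.inl (b, false)) * MvPolynomial.X (Sum.inl (b, true)) - 1) = 0 := h1
    rw [map_sub, map_mul, MvPolynomial.eval_X, MvPolynomial.eval_X, map_one, sub_eq_zero] at h2
    exact eq_inv_of_mul_eq_one_right h2
  refine ⟨_, ⟨k, hk, rfl⟩, hk0, ?_⟩
  refine hGEO G₁ G n₁ r r' ζ ζ' (k (Sum.inl (false, false))) (k (Sum.inl (true, false))) hG₁ hn₁ hn0 hG hn hr hr' hζ.ne
    hζ'.ne hk0 hcr D (fun m i t => ∑ s, θ (Sum.inl m, i, s) * (z (Sum.inl m, i, s) * t ^ k (Sum.inr (Sum.inl m, i, s))))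
    (fun m i t => ∑ s, θ (Sum.inr m, i, s) * (z (Sum.inr m, i, s) * t ^ k (Sum.inr (Sum.inr m, i, s)))) ?_ ?_ ?_
  · intro m i
    refine DifferentiableOn.fun_sum fun s _ => ?_
    refine (DifferentiableOn.const_mul ?_ _)
    refine DifferentiableOn.const_mul ?_ _
    intro t ht
    exact (differentiableAt_zpow.2 (Or.inl ht)).differentiableWithinAt
  · intro m i
    refine DifferentiableOn.fun_sum fun s _ => ?_
    refine (DifferentiableOn.const_mul ?_ _)
    refine DifferentiableOn.const_mul ?_ _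
    intro t ht
    exact (differentiableAt_zpow.2 (Or.inl ht)).differentiableWithinAt
  · intro t ht x hx V
    refine all_V hn _ _ _ _ _ (fun V => ?_) V
    set v' : Co r r' D M → ℂ := fun j => v j * t ^ k j with hv'
    have e1 : v' (Sum.inl (false, false)) + v' (Sum.inl (false, true)) = wv ζ (k (Sum.inl (false, false))) t := by
      show v (Sum.inl (false, false)) * t ^ k (Sum.inl (false, false)) +
        v (Sum.inl (false, true)) * t ^ k (Sum.inl (false, true)) = _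
      rw [hinv t ht false]
      rfl
    have e2 : v' (Sum.inl (true, false)) + v' (Sum.inl (true, true)) = wv ζ' (k (Sum.inl (true, false))) t := by
      show v (Sum.inl (true, false)) * t ^ k (Sum.inl (true, false)) +
        v (Sum.inl (true, true)) * t ^ k (Sum.inl (true, true)) = _
      rw [hinv t ht true]
      rfl
    have h1 : (Ps G₁ G θ ((V : ℕ) : ℂ)).map (MvPolynomial.eval v') %ₘ (fh G₁ r r' D M).map (MvPolynomial.eval v') = 0 := by
      ext i
      rw [coeff_zero]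
      by_cases hi : i < n₁
      · rw [← key]
        exact hkt t ht (Sum.inl (V, ⟨i, hi⟩))
      · refine coeff_eq_zero_of_natDegree_lt ?_
        have h2 := natDegree_modByMonic_lt ((Ps G₁ G θ ((V : ℕ) : ℂ)).map (MvPolynomial.eval v')) (hfm.map
          (MvPolynomial.eval v')) (by
          intro h3
          have h4 := hfd v'
          rw [h3, natDegree_one] at h4
          omega)
        rw [hfd v'] at h2
        omega
    rw [modByMonic_eq_zero_iff_dvd (hfm.map _)] at h1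
    obtain ⟨q, hq⟩ := h1
    have h2 := Ps_map G₁ G θ ((V : ℕ) : ℂ) v' x
    rw [hq, eval_mul, fh_map, eval_sub, eval_C, e1, hx, sub_self, zero_mul, e2] at h2
    exact (sub_eq_zero.1 h2.symm)

end Pair

/-- **PAIR: torsion points on the families of factorisations** -/
theorem pair (hGEO : S_GEO) (G₁ G : ℂ[X]) (n₁ r r' D M : ℕ) (hG₁ : G₁.Monic) (hn₁ : G₁.natDegree = n₁) (hn0 : 0 < n₁)
    (hG : G.Monic) (hn : G.natDegree = r + r') (hr : 0 < r) (hr' : 0 < r')
    (hcr : ∀ x, (derivative G).eval x = 0 → (G.eval x) ^ 2 ≠ 4) (θ : Fin M → ℂ) :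
    ∃ (Z : Set ℂ) (Di : Set (ℤ × ℤ)), Z.Finite ∧ Di.Finite ∧ ∀ ζ ζ' : ℂ, Rt ζ → Rt ζ' → ζ' ∉ Z →
      (∀ x, G₁.eval x = ζ + ζ⁻¹ → (derivative G₁).eval x ≠ 0) →
      ∀ (z : Fin r → Fin D → Fin M → ℂ) (z' : Fin r' → Fin D → Fin M → ℂ), (∀ m i s, RU (z m i s)) →
      (∀ m i s, RU (z' m i s)) →
      (∀ x V : ℂ, G₁.eval x = ζ + ζ⁻¹ →
        Th (fun m i => ∑ s, θ s * z m i s) (derivative G₁) x V *
        Th (fun m i => ∑ s, θ s * z' m i s) (derivative G₁) x V =
          (derivative G₁).eval x ^ 2 * (G.eval V - (ζ' + ζ'⁻¹))) →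
      ∃ p ∈ Di, p.2 ≠ 0 ∧ ∃ t : ℂ, t ≠ 0 ∧ (∃ x, (derivative G₁).eval x = 0 ∧ G₁.eval x = wv ζ p.1 t) ∧
        ∃ y, (derivative G).eval y = 0 ∧ G.eval y = wv ζ' p.2 t := by
  classical
  choose Z Di hZ hDi H using fun A : Finset ((Fin r ⊕ Fin r') × Fin D × Fin M) =>
    Pair.base hGEO G₁ G n₁ r r' D M hG₁ hn₁ hn0 hG hn hr hr' hcr fun j => if j ∈ A then θ j.2.2 else 0
  refine ⟨⋃ A, Z A, ⋃ A, Di A, Set.finite_iUnion hZ, Set.finite_iUnion hDi,
    fun ζ ζ' hζ hζ' hζZ hnc z z' hz hz' hid => ?_⟩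
  set w : (Fin r ⊕ Fin r') × Fin D × Fin M → ℂ :=
    fun j => Sum.elim (fun m => z m j.2.1 j.2.2) (fun m => z' m j.2.1 j.2.2) j.1 with hw
  have hwR : ∀ j, RU (w j) := by
    rintro ⟨m | m, i, s⟩
    · exact hz m i s
    · exact hz' m i s
  set A : Finset ((Fin r ⊕ Fin r') × Fin D × Fin M) := Finset.univ.filter fun j => w j ≠ 0 with hA
  have hmul : ∀ j, (if j ∈ A then θ j.2.2 else 0) * (if w j = 0 then 1 else w j) = θ j.2.2 * w j := by
    intro j
    by_cases h : w j = 0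
    · have h1 : j ∉ A := by
        rw [hA, Finset.mem_filter]
        exact fun h2 => h2.2 h
      rw [if_neg h1, h, zero_mul, mul_zero]
    · have h1 : j ∈ A := by
        rw [hA, Finset.mem_filter]
        exact ⟨Finset.mem_univ _, h⟩
      rw [if_pos h1, if_neg h]
  obtain ⟨p, hp, h2⟩ := H A ζ ζ' hζ hζ' (fun h => hζZ (Set.mem_iUnion.2 ⟨A, h⟩)) hnc (fun j => if w j = 0 then 1 else w j)
    (fun j => by
      by_cases h : w j = 0
      · simp only [if_pos h]
        exact ⟨1, one_pos, one_pow 1⟩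
      · simp only [if_neg h]
        exact (hwR j).resolve_left h) (fun x V hx => by
      rw [← hid x V hx]
      congr 2
      · funext m i
        exact Finset.sum_congr rfl fun s _ => hmul (Sum.inl m, i, s)
      · funext m i
        exact Finset.sum_congr rfl fun s _ => hmul (Sum.inr m, i, s))
  exact ⟨p, Set.mem_iUnion.2 ⟨A, hp⟩, h2⟩

end Pool.Agent.K9h21.GP
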