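import Pool.Agent.K9h21.GP.Geo
import Pool.Agent.K9h21.GP.Stm4

set_option autoImplicit false

/-!
# Project GPM: Morse polynomials. Statements which need only Mathlib (and `Geo.lean`).

For a Morse polynomial `G` a factorisation of `G(V) - w'(t)` over the field of the functions on `G(x) = w(t)` is only possible
if `w' = ± w`.
-/

namespace Pool.Agent.K9h21.GP

open Polynomial Filter Topology

/-- Morse polynomials: simple critical points, different critical values -/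
def Morse (G : ℂ[X]) : Prop :=
  (∀ x, (derivative G).eval x = 0 → (derivative (derivative G)).eval x ≠ 0) ∧
  ∀ x y, (derivative G).eval x = 0 → (derivative G).eval y = 0 → G.eval x = G.eval y → x = y

/-- the hypotheses on the factorisation (those of `S_GEO` for `G₁ = G`, `a, b > 0`, and `G` Morse) -/
structure FacM (G : ℂ[X]) (r r' : ℕ) (α α' : ℂ) (a b : ℤ) (D : ℕ) (c : Fin r → Fin D → ℂ → ℂ)
    (c' : Fin r' → Fin D → ℂ → ℂ) : Prop where
  mo : G.Monic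
  deg : G.natDegree = r + r'
  hr : 0 < r
  hr' : 0 < r'
  hα : α ≠ 0
  hα' : α' ≠ 0
  ha : 0 < a
  hb : 0 < b
  cr : ∀ x, (derivative G).eval x = 0 → (G.eval x) ^ 2 ≠ 4
  morse : Morse G
  dc : ∀ m i, DifferentiableOn ℂ (c m i) {0}ᶜ
  dc' : ∀ m i, DifferentiableOn ℂ (c' m i) {0}ᶜ
  fac : ∀ t : ℂ, t ≠ 0 → ∀ x : ℂ, G.eval x = wv α a t → ∀ V : ℂ,
    Th (fun m i => c m i t) (derivative G) x V * Th (fun m i => c' m i t) (derivative G) x V =
      (derivative G).eval x ^ 2 * (G.eval V - wv α' b t)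

/-- the resultant `|Res(Q, S)|` of the two monic factors of `G - w'(t)` at the root `x` (as in `Geo.lean`) -/
noncomputable def rho (G : ℂ[X]) {r r' D : ℕ} (c : Fin r → Fin D → ℂ → ℂ) (c' : Fin r' → Fin D → ℂ → ℂ) (t x : ℂ) : ℝ :=
  GEO_.pr (C ((derivative G).eval x)⁻¹ * GEO_.pol (fun m => ∑ i, c m i t * x ^ (i : ℕ)) ((derivative G).eval x))
    (C ((derivative G).eval x)⁻¹ * GEO_.pol (fun m => ∑ i, c' m i t * x ^ (i : ℕ)) ((derivative G).eval x))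

/-- LOC: the local estimate at a common branch point `s`.

Proof. Let `w(t) = wv α a t`, `w'(t) = wv α' b t`. Both derivatives are `≠ 0` at `s` (`w(s)² ≠ 4`, see `nonvan` in `Geo2.lean`), so
`|w(t) - w(s)| ≥ c |t - s|`, also for `w'`.
(a) For `t` near `s`, `t ≠ s` (then `t ∉ Br`) and all roots `x` of `G - w(t)`: `ρ(t,x)^(2n) ≥ Lam(w'(t)) ≥ c |t - s|^n` (`hρlow` in
`Geo.lean`; in `Pi0(w'(t)) = ∏_y |G(y) - w'(t)|` only the factor of `y₀` is small, by Morse). So `ρ(t,x) ≥ c |t - s|^(1/2)`.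
(b) For a root `x* ≠ x₀` of `G - w(s)`, `G'(x*) ≠ 0` (Morse), one has `ρ(t,x) ≥ c` for `(t,x)` near `(s,x*)`: `ρ(t,x) |G'(x)|^n` is the norm
of the resultant, which is continuous in `(t,x)` (`hRev`, `res_norm` in `Geo.lean`) and not `0` at `(s,x*)` by `nonvan`.
(c) For `x` near `x₀` with `G(x) = w(t)`: `|G'(x)|² ≤ C |x - x₀|² ≤ C' |G(x) - G(x₀)| = C' |w(t) - w(s)| ≤ C'' |t - s|` (as `G''(x₀) ≠ 0`).
So `ρ(t,x) ≥ c |G'(x)|` for all roots `x` of `G - w(t)`, `t` near `s` (each root is near a root of `G - w(s)`, since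
`∏_j |x - x_j| = |G(x) - w(s)| = |w(t) - w(s)|`). (d) `∏_x |G'(x)| = n^n Pi0(w(t)) ≥ c |t - s|` (`crit` in `Geo1.lean`, and as in (a)). -/
def S_LOC : Prop := ∀ (G : ℂ[X]) (r r' : ℕ) (α α' : ℂ) (a b : ℤ) (D : ℕ) (c : Fin r → Fin D → ℂ → ℂ)
    (c' : Fin r' → Fin D → ℂ → ℂ), FacM G r r' α α' a b D c c' → ∀ (s x₀ y₀ : ℂ), s ≠ 0 →
  (derivative G).eval x₀ = 0 → G.eval x₀ = wv α a s → (derivative G).eval y₀ = 0 → G.eval y₀ = wv α' b s →
  ∃ κ : ℝ, 0 < κ ∧ ∀ᶠ t in 𝓝[≠] s, κ * ‖t - s‖ ≤ ((G - C (wv α a t)).roots.map fun x => rho G c c' t x).prod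

/-- CNT: counting the common branch points (with `S_LOC` as a hypothesis).

Proof: that of `geo` (in `Geo.lean`), with `H` replaced by `M H`, where `M(t) = ∏_y (G(y) - w(t))` or `M(t) = ∏_y (G(y) - w'(t))`, the
product over the critical points `y` of `G`. `|M H| = |M| / ∏_x ρ(t,x)`. Near `s ∈ Br` with `w'(s)` not critical: bounded as in `geo`.
Near `s ∈ Br` with `w'(s)` critical: `|M(t)| ≤ C |t - s|`, as `M` is analytic with `M(s) = 0`; so bounded by `S_LOC`. For large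
`|w|`: `Lam(w) ≥ c |w|^(2 r r')` (refine `Lam_large`: `(n-1) n - e = 2 r r'`), so `∏_x ρ(t,x) ≥ c |w'(t)|^(r r') ≥ c' |t|^(b r r')` at `∞`,
`≥ c' |t|^(-b r r')` at `0`; `|M(t)| ≤ C |t|^(±a (n-1))`, `≤ C |t|^(±b (n-1))`. So (Liouville, `removal` in `Geo2.lean`)
`b r r' ≤ a (n-1)` and `b r r' ≤ b (n-1)`, `n = r + r'`: `(r-1)(r'-1) ≤ 0`, and `r r' = n - 1` gives `b ≤ a`. -/
def S_CNT : Prop := ∀ (G : ℂ[X]) (r r' : ℕ) (α α' : ℂ) (a b : ℤ) (D : ℕ) (c : Fin r → Fin D → ℂ → ℂ)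
    (c' : Fin r' → Fin D → ℂ → ℂ), FacM G r r' α α' a b D c c' → (r = 1 ∨ r' = 1) ∧ b ≤ a

/-- SUM: sums over the roots are analytic.

Proof. The roots `x_k` of `G - w(t₁)` are simple; let `ψ_k` be the local inverse of `G` at `x_k` (`HasStrictDerivAt.localInverse`, as in
`nonvan` of `Geo2.lean`). For `t` near `t₁` the `n` numbers `ψ_k(w(t))` are different roots of `G - w(t)`, so these are all roots
(`roots` = image of the finset as a multiset; the cardinality is `n`), and the sum is `∑_k F(t, ψ_k(w(t)))`. -/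
def S_SUM : Prop := ∀ (G : ℂ[X]) (w : ℂ → ℂ) (t₁ : ℂ) (F : ℂ → ℂ → ℂ), G.Monic → 0 < G.natDegree → DifferentiableAt ℂ w t₁ →
  (∀ x, G.eval x = w t₁ → (derivative G).eval x ≠ 0) →
  (∀ x, G.eval x = w t₁ → DifferentiableAt ℂ (fun p : ℂ × ℂ => F p.1 p.2) (t₁, x)) →
  DifferentiableAt ℂ (fun t => ((G - C (w t)).roots.map fun x => F t x).sum) t₁

/-- the hypotheses on a root `y = - (∑ c_i(t) x^i) / G'(x)` of `G - w'(t)` -/
structure RootM (G : ℂ[X]) (n : ℕ) (α α' : ℂ) (a b : ℤ) (D : ℕ) (c : Fin D → ℂ → ℂ) : Prop where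
  mo : G.Monic
  deg : G.natDegree = n
  hn : 2 ≤ n
  hα : α ≠ 0
  hα' : α' ≠ 0
  hb : 0 < b
  hab : b ≤ a
  cr : ∀ x, (derivative G).eval x = 0 → (G.eval x) ^ 2 ≠ 4
  morse : Morse G
  dc : ∀ i, DifferentiableOn ℂ (c i) {0}ᶜ
  root : ∀ t : ℂ, t ≠ 0 → ∀ x : ℂ, G.eval x = wv α a t → (derivative G).eval x ≠ 0 →
    G.eval (-(∑ i, c i t * x ^ (i : ℕ)) / (derivative G).eval x) = wv α' b t

/-- TJ: the sums `T_j(t) = ∑_x y(t,x) x^j / G'(x)`, `y(t,x) = - (∑ c_i(t) x^i) / G'(x)`, are constant, and `0` for `j < n - 2`.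

Proof. `T_j` is analytic in `t ≠ 0` outside the finite set `Br` of the `t` for which `w(t)` is a critical value (`S_SUM`). Near `s ∈ Br`:
`y` is bounded (a root of `G - w'(t)`, `root_bound` in `Geo1.lean`), `|G'(x)| ≥ c |t - s|^(1/2)` for the roots `x` of `G - w(t)` (near the
critical point `x₀`: `|G'(x)| ≥ c |x - x₀| ≥ c' |G(x) - G(x₀)|^(1/2) = c' |w(t) - w(s)|^(1/2)`, as `G''(x₀) ≠ 0`; `w'(s) ≠ 0` by `w(s)² ≠ 4`);
so `T_j = O(|t - s|^(-1/2))` and the singularity is removable (`Complex.differentiableOn_update_limUnder_of_isLittleO`, see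
`removal` in `Geo2.lean`; one may use `(t - s) T_j(t) → 0`). For `t → ∞` and for `t → 0`: `|x| ≤ C |w(t)|^(1/n)`, `|y| ≤ C |w'(t)|^(1/n) ≤ C' |w(t)|^(1/n)`
(as `b ≤ a`), `|G'(x)| ≥ c |x|^(n-1) ≥ c' |w(t)|^((n-1)/n)`: `|T_j(t)| ≤ C |w(t)|^((j + 2 - n)/n)`, bounded, and it tends to `0` if
`j < n - 2`. So `T_j` extends to an entire bounded function. -/
def S_TJ : Prop := ∀ (G : ℂ[X]) (n : ℕ) (α α' : ℂ) (a b : ℤ) (D : ℕ) (c : Fin D → ℂ → ℂ), RootM G n α α' a b D c →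
  ∃ γ : ℕ → ℂ, (∀ j, j + 2 < n → γ j = 0) ∧ ∀ j, j + 2 ≤ n → ∀ t : ℂ, t ≠ 0 →
    (∀ x, G.eval x = wv α a t → (derivative G).eval x ≠ 0) →
    ((G - C (wv α a t)).roots.map fun x => -(∑ i, c i t * x ^ (i : ℕ)) / (derivative G).eval x * x ^ j /
      (derivative G).eval x).sum = γ j

/-- LIN: `y` is a linear function of `x` (with `S_SUM` and `S_TJ` as hypotheses).

Proof. Let `x_1, …, x_n` be the (different) roots of `G - w(t)`, `y_k = y(t,x_k)`, `q = ∏_{l ≠ 1, 2} (X - x_l)` (monic of degree `n - 2`).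
`G'(x_k) = ∏_{l ≠ k} (x_k - x_l)`, so `(y_1 - y_2)/(x_1 - x_2) = ∑_k y_k q(x_k) / G'(x_k) = T_(n-2) = γ` by `S_TJ`. So `y_k - γ x_k` does not depend
on `k`. If `γ ≠ 0` the `y_k` are different, so they are all roots of `G - w'(t)`, and `∑ y_k = ∑ x_k = - G.coeff (n-1)`, so
`y_k = γ x_k + δ` with a constant `δ`. If `γ = 0` then `y_k = δ(t)` for all `k`, `n δ(t) = ∑_x y(t,x)` is analytic outside `Br`
(`S_SUM`), bounded near `Br`, so it extends to an analytic function in `t ≠ 0`, and `G(δ(t)) = w'(t)`. Let `y₀` be a critical point of `G`.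
`δ(t) ≠ y₀` for all `t ≠ 0`: else `0 = G'(δ) δ' = (w')'(t)`, `w'(t) = ± 2` is a critical value. So `1/(δ - y₀)` is analytic in `t ≠ 0` and
tends to `0` for `t → 0` and `t → ∞`, so it is `0` (`removal`), a contradiction. -/
def S_LIN : Prop := ∀ (G : ℂ[X]) (n : ℕ) (α α' : ℂ) (a b : ℤ) (D : ℕ) (c : Fin D → ℂ → ℂ), RootM G n α α' a b D c →
  ∃ γ δ : ℂ, γ ≠ 0 ∧ ∀ t : ℂ, t ≠ 0 → (∀ x, G.eval x = wv α a t → (derivative G).eval x ≠ 0) →
    ∀ x, G.eval x = wv α a t → G.eval (γ * x + δ) = wv α' b t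

/-- END: the values.

Proof. For all `t ≠ 0` but finitely many `G(γ x + δ) - w'(t)` vanishes at the `n` different roots of `G - w(t)`, so it is
`γ^n (G - w(t))`, and `w'(t) - γ^n w(t) = C` does not depend on `t`. Comparing the growth (or coefficients of the Laurent
polynomial `α' t^b + 1/(α' t^b) - γ^n (α t^a + 1/(α t^a)) - C`, which has infinitely many zeros): `b = a`, `α' = γ^n α`, `C = 0`,
`1/α' = γ^n / α`. So `γ^(2n) = 1`, `α' = ± α`, `G(γ x + δ) = ± G(x)`. -/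
def S_END : Prop := ∀ (G : ℂ[X]) (n : ℕ) (α α' : ℂ) (a b : ℤ) (γ δ : ℂ), G.Monic → G.natDegree = n → 2 ≤ n →
  α ≠ 0 → α' ≠ 0 → 0 < a → 0 < b → γ ≠ 0 →
  (∀ t : ℂ, t ≠ 0 → (∀ x, G.eval x = wv α a t → (derivative G).eval x ≠ 0) →
    ∀ x, G.eval x = wv α a t → G.eval (γ * x + δ) = wv α' b t) →
  α' + α'⁻¹ = α + α⁻¹ ∨ (α' + α'⁻¹ = -(α + α⁻¹) ∧
    ∃ x y : ℂ, (derivative G).eval x = 0 ∧ (derivative G).eval y = 0 ∧ G.eval y = -G.eval x)

/-- GEOM: the result -/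
def S_GEOM : Prop := ∀ (G : ℂ[X]) (r r' : ℕ) (α α' : ℂ) (a b : ℤ) (D : ℕ) (c : Fin r → Fin D → ℂ → ℂ)
    (c' : Fin r' → Fin D → ℂ → ℂ), FacM G r r' α α' a b D c c' →
  α' + α'⁻¹ = α + α⁻¹ ∨ (α' + α'⁻¹ = -(α + α⁻¹) ∧
    ∃ x y : ℂ, (derivative G).eval x = 0 ∧ (derivative G).eval y = 0 ∧ G.eval y = -G.eval x)

end Pool.Agent.K9h21.GP
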