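import Pool.Agent.K9h21.GP.Deg
import Pool.Agent.K9h21.GP.Stm5

set_option autoImplicit false

/-!
# Project GPM: torsion points on the families of factorisations, with an arbitrary conclusion
-/

namespace Pool.Agent.K9h21.GP

open Polynomial
open Pool.Agent.N76.RG (RU)
open Pool.Agent.N76.RG.Tor (Rt)

/-- the statement on the factorisations -/
def S_GQ (G₁ G : ℂ[X]) (Q : ℂ → ℂ → Prop) : Prop := ∀ (r r' : ℕ) (α α' : ℂ) (a b : ℤ),
  G.natDegree = r + r' → 0 < r → 0 < r' → α ≠ 0 → α' ≠ 0 → b ≠ 0 →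
  (∀ x, G₁.eval x = α + α⁻¹ → (derivative G₁).eval x ≠ 0) →
  ∀ (D : ℕ) (c : Fin r → Fin D → ℂ → ℂ) (c' : Fin r' → Fin D → ℂ → ℂ),
  (∀ m i, DifferentiableOn ℂ (c m i) {0}ᶜ) → (∀ m i, DifferentiableOn ℂ (c' m i) {0}ᶜ) →
  (∀ t : ℂ, t ≠ 0 → ∀ x : ℂ, G₁.eval x = wv α a t → ∀ V : ℂ,
    Th (fun m i => c m i t) (derivative G₁) x V * Th (fun m i => c' m i t) (derivative G₁) x V =
      (derivative G₁).eval x ^ 2 * (G.eval V - wv α' b t)) → Q α α'

namespace Pair

open Finset Pool.Agent.N695.CY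

variable {r r' D M : ℕ}

theorem baseM (Q : ℂ → ℂ → Prop) (G₁ G : ℂ[X]) (hQ : S_GQ G₁ G Q) (n₁ r r' D M : ℕ) (hG₁ : G₁.Monic) (hn₁ : G₁.natDegree = n₁) (hn0 : 0 < n₁)
    (hn : G.natDegree = r + r') (hr : 0 < r) (hr' : 0 < r')
    (θ : (Fin r ⊕ Fin r') × Fin D × Fin M → ℂ) :
    ∃ (Z : Set ℂ), Z.Finite ∧ ∀ ζ ζ' : ℂ, Rt ζ → Rt ζ' → ζ' ∉ Z →
      (∀ x, G₁.eval x = ζ + ζ⁻¹ → (derivative G₁).eval x ≠ 0) →
      ∀ z : (Fin r ⊕ Fin r') × Fin D × Fin M → ℂ, (∀ j, Rt (z j)) →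
      (∀ x V : ℂ, G₁.eval x = ζ + ζ⁻¹ →
        Th (fun m i => ∑ s, θ (Sum.inl m, i, s) * z (Sum.inl m, i, s)) (derivative G₁) x V *
        Th (fun m i => ∑ s, θ (Sum.inr m, i, s) * z (Sum.inr m, i, s)) (derivative G₁) x V =
          (derivative G₁).eval x ^ 2 * (G.eval V - (ζ' + ζ'⁻¹))) →
      Q ζ ζ' := by
  classical
  have hfm : (fh G₁ r r' D M).Monic := by
    unfold fh
    refine (hG₁.map _).sub_of_left ?_
    rw [degree_eq_natDegree (hG₁.map _).ne_zero, hG₁.natDegree_map, hn₁]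
    exact lt_of_le_of_lt degree_C_le (by exact_mod_cast hn0)
  have hfd : ∀ v : Co r r' D M → ℂ, ((fh G₁ r r' D M).map (MvPolynomial.eval v)).natDegree = n₁ := fun v => by
    rw [fh_map, natDegree_sub_C, hn₁]
  obtain ⟨Z, Di, hZ, hDi, H⟩ := stru (J := Co r r' D M) (Φ := (Fin (r + r' + 1) × Fin n₁) ⊕ Bool)
    (Sum.elim (fun q => (Ps G₁ G θ ((q.1 : ℕ) : ℂ) %ₘ fh G₁ r r' D M).coeff q.2)
      fun b => MvPolynomial.X (Sum.inl (b, false)) * MvPolynomial.X (Sum.inl (b, true)) - 1)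
    (Sum.inl (true, false))
  have key : ∀ (v : Co r r' D M → ℂ) (V : ℂ) (i : ℕ),
      MvPolynomial.eval v ((Ps G₁ G θ V %ₘ fh G₁ r r' D M).coeff i) =
        ((Ps G₁ G θ V).map (MvPolynomial.eval v) %ₘ (fh G₁ r r' D M).map (MvPolynomial.eval v)).coeff i := by
    intro v V i
    rw [← Polynomial.map_modByMonic _ hfm, coeff_map]
  refine ⟨Z, hZ, fun ζ ζ' hζ hζ' hζZ hnc z hz hid => ?_⟩
  set v : Co r r' D M → ℂ := Sum.elim (fun b => if b.2 = true then (if b.1 = true then ζ' else ζ)⁻¹ else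
    (if b.1 = true then ζ' else ζ)) z with hv
  obtain ⟨k, hk, hk0, hkt⟩ := H v (by
    have hinv : ∀ y : ℂ, Rt y → Rt y⁻¹ := by
      rintro y ⟨n, hn, hy⟩
      exact ⟨n, hn, by rw [inv_pow, hy, inv_one]⟩
    rintro (⟨b, b'⟩ | j)
    · rcases b with _ | _ <;> rcases b' with _ | _
      · exact hζ
      · exact hinv _ hζ
      · exact hζ'
      · exact hinv _ hζ'
    · exact hz j) (by
    rintro (⟨V, i⟩ | b)
    · show MvPolynomial.eval v ((Ps G₁ G θ ((V : ℕ) : ℂ) %ₘ fh G₁ r r' D M).coeff i) = 0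
      rw [key]
      have h1 : (fh G₁ r r' D M).map (MvPolynomial.eval v) ∣ (Ps G₁ G θ ((V : ℕ) : ℂ)).map (MvPolynomial.eval v) := by
        have e1 : (fh G₁ r r' D M).map (MvPolynomial.eval v) = G₁ - C (ζ + ζ⁻¹) := fh_map G₁ v
        refine dvd_of_roots (hfm.map _) (fun x hx => ?_) fun x hx => ?_
        · rw [e1, eval_sub, eval_C, sub_eq_zero] at hx
          rw [e1, derivative_sub, derivative_C, sub_zero]
          exact hnc x hx
        · rw [e1, eval_sub, eval_C, sub_eq_zero] at hx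
          rw [Ps_map]
          exact sub_eq_zero.2 (hid x _ hx)
      rw [(modByMonic_eq_zero_iff_dvd (hfm.map _)).2 h1, coeff_zero]
    · show MvPolynomial.eval v (MvPolynomial.X (Sum.inl (b, false)) * MvPolynomial.X (Sum.inl (b, true)) - 1) = 0
      rw [map_sub, map_mul, MvPolynomial.eval_X, MvPolynomial.eval_X, map_one, sub_eq_zero]
      rcases b with _ | _
      · exact mul_inv_cancel₀ hζ.ne
      · exact mul_inv_cancel₀ hζ'.ne) hζZ
  have hinv : ∀ t : ℂ, t ≠ 0 → ∀ b : Bool, v (Sum.inl (b, true)) * t ^ k (Sum.inl (b, true)) =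
      (v (Sum.inl (b, false)) * t ^ k (Sum.inl (b, false)))⁻¹ := by
    intro t ht b
    have h1 := hkt t ht (Sum.inr b)
    have h2 : MvPolynomial.eval (fun j => v j * t ^ k j)
      (MvPolynomial.X (Sum.inl (b, false)) * MvPolynomial.X (Sum.inl (b, true)) - 1) = 0 := h1
    rw [map_sub, map_mul, MvPolynomial.eval_X, MvPolynomial.eval_X, map_one, sub_eq_zero] at h2
    exact eq_inv_of_mul_eq_one_right h2
  refine hQ r r' ζ ζ' (k (Sum.inl (false, false))) (k (Sum.inl (true, false))) hn hr hr' hζ.ne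
    hζ'.ne hk0 hnc D (fun m i t => ∑ s, θ (Sum.inl m, i, s) * (z (Sum.inl m, i, s) * t ^ k (Sum.inr (Sum.inl m, i, s))))
    (fun m i t => ∑ s, θ (Sum.inr m, i, s) * (z (Sum.inr m, i, s) * t ^ k (Sum.inr (Sum.inr m, i, s)))) ?_ ?_ ?_
  · intro m i
    refine DifferentiableOn.fun_sum fun s _ => ?_
    refine (DifferentiableOn.const_mul ?_ _)
    refine DifferentiableOn.const_mul ?_ _
    intro t ht
    exact (differentiableAt_zpow.2 (Or.inl ht)).differentiableWithinAt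
  · intro m i
    refine DifferentiableOn.fun_sum fun s _ => ?_
    refine (DifferentiableOn.const_mul ?_ _)
    refine DifferentiableOn.const_mul ?_ _
    intro t ht
    exact (differentiableAt_zpow.2 (Or.inl ht)).differentiableWithinAt
  · intro t ht x hx V
    refine all_V hn _ _ _ _ _ (fun V => ?_) V
    set v' : Co r r' D M → ℂ := fun j => v j * t ^ k j with hv'
    have e1 : v' (Sum.inl (false, false)) + v' (Sum.inl (false, true)) = wv ζ (k (Sum.inl (false, false))) t := by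
      show v (Sum.inl (false, false)) * t ^ k (Sum.inl (false, false)) +
        v (Sum.inl (false, true)) * t ^ k (Sum.inl (false, true)) = _
      rw [hinv t ht false]
      rfl
    have e2 : v' (Sum.inl (true, false)) + v' (Sum.inl (true, true)) = wv ζ' (k (Sum.inl (true, false))) t := by
      show v (Sum.inl (true, false)) * t ^ k (Sum.inl (true, false)) +
        v (Sum.inl (true, true)) * t ^ k (Sum.inl (true, true)) = _
      rw [hinv t ht true]
      rfl
    have h1 : (Ps G₁ G θ ((V : ℕ) : ℂ)).map (MvPolynomial.eval v') %ₘ (fh G₁ r r' D M).map (MvPolynomial.eval v') = 0 := by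
      ext i
      rw [coeff_zero]
      by_cases hi : i < n₁
      · rw [← key]
        exact hkt t ht (Sum.inl (V, ⟨i, hi⟩))
      · refine coeff_eq_zero_of_natDegree_lt ?_
        have h2 := natDegree_modByMonic_lt ((Ps G₁ G θ ((V : ℕ) : ℂ)).map (MvPolynomial.eval v')) (hfm.map
          (MvPolynomial.eval v')) (by
          intro h3
          have h4 := hfd v'
          rw [h3, natDegree_one] at h4
          omega)
        rw [hfd v'] at h2
        omega
    rw [modByMonic_eq_zero_iff_dvd (hfm.map _)] at h1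
    obtain ⟨q, hq⟩ := h1
    have h2 := Ps_map G₁ G θ ((V : ℕ) : ℂ) v' x
    rw [hq, eval_mul, fh_map, eval_sub, eval_C, e1, hx, sub_self, zero_mul, e2] at h2
    exact (sub_eq_zero.1 h2.symm)

end Pair

/-- **PAIR: torsion points on the families of factorisations** -/
theorem pairM (Q : ℂ → ℂ → Prop) (G₁ G : ℂ[X]) (hQ : S_GQ G₁ G Q) (n₁ r r' D M : ℕ) (hG₁ : G₁.Monic) (hn₁ : G₁.natDegree = n₁)
    (hn0 : 0 < n₁) (hn : G.natDegree = r + r') (hr : 0 < r) (hr' : 0 < r') (θ : Fin M → ℂ) :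
    ∃ (Z : Set ℂ), Z.Finite ∧ ∀ ζ ζ' : ℂ, Rt ζ → Rt ζ' → ζ' ∉ Z →
      (∀ x, G₁.eval x = ζ + ζ⁻¹ → (derivative G₁).eval x ≠ 0) →
      ∀ (z : Fin r → Fin D → Fin M → ℂ) (z' : Fin r' → Fin D → Fin M → ℂ), (∀ m i s, RU (z m i s)) →
      (∀ m i s, RU (z' m i s)) →
      (∀ x V : ℂ, G₁.eval x = ζ + ζ⁻¹ →
        Th (fun m i => ∑ s, θ s * z m i s) (derivative G₁) x V *
        Th (fun m i => ∑ s, θ s * z' m i s) (derivative G₁) x V =
          (derivative G₁).eval x ^ 2 * (G.eval V - (ζ' + ζ'⁻¹))) →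
      Q ζ ζ' := by
  classical
  choose Z hZ H using fun A : Finset ((Fin r ⊕ Fin r') × Fin D × Fin M) =>
    Pair.baseM Q G₁ G hQ n₁ r r' D M hG₁ hn₁ hn0 hn hr hr' fun j => if j ∈ A then θ j.2.2 else 0
  refine ⟨⋃ A, Z A, Set.finite_iUnion hZ,
    fun ζ ζ' hζ hζ' hζZ hnc z z' hz hz' hid => ?_⟩
  set w : (Fin r ⊕ Fin r') × Fin D × Fin M → ℂ :=
    fun j => Sum.elim (fun m => z m j.2.1 j.2.2) (fun m => z' m j.2.1 j.2.2) j.1 with hw
  have hwR : ∀ j, RU (w j) := by
    rintro ⟨m | m, i, s⟩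
    · exact hz m i s
    · exact hz' m i s
  set A : Finset ((Fin r ⊕ Fin r') × Fin D × Fin M) := Finset.univ.filter fun j => w j ≠ 0 with hA
  have hmul : ∀ j, (if j ∈ A then θ j.2.2 else 0) * (if w j = 0 then 1 else w j) = θ j.2.2 * w j := by
    intro j
    by_cases h : w j = 0
    · have h1 : j ∉ A := by
        rw [hA, Finset.mem_filter]
        exact fun h2 => h2.2 h
      rw [if_neg h1, h, zero_mul, mul_zero]
    · have h1 : j ∈ A := by
        rw [hA, Finset.mem_filter]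
        exact ⟨Finset.mem_univ _, h⟩
      rw [if_pos h1, if_neg h]
  exact H A ζ ζ' hζ hζ' (fun h => hζZ (Set.mem_iUnion.2 ⟨A, h⟩)) hnc (fun j => if w j = 0 then 1 else w j)
    (fun j => by
      by_cases h : w j = 0
      · simp only [if_pos h]
        exact ⟨1, one_pos, one_pow 1⟩
      · simp only [if_neg h]
        exact (hwR j).resolve_left h) (fun x V hx => by
      rw [← hid x V hx]
      congr 2
      · funext m i
        exact Finset.sum_congr rfl fun s _ => hmul (Sum.inl m, i, s)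
      · funext m i
        exact Finset.sum_congr rfl fun s _ => hmul (Sum.inr m, i, s))

end Pool.Agent.K9h21.GP
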