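import Pool.Agent.K9h21.GP.Stm8
import Pool.Agent.K9h21.GP.CorTot

/-!
# Leaf B-RED: `G(X) + G(Y)` is reducible
-/

set_option autoImplicit false

namespace Pool.Agent.K9h21.GP

open Polynomial Filter Topology

namespace RED_

/-- the divided difference `(G(u) - G(v)) / (u - v)` -/
noncomputable def Ld (G : ℂ[X]) (n : ℕ) (u v : ℂ) : ℂ :=
  ∑ j ∈ Finset.range (n + 1), ∑ i ∈ Finset.range j, G.coeff j * (u ^ i * v ^ (j - 1 - i))

theorem Ld_mul (G : ℂ[X]) (n : ℕ) (hn : G.natDegree = n) (u v : ℂ) :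
    Ld G n u v * (u - v) = G.eval u - G.eval v := by
  rw [Ld, eval_eq_sum_range' (show G.natDegree < n + 1 by omega) u,
    eval_eq_sum_range' (show G.natDegree < n + 1 by omega) v, ← Finset.sum_sub_distrib,
    Finset.sum_mul]
  refine Finset.sum_congr rfl fun j _ => ?_
  rw [← Finset.mul_sum, mul_assoc, (Commute.all u v).geom_sum₂_mul, mul_sub]

theorem Ld_self (G : ℂ[X]) (n : ℕ) (hn : G.natDegree = n) (u : ℂ) :
    Ld G n u u = (derivative G).eval u := by
  rw [Ld, derivative_eval, sum_over_range' _ (fun k => by simp) (n + 1) (by omega)]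
  refine Finset.sum_congr rfl fun j _ => ?_
  rw [← Finset.mul_sum, geom_sum₂_self, mul_assoc]

/-- the set of the roots -/
noncomputable def Rt (G : ℂ[X]) (w : ℂ) : Finset ℂ := (G - C w).roots.toFinset

theorem mem_Rt (G : ℂ[X]) (hG : G.Monic) (hn : 0 < G.natDegree) (w x : ℂ) :
    x ∈ Rt G w ↔ G.eval x = w := by
  rw [Rt, Multiset.mem_toFinset, COR_.mem_iff G hG hn]

theorem sum_Rt (G : ℂ[X]) (w : ℂ) (h : (G - C w).roots.Nodup) (f : ℂ → ℂ) :
    ((G - C w).roots.map f).sum = ∑ x ∈ Rt G w, f x := by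
  rw [Rt, Finset.sum_eq_multiset_sum, Multiset.toFinset_val, Multiset.dedup_eq_self.2 h]

theorem card_Rt (G : ℂ[X]) (n : ℕ) (hn : G.natDegree = n) (w : ℂ) (h : (G - C w).roots.Nodup) :
    (Rt G w).card = n := by
  rw [Rt, Multiset.toFinset_card_of_nodup h, COR_.roots_card, hn]

/-- Lagrange: only the term `x = x₀` remains -/
theorem lagr (G : ℂ[X]) (n : ℕ) (hn : G.natDegree = n) (w : ℂ) (R : Finset ℂ)
    (hR : ∀ x ∈ R, G.eval x = w) (hd : ∀ x ∈ R, (derivative G).eval x ≠ 0) (f : ℂ → ℂ) (x₀ : ℂ)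
    (hx : x₀ ∈ R) :
    ∑ x ∈ R, f x / (derivative G).eval x * Ld G n x₀ x = f x₀ := by
  rw [Finset.sum_eq_single_of_mem x₀ hx]
  · rw [Ld_self G n hn, div_mul_cancel₀ _ (hd x₀ hx)]
  · intro x hxR hne
    have h1 := Ld_mul G n hn x₀ x
    rw [hR x₀ hx, hR x hxR, sub_self] at h1
    rcases mul_eq_zero.1 h1 with h2 | h2
    · rw [h2, mul_zero]
    · exact absurd (sub_eq_zero.1 h2).symm hne

theorem wv_neg (α : ℂ) (a : ℤ) (t : ℂ) : wv (-α) a t = -wv α a t := by
  unfold wv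
  rw [neg_mul, inv_neg]
  ring

theorem wv_surj (α : ℂ) (hα : α ≠ 0) (a : ℤ) (ha : 0 < a) (v : ℂ) : ∃ t : ℂ, t ≠ 0 ∧ wv α a t = v := by
  obtain ⟨s, hs⟩ := IsAlgClosed.exists_pow_nat_eq (v ^ 2 - 4) (show 0 < 2 by norm_num)
  have h1 : ((v + s) / 2) * ((v - s) / 2) = 1 := by
    have : ((v + s) / 2) * ((v - s) / 2) = (v ^ 2 - s ^ 2) / 4 := by ring
    rw [this, hs]
    ring
  have h0 : (v + s) / 2 ≠ 0 := left_ne_zero_of_mul_eq_one h1
  obtain ⟨z, hz⟩ := IsAlgClosed.exists_pow_nat_eq ((v + s) / 2 / α) (show 0 < a.toNat by omega)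
  have hz0 : z ≠ 0 := by
    rintro rfl
    rw [zero_pow (by omega)] at hz
    exact div_ne_zero h0 hα hz.symm
  refine ⟨z, hz0, ?_⟩
  have ha' : (a.toNat : ℤ) = a := Int.toNat_of_nonneg ha.le
  have h2 : α * z ^ a = (v + s) / 2 := by
    rw [← ha', zpow_natCast, hz, mul_div_cancel₀ _ hα]
  rw [wv, h2, inv_eq_of_mul_eq_one_right h1]
  ring

theorem sumP_eval (G : ℂ[X]) (x y : ℂ) :
    ((SumP G).map (evalRingHom x)).eval y = G.eval y + G.eval x := by
  have h : (evalRingHom x).comp (C : ℂ →+* ℂ[X]) = RingHom.id ℂ := by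
    ext
    simp
  rw [SumP, Polynomial.map_add, Polynomial.map_map, h, Polynomial.map_id, map_C, eval_add, eval_C]
  simp

theorem sumP_monic (G : ℂ[X]) (hG : G.Monic) (hn : 0 < G.natDegree) : (SumP G).Monic := by
  apply Monic.add_of_left (hG.map _)
  refine lt_of_le_of_lt degree_C_le ?_
  rw [degree_eq_natDegree (hG.map _).ne_zero, hG.natDegree_map]
  exact_mod_cast hn

theorem sumP_deg (G : ℂ[X]) (hG : G.Monic) : (SumP G).natDegree = G.natDegree := by
  rw [SumP, natDegree_add_C, hG.natDegree_map]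

/-- the polynomial `P_k` -/
noncomputable def Pk (G : ℂ[X]) (n : ℕ) (γ : ℕ → ℕ → ℂ) (k : ℕ) : ℂ[X] :=
  ∑ j ∈ Finset.range (n + 1), ∑ i ∈ Finset.range j, C (G.coeff j * γ (n - j + i) k) * X ^ i

/-- the polynomial `H` -/
noncomputable def Hp (G : ℂ[X]) (n : ℕ) (γ : ℕ → ℕ → ℂ) : ℂ[X][X] :=
  ∑ j ∈ Finset.range (n + 1), ∑ i ∈ Finset.range j,
    C (C (G.coeff j) * Pk G n γ (j - 1 - i)) * X ^ i

theorem Hp_deg (G : ℂ[X]) (n : ℕ) (hn : 0 < n) (γ : ℕ → ℕ → ℂ) : (Hp G n γ).natDegree < n := by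
  have : (Hp G n γ).natDegree ≤ n - 1 := by
    refine natDegree_sum_le_of_forall_le _ _ fun j hj => ?_
    refine natDegree_sum_le_of_forall_le _ _ fun i hi => ?_
    rw [Finset.mem_range] at hj hi
    exact (natDegree_C_mul_X_pow_le _ _).trans (by omega)
  omega

theorem Hp_eval (G : ℂ[X]) (n : ℕ) (γ : ℕ → ℕ → ℂ) (x y : ℂ) :
    ((Hp G n γ).map (evalRingHom x)).eval y = ∑ j ∈ Finset.range (n + 1), ∑ i ∈ Finset.range j,
      G.coeff j * (y ^ i * (Pk G n γ (j - 1 - i)).eval x) := by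
  rw [Hp, Polynomial.map_sum, eval_finsetSum]
  refine Finset.sum_congr rfl fun j _ => ?_
  rw [Polynomial.map_sum, eval_finsetSum]
  refine Finset.sum_congr rfl fun i _ => ?_
  simp
  ring

section

variable {G : ℂ[X]} {n r : ℕ} {α : ℂ} {a : ℤ} {Z : ℂ → ℂ → ℂ → Prop}

open Classical in
theorem PS_eq (h : Cor G n r α (-α) a a Z) (φ : ℂ → ℂ → ℂ → ℂ) {t : ℂ} (ht : Gd G α (-α) a a t) :
    PS G α (-α) a a Z φ t = ∑ x ∈ Rt G (wv α a t), ∑ y ∈ Rt G (wv (-α) a t),
      if Z t x y then φ t x y else 0 := by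
  have hn : 0 < G.natDegree := by have := h.hn; have := h.deg; omega
  have h1 := COR_.roots_nodup G h.mo hn _ ht.2.1
  have h2 := COR_.roots_nodup G h.mo hn _ ht.2.2
  unfold PS
  rw [sum_Rt G _ h1]
  refine Finset.sum_congr rfl fun x _ => ?_
  rw [sum_Rt G _ h2]

open Classical in
/-- the sum of `y ^ k` over the `y` related to `x₀` is `P_k(x₀)` -/
theorem pk (h : Cor G n r α (-α) a a Z) (γ : ℕ → ℕ → ℂ)
    (hγ : ∀ i k : ℕ, i < n → k < n → ∀ t, Gd G α (-α) a a t →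
      PS G α (-α) a a Z (fun _ x y => y ^ k * x ^ (n - 1 - i) / (derivative G).eval x) t = γ i k)
    {t : ℂ} (ht : Gd G α (-α) a a t) (k : ℕ) (hk : k < n) (x₀ : ℂ) (hx : x₀ ∈ Rt G (wv α a t)) :
    (Pk G n γ k).eval x₀ = ∑ y ∈ Rt G (wv (-α) a t), if Z t x₀ y then y ^ k else 0 := by
  have hn : 0 < G.natDegree := by have := h.hn; have := h.deg; omega
  have hR : ∀ x ∈ Rt G (wv α a t), G.eval x = wv α a t := fun x hx =>
    (mem_Rt G h.mo hn _ x).1 hx
  have h1 : (Pk G n γ k).eval x₀ = ∑ j ∈ Finset.range (n + 1), ∑ i ∈ Finset.range j,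
      G.coeff j * x₀ ^ i * γ (n - j + i) k := by
    rw [Pk, eval_finsetSum]
    refine Finset.sum_congr rfl fun j _ => ?_
    rw [eval_finsetSum]
    refine Finset.sum_congr rfl fun i _ => ?_
    simp
    ring
  have h2 := lagr G n h.deg (wv α a t) _ hR (fun x hx => ht.2.1 x (hR x hx))
    (fun x => ∑ y ∈ Rt G (wv (-α) a t), if Z t x y then y ^ k else 0) x₀ hx
  rw [h1, ← h2]
  have h3 : ∀ j ∈ Finset.range (n + 1), ∀ i ∈ Finset.range j,
      G.coeff j * x₀ ^ i * γ (n - j + i) k = ∑ x ∈ Rt G (wv α a t),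
        (∑ y ∈ Rt G (wv (-α) a t), if Z t x y then y ^ k else 0) / (derivative G).eval x *
          (G.coeff j * (x₀ ^ i * x ^ (j - 1 - i))) := by
    intro j hj i hi
    rw [Finset.mem_range] at hj hi
    rw [← hγ (n - j + i) k (by omega) hk t ht, PS_eq h _ ht, Finset.mul_sum]
    refine Finset.sum_congr rfl fun x _ => ?_
    have e : n - 1 - (n - j + i) = j - 1 - i := by omega
    rw [e, Finset.mul_sum, Finset.sum_div, Finset.sum_mul]
    refine Finset.sum_congr rfl fun y _ => ?_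
    split_ifs <;> ring
  rw [Finset.sum_congr rfl fun j hj => Finset.sum_congr rfl (h3 j hj)]
  rw [Finset.sum_congr rfl fun j _ => Finset.sum_comm, Finset.sum_comm]
  refine Finset.sum_congr rfl fun x _ => ?_
  simp only [Ld, Finset.mul_sum]

open Classical in
theorem hp (h : Cor G n r α (-α) a a Z) (γ : ℕ → ℕ → ℂ)
    (hγ : ∀ i k : ℕ, i < n → k < n → ∀ t, Gd G α (-α) a a t →
      PS G α (-α) a a Z (fun _ x y => y ^ k * x ^ (n - 1 - i) / (derivative G).eval x) t = γ i k)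
    {t : ℂ} (ht : Gd G α (-α) a a t) (x₀ : ℂ) (hx : x₀ ∈ Rt G (wv α a t))
    (y₀ : ℂ) (hy : y₀ ∈ Rt G (wv (-α) a t)) :
    ((Hp G n γ).map (evalRingHom x₀)).eval y₀ = if Z t x₀ y₀ then (derivative G).eval y₀ else 0 := by
  have hn : 0 < G.natDegree := by have := h.hn; have := h.deg; omega
  have hR : ∀ y ∈ Rt G (wv (-α) a t), G.eval y = wv (-α) a t := fun y hy =>
    (mem_Rt G h.mo hn _ y).1 hy
  rw [Hp_eval]
  have h1 : ∀ j ∈ Finset.range (n + 1), ∀ i ∈ Finset.range j,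
      G.coeff j * (y₀ ^ i * (Pk G n γ (j - 1 - i)).eval x₀) = ∑ y ∈ Rt G (wv (-α) a t),
        (if Z t x₀ y then (1 : ℂ) else 0) * (G.coeff j * (y₀ ^ i * y ^ (j - 1 - i))) := by
    intro j hj i hi
    rw [Finset.mem_range] at hj hi
    rw [pk h γ hγ ht (j - 1 - i) (by omega) x₀ hx, Finset.mul_sum, Finset.mul_sum]
    refine Finset.sum_congr rfl fun y _ => ?_
    split_ifs <;> ring
  rw [Finset.sum_congr rfl fun j hj => Finset.sum_congr rfl (h1 j hj)]
  rw [Finset.sum_congr rfl fun j _ => Finset.sum_comm, Finset.sum_comm]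
  have h2 : ∀ y ∈ Rt G (wv (-α) a t), (∑ j ∈ Finset.range (n + 1), ∑ i ∈ Finset.range j,
      (if Z t x₀ y then (1 : ℂ) else 0) * (G.coeff j * (y₀ ^ i * y ^ (j - 1 - i)))) =
      (if Z t x₀ y then (1 : ℂ) else 0) * Ld G n y₀ y := by
    intro y _
    simp only [Ld, Finset.mul_sum]
  rw [Finset.sum_congr rfl h2, Finset.sum_eq_single_of_mem y₀ hy]
  · rw [Ld_self G n h.deg]
    split_ifs <;> simp
  · intro y hyR hne
    have h3 := Ld_mul G n h.deg y₀ y
    rw [hR y₀ hy, hR y hyR, sub_self] at h3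
    rcases mul_eq_zero.1 h3 with h4 | h4
    · rw [h4, mul_zero]
    · exact absurd (sub_eq_zero.1 h4).symm hne

/-- over every good `t` there are related and unrelated pairs -/
theorem pairs (h : Cor G n r α (-α) a a Z) (hr : 0 < r) (hrn : r < n) {t : ℂ}
    (ht : Gd G α (-α) a a t) :
    (∃ x ∈ Rt G (wv α a t), ∃ y ∈ Rt G (wv (-α) a t), Z t x y) ∧
    ∃ x ∈ Rt G (wv α a t), ∃ y ∈ Rt G (wv (-α) a t), ¬ Z t x y := by
  classical
  have hn : 0 < G.natDegree := by have := h.hn; have := h.deg; omega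
  have c1 := card_Rt G n h.deg _ (COR_.roots_nodup G h.mo hn _ ht.2.1)
  have c2 := card_Rt G n h.deg _ (COR_.roots_nodup G h.mo hn _ ht.2.2)
  have htot := h.tot t ht
  rw [PS_eq h _ ht] at htot
  have hn0 : (n : ℂ) ≠ 0 := by
    have := h.hn
    exact_mod_cast (by omega : n ≠ 0)
  constructor
  · by_contra hcon
    push Not at hcon
    have h0 : (∑ x ∈ Rt G (wv α a t), ∑ y ∈ Rt G (wv (-α) a t), if Z t x y then (1 : ℂ) else 0) = 0 :=
      Finset.sum_eq_zero fun x hx => Finset.sum_eq_zero fun y hy => if_neg (hcon x hx y hy)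
    rw [h0] at htot
    have hr0 : (r : ℂ) ≠ 0 := by exact_mod_cast hr.ne'
    exact mul_ne_zero hn0 hr0 htot.symm
  · by_contra hcon
    push Not at hcon
    have h0 : (∑ x ∈ Rt G (wv α a t), ∑ y ∈ Rt G (wv (-α) a t), if Z t x y then (1 : ℂ) else 0) =
        n * n := by
      rw [Finset.sum_congr rfl fun x hx => Finset.sum_congr rfl fun y hy => if_pos (hcon x hx y hy)]
      simp [c1, c2]
    rw [h0] at htot
    have h5 := mul_left_cancel₀ hn0 htot
    have h6 : n = r := by exact_mod_cast h5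
    omega

end

end RED_

open RED_ in
theorem red (h1 : S_FIN) : S_RED := by
  intro G n r α a Z h hr hrn hγ hirr
  classical
  have hn : 0 < G.natDegree := by have := h.hn; have := h.deg; omega
  -- the constants
  have hγ' : ∃ γ : ℕ → ℕ → ℂ, ∀ i k : ℕ, i < n → k < n → ∀ t, Gd G α (-α) a a t →
      PS G α (-α) a a Z (fun _ x y => y ^ k * x ^ (n - 1 - i) / (derivative G).eval x) t = γ i k := by
    have : ∀ i k : ℕ, ∃ γ : ℂ, i < n → k < n → ∀ t, Gd G α (-α) a a t →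
        PS G α (-α) a a Z (fun _ x y => y ^ k * x ^ (n - 1 - i) / (derivative G).eval x) t = γ := by
      intro i k
      by_cases hi : i < n
      · by_cases hk : k < n
        · obtain ⟨γ, hγ⟩ := hγ i k hi hk
          exact ⟨γ, fun _ _ => hγ⟩
        · exact ⟨0, fun _ h => absurd h hk⟩
      · exact ⟨0, fun h => absurd h hi⟩
    choose γ hγ using this
    exact ⟨γ, hγ⟩
  obtain ⟨γ, hγ⟩ := hγ'
  -- the critical values
  have hG' : derivative G ≠ 0 := by
    intro h0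
    have := natDegree_eq_zero_of_derivative_eq_zero h0
    omega
  have hcrit : {x : ℂ | (derivative G).eval x = 0}.Finite :=
    ((derivative G).roots.toFinset.finite_toSet).subset fun x hx => by
      simp only [Finset.mem_coe, Multiset.mem_toFinset]
      exact (mem_roots hG').2 hx
  have hgood : ∀ v : ℂ, v ∉ (fun x => G.eval x) '' {x : ℂ | (derivative G).eval x = 0} →
      v ∉ (fun x => -G.eval x) '' {x : ℂ | (derivative G).eval x = 0} →
      ∃ t, Gd G α (-α) a a t ∧ wv α a t = v := by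
    intro v hv1 hv2
    obtain ⟨t, ht0, ht⟩ := wv_surj α h.hα a h.ha v
    refine ⟨t, ⟨ht0, fun x hx hx' => hv1 ⟨x, hx', ?_⟩, fun y hy hy' => hv2 ⟨y, hy', ?_⟩⟩, ht⟩
    · rw [← ht, ← hx]
    · rw [wv_neg, ht] at hy
      show -G.eval y = v
      rw [hy, neg_neg]
  have hcase : ∀ F : Set ℂ, F.Finite → ∃ t, Gd G α (-α) a a t ∧ wv α a t ∉ F := by
    intro F hF
    obtain ⟨v, hv⟩ := ((hF.union (hcrit.image fun x => G.eval x)).union
      (hcrit.image fun x => -G.eval x)).exists_notMem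
    rw [Set.mem_union, Set.mem_union, not_or, not_or] at hv
    obtain ⟨t, ht, htv⟩ := hgood v hv.1.2 hv.2
    exact ⟨t, ht, htv ▸ hv.1.1⟩
  -- H is not zero
  have hH : Hp G n γ ≠ 0 := by
    intro h0
    obtain ⟨t, ht, -⟩ := hcase ∅ Set.finite_empty
    obtain ⟨x, hx, y, hy, hxy⟩ := (pairs h hr hrn ht).1
    have h2 := hp h γ hγ ht x hx y hy
    rw [if_pos hxy, h0, Polynomial.map_zero, eval_zero] at h2
    exact ht.2.2 y ((mem_Rt G h.mo hn _ y).1 hy) h2.symm
  have hfin := h1 (SumP G) (Hp G n γ) (sumP_monic G h.mo hn) hirr hH (by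
    rw [sumP_deg G h.mo, h.deg]
    exact Hp_deg G n (by have := h.hn; omega) γ)
  obtain ⟨t, ht, htF⟩ := hcase _ (hfin.image fun x => G.eval x)
  obtain ⟨x, hx, y, hy, hxy⟩ := (pairs h hr hrn ht).2
  have hx' := (mem_Rt G h.mo hn _ x).1 hx
  have hy' := (mem_Rt G h.mo hn _ y).1 hy
  refine htF ⟨x, ⟨y, ?_, ?_⟩, hx'⟩
  · rw [sumP_eval, hx', hy', wv_neg, neg_add_cancel]
  · rw [hp h γ hγ ht x hx y hy, if_neg hxy]

end Pool.Agent.K9h21.GP
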