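import Pool.Agent.K9h21.GP.Stm8
import Pool.Agent.K9h21.GP.T1

/-!
# Leaf T2 of the project GPA (helper26)
-/

set_option autoImplicit false

namespace Pool.Agent.K9h21.GP.T2_

open Polynomial Filter Topology TJ_ T1_

theorem wv_neg (α : ℂ) (a : ℤ) (t : ℂ) : wv (-α) a t = - wv α a t := by
  unfold wv
  rw [neg_mul, inv_neg]
  ring

theorem hbig (T : ℝ) : ∀ᶠ t : ℂ in cocompact ℂ, T < ‖t‖ := by
  have hfar : ∀ᶠ t : ℂ in cocompact ℂ, t ∈ (Metric.closedBall (0 : ℂ) T)ᶜ :=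
    (isCompact_closedBall 0 T).compl_mem_cocompact
  filter_upwards [hfar] with t ht
  rwa [Set.mem_compl_iff, mem_closedBall_zero_iff, not_le] at ht

theorem hZc (Z₀ : Finset ℂ) : ∀ᶠ t : ℂ in cocompact ℂ, t ∉ Z₀ := by
  have : ∀ᶠ t : ℂ in cocompact ℂ, t ∈ ((Z₀ : Set ℂ))ᶜ :=
    Z₀.finite_toSet.isCompact.compl_mem_cocompact
  filter_upwards [this] with t ht h'
  exact ht (Finset.mem_coe.2 h')

section

variable {G : ℂ[X]} {n r : ℕ} {α : ℂ} {a : ℤ} {Z : ℂ → ℂ → ℂ → Prop}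

theorem grow (h : Cor G n r α (-α) a a Z) (i k : ℕ) (hk : k < n) (ε : ℝ) (hε : 0 < ε) :
    ∃ T : ℝ, 1 ≤ T ∧ ∀ t : ℂ, t ≠ 0 → (T < ‖t‖ ∨ T < ‖t‖⁻¹) →
      ‖PS G α (-α) a a Z (ph G n i k) t‖ ≤ ε * (1 + ‖wv α a t‖) := by
  have hn := h.hn
  obtain ⟨C₀, hC1, hC⟩ := GEO_.root_bound G h.mo (by rw [h.deg]; omega)
  rw [h.deg] at hC
  obtain ⟨K₆, R₆, hK6, hR6, h6⟩ := deriv_large G h.mo n h.deg h.hn
  obtain ⟨T, hT1, hT⟩ := far_roots G α a h.hα h.ha.ne' R₆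
  have hnR : (0 : ℝ) < n := by exact_mod_cast (by omega : 0 < n)
  set δ : ℝ := ε / (n * (n * K₆)) with hδ
  have hδ0 : 0 < δ := by positivity
  obtain ⟨T₂, hT21, hT2⟩ := GEO_.wv_proper α a h.hα h.ha.ne' (C₀ ^ (n - 1) / δ ^ n)
  refine ⟨max T T₂, le_max_of_le_left hT1, fun t ht hor => ?_⟩
  have hor1 : T < ‖t‖ ∨ T < ‖t‖⁻¹ :=
    hor.imp (lt_of_le_of_lt (le_max_left _ _)) (lt_of_le_of_lt (le_max_left _ _))
  have hor2 : T₂ < ‖t‖ ∨ T₂ < ‖t‖⁻¹ :=
    hor.imp (lt_of_le_of_lt (le_max_right _ _)) (lt_of_le_of_lt (le_max_right _ _))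
  have hW : C₀ ^ (n - 1) / δ ^ n < ‖wv α a t‖ := by
    by_contra hcon
    obtain ⟨e1, e2⟩ := hT2 t ht (not_lt.1 hcon)
    rcases hor2 with h' | h' <;> linarith
  set W : ℝ := 1 + ‖wv α a t‖ with hWd
  have hW1 : 1 ≤ W := by
    rw [hWd]
    linarith [norm_nonneg (wv α a t)]
  have h1 := PS_le h (ph G n i k) t (K₆ * (δ * W)) (by positivity) (by
    intro x y hx hy
    have hxR := hT t ht hor1 x hx
    have hx1 : 1 ≤ ‖x‖ := by linarith
    have f1 := h6 x hxR.le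
    have f2 : 0 < ‖(derivative G).eval x‖ := by
      by_contra hcon
      have f3 : ‖(derivative G).eval x‖ = 0 := le_antisymm (not_lt.1 hcon) (norm_nonneg _)
      rw [f3, mul_zero] at f1
      have : 0 < ‖x‖ ^ (n - 1) := by positivity
      linarith
    have f4 : ‖y‖ ^ k ≤ δ * W := by
      have g1 : ‖y‖ ^ n ≤ C₀ * W := by
        have g2 := hC y
        rwa [hy, wv_neg, norm_neg] at g2
      have g3 : 1 ≤ C₀ * W := by nlinarith
      have g4 : (‖y‖ ^ k) ^ n ≤ (δ * W) ^ n := by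
        calc (‖y‖ ^ k) ^ n = (‖y‖ ^ n) ^ k := by rw [← pow_mul, ← pow_mul, mul_comm]
          _ ≤ (C₀ * W) ^ k := pow_le_pow_left₀ (by positivity) g1 k
          _ ≤ (C₀ * W) ^ (n - 1) := pow_le_pow_right₀ g3 (by omega)
          _ = C₀ ^ (n - 1) * W ^ (n - 1) := mul_pow _ _ _
          _ ≤ (δ ^ n * W) * W ^ (n - 1) := by
              apply mul_le_mul_of_nonneg_right _ (by positivity)
              rw [div_lt_iff₀ (by positivity)] at hW
              have : ‖wv α a t‖ * δ ^ n ≤ δ ^ n * W := by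
                rw [mul_comm]
                apply mul_le_mul_of_nonneg_left _ (by positivity)
                rw [hWd]
                linarith
              linarith
          _ = (δ * W) ^ n := by
              obtain ⟨m, hm⟩ : ∃ m, n = m + 1 := ⟨n - 1, by omega⟩
              rw [hm, Nat.add_sub_cancel]
              ring
      exact le_of_pow_le_pow_left₀ (by omega) (by positivity) g4
    unfold ph
    rw [norm_div, norm_mul, norm_pow, norm_pow, div_le_iff₀ f2]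
    have f5 : ‖x‖ ^ (n - 1 - i) ≤ K₆ * ‖(derivative G).eval x‖ :=
      (pow_le_pow_right₀ hx1 (by omega)).trans f1
    calc ‖y‖ ^ k * ‖x‖ ^ (n - 1 - i) ≤ (δ * W) * (K₆ * ‖(derivative G).eval x‖) :=
          mul_le_mul f4 f5 (by positivity) (by positivity)
      _ = _ := by ring)
  refine h1.trans (le_of_eq ?_)
  rw [hδ]
  field_simp

theorem rel (h1 : S_ASY) (h : Cor G n r α (-α) a a Z) :
    ∃ (Q : ℂ → ℂ → Prop) (T : ℝ), 1 ≤ T ∧ ∀ t, Gd G α (-α) a a t → (T < ‖t‖ ∨ T < ‖t‖⁻¹) →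
      ∀ x y, G.eval x = wv α a t → G.eval y = wv (-α) a t → (Z t x y ↔ Q x y) := by
  classical
  obtain ⟨γ, _, hγ⟩ := (h1 G n r α (-α) a a Z h).2 rfl
  obtain ⟨h2, h3⟩ := hγ (1 / 4) (by norm_num)
  rw [← Metric.cobounded_eq_cocompact] at h2
  obtain ⟨T₁, _, hT₁⟩ := (hasBasis_cobounded_norm (E := ℂ)).eventually_iff.1 h2
  rw [eventually_nhdsWithin_iff, Metric.eventually_nhds_iff] at h3
  obtain ⟨e, he, h3⟩ := h3
  have key : ∀ t x y, ‖(if Z t x y then (1 : ℂ) else 0) -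
      (∑ k ∈ Finset.range n, γ k * (x / y) ^ k) / n‖ ≤ 1 / 4 →
      (Z t x y ↔ ‖(1 : ℂ) - (∑ k ∈ Finset.range n, γ k * (x / y) ^ k) / n‖ ≤ 1 / 4) := by
    intro t x y hle
    by_cases hz : Z t x y
    · rw [if_pos hz] at hle
      exact ⟨fun _ => hle, fun _ => hz⟩
    · rw [if_neg hz] at hle
      refine ⟨fun h' => absurd h' hz, fun h' => ?_⟩
      exfalso
      have e1 := norm_sub_le ((1 : ℂ) - (∑ k ∈ Finset.range n, γ k * (x / y) ^ k) / n)
        (0 - (∑ k ∈ Finset.range n, γ k * (x / y) ^ k) / n)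
      have e2 : ((1 : ℂ) - (∑ k ∈ Finset.range n, γ k * (x / y) ^ k) / n) -
        (0 - (∑ k ∈ Finset.range n, γ k * (x / y) ^ k) / n) = 1 := by ring
      rw [e2, norm_one] at e1
      linarith
  refine ⟨fun x y => ‖(1 : ℂ) - (∑ k ∈ Finset.range n, γ k * (x / y) ^ k) / n‖ ≤ 1 / 4,
    max 1 (max T₁ e⁻¹), le_max_left _ _, fun t ht hor x y hx hy => ?_⟩
  rcases hor with h' | h'
  · have e1 : T₁ ≤ ‖t‖ := ((le_max_left _ _).trans (le_max_right _ _)).trans h'.le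
    exact key t x y (hT₁ e1 ht x y hx hy)
  · have e1 : e⁻¹ < ‖t‖⁻¹ := lt_of_le_of_lt ((le_max_right _ _).trans (le_max_right _ _)) h'
    have e2 : ‖t‖ < e := (inv_lt_inv₀ he (norm_pos_iff.2 ht.1)).1 e1
    exact key t x y (h3 (by rwa [dist_zero_right]) ht.1 ht x y hx hy)

theorem PS_eq (h : Cor G n r α (-α) a a Z) {Q : ℂ → ℂ → Prop} {T : ℝ}
    (hQ : ∀ t, Gd G α (-α) a a t → (T < ‖t‖ ∨ T < ‖t‖⁻¹) →
      ∀ x y, G.eval x = wv α a t → G.eval y = wv (-α) a t → (Z t x y ↔ Q x y)) (i k : ℕ) (s t : ℂ)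
    (hs : Gd G α (-α) a a s) (ht : Gd G α (-α) a a t) (hs' : T < ‖s‖ ∨ T < ‖s‖⁻¹)
    (ht' : T < ‖t‖ ∨ T < ‖t‖⁻¹) (hw : wv α a s = wv α a t) :
    PS G α (-α) a a Z (ph G n i k) s = PS G α (-α) a a Z (ph G n i k) t := by
  classical
  have e : wv (-α) a s = wv (-α) a t := by rw [wv_neg, wv_neg, hw]
  unfold PS
  rw [hw, e]
  congr 1
  apply Multiset.map_congr rfl
  intro x hx
  congr 1
  apply Multiset.map_congr rfl
  intro y hy
  have hx' := mem_rt' h hx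
  have hy' := mem_rt' h hy
  have e1 := hQ s hs hs' x y (by rw [hx', hw]) (by rw [hy', e])
  have e2 := hQ t ht ht' x y hx' hy'
  by_cases hz : Z t x y
  · rw [if_pos hz, if_pos (e1.2 (e2.1 hz))]
    rfl
  · rw [if_neg hz, if_neg (fun h' => hz (e2.2 (e1.1 h')))]

end

end Pool.Agent.K9h21.GP.T2_

namespace Pool.Agent.K9h21.GP

open Polynomial Filter Topology TJ_ T1_ T2_

theorem t2 (h1 : S_ASY) : S_T2 := by
  classical
  intro G n r α a Z h i k hi hk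
  have hn := h.hn
  have hG0 := der_ne G n h.deg h.hn
  have hF1 := Br_fin G hG0 α a h.hα h.ha.ne'
  have hF2 := Br_fin G hG0 (-α) a h.hα' h.hb.ne'
  obtain ⟨Q, T, hT1, hQ⟩ := rel h1 h
  obtain ⟨A, hA⟩ : ∃ A : ℕ, a = A := ⟨a.toNat, by have := h.ha; omega⟩
  obtain ⟨K₂, hK2, hup⟩ := wv_up α h.hα A
  set M : ℝ := max (K₂ * (2 * T) ^ A) 3 with hM
  obtain ⟨T', hT'1, hT'⟩ := GEO_.wv_proper α a h.hα h.ha.ne' M
  set Z₀ : Finset ℂ := insert 0 (hF1.toFinset ∪ hF2.toFinset) with hZ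
  have hgood : ∀ t, t ∉ Z₀ → Gd G α (-α) a a t := by
    intro t ht
    rw [hZ, Finset.mem_insert, Finset.mem_union, Set.Finite.mem_toFinset, Set.Finite.mem_toFinset,
      not_or, not_or] at ht
    exact ⟨ht.1, fun x hx h0 => ht.2.1 ⟨ht.1, x, h0, hx⟩, fun y hy h0 => ht.2.2 ⟨ht.1, y, h0, hy⟩⟩
  have hgood' : ∀ t, Gd G α (-α) a a t → t ∉ Z₀ := by
    intro t ht
    rw [hZ, Finset.mem_insert, Finset.mem_union, Set.Finite.mem_toFinset, Set.Finite.mem_toFinset,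
      not_or, not_or]
    exact ⟨ht.1, fun ⟨_, x, h0, hx⟩ => ht.2.1 x hx h0, fun ⟨_, y, h0, hy⟩ => ht.2.2 y hy h0⟩
  obtain ⟨t₀, ⟨ht0, ht0T⟩, ht0T'⟩ := (((hZc Z₀).and (hbig T)).and (hbig T')).exists
  have hg0 := hgood t₀ ht0
  have hM0 : M < ‖wv α a t₀‖ := by
    by_contra hcon
    have := (hT' t₀ hg0.1 (not_lt.1 hcon)).1
    linarith
  have hfar : ∀ s, s ≠ 0 → wv α a s = wv α a t₀ → (T < ‖s‖ ∨ T < ‖s‖⁻¹) := by
    intro s hs hw
    by_contra hcon
    push Not at hcon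
    have e1 := hup s hs
    rw [← hA, hw] at e1
    have e2 : (‖s‖ + ‖s‖⁻¹) ^ A ≤ (2 * T) ^ A :=
      pow_le_pow_left₀ (by positivity) (by linarith [hcon.1, hcon.2]) A
    have e3 : ‖wv α a t₀‖ ≤ K₂ * (2 * T) ^ A := e1.trans (mul_le_mul_of_nonneg_left e2 hK2.le)
    have e4 : K₂ * (2 * T) ^ A ≤ M := le_max_left _ _
    linarith
  have h4 : (wv α a t₀) ^ 2 ≠ 4 := by
    intro h'
    have e1 : ‖wv α a t₀‖ ^ 2 = 4 := by
      rw [← norm_pow, h']
      norm_num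
    have e2 : (3 : ℝ) ≤ M := le_max_right _ _
    nlinarith
  have hgs : ∀ s, s ≠ 0 → wv α a s = wv α a t₀ → Gd G α (-α) a a s := by
    intro s hs hw
    exact ⟨hs, fun x hx => hg0.2.1 x (by rw [hx, hw]),
      fun y hy => hg0.2.2 y (by rw [hy, wv_neg, wv_neg, hw])⟩
  set TT : ℂ → ℂ := PS G α (-α) a a Z (ph G n i k) with hTT
  have hTs : ∀ s, s ≠ 0 → wv α a s = wv α a t₀ → TT s = TT t₀ := fun s hs hw =>
    PS_eq h hQ i k s t₀ (hgs s hs hw) hg0 (hfar s hs hw) (Or.inl ht0T) hw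
  have hF3 := GEO_.wv_finite α a h.hα h.ha.ne' (wv α a t₀)
  set Z₁ : Finset ℂ := Z₀ ∪ hF3.toFinset with hZ1
  have hmem1 : ∀ t, t ∉ Z₁ → t ∉ Z₀ ∧ t ≠ 0 ∧ wv α a t - wv α a t₀ ≠ 0 := by
    intro t ht
    rw [hZ1, Finset.mem_union, not_or, Set.Finite.mem_toFinset] at ht
    have h0 := (hgood t ht.1).1
    exact ⟨ht.1, h0, fun h' => ht.2 ⟨h0, sub_eq_zero.1 h'⟩⟩
  set S : ℂ → ℂ := fun t => (TT t - TT t₀) / (wv α a t - wv α a t₀) with hS
  have hsm : ∀ η : ℝ, 0 < η → ∃ T₃ : ℝ, 1 ≤ T₃ ∧ ∀ t : ℂ, t ≠ 0 → (T₃ < ‖t‖ ∨ T₃ < ‖t‖⁻¹) →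
      ‖S t‖ ≤ η := by
    intro η hη
    obtain ⟨T₄, hT41, hT4⟩ := grow h i k hk (η / 4) (by positivity)
    obtain ⟨T₅, hT51, hT5⟩ := GEO_.wv_proper α a h.hα h.ha.ne'
      (1 + 2 * ‖wv α a t₀‖ + 4 * ‖TT t₀‖ / η)
    refine ⟨max T₄ T₅, le_max_of_le_left hT41, fun t ht hor => ?_⟩
    have hor1 : T₄ < ‖t‖ ∨ T₄ < ‖t‖⁻¹ :=
      hor.imp (lt_of_le_of_lt (le_max_left _ _)) (lt_of_le_of_lt (le_max_left _ _))
    have hor2 : T₅ < ‖t‖ ∨ T₅ < ‖t‖⁻¹ :=
      hor.imp (lt_of_le_of_lt (le_max_right _ _)) (lt_of_le_of_lt (le_max_right _ _))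
    have hW : 1 + 2 * ‖wv α a t₀‖ + 4 * ‖TT t₀‖ / η < ‖wv α a t‖ := by
      by_contra hcon
      obtain ⟨e1, e2⟩ := hT5 t ht (not_lt.1 hcon)
      rcases hor2 with h' | h' <;> linarith
    have e1 := hT4 t ht hor1
    have e2 : ‖wv α a t‖ - ‖wv α a t₀‖ ≤ ‖wv α a t - wv α a t₀‖ := norm_sub_norm_le _ _
    have e3 : ‖TT t - TT t₀‖ ≤ ‖TT t‖ + ‖TT t₀‖ := norm_sub_le _ _
    have e4 := norm_nonneg (wv α a t₀)
    have e5 := norm_nonneg (TT t₀)
    have e6 : 4 * ‖TT t₀‖ / η ≤ ‖wv α a t‖ := by linarith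
    rw [div_le_iff₀ hη] at e6
    have e7 : 0 ≤ 4 * ‖TT t₀‖ / η := by positivity
    have e8 : 0 < ‖wv α a t - wv α a t₀‖ := by linarith
    rw [hS]
    simp only
    rw [norm_div, div_le_iff₀ e8]
    have e9 : ‖TT t‖ ≤ η / 4 * (1 + ‖wv α a t‖) := e1
    have e10 : (1 + ‖wv α a t‖) / 2 ≤ ‖wv α a t - wv α a t₀‖ := by linarith
    have e11 : η * ((1 + ‖wv α a t‖) / 2) ≤ η * ‖wv α a t - wv α a t₀‖ :=
      mul_le_mul_of_nonneg_left e10 hη.le
    nlinarith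
  obtain ⟨T₃, hT31, hT3⟩ := hsm 1 one_pos
  obtain ⟨γ', hγ'⟩ := removal_const Z₁ S (by
      intro t ht
      have ht' : t ∉ Z₁ := fun h' => ht (Finset.mem_coe.2 h')
      obtain ⟨f1, f2, f3⟩ := hmem1 t ht'
      have g1 : DifferentiableAt ℂ TT t := T_diff h i k (hgood t f1)
      have g2 : DifferentiableAt ℂ (wv α a) t := (GEO_.wv_deriv α a t h.hα f2).differentiableAt
      exact (DifferentiableAt.fun_div (g1.sub_const _) (g2.sub_const _) f3).differentiableWithinAt) (by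
      intro s hs
      by_cases h0 : s = 0
      · subst h0
        rw [tendsto_zero_iff_norm_tendsto_zero]
        have hup' : Tendsto (fun t : ℂ => ‖t‖) (𝓝[≠] 0) (𝓝 0) := by
          have h3 : Tendsto (fun t : ℂ => ‖t‖) (𝓝 0) (𝓝 ‖(0 : ℂ)‖) := continuous_norm.tendsto 0
          rw [norm_zero] at h3
          exact h3.mono_left nhdsWithin_le_nhds
        refine squeeze_zero' (Eventually.of_forall fun t => norm_nonneg _) ?_ hup'
        have hball : ∀ᶠ t : ℂ in 𝓝[≠] 0, ‖t‖ < T₃⁻¹ :=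
          hup'.eventually (gt_mem_nhds (inv_pos.2 (by linarith)))
        filter_upwards [self_mem_nhdsWithin, hball] with t ht htT
        have ht' : t ≠ 0 := ht
        have h2 : 0 < ‖t‖ := norm_pos_iff.2 ht'
        have h3 : T₃ < ‖t‖⁻¹ := (lt_inv_comm₀ h2 (by linarith)).1 htT
        rw [sub_zero, norm_mul]
        calc ‖t‖ * ‖S t‖ ≤ ‖t‖ * 1 := mul_le_mul_of_nonneg_left (hT3 t ht' (Or.inr h3)) (norm_nonneg _)
          _ = ‖t‖ := mul_one _
      · by_cases hw : wv α a s = wv α a t₀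
        · -- a third kind point
          have hd := T_diff h i k (hgs s h0 hw)
          have hc : Tendsto TT (𝓝[≠] s) (𝓝 (TT t₀)) := by
            rw [← hTs s h0 hw]
            exact hd.continuousAt.tendsto.mono_left nhdsWithin_le_nhds
          obtain ⟨c, hc0, hcl⟩ := wv_lower α a h.hα h.ha.ne' s h0 (by rw [hw]; exact h4)
          rw [tendsto_zero_iff_norm_tendsto_zero]
          have hup' : Tendsto (fun t : ℂ => c⁻¹ * ‖TT t - TT t₀‖) (𝓝[≠] s) (𝓝 0) := by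
            have := (hc.sub_const (TT t₀)).norm.const_mul c⁻¹
            simpa using this
          refine squeeze_zero' (Eventually.of_forall fun t => norm_nonneg _) ?_ hup'
          filter_upwards [hcl, self_mem_nhdsWithin] with t h5 hts
          have hd0 : 0 < ‖t - s‖ := norm_pos_iff.2 (sub_ne_zero.2 hts)
          rw [hw] at h5
          have h6 : 0 < ‖wv α a t - wv α a t₀‖ := lt_of_lt_of_le (by positivity) h5
          rw [hS]
          simp only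
          rw [norm_mul, norm_div, ← mul_div_assoc, div_le_iff₀ h6]
          have h7 : ‖t - s‖ ≤ c⁻¹ * ‖wv α a t - wv α a t₀‖ := by
            rw [le_inv_mul_iff₀ hc0]
            exact h5
          calc ‖t - s‖ * ‖TT t - TT t₀‖ ≤ (c⁻¹ * ‖wv α a t - wv α a t₀‖) * ‖TT t - TT t₀‖ :=
                mul_le_mul_of_nonneg_right h7 (norm_nonneg _)
            _ = _ := by ring
        · have g1 := T_local h i k s h0
          have g2 : Tendsto (fun t : ℂ => (t - s) * TT t₀) (𝓝[≠] s) (𝓝 0) := by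
            have : Tendsto (fun t : ℂ => (t - s) * TT t₀) (𝓝 s) (𝓝 ((s - s) * TT t₀)) := by
              apply Continuous.tendsto
              fun_prop
            rw [sub_self, zero_mul] at this
            exact this.mono_left nhdsWithin_le_nhds
          have g3 : Tendsto (fun t : ℂ => wv α a t - wv α a t₀) (𝓝[≠] s)
              (𝓝 (wv α a s - wv α a t₀)) :=
            ((GEO_.wv_deriv α a s h.hα h0).continuousAt.tendsto.sub_const _).mono_left
              nhdsWithin_le_nhds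
          have g4 := (g1.sub g2).div g3 (sub_ne_zero.2 hw)
          rw [sub_zero, zero_div] at g4
          refine g4.congr fun t => ?_
          rw [hS]
          simp only [Pi.div_apply, hTT]
          ring) 1 (by
      filter_upwards [hZc Z₁, hbig T₃] with t ht htT
      exact hT3 t (hmem1 t ht).2.1 (Or.inl htT))
  have hγ0 : γ' = 0 := by
    by_contra hne
    have hpos : 0 < ‖γ'‖ := norm_pos_iff.2 hne
    obtain ⟨T₆, hT61, hT6⟩ := hsm (‖γ'‖ / 2) (by positivity)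
    obtain ⟨t, ht, htT⟩ := ((hZc Z₁).and (hbig T₆)).exists
    have e1 := hT6 t (hmem1 t ht).2.1 (Or.inl htT)
    rw [hγ' t ht] at e1
    linarith
  refine ⟨TT t₀, fun t ht => ?_⟩
  change TT t = TT t₀
  by_cases hw : wv α a t = wv α a t₀
  · exact hTs t ht.1 hw
  · have ht1 : t ∉ Z₁ := by
      rw [hZ1, Finset.mem_union, not_or, Set.Finite.mem_toFinset]
      exact ⟨hgood' t ht, fun h' => hw h'.2⟩
    have e1 := hγ' t ht1
    rw [hγ0, hS] at e1
    simp only at e1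
    rw [div_eq_zero_iff] at e1
    rcases e1 with e1 | e1
    · exact sub_eq_zero.1 e1
    · exact absurd (sub_eq_zero.1 e1) hw

end Pool.Agent.K9h21.GP
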