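import Pool.Agent.K9h21.GP.GeoAll
import Pool.Agent.K9h21.GP.T2
import Pool.Agent.K9h21.GP.FinB
import Pool.Agent.K9h21.GP.Red

set_option autoImplicit false

/-!
# Project GPA: the proofs of `S_T2` and `S_RED`
-/

namespace Pool.Agent.K9h21.GP

theorem t2All : S_T2 := t2 (asy est fou t1 sym)

theorem redAll : S_RED := red finb

end Pool.Agent.K9h21.GP
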