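import Pool.Agent.K9h21.GP.Stm

/-! Leaf SEL (helper72): many roots of unity of large order without conflicts. -/

set_option autoImplicit false

namespace Pool.Agent.K9h21.GP

open Polynomial Finset

/-- roots of unity of order less than `k₀` -/
lemma sel_small (N k₀ : ℕ) (A : Finset ℂ) (hA : ∀ ζ ∈ A, ζ ^ N = 1 ∧ orderOf ζ < k₀) (hN : 0 < N) :
    A.card ≤ k₀ * k₀ := by
  classical
  have hsub : A ⊆ (range k₀).biUnion fun d => (nthRootsFinset d (1 : ℂ)) := by
    intro ζ hζ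
    obtain ⟨h1, h2⟩ := hA ζ hζ
    rw [mem_biUnion]
    refine ⟨orderOf ζ, mem_range.2 h2, ?_⟩
    have h3 : 0 < orderOf ζ := orderOf_pos_iff.2 (isOfFinOrder_iff_pow_eq_one.2 ⟨N, hN, h1⟩)
    rw [mem_nthRootsFinset h3]
    exact pow_orderOf_eq_one ζ
  refine (card_le_card hsub).trans (card_biUnion_le.trans ?_)
  calc ∑ d ∈ range k₀, (nthRootsFinset d (1 : ℂ)).card ≤ ∑ d ∈ range k₀, k₀ := by
        refine sum_le_sum fun d hd => ?_
        rw [nthRootsFinset_def]
        exact ((Multiset.toFinset_card_le _).trans (card_nthRoots _ _)).trans (mem_range.1 hd).le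
    _ = k₀ * k₀ := by rw [sum_const, card_range, smul_eq_mul]

/-- at least `(N - 2) / 2` roots of unity in the upper half plane -/
lemma sel_upper (N : ℕ) (hN : 0 < N) :
    N ≤ 2 * ((nthRootsFinset N (1 : ℂ)).filter fun ζ => 0 < ζ.im).card + 2 := by
  classical
  have hc : (nthRootsFinset N (1 : ℂ)).card = N :=
    (Complex.isPrimitiveRoot_exp N hN.ne').card_nthRootsFinset
  set R := nthRootsFinset N (1 : ℂ) with hR
  have hmem : ∀ ζ, ζ ∈ R ↔ ζ ^ N = 1 := fun ζ => mem_nthRootsFinset hN 1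
  have h1 : R ⊆ (R.filter fun ζ => 0 < ζ.im) ∪ ((R.filter fun ζ => 0 < ζ.im).image (starRingEnd ℂ)) ∪
      {1, -1} := by
    intro ζ hζ
    rw [mem_union, mem_union]
    rcases lt_trichotomy ζ.im 0 with h | h | h
    · left; right
      rw [mem_image]
      refine ⟨starRingEnd ℂ ζ, ?_, Complex.conj_conj ζ⟩
      rw [mem_filter, hmem]
      refine ⟨?_, ?_⟩
      · rw [← map_pow, (hmem ζ).1 hζ, map_one]
      · rw [Complex.conj_im]; linarith
    · right
      have hn : ‖ζ‖ = 1 := by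
        have := (hmem ζ).1 hζ
        exact Complex.norm_eq_one_of_pow_eq_one this hN.ne'
      have h2 : ζ = (ζ.re : ℂ) := by
        apply Complex.ext <;> simp [h]
      have h3 : |ζ.re| = 1 := by
        rw [h2] at hn
        rwa [Complex.norm_real, Real.norm_eq_abs] at hn
      rcases eq_or_eq_neg_of_abs_eq h3 with h4 | h4
      · rw [h2, h4]; simp
      · rw [h2, h4]; simp
    · left; left
      rw [mem_filter]
      exact ⟨hζ, h⟩
  have h2 := card_le_card h1
  have h3 := card_union_le ((R.filter fun ζ => 0 < ζ.im) ∪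
    ((R.filter fun ζ => 0 < ζ.im).image (starRingEnd ℂ))) ({1, -1} : Finset ℂ)
  have h4 := card_union_le (R.filter fun ζ => 0 < ζ.im)
    ((R.filter fun ζ => 0 < ζ.im).image (starRingEnd ℂ))
  have h5 : ((R.filter fun ζ => 0 < ζ.im).image (starRingEnd ℂ)).card ≤
    (R.filter fun ζ => 0 < ζ.im).card := card_image_le
  have h6 : ({1, -1} : Finset ℂ).card ≤ 2 := card_le_two
  omega

/-- a maximal subset without conflicts -/
lemma sel_max (Δ : ℕ) (Bd : ℂ → ℂ → Prop) (A : Finset ℂ)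
    (h : ∀ s ∈ A, ∀ T : Finset ℂ, T ⊆ A → (∀ ζ ∈ T, Bd ζ s) → T.card ≤ Δ) :
    ∃ S : Finset ℂ, S ⊆ A ∧ A.card ≤ (Δ + 1) * S.card ∧
      ∀ x ∈ S, ∀ y ∈ S, x ≠ y → ¬ Bd x y ∨ ¬ Bd y x := by
  classical
  set P : Finset (Finset ℂ) := A.powerset.filter
    (fun S => ∀ x ∈ S, ∀ y ∈ S, x ≠ y → ¬ Bd x y ∨ ¬ Bd y x) with hP
  have hne : P.Nonempty := ⟨∅, by rw [hP, mem_filter]; simp⟩
  obtain ⟨S, hS, hmax⟩ := exists_max_image P Finset.card hne
  rw [hP, mem_filter, mem_powerset] at hS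
  refine ⟨S, hS.1, ?_, hS.2⟩
  have hcov : A ⊆ S ∪ S.biUnion fun s => A.filter fun ζ => Bd ζ s := by
    intro a ha
    by_contra hcon
    rw [mem_union, not_or, mem_biUnion] at hcon
    obtain ⟨h1, h2⟩ := hcon
    have h3 : insert a S ∈ P := by
      rw [hP, mem_filter, mem_powerset]
      refine ⟨insert_subset ha hS.1, ?_⟩
      intro x hx y hy hxy
      rw [mem_insert] at hx hy
      rcases hx with rfl | hx
      · rcases hy with rfl | hy
        · exact absurd rfl hxy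
        · left
          intro hB
          exact h2 ⟨y, hy, mem_filter.2 ⟨ha, hB⟩⟩
      · rcases hy with rfl | hy
        · right
          intro hB
          exact h2 ⟨x, hx, mem_filter.2 ⟨ha, hB⟩⟩
        · exact hS.2 x hx y hy hxy
    have h4 := hmax _ h3
    rw [card_insert_of_notMem h1] at h4
    omega
  have h5 := card_le_card hcov
  have h6 := card_union_le S (S.biUnion fun s => A.filter fun ζ => Bd ζ s)
  have h7 : (S.biUnion fun s => A.filter fun ζ => Bd ζ s).card ≤ S.card * Δ := by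
    refine card_biUnion_le_card_mul _ _ _ fun s hs => ?_
    exact h s (hS.1 hs) _ (filter_subset _ _) fun ζ hζ => (mem_filter.1 hζ).2
  calc A.card ≤ S.card + S.card * Δ := by omega
    _ = (Δ + 1) * S.card := by ring

theorem sel : S_SEL := by
  classical
  intro k₀ Δ Bd hBd
  refine ⟨2 * (Δ + 1) + 2 * (k₀ * k₀) + 2, fun N hN => ?_⟩
  set B := (nthRootsFinset N (1 : ℂ)).filter fun ζ => 0 < ζ.im with hB
  set A := B.filter fun ζ => k₀ ≤ orderOf ζ with hA
  have hmemB : ∀ ζ ∈ B, ζ ^ N = 1 ∧ 0 < ζ.im := by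
    intro ζ hζ
    rw [hB, mem_filter, mem_nthRootsFinset hN] at hζ
    exact hζ
  have hmemA : ∀ ζ ∈ A, ζ ^ N = 1 ∧ 0 < ζ.im ∧ k₀ ≤ orderOf ζ := by
    intro ζ hζ
    rw [hA, mem_filter] at hζ
    exact ⟨(hmemB ζ hζ.1).1, (hmemB ζ hζ.1).2, hζ.2⟩
  have h1 := sel_upper N hN
  rw [← hB] at h1
  have h2 : (B.filter fun ζ => ¬ k₀ ≤ orderOf ζ).card ≤ k₀ * k₀ := by
    refine sel_small N k₀ _ (fun ζ hζ => ?_) hN
    rw [mem_filter] at hζ
    exact ⟨(hmemB ζ hζ.1).1, not_le.1 hζ.2⟩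
  have h3 : A.card + (B.filter fun ζ => ¬ k₀ ≤ orderOf ζ).card = B.card :=
    card_filter_add_card_filter_not (s := B) (fun ζ => k₀ ≤ orderOf ζ)
  obtain ⟨S, hS1, hS2, hS3⟩ := sel_max Δ Bd A (by
    intro s hs T hT hT2
    have hs0 : s ≠ 0 := by
      rintro rfl
      have := (hmemA 0 hs).2.1
      simp at this
    refine hBd s hs0 T fun ζ hζ => ⟨?_, hT2 ζ hζ⟩
    rintro rfl
    have := (hmemA 0 (hT hζ)).2.1
    simp at this)
  refine ⟨S.card, fun i => (S.equivFin.symm i : ℂ), ?_, ?_, ?_, ?_⟩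
  · have : N ≤ 2 * ((Δ + 1) * S.card) + 2 * (k₀ * k₀) + 2 := by omega
    calc N ≤ 2 * ((Δ + 1) * S.card) + 2 * (k₀ * k₀) + 2 := this
      _ ≤ (2 * (Δ + 1) + 2 * (k₀ * k₀) + 2) * (S.card + 1) := by
        have e : (2 * (Δ + 1) + 2 * (k₀ * k₀) + 2) * (S.card + 1) =
            2 * ((Δ + 1) * S.card) + 2 * (k₀ * k₀) + 2 +
              (2 * (Δ + 1) + (2 * (k₀ * k₀) + 2) * S.card) := by ring
        rw [e]
        exact Nat.le_add_right _ _
  · intro i
    have := hmemA _ (hS1 (S.equivFin.symm i).2)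
    exact ⟨this.1, this.2.2⟩
  · intro i j hij
    have hi := hmemA _ (hS1 (S.equivFin.symm i).2)
    have hj := hmemA _ (hS1 (S.equivFin.symm j).2)
    have hij' : ((S.equivFin.symm i : S) : ℂ) + ((S.equivFin.symm i : S) : ℂ)⁻¹ =
      ((S.equivFin.symm j : S) : ℂ) + ((S.equivFin.symm j : S) : ℂ)⁻¹ := hij
    obtain ⟨x, hx⟩ : ∃ x, x = ((S.equivFin.symm i : S) : ℂ) := ⟨_, rfl⟩
    obtain ⟨y, hy⟩ : ∃ y, y = ((S.equivFin.symm j : S) : ℂ) := ⟨_, rfl⟩
    rw [← hx] at hi hij'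
    rw [← hy] at hj hij'
    have hx0 : x ≠ 0 := by
      rintro rfl
      simp at hi
    have hy0 : y ≠ 0 := by
      rintro rfl
      simp at hj
    have h4 : (x - y) * (x * y - 1) = 0 := by
      have h5 : (x - y) * (x * y - 1) = ((x + x⁻¹) - (y + y⁻¹)) * (x * y) := by
        field_simp
        ring
      rw [h5, hij', sub_self, zero_mul]
    rcases mul_eq_zero.1 h4 with h5 | h5
    · have h6 : x = y := sub_eq_zero.1 h5
      rw [hx, hy] at h6
      have h7 := Subtype.ext h6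
      exact S.equivFin.symm.injective h7
    · exfalso
      have h6 : x * y = 1 := sub_eq_zero.1 h5
      have hny : ‖y‖ = 1 := Complex.norm_eq_one_of_pow_eq_one hj.1 hN.ne'
      have h7 : x = (starRingEnd ℂ) y := by
        have h8 : (starRingEnd ℂ) y * y = 1 := by
          rw [mul_comm, Complex.mul_conj, Complex.normSq_eq_norm_sq, hny]
          simp
        exact mul_right_cancel₀ hy0 (h6.trans h8.symm)
      have h9 := hi.2.1
      rw [h7, Complex.conj_im] at h9
      linarith [hj.2.1]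
  · intro i j hij
    refine hS3 _ (S.equivFin.symm i).2 _ (S.equivFin.symm j).2 fun h => hij ?_
    exact S.equivFin.symm.injective (Subtype.ext h)

end Pool.Agent.K9h21.GP
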