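import Mathlib

set_option autoImplicit false

/-!
# Project GP: all curves `z + 1/z = F(x)`, all levels. Statements which need only Mathlib.

Notation: `G` is a monic polynomial without the critical values `± 2`; the special points over `η + 1/η` are the roots of
`G - (η + 1/η)`.
-/

namespace Pool.Agent.K9h21.GP

open Polynomial IntermediateField Filter Topology

/-- the value `η + 1/η` at `η = α t ^ a` -/
noncomputable def wv (α : ℂ) (a : ℤ) (t : ℂ) : ℂ := α * t ^ a + (α * t ^ a)⁻¹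

/-- the polynomial in `V` of degree `r` with the leading coefficient `d(x)` and the coefficients `∑ i, c m i x ^ i`, `m < r` -/
noncomputable def Th {r D : ℕ} (c : Fin r → Fin D → ℂ) (d : ℂ[X]) (x V : ℂ) : ℂ :=
  (∑ m, (∑ i, c m i * x ^ (i : ℕ)) * V ^ (m : ℕ)) + d.eval x * V ^ r

/-- GEO: irreducibility of the fibre products.

Let `w(t) = α t ^ a + ...`, `w'(t) = α' t ^ b + ...`, `b ≠ 0`. Suppose that for all `t ≠ 0` and all roots `x` of `G₁ - w(t)` the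
polynomial `G₁'(x)² (G(V) - w'(t))` is the product of the polynomials `Th c(t) x V` and `Th c'(t) x V` of degrees `r`, `r'` in
`V` with the leading coefficient `G₁'(x)`, whose other coefficients are polynomials in `x` with coefficients analytic in
`t ≠ 0`. Then some `t ≠ 0` is a branch point of both families: `w(t)` is a critical value of `G₁` and `w'(t)` of `G`.

Proof. Suppose not. If `a = 0` then `w = w(t)` is not a critical value of `G₁` (some `w'(t)` is one of `G`, as `r + r' ≥ 2`).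
So `Br = {t ≠ 0 | w(t) critical value of G₁}` is finite. For `t ∉ Br`, `t ≠ 0`, and a root `x` of `G₁ - w(t)` let `Q = Th c / G₁'(x)`,
`Q' = Th c' / G₁'(x)`: monic polynomials in `V` with `Q Q' = G - w'(t)`, and `N(t) = ∏_x Res(Q, Q')` (over the `n₁` different
roots `x`; `Polynomial.resultant`, `resultant_eq_prod_roots_sub`, `resultant_eq_zero_iff`). Locally the roots `x(t)` are
analytic in `t`, so `N` is analytic at `t ∉ Br`, `t ≠ 0`. `N(t₀) ≠ 0`: at a common root `v` of `Q_{t₀}`, `Q'_{t₀}` (at `x₀`) differentiate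
`Q(v) Q'(v) = G(v) - w'(t)` in `t` along the branch `x(t)`: the derivative of `w'` at `t₀` is `0`, so `α' t₀^b = ± 1`,
`w'(t₀) = ± 2`, and `v` is a double root of `G - w'(t₀)`: `G'(v) = 0`, `G(v)² = 4`, contradiction. Near `s ∈ Br`: `w'(s)` is not
critical for `G`, so different roots of `G - w'(t)` have distance `≥ δ` for `t` near `s`, so `|N| ≥ δ^(n₁ r r')`. For `t → 0` and
`t → ∞`: `|w'(t)| → ∞`, and the distances between different roots of `G - w'(t)` tend to `∞`, so `|N(t)| → ∞`. So `1/N` is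
analytic outside a finite set, bounded near the points of the finite set and tends to `0` at `∞`; so it is `0` (removable
singularities and Liouville), contradiction. -/
def S_GEO : Prop := ∀ (G₁ G : ℂ[X]) (n₁ r r' : ℕ) (α α' : ℂ) (a b : ℤ), G₁.Monic → G₁.natDegree = n₁ → 0 < n₁ →
  G.Monic → G.natDegree = r + r' → 0 < r → 0 < r' → α ≠ 0 → α' ≠ 0 → b ≠ 0 →
  (∀ x, (derivative G).eval x = 0 → (G.eval x) ^ 2 ≠ 4) →
  ∀ (D : ℕ) (c : Fin r → Fin D → ℂ → ℂ) (c' : Fin r' → Fin D → ℂ → ℂ),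
  (∀ m i, DifferentiableOn ℂ (c m i) {0}ᶜ) → (∀ m i, DifferentiableOn ℂ (c' m i) {0}ᶜ) →
  (∀ t : ℂ, t ≠ 0 → ∀ x : ℂ, G₁.eval x = wv α a t → ∀ V : ℂ,
    Th (fun m i => c m i t) (derivative G₁) x V * Th (fun m i => c' m i t) (derivative G₁) x V =
      (derivative G₁).eval x ^ 2 * (G.eval V - wv α' b t)) →
  ∃ t : ℂ, t ≠ 0 ∧ (∃ x, (derivative G₁).eval x = 0 ∧ G₁.eval x = wv α a t) ∧
    ∃ y, (derivative G).eval y = 0 ∧ G.eval y = wv α' b t

/-- TRP: the factor `minpoly k⟮b⟯ c` of `g` over `k(b)` in terms of integral elements of `k` with bounded conjugates.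

Proof. `R = minpoly k⟮b⟯ c`, `g = R R'` over `k(b)`; `(f(X) - f(b)) / (X - b) = ∑ g_q X^q`; `c₁ m q = Tr_{k(b)/k}(R_m g_q)`,
`c₂ m q = Tr(R'_m g_q)`. For an embedding `S` of `k` the embeddings `φ` of `k(b)` above `S` correspond to the roots `β = φ(b)` of
`f.map S` (`trace_eq_sum_embeddings`), and `∑_q φ(g_q) β₀^q = (f(X)/(X - φ b))(β₀)` is `0` for `φ(b) ≠ β₀` and `f'(β₀)` for `φ(b) = β₀`. So
`Th c₁ (β₀) V = f'(β₀) (φ₀ R)(V)` (the leading coefficient also: `∑_φ f(X)/(X - φ b) = f'(X)`). Bounds: the coefficients of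
`φ(R)` are bounded since its roots are roots of `g.map S` (`Polynomial.coeff_le_of_roots_le`). -/
def S_TRP.{v} : Prop := ∀ (n n' : ℕ) (B : ℝ), ∃ C : ℝ, ∀ (k E : Type v) [Field k] [NumberField k] [Field E] [NumberField E]
  [Algebra k E] (f g : k[X]) (b c : E), f.Monic → f.natDegree = n → (∀ i, IsIntegral ℤ (f.coeff i)) → g.Monic →
  g.natDegree = n' → (∀ i, IsIntegral ℤ (g.coeff i)) → minpoly k b = f → aeval c g = 0 →
  (∀ (τ : k →+* ℂ) (i : ℕ), ‖τ (f.coeff i)‖ ≤ B) → (∀ (τ : k →+* ℂ) (x : ℂ), (f.map τ).eval x = 0 → ‖x‖ ≤ B) →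
  (∀ (τ : k →+* ℂ) (x : ℂ), (g.map τ).eval x = 0 → ‖x‖ ≤ B) →
  ∀ (r r' : ℕ), (minpoly k⟮b⟯ c).natDegree = r → r + r' = n' →
  ∃ (c₁ : Fin r → Fin n → k) (c₂ : Fin r' → Fin n → k), (∀ m i, IsIntegral ℤ (c₁ m i)) ∧ (∀ m i, IsIntegral ℤ (c₂ m i)) ∧
    (∀ (τ : k →+* ℂ) m i, ‖τ (c₁ m i)‖ ≤ C) ∧ (∀ (τ : k →+* ℂ) m i, ‖τ (c₂ m i)‖ ≤ C) ∧
    ∀ (S : k →+* ℂ) (x : ℂ), (f.map S).eval x = 0 → ∀ V : ℂ,
      Th (fun m i => S (c₁ m i)) (derivative (f.map S)) x V * Th (fun m i => S (c₂ m i)) (derivative (f.map S)) x V =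
        (derivative (f.map S)).eval x ^ 2 * (g.map S).eval V

/-- AVG: independence over the embeddings.

Proof. `g_i(s) = f(s b_i) - f(s b'_i)`. For `i ≠ j` one has `∑_s g_i(s) g_j(s) = 0`, since for `x ∈ {b_i, b'_i}`, `y ∈ {b_j, b'_j}` the
pairs `(s x, s y)` are equidistributed on the pairs of roots of the minimal polynomials (`y` has the same degree over `k(x)`
as over `k`): `∑_s f(s x) f(s y) = [E:k] / (deg x deg y) (∑_β f(β)) (∑_γ f(γ))`, and `b_i`, `b'_i` have the same minimal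
polynomial. So `0 = ∑_s (∑_i a_i g_i(s))² = ∑_i ∑_s (a_i g_i(s))²`. -/
def S_AVG.{u, v} : Prop := ∀ (k : Type u) (E : Type v) [Field k] [Field E] [CharZero k] [Algebra k E]
  [FiniteDimensional k E] (s₂ : E →+* ℂ) (ι : Type) [Fintype ι] [DecidableEq ι] (b b' : ι → E),
  (∀ i, minpoly k (b' i) = minpoly k (b i)) →
  (∀ i j, i ≠ j → (∀ x ∈ ({b i, b' i} : Set E), ∀ y ∈ ({b j, b' j} : Set E),
      (minpoly k⟮x⟯ y).natDegree = (minpoly k y).natDegree) ∨
    (∀ x ∈ ({b i, b' i} : Set E), ∀ y ∈ ({b j, b' j} : Set E),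
      (minpoly k⟮y⟯ x).natDegree = (minpoly k x).natDegree)) →
  ∀ (f : ℂ → ℝ) (a : ι → ℝ), (∀ s : E →+* ℂ, s.comp (algebraMap k E) = s₂.comp (algebraMap k E) →
    ∑ i, a i * (f (s (b i)) - f (s (b' i))) = 0) →
  ∀ i, a i * (f (s₂ (b i)) - f (s₂ (b' i))) = 0

/-- bad pairs of special values -/
def Bad (G : ℂ[X]) (D : Finset (ℤ × ℤ)) (ζ ζ' : ℂ) : Prop :=
  ∃ p ∈ D, p.2 ≠ 0 ∧ ∃ t : ℂ, t ≠ 0 ∧ (∃ x, (derivative G).eval x = 0 ∧ G.eval x = wv ζ p.1 t) ∧
    ∃ y, (derivative G).eval y = 0 ∧ G.eval y = wv ζ' p.2 t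

/-- BDC: every `ζ'` forms bad pairs with boundedly many `ζ`. (For `p ∈ D` there are at most `|p.2| · 2 · #critical values` numbers
`t`, and for each `t` at most `2 · #critical values` numbers `ζ`.) -/
def S_BDC : Prop := ∀ (G : ℂ[X]) (D : Finset (ℤ × ℤ)), 2 ≤ G.natDegree → ∃ Δ : ℕ, ∀ ζ' : ℂ, ζ' ≠ 0 →
  ∀ T : Finset ℂ, (∀ ζ ∈ T, ζ ≠ 0 ∧ Bad G D ζ ζ') → T.card ≤ Δ

/-- SEL: many roots of unity of large order without conflicts. (Take the `exp(2πiu/N)`, `0 < u < N/2`, of order `≥ k₀`, these are at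
least `(N - 1)/2 - k₀²`, and a maximal subset `S` without conflicts `Bd η η' ∧ Bd η' η`; each element not in `S` has a conflict
with an element of `S`, so there are at most `Δ |S|` of them.) -/
def S_SEL : Prop := ∀ (k₀ Δ : ℕ) (Bd : ℂ → ℂ → Prop), (∀ ζ' : ℂ, ζ' ≠ 0 →
    ∀ T : Finset ℂ, (∀ ζ ∈ T, ζ ≠ 0 ∧ Bd ζ ζ') → T.card ≤ Δ) →
  ∃ C : ℕ, ∀ N : ℕ, 0 < N → ∃ (r : ℕ) (η : Fin r → ℂ), N ≤ C * (r + 1) ∧
    (∀ i, η i ^ N = 1 ∧ k₀ ≤ orderOf (η i)) ∧ Function.Injective (fun i => η i + (η i)⁻¹) ∧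
    ∀ i j, i ≠ j → ¬ Bd (η i) (η j) ∨ ¬ Bd (η j) (η i)

end Pool.Agent.K9h21.GP
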