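import Pool.Agent.K9h21.GP.Stm3

set_option autoImplicit false

/-!
# Project GP, leaf TCB (helper76): combinations of the other points of the fibre on one loop
-/

namespace Pool.Agent.K9h21.GP

open Polynomial MeasureTheory Set Filter Topology Complex
open Pool.Agent.N76.EC (Sys J P T Zp Wp Loop real_mem P_path T_diff P_near norm_cos_ge ld_Zp_im)
open Pool.Agent.N76.IR (Strip mem_Strip isOpen_Strip convex_Strip)
open scoped ComplexConjugate Interval Real

namespace Tcb

/-- growth of a monic polynomial -/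
theorem monic_growth {G : ℂ[X]} (hG : G.Monic) : ∃ M : ℝ, 1 ≤ M ∧ ∀ x : ℂ, M ≤ ‖x‖ →
    |Real.log ‖G.eval x‖ - G.natDegree * Real.log ‖x‖| ≤ Real.log 2 := by
  have hc : Tendsto (fun y : ℂ => ‖G.reverse.eval y‖) (𝓝 0) (𝓝 1) := by
    have h1 : Continuous fun y : ℂ => ‖G.reverse.eval y‖ := G.reverse.continuous.norm
    have h2 := h1.tendsto 0
    have h0 : G.reverse.eval 0 = 1 := by
      rw [← coeff_zero_eq_eval_zero, coeff_zero_reverse, hG.leadingCoeff]
    rw [h0, norm_one] at h2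
    exact h2
  have h1 : ∀ᶠ y : ℂ in 𝓝 0, 1 / 2 ≤ ‖G.reverse.eval y‖ ∧ ‖G.reverse.eval y‖ ≤ 2 := by
    have h2 := hc.eventually (Icc_mem_nhds (show (1 / 2 : ℝ) < 1 by norm_num) (show (1 : ℝ) < 2 by norm_num))
    filter_upwards [h2] with y hy
    exact ⟨hy.1, hy.2⟩
  obtain ⟨δ, hδ, hb⟩ := Metric.eventually_nhds_iff.1 h1
  refine ⟨max 1 (2 / δ), le_max_left _ _, fun x hx => ?_⟩
  have hx1 : 1 ≤ ‖x‖ := (le_max_left _ _).trans hx
  have hx2 : 2 / δ ≤ ‖x‖ := (le_max_right _ _).trans hx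
  have hx0 : 0 < ‖x‖ := by linarith
  have hxne : x ≠ 0 := norm_pos_iff.1 hx0
  have hin : dist x⁻¹ 0 < δ := by
    rw [dist_zero_right, norm_inv]
    rw [div_le_iff₀ hδ] at hx2
    rw [inv_lt_iff_one_lt_mul₀ hx0]
    linarith
  obtain ⟨h3, h4⟩ := hb hin
  let _ : Invertible x := invertibleOfNonzero hxne
  have h5 := eval₂_reverse_mul_pow (RingHom.id ℂ) x G
  rw [invOf_eq_inv] at h5
  change (G.reverse.eval x⁻¹) * x ^ G.natDegree = G.eval x at h5
  have h6 : 0 < ‖G.reverse.eval x⁻¹‖ := by linarith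
  rw [← h5, norm_mul, norm_pow, Real.log_mul h6.ne' (pow_pos hx0 _).ne', Real.log_pow, add_sub_cancel_right]
  rw [abs_le]
  constructor
  · have h7 := Real.log_le_log (by norm_num) h3
    rw [one_div, Real.log_inv] at h7
    exact h7
  · exact Real.log_le_log h6 h4

variable {G : ℂ[X]} {n : ℕ} {η φ₀ ε : ℝ} {L : Fin n → ℂ → ℂ} {X : Fin n → ℝ → ℂ}

theorem pos (S : Sys G n η φ₀ ε L X) (l : Fin n) (d : Fin n → ℝ) (hd : 0 < ∑ k ∈ Finset.univ.erase l, d k) :
    ∃ α : ℝ, |α - φ₀| < ε ∧ ∑ k ∈ Finset.univ.erase l, d k * J X η L l k α ≠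
      ∑ k ∈ Finset.univ.erase l, d k * J X η L l k φ₀ := by
  classical
  by_contra hcon
  push Not at hcon
  set E : Finset (Fin n) := Finset.univ.erase l with hE
  set V : ℂ → ℝ := fun θ => ∑ k ∈ E, d k * P (X l) (Zp η) (L k θ) with hV
  set Ψ : ℂ → ℂ := fun y => ∑ k ∈ E, (d k : ℂ) * (T (X l) (Zp η) (L k y) * deriv (L k) y) with hΨ
  have hπ := Real.pi_pos
  have hWo := isOpen_Strip φ₀ ε
  have hLd : ∀ k, ∀ y ∈ Strip φ₀ ε, DifferentiableAt ℂ (L k) y := fun k y hy =>
    (S.Ld k).differentiableAt (hWo.mem_nhds hy)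
  have havoid : ∀ y ∈ Strip φ₀ ε, ∀ k ∈ E, ∀ t : ℝ, X l t ≠ L k y := fun y hy k hk t =>
    S.avoid (Finset.ne_of_mem_erase hk).symm hy t
  have hVpath : ∀ {p : ℝ → ℂ} {p' : ℂ} {s : ℝ}, HasDerivAt p p' s → p s ∈ Strip φ₀ ε →
      HasDerivAt (fun s => V (p s)) (Ψ (p s) * p').im s := by
    intro p p' s hp hx
    have h1 : HasDerivAt (fun s => ∑ k ∈ E, d k * P (X l) (Zp η) (L k (p s)))
        (∑ k ∈ E, d k * (T (X l) (Zp η) (L k (p s)) * (deriv (L k) (p s) * p')).im) s := by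
      refine HasDerivAt.fun_sum fun k hk => ?_
      have h2 : HasDerivAt (fun s => L k (p s)) (deriv (L k) (p s) * p') s :=
        ((hLd k _ hx).hasDerivAt).comp s hp
      exact (P_path (S.loop l) h2 fun t => havoid _ hx k hk t).const_mul (d k)
    refine h1.congr_deriv ?_
    rw [hΨ]
    simp only
    rw [Finset.sum_mul, Complex.im_sum]
    refine Finset.sum_congr rfl fun k _ => ?_
    rw [mul_assoc, Complex.im_ofReal_mul, mul_assoc]
  have hconst : ∀ x : ℝ, |x - φ₀| < ε → V x = V φ₀ := fun x hx => hcon x hx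
  have hΨd : DifferentiableOn ℂ Ψ (Strip φ₀ ε) := by
    intro y hy
    have h3 : DifferentiableAt ℂ (fun y => ∑ k ∈ E, (d k : ℂ) * (T (X l) (Zp η) (L k y) * deriv (L k) y)) y := by
      refine DifferentiableAt.fun_sum fun k hk => ?_
      have h4 : DifferentiableAt ℂ (fun y => T (X l) (Zp η) (L k y)) y :=
        (T_diff (S.loop l) fun t => havoid y hy k hk t).comp y (hLd k y hy)
      have h5 : DifferentiableAt ℂ (deriv (L k)) y := ((S.Ld k).deriv hWo).differentiableAt (hWo.mem_nhds hy)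
      exact (h4.mul h5).const_mul _
    exact h3.differentiableWithinAt
  have hconjW : ∀ y, y ∈ Strip φ₀ ε → conj y ∈ Strip φ₀ ε := by
    intro y hy
    rw [mem_Strip] at hy ⊢
    rwa [Complex.conj_re]
  have hopen : ∀ x : ℝ, |x - φ₀| < ε → {s : ℝ | |s - φ₀| < ε} ∈ 𝓝 x := fun x hx =>
    IsOpen.mem_nhds (isOpen_lt (continuous_abs.comp (continuous_id.sub continuous_const)) continuous_const) hx
  have hΨr : ∀ x : ℝ, |x - φ₀| < ε → (Ψ x).im = 0 := by
    intro x hx
    have hxW : (x : ℂ) ∈ Strip φ₀ ε := real_mem hx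
    have h1 : HasDerivAt (fun s : ℝ => (s : ℂ)) 1 x := (hasDerivAt_id x).ofReal_comp
    have h2 := hVpath h1 hxW
    rw [mul_one] at h2
    have h3 : (fun s : ℝ => V (s : ℂ)) =ᶠ[𝓝 x] fun _ => V φ₀ := by
      filter_upwards [hopen x hx] with s hs
      exact hconst s hs
    have h5 : HasDerivAt (fun _ : ℝ => V φ₀) (Ψ x).im x := h2.congr_of_eventuallyEq h3.symm
    exact h5.unique (hasDerivAt_const x _)
  -- reflection
  have hsym : ∀ y ∈ Strip φ₀ ε, Ψ y = conj (Ψ (conj y)) := by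
    have h1 : AnalyticOnNhd ℂ Ψ (Strip φ₀ ε) := hΨd.analyticOnNhd hWo
    have h2 : AnalyticOnNhd ℂ (fun y => conj (Ψ (conj y))) (Strip φ₀ ε) := by
      refine DifferentiableOn.analyticOnNhd (fun y hy => ?_) hWo
      have h3 : DifferentiableAt ℂ (conj ∘ Ψ ∘ conj) y := by
        rw [differentiableAt_conj_conj_iff]
        exact hΨd.differentiableAt (hWo.mem_nhds (hconjW y hy))
      exact h3.differentiableWithinAt
    have hy0W : (φ₀ : ℂ) ∈ Strip φ₀ ε := real_mem S.φ_mem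
    have h3 : ∃ᶠ z in 𝓝[≠] (φ₀ : ℂ), Ψ z = conj (Ψ (conj z)) := by
      have h4 : Tendsto (fun x : ℝ => (x : ℂ)) (𝓝[≠] φ₀) (𝓝[≠] (φ₀ : ℂ)) := by
        refine tendsto_nhdsWithin_of_tendsto_nhds_of_eventually_within _ ?_ ?_
        · exact (Complex.continuous_ofReal.tendsto φ₀).mono_left nhdsWithin_le_nhds
        · filter_upwards [self_mem_nhdsWithin] with x hx
          exact fun h5 => hx (Complex.ofReal_injective h5)
      have h5 : ∀ᶠ x : ℝ in 𝓝[≠] φ₀, Ψ (x : ℂ) = conj (Ψ (conj (x : ℂ))) := by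
        filter_upwards [nhdsWithin_le_nhds (hopen φ₀ S.φ_mem)] with x hx
        rw [Complex.conj_ofReal]
        apply Complex.ext
        · rw [Complex.conj_re]
        · rw [Complex.conj_im, hΨr x hx, neg_zero]
      exact h4.frequently h5.frequently
    intro y hy
    exact h1.eqOn_of_preconnected_of_frequently_eq h2 (convex_Strip φ₀ ε).isPreconnected hy0W h3 hy
  -- the vertical line
  set p : ℝ → ℂ := fun τ => (φ₀ : ℂ) + τ * I with hp
  have hpW : ∀ τ, p τ ∈ Strip φ₀ ε := by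
    intro τ
    rw [mem_Strip]
    simpa [hp] using S.hε
  have hpd : ∀ τ, HasDerivAt p I τ := by
    intro τ
    have h1 := ((hasDerivAt_id τ).ofReal_comp.mul_const I).const_add (φ₀ : ℂ)
    simpa [hp] using h1
  set a : ℝ → ℝ := fun τ => V (p τ) with ha
  have had : ∀ τ, HasDerivAt a ((Ψ (p τ)).re) τ := by
    intro τ
    have h2 := hVpath (hpd τ) (hpW τ)
    refine h2.congr_deriv ?_
    rw [Complex.mul_I_im]
  have hodd : ∀ τ, a τ + a (-τ) = 2 * a 0 := by
    have h1 : ∀ τ, HasDerivAt (fun τ => a τ + a (-τ)) 0 τ := by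
      intro τ
      have h2 := (had τ).add ((had (-τ)).comp_of_eq τ (hasDerivAt_neg τ) rfl)
      refine h2.congr_deriv ?_
      have h3 := hsym (p τ) (hpW τ)
      have h4 : conj (p τ) = p (-τ) := by
        simp only [hp, map_add, map_mul, Complex.conj_ofReal, Complex.conj_I]
        push_cast
        ring
      rw [h4] at h3
      have h5 := congrArg Complex.re h3
      rw [Complex.conj_re] at h5
      rw [h5]
      ring
    have h2 : ∀ τ, (fun τ => a τ + a (-τ)) τ = (fun τ => a τ + a (-τ)) 0 :=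
      fun τ => is_const_of_deriv_eq_zero (fun τ => (h1 τ).differentiableAt) (fun τ => (h1 τ).deriv) τ 0
    intro τ
    have h3 := h2 τ
    simp only [neg_zero] at h3
    linarith
  -- growth
  obtain ⟨M₁, C₁, hM₁0, hM₁⟩ := P_near (S.loop l) (by simp only [ld_Zp_im]; simp)
  obtain ⟨M₂, hM₂1, hM₂⟩ := monic_growth S.monic
  set M : ℝ := max M₁ M₂ with hM
  set D : ℝ := ∑ k ∈ E, d k with hD
  have hn0 : (0 : ℝ) < n := by exact_mod_cast S.pos
  set C : ℝ := ∑ k ∈ E, |d k| * (C₁ + 2 * π / n * Real.log 2) with hC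
  obtain ⟨B, hB⟩ : ∃ B : ℝ, ∀ x : ℂ, ‖x‖ ≤ M → ‖G.eval x‖ ≤ B := by
    obtain ⟨B, hB⟩ := (isCompact_closedBall (0 : ℂ) M).exists_bound_of_continuousOn
      G.continuous.continuousOn
    exact ⟨B, fun x hx => hB x (by rwa [mem_closedBall_zero_iff])⟩
  have hgrow : ∀ τ : ℝ, B < |τ| → 1 ≤ |τ| → a τ ≤ C - 2 * π / n * D * Real.log |τ| := by
    intro τ hτ hτ1
    set w : ℂ := 2 * Complex.cos (p τ) with hw
    have h1 : |τ| ≤ ‖w‖ := norm_cos_ge φ₀ τ
    have h2 : ∀ k, M < ‖L k (p τ)‖ := by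
      intro k
      by_contra hcon2
      push Not at hcon2
      have h3 := hB _ hcon2
      rw [S.Lev k _ (hpW τ)] at h3
      linarith
    have h3 : a τ ≤ C - 2 * π / n * D * Real.log ‖w‖ := by
      have h4 : C - 2 * π / n * D * Real.log ‖w‖ =
          ∑ k ∈ E, (|d k| * (C₁ + 2 * π / n * Real.log 2) - d k * (2 * π / n * Real.log ‖w‖)) := by
        rw [Finset.sum_sub_distrib, ← Finset.sum_mul, ← Finset.sum_mul, hC, ← Finset.sum_mul, hD]
        ring
      rw [h4]
      refine Finset.sum_le_sum fun k _ => ?_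
      have h5 := hM₁ (L k (p τ)) ((le_max_left _ _).trans (h2 k).le)
      have h6 := hM₂ (L k (p τ)) ((le_max_right _ _).trans (h2 k).le)
      rw [S.Lev k _ (hpW τ), S.deg] at h6
      have h7 : |P (X l) (Zp η) (L k (p τ)) + 2 * π / n * Real.log ‖w‖| ≤ C₁ + 2 * π / n * Real.log 2 := by
        have e : P (X l) (Zp η) (L k (p τ)) + 2 * π / n * Real.log ‖w‖ =
            (P (X l) (Zp η) (L k (p τ)) + 2 * π * Real.log ‖L k (p τ)‖) +
              2 * π / n * (Real.log ‖w‖ - n * Real.log ‖L k (p τ)‖) := by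
          field_simp
          ring
        rw [e]
        refine (abs_add_le _ _).trans (add_le_add h5 ?_)
        rw [abs_mul, abs_of_pos (by positivity : (0 : ℝ) < 2 * π / n)]
        exact mul_le_mul_of_nonneg_left h6 (by positivity)
      have h8 : |d k * (P (X l) (Zp η) (L k (p τ)) + 2 * π / n * Real.log ‖w‖)| ≤
          |d k| * (C₁ + 2 * π / n * Real.log 2) := by
        rw [abs_mul]
        exact mul_le_mul_of_nonneg_left h7 (abs_nonneg _)
      have h9 := (abs_le.1 h8).2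
      linarith
    have h4 : Real.log |τ| ≤ Real.log ‖w‖ := Real.log_le_log (by linarith) h1
    have h5 : 2 * π / n * D * Real.log |τ| ≤ 2 * π / n * D * Real.log ‖w‖ :=
      mul_le_mul_of_nonneg_left h4 (by positivity)
    linarith
  set q : ℝ := max (|B| + 1) (Real.exp ((C + 1 - a 0) / (2 * π / n * D))) with hq
  have hq1 : |B| + 1 ≤ q := le_max_left _ _
  have hq2 : Real.exp ((C + 1 - a 0) / (2 * π / n * D)) ≤ q := le_max_right _ _
  have hq0 : 0 < q := lt_of_lt_of_le (by positivity) hq1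
  have hqa : |q| = q := abs_of_pos hq0
  have hBq : B < q := by
    have h1 := le_abs_self B
    linarith
  have h1q : 1 ≤ q := by
    have h1 := abs_nonneg B
    linarith
  have hlog : C + 1 - a 0 ≤ 2 * π / n * D * Real.log q := by
    have h8 : (C + 1 - a 0) / (2 * π / n * D) ≤ Real.log q := by
      rw [Real.le_log_iff_exp_le hq0]
      exact hq2
    rw [div_le_iff₀ (by positivity)] at h8
    linarith
  have h1 := hgrow q (by rw [hqa]; exact hBq) (by rw [hqa]; exact h1q)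
  have h2 := hgrow (-q) (by rw [abs_neg, hqa]; exact hBq) (by rw [abs_neg, hqa]; exact h1q)
  rw [hqa] at h1
  rw [abs_neg, hqa] at h2
  have h3 := hodd q
  linarith

end Tcb

theorem tcb : S_TCB := by
  intro G n η φ₀ ε L X S l d hd
  rcases lt_or_gt_of_ne hd with h | h
  · obtain ⟨α, hα, hne⟩ := Tcb.pos S l (fun k => -d k) (by
      rw [Finset.sum_neg_distrib]
      linarith)
    refine ⟨α, hα, fun he => hne ?_⟩
    simp only [neg_mul, Finset.sum_neg_distrib]
    rw [he]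
  · exact Tcb.pos S l d h

end Pool.Agent.K9h21.GP
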