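import Pool.Agent.K9h21.GP.Stm5

/-!
# Leaves TJ, LIN of the project GPM (helper32): general lemmas
-/

set_option autoImplicit false

namespace Pool.Agent.K9h21.GP.TJ_

open Polynomial Filter Topology

theorem removal3 (U : Set ℂ) (hU : IsOpen U) (Z : Finset ℂ) : ∀ (H : ℂ → ℂ), (∀ s ∈ Z, s ∈ U) →
    DifferentiableOn ℂ H (U \ (Z : Set ℂ)) →
    (∀ s ∈ Z, Tendsto (fun t => (t - s) * H t) (𝓝[≠] s) (𝓝 0)) →
    ∃ H' : ℂ → ℂ, DifferentiableOn ℂ H' U ∧ ∀ t, t ∉ Z → H' t = H t := by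
  classical
  induction Z using Finset.induction_on with
  | empty =>
    intro H _ hd _
    exact ⟨H, by simpa using hd, fun _ _ => rfl⟩
  | insert s Z hs ih =>
    intro H hZU hd hb
    have hO : IsOpen (U \ (Z : Set ℂ)) := hU.sdiff Z.finite_toSet.isClosed
    have hsV : s ∈ U \ (Z : Set ℂ) :=
      ⟨hZU s (Finset.mem_insert_self _ _), fun h => hs (Finset.mem_coe.1 h)⟩
    have h1 : DifferentiableOn ℂ (Function.update H s (limUnder (𝓝[≠] s) H)) (U \ (Z : Set ℂ)) := by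
      apply Complex.differentiableOn_update_limUnder_of_isLittleO (hO.mem_nhds hsV)
      · apply hd.mono
        intro z hz
        refine ⟨hz.1.1, fun h => ?_⟩
        rw [Finset.coe_insert, Set.mem_insert_iff] at h
        rcases h with h | h
        · exact hz.2 (Set.mem_singleton_iff.2 h)
        · exact hz.1.2 h
      · have hid : Tendsto (fun t : ℂ => t - s) (𝓝[≠] s) (𝓝 0) := by
          have h3 : Tendsto (fun t : ℂ => t - s) (𝓝 s) (𝓝 (s - s)) := tendsto_id.sub_const s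
          rw [sub_self] at h3
          exact h3.mono_left nhdsWithin_le_nhds
        rw [Asymptotics.isLittleO_iff_tendsto']
        · have h2 : Tendsto (fun t => (t - s) * H t - (t - s) * H s) (𝓝[≠] s) (𝓝 (0 - 0 * H s)) :=
            (hb s (Finset.mem_insert_self _ _)).sub (hid.mul_const _)
          rw [zero_mul, sub_zero] at h2
          refine h2.congr fun t => ?_
          rw [div_inv_eq_mul]
          ring
        · filter_upwards [self_mem_nhdsWithin] with t ht h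
          exact absurd (inv_eq_zero.1 h) (sub_ne_zero.2 ht)
    have hev : ∀ z, z ≠ s → Function.update H s (limUnder (𝓝[≠] s) H) z = H z := fun z hz =>
      Function.update_of_ne hz _ _
    obtain ⟨H', h2, h3⟩ := ih _ (fun u hu => hZU u (Finset.mem_insert_of_mem hu)) h1 (by
      intro u hu
      have hus : u ≠ s := fun h => hs (h ▸ hu)
      refine (hb u (Finset.mem_insert_of_mem hu)).congr' ?_
      have h4 : ∀ᶠ z in 𝓝[≠] u, z ≠ s := mem_nhdsWithin_of_mem_nhds (isOpen_ne.mem_nhds hus)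
      filter_upwards [h4] with z hz
      rw [hev z hz])
    refine ⟨H', h2, fun t ht => ?_⟩
    rw [Finset.mem_insert, not_or] at ht
    rw [h3 t ht.2, hev t ht.1]

/-- removable singularities and Liouville -/
theorem removal_const (Z : Finset ℂ) (H : ℂ → ℂ) (hd : DifferentiableOn ℂ H ((Z : Set ℂ))ᶜ)
    (hb : ∀ s ∈ Z, Tendsto (fun t => (t - s) * H t) (𝓝[≠] s) (𝓝 0)) (C : ℝ)
    (hi : ∀ᶠ t in cocompact ℂ, ‖H t‖ ≤ C) : ∃ γ : ℂ, ∀ t, t ∉ Z → H t = γ := by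
  obtain ⟨H', h1, h2⟩ := removal3 Set.univ isOpen_univ Z H (fun _ _ => trivial)
    (by rwa [← Set.compl_eq_univ_sdiff]) hb
  have h3 : Differentiable ℂ H' := differentiableOn_univ.1 h1
  have h4 : ∀ᶠ t in cocompact ℂ, ‖H' t‖ ≤ C := by
    have h5 : ∀ᶠ t : ℂ in cocompact ℂ, t ∈ ((Z : Set ℂ))ᶜ :=
      Z.finite_toSet.isCompact.compl_mem_cocompact
    filter_upwards [hi, h5] with t ht ht2
    rw [h2 t (fun h => ht2 (Finset.mem_coe.2 h))]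
    exact ht
  obtain ⟨K, hK, hK2⟩ := mem_cocompact.1 h4
  obtain ⟨C', hC'⟩ := hK.exists_bound_of_continuousOn h3.continuous.continuousOn
  have h6 : Bornology.IsBounded (Set.range H') := by
    rw [isBounded_iff_forall_norm_le]
    refine ⟨max C C', ?_⟩
    rintro _ ⟨t, rfl⟩
    by_cases ht : t ∈ K
    · exact (hC' t ht).trans (le_max_right _ _)
    · exact (hK2 ht).trans (le_max_left _ _)
  refine ⟨H' 0, fun t ht => ?_⟩
  rw [← h2 t ht]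
  exact h3.apply_eq_apply_of_bounded h6 t 0

theorem local_lower (G : ℂ[X])
    (hM : ∀ x, (derivative G).eval x = 0 → (derivative (derivative G)).eval x ≠ 0) (v₀ x₁ : ℂ)
    (hx : G.eval x₁ = v₀) :
    ∃ c : ℝ, 0 < c ∧ ∀ᶠ x in 𝓝 x₁, c * ‖G.eval x - v₀‖ ≤ ‖(derivative G).eval x‖ ^ 2 := by
  by_cases h0 : (derivative G).eval x₁ = 0
  · obtain ⟨B, hB⟩ : (X - C x₁) ∣ derivative G := dvd_iff_isRoot.2 h0
    have hB1 : B.eval x₁ ≠ 0 := by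
      have h1 := hM x₁ h0
      rw [hB, derivative_mul] at h1
      simpa using h1
    obtain ⟨A₁, hA₁⟩ : (X - C x₁) ∣ G - C v₀ := dvd_iff_isRoot.2 (by
      rw [IsRoot.def, eval_sub, eval_C, hx, sub_self])
    have h2 : A₁.eval x₁ = 0 := by
      have h3 : derivative (G - C v₀) = derivative G := by
        rw [derivative_sub, derivative_C, sub_zero]
      rw [hA₁, derivative_mul] at h3
      have h4 := congrArg (eval x₁) h3
      rw [h0] at h4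
      simpa using h4
    obtain ⟨A, hA⟩ : (X - C x₁) ∣ A₁ := dvd_iff_isRoot.2 h2
    have hBpos : 0 < ‖B.eval x₁‖ ^ 2 := pow_pos (norm_pos_iff.2 hB1) 2
    have hApos : 0 < ‖A.eval x₁‖ + 1 := by positivity
    refine ⟨‖B.eval x₁‖ ^ 2 / (2 * (‖A.eval x₁‖ + 1)), by positivity, ?_⟩
    have h5 : ∀ᶠ x in 𝓝 x₁, ‖A.eval x‖ < ‖A.eval x₁‖ + 1 :=
      (A.continuous.norm.tendsto x₁).eventually (gt_mem_nhds (by linarith))
    have h6' : Tendsto (fun x => ‖B.eval x‖ ^ 2) (𝓝 x₁) (𝓝 (‖B.eval x₁‖ ^ 2)) :=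
      (B.continuous.norm.pow 2).tendsto x₁
    have h6 : ∀ᶠ x in 𝓝 x₁, ‖B.eval x₁‖ ^ 2 / 2 < ‖B.eval x‖ ^ 2 :=
      h6'.eventually (lt_mem_nhds (half_lt_self hBpos))
    filter_upwards [h5, h6] with x h7 h8
    have h9 : G.eval x - v₀ = (x - x₁) ^ 2 * A.eval x := by
      have h10 := congrArg (eval x) hA₁
      rw [hA] at h10
      simp only [eval_sub, eval_C, eval_mul, eval_X] at h10
      rw [h10]
      ring
    have h11 : (derivative G).eval x = (x - x₁) * B.eval x := by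
      rw [hB]
      simp
    rw [h9, h11, norm_mul, norm_mul, norm_pow, mul_pow]
    have h12 : 0 ≤ ‖x - x₁‖ ^ 2 := by positivity
    have h13 : ‖B.eval x₁‖ ^ 2 / (2 * (‖A.eval x₁‖ + 1)) * ‖A.eval x‖ ≤ ‖B.eval x‖ ^ 2 := by
      calc ‖B.eval x₁‖ ^ 2 / (2 * (‖A.eval x₁‖ + 1)) * ‖A.eval x‖
          ≤ ‖B.eval x₁‖ ^ 2 / (2 * (‖A.eval x₁‖ + 1)) * (‖A.eval x₁‖ + 1) := by gcongr
        _ = ‖B.eval x₁‖ ^ 2 / 2 := by field_simp
        _ ≤ _ := h8.le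
    calc ‖B.eval x₁‖ ^ 2 / (2 * (‖A.eval x₁‖ + 1)) * (‖x - x₁‖ ^ 2 * ‖A.eval x‖)
        = ‖x - x₁‖ ^ 2 * (‖B.eval x₁‖ ^ 2 / (2 * (‖A.eval x₁‖ + 1)) * ‖A.eval x‖) := by ring
      _ ≤ _ := mul_le_mul_of_nonneg_left h13 h12
  · refine ⟨1, one_pos, ?_⟩
    have hpos : 0 < ‖(derivative G).eval x₁‖ ^ 2 := pow_pos (norm_pos_iff.2 h0) 2
    have h1 : Tendsto (fun x => ‖(derivative G).eval x‖ ^ 2 - 1 * ‖G.eval x - v₀‖) (𝓝 x₁)
        (𝓝 (‖(derivative G).eval x₁‖ ^ 2 - 1 * ‖G.eval x₁ - v₀‖)) := by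
      apply Continuous.tendsto
      exact ((derivative G).continuous.norm.pow 2).sub
        (continuous_const.mul (G.continuous.sub continuous_const).norm)
    rw [hx, sub_self, norm_zero, mul_zero, sub_zero] at h1
    filter_upwards [h1.eventually (lt_mem_nhds hpos)] with x hx2
    linarith

theorem near_root (G : ℂ[X]) (hG : G.Monic) (hn : 0 < G.natDegree) (v₀ : ℂ) (P : ℂ → Prop)
    (hP : ∀ x₁, G.eval x₁ = v₀ → ∀ᶠ x in 𝓝 x₁, P x) :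
    ∃ δ : ℝ, 0 < δ ∧ ∀ x, ‖G.eval x - v₀‖ < δ → P x := by
  classical
  have hm : (G - C v₀).Monic := by
    apply hG.sub_of_left
    calc degree (C v₀) ≤ 0 := degree_C_le
      _ < degree G := by
        rw [← natDegree_pos_iff_degree_pos]; exact hn
  have hroot : ∀ x₁ ∈ (G - C v₀).roots, G.eval x₁ = v₀ := by
    intro x₁ hx₁
    have h1 := (mem_roots hm.ne_zero).1 hx₁
    rw [IsRoot.def, eval_sub, eval_C, sub_eq_zero] at h1
    exact h1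
  have hP' : ∀ x₁ : ℂ, ∃ ε : ℝ, 0 < ε ∧ (x₁ ∈ (G - C v₀).roots → ∀ x, ‖x - x₁‖ < ε → P x) := by
    intro x₁
    by_cases h : x₁ ∈ (G - C v₀).roots
    · obtain ⟨ε, hε, h2⟩ := Metric.eventually_nhds_iff.1 (hP x₁ (hroot x₁ h))
      exact ⟨ε, hε, fun _ x hx => h2 (by rw [dist_eq_norm]; exact hx)⟩
    · exact ⟨1, one_pos, fun h' => absurd h' h⟩
  choose ε hε h2 using hP'
  -- the minimum
  obtain ⟨η, hη, hη2⟩ : ∃ η : ℝ, 0 < η ∧ ∀ x₁ ∈ (G - C v₀).roots, η ≤ ε x₁ := by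
    by_cases hne : (G - C v₀).roots.toFinset.Nonempty
    · obtain ⟨x₂, _, hx₂⟩ := Finset.exists_min_image (G - C v₀).roots.toFinset ε hne
      exact ⟨ε x₂, hε x₂, fun x₁ hx₁ => hx₂ x₁ (Multiset.mem_toFinset.2 hx₁)⟩
    · refine ⟨1, one_pos, fun x₁ hx₁ => ?_⟩
      exact absurd ⟨x₁, Multiset.mem_toFinset.2 hx₁⟩ hne
  refine ⟨η ^ ((G - C v₀).roots.card), pow_pos hη _, fun x hx => ?_⟩
  by_contra hcon
  have h3 : ∀ x₁ ∈ (G - C v₀).roots, η ≤ ‖x - x₁‖ := by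
    intro x₁ hx₁
    by_contra h4
    push Not at h4
    exact hcon (h2 x₁ hx₁ x (lt_of_lt_of_le h4 (hη2 x₁ hx₁)))
  have h4 : ‖G.eval x - v₀‖ = ((G - C v₀).roots.map fun x₁ => ‖x - x₁‖).prod := by
    have h5 := (IsAlgClosed.splits (G - C v₀)).eval_eq_prod_roots_of_monic hm x
    rw [eval_sub, eval_C] at h5
    rw [h5, GEO_.norm_prod, Multiset.map_map]
    rfl
  have h6 : η ^ ((G - C v₀).roots.map fun x₁ => ‖x - x₁‖).card ≤
      ((G - C v₀).roots.map fun x₁ => ‖x - x₁‖).prod := by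
    apply GEO_.pow_le_prod _ η hη.le
    intro y hy
    obtain ⟨x₁, hx₁, rfl⟩ := Multiset.mem_map.1 hy
    exact h3 x₁ hx₁
  rw [Multiset.card_map] at h6
  rw [h4] at hx
  linarith

theorem deriv_lower (G : ℂ[X]) (hG : G.Monic) (hn : 0 < G.natDegree)
    (hM : ∀ x, (derivative G).eval x = 0 → (derivative (derivative G)).eval x ≠ 0) (v₀ : ℂ) :
    ∃ c δ : ℝ, 0 < c ∧ 0 < δ ∧ ∀ x, ‖G.eval x - v₀‖ < δ →
      c * ‖G.eval x - v₀‖ ≤ ‖(derivative G).eval x‖ ^ 2 := by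
  classical
  have hm : (G - C v₀).Monic := by
    apply hG.sub_of_left
    calc degree (C v₀) ≤ 0 := degree_C_le
      _ < degree G := by
        rw [← natDegree_pos_iff_degree_pos]; exact hn
  have h1 : ∀ x₁ : ℂ, ∃ c : ℝ, 0 < c ∧ (G.eval x₁ = v₀ →
      ∀ᶠ x in 𝓝 x₁, c * ‖G.eval x - v₀‖ ≤ ‖(derivative G).eval x‖ ^ 2) := by
    intro x₁
    by_cases h : G.eval x₁ = v₀
    · obtain ⟨c, hc, h2⟩ := local_lower G hM v₀ x₁ h
      exact ⟨c, hc, fun _ => h2⟩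
    · exact ⟨1, one_pos, fun h' => absurd h' h⟩
  choose c hc h2 using h1
  obtain ⟨η, hη, hη2⟩ : ∃ η : ℝ, 0 < η ∧ ∀ x₁, G.eval x₁ = v₀ → η ≤ c x₁ := by
    have hmem : ∀ x₁, G.eval x₁ = v₀ → x₁ ∈ (G - C v₀).roots.toFinset := by
      intro x₁ hx₁
      rw [Multiset.mem_toFinset, mem_roots hm.ne_zero, IsRoot.def, eval_sub, eval_C, hx₁, sub_self]
    by_cases hne : (G - C v₀).roots.toFinset.Nonempty
    · obtain ⟨x₂, _, hx₂⟩ := Finset.exists_min_image (G - C v₀).roots.toFinset c hne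
      exact ⟨c x₂, hc x₂, fun x₁ hx₁ => hx₂ x₁ (hmem x₁ hx₁)⟩
    · exact ⟨1, one_pos, fun x₁ hx₁ => absurd ⟨x₁, hmem x₁ hx₁⟩ hne⟩
  obtain ⟨δ, hδ, h3⟩ := near_root G hG hn v₀
    (fun x => η * ‖G.eval x - v₀‖ ≤ ‖(derivative G).eval x‖ ^ 2) (by
      intro x₁ hx₁
      filter_upwards [h2 x₁ hx₁] with x hx
      exact (mul_le_mul_of_nonneg_right (hη2 x₁ hx₁) (norm_nonneg _)).trans hx)
  exact ⟨η, δ, hη, hδ, h3⟩

/-- lower bound for the difference quotient -/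
theorem slope_lower (f : ℂ → ℂ) (f' s : ℂ) (hf : HasDerivAt f f' s) (h0 : f' ≠ 0) :
    ∃ c : ℝ, 0 < c ∧ ∀ᶠ t in 𝓝[≠] s, c * ‖t - s‖ ≤ ‖f t - f s‖ := by
  have hpos : 0 < ‖f'‖ := norm_pos_iff.2 h0
  refine ⟨‖f'‖ / 2, by positivity, ?_⟩
  have h1 := (hasDerivAt_iff_tendsto_slope.1 hf).norm
  filter_upwards [h1.eventually (lt_mem_nhds (half_lt_self hpos)), self_mem_nhdsWithin] with t ht hts
  have h2 : 0 < ‖t - s‖ := norm_pos_iff.2 (sub_ne_zero.2 hts)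
  rw [slope_def_field, norm_div, lt_div_iff₀ h2] at ht
  exact ht.le

theorem wv_lower (α : ℂ) (a : ℤ) (hα : α ≠ 0) (ha : a ≠ 0) (s : ℂ) (hs : s ≠ 0)
    (h4 : (wv α a s) ^ 2 ≠ 4) :
    ∃ c : ℝ, 0 < c ∧ ∀ᶠ t in 𝓝[≠] s, c * ‖t - s‖ ≤ ‖wv α a t - wv α a s‖ := by
  refine slope_lower _ _ s (GEO_.wv_deriv α a s hα hs) ?_
  have hu0 : α * s ^ a ≠ 0 := mul_ne_zero hα (zpow_ne_zero _ hs)
  refine mul_ne_zero (mul_ne_zero hα (mul_ne_zero (by exact_mod_cast ha) (zpow_ne_zero _ hs))) ?_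
  intro h
  have h1 : ((α * s ^ a) ^ 2)⁻¹ = 1 := (sub_eq_zero.1 h).symm
  rw [inv_eq_one] at h1
  apply h4
  unfold wv
  set u := α * s ^ a with hu
  have h12 : u⁻¹ = u := by
    rw [inv_eq_iff_eq_inv]
    field_simp
    exact h1
  rw [h12]
  calc (u + u) ^ 2 = 4 * u ^ 2 := by ring
    _ = 4 := by rw [h1]; ring

theorem pow_le_one_add {x : ℝ} (hx : 0 ≤ x) {m n : ℕ} (h : m ≤ n) : x ^ m ≤ 1 + x ^ n := by
  rcases le_or_gt x 1 with h1 | h1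
  · have := pow_le_one₀ (n := m) hx h1
    have := pow_nonneg hx n
    linarith
  · have := pow_le_pow_right₀ h1.le h
    linarith

theorem sum_inv_le (u : ℂ) (hu : u ≠ 0) : ‖u‖ + ‖u‖⁻¹ ≤ ‖u + u⁻¹‖ + 2 := by
  have hu0 : 0 < ‖u‖ := norm_pos_iff.2 hu
  rcases le_or_gt ‖u‖ 1 with h | h
  · have h1 : ‖u⁻¹‖ - ‖u‖ ≤ ‖u + u⁻¹‖ := by
      have h2 : ‖u⁻¹‖ ≤ ‖u + u⁻¹‖ + ‖u‖ := by
        calc ‖u⁻¹‖ = ‖(u + u⁻¹) - u‖ := by congr 1; ring
          _ ≤ _ := norm_sub_le _ _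
      linarith
    rw [norm_inv] at h1
    linarith
  · have h1 : ‖u‖ - ‖u⁻¹‖ ≤ ‖u + u⁻¹‖ := by
      have h2 : ‖u‖ ≤ ‖u + u⁻¹‖ + ‖u⁻¹‖ := by
        calc ‖u‖ = ‖(u + u⁻¹) - u⁻¹‖ := by congr 1; ring
          _ ≤ _ := norm_sub_le _ _
      linarith
    have h3 : ‖u‖⁻¹ ≤ 1 := inv_le_one_of_one_le₀ h.le
    rw [norm_inv] at h1
    linarith

theorem wv_compare (α α' : ℂ) (a b : ℤ) (hα : α ≠ 0) (hα' : α' ≠ 0) (hb : 0 < b) (hab : b ≤ a) :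
    ∃ K : ℝ, 1 ≤ K ∧ ∀ t : ℂ, t ≠ 0 → ‖wv α' b t‖ ≤ K * (1 + ‖wv α a t‖) := by
  obtain ⟨m, rfl⟩ : ∃ m : ℕ, b = m := ⟨b.toNat, by omega⟩
  obtain ⟨n, rfl⟩ : ∃ n : ℕ, a = n := ⟨a.toNat, by omega⟩
  have hmn : m ≤ n := by exact_mod_cast hab
  have hA : 0 < ‖α‖ := norm_pos_iff.2 hα
  have hA' : 0 < ‖α'‖ := norm_pos_iff.2 hα'
  set P : ℝ := ‖α‖ + ‖α‖⁻¹ with hP
  set P' : ℝ := ‖α'‖ + ‖α'‖⁻¹ with hP'
  have hP0 : 0 < P := by positivity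
  have hP0' : 0 < P' := by positivity
  refine ⟨1 + P' * (2 + 2 * P), by nlinarith [mul_pos hP0' hP0], fun t ht => ?_⟩
  have ht0 : 0 < ‖t‖ := norm_pos_iff.2 ht
  have hti : 0 < ‖t‖⁻¹ := inv_pos.2 ht0
  have h1 : ‖wv α' m t‖ ≤ P' * (‖t‖ ^ m + ‖t‖⁻¹ ^ m) := by
    unfold wv
    rw [zpow_natCast]
    calc ‖α' * t ^ m + (α' * t ^ m)⁻¹‖ ≤ ‖α' * t ^ m‖ + ‖(α' * t ^ m)⁻¹‖ := norm_add_le _ _
      _ = ‖α'‖ * ‖t‖ ^ m + ‖α'‖⁻¹ * ‖t‖⁻¹ ^ m := by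
          rw [norm_inv, norm_mul, norm_pow, mul_inv, inv_pow]
      _ ≤ P' * ‖t‖ ^ m + P' * ‖t‖⁻¹ ^ m := by
          have e1 : ‖α'‖ ≤ P' := by rw [hP']; linarith [inv_pos.2 hA']
          have e2 : ‖α'‖⁻¹ ≤ P' := by rw [hP']; linarith
          gcongr
      _ = _ := by ring
  have h2 := pow_le_one_add ht0.le hmn
  have h3 := pow_le_one_add hti.le hmn
  have h4 := sum_inv_le (α * t ^ (n : ℤ)) (mul_ne_zero hα (zpow_ne_zero _ ht))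
  have h5 : ‖α * t ^ (n : ℤ)‖ = ‖α‖ * ‖t‖ ^ n := by rw [norm_mul, zpow_natCast, norm_pow]
  rw [h5] at h4
  have h6 : ‖α * t ^ (n : ℤ) + (α * t ^ (n : ℤ))⁻¹‖ = ‖wv α n t‖ := rfl
  rw [h6] at h4
  have h7 : ‖t‖ ^ n ≤ P * (‖α‖ * ‖t‖ ^ n) := by
    have e1 : 1 ≤ P * ‖α‖ := by
      rw [hP, add_mul, inv_mul_cancel₀ hA.ne']
      nlinarith
    have e2 : 0 ≤ ‖t‖ ^ n := by positivity
    calc ‖t‖ ^ n = 1 * ‖t‖ ^ n := (one_mul _).symm
      _ ≤ (P * ‖α‖) * ‖t‖ ^ n := mul_le_mul_of_nonneg_right e1 e2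
      _ = _ := by ring
  have h8 : ‖t‖⁻¹ ^ n ≤ P * (‖α‖ * ‖t‖ ^ n)⁻¹ := by
    have e1 : 1 ≤ P * ‖α‖⁻¹ := by
      rw [hP, add_mul, mul_inv_cancel₀ hA.ne']
      nlinarith [inv_pos.2 hA]
    have e2 : 0 ≤ ‖t‖⁻¹ ^ n := by positivity
    calc ‖t‖⁻¹ ^ n = 1 * ‖t‖⁻¹ ^ n := (one_mul _).symm
      _ ≤ (P * ‖α‖⁻¹) * ‖t‖⁻¹ ^ n := mul_le_mul_of_nonneg_right e1 e2
      _ = _ := by rw [mul_inv, inv_pow]; ring
  have h9 : ‖t‖ ^ m + ‖t‖⁻¹ ^ m ≤ 2 + P * (‖wv α n t‖ + 2) := by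
    calc ‖t‖ ^ m + ‖t‖⁻¹ ^ m ≤ (1 + ‖t‖ ^ n) + (1 + ‖t‖⁻¹ ^ n) := add_le_add h2 h3
      _ ≤ 2 + (P * (‖α‖ * ‖t‖ ^ n) + P * (‖α‖ * ‖t‖ ^ n)⁻¹) := by linarith
      _ = 2 + P * (‖α‖ * ‖t‖ ^ n + (‖α‖ * ‖t‖ ^ n)⁻¹) := by ring
      _ ≤ _ := by
          have := mul_le_mul_of_nonneg_left h4 hP0.le
          linarith
  have hw : 0 ≤ ‖wv α n t‖ := norm_nonneg _
  calc ‖wv α' m t‖ ≤ P' * (‖t‖ ^ m + ‖t‖⁻¹ ^ m) := h1
    _ ≤ P' * (2 + P * (‖wv α n t‖ + 2)) := mul_le_mul_of_nonneg_left h9 hP0'.le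
    _ ≤ (1 + P' * (2 + 2 * P)) * (1 + ‖wv α n t‖) := by
        have e1 : 0 ≤ P' * P * ‖wv α n t‖ := by positivity
        have e2 : 0 ≤ P' * ‖wv α n t‖ := by positivity
        nlinarith

/-- polynomials are bounded by the power of `‖x‖` -/
theorem poly_upper (P : ℂ[X]) (m : ℕ) (hm : P.natDegree ≤ m) :
    ∃ K : ℝ, 0 ≤ K ∧ ∀ x : ℂ, 1 ≤ ‖x‖ → ‖P.eval x‖ ≤ K * ‖x‖ ^ m := by
  refine ⟨∑ i ∈ Finset.range (P.natDegree + 1), ‖P.coeff i‖,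
    Finset.sum_nonneg fun i _ => norm_nonneg _, fun x hx => ?_⟩
  rw [eval_eq_sum_range, Finset.sum_mul]
  refine (norm_sum_le _ _).trans (Finset.sum_le_sum fun i hi => ?_)
  rw [norm_mul, norm_pow]
  apply mul_le_mul_of_nonneg_left _ (norm_nonneg _)
  apply pow_le_pow_right₀ hx
  have := Finset.mem_range.1 hi
  omega

/-- the derivative of a monic polynomial of degree `n` is at least of the size of `‖x‖ ^ (n - 1)` -/
theorem deriv_large (G : ℂ[X]) (hG : G.Monic) (n : ℕ) (hn : G.natDegree = n) (hn2 : 2 ≤ n) :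
    ∃ K R : ℝ, 0 < K ∧ 1 ≤ R ∧ ∀ x : ℂ, R ≤ ‖x‖ → ‖x‖ ^ (n - 1) ≤ K * ‖(derivative G).eval x‖ := by
  have hnC : (n : ℂ) ≠ 0 := by
    have : n ≠ 0 := by omega
    exact_mod_cast this
  have hd : (derivative G).natDegree = n - 1 := by rw [natDegree_derivative, hn]
  have hlead : (derivative G).leadingCoeff = (n : ℂ) := by
    rw [leadingCoeff, hd, coeff_derivative, Nat.sub_add_cancel (by omega : 1 ≤ n)]
    have h1 : G.coeff n = 1 := by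
      rw [← hn]
      exact hG.coeff_natDegree
    rw [h1, one_mul]
    exact_mod_cast congrArg (Nat.cast (R := ℂ)) (Nat.sub_add_cancel (by omega : 1 ≤ n))
  set Q : ℂ[X] := C (n : ℂ)⁻¹ * derivative G with hQ
  have hQm : Q.Monic := by
    unfold Monic
    rw [hQ, leadingCoeff_mul, leadingCoeff_C, hlead, inv_mul_cancel₀ hnC]
  have hQd : Q.natDegree = n - 1 := by
    rw [hQ, natDegree_C_mul (inv_ne_zero hnC), hd]
  obtain ⟨C₀, hC1, hC⟩ := GEO_.root_bound Q hQm (by rw [hQd]; omega)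
  rw [hQd] at hC
  refine ⟨2 * C₀, 2 * C₀, by linarith, by linarith, fun x hx => ?_⟩
  have hx1 : 1 ≤ ‖x‖ := by linarith
  have h1 := hC x
  have h2 : ‖Q.eval x‖ ≤ ‖(derivative G).eval x‖ := by
    rw [hQ, eval_mul, eval_C, norm_mul, norm_inv, Complex.norm_natCast]
    have h3 : ((n : ℝ))⁻¹ ≤ 1 := by
      apply inv_le_one_of_one_le₀
      exact_mod_cast (by omega : 1 ≤ n)
    calc ((n : ℝ))⁻¹ * ‖(derivative G).eval x‖ ≤ 1 * ‖(derivative G).eval x‖ :=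
          mul_le_mul_of_nonneg_right h3 (norm_nonneg _)
      _ = _ := one_mul _
  have h3 : ‖x‖ ≤ ‖x‖ ^ (n - 1) := by
    calc ‖x‖ = ‖x‖ ^ 1 := (pow_one _).symm
      _ ≤ _ := pow_le_pow_right₀ hx1 (by omega)
  have h4 : C₀ * ‖Q.eval x‖ ≤ C₀ * ‖(derivative G).eval x‖ :=
    mul_le_mul_of_nonneg_left h2 (by linarith)
  nlinarith

end Pool.Agent.K9h21.GP.TJ_
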