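import Pool.Agent.K9h21.GP.Stm

set_option autoImplicit false

/-!
# TRP: the factors of `g` over `k(b)` by traces
-/

namespace Pool.Agent.K9h21.GP.TRP_

open Polynomial IntermediateField

/-- divisors of integral monic polynomials are integral -/
theorem int_of_dvd {L : Type*} [Field L] [NumberField L] (P Q : L[X]) (hP : P.Monic) (hQ : Q.Monic)
    (hint : ∀ i, IsIntegral ℤ (Q.coeff i)) (h : P ∣ Q) (i : ℕ) : IsIntegral ℤ (P.coeff i) := by
  have hl : Q ∈ Polynomial.lifts (algebraMap (NumberField.RingOfIntegers L) L) := by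
    rw [Polynomial.lifts_iff_coeff_lifts]
    intro j
    exact ⟨⟨Q.coeff j, hint j⟩, rfl⟩
  obtain ⟨Q₀, hQ₀, -, hQm⟩ := Polynomial.lifts_and_degree_eq_and_monic hl hQ
  have h' : P ∣ Q₀.map (algebraMap (NumberField.RingOfIntegers L) L) := by rw [hQ₀]; exact h
  obtain ⟨P₀, hP₀⟩ := IsIntegrallyClosed.eq_map_mul_C_of_dvd L hQm h'
  rw [hP.leadingCoeff, C_1, mul_one] at hP₀
  rw [← hP₀, coeff_map]
  exact (P₀.coeff i).2

/-- the trace formula -/
theorem tr_formula {k L : Type*} [Field k] [Field L] [CharZero k] [Algebra k L] [FiniteDimensional k L]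
    (b : L) (hb : ∀ (K : Type) [Field K] [Algebra k K] (σ τ : L →ₐ[k] K), σ b = τ b → σ = τ)
    (S : k →+* ℂ) (φ : L →+* ℂ) (hφ : φ.comp (algebraMap k L) = S) (x : ℂ) (hx : φ b = x)
    (n : ℕ) (hn : (minpoly k b).natDegree = n) (y : L) :
    ∑ q : Fin n, S (Algebra.trace k L (y * (minpolyDiv k b).coeff q)) * x ^ (q : ℕ) =
      φ y * (derivative ((minpoly k b).map S)).eval x := by
  classical
  let _ := S.toAlgebra
  have hS : ∀ a, algebraMap k ℂ a = S a := fun a => rfl
  have hbi : IsIntegral k b := Algebra.IsIntegral.isIntegral b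
  have hcomm : ∀ a : k, φ (algebraMap k L a) = S a := fun a => by rw [← hφ]; rfl
  let φ' : L →ₐ[k] ℂ := ⟨φ, hcomm⟩
  have hφ' : ∀ z, φ' z = φ z := fun z => rfl
  have h1 : ∀ z : L, S (Algebra.trace k L z) = ∑ σ : L →ₐ[k] ℂ, σ z := by
    intro z
    rw [← hS]
    exact trace_eq_sum_embeddings ℂ
  have h2 : ∀ σ : L →ₐ[k] ℂ, ∑ q : Fin n, σ ((minpolyDiv k b).coeff q) * x ^ (q : ℕ) =
      if σ = φ' then (derivative ((minpoly k b).map S)).eval x else 0 := by
    intro σ
    have h3 := eval₂_minpolyDiv_of_eval₂_eq_zero (R := k) (x := b) (y := x) (σ : L →+* ℂ) (by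
      have : (σ : L →+* ℂ).comp (algebraMap k L) = S := by
        ext a; exact σ.commutes a
      rw [this, ← hx, ← hφ, ← Polynomial.hom_eval₂]
      have : eval₂ (algebraMap k L) b (minpoly k b) = 0 := minpoly.aeval k b
      rw [this, map_zero])
    rw [Polynomial.eval₂_eq_sum_range' (σ : L →+* ℂ)
      (lt_of_lt_of_le (natDegree_minpolyDiv_lt hbi) hn.le) x, Finset.sum_range] at h3
    have h4 : ((σ : L →+* ℂ) b = x) ↔ σ = φ' := by
      constructor
      · intro h
        exact hb ℂ σ φ' (by rw [hφ', hx]; exact h)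
      · rintro rfl
        exact hx
    have h5 : (if (σ : L →+* ℂ) b = x then (σ : L →+* ℂ) (aeval b (derivative (minpoly k b))) else 0) =
        if σ = φ' then (derivative ((minpoly k b).map S)).eval x else 0 := by
      by_cases hc : σ = φ'
      · rw [if_pos hc, if_pos (h4.2 hc), hc]
        change φ (aeval b (derivative (minpoly k b))) = _
        rw [Polynomial.derivative_map, eval_map, aeval_def, Polynomial.hom_eval₂, hφ, hx]
      · rw [if_neg hc, if_neg (fun h => hc (h4.1 h))]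
    rw [h5] at h3
    exact h3
  calc ∑ q : Fin n, S (Algebra.trace k L (y * (minpolyDiv k b).coeff q)) * x ^ (q : ℕ)
      = ∑ q : Fin n, ∑ σ : L →ₐ[k] ℂ, σ y * (σ ((minpolyDiv k b).coeff q) * x ^ (q : ℕ)) := by
        refine Finset.sum_congr rfl fun q _ => ?_
        rw [h1, Finset.sum_mul]
        refine Finset.sum_congr rfl fun σ _ => ?_
        rw [map_mul, mul_assoc]
    _ = ∑ σ : L →ₐ[k] ℂ, σ y * ∑ q : Fin n, σ ((minpolyDiv k b).coeff q) * x ^ (q : ℕ) := by
        rw [Finset.sum_comm]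
        refine Finset.sum_congr rfl fun σ _ => ?_
        rw [Finset.mul_sum]
    _ = ∑ σ : L →ₐ[k] ℂ, σ y * (if σ = φ' then (derivative ((minpoly k b).map S)).eval x else 0) := by
        refine Finset.sum_congr rfl fun σ _ => ?_
        rw [h2]
    _ = φ y * (derivative ((minpoly k b).map S)).eval x := by
        simp only [mul_ite, mul_zero]
        rw [Finset.sum_ite_eq' Finset.univ φ', if_pos (Finset.mem_univ _), hφ']

/-- the bound for the traces -/
theorem tr_bound {k L : Type*} [Field k] [Field L] [CharZero k] [Algebra k L] [FiniteDimensional k L]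
    (S : k →+* ℂ) (y z : L) (B₁ B₂ : ℝ) (hB₁ : ∀ φ : L →+* ℂ, φ.comp (algebraMap k L) = S → ‖φ y‖ ≤ B₁)
    (hB₂ : ∀ φ : L →+* ℂ, φ.comp (algebraMap k L) = S → ‖φ z‖ ≤ B₂) :
    ‖S (Algebra.trace k L (y * z))‖ ≤ Module.finrank k L * (B₁ * B₂) := by
  classical
  let _ := S.toAlgebra
  have h1 : S (Algebra.trace k L (y * z)) = ∑ σ : L →ₐ[k] ℂ, σ (y * z) := by
    change algebraMap k ℂ _ = _
    exact trace_eq_sum_embeddings ℂ
  rw [h1]
  refine (norm_sum_le _ _).trans ?_
  have h2 : ∀ σ ∈ (Finset.univ : Finset (L →ₐ[k] ℂ)), ‖σ (y * z)‖ ≤ B₁ * B₂ := by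
    intro σ _
    have hc : (σ : L →+* ℂ).comp (algebraMap k L) = S := by
      ext a; exact σ.commutes a
    have a1 := hB₁ σ hc
    have a2 := hB₂ σ hc
    rw [map_mul, norm_mul]
    exact mul_le_mul a1 a2 (norm_nonneg _) ((norm_nonneg _).trans a1)
  refine (Finset.sum_le_card_nsmul _ _ _ h2).trans ?_
  rw [nsmul_eq_mul, Finset.card_univ, ← AlgHom.card k L ℂ]

/-- coefficients of divisors of polynomials with bounded roots -/
theorem coeff_bd {L : Type*} [Field L] (φ : L →+* ℂ) (P Q : L[X]) (hP : P.Monic) (hQ : Q.Monic) (h : P ∣ Q) (d : ℕ) (B : ℝ)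
    (hd : P.natDegree ≤ d) (hB : ∀ z, (Q.map φ).eval z = 0 → ‖z‖ ≤ B) (i : ℕ) :
    ‖φ (P.coeff i)‖ ≤ max B 1 ^ d * d.choose (d / 2) := by
  rw [← coeff_map]
  refine coeff_bdd_of_roots_le φ hP (IsAlgClosed.splits _) hd (fun z hz => hB z ?_) i
  have h1 : (P.map φ).eval z = 0 := (mem_roots'.1 hz).2
  obtain ⟨P', rfl⟩ := h
  rw [Polynomial.map_mul, eval_mul, h1, zero_mul]

theorem Th_eq {r n : ℕ} (R : ℂ[X]) (hR : R.Monic) (hr : R.natDegree = r) (c : Fin r → Fin n → ℂ) (d : ℂ[X]) (x V : ℂ)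
    (h : ∀ m, ∑ i, c m i * x ^ (i : ℕ) = R.coeff m * d.eval x) : Th c d x V = d.eval x * R.eval V := by
  unfold Th
  simp only [h]
  have h1 : R.eval V = ∑ m ∈ Finset.range (r + 1), R.coeff m * V ^ m := by
    rw [Polynomial.eval_eq_sum_range, hr]
  rw [h1, Finset.sum_range_succ, ← hr, hR.coeff_natDegree, hr, Finset.sum_range, mul_add, one_mul, Finset.mul_sum]
  congr 1
  refine Finset.sum_congr rfl fun m _ => ?_
  ring

end Pool.Agent.K9h21.GP.TRP_

namespace Pool.Agent.K9h21.GP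

open Polynomial IntermediateField TRP_

theorem trp.{v} : S_TRP.{v} := by
  intro n n' B
  refine ⟨n * ((max B 1 ^ n' * n'.choose (n' / 2)) * (max B 1 ^ n * n.choose (n / 2))), ?_⟩
  intro k E _ _ _ _ _ f g b c hfm hfn hfi hgm hgn hgi hfb hgc hfB hfx hgx r r' hr hrr
  have : FiniteDimensional k E := Module.Finite.of_restrictScalars_finite ℚ k E
  have hbi : IsIntegral k b := Algebra.IsIntegral.isIntegral b
  have hci : IsIntegral k⟮b⟯ c := Algebra.IsIntegral.isIntegral c
  have hgen : minpoly k (AdjoinSimple.gen k b) = f := by rw [IntermediateField.minpoly_gen, hfb]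
  have hgeni : IsIntegral k (AdjoinSimple.gen k b) := Algebra.IsIntegral.isIntegral _
  set i : k →+* k⟮b⟯ := algebraMap k k⟮b⟯ with hi
  set R := minpoly k⟮b⟯ c with hR
  set G := minpolyDiv k (AdjoinSimple.gen k b) with hG
  have hRm : R.Monic := minpoly.monic hci
  have hgm' : (g.map i).Monic := hgm.map i
  have hfm' : (f.map i).Monic := hfm.map i
  have hGm : G.Monic := minpolyDiv_monic hgeni
  have hGd : G ∣ f.map i := by
    rw [← hgen]
    exact ⟨_, (minpolyDiv_spec k (AdjoinSimple.gen k b)).symm⟩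
  have hRd : R ∣ g.map i := by
    apply minpoly.dvd
    rw [aeval_map_algebraMap]
    exact hgc
  obtain ⟨R', hR'⟩ := hRd
  have hR'm : R'.Monic := hRm.of_mul_monic_left (hR' ▸ hgm')
  have hR'd : R'.natDegree = r' := by
    have h1 : (g.map i).natDegree = n' := by rw [hgm.natDegree_map, hgn]
    rw [hR', hRm.natDegree_mul hR'm] at h1
    omega
  have hGi : ∀ j, IsIntegral ℤ (G.coeff j) := int_of_dvd G (f.map i) hGm hfm' (fun j => by
    rw [coeff_map]; exact (hfi j).algebraMap) hGd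
  have hgi' : ∀ j, IsIntegral ℤ ((g.map i).coeff j) := fun j => by
    rw [coeff_map]; exact (hgi j).algebraMap
  have hRi : ∀ j, IsIntegral ℤ (R.coeff j) := int_of_dvd R (g.map i) hRm hgm' hgi' ⟨_, hR'⟩
  have hR'i : ∀ j, IsIntegral ℤ (R'.coeff j) := int_of_dvd R' (g.map i) hR'm hgm' hgi' ⟨R, by rw [hR', mul_comm]⟩
  have hmapg : ∀ (τ : k →+* ℂ) (φ : k⟮b⟯ →+* ℂ), φ.comp (algebraMap k k⟮b⟯) = τ → (g.map i).map φ = g.map τ := by
    intro τ φ h
    rw [Polynomial.map_map, hi, h]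
  have hmapf : ∀ (τ : k →+* ℂ) (φ : k⟮b⟯ →+* ℂ), φ.comp (algebraMap k k⟮b⟯) = τ → (f.map i).map φ = f.map τ := by
    intro τ φ h
    rw [Polynomial.map_map, hi, h]
  have hfin : Module.finrank k k⟮b⟯ = n := by
    rw [IntermediateField.adjoin.finrank hbi, hfb, hfn]
  have hGbd : ∀ (τ : k →+* ℂ) (φ : k⟮b⟯ →+* ℂ), φ.comp (algebraMap k k⟮b⟯) = τ → ∀ q, ‖φ (G.coeff q)‖ ≤
      max B 1 ^ n * n.choose (n / 2) := by
    intro τ φ h q
    refine coeff_bd φ G (f.map i) hGm hfm' hGd n B ?_ ?_ q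
    · refine (natDegree_le_of_dvd hGd hfm'.ne_zero).trans ?_
      rw [hfm.natDegree_map, hfn]
    · intro z hz
      rw [hmapf τ φ h] at hz
      exact hfx τ z hz
  have hRbd : ∀ (P : k⟮b⟯[X]), P.Monic → P ∣ g.map i → ∀ (τ : k →+* ℂ) (φ : k⟮b⟯ →+* ℂ),
      φ.comp (algebraMap k k⟮b⟯) = τ → ∀ q, ‖φ (P.coeff q)‖ ≤ max B 1 ^ n' * n'.choose (n' / 2) := by
    intro P hPm hPd τ φ h q
    refine coeff_bd φ P (g.map i) hPm hgm' hPd n' B ?_ ?_ q
    · refine (natDegree_le_of_dvd hPd hgm'.ne_zero).trans ?_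
      rw [hgm.natDegree_map, hgn]
    · intro z hz
      rw [hmapg τ φ h] at hz
      exact hgx τ z hz
  refine ⟨fun m q => Algebra.trace k k⟮b⟯ (R.coeff m * G.coeff q),
    fun m q => Algebra.trace k k⟮b⟯ (R'.coeff m * G.coeff q), ?_, ?_, ?_, ?_, ?_⟩
  · intro m q
    exact Algebra.isIntegral_trace ((hRi m).mul (hGi q))
  · intro m q
    exact Algebra.isIntegral_trace ((hR'i m).mul (hGi q))
  · intro τ m q
    have := tr_bound τ (R.coeff m) (G.coeff q) _ _ (fun φ h => hRbd R hRm ⟨_, hR'⟩ τ φ h m)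
      (fun φ h => hGbd τ φ h q)
    rwa [hfin] at this
  · intro τ m q
    have := tr_bound τ (R'.coeff m) (G.coeff q) _ _
      (fun φ h => hRbd R' hR'm ⟨R, by rw [hR', mul_comm]⟩ τ φ h m) (fun φ h => hGbd τ φ h q)
    rwa [hfin] at this
  · intro S x hx V
    have hex : ∃ φ : k⟮b⟯ →+* ℂ, φ.comp (algebraMap k k⟮b⟯) = S ∧ φ (AdjoinSimple.gen k b) = x := by
      let _ := S.toAlgebra
      have hlift : aeval x (minpoly k (adjoin.powerBasis hbi).gen) = 0 := by
        rw [adjoin.powerBasis_gen, hgen, aeval_def, ← eval_map]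
        exact hx
      refine ⟨((adjoin.powerBasis hbi).lift x hlift : k⟮b⟯ →ₐ[k] ℂ), ?_, ?_⟩
      · ext a
        exact ((adjoin.powerBasis hbi).lift x hlift).commutes a
      · have := (adjoin.powerBasis hbi).lift_gen x hlift
        rw [adjoin.powerBasis_gen] at this
        exact this
    obtain ⟨φ, hφ, hφx⟩ := hex
    have hform : ∀ y : k⟮b⟯, ∑ q : Fin n, S (Algebra.trace k k⟮b⟯ (y * G.coeff q)) * x ^ (q : ℕ) =
        φ y * (derivative (f.map S)).eval x := by
      intro y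
      have := tr_formula (AdjoinSimple.gen k b) (fun K _ _ σ τ h => by
        apply (adjoin.powerBasis hbi).algHom_ext
        rw [adjoin.powerBasis_gen]
        exact h) S φ hφ x hφx n (by rw [hgen, hfn]) y
      rw [hgen] at this
      exact this
    have e1 := Th_eq (R.map φ) (hRm.map φ) ((hRm.natDegree_map φ).trans hr)
      (fun m q => S (Algebra.trace k k⟮b⟯ (R.coeff m * G.coeff q))) (derivative (f.map S)) x V (fun m => by
        rw [coeff_map]; exact hform _)
    have e2 := Th_eq (R'.map φ) (hR'm.map φ) ((hR'm.natDegree_map φ).trans hR'd)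
      (fun m q => S (Algebra.trace k k⟮b⟯ (R'.coeff m * G.coeff q))) (derivative (f.map S)) x V (fun m => by
        rw [coeff_map]; exact hform _)
    beta_reduce
    rw [e1, e2, ← hmapg S φ hφ, hR', Polynomial.map_mul, eval_mul]
    ring

end Pool.Agent.K9h21.GP

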