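import Pool.Agent.K9h21.GP.Stm3
import Pool.Agent.N76.EC.Rig

set_option autoImplicit false

/-!
# Project GP, WN2 (helper81): finitely many windows for all combinations of the points of a fibre
-/

namespace Pool.Agent.K9h21.GP

open Polynomial Set Filter Topology
open Pool.Agent.N76.EC (Sys J P Zp Wp)
open Pool.Agent.N76.IR (Strip mem_Strip isOpen_Strip)
open scoped Real

namespace Wn2

variable {G : ℂ[X]} {n : ℕ} {η φ₀ ε : ℝ} {L : Fin n → ℂ → ℂ} {X : Fin n → ℝ → ℂ}

/-- the restriction to a smaller window -/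
theorem restrict (S : Sys G n η φ₀ ε L X) {α δ : ℝ} (hδ : 0 < δ) (h : |α - φ₀| + δ ≤ ε) :
    Sys G n η α δ L X := by
  have h1 := abs_le.1 (le_refl |α - φ₀|)
  have hsub : Strip α δ ⊆ Strip φ₀ ε := by
    intro θ hθ
    rw [mem_Strip] at hθ ⊢
    have h2 : θ.re - φ₀ = (θ.re - α) + (α - φ₀) := by ring
    rw [h2]
    exact (abs_add_le _ _).trans_lt (by linarith)
  exact
    { monic := S.monic
      deg := S.deg
      pos := S.pos
      hη := S.hη
      hε := hδ
      h0 := by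
        have := S.h0
        linarith [h1.1]
      h1 := by
        have := S.h1
        linarith [h1.2]
      Ld := fun k => (S.Ld k).mono hsub
      Lev := fun k θ hθ => S.Lev k θ (hsub hθ)
      Linj := fun θ hθ => S.Linj θ (hsub hθ)
      loop := S.loop
      Xev := S.Xev
      Xneg := S.Xneg
      Xinj := S.Xinj
      XL := fun l t ht => S.XL l t (by
        have h2 : 2 * π * t - φ₀ = (2 * π * t - α) + (α - φ₀) := by ring
        rw [h2]
        exact (abs_add_le _ _).trans_lt (by linarith)) }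

/-- the combination -/
noncomputable def hh (η : ℝ) (L : Fin n → ℂ → ℂ) (X : Fin n → ℝ → ℂ) (l : Fin n) (A : Fin n → ℝ)
    (p : Equiv.Perm (Fin n)) (β : ℝ) : ℝ :=
  ∑ x, A x * J X η L l (p x) β

theorem hh_eq (l : Fin n) (A : Fin n → ℝ) (p : Equiv.Perm (Fin n)) (β : ℝ) :
    hh η L X l A p β = ∑ k, A (p.symm k) * J X η L l k β := by
  unfold hh
  rw [← Equiv.sum_comp p fun k => A (p.symm k) * J X η L l k β]
  refine Finset.sum_congr rfl fun x _ => ?_
  rw [Equiv.symm_apply_apply]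

/-- a combination is not zero everywhere -/
theorem exists_ne (T : S_TCB) (S : Sys G n η φ₀ ε L X) {l x₀ : Fin n} {A : Fin n → ℝ} (hA : ∑ x, A x = 0)
    (hx : A x₀ ≠ 0) {p : Equiv.Perm (Fin n)} (hp : p x₀ = l) :
    ∃ β : ℝ, |β - φ₀| < ε ∧ hh η L X l A p β ≠ 0 := by
  classical
  have hpl : p.symm l = x₀ := by rw [← hp, Equiv.symm_apply_apply]
  have hsumA : ∑ k, A (p.symm k) = 0 := by
    rw [← hA, ← Equiv.sum_comp p fun k => A (p.symm k)]
    refine Finset.sum_congr rfl fun x _ => ?_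
    rw [Equiv.symm_apply_apply]
  have hall : ∑ k, (A (p.symm k) - A x₀) = -(n * A x₀) := by
    rw [Finset.sum_sub_distrib, hsumA, Finset.sum_const, Finset.card_univ, Fintype.card_fin, nsmul_eq_mul]
    ring
  have hdl : A (p.symm l) - A x₀ = 0 := by rw [hpl, sub_self]
  have herase : ∀ f : Fin n → ℝ, ∑ k ∈ Finset.univ.erase l, (A (p.symm k) - A x₀) * f k =
      ∑ k, (A (p.symm k) - A x₀) * f k := by
    intro f
    rw [← Finset.add_sum_erase _ _ (Finset.mem_univ l), hdl, zero_mul, zero_add]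
  have hne : (∑ k ∈ Finset.univ.erase l, (A (p.symm k) - A x₀)) ≠ 0 := by
    have h1 := herase fun _ => 1
    simp only [mul_one] at h1
    rw [h1, hall]
    have hn : (n : ℝ) ≠ 0 := by
      have := S.pos
      positivity
    exact neg_ne_zero.2 (mul_ne_zero hn hx)
  obtain ⟨α, hα, h2⟩ := T S l (fun k => A (p.symm k) - A x₀) hne
  rw [herase, herase] at h2
  have key : ∀ β : ℝ, |β - φ₀| < ε → ∑ k, (A (p.symm k) - A x₀) * J X η L l k β =
      hh η L X l A p β - A x₀ * P (Wp η) (Zp η) (2 * Complex.cos φ₀) := by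
    intro β hβ
    rw [hh_eq, ← S.sum_fibre l hβ, Finset.mul_sum, ← Finset.sum_sub_distrib]
    refine Finset.sum_congr rfl fun k _ => ?_
    ring
  rw [key α hα, key φ₀ S.φ_mem] at h2
  by_contra hcon
  push Not at hcon
  rw [hcon α hα, hcon φ₀ S.φ_mem] at h2
  exact h2 rfl

/-- continuity in both variables -/
theorem contAt (S : Sys G n η φ₀ ε L X) (l : Fin n) (A : Fin n → ℝ) (p : Equiv.Perm (Fin n)) {β : ℝ}
    (hβ : |β - φ₀| < ε) : ContinuousAt (fun z : (Fin n → ℝ) × ℝ => hh η L X l z.1 p z.2) (A, β) := by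
  unfold hh
  refine tendsto_finsetSum _ fun x _ => ?_
  have h1 : ContinuousAt (fun z : (Fin n → ℝ) × ℝ => z.1 x) (A, β) :=
    ((continuous_apply x).comp continuous_fst).continuousAt
  have h2 : ContinuousAt (fun z : (Fin n → ℝ) × ℝ => J X η L l (p x) z.2) (A, β) :=
    ContinuousAt.comp (f := Prod.snd) (g := J X η L l (p x)) (x := (A, β)) (S.contAt_J l (p x) hβ)
      continuous_snd.continuousAt
  exact h1.mul h2

/-- a window for one combination -/
theorem window (T : S_TCB) (S : Sys G n η φ₀ ε L X) {l x₀ : Fin n} {A : Fin n → ℝ} (hA : ∑ x, A x = 0)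
    (hx : A x₀ ≠ 0) (s : Finset (Equiv.Perm (Fin n))) :
    ∃ α δ : ℝ, 0 < δ ∧ |α - φ₀| + δ ≤ ε ∧ ∀ p ∈ s, p x₀ = l → ∀ β, |β - α| < δ → hh η L X l A p β ≠ 0 := by
  classical
  induction s using Finset.induction_on with
  | empty =>
    exact ⟨φ₀, ε, S.hε, by rw [sub_self, abs_zero, zero_add], fun p hp => absurd hp (Finset.notMem_empty p)⟩
  | insert p s _ ih =>
    obtain ⟨α, δ, hδ, hα, hw⟩ := ih
    by_cases hp : p x₀ = l
    · obtain ⟨β, hβ, hne⟩ := exists_ne T (restrict S hδ hα) hA hx hp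
      have hβ' : |β - φ₀| < ε := by
        have h2 : β - φ₀ = (β - α) + (α - φ₀) := by ring
        rw [h2]
        exact (abs_add_le _ _).trans_lt (by linarith)
      have hc : ContinuousAt (fun β : ℝ => hh η L X l A p β) β :=
        ContinuousAt.comp (f := fun β : ℝ => (A, β)) (g := fun z : (Fin n → ℝ) × ℝ => hh η L X l z.1 p z.2)
          (contAt S l A p hβ') (by fun_prop)
      have hev := hc.eventually_ne hne
      obtain ⟨r, hr, hball⟩ := Metric.eventually_nhds_iff.1 hev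
      have hpos : 0 < δ - |β - α| := by linarith
      refine ⟨β, min r (δ - |β - α|), lt_min hr hpos, ?_, fun p' hp' hp'l γ hγ => ?_⟩
      · have h1 := min_le_right r (δ - |β - α|)
        have h2 : |β - φ₀| ≤ |β - α| + |α - φ₀| := by
          have h3 : β - φ₀ = (β - α) + (α - φ₀) := by ring
          rw [h3]
          exact abs_add_le _ _
        linarith
      · rcases Finset.mem_insert.1 hp' with h1 | h1
        · subst h1
          refine hball ?_
          rw [Real.dist_eq]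
          exact hγ.trans_le (min_le_left _ _)
        · refine hw p' h1 hp'l γ ?_
          have h2 : γ - α = (γ - β) + (β - α) := by ring
          rw [h2]
          have h3 := hγ.trans_le (min_le_right r (δ - |β - α|))
          exact (abs_add_le _ _).trans_lt (by linarith)
    · refine ⟨α, δ, hδ, hα, fun p' hp' hp'l γ hγ => ?_⟩
      rcases Finset.mem_insert.1 hp' with h1 | h1
      · subst h1
        exact absurd hp'l hp
      · exact hw p' h1 hp'l γ hγ

/-- a window for all combinations near a given one -/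
theorem nbhd (T : S_TCB) (S : Sys G n η φ₀ ε L X) (l : Fin n) {A : Fin n → ℝ} (hA : ∑ x, A x = 0) (h0 : A ≠ 0) :
    ∃ (α δ : ℝ) (x₀ : Fin n), 0 < δ ∧ (∀ β, |β - α| < δ → |β - φ₀| < ε) ∧
      ∀ᶠ A' in 𝓝 A, ∀ p : Equiv.Perm (Fin n), p x₀ = l → ∀ β, |β - α| < δ → hh η L X l A' p β ≠ 0 := by
  classical
  obtain ⟨x₀, hx⟩ := Function.ne_iff.1 h0
  rw [Pi.zero_apply] at hx
  obtain ⟨α, δ, hδ, hα, hw⟩ := window T S (l := l) hA hx Finset.univ
  have hin : ∀ β, |β - α| < δ → |β - φ₀| < ε := by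
    intro β hβ
    have h2 : β - φ₀ = (β - α) + (α - φ₀) := by ring
    rw [h2]
    exact (abs_add_le _ _).trans_lt (by linarith)
  refine ⟨α, δ / 2, x₀, by linarith, fun β hβ => hin β (by linarith), ?_⟩
  have hK : IsCompact (Metric.closedBall α (δ / 2)) := isCompact_closedBall _ _
  have h1 : ∀ β ∈ Metric.closedBall α (δ / 2), ∀ᶠ z : (Fin n → ℝ) × ℝ in 𝓝 (A, β),
      ∀ p : Equiv.Perm (Fin n), p x₀ = l → hh η L X l z.1 p z.2 ≠ 0 := by
    intro β hβ
    rw [Metric.mem_closedBall, Real.dist_eq] at hβ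
    rw [eventually_all]
    intro p
    rw [eventually_imp_distrib_left]
    intro hp
    exact (contAt S l A p (hin β (by linarith))).eventually_ne
      (hw p (Finset.mem_univ p) hp β (by linarith))
  have h2 := hK.eventually_forall_of_forall_eventually (x₀ := A)
    (P := fun (A' : Fin n → ℝ) (β : ℝ) => ∀ p : Equiv.Perm (Fin n), p x₀ = l → hh η L X l A' p β ≠ 0) h1
  filter_upwards [h2] with A' hA' p hp β hβ
  exact hA' β (by rw [Metric.mem_closedBall, Real.dist_eq]; exact hβ.le) p hp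

/-- the combinations of norm one -/
theorem fin_windows (T : S_TCB) (S : Sys G n η φ₀ ε L X) (l : Fin n) :
    ∃ W : Finset (ℝ × ℝ), (∀ w ∈ W, 0 < w.2 ∧ ∀ β, |β - w.1| < w.2 → |β - φ₀| < ε) ∧
      ∀ A ∈ Metric.sphere (0 : Fin n → ℝ) 1 ∩ {A | ∑ x, A x = 0}, ∃ w ∈ W, ∃ x₀ : Fin n,
        ∀ p : Equiv.Perm (Fin n), p x₀ = l → ∀ β, |β - w.1| < w.2 → hh η L X l A p β ≠ 0 := by
  classical
  have hcl : IsClosed {A : Fin n → ℝ | ∑ x, A x = 0} :=
    isClosed_eq (continuous_finsetSum _ fun x _ => continuous_apply x) continuous_const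
  have hK : IsCompact (Metric.sphere (0 : Fin n → ℝ) 1 ∩ {A | ∑ x, A x = 0}) :=
    (isCompact_sphere (0 : Fin n → ℝ) 1).inter_right hcl
  refine hK.induction_on (p := fun s => ∃ W : Finset (ℝ × ℝ),
    (∀ w ∈ W, 0 < w.2 ∧ ∀ β, |β - w.1| < w.2 → |β - φ₀| < ε) ∧
      ∀ A ∈ s, ∃ w ∈ W, ∃ x₀ : Fin n,
        ∀ p : Equiv.Perm (Fin n), p x₀ = l → ∀ β, |β - w.1| < w.2 → hh η L X l A p β ≠ 0) ?_ ?_ ?_ ?_
  · exact ⟨∅, fun w hw => absurd hw (Finset.notMem_empty w), fun A hA => absurd hA (Set.notMem_empty A)⟩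
  · rintro s t hst ⟨W, h1, h2⟩
    exact ⟨W, h1, fun A hA => h2 A (hst hA)⟩
  · rintro s t ⟨W₁, h1, h2⟩ ⟨W₂, h3, h4⟩
    refine ⟨W₁ ∪ W₂, fun w hw => ?_, fun A hA => ?_⟩
    · rcases Finset.mem_union.1 hw with h | h
      · exact h1 w h
      · exact h3 w h
    · rcases hA with hA | hA
      · obtain ⟨w, hw, h⟩ := h2 A hA
        exact ⟨w, Finset.mem_union_left _ hw, h⟩
      · obtain ⟨w, hw, h⟩ := h4 A hA
        exact ⟨w, Finset.mem_union_right _ hw, h⟩
  · rintro A ⟨hA1, hA2⟩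
    have h0 : A ≠ 0 := by
      rintro rfl
      rw [mem_sphere_zero_iff_norm, norm_zero] at hA1
      exact zero_ne_one hA1
    obtain ⟨α, δ, x₀, hδ, hin, hev⟩ := nbhd T S l hA2 h0
    refine ⟨_, mem_nhdsWithin_of_mem_nhds hev, {(α, δ)}, ?_, ?_⟩
    · intro w hw
      rw [Finset.mem_singleton] at hw
      subst hw
      exact ⟨hδ, hin⟩
    · intro A' hA'
      exact ⟨(α, δ), Finset.mem_singleton_self _, x₀, hA'⟩

end Wn2

/-- **WN2** -/
theorem wn2 (h : S_TCB) : S_WN2 := by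
  classical
  intro G n η φ₀ ε L X S l
  obtain ⟨W, h1, h2⟩ := Wn2.fin_windows h S l
  refine ⟨W.card, fun j => (W.equivFin.symm j).1.1, fun j => (W.equivFin.symm j).1.2,
    fun j => (h1 _ (W.equivFin.symm j).2).1, fun j => (h1 _ (W.equivFin.symm j).2).2, fun A hA h0 => ?_⟩
  have hpos : 0 < ‖A‖ := norm_pos_iff.2 h0
  have hmem : ‖A‖⁻¹ • A ∈ Metric.sphere (0 : Fin n → ℝ) 1 ∩ {A | ∑ x, A x = 0} := by
    refine ⟨?_, ?_⟩
    · rw [mem_sphere_zero_iff_norm, norm_smul, norm_inv, norm_norm, inv_mul_cancel₀ hpos.ne']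
    · show ∑ x, (‖A‖⁻¹ • A) x = 0
      simp only [Pi.smul_apply, smul_eq_mul]
      rw [← Finset.mul_sum, hA, mul_zero]
  obtain ⟨w, hw, x₀, h3⟩ := h2 _ hmem
  refine ⟨W.equivFin ⟨w, hw⟩, x₀, fun p hp β hβ hz => ?_⟩
  simp only [Equiv.symm_apply_apply] at hβ
  refine h3 p hp β hβ ?_
  unfold Wn2.hh
  simp only [Pi.smul_apply, smul_eq_mul, mul_assoc]
  rw [← Finset.mul_sum, hz, mul_zero]

end Pool.Agent.K9h21.GP
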